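import Pool.Agent.Lib.MP_ccbbf6_gt.Geo.EXc

/-!
# EQa: the derivative of the exponential map along a geodesic (interior points), no manifold
-/

set_option autoImplicit false

open Set Filter Topology Metric Real
open scoped ContDiff RealInnerProductSpace

noncomputable section

namespace Pool.Agent.Lib.MP_ccbbf6_gt.Geo

variable {n : ℕ} {M : Type*} [MetricSpace M] [CompactSpace M] (𝒜 : SDist n M)

/-- the derivative of the exponential map, in the chart centered at `Ex p ξ` -/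
def SDist.DE (p : M) (ξ : Eu n) : Eu n →L[ℝ] Eu n :=
  fderiv ℝ (fun η => 𝒜.ψ (𝒜.Ex p ξ) (𝒜.Ex p η)) ξ

theorem hasFDerivAt_DE (hB : Bl M) (p : M) (ξ : Eu n) :
    HasFDerivAt (fun η => 𝒜.ψ (𝒜.Ex p ξ) (𝒜.Ex p η)) (𝒜.DE p ξ) ξ :=
  ((contDiffAt_Ex 𝒜 hB p ξ (𝒜.mem _)).differentiableAt (by simp)).hasFDerivAt

/-- the geodesic with initial velocity `v` -/
theorem vel_gv (hB : Bl M) (p : M) {v : Eu n} (hv : ‖v‖ = 1) (t : ℝ) :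
    𝒜.DE p (t • v) v = 𝒜.vel (𝒜.gv p v) t := by
  have h1 := hasFDerivAt_DE 𝒜 hB p (t • v)
  have h2 : HasDerivAt (fun s : ℝ => s • v) v t := by
    have := (hasDerivAt_id t).smul_const v
    rwa [one_smul] at this
  have h3 := h1.comp_hasDerivAt t h2
  have h4 : (fun η => 𝒜.ψ (𝒜.Ex p (t • v)) (𝒜.Ex p η)) ∘ (fun s : ℝ => s • v) =
      fun s => 𝒜.ψ (𝒜.gv p v t) (𝒜.gv p v s) := by
    funext s
    simp only [Function.comp_apply]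
    rw [Ex_smul 𝒜 hB p hv, Ex_smul 𝒜 hB p hv]
  rw [h4] at h3
  exact h3.deriv.symm

/-- the equation for `D Ex` in terms of `B` -/
theorem B_DE (hB : Bl M) {c : ℝ → M} (hc : IsGeo c) {t : ℝ} (h0 : 0 < t) (h1 : t < π) (a η : Eu n) :
    -⟪𝒜.vel c 0, a⟫ * ⟪𝒜.vel c t, 𝒜.DE (c 0) (t • 𝒜.vel c 0) η⟫ +
      t * 𝒜.B (c 0) (c t) a (𝒜.DE (c 0) (t • 𝒜.vel c 0) η) = -⟪a, η⟫ := by
  have hv := (hc.exists_vel 𝒜 0).1
  have hgv : 𝒜.gv (c 0) (𝒜.vel c 0) = c := by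
    rw [gv_eq 𝒜 hc 0]
    simp
  have hE : 𝒜.Ex (c 0) (t • 𝒜.vel c 0) = c t := by rw [Ex_smul 𝒜 hB _ hv, hgv]
  have h2 := BF_Ex 𝒜 hB (c 0) (ξ := t • 𝒜.vel c 0)
    (by rw [norm_smul, hv, mul_one, Real.norm_eq_abs, abs_of_pos h0]; exact h1) a η
  have h3 := BF_eq 𝒜 hB hc (s := 0) (t := t) h0 (by linarith) a (𝒜.DE (c 0) (t • 𝒜.vel c 0) η)
  rw [sub_zero] at h3
  rw [← h3, ← h2, hE]
  unfold SDist.DE
  rw [hE]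

/-- Gauss lemma -/
theorem gauss_DE (hB : Bl M) {c : ℝ → M} (hc : IsGeo c) {t : ℝ} (h0 : 0 < t) (h1 : t < π) (η : Eu n) :
    ⟪𝒜.vel c t, 𝒜.DE (c 0) (t • 𝒜.vel c 0) η⟫ = ⟪𝒜.vel c 0, η⟫ := by
  have h2 := B_DE 𝒜 hB hc h0 h1 (𝒜.vel c 0) η
  have hv := (hc.exists_vel 𝒜 0).1
  rw [B_vel 𝒜 hB hc (s := 0) (t := t) (by exact h0.ne)
    (by rw [zero_sub, abs_neg, abs_of_pos h0]; exact h1),
    real_inner_self_eq_norm_sq, hv] at h2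
  linarith

theorem B_DE' (hB : Bl M) {c : ℝ → M} (hc : IsGeo c) {t : ℝ} (h0 : 0 < t) (h1 : t < π) {w : Eu n}
    (hw : ⟪𝒜.vel c 0, w⟫ = 0) (a : Eu n) :
    t * 𝒜.B (c 0) (c t) a (𝒜.DE (c 0) (t • 𝒜.vel c 0) w) = -⟪a, w⟫ := by
  have h2 := B_DE 𝒜 hB hc h0 h1 a w
  rw [gauss_DE 𝒜 hB hc h0 h1, hw, mul_zero, zero_add] at h2
  exact h2

/-- The equality case of Theorem 1 along `c`. -/
def SDist.Gram (c : ℝ → M) (V : Submodule ℝ (Eu n)) : Prop :=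
  (∀ a ∈ V, ⟪𝒜.vel c 0, a⟫ = 0) ∧ ∀ t, 0 < t → t < π → ∀ w y : Eu n, ⟪𝒜.vel c 0, w⟫ = 0 →
    ⟪𝒜.vel c t, y⟫ = 0 → (∀ a, t * 𝒜.B (c 0) (c t) a y = -⟪a, w⟫) →
    t ^ 2 * ‖y‖ ^ 2 = Real.sin t ^ 2 * ‖V.starProjection w‖ ^ 2 +
      4 * Real.sin (t / 2) ^ 2 * ‖w - V.starProjection w‖ ^ 2

theorem Gram.polar (hB : Bl M) {c : ℝ → M} (hc : IsGeo c) {V : Submodule ℝ (Eu n)} (hG : 𝒜.Gram c V) {t : ℝ}
    (h0 : 0 < t) (h1 : t < π) {w : Eu n} (hw : ⟪𝒜.vel c 0, w⟫ = 0) :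
    t ^ 2 * ‖𝒜.DE (c 0) (t • 𝒜.vel c 0) w‖ ^ 2 = Real.sin t ^ 2 * ‖V.starProjection w‖ ^ 2 +
      4 * Real.sin (t / 2) ^ 2 * ‖w - V.starProjection w‖ ^ 2 :=
  hG.2 t h0 h1 w _ hw (by rw [gauss_DE 𝒜 hB hc h0 h1, hw]) (B_DE' 𝒜 hB hc h0 h1 hw)

/-- injectivity at the origin -/
theorem DE_zero_inj (hB : Bl M) (p : M) : Function.Injective (𝒜.DE p 0) := by
  refine (injective_iff_map_eq_zero _).2 fun η hη => ?_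
  have h1 := BF_Ex 𝒜 hB p (ξ := 0) (by rw [norm_zero]; exact pi_pos) η η
  have h2 : fderiv ℝ (fun η => 𝒜.ψ (𝒜.Ex p 0) (𝒜.Ex p η)) 0 η = 0 := hη
  rw [h2, map_zero] at h1
  have h3 : ⟪η, η⟫ = (0 : ℝ) := by linarith
  exact inner_self_eq_zero.1 h3

end Pool.Agent.Lib.MP_ccbbf6_gt.Geo
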