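import Pool.Agent.Lib.MP_ccbbf6_gt.Geo.EQb

/-!
# EQc: frames; the value of the Jacobian in the equality case gives `Gram`
-/

set_option autoImplicit false

open Set Filter Topology Metric Real
open scoped ContDiff RealInnerProductSpace Matrix

noncomputable section

namespace Pool.Agent.Lib.MP_ccbbf6_gt.Geo

/-- orthonormal frames of the orthogonal complement of a unit vector -/
theorem exists_frame {n N : ℕ} (hn : n = N + 1) {v : Eu n} (hv : ‖v‖ = 1) : ∃ L : Eu N →ₗᵢ[ℝ] Eu n, Frame v L := by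
  have hv0 : v ≠ 0 := by
    rintro rfl
    rw [norm_zero] at hv
    exact zero_ne_one hv
  have hf : Fact (Module.finrank ℝ (Eu n) = N + 1) := ⟨by rw [finrank_euclideanSpace_fin, hn]⟩
  have h1 : Module.finrank ℝ (Submodule.span ℝ {v})ᗮ = N := Submodule.finrank_orthogonal_span_singleton hv0
  let b := (stdOrthonormalBasis ℝ (Submodule.span ℝ {v})ᗮ).reindex (finCongr h1)
  refine ⟨(Submodule.span ℝ {v})ᗮ.subtypeₗᵢ.comp b.repr.symm.toLinearIsometry, ?_, ?_⟩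
  · intro a
    exact (Submodule.mem_orthogonal_singleton_iff_inner_right.1 (b.repr.symm a).2)
  · intro w hw
    refine ⟨b.repr ⟨w, Submodule.mem_orthogonal_singleton_iff_inner_right.2 hw⟩, ?_⟩
    change ((b.repr.symm (b.repr ⟨w, _⟩) : (Submodule.span ℝ {v})ᗮ) : Eu n) = w
    rw [LinearIsometryEquiv.symm_apply_apply]

variable {n : ℕ} {M : Type*} [MetricSpace M] [CompactSpace M] (𝒜 : SDist n M)

/-- Theorem 1 along `c`, with the equality case; `κ` is the multiplicity. -/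
def SDist.Thm1 (κ N : ℕ) (c : ℝ → M) (L : Eu N →ₗᵢ[ℝ] Eu n) : Prop :=
  ∃ P : Matrix (Fin N) (Fin N) ℝ, P.transpose = P ∧ P * P = P ∧
    (∀ x ∈ Ioo 0 π, (𝒜.Gmat c L x).det ≠ 0) ∧ ∀ t ∈ Ioo 0 π,
      2 * π * (κ * Real.log (Real.sin t) + (N - κ : ℕ) * Real.log (2 * Real.sin (t / 2))) ≤
        ∫ w in (0 : ℝ)..(2 * π), Real.log (𝒜.J (c w) (c (w + t))) ∧
      (∫ w in (0 : ℝ)..(2 * π), Real.log (𝒜.J (c w) (c (w + t))) =
        2 * π * (κ * Real.log (Real.sin t) + (N - κ : ℕ) * Real.log (2 * Real.sin (t / 2))) →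
        ∀ x ∈ Ioo 0 t, (𝒜.Gmat c L x)⁻¹ = Real.sin x ^ 2 • P + (4 * Real.sin (x / 2) ^ 2) • (1 - P))

/-- **EQ**: if the Jacobian is the one of the model then `Gram` holds along every geodesic. -/
theorem gram_of_J (hB : Bl M) {κ N : ℕ} (hn : n = N + 1)
    (hT : ∀ c : ℝ → M, IsGeo c → ∀ L : Eu N →ₗᵢ[ℝ] Eu n, Frame (𝒜.vel c 0) L → 𝒜.Thm1 κ N c L)
    (hJ : ∀ p q : M, 0 < dist p q → dist p q < π →
      𝒜.J p q = Real.sin (dist p q) ^ κ * (2 * Real.sin (dist p q / 2)) ^ (N - κ)) :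
    ∀ c : ℝ → M, IsGeo c → ∃ V, 𝒜.Gram c V := by
  intro c hc
  obtain ⟨L, hL⟩ := exists_frame hn (hc.exists_vel 𝒜 0).1
  obtain ⟨P, hP, hP2, hdet, hmain⟩ := hT c hc L hL
  refine gram_of_matrix 𝒜 hB hc hL hP hP2 fun x hx => ⟨hdet x hx, ?_⟩
  -- choose `t` between `x` and `π`
  have ht : (x + π) / 2 ∈ Ioo 0 π := ⟨by linarith [hx.1, pi_pos], by linarith [hx.2]⟩
  refine (hmain _ ht).2 ?_ x ⟨hx.1, by linarith [hx.2]⟩
  set t := (x + π) / 2 with htd
  have hs : 0 < Real.sin t := Real.sin_pos_of_pos_of_lt_pi ht.1 ht.2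
  have hs' : 0 < 2 * Real.sin (t / 2) :=
    mul_pos two_pos (Real.sin_pos_of_pos_of_lt_pi (by linarith [ht.1]) (by linarith [ht.2, pi_pos]))
  have h1 : ∀ w : ℝ, Real.log (𝒜.J (c w) (c (w + t))) =
      κ * Real.log (Real.sin t) + (N - κ : ℕ) * Real.log (2 * Real.sin (t / 2)) := by
    intro w
    have hd : dist (c w) (c (w + t)) = t := by
      rw [hc w (w + t) (by rw [sub_add_cancel_left, abs_neg, abs_of_pos ht.1]; exact ht.2.le), sub_add_cancel_left,
        abs_neg, abs_of_pos ht.1]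
    rw [hJ _ _ (by rw [hd]; exact ht.1) (by rw [hd]; exact ht.2), hd, Real.log_mul (pow_ne_zero _ hs.ne')
      (pow_ne_zero _ hs'.ne'), Real.log_pow, Real.log_pow]
  simp only [h1]
  rw [intervalIntegral.integral_const, sub_zero, smul_eq_mul]

end Pool.Agent.Lib.MP_ccbbf6_gt.Geo
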