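import Pool.Agent.Lib.MP_ccbbf6_gt.Geo.EXb

/-!
# EXc: the differential of the exponential map (helper34)

Everything is the chain rule for the two-point function `F p q` at `(0, 0)` (the calculus lemmas `exc_*` and `fderiv_F_Ex` are in EXb).
-/

set_option autoImplicit false

open Set Filter Topology Metric Real
open scoped ContDiff RealInnerProductSpace

noncomputable section

namespace Pool.Agent.Lib.MP_ccbbf6_gt.Geo

variable {n : ℕ} {M : Type*} [MetricSpace M] [CompactSpace M] (𝒜 : SDist n M)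

/-- `F p q` seen from another second point of the chart -/
theorem exc_F_shift {p q q' : M} (hq : q' ∈ (𝒜.ψ q).source) (u : Eu n) :
    𝒜.F p q (u, 𝒜.ψ q q') = 𝒜.F p q' (u, 0) := by
  unfold SDist.F SDist.f
  simp only
  rw [(𝒜.ψ q).left_inv hq, exc_symm_zero]

/-- derivative of the exponential map: `D₂ D₁ F ∘ D Ex = - 1` -/
theorem BF_Ex (hB : Bl M) (p : M) {ξ : Eu n} (h : ‖ξ‖ < π) (a η : Eu n) :
    𝒜.BF p (𝒜.Ex p ξ) a (fderiv ℝ (fun η => 𝒜.ψ (𝒜.Ex p ξ) (𝒜.Ex p η)) ξ η) = -⟪a, η⟫ := by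
  set q := 𝒜.Ex p ξ with hq
  set Φ : Eu n → Eu n := fun η => 𝒜.ψ q (𝒜.Ex p η) with hΦdef
  have hd : dist p q < π := by
    rw [hq, dist_Ex 𝒜 hB p h.le]
    exact h
  have hF : ContDiffAt ℝ ∞ (𝒜.F p q) (0, 0) := contDiffAt_F 𝒜 hB hd
  have hF2 : ContDiffAt ℝ 2 (𝒜.F p q) (0, 0) := hF.of_le (WithTop.coe_le_coe.2 le_top)
  have hΦ0 : Φ ξ = 0 := by
    rw [hΦdef]
    show 𝒜.ψ q q = 0
    exact 𝒜.zero q
  have hΦs : ContDiffAt ℝ ∞ Φ ξ := contDiffAt_Ex 𝒜 hB p ξ (q := q) (by rw [← hq]; exact 𝒜.mem q)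
  have hΦd : HasFDerivAt Φ (fderiv ℝ Φ ξ) ξ := (hΦs.differentiableAt (by simp)).hasFDerivAt
  have hF2' : ContDiffAt ℝ 2 (𝒜.F p q) (0, Φ ξ) := by
    rw [hΦ0]
    exact hF2
  have h1 := exc_chain hF2' hΦd a
  have h2 : (fun η => fderiv ℝ (fun u' => 𝒜.F p q (u', Φ η)) 0 a) =ᶠ[𝓝 ξ] fun η => -⟪η, a⟫ := by
    have h3 : ∀ᶠ η in 𝓝 ξ, 𝒜.Ex p η ∈ (𝒜.ψ q).source :=
      (continuous_Ex 𝒜 hB p).continuousAt.eventually ((𝒜.ψ q).open_source.mem_nhds (𝒜.mem q))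
    have h4 : ∀ᶠ η : Eu n in 𝓝 ξ, ‖η‖ < π := continuous_norm.continuousAt.eventually (gt_mem_nhds h)
    filter_upwards [h3, h4] with η h5 h6
    have e : (fun u' => 𝒜.F p q (u', Φ η)) = fun u' => 𝒜.F p (𝒜.Ex p η) (u', 0) := by
      funext u'
      exact exc_F_shift 𝒜 h5 u'
    rw [e]
    exact fderiv_F_Ex 𝒜 hB p h6 a
  have h3 : HasFDerivAt (fun η : Eu n => -⟪η, a⟫) (-(innerSL ℝ a)) ξ := by
    have h4 : HasFDerivAt (fun η : Eu n => -(innerSL ℝ a η)) (-(innerSL ℝ a)) ξ := (innerSL ℝ a).hasFDerivAt.neg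
    refine h4.congr_of_eventuallyEq (Filter.Eventually.of_forall fun η => ?_)
    show -⟪η, a⟫ = -(innerSL ℝ a η)
    rw [innerSL_apply_apply, real_inner_comm]
  have h4 := (h3.congr_of_eventuallyEq h2).unique h1
  have h5 := congrArg (fun L : Eu n →L[ℝ] ℝ => L η) h4
  have h6 : fderiv ℝ (fderiv ℝ (𝒜.F p q)) (0, 0) (0, fderiv ℝ Φ ξ η) (a, 0) = -⟪a, η⟫ := by
    have h7 : fderiv ℝ (fderiv ℝ (𝒜.F p q)) (0, Φ ξ) (0, fderiv ℝ Φ ξ η) (a, 0) = (-(innerSL ℝ a)) η := h5.symm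
    rw [hΦ0] at h7
    rw [h7, _root_.neg_apply, innerSL_apply_apply]
  unfold SDist.BF
  rw [exc_mixed hF2, exc_mixed_symm hF2, h6]

/-- the matrix of `BF` times the matrix of the differential of `Ex` -/
theorem exc_matrix {B : Eu n →L[ℝ] Eu n →L[ℝ] ℝ} {L : Eu n →L[ℝ] Eu n} (h : ∀ a η, B a (L η) = -⟪a, η⟫) :
    |L.det| = |(Matrix.of fun i j : Fin n => B (EuclideanSpace.single i 1) (EuclideanSpace.single j 1)).det|⁻¹ := by
  set b := (EuclideanSpace.basisFun (Fin n) ℝ).toBasis with hb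
  have hbi : ∀ i, b i = EuclideanSpace.single i (1 : ℝ) := by
    intro i
    rw [hb, OrthonormalBasis.coe_toBasis, EuclideanSpace.basisFun_apply]
  set T : Matrix (Fin n) (Fin n) ℝ := LinearMap.toMatrix b b (L : Eu n →ₗ[ℝ] Eu n) with hT
  set N : Matrix (Fin n) (Fin n) ℝ := Matrix.of fun i j : Fin n =>
    B (EuclideanSpace.single i 1) (EuclideanSpace.single j 1) with hN
  have h1 : L.det = T.det := by
    rw [hT, LinearMap.det_toMatrix]
  have h2 : N * T = -1 := by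
    ext i j
    rw [Matrix.mul_apply]
    have h3 : L (EuclideanSpace.single j 1) = ∑ k, T k j • EuclideanSpace.single k (1 : ℝ) := by
      have h4 := b.sum_repr (L (b j))
      rw [← hbi j, ← h4]
      refine Finset.sum_congr rfl fun k _ => ?_
      rw [hbi k, hT, LinearMap.toMatrix_apply]
      rfl
    have h4 := h (EuclideanSpace.single i 1) (EuclideanSpace.single j 1)
    rw [h3, map_sum] at h4
    have h5 : ∑ k, N i k * T k j = ∑ k, B (EuclideanSpace.single i 1) (T k j • EuclideanSpace.single k (1 : ℝ)) := by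
      refine Finset.sum_congr rfl fun k _ => ?_
      rw [map_smul, smul_eq_mul, mul_comm]
      rfl
    rw [h5, h4, EuclideanSpace.inner_single_left, Matrix.neg_apply, Matrix.one_apply]
    simp only [map_one, one_mul, PiLp.single_apply]
  have h3 : |N.det| * |T.det| = 1 := by
    rw [← abs_mul, ← Matrix.det_mul, h2, Matrix.det_neg, Matrix.det_one, mul_one, abs_pow, abs_neg, abs_one, one_pow]
  rw [h1]
  exact eq_inv_of_mul_eq_one_right h3

theorem det_Ex (hB : Bl M) (p : M) {ξ : Eu n} (h : ‖ξ‖ < π) :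
    |(fderiv ℝ (fun η => 𝒜.ψ (𝒜.Ex p ξ) (𝒜.Ex p η)) ξ).det| = (𝒜.theta p (𝒜.Ex p ξ))⁻¹ :=
  exc_matrix (BF_Ex 𝒜 hB p h)

/-- relation of `BF` and `B`: `D₁D₂F = D₁d ⊗ D₂d + d D₁D₂d` -/
theorem BF_eq (hB : Bl M) {c : ℝ → M} (hc : IsGeo c) {s t : ℝ} (h0 : s < t) (h1 : t < s + π) (a b : Eu n) :
    𝒜.BF (c s) (c t) a b = -⟪𝒜.vel c s, a⟫ * ⟪𝒜.vel c t, b⟫ + (t - s) * 𝒜.B (c s) (c t) a b := by
  have hd : dist (c s) (c t) = t - s := by
    have e : |s - t| = t - s := by rw [abs_sub_comm, abs_of_pos (by linarith)]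
    have h := hc s t (by rw [e]; linarith)
    rw [h, e]
  have hdp : 0 < dist (c s) (c t) := by rw [hd]; linarith
  have hdπ : dist (c s) (c t) < π := by rw [hd]; linarith
  have hs : ContDiffAt ℝ ∞ (𝒜.f (c s) (c t)) (0, 0) := contDiffAt_f 𝒜 hB hdp hdπ
  have hs2 : ContDiffAt ℝ 2 (𝒜.f (c s) (c t)) (0, 0) := hs.of_le (WithTop.coe_le_coe.2 le_top)
  have hF2 : ContDiffAt ℝ 2 (𝒜.F (c s) (c t)) (0, 0) := (contDiffAt_F 𝒜 hB hdπ).of_le (WithTop.coe_le_coe.2 le_top)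
  obtain ⟨g1, g2⟩ := exc_diff hs2
  have hD1 : fderiv ℝ (𝒜.f (c s) (c t)) (0, 0) (a, 0) = -⟪𝒜.vel c s, a⟫ := by
    rw [← exc_partial1 (hs2.differentiableAt (by decide)) a]
    have h2 := D1_forward 𝒜 hB hc (s := s) (t := t - s) (by linarith) (by linarith) a
    rw [add_sub_cancel] at h2
    exact h2
  have hD2 : fderiv ℝ (𝒜.f (c s) (c t)) (0, 0) (0, b) = ⟪𝒜.vel c t, b⟫ := by
    rw [← exc_partial2 (hs2.differentiableAt (by decide)) b]
    have h2 := D1_backward 𝒜 hB hc (s := t) (t := t - s) (by linarith) (by linarith) b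
    rw [sub_sub_cancel] at h2
    rw [← h2]
    unfold SDist.D1
    have e : (fun v' => 𝒜.f (c s) (c t) (0, v')) = fun u => 𝒜.f (c t) (c s) (u, 0) := by
      funext v'
      unfold SDist.f
      rw [dist_comm]
    rw [e]
  have h2 : (fderiv ℝ (𝒜.F (c s) (c t))) =ᶠ[𝓝 (0, 0)] fun z => 𝒜.f (c s) (c t) z • fderiv ℝ (𝒜.f (c s) (c t)) z := by
    filter_upwards [g1] with z hz
    have h3 := (hz.hasFDerivAt.pow 2).mul_const (1 / 2 : ℝ)
    have h4 : HasFDerivAt (𝒜.F (c s) (c t))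
        ((1 / 2 : ℝ) • ((2 • 𝒜.f (c s) (c t) z ^ (2 - 1)) • fderiv ℝ (𝒜.f (c s) (c t)) z)) z := by
      refine h3.congr_of_eventuallyEq (Filter.Eventually.of_forall fun u => ?_)
      show 𝒜.f (c s) (c t) u ^ 2 / 2 = 𝒜.f (c s) (c t) u ^ 2 * (1 / 2)
      ring
    rw [h4.fderiv, smul_smul]
    congr 1
    simp
  have h3 : HasFDerivAt (fun z => 𝒜.f (c s) (c t) z • fderiv ℝ (𝒜.f (c s) (c t)) z)
      (𝒜.f (c s) (c t) (0, 0) • fderiv ℝ (fderiv ℝ (𝒜.f (c s) (c t))) (0, 0) +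
        (fderiv ℝ (𝒜.f (c s) (c t)) (0, 0)).smulRight (fderiv ℝ (𝒜.f (c s) (c t)) (0, 0))) (0, 0) :=
    (hs2.differentiableAt (by decide)).hasFDerivAt.smul g2.hasFDerivAt
  have h4 := (h3.congr_of_eventuallyEq h2).fderiv
  unfold SDist.BF SDist.B
  rw [exc_mixed hF2, exc_mixed hs2, h4]
  simp only [_root_.add_apply, _root_.smul_apply, ContinuousLinearMap.smulRight_apply, hD1, hD2, exc_f_zero, hd, smul_eq_mul]
  ring

end Pool.Agent.Lib.MP_ccbbf6_gt.Geo
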