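import Pool.Agent.Lib.MP_ccbbf6_gt.ML

/-!
# KC1: constant rank (helper79)

If the kernels of `fderiv Φ w`, `w` near `v`, all have the same dimension, then for every `a` in the kernel at `v` there
is a curve `g` with `g 0 = v`, `g' 0 = a` on which `Φ` is constant.  Proof: `Θ w = L† (Φ w - Φ v) + P (w - v)`, `L = fderiv Φ v`, `P` the
orthogonal projection on `ker L`, has the invertible derivative `L† L + P` at `v`; `g τ = Θ⁻¹ (τ a)`.
-/

set_option autoImplicit false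

open Set Filter Topology Metric
open scoped ContDiff RealInnerProductSpace

noncomputable section

namespace Pool.Agent.Lib.MP_ccbbf6_gt.Geo

variable {E F : Type*} [NormedAddCommGroup E] [InnerProductSpace ℝ E] [FiniteDimensional ℝ E]
  [NormedAddCommGroup F] [InnerProductSpace ℝ F] [FiniteDimensional ℝ F]

theorem const_rank_curve {Φ : E → F} {v : E} (hΦ : ContDiffAt ℝ 1 Φ v) {m : ℕ}
    (hm : ∀ᶠ w in 𝓝 v, Module.finrank ℝ (LinearMap.ker (fderiv ℝ Φ w : E →ₗ[ℝ] F)) = m) {a : E}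
    (ha : fderiv ℝ Φ v a = 0) :
    ∃ g : ℝ → E, g 0 = v ∧ HasDerivAt g a 0 ∧ ∀ᶠ τ in 𝓝 (0 : ℝ), Φ (g τ) = Φ v := by
  classical
  have : CompleteSpace E := FiniteDimensional.complete ℝ E
  have : CompleteSpace F := FiniteDimensional.complete ℝ F
  obtain ⟨L, hL⟩ : ∃ L : E →L[ℝ] F, L = fderiv ℝ Φ v := ⟨_, rfl⟩
  obtain ⟨K, hK⟩ : ∃ K : Submodule ℝ E, K = LinearMap.ker (L : E →ₗ[ℝ] F) := ⟨_, rfl⟩
  have hKm : Module.finrank ℝ K = m := by rw [hK, hL]; exact hm.self_of_nhds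
  have hmemK : ∀ x, x ∈ K ↔ L x = 0 := fun x => by rw [hK]; exact LinearMap.mem_ker
  have haK : a ∈ K := (hmemK a).mpr (by rw [hL]; exact ha)
  obtain ⟨Ls, hLs⟩ : ∃ Ls : F →L[ℝ] E, Ls = ContinuousLinearMap.adjoint L := ⟨_, rfl⟩
  obtain ⟨P, hP⟩ : ∃ P : E →L[ℝ] E, P = K.starProjection := ⟨_, rfl⟩
  have hPK : ∀ x ∈ K, P x = x := fun x hx => by rw [hP]; exact Submodule.starProjection_eq_self_iff.mpr hx
  have hPmem : ∀ x, P x ∈ K := fun x => by rw [hP]; exact Submodule.starProjection_apply_mem K x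
  have hPin : ∀ x y, y ∈ K → ⟪P x, y⟫ = ⟪x, y⟫ := by
    intro x y hy
    have h1 : ⟪x - P x, y⟫ = 0 := by
      rw [hP]
      exact Submodule.starProjection_inner_eq_zero x y hy
    rw [inner_sub_left] at h1
    linarith
  -- values of `Ls` are orthogonal to `K`
  have hLsK : ∀ y, ∀ x ∈ K, ⟪Ls y, x⟫ = 0 := by
    intro y x hx
    rw [hLs, ContinuousLinearMap.adjoint_inner_left, (hmemK x).mp hx, inner_zero_right]
  -- injectivity of `T + P`
  have hinj : ∀ (T : E →L[ℝ] E) (x : E), (∀ y, ∀ z ∈ K, ⟪T y, z⟫ = 0) → T x + P x = 0 → T x = 0 ∧ P x = 0 := by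
    intro T x hT h
    have h1 : ⟪T x + P x, P x⟫ = 0 := by rw [h, inner_zero_left]
    rw [inner_add_left, hT x _ (hPmem x), zero_add, inner_self_eq_zero] at h1
    rw [h1, add_zero] at h
    exact ⟨h, h1⟩
  have hinjL : ∀ x, (Ls.comp L + P) x = 0 → x = 0 := by
    intro x hx
    obtain ⟨h1, h2⟩ := hinj (Ls.comp L) x (fun y z hz => hLsK _ z hz) hx
    have h3 : L x = 0 := by
      have h4 : ⟪(Ls.comp L) x, x⟫ = 0 := by rw [h1, inner_zero_left]
      rw [ContinuousLinearMap.comp_apply, hLs, ContinuousLinearMap.adjoint_inner_left, inner_self_eq_zero] at h4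
      exact h4
    rw [← hPK x ((hmemK x).mpr h3)]
    exact h2
  -- the equivalence
  have hinj' : Function.Injective (Ls.comp L + P : E →L[ℝ] E) := by
    intro x y hxy
    have : (Ls.comp L + P) (x - y) = 0 := by rw [map_sub, hxy, sub_self]
    exact sub_eq_zero.mp (hinjL _ this)
  obtain ⟨e, he⟩ : ∃ e : E ≃L[ℝ] E, (e : E →L[ℝ] E) = Ls.comp L + P := by
    refine ⟨(LinearEquiv.ofInjectiveEndo ((Ls.comp L + P : E →L[ℝ] E) : E →ₗ[ℝ] E) hinj').toContinuousLinearEquiv, ?_⟩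
    ext x
    rfl
  -- the map
  obtain ⟨Θ, hΘ⟩ : ∃ Θ : E → E, Θ = fun w => Ls (Φ w - Φ v) + P (w - v) := ⟨_, rfl⟩
  have hΘv : Θ v = 0 := by rw [hΘ]; simp
  have hΘd : ∀ w, DifferentiableAt ℝ Φ w → HasFDerivAt Θ (Ls.comp (fderiv ℝ Φ w) + P) w := by
    intro w hw
    rw [hΘ]
    exact (Ls.hasFDerivAt.comp w (hw.hasFDerivAt.sub_const (Φ v))).add
      (P.hasFDerivAt.comp w ((hasFDerivAt_id w).sub_const v))
  have hΦd : ∀ᶠ w in 𝓝 v, DifferentiableAt ℝ Φ w := by
    filter_upwards [hΦ.eventually (by simp)] with w hw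
    exact hw.differentiableAt one_ne_zero
  have hΘC : ContDiffAt ℝ 1 Θ v := by
    rw [hΘ]
    exact (Ls.contDiff.contDiffAt.comp v (hΦ.sub contDiffAt_const)).add
      (P.contDiff.contDiffAt.comp v (contDiffAt_id.sub contDiffAt_const))
  have hΘe : HasFDerivAt Θ (e : E →L[ℝ] E) v := by
    rw [he, hL]
    exact hΘd v hΦd.self_of_nhds
  obtain ⟨G, hG⟩ : ∃ G : E → E, G = hΘC.localInverse hΘe one_ne_zero := ⟨_, rfl⟩
  have hG0 : G 0 = v := by
    rw [hG, ← hΘv]
    exact hΘC.localInverse_apply_image hΘe one_ne_zero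
  have hGC : ContDiffAt ℝ 1 G 0 := by
    rw [hG, ← hΘv]
    exact hΘC.to_localInverse hΘe one_ne_zero
  have hGr : ∀ᶠ y in 𝓝 (0 : E), Θ (G y) = y := by
    rw [hG, ← hΘv]
    exact (hΘC.hasStrictFDerivAt' hΘe one_ne_zero).eventually_right_inverse
  -- derivative of `Θ` near `v` is injective
  have hunit : ∀ᶠ w in 𝓝 v, ∀ x, Ls (fderiv ℝ Φ w x) + P x = 0 → x = 0 := by
    have hc : ContinuousAt (fun w => fderiv ℝ Θ w) v := (hΘC.fderiv_right (m := 0) (by simp)).continuousAt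
    have hopen : IsOpen {T : E →L[ℝ] E | IsUnit T} := Units.isOpen
    have hv : IsUnit (fderiv ℝ Θ v) := by
      rw [hΘe.fderiv]
      exact ⟨⟨e, e.symm, by ext x; simp, by ext x; simp⟩, rfl⟩
    filter_upwards [hc.eventually (hopen.mem_nhds hv), hΦd] with w hw hwd x hx
    obtain ⟨U, hU⟩ := hw
    rw [(hΘd w hwd).fderiv] at hU
    have h1 : (U : E →L[ℝ] E) x = 0 := by rw [hU]; exact hx
    have h2 : ((↑(U⁻¹) : E →L[ℝ] E) * (U : E →L[ℝ] E)) x = x := by rw [Units.inv_mul]; rfl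
    rw [← h2]
    show (↑(U⁻¹) : E →L[ℝ] E) ((U : E →L[ℝ] E) x) = 0
    rw [h1, map_zero]
  -- the kernels agree
  have hker : ∀ᶠ w in 𝓝 v, ∀ x, Ls (fderiv ℝ Φ w x) = 0 → fderiv ℝ Φ w x = 0 := by
    filter_upwards [hunit, hm] with w hw hmw x hx
    obtain ⟨T, hT⟩ : ∃ T : E →ₗ[ℝ] E, T = (Ls.comp (fderiv ℝ Φ w) : E →L[ℝ] E) := ⟨_, rfl⟩
    have hTx : ∀ y, T y = Ls (fderiv ℝ Φ w y) := fun y => by rw [hT]; rfl
    have hle : LinearMap.ker (fderiv ℝ Φ w : E →ₗ[ℝ] F) ≤ LinearMap.ker T := by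
      intro y hy
      rw [LinearMap.mem_ker] at hy ⊢
      rw [hTx]
      have hy' : fderiv ℝ Φ w y = 0 := hy
      rw [hy', map_zero]
    have hfin : Module.finrank ℝ (LinearMap.ker T) ≤ m := by
      rw [← hKm]
      have hmap : ∀ y : LinearMap.ker T, P y ∈ K := fun y => hPmem y
      refine LinearMap.finrank_le_finrank_of_injective
        (f := LinearMap.codRestrict K ((P : E →ₗ[ℝ] E).comp (LinearMap.ker T).subtype) hmap) ?_
      rw [← LinearMap.ker_eq_bot, LinearMap.ker_eq_bot']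
      intro y hy
      have h1 : P (y : E) = 0 := congrArg Subtype.val hy
      have h2 : T y = 0 := LinearMap.mem_ker.mp y.2
      rw [hTx] at h2
      exact Subtype.ext (hw _ (by rw [h1, h2, add_zero]))
    have heq := Submodule.eq_of_le_of_finrank_le hle (by rw [hmw]; exact hfin)
    have hxT : x ∈ LinearMap.ker T := LinearMap.mem_ker.mpr (by rw [hTx]; exact hx)
    rw [← heq] at hxT
    exact LinearMap.mem_ker.mp hxT
  -- the curve
  have hcurve0 : Tendsto (fun τ : ℝ => τ • a) (𝓝 0) (𝓝 (0 : E)) := by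
    have : Continuous (fun τ : ℝ => τ • a) := by fun_prop
    have h := this.tendsto 0
    rwa [zero_smul] at h
  refine ⟨fun τ => G (τ • a), by simp only [zero_smul]; exact hG0, ?_, ?_⟩
  · have hGd : HasFDerivAt G (e.symm : E →L[ℝ] E) 0 := by
      have h1 := (hΘC.hasStrictFDerivAt' hΘe one_ne_zero).to_localInverse.hasFDerivAt
      rw [hΘv] at h1
      rw [hG]
      exact h1
    have h2 : HasDerivAt (fun τ : ℝ => τ • a) a 0 := by
      have := (hasDerivAt_id (0 : ℝ)).smul_const a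
      rwa [one_smul] at this
    have h3 : HasFDerivAt G (e.symm : E →L[ℝ] E) ((0 : ℝ) • a) := by rwa [zero_smul]
    have h4 := h3.comp_hasDerivAt (0 : ℝ) h2
    have h5 : (e.symm : E →L[ℝ] E) a = a := by
      have h6 : e a = a := by
        have : (e : E →L[ℝ] E) a = a := by
          rw [he]
          show Ls (L a) + P a = a
          rw [(hmemK a).mp haK, map_zero, zero_add, hPK a haK]
        exact this
      show e.symm a = a
      rw [ContinuousLinearEquiv.symm_apply_eq, h6]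
    rw [h5] at h4
    exact h4
  · -- zero derivative near 0
    have hGcont : Tendsto (fun τ : ℝ => G (τ • a)) (𝓝 0) (𝓝 v) := by
      have h := hGC.continuousAt.tendsto.comp hcurve0
      rwa [hG0] at h
    have hGdiff : ∀ᶠ y in 𝓝 (0 : E), DifferentiableAt ℝ G y := by
      filter_upwards [hGC.eventually (by simp)] with y hy
      exact hy.differentiableAt one_ne_zero
    have e1 : ∀ᶠ τ in 𝓝 (0 : ℝ), DifferentiableAt ℝ (fun τ : ℝ => G (τ • a)) τ := by
      filter_upwards [hcurve0.eventually hGdiff] with τ hτ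
      exact hτ.comp τ (by fun_prop)
    have e2 : ∀ᶠ τ in 𝓝 (0 : ℝ), Ls (Φ (G (τ • a)) - Φ v) = 0 := by
      filter_upwards [hcurve0.eventually hGr] with τ hτ
      rw [hΘ] at hτ
      have hτ' : Ls (Φ (G (τ • a)) - Φ v) + P (G (τ • a) - v) = τ • a := hτ
      have h1 : Ls (Φ (G (τ • a)) - Φ v) ∈ K := by
        have : Ls (Φ (G (τ • a)) - Φ v) = τ • a - P (G (τ • a) - v) := eq_sub_of_add_eq hτ'
        rw [this]
        exact K.sub_mem (K.smul_mem _ haK) (hPmem _)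
      have h2 := hLsK (Φ (G (τ • a)) - Φ v) _ h1
      rwa [inner_self_eq_zero] at h2
    have e3 := hGcont.eventually hΦd
    have e4 := hGcont.eventually hker
    have e5 := e2.eventually_nhds
    have hall := (((e1.and e3).and e4).and e5)
    obtain ⟨δ, hδ, hδb⟩ := Metric.eventually_nhds_iff_ball.mp hall
    have hd : ∀ τ ∈ ball (0 : ℝ) δ, HasDerivAt (fun τ : ℝ => Φ (G (τ • a))) 0 τ := by
      intro τ hτ
      obtain ⟨⟨⟨k1, k3⟩, k4⟩, k5⟩ := hδb τ hτ
      have h1 : HasDerivAt (fun τ : ℝ => Φ (G (τ • a))) (fderiv ℝ Φ (G (τ • a)) (deriv (fun τ : ℝ => G (τ • a)) τ)) τ :=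
        k3.hasFDerivAt.comp_hasDerivAt τ k1.hasDerivAt
      have h2 : HasDerivAt (fun τ : ℝ => Ls (Φ (G (τ • a)) - Φ v))
          (Ls (fderiv ℝ Φ (G (τ • a)) (deriv (fun τ : ℝ => G (τ • a)) τ))) τ :=
        Ls.hasFDerivAt.comp_hasDerivAt τ (h1.sub_const (Φ v))
      have h3 : HasDerivAt (fun τ : ℝ => Ls (Φ (G (τ • a)) - Φ v)) 0 τ :=
        (hasDerivAt_const τ (0 : E)).congr_of_eventuallyEq k5
      have h4 := h2.unique h3
      have h5 := k4 _ h4
      rw [h5] at h1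
      exact h1
    filter_upwards [ball_mem_nhds (0 : ℝ) hδ] with τ hτ
    have hconst := (isOpen_ball (x := (0 : ℝ)) (ε := δ)).is_const_of_deriv_eq_zero (𝕜 := ℝ)
      (f := fun τ : ℝ => Φ (G (τ • a))) (convex_ball (0 : ℝ) δ).isPreconnected
      (fun τ hτ => (hd τ hτ).differentiableAt.differentiableWithinAt) (fun τ hτ => (hd τ hτ).deriv) hτ
      (mem_ball_self hδ)
    have hconst' : Φ (G (τ • a)) = Φ (G ((0 : ℝ) • a)) := hconst
    rw [zero_smul, hG0] at hconst'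
    exact hconst'

end Pool.Agent.Lib.MP_ccbbf6_gt.Geo
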