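import Pool.Agent.Lib.MP_ccbbf6_gt.Geo.CZa
import Pool.Agent.Lib.MP_ccbbf6_gt.Geo.EXc
import Pool.Agent.Lib.MP_ccbbf6_gt.Geo.KC1

/-!
# KAc: the dimension of the spheres `Lam` (helper79)

`rad s w = (s / |w|) w`, `X_s w = Ex q (rad s w)`.  For a unit vector `v`, `c = gv q v` and `0 < s < π`:
the kernel of `D X_s (v)` is the line of `v`, its image is the orthogonal complement of `vel c s`, and `D X_π (v) a = 0` iff `D X_s (v) a ∈ Ker c 0 s`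
(differentiate `D_y [d(q, y) + d(y, z)] = 0`, `y = X_s w`, `z = X_π w`). So `D X_π` has constant rank, and the fibre of `X_π` through `v`, which is contained
in the subspace `V`, has dimension `κ + 1` (`const_rank_curve`).
-/

set_option autoImplicit false

open Set Filter Topology Metric Real
open scoped ContDiff RealInnerProductSpace

noncomputable section

namespace Pool.Agent.Lib.MP_ccbbf6_gt.Geo

section Rad

variable {n : ℕ}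

/-- radial projection on the sphere of radius `s` -/
def rad (s : ℝ) (w : Eu n) : Eu n := (s / ‖w‖) • w

theorem rad_unit (s : ℝ) {w : Eu n} (hw : ‖w‖ = 1) : rad s w = s • w := by
  unfold rad
  rw [hw, div_one]

theorem rad_eq (s : ℝ) (w : Eu n) : rad s w = s • (‖w‖⁻¹ • w) := by
  unfold rad
  rw [smul_smul, div_eq_mul_inv]

theorem norm_normalize {w : Eu n} (hw : w ≠ 0) : ‖‖w‖⁻¹ • w‖ = 1 := by
  rw [norm_smul, norm_inv, norm_norm, inv_mul_cancel₀ (norm_ne_zero_iff.mpr hw)]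

theorem rad_smul (s : ℝ) {r : ℝ} (hr : 0 < r) (w : Eu n) : rad s (r • w) = rad s w := by
  unfold rad
  rw [norm_smul, Real.norm_of_nonneg hr.le, smul_smul]
  congr 1
  by_cases hw : ‖w‖ = 0
  · rw [hw]; simp
  · field_simp

theorem contDiffAt_rad (s : ℝ) {w : Eu n} (hw : w ≠ 0) : ContDiffAt ℝ ∞ (rad s) w := by
  unfold rad
  exact (contDiffAt_const.div (contDiffAt_norm ℝ hw) (norm_ne_zero_iff.mpr hw)).smul contDiffAt_id

theorem fderiv_rad_self (s : ℝ) {v : Eu n} (hv : ‖v‖ = 1) : fderiv ℝ (rad s) v v = 0 := by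
  have hne : v ≠ 0 := by
    intro h
    rw [h, norm_zero] at hv
    exact zero_ne_one hv
  have h1 : HasFDerivAt (rad s) (fderiv ℝ (rad s) v) v :=
    ((contDiffAt_rad s hne).differentiableAt (by simp)).hasFDerivAt
  have h2 : HasDerivAt (fun τ : ℝ => τ • v) v 1 := by
    have := (hasDerivAt_id (1 : ℝ)).smul_const v
    rwa [one_smul] at this
  have h1' : HasFDerivAt (rad s) (fderiv ℝ (rad s) v) ((1 : ℝ) • v) := by rwa [one_smul]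
  have h3 := h1'.comp_hasDerivAt (1 : ℝ) h2
  have h4 : HasDerivAt (rad s ∘ fun τ : ℝ => τ • v) 0 1 := by
    refine (hasDerivAt_const (1 : ℝ) (rad s v)).congr_of_eventuallyEq ?_
    filter_upwards [lt_mem_nhds (zero_lt_one (α := ℝ))] with τ hτ
    exact rad_smul s hτ v
  exact h3.unique h4

theorem fderiv_rad_ker {s : ℝ} (hs : 0 < s) {v : Eu n} (hv : ‖v‖ = 1) {a : Eu n} (ha : fderiv ℝ (rad s) v a = 0) :
    ∃ r : ℝ, a = r • v := by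
  have hne : v ≠ 0 := by
    intro h
    rw [h, norm_zero] at hv
    exact zero_ne_one hv
  have h1 : HasFDerivAt (rad s) (fderiv ℝ (rad s) v) v :=
    ((contDiffAt_rad s hne).differentiableAt (by simp)).hasFDerivAt
  have h2 : HasFDerivAt (fun w : Eu n => ‖w‖) (fderiv ℝ (fun w : Eu n => ‖w‖) v) v :=
    ((contDiffAt_norm ℝ hne (n := 1)).differentiableAt (by simp)).hasFDerivAt
  have h3 : HasFDerivAt (fun w : Eu n => ‖w‖ • rad s w) _ v := h2.smul h1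
  have h4 : HasFDerivAt (fun w : Eu n => s • w) (s • ContinuousLinearMap.id ℝ (Eu n)) v :=
    (hasFDerivAt_id v).const_smul s
  have h5 : (fun w : Eu n => s • w) =ᶠ[𝓝 v] fun w => ‖w‖ • rad s w := by
    filter_upwards [isOpen_ne.mem_nhds hne] with w hw
    unfold rad
    rw [smul_smul, mul_div_cancel₀ _ (norm_ne_zero_iff.mpr hw)]
  have h6 := h3.unique (h4.congr_of_eventuallyEq h5.symm)
  have h7 := congrArg (fun T : Eu n →L[ℝ] Eu n => T a) h6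
  simp only [ContinuousLinearMap.add_apply, ContinuousLinearMap.smul_apply, ContinuousLinearMap.smulRight_apply,
    ContinuousLinearMap.id_apply, ha, smul_zero, zero_add] at h7
  refine ⟨fderiv ℝ (fun w : Eu n => ‖w‖) v a, ?_⟩
  rw [rad_unit s hv, smul_smul, mul_comm, ← smul_smul] at h7
  exact (smul_right_injective _ hs.ne' h7).symm

end Rad

variable {n : ℕ} {M : Type*} [MetricSpace M] [CompactSpace M] (𝒜 : SDist n M)

theorem kc_Ex (hB : Bl M) (q : M) {w : Eu n} (hw : w ≠ 0) (s : ℝ) :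
    𝒜.Ex q (rad s w) = 𝒜.gv q (‖w‖⁻¹ • w) s := by
  rw [rad_eq, Ex_smul 𝒜 hB q (norm_normalize hw)]

theorem kc_dist (hB : Bl M) (q : M) {w : Eu n} (hw : w ≠ 0) {s t : ℝ} (h : |s - t| ≤ π) :
    dist (𝒜.Ex q (rad s w)) (𝒜.Ex q (rad t w)) = |s - t| := by
  rw [kc_Ex 𝒜 hB q hw, kc_Ex 𝒜 hB q hw]
  exact (gv_spec 𝒜 hB q (norm_normalize hw)).1 s t h

theorem kc_dist' (hB : Bl M) (q : M) {w : Eu n} (hw : w ≠ 0) {s : ℝ} (h : |s| ≤ π) :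
    dist (𝒜.Ex q (rad s w)) q = |s| := by
  obtain ⟨h1, h2, -⟩ := gv_spec 𝒜 hB q (norm_normalize hw)
  rw [kc_Ex 𝒜 hB q hw]
  have h3 := h1 s 0 (by rwa [sub_zero])
  rwa [h2, sub_zero] at h3

/-- `X_s` in the chart centered at `r` -/
def SDist.X (q r : M) (s : ℝ) (w : Eu n) : Eu n := 𝒜.ψ r (𝒜.Ex q (rad s w))

theorem contDiffAt_X (hB : Bl M) (q r : M) (s : ℝ) {w : Eu n} (hw : w ≠ 0) (h : 𝒜.Ex q (rad s w) ∈ (𝒜.ψ r).source) :
    ContDiffAt ℝ ∞ (𝒜.X q r s) w :=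
  (contDiffAt_Ex 𝒜 hB q (rad s w) h).comp w (contDiffAt_rad s hw)

theorem continuousAt_Exrad (hB : Bl M) (q : M) (s : ℝ) {w : Eu n} (hw : w ≠ 0) :
    ContinuousAt (fun w => 𝒜.Ex q (rad s w)) w :=
  (continuous_Ex 𝒜 hB q).continuousAt.comp (contDiffAt_rad s hw).continuousAt

section Unit

variable {q : M} {v : Eu n} (hv : ‖v‖ = 1)
include hv

theorem kc_ne : v ≠ 0 := by
  intro h
  rw [h, norm_zero] at hv
  exact zero_ne_one hv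

theorem kc_gv (hB : Bl M) (s : ℝ) : 𝒜.Ex q (rad s v) = 𝒜.gv q v s := by
  rw [rad_unit s hv, Ex_smul 𝒜 hB q hv]

theorem X_self (hB : Bl M) (s : ℝ) : 𝒜.X q (𝒜.gv q v s) s v = 0 := by
  unfold SDist.X
  rw [kc_gv 𝒜 hv hB, 𝒜.zero]

theorem hasFDerivAt_X (hB : Bl M) (s : ℝ) :
    HasFDerivAt (𝒜.X q (𝒜.gv q v s) s) (fderiv ℝ (𝒜.X q (𝒜.gv q v s) s) v) v :=
  ((contDiffAt_X 𝒜 hB q _ s (kc_ne hv) (by rw [kc_gv 𝒜 hv hB]; exact 𝒜.mem _)).differentiableAt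
    (by simp)).hasFDerivAt

/-- near `v` the point `Ex q (rad s w)` is recovered from `X` -/
theorem symm_X (hB : Bl M) (s : ℝ) :
    ∀ᶠ w in 𝓝 v, w ≠ 0 ∧ (𝒜.ψ (𝒜.gv q v s)).symm (𝒜.X q (𝒜.gv q v s) s w) = 𝒜.Ex q (rad s w) := by
  have h1 := continuousAt_Exrad 𝒜 hB q s (kc_ne hv)
  have h2 : (𝒜.ψ (𝒜.gv q v s)).source ∈ 𝓝 (𝒜.Ex q (rad s v)) := by
    rw [kc_gv 𝒜 hv hB]
    exact (𝒜.ψ _).open_source.mem_nhds (𝒜.mem _)
  filter_upwards [h1.eventually h2, isOpen_ne.mem_nhds (kc_ne hv)] with w hw hw0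
  exact ⟨hw0, (𝒜.ψ (𝒜.gv q v s)).left_inv hw⟩

/-- Gauss lemma, first form -/
theorem gauss1 (hB : Bl M) {s : ℝ} (h0 : 0 < s) (h1 : s < π) (a : Eu n) :
    ⟪𝒜.vel (𝒜.gv q v) s, fderiv ℝ (𝒜.X q (𝒜.gv q v s) s) v a⟫ = 0 := by
  obtain ⟨hc, hc0, -⟩ := gv_spec 𝒜 hB q hv
  have hd : dist (𝒜.gv q v s) q = s := by
    have := hc s 0 (by rw [sub_zero, abs_of_pos h0]; exact h1.le)
    rwa [hc0, sub_zero, abs_of_pos h0] at this
  have hf : ContDiffAt ℝ ∞ (𝒜.f (𝒜.gv q v s) q) (0, 0) := contDiffAt_f 𝒜 hB (by rw [hd]; exact h0) (by rw [hd]; exact h1)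
  have hf1 : HasFDerivAt (fun u => 𝒜.f (𝒜.gv q v s) q (u, 0)) (𝒜.D1 (𝒜.gv q v s) q) 0 := by
    have h2 : DifferentiableAt ℝ (𝒜.f (𝒜.gv q v s) q) (0, 0) := hf.differentiableAt (by simp)
    have h3 : HasFDerivAt (fun u => 𝒜.f (𝒜.gv q v s) q (u, 0)) _ 0 :=
      HasFDerivAt.comp (g := 𝒜.f (𝒜.gv q v s) q) (f := fun e : Eu n => (e, (0 : Eu n))) (0 : Eu n) h2.hasFDerivAt
        (hasFDerivAt_prodMk_left (0 : Eu n) (0 : Eu n))
    exact h3.differentiableAt.hasFDerivAt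
  have hX := hasFDerivAt_X 𝒜 (q := q) hv hB s
  have hX0 := X_self 𝒜 (q := q) hv hB s
  have hf1' : HasFDerivAt (fun u => 𝒜.f (𝒜.gv q v s) q (u, 0)) (𝒜.D1 (𝒜.gv q v s) q)
      (𝒜.X q (𝒜.gv q v s) s v) := by
    rw [hX0]
    exact hf1
  have h3 := hf1'.comp v hX
  have h4 : HasFDerivAt ((fun u => 𝒜.f (𝒜.gv q v s) q (u, 0)) ∘ 𝒜.X q (𝒜.gv q v s) s) (0 : Eu n →L[ℝ] ℝ) v := by
    refine (hasFDerivAt_const s v).congr_of_eventuallyEq ?_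
    filter_upwards [symm_X 𝒜 (q := q) hv hB s] with w hw
    show dist ((𝒜.ψ (𝒜.gv q v s)).symm (𝒜.X q (𝒜.gv q v s) s w)) ((𝒜.ψ q).symm 0) = s
    rw [hw.2, symm_zero, kc_dist' 𝒜 hB q hw.1 (by rw [abs_of_pos h0]; exact h1.le), abs_of_pos h0]
  have h5 := congrArg (fun T : Eu n →L[ℝ] ℝ => T a) (h3.unique h4)
  have h6 := D1_backward 𝒜 hB hc (s := s) h0 h1 (fderiv ℝ (𝒜.X q (𝒜.gv q v s) s) v a)
  rw [sub_self, hc0] at h6
  rw [← h6]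
  exact h5

/-- Gauss lemma, second form -/
theorem gauss2 (hB : Bl M) {s : ℝ} (h0 : 0 < s) (h1 : s < π) (a : Eu n) :
    ⟪𝒜.vel (𝒜.gv q v) π, fderiv ℝ (𝒜.X q (𝒜.gv q v π) π) v a⟫ = 0 := by
  obtain ⟨hc, hc0, -⟩ := gv_spec 𝒜 hB q hv
  have hπs : |s - π| = π - s := by rw [abs_sub_comm, abs_of_pos (by linarith)]
  have hd : dist (𝒜.gv q v s) (𝒜.gv q v π) = π - s := by
    rw [hc s π (by rw [hπs]; linarith), hπs]
  have hf : ContDiffAt ℝ ∞ (𝒜.f (𝒜.gv q v s) (𝒜.gv q v π)) (0, 0) :=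
    contDiffAt_f 𝒜 hB (by rw [hd]; linarith) (by rw [hd]; linarith)
  have hfd : DifferentiableAt ℝ (𝒜.f (𝒜.gv q v s) (𝒜.gv q v π)) (0, 0) := hf.differentiableAt (by simp)
  have hX := hasFDerivAt_X 𝒜 (q := q) hv hB s
  have hX0 := X_self 𝒜 (q := q) hv hB s
  have hZ := hasFDerivAt_X 𝒜 (q := q) hv hB π
  have hZ0 := X_self 𝒜 (q := q) hv hB π
  have hXZ := hX.prodMk hZ
  have hf1 : HasFDerivAt (𝒜.f (𝒜.gv q v s) (𝒜.gv q v π)) (fderiv ℝ (𝒜.f (𝒜.gv q v s) (𝒜.gv q v π)) (0, 0))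
      (𝒜.X q (𝒜.gv q v s) s v, 𝒜.X q (𝒜.gv q v π) π v) := by
    rw [hX0, hZ0]
    exact hfd.hasFDerivAt
  have h3 := hf1.comp v hXZ
  have h4 : HasFDerivAt (𝒜.f (𝒜.gv q v s) (𝒜.gv q v π) ∘
      fun w => (𝒜.X q (𝒜.gv q v s) s w, 𝒜.X q (𝒜.gv q v π) π w)) (0 : Eu n →L[ℝ] ℝ) v := by
    refine (hasFDerivAt_const (π - s) v).congr_of_eventuallyEq ?_
    filter_upwards [symm_X 𝒜 (q := q) hv hB s, symm_X 𝒜 (q := q) hv hB π] with w hw hw'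
    show dist ((𝒜.ψ (𝒜.gv q v s)).symm (𝒜.X q (𝒜.gv q v s) s w))
      ((𝒜.ψ (𝒜.gv q v π)).symm (𝒜.X q (𝒜.gv q v π) π w)) = π - s
    rw [hw.2, hw'.2, kc_dist 𝒜 hB q hw.1 (by rw [hπs]; linarith), hπs]
  have h5 := congrArg (fun T : Eu n →L[ℝ] ℝ => T a) (h3.unique h4)
  have h5' : fderiv ℝ (𝒜.f (𝒜.gv q v s) (𝒜.gv q v π)) (0, 0)
      (fderiv ℝ (𝒜.X q (𝒜.gv q v s) s) v a, fderiv ℝ (𝒜.X q (𝒜.gv q v π) π) v a) = 0 := h5
  have hsplit : (fderiv ℝ (𝒜.X q (𝒜.gv q v s) s) v a, fderiv ℝ (𝒜.X q (𝒜.gv q v π) π) v a) =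
      (fderiv ℝ (𝒜.X q (𝒜.gv q v s) s) v a, 0) + ((0 : Eu n), fderiv ℝ (𝒜.X q (𝒜.gv q v π) π) v a) := by
    rw [Prod.mk_add_mk, add_zero, zero_add]
  rw [hsplit, map_add] at h5'
  -- first term
  have e1 : fderiv ℝ (𝒜.f (𝒜.gv q v s) (𝒜.gv q v π)) (0, 0) (fderiv ℝ (𝒜.X q (𝒜.gv q v s) s) v a, 0) =
      𝒜.D1 (𝒜.gv q v s) (𝒜.gv q v π) (fderiv ℝ (𝒜.X q (𝒜.gv q v s) s) v a) := by
    unfold SDist.D1
    rw [sm0_fderiv_fst hfd]
    rfl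
  have e2 : fderiv ℝ (𝒜.f (𝒜.gv q v s) (𝒜.gv q v π)) (0, 0) ((0 : Eu n), fderiv ℝ (𝒜.X q (𝒜.gv q v π) π) v a) =
      𝒜.D1 (𝒜.gv q v π) (𝒜.gv q v s) (fderiv ℝ (𝒜.X q (𝒜.gv q v π) π) v a) := by
    unfold SDist.D1
    have h6 : (fun u => 𝒜.f (𝒜.gv q v π) (𝒜.gv q v s) (u, 0)) = fun u => 𝒜.f (𝒜.gv q v s) (𝒜.gv q v π) (0, u) := by
      funext u
      unfold SDist.f
      rw [dist_comm]
    rw [h6, sm0_fderiv_snd hfd]
    rfl
  have h7 := D1_forward 𝒜 hB hc (s := s) (t := π - s) (by linarith) (by linarith)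
    (fderiv ℝ (𝒜.X q (𝒜.gv q v s) s) v a)
  have h8 := D1_backward 𝒜 hB hc (s := π) (t := π - s) (by linarith) (by linarith)
    (fderiv ℝ (𝒜.X q (𝒜.gv q v π) π) v a)
  rw [add_sub_cancel] at h7
  rw [sub_sub_cancel] at h8
  rw [e1, e2, h7, h8, gauss1 𝒜 hv hB h0 h1, neg_zero, zero_add] at h5'
  exact h5'

/-- the differentiated criticality of `d(q, .) + d(., z)` -/
theorem star (hB : Bl M) {s : ℝ} (h0 : 0 < s) (h1 : s < π) (a b : Eu n) :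
    𝒜.H (𝒜.gv q v s) q (fderiv ℝ (𝒜.X q (𝒜.gv q v s) s) v a) b +
      𝒜.H (𝒜.gv q v s) (𝒜.gv q v π) (fderiv ℝ (𝒜.X q (𝒜.gv q v s) s) v a) b +
      𝒜.B (𝒜.gv q v s) (𝒜.gv q v π) b (fderiv ℝ (𝒜.X q (𝒜.gv q v π) π) v a) = 0 := by
  obtain ⟨hc, hc0, -⟩ := gv_spec 𝒜 hB q hv
  have hπs : |s - π| = π - s := by rw [abs_sub_comm, abs_of_pos (by linarith)]
  have hd : dist (𝒜.gv q v s) (𝒜.gv q v π) = π - s := by
    rw [hc s π (by rw [hπs]; linarith), hπs]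
  have hd0 : dist (𝒜.gv q v s) q = s := by
    have := hc s 0 (by rw [sub_zero, abs_of_pos h0]; exact h1.le)
    rwa [hc0, sub_zero, abs_of_pos h0] at this
  have hf : ContDiffAt ℝ ∞ (𝒜.f (𝒜.gv q v s) (𝒜.gv q v π)) (0, 0) :=
    contDiffAt_f 𝒜 hB (by rw [hd]; linarith) (by rw [hd]; linarith)
  have hg : ContDiffAt ℝ ∞ (𝒜.f (𝒜.gv q v s) q) (0, 0) := contDiffAt_f 𝒜 hB (by rw [hd0]; exact h0) (by rw [hd0]; exact h1)
  have hf2 := hf.of_le two_le_infty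
  have hg2 := hg.of_le two_le_infty
  have hX := hasFDerivAt_X 𝒜 (q := q) hv hB s
  have hX0 := X_self 𝒜 (q := q) hv hB s
  have hZ := hasFDerivAt_X 𝒜 (q := q) hv hB π
  have hZ0 := X_self 𝒜 (q := q) hv hB π
  obtain ⟨X, hXdef⟩ : ∃ X, X = 𝒜.X q (𝒜.gv q v s) s := ⟨_, rfl⟩
  obtain ⟨Z, hZdef⟩ : ∃ Z, Z = 𝒜.X q (𝒜.gv q v π) π := ⟨_, rfl⟩
  have sX := symm_X 𝒜 (q := q) hv hB s
  have sZ := symm_X 𝒜 (q := q) hv hB π
  rw [← hXdef] at hX hX0 sX ⊢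
  rw [← hZdef] at hZ hZ0 sZ ⊢
  obtain ⟨f, hfdef⟩ : ∃ f, f = 𝒜.f (𝒜.gv q v s) (𝒜.gv q v π) := ⟨_, rfl⟩
  obtain ⟨g, hgdef⟩ : ∃ g, g = 𝒜.f (𝒜.gv q v s) q := ⟨_, rfl⟩
  rw [← hfdef] at hf2
  rw [← hgdef] at hg2
  -- convergence of the arguments
  have tX : Tendsto X (𝓝 v) (𝓝 0) := by
    have := hX.continuousAt.tendsto
    rwa [hX0] at this
  have tZ : Tendsto Z (𝓝 v) (𝓝 0) := by
    have := hZ.continuousAt.tendsto
    rwa [hZ0] at this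
  have tXZ : Tendsto (fun w => (X w, Z w)) (𝓝 v) (𝓝 ((0 : Eu n), (0 : Eu n))) := tX.prodMk_nhds tZ
  have tX0 : Tendsto (fun w => (X w, (0 : Eu n))) (𝓝 v) (𝓝 ((0 : Eu n), (0 : Eu n))) :=
    tX.prodMk_nhds tendsto_const_nhds
  -- criticality
  have hcrit : ∀ᶠ w in 𝓝 v, (fderiv ℝ g (X w, 0)).comp (ContinuousLinearMap.inl ℝ (Eu n) (Eu n)) +
      (fderiv ℝ f (X w, Z w)).comp (ContinuousLinearMap.inl ℝ (Eu n) (Eu n)) = 0 := by
    filter_upwards [sX, sZ, tX0.eventually (sm0_ev hg2), tXZ.eventually (sm0_ev hf2)] with w hw hw' hgw hfw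
    rw [← sm0_fderiv_fst hgw, ← sm0_fderiv_fst hfw]
    have d1 : DifferentiableAt ℝ (fun u' => g (u', 0)) (X w) :=
      (hgw.hasFDerivAt.comp (X w) (hasFDerivAt_prodMk_left (X w) (0 : Eu n))).differentiableAt
    have d2 : DifferentiableAt ℝ (fun u' => f (u', Z w)) (X w) :=
      (hfw.hasFDerivAt.comp (X w) (hasFDerivAt_prodMk_left (X w) (Z w))).differentiableAt
    rw [← fderiv_fun_add d1 d2]
    apply IsLocalMin.fderiv_eq_zero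
    refine Filter.Eventually.of_forall fun u => ?_
    show g (X w, 0) + f (X w, Z w) ≤ g (u, 0) + f (u, Z w)
    rw [hgdef, hfdef]
    unfold SDist.f
    simp only [symm_zero]
    rw [hw.2, hw'.2, kc_dist' 𝒜 hB q hw.1 (by rw [abs_of_pos h0]; exact h1.le),
      kc_dist 𝒜 hB q hw.1 (by rw [hπs]; linarith), abs_of_pos h0, hπs]
    have h2 : dist (𝒜.Ex q (rad π w)) q = π := by
      rw [kc_dist' 𝒜 hB q hw.1 (by rw [abs_of_pos Real.pi_pos]), abs_of_pos Real.pi_pos]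
    have h3 := dist_triangle_left (𝒜.Ex q (rad π w)) q ((𝒜.ψ (𝒜.gv q v s)).symm u)
    rw [h2] at h3
    linarith
  -- differentiate
  have hdg : HasFDerivAt (fderiv ℝ g) (fderiv ℝ (fderiv ℝ g) (0, 0)) (X v, (0 : Eu n)) := by
    rw [hX0]
    exact (sm0_d2 hg2).hasFDerivAt
  have hdf : HasFDerivAt (fderiv ℝ f) (fderiv ℝ (fderiv ℝ f) (0, 0)) (X v, Z v) := by
    rw [hX0, hZ0]
    exact (sm0_d2 hf2).hasFDerivAt
  have k1 := hdg.comp v (hX.prodMk (hasFDerivAt_const (0 : Eu n) v))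
  have k2 := hdf.comp v (hX.prodMk hZ)
  have k1' : HasFDerivAt (fun w => fderiv ℝ g (X w, 0) (b, 0)) _ v := k1.clm_apply (hasFDerivAt_const ((b, 0) : Eu n × Eu n) v)
  have k2' : HasFDerivAt (fun w => fderiv ℝ f (X w, Z w) (b, 0)) _ v := k2.clm_apply (hasFDerivAt_const ((b, 0) : Eu n × Eu n) v)
  have k3 := k1'.add k2'
  have k4 : HasFDerivAt (fun w => fderiv ℝ g (X w, 0) (b, 0) + fderiv ℝ f (X w, Z w) (b, 0)) (0 : Eu n →L[ℝ] ℝ) v := by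
    refine (hasFDerivAt_const (0 : ℝ) v).congr_of_eventuallyEq ?_
    filter_upwards [hcrit] with w hw
    have := congrArg (fun T : Eu n →L[ℝ] ℝ => T b) hw
    exact this
  have k5 := congrArg (fun T : Eu n →L[ℝ] ℝ => T a) (k3.unique k4)
  have k6 : fderiv ℝ (fderiv ℝ g) (0, 0) (fderiv ℝ X v a, 0) (b, 0) +
      fderiv ℝ (fderiv ℝ f) (0, 0) (fderiv ℝ X v a, fderiv ℝ Z v a) (b, 0) = 0 := by
    simpa using k5
  have hsplit : (fderiv ℝ X v a, fderiv ℝ Z v a) = (fderiv ℝ X v a, 0) + ((0 : Eu n), fderiv ℝ Z v a) := by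
    rw [Prod.mk_add_mk, add_zero, zero_add]
  rw [hsplit, map_add, ContinuousLinearMap.add_apply, sm0_symm hf2 ((0 : Eu n), fderiv ℝ Z v a) (b, 0)] at k6
  have e1 : 𝒜.H (𝒜.gv q v s) q (fderiv ℝ X v a) b = fderiv ℝ (fderiv ℝ g) (0, 0) (fderiv ℝ X v a, 0) (b, 0) := by
    rw [hgdef]
    exact sm0_second_fst (hgdef ▸ hg2) _ _
  have e2 : 𝒜.H (𝒜.gv q v s) (𝒜.gv q v π) (fderiv ℝ X v a) b =
      fderiv ℝ (fderiv ℝ f) (0, 0) (fderiv ℝ X v a, 0) (b, 0) := by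
    rw [hfdef]
    exact sm0_second_fst (hfdef ▸ hf2) _ _
  have e3 : 𝒜.B (𝒜.gv q v s) (𝒜.gv q v π) b (fderiv ℝ Z v a) =
      fderiv ℝ (fderiv ℝ f) (0, 0) (b, 0) (0, fderiv ℝ Z v a) := by
    rw [hfdef]
    exact sm0_mixed (hfdef ▸ hf2) _ _
  rw [e1, e2, e3]
  linarith

/-- the kernel of `D X_π` in terms of `Ker` -/
theorem ker_iff (hB : Bl M) {s : ℝ} (h0 : 0 < s) (h1 : s < π) (a : Eu n) :
    fderiv ℝ (𝒜.X q (𝒜.gv q v π) π) v a = 0 ↔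
      fderiv ℝ (𝒜.X q (𝒜.gv q v s) s) v a ∈ 𝒜.Ker (𝒜.gv q v) 0 s := by
  obtain ⟨hc, hc0, -⟩ := gv_spec 𝒜 hB q hv
  have hst := star 𝒜 (q := q) hv hB h0 h1 a
  have hg1 := gauss1 𝒜 (q := q) hv hB h0 h1 a
  have hg2 := gauss2 𝒜 (q := q) hv hB h0 h1 a
  have hKer : fderiv ℝ (𝒜.X q (𝒜.gv q v s) s) v a ∈ 𝒜.Ker (𝒜.gv q v) 0 s ↔
      ∀ b, ⟪𝒜.vel (𝒜.gv q v) s, b⟫ = 0 → 𝒜.H (𝒜.gv q v s) q (fderiv ℝ (𝒜.X q (𝒜.gv q v s) s) v a) b +
        𝒜.H (𝒜.gv q v s) (𝒜.gv q v π) (fderiv ℝ (𝒜.X q (𝒜.gv q v s) s) v a) b = 0 := by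
    unfold SDist.Ker
    rw [mem_ofPred_eq, hc0, zero_add]
    exact ⟨fun h => h.2, fun h => ⟨hg1, h⟩⟩
  have hd : 0 < dist (𝒜.gv q v s) (𝒜.gv q v π) ∧ dist (𝒜.gv q v s) (𝒜.gv q v π) < π := by
    have hπs : |s - π| = π - s := by rw [abs_sub_comm, abs_of_pos (by linarith)]
    rw [hc s π (by rw [hπs]; linarith), hπs]
    constructor <;> linarith
  rw [hKer]
  constructor
  · intro hz b _
    have h2 := hst b
    rw [hz, map_zero, add_zero] at h2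
    exact h2
  · intro hK
    have hBz : ∀ b, 𝒜.B (𝒜.gv q v s) (𝒜.gv q v π) b (fderiv ℝ (𝒜.X q (𝒜.gv q v π) π) v a) = 0 := by
      intro b
      obtain ⟨hn1, -⟩ := IsGeo.exists_vel 𝒜 hc s
      have hdec : b = ⟪𝒜.vel (𝒜.gv q v) s, b⟫ • 𝒜.vel (𝒜.gv q v) s +
          (b - ⟪𝒜.vel (𝒜.gv q v) s, b⟫ • 𝒜.vel (𝒜.gv q v) s) := by abel
      have horth : ⟪𝒜.vel (𝒜.gv q v) s, b - ⟪𝒜.vel (𝒜.gv q v) s, b⟫ • 𝒜.vel (𝒜.gv q v) s⟫ = 0 := by
        rw [inner_sub_right, real_inner_smul_right, real_inner_self_eq_norm_sq, hn1]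
        ring
      have h2 := hst (b - ⟪𝒜.vel (𝒜.gv q v) s, b⟫ • 𝒜.vel (𝒜.gv q v) s)
      rw [hK _ horth, zero_add] at h2
      have h3 := B_vel 𝒜 hB hc (s := s) (t := π) h1.ne (by
        rw [abs_sub_comm, abs_of_pos (by linarith)]; linarith) (fderiv ℝ (𝒜.X q (𝒜.gv q v π) π) v a)
      rw [hdec, map_add, map_smul, ContinuousLinearMap.add_apply, ContinuousLinearMap.smul_apply, h3, h2, smul_zero,
        add_zero]
    refine B_nondeg 𝒜 hB hc (s := π) (t := s) h1.ne' (by rw [abs_of_pos (by linarith)]; linarith) hg2 fun b => ?_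
    rw [← B_symm 𝒜 hB hd.1 hd.2]
    exact hBz b

/-- the kernel of `D X_s`, `0 < s < π` -/
theorem ker_X (hB : Bl M) {s : ℝ} (h0 : 0 < s) (h1 : s < π) (a : Eu n) :
    fderiv ℝ (𝒜.X q (𝒜.gv q v s) s) v a = 0 ↔ ∃ r : ℝ, a = r • v := by
  have hrad : HasFDerivAt (rad s) (fderiv ℝ (rad s) v) v :=
    ((contDiffAt_rad s (kc_ne hv)).differentiableAt (by simp)).hasFDerivAt
  have hmem : 𝒜.Ex q (rad s v) ∈ (𝒜.ψ (𝒜.gv q v s)).source := by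
    rw [kc_gv 𝒜 hv hB]; exact 𝒜.mem _
  have hE : HasFDerivAt (fun η => 𝒜.ψ (𝒜.gv q v s) (𝒜.Ex q η))
      (fderiv ℝ (fun η => 𝒜.ψ (𝒜.gv q v s) (𝒜.Ex q η)) (rad s v)) (rad s v) :=
    ((contDiffAt_Ex 𝒜 hB q (rad s v) hmem).differentiableAt (by simp)).hasFDerivAt
  have hcomp := hE.comp v hrad
  have heq : fderiv ℝ (𝒜.X q (𝒜.gv q v s) s) v a =
      fderiv ℝ (fun η => 𝒜.ψ (𝒜.gv q v s) (𝒜.Ex q η)) (rad s v) (fderiv ℝ (rad s) v a) := by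
    have : fderiv ℝ (𝒜.X q (𝒜.gv q v s) s) v = _ := hcomp.fderiv
    rw [this]
    rfl
  rw [heq]
  constructor
  · intro h
    apply fderiv_rad_ker h0 hv
    have hnorm : ‖rad s v‖ < π := by
      rw [rad_unit s hv, norm_smul, hv, mul_one, Real.norm_of_nonneg h0.le]
      exact h1
    obtain ⟨η, hη⟩ : ∃ η, η = fderiv ℝ (rad s) v a := ⟨_, rfl⟩
    rw [← hη] at h ⊢
    have h2 : ∀ b, ⟪b, η⟫ = 0 := by
      intro b
      have h3 := BF_Ex 𝒜 hB q hnorm b η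
      rw [kc_gv 𝒜 hv hB, h, map_zero] at h3
      linarith
    have h4 := h2 η
    rwa [inner_self_eq_zero] at h4
  · rintro ⟨r, rfl⟩
    rw [map_smul, fderiv_rad_self s hv, smul_zero, map_zero]

end Unit

/-! ## linear algebra -/

theorem kc_finrank_comap {E : Type*} [AddCommGroup E] [Module ℝ E] [FiniteDimensional ℝ E] (D : E →ₗ[ℝ] E)
    (W : Submodule ℝ E) (hW : W ≤ LinearMap.range D) :
    Module.finrank ℝ (W.comap D) = Module.finrank ℝ W + Module.finrank ℝ (LinearMap.ker D) := by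
  obtain ⟨f, hf⟩ : ∃ f : W.comap D →ₗ[ℝ] W, ∀ x, ((f x : W) : E) = D x :=
    ⟨D.restrict (p := W.comap D) (q := W) (fun x hx => hx), fun x => rfl⟩
  have hsurj : LinearMap.range f = ⊤ := by
    rw [LinearMap.range_eq_top]
    intro y
    obtain ⟨x, hx⟩ := hW y.2
    exact ⟨⟨x, by rw [Submodule.mem_comap, hx]; exact y.2⟩, Subtype.ext (by rw [hf]; exact hx)⟩
  have hle : LinearMap.ker D ≤ W.comap D := by
    intro x hx
    rw [Submodule.mem_comap, LinearMap.mem_ker.mp hx]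
    exact W.zero_mem
  have hker : LinearMap.ker f = (LinearMap.ker D).comap (W.comap D).subtype := by
    ext x
    rw [LinearMap.mem_ker, Submodule.mem_comap, LinearMap.mem_ker]
    constructor
    · intro h
      have := congrArg Subtype.val h
      rw [hf] at this
      exact this
    · intro h
      apply Subtype.ext
      rw [hf]
      exact h
  have h1 := LinearMap.finrank_range_add_finrank_ker f
  rw [hsurj, finrank_top, hker, (Submodule.comapSubtypeEquivOfLe hle).finrank_eq] at h1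
  exact h1.symm

/-- the derivative of a change of charts is injective -/
theorem ch_inj {r p : M} (hp : p ∈ (𝒜.ψ r).source) {a : Eu n} (ha : fderiv ℝ (𝒜.ch r p) 0 a = 0) : a = 0 := by
  have h1 : HasFDerivAt (𝒜.ch r p) (fderiv ℝ (𝒜.ch r p) 0) 0 :=
    ((contDiffAt_ch 𝒜 hp).differentiableAt (by simp)).hasFDerivAt
  have h2 : HasFDerivAt (fun u => 𝒜.ψ p ((𝒜.ψ r).symm u)) (fderiv ℝ (fun u => 𝒜.ψ p ((𝒜.ψ r).symm u)) (𝒜.ψ r p))
      (𝒜.ch r p 0) := by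
    rw [ch_zero]
    exact ((𝒜.trans r p p hp (𝒜.mem p)).differentiableAt (by simp)).hasFDerivAt
  have h3 := h2.comp (0 : Eu n) h1
  have h4 : HasFDerivAt ((fun u => 𝒜.ψ p ((𝒜.ψ r).symm u)) ∘ 𝒜.ch r p) (ContinuousLinearMap.id ℝ (Eu n)) 0 := by
    refine (hasFDerivAt_id (0 : Eu n)).congr_of_eventuallyEq ?_
    filter_upwards [symm_ch 𝒜 hp, (𝒜.ψ p).open_target.mem_nhds (zero_mem_target 𝒜 p)] with u hu hu'
    show 𝒜.ψ p ((𝒜.ψ r).symm (𝒜.ch r p u)) = u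
    rw [hu, (𝒜.ψ p).right_inv hu']
  have h5 := congrArg (fun T : Eu n →L[ℝ] Eu n => T a) (h3.unique h4)
  have h6 : fderiv ℝ (fun u => 𝒜.ψ p ((𝒜.ψ r).symm u)) (𝒜.ψ r p) (fderiv ℝ (𝒜.ch r p) 0 a) = a := h5
  rw [← h6, ha, map_zero]

/-- the hypothesis on the multiplicity -/
def SDist.HK (κ : ℕ) : Prop := ∀ c : ℝ → M, IsGeo c → ∀ r s : ℝ, r < s → s < r + π →
  ∃ V : Submodule ℝ (Eu n), (V : Set (Eu n)) = 𝒜.Ker c r s ∧ Module.finrank ℝ V = κ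

theorem finrank_ker_X (hB : Bl M) {κ : ℕ} (hk : 𝒜.HK κ) {q : M} {v : Eu n} (hv : ‖v‖ = 1) :
    Module.finrank ℝ (LinearMap.ker (fderiv ℝ (𝒜.X q (𝒜.gv q v π) π) v : Eu n →ₗ[ℝ] Eu n)) = κ + 1 := by
  have hπ := Real.pi_pos
  obtain ⟨hc, hc0, -⟩ := gv_spec 𝒜 hB q hv
  obtain ⟨W, hW, hWk⟩ := hk (𝒜.gv q v) hc 0 (π / 2) (by linarith) (by linarith)
  obtain ⟨D, hD⟩ : ∃ D : Eu n →ₗ[ℝ] Eu n, D = (fderiv ℝ (𝒜.X q (𝒜.gv q v (π / 2)) (π / 2)) v : Eu n →L[ℝ] Eu n) :=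
    ⟨_, rfl⟩
  have hDa : ∀ a, D a = fderiv ℝ (𝒜.X q (𝒜.gv q v (π / 2)) (π / 2)) v a := fun a => by rw [hD]; rfl
  have hkerD : LinearMap.ker D = Submodule.span ℝ {v} := by
    ext a
    rw [LinearMap.mem_ker, hDa, ker_X 𝒜 hv hB (by linarith) (by linarith), Submodule.mem_span_singleton]
    exact ⟨fun ⟨r, hr⟩ => ⟨r, hr.symm⟩, fun ⟨r, hr⟩ => ⟨r, hr.symm⟩⟩
  have hker1 : Module.finrank ℝ (LinearMap.ker D) = 1 := by
    rw [hkerD]
    exact finrank_span_singleton (kc_ne hv)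
  have hvel : 𝒜.vel (𝒜.gv q v) (π / 2) ≠ 0 := by
    obtain ⟨h1, -⟩ := IsGeo.exists_vel 𝒜 hc (π / 2)
    exact kc_ne h1
  have hrange : LinearMap.range D = (Submodule.span ℝ {𝒜.vel (𝒜.gv q v) (π / 2)})ᗮ := by
    apply Submodule.eq_of_le_of_finrank_eq
    · rintro _ ⟨a, rfl⟩
      rw [Submodule.mem_orthogonal_singleton_iff_inner_right, hDa]
      exact gauss1 𝒜 hv hB (by linarith) (by linarith) a
    · have h1 := LinearMap.finrank_range_add_finrank_ker D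
      have h2 := (Submodule.span ℝ {𝒜.vel (𝒜.gv q v) (π / 2)}).finrank_add_finrank_orthogonal
      rw [finrank_span_singleton hvel] at h2
      rw [hker1] at h1
      omega
  have hWle : W ≤ LinearMap.range D := by
    intro a ha
    rw [hrange, Submodule.mem_orthogonal_singleton_iff_inner_right]
    have : a ∈ (W : Set (Eu n)) := ha
    rw [hW] at this
    exact this.1
  have heq : LinearMap.ker (fderiv ℝ (𝒜.X q (𝒜.gv q v π) π) v : Eu n →ₗ[ℝ] Eu n) = W.comap D := by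
    ext a
    rw [LinearMap.mem_ker, Submodule.mem_comap, hDa]
    have h1 := ker_iff 𝒜 (q := q) hv hB (s := π / 2) (by linarith) (by linarith) a
    rw [← hW] at h1
    exact h1
  rw [heq, kc_finrank_comap D W hWle, hWk, hker1]

theorem finrank_ker_X' (hB : Bl M) {κ : ℕ} (hk : 𝒜.HK κ) {q p : M} {v : Eu n} (hv : ‖v‖ = 1)
    (hp : 𝒜.gv q v π ∈ (𝒜.ψ p).source) :
    Module.finrank ℝ (LinearMap.ker (fderiv ℝ (𝒜.X q p π) v : Eu n →ₗ[ℝ] Eu n)) = κ + 1 := by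
  rw [← finrank_ker_X 𝒜 hB hk (q := q) hv]
  have h1 := hasFDerivAt_X 𝒜 (q := q) hv hB π
  have h2 : HasFDerivAt (𝒜.ch p (𝒜.gv q v π)) (fderiv ℝ (𝒜.ch p (𝒜.gv q v π)) 0) (𝒜.X q (𝒜.gv q v π) π v) := by
    rw [X_self 𝒜 hv hB]
    exact ((contDiffAt_ch 𝒜 hp).differentiableAt (by simp)).hasFDerivAt
  have h3 := h2.comp v h1
  have h4 : HasFDerivAt (𝒜.X q p π)
      ((fderiv ℝ (𝒜.ch p (𝒜.gv q v π)) 0).comp (fderiv ℝ (𝒜.X q (𝒜.gv q v π) π) v)) v := by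
    refine h3.congr_of_eventuallyEq ?_
    filter_upwards [symm_X 𝒜 (q := q) hv hB π] with w hw
    show 𝒜.ψ p (𝒜.Ex q (rad π w)) = 𝒜.ψ p ((𝒜.ψ (𝒜.gv q v π)).symm (𝒜.X q (𝒜.gv q v π) π w))
    rw [hw.2]
  have heq : LinearMap.ker (fderiv ℝ (𝒜.X q p π) v : Eu n →ₗ[ℝ] Eu n) =
      LinearMap.ker (fderiv ℝ (𝒜.X q (𝒜.gv q v π) π) v : Eu n →ₗ[ℝ] Eu n) := by
    ext a
    rw [LinearMap.mem_ker, LinearMap.mem_ker, h4.fderiv]
    constructor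
    · intro h
      exact ch_inj 𝒜 hp h
    · intro h
      show fderiv ℝ (𝒜.ch p (𝒜.gv q v π)) 0 (fderiv ℝ (𝒜.X q (𝒜.gv q v π) π) v a) = 0
      have h' : fderiv ℝ (𝒜.X q (𝒜.gv q v π) π) v a = 0 := h
      rw [h', map_zero]
  rw [heq]

theorem X_smul (q p : M) (s : ℝ) {r : ℝ} (hr : 0 < r) (w : Eu n) : 𝒜.X q p s (r • w) = 𝒜.X q p s w := by
  unfold SDist.X
  rw [rad_smul s hr]

theorem finrank_ker_near (hB : Bl M) {κ : ℕ} (hk : 𝒜.HK κ) {q p : M} {w : Eu n} (hw : w ≠ 0)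
    (hp : 𝒜.Ex q (rad π w) ∈ (𝒜.ψ p).source) :
    Module.finrank ℝ (LinearMap.ker (fderiv ℝ (𝒜.X q p π) w : Eu n →ₗ[ℝ] Eu n)) = κ + 1 := by
  have hr : 0 < ‖w‖⁻¹ := inv_pos.mpr (norm_pos_iff.mpr hw)
  have hu := norm_normalize hw
  rw [kc_Ex 𝒜 hB q hw] at hp
  rw [← finrank_ker_X' 𝒜 hB hk hu hp]
  have h1 : HasFDerivAt (𝒜.X q p π) (fderiv ℝ (𝒜.X q p π) (‖w‖⁻¹ • w)) (‖w‖⁻¹ • w) := by
    refine ((contDiffAt_X 𝒜 hB q p π (kc_ne hu) ?_).differentiableAt (by simp)).hasFDerivAt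
    rw [rad_smul π hr, kc_Ex 𝒜 hB q hw]
    exact hp
  have h2 : HasFDerivAt (fun x : Eu n => ‖w‖⁻¹ • x) (‖w‖⁻¹ • ContinuousLinearMap.id ℝ (Eu n)) w :=
    (hasFDerivAt_id (𝕜 := ℝ) w).const_smul (‖w‖⁻¹ : ℝ)
  have h3 : HasFDerivAt (𝒜.X q p π ∘ fun x : Eu n => ‖w‖⁻¹ • x) _ w := HasFDerivAt.comp w h1 h2
  have h4 : (𝒜.X q p π ∘ fun x : Eu n => ‖w‖⁻¹ • x) = 𝒜.X q p π := by
    funext x
    exact X_smul 𝒜 q p π hr x
  rw [h4] at h3
  have heq : LinearMap.ker (fderiv ℝ (𝒜.X q p π) w : Eu n →ₗ[ℝ] Eu n) =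
      LinearMap.ker (fderiv ℝ (𝒜.X q p π) (‖w‖⁻¹ • w) : Eu n →ₗ[ℝ] Eu n) := by
    ext a
    rw [LinearMap.mem_ker, LinearMap.mem_ker, h3.fderiv]
    show fderiv ℝ (𝒜.X q p π) (‖w‖⁻¹ • w) (‖w‖⁻¹ • a) = 0 ↔ fderiv ℝ (𝒜.X q p π) (‖w‖⁻¹ • w) a = 0
    rw [map_smul, smul_eq_zero, or_iff_right hr.ne']
  rw [heq]

/-- the dimension of the spheres `Lam` -/
theorem finrank_Lam (hB : Bl M) {κ : ℕ} (hk : 𝒜.HK κ) {p q : M} (h : dist p q = π) :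
    ∃ V : Submodule ℝ (Eu n), 𝒜.Lam q p = {v | v ∈ V ∧ ‖v‖ = 1} ∧ Module.finrank ℝ V = κ + 1 := by
  obtain ⟨V, hV, v, hv⟩ := exists_submodule_Lam 𝒜 hB h
  refine ⟨V, hV, ?_⟩
  have hv1 : ‖v‖ = 1 := hv.1
  have hvp : 𝒜.gv q v π = p := hv.2
  have hvV : v ∈ V := by
    have := hv
    rw [hV] at this
    exact this.1
  have hne : v ≠ 0 := kc_ne hv1
  -- membership in `V` and the fibre
  have hfib : ∀ w : Eu n, w ≠ 0 → (w ∈ V ↔ 𝒜.Ex q (rad π w) = p) := by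
    intro w hw
    rw [kc_Ex 𝒜 hB q hw]
    have hr : ‖w‖⁻¹ ≠ 0 := inv_ne_zero (norm_ne_zero_iff.mpr hw)
    constructor
    · intro hwV
      have h1 : ‖w‖⁻¹ • w ∈ 𝒜.Lam q p := by
        rw [hV]
        exact ⟨V.smul_mem _ hwV, norm_normalize hw⟩
      exact h1.2
    · intro hE
      have h1 : ‖w‖⁻¹ • w ∈ 𝒜.Lam q p := ⟨norm_normalize hw, hE⟩
      rw [hV] at h1
      exact (V.smul_mem_iff hr).mp h1.1
  have hmemp : 𝒜.Ex q (rad π v) ∈ (𝒜.ψ p).source := by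
    rw [(hfib v hne).mp hvV]
    exact 𝒜.mem p
  have hcontE := continuousAt_Exrad 𝒜 hB q π hne
  have hnear : ∀ᶠ w in 𝓝 v, w ≠ 0 ∧ 𝒜.Ex q (rad π w) ∈ (𝒜.ψ p).source := by
    filter_upwards [isOpen_ne.mem_nhds hne, hcontE.eventually ((𝒜.ψ p).open_source.mem_nhds hmemp)] with w h1 h2
    exact ⟨h1, h2⟩
  have hC : ContDiffAt ℝ ∞ (𝒜.X q p π) v := contDiffAt_X 𝒜 hB q p π hne hmemp
  have hdiff : HasFDerivAt (𝒜.X q p π) (fderiv ℝ (𝒜.X q p π) v) v := (hC.differentiableAt (by simp)).hasFDerivAt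
  have hX0 : 𝒜.X q p π v = 0 := by
    unfold SDist.X
    rw [(hfib v hne).mp hvV, 𝒜.zero]
  have hrank : ∀ᶠ w in 𝓝 v,
      Module.finrank ℝ (LinearMap.ker (fderiv ℝ (𝒜.X q p π) w : Eu n →ₗ[ℝ] Eu n)) = κ + 1 := by
    filter_upwards [hnear] with w hw
    exact finrank_ker_near 𝒜 hB hk hw.1 hw.2
  have hVker : V = LinearMap.ker (fderiv ℝ (𝒜.X q p π) v : Eu n →ₗ[ℝ] Eu n) := by
    ext a
    rw [LinearMap.mem_ker]
    constructor
    · intro ha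
      have hline : HasDerivAt (fun τ : ℝ => v + τ • a) a 0 := by
        have h1 := ((hasDerivAt_id (0 : ℝ)).smul_const a).const_add v
        rwa [one_smul] at h1
      have hline0 : (fun τ : ℝ => v + τ • a) 0 = v := by simp
      have hd' : HasFDerivAt (𝒜.X q p π) (fderiv ℝ (𝒜.X q p π) v) ((fun τ : ℝ => v + τ • a) 0) := by
        rw [hline0]; exact hdiff
      have h2 := hd'.comp_hasDerivAt (0 : ℝ) hline
      have h3 : HasDerivAt (𝒜.X q p π ∘ fun τ : ℝ => v + τ • a) 0 0 := by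
        refine (hasDerivAt_const (0 : ℝ) (0 : Eu n)).congr_of_eventuallyEq ?_
        have h4 : Tendsto (fun τ : ℝ => v + τ • a) (𝓝 0) (𝓝 v) := by
          have := hline.continuousAt.tendsto
          rwa [zero_smul, add_zero] at this
        filter_upwards [h4.eventually hnear] with τ hτ
        show 𝒜.X q p π (v + τ • a) = 0
        unfold SDist.X
        rw [(hfib _ hτ.1).mp (V.add_mem hvV (V.smul_mem _ ha)), 𝒜.zero]
      exact h2.unique h3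
    · intro ha
      have ha' : fderiv ℝ (𝒜.X q p π) v a = 0 := ha
      obtain ⟨g, hg0, hg1, hg2⟩ := const_rank_curve (hC.of_le (by simp)) hrank ha'
      have hgt : Tendsto g (𝓝 0) (𝓝 v) := by
        have := hg1.continuousAt.tendsto
        rwa [hg0] at this
      have hgV : ∀ᶠ τ in 𝓝 (0 : ℝ), g τ ∈ V := by
        filter_upwards [hgt.eventually hnear, hg2] with τ h1 h2
        rw [hfib _ h1.1]
        rw [hX0] at h2
        apply (𝒜.ψ p).injOn h1.2 (𝒜.mem p)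
        rw [𝒜.zero]
        exact h2
      have hsl := hasDerivAt_iff_tendsto_slope.mp hg1
      have hclosed : IsClosed (V : Set (Eu n)) := V.closed_of_finiteDimensional
      refine hclosed.mem_of_tendsto hsl ?_
      filter_upwards [nhdsWithin_le_nhds hgV] with τ hτ
      rw [slope_def_module, hg0]
      exact V.smul_mem _ (V.sub_mem hτ hvV)
  rw [hVker]
  exact hrank.self_of_nhds

end Pool.Agent.Lib.MP_ccbbf6_gt.Geo
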