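import Pool.Agent.Lib.MP_ccbbf6_gt.Geo.KAb
import Pool.Agent.Lib.MP_ccbbf6_gt.Geo.KAc

/-!
# KA: the multiplicity (helper25, helper79)
-/

set_option autoImplicit false

open Set Filter Topology Metric Real
open scoped ContDiff RealInnerProductSpace

noncomputable section

namespace Pool.Agent.Lib.MP_ccbbf6_gt.Geo

variable {n : ℕ} {M : Type*} [MetricSpace M] [CompactSpace M] (𝒜 : SDist n M)

/-- the multiplicity is constant, and it is the dimension of the spheres `Lam` -/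
theorem exists_kappa (hn : 2 ≤ n) (hB : Bl M) [Nonempty M] : ∃ κ : ℕ, κ ≤ n - 1 ∧
    (∀ c : ℝ → M, IsGeo c → ∀ r s : ℝ, r < s → s < r + π →
      ∃ V : Submodule ℝ (Eu n), (V : Set (Eu n)) = 𝒜.Ker c r s ∧ Module.finrank ℝ V = κ) ∧
    (∀ p q : M, dist p q = π → ∃ V : Submodule ℝ (Eu n), 𝒜.Lam q p = {v | v ∈ V ∧ ‖v‖ = 1} ∧
      Module.finrank ℝ V = κ + 1) := by
  obtain ⟨κ, h1, h2⟩ := exists_kappa_ker 𝒜 hn hB
  exact ⟨κ, h1, h2, fun p q h => finrank_Lam 𝒜 hB h2 h⟩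

end Pool.Agent.Lib.MP_ccbbf6_gt.Geo
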