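import Pool.Agent.Lib.MP_ccbbf6_gt.Geo.DA
import Pool.Agent.Lib.MP_ccbbf6_gt.S.KG

/-!
# KD: Theorem 1 along one closed geodesic
-/

set_option autoImplicit false

open Set Filter Topology Metric Real
open scoped ContDiff RealInnerProductSpace

noncomputable section

namespace Pool.Agent.Lib.MP_ccbbf6_gt.Geo

section adapter

variable {N : ℕ} {S G K K' : ℝ → Matrix (Fin N) (Fin N) ℝ} {J : ℝ → ℝ → ℝ}

theorem kd_pi2 : π / 2 ∈ Ioo 0 (2 * π) ∧ π / 2 ≠ π := by
  have h := Real.pi_pos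
  exact ⟨⟨by linarith, by linarith⟩, by linarith⟩

theorem kd_det_ne (h : KData S G K K' J) {u v : ℝ} (hu : 0 < u) (huv : u < v) (hv : v < 2 * π) (hu' : u ≠ π) (hv' : v ≠ π)
    (hne : v ≠ u + π) : (S u - S v).det ^ 2 = J u v ^ 2 * (G u).det * (G v).det ∧ 0 < J u v ∧ 0 < (G u).det ∧ 0 < (G v).det :=
  ⟨h.JS u v hu hv (hu.trans huv) (huv.trans hv) huv.ne hu' hv' hne (by linarith [Real.pi_pos]), h.Jpos u v hu huv hv hne,
    (h.Gpos u ⟨hu, huv.trans hv⟩ hu').det_pos, (h.Gpos v ⟨hu.trans huv, hv⟩ hv').det_pos⟩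

theorem kdata_gdata (h : KData S G K K' J) : BL.GData S G K (fun x => -K' x) (S (π / 2)) := by
  have hpi := Real.pi_pos
  have hI : Ioo (π / 2) (3 * π / 2) ∈ 𝓝 π := Ioo_mem_nhds (by linarith) (by linarith)
  have hIpi : π ∈ Ioo (π / 2) (3 * π / 2) := ⟨by linarith, by linarith⟩
  refine
    { Gpos := h.Gpos
      Gcont := h.Gcont
      Ssymm := h.Ssymm
      dS := h.dS
      conj := ?_
      G0 := h.G0
      G2 := h.G2
      S0 := h.S0
      S0symm := h.Ssymm _ kd_pi2.1 kd_pi2.2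
      KS := ?_
      dK := ?_
      Lcont := (h.K'cont π hIpi).neg
      Lpos := h.K'neg π hIpi }
  · intro u v hu huv hv hu' hv' hne h0
    obtain ⟨h1, h2, h3, h4⟩ := kd_det_ne h hu huv hv hu' hv' hne
    rw [h0] at h1
    have h5 : 0 < J u v ^ 2 * (G u).det * (G v).det := mul_pos (mul_pos (pow_pos h2 2) h3) h4
    rw [← h1] at h5
    norm_num at h5
  · filter_upwards [nhdsWithin_le_nhds hI, self_mem_nhdsWithin] with x hx hx'
    exact mul_eq_one_comm.1 (h.SK x hx hx')
  · filter_upwards [hI] with x hx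
    rw [neg_neg]
    exact h.dK x hx

theorem kdata_LG (h : KData S G K K' J) {u v : ℝ} (hu : 0 < u) (huv : u < v) (hv : v < 2 * π) (hu' : u ≠ π) (hv' : v ≠ π)
    (hne : v ≠ u + π) : BL.LG S G u v = Real.log (J u v) := by
  obtain ⟨h1, h2, h3, h4⟩ := kd_det_ne h hu huv hv hu' hv' hne
  have h5 : 2 * Real.log |(S u - S v).det| = 2 * Real.log (J u v) + Real.log (G u).det + Real.log (G v).det := by
    have h6 := congrArg Real.log h1
    rw [Real.log_mul (mul_pos (pow_pos h2 2) h3).ne' h4.ne', Real.log_mul (pow_pos h2 2).ne' h3.ne', Real.log_pow,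
      Real.log_pow] at h6
    rw [Real.log_abs]
    push_cast at h6
    exact h6
  rw [BL.LG]
  linarith

end adapter

variable {n : ℕ} {M : Type*} [MetricSpace M] [CompactSpace M] (𝒜 : SDist n M)

theorem IsGeo.continuous {c : ℝ → M} (hc : IsGeo c) : Continuous c := by
  refine Metric.continuous_iff.2 fun b ε hε => ⟨ε, hε, fun a ha => ?_⟩
  refine lt_of_le_of_lt (hc.dist_le a b) ?_
  rwa [Real.dist_eq] at ha

theorem J_symm (hB : Bl M) {p q : M} (h : dist p q < π) : 𝒜.J p q = 𝒜.J q p := by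
  rw [SDist.J, SDist.J, theta_symm 𝒜 hB h, dist_comm]

theorem J_pos (hB : Bl M) {p q : M} (h0 : 0 < dist p q) (h : dist p q < π) : 0 < 𝒜.J p q :=
  div_pos (pow_pos h0 _) (theta_pos 𝒜 hB h)

/-- along a geodesic the logarithm of the Jacobian at distance `t` is continuous -/
theorem continuous_logJ (hB : Bl M) {c : ℝ → M} (hc : IsGeo c) {t : ℝ} (ht : t ∈ Ioo 0 π) :
    Continuous fun w => Real.log (𝒜.J (c w) (c (w + t))) := by
  have hd : ∀ w, dist (c w) (c (w + t)) = t := by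
    intro w
    have h1 := hc w (w + t) (by rw [sub_add_cancel_left, abs_neg, abs_of_pos ht.1]; exact ht.2.le)
    rw [h1, sub_add_cancel_left, abs_neg, abs_of_pos ht.1]
  have h2 : Continuous fun w => 𝒜.theta (c w) (c (w + t)) := by
    have h3 := tendsto_theta 𝒜 hB
    refine continuous_iff_continuousAt.2 fun w => ?_
    have hopen : IsOpen {z : M × M | dist z.1 z.2 < π} := isOpen_lt (by fun_prop) continuous_const
    have h4 := h3.continuousAt (hopen.mem_nhds (show (c w, c (w + t)) ∈ {z : M × M | dist z.1 z.2 < π} by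
      show dist (c w) (c (w + t)) < π
      rw [hd]
      exact ht.2))
    exact ContinuousAt.comp (f := fun w => (c w, c (w + t))) h4
      (hc.continuous.continuousAt.prodMk (hc.continuous.comp (continuous_add_const t)).continuousAt)
  refine Continuous.log ?_ fun w => (J_pos 𝒜 hB (by rw [hd]; exact ht.1) (by rw [hd]; exact ht.2)).ne'
  have h5 : (fun w => 𝒜.J (c w) (c (w + t))) = fun w => t ^ (n - 1) / 𝒜.theta (c w) (c (w + t)) := by
    funext w
    rw [SDist.J, hd]
  rw [h5]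
  exact continuous_const.div h2 fun w => (theta_pos 𝒜 hB (by rw [hd]; exact ht.2)).ne'

/-- **Theorem 1** along one geodesic -/
theorem geo_main {N : ℕ} (hn : n = N + 1) (hB : Bl M) {c : ℝ → M} (hc : IsGeo c) {L : Eu N →ₗᵢ[ℝ] Eu n}
    (hL : Frame (𝒜.vel c 0) L) {κ : ℕ} (hκ : ∃ V : Submodule ℝ (Eu n), (V : Set (Eu n)) = 𝒜.Ker c 0 (π / 2) ∧
      Module.finrank ℝ V = κ) :
    ∃ P : Matrix (Fin N) (Fin N) ℝ, P.transpose = P ∧ P * P = P ∧ P.trace = κ ∧ κ ≤ N ∧ ∀ t ∈ Ioo 0 π,
      2 * π * (κ * Real.log (Real.sin t) + (N - κ : ℕ) * Real.log (2 * Real.sin (t / 2))) ≤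
        ∫ w in (0 : ℝ)..(2 * π), Real.log (𝒜.J (c w) (c (w + t))) ∧
      (∫ w in (0 : ℝ)..(2 * π), Real.log (𝒜.J (c w) (c (w + t))) =
          2 * π * (κ * Real.log (Real.sin t) + (N - κ : ℕ) * Real.log (2 * Real.sin (t / 2))) →
        ∀ x ∈ Ioo 0 t, (𝒜.Gmat c L x)⁻¹ = Real.sin x ^ 2 • P + (4 * Real.sin (x / 2) ^ 2) • (1 - P)) := by
  obtain ⟨K, K', hK, -, hker⟩ := kdata 𝒜 hn hB hc hL
  obtain ⟨V, hV, hVκ⟩ := hκ
  have hg := kdata_gdata hK
  obtain ⟨κ', ν, P, Mπ, h1, h2, h3, h4, h5, -, -, -, h6⟩ := hg.main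
  have hκ' : κ' = κ := by
    have h7 := hker V hV
    have h8 := LinearMap.finrank_range_add_finrank_ker (Matrix.toLin' (K π))
    have h9 : Module.finrank ℝ (LinearMap.range (Matrix.toLin' (K π))) = ν := by
      rw [h2]
      rfl
    rw [h9, ← h7, hVκ, Module.finrank_fintype_fun_eq_card] at h8
    rw [← h1] at h8
    omega
  subst hκ'
  rw [Fintype.card_fin] at h1
  have hν : N - κ' = ν := by omega
  refine ⟨P, h3, h4, h5, by omega, fun t ht => ?_⟩
  rw [hν]
  have hper : ∀ s, c (s + 2 * π) = c s := fun s => IsGeo.closed 𝒜 hB hc s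
  refine h6 t ht _ ((continuous_logJ 𝒜 hB hc ht).intervalIntegrable _ _) ?_ ?_
  · intro w hw hw' hw1 hw2
    rw [kdata_LG hK hw (by linarith [ht.1]) hw' hw1 hw2 (by
      intro h
      linarith [ht.2])]
  · intro s hs hst
    have hpi := Real.pi_pos
    rw [kdata_LG hK hs (by linarith [ht.2]) (by linarith) (by linarith [ht.2]) (by linarith [ht.2]) (by
      intro h
      linarith [ht.2])]
    have h7 : c (2 * π - t + s + t) = c s := by
      rw [show 2 * π - t + s + t = s + 2 * π by ring, hper]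
    have h8 : c (2 * π - t + s) = c (s + (2 * π - t)) := by rw [add_comm]
    rw [h7, h8]
    have h9 : dist (c (s + (2 * π - t))) (c s) < π := by
      have h10 : c s = c (s + (2 * π - t) + t) := by
        rw [← hper s]
        congr 1
        ring
      rw [h10]
      have h11 := hc (s + (2 * π - t)) (s + (2 * π - t) + t) (by
        rw [sub_add_cancel_left, abs_neg, abs_of_pos ht.1]; exact ht.2.le)
      rw [h11, sub_add_cancel_left, abs_neg, abs_of_pos ht.1]
      exact ht.2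
    rw [J_symm 𝒜 hB h9]

end Pool.Agent.Lib.MP_ccbbf6_gt.Geo
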