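import Pool.Agent.Lib.MP_ccbbf6_gt.Geo.MEa

/-!
# ME, part b: the invariant measure on the phase space (helper77)
-/

set_option autoImplicit false

open MeasureTheory Set Filter Topology Metric Real
open scoped ENNReal NNReal

noncomputable section

namespace Pool.Agent.Lib.MP_ccbbf6_gt.Geo

variable {M : Type*} [MetricSpace M] [CompactSpace M] [MeasurableSpace M] [BorelSpace M]
  {g : M → M → ℝ → M} {J : M → M → ℝ}

/-- polar coordinates around every point -/
structure Polar (vol : Measure M) {S : Type*} [MeasurableSpace S] (σ : Measure S)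
    (γ : M → S → ℝ → M) (J : M → M → ℝ) : Prop where
  geo : ∀ p v, IsGeo (γ p v)
  zero : ∀ p v, γ p v 0 = p
  meas : ∀ p, Measurable fun v => γ p v (π / 2)
  area : ∀ (p : M) (f : M → ℝ≥0∞), Measurable f → ∫⁻ q, f q ∂vol =
    ∫⁻ v, (∫⁻ t in Ioo 0 π, f (γ p v t) * ENNReal.ofReal (J p (γ p v t))) ∂σ

/-- the weight `1 / J` -/
def WW (J : M → M → ℝ) : M × M → ℝ≥0∞ :=
  (DD M).indicator fun z => (ENNReal.ofReal (J z.1 z.2))⁻¹

lemma measurableSet_DD : MeasurableSet (DD M) := isOpen_DD.measurableSet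

lemma measurable_of_continuousOn_DD {β : Type*} [TopologicalSpace β] [MeasurableSpace β]
    [BorelSpace β] {f : M × M → β} (hf : ContinuousOn f (DD M)) (b : β)
    (hb : ∀ z ∉ DD M, f z = b) : Measurable f := by
  refine measurable_of_restrict_of_restrict_compl measurableSet_DD ?_ ?_
  · exact (continuousOn_iff_continuous_domRestrict.1 hf).measurable
  · have : (DD M)ᶜ.domRestrict f = fun _ => b := by
      funext z
      exact hb z z.2
    rw [this]
    exact measurable_const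

namespace GJ

lemma measurable_WW (h : GJ M g J) : Measurable (WW J) := by
  refine measurable_of_continuousOn_DD ?_ 0 ?_
  · have h1 : ContinuousOn (fun z : M × M => (ENNReal.ofReal (J z.1 z.2))⁻¹) (DD M) :=
      (ENNReal.continuous_ofReal.comp_continuousOn h.Jcont).inv
    exact h1.congr fun z hz => indicator_of_mem hz _
  · intro z hz
    exact indicator_of_notMem hz _

lemma measurable_kap (h : GJ M g J) (x₀ : Ph M) : Measurable (h.kap x₀) := by
  refine measurable_of_continuousOn_DD (h.continuousOn_kap x₀) x₀ ?_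
  intro z hz
  unfold kap
  rw [dif_neg hz]

lemma measurable_dist' : Measurable (fun z : M × M => dist z.1 z.2) :=
  (continuous_fst.dist continuous_snd).measurable

/-- the map `(p, q) ↦ (κ, d)` -/
lemma measurable_Phi (h : GJ M g J) (x₀ : Ph M) :
    Measurable fun z : M × M => (h.kap x₀ z, dist z.1 z.2) :=
  (h.measurable_kap x₀).prodMk measurable_dist'

end GJ

section

variable {vol : Measure M} {S : Type*} [MeasurableSpace S] {σ : Measure S}
  {γ : M → S → ℝ → M}

/-- the point of the phase space above `p` -/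
def xp (hP : Polar vol σ γ J) (p : M) (v : S) : Ph M := GJ.pt (hP.geo p v) 0

omit [CompactSpace M] [BorelSpace M] in
lemma measurable_xp (hP : Polar vol σ γ J) (p : M) : Measurable (xp hP p) := by
  refine Measurable.subtype_mk ?_
  refine Measurable.prodMk ?_ ?_
  · simp only [hP.zero]
    exact measurable_const
  · simp only [zero_add]
    exact hP.meas p

omit [CompactSpace M] [BorelSpace M] in
lemma kap_xp (hP : Polar vol σ γ J) (h : GJ M g J) (x₀ : Ph M) (p : M) (v : S) {t : ℝ}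
    (h0 : 0 < t) (h1 : t < π) : h.kap x₀ (p, γ p v t) = xp hP p v := by
  have := h.kap_geo x₀ (hP.geo p v) 0 h0 h1
  rwa [hP.zero, zero_add] at this

omit [CompactSpace M] [BorelSpace M] in
lemma dist_xp (hP : Polar vol σ γ J) (p : M) (v : S) {t : ℝ}
    (h0 : 0 < t) (h1 : t < π) : dist p (γ p v t) = t := by
  have := GJ.dist_geo (hP.geo p v) 0 h0.le h1.le
  rwa [hP.zero, zero_add] at this

/-- polar coordinates with the weight -/
lemma polar_W (hP : Polar vol σ γ J) (h : GJ M g J) (p : M) {f : M → ℝ≥0∞} (hf : Measurable f) :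
    ∫⁻ q, WW J (p, q) * f q ∂vol = ∫⁻ v, (∫⁻ t in Ioo 0 π, f (γ p v t)) ∂σ := by
  rw [hP.area p (fun q => WW J (p, q) * f q)
    ((h.measurable_WW.comp measurable_prodMk_left).mul hf)]
  refine lintegral_congr fun v => ?_
  refine setLIntegral_congr_fun measurableSet_Ioo fun t ht => ?_
  have hd := dist_xp hP p v ht.1 ht.2
  have hz : ((p, γ p v t) : M × M) ∈ DD M := by
    refine ⟨?_, ?_⟩
    · show 0 < dist p (γ p v t)
      rw [hd]; exact ht.1
    · show dist p (γ p v t) < π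
      rw [hd]; exact ht.2
  have hJ : 0 < J p (γ p v t) := h.Jpos _ _ hz.1 hz.2
  simp only [WW]
  rw [indicator_of_mem hz]
  have h1 : ENNReal.ofReal (J p (γ p v t)) ≠ 0 := by
    rw [Ne, ENNReal.ofReal_eq_zero, not_le]; exact hJ
  have h2 : ENNReal.ofReal (J p (γ p v t)) ≠ ⊤ := ENNReal.ofReal_ne_top
  show (ENNReal.ofReal (J p (γ p v t)))⁻¹ * f (γ p v t) * ENNReal.ofReal (J p (γ p v t)) =
    f (γ p v t)
  rw [mul_comm (ENNReal.ofReal (J p (γ p v t)))⁻¹, mul_assoc, ENNReal.inv_mul_cancel h1 h2,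
    mul_one]

/-- Step A -/
lemma stepA (hP : Polar vol σ γ J) (h : GJ M g J) (x₀ : Ph M) (p : M)
    {f : Ph M × ℝ → ℝ≥0∞} (hf : Measurable f) :
    ∫⁻ q, WW J (p, q) * f (h.kap x₀ (p, q), dist p q) ∂vol =
      ∫⁻ v, (∫⁻ t in Ioo 0 π, f (xp hP p v, t)) ∂σ := by
  have hm : Measurable fun q => f (h.kap x₀ (p, q), dist p q) :=
    hf.comp ((h.measurable_Phi x₀).comp measurable_prodMk_left)
  rw [polar_W hP h p hm]
  refine lintegral_congr fun v => ?_
  refine setLIntegral_congr_fun measurableSet_Ioo fun t ht => ?_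
  show f (h.kap x₀ (p, γ p v t), dist p (γ p v t)) = f (xp hP p v, t)
  rw [kap_xp hP h x₀ p v ht.1 ht.2, dist_xp hP p v ht.1 ht.2]

/-- the weight cut off at distance one -/
def W1 (J : M → M → ℝ) (z : M × M) : ℝ≥0∞ := {z : M × M | dist z.1 z.2 < 1}.indicator (WW J) z

lemma measurable_W1 (h : GJ M g J) : Measurable (W1 J) :=
  h.measurable_WW.indicator (measurableSet_lt GJ.measurable_dist' measurable_const)

/-- Step B -/
lemma stepB (hP : Polar vol σ γ J) (h : GJ M g J) (x₀ : Ph M) (p : M)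
    {f : Ph M → ℝ≥0∞} (hf : Measurable f) :
    ∫⁻ q, W1 J (p, q) * f (h.kap x₀ (p, q)) ∂vol = ∫⁻ v, f (xp hP p v) ∂σ := by
  have h1 : ∀ q, W1 J (p, q) * f (h.kap x₀ (p, q)) = WW J (p, q) *
      {y : Ph M × ℝ | y.2 < 1}.indicator (fun y => f y.1) (h.kap x₀ (p, q), dist p q) := by
    intro q
    by_cases hq : dist p q < 1
    · have e1 : W1 J (p, q) = WW J (p, q) := indicator_of_mem (show (p, q) ∈
        {z : M × M | dist z.1 z.2 < 1} from hq) _
      have e2 : (h.kap x₀ (p, q), dist p q) ∈ {y : Ph M × ℝ | y.2 < 1} := hq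
      rw [e1, indicator_of_mem e2]
    · have e1 : W1 J (p, q) = 0 := indicator_of_notMem (show (p, q) ∉
        {z : M × M | dist z.1 z.2 < 1} from hq) _
      have e2 : (h.kap x₀ (p, q), dist p q) ∉ {y : Ph M × ℝ | y.2 < 1} := hq
      rw [e1, indicator_of_notMem e2, zero_mul, mul_zero]
  simp only [h1]
  have hmi : Measurable ({y : Ph M × ℝ | y.2 < 1}.indicator (fun y => f y.1)) :=
    (hf.comp measurable_fst).indicator (measurableSet_lt measurable_snd measurable_const)
  rw [stepA hP h x₀ p hmi]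
  refine lintegral_congr fun v => ?_
  have h2 : ∀ t : ℝ, {y : Ph M × ℝ | y.2 < 1}.indicator (fun y => f y.1) (xp hP p v, t) =
      (Iio (1 : ℝ)).indicator (fun _ => f (xp hP p v)) t := by
    intro t
    by_cases ht : t < 1
    · have e2 : (xp hP p v, t) ∈ {y : Ph M × ℝ | y.2 < 1} := ht
      rw [indicator_of_mem e2, indicator_of_mem (show t ∈ Iio (1 : ℝ) from ht)]
    · have e2 : (xp hP p v, t) ∉ {y : Ph M × ℝ | y.2 < 1} := ht
      rw [indicator_of_notMem e2, indicator_of_notMem (show t ∉ Iio (1 : ℝ) from ht)]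
  simp only [h2]
  rw [setLIntegral_indicator measurableSet_Iio, setLIntegral_const]
  have h3 : Iio (1 : ℝ) ∩ Ioo 0 π = Ioo 0 1 := by
    ext t
    simp only [mem_inter_iff, mem_Iio, mem_Ioo]
    constructor
    · rintro ⟨a, b, c⟩; exact ⟨b, a⟩
    · rintro ⟨a, b⟩; exact ⟨b, a, by linarith [Real.pi_gt_three]⟩
  rw [h3, Real.volume_Ioo]
  simp

/-- the measure on the phase space -/
def mu (vol : Measure M) (h : GJ M g J) (x₀ : Ph M) : Measure (Ph M) :=
  ((vol.prod vol).withDensity (W1 J)).map (h.kap x₀)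

lemma lintegral_mu' [SFinite vol] (h : GJ M g J) (x₀ : Ph M) {f : Ph M → ℝ≥0∞} (hf : Measurable f) :
    ∫⁻ x, f x ∂(mu vol h x₀) = ∫⁻ z, W1 J z * f (h.kap x₀ z) ∂(vol.prod vol) := by
  unfold mu
  rw [lintegral_map hf (h.measurable_kap x₀)]
  exact lintegral_withDensity_eq_lintegral_mul _ (measurable_W1 h) (hf.comp (h.measurable_kap x₀))

/-- Step C -/
lemma lintegral_mu [SFinite vol] (hP : Polar vol σ γ J) (h : GJ M g J) (x₀ : Ph M)
    {f : Ph M → ℝ≥0∞} (hf : Measurable f) :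
    ∫⁻ x, f x ∂(mu vol h x₀) = ∫⁻ p, ∫⁻ v, f (xp hP p v) ∂σ ∂vol := by
  have hm : Measurable fun z : M × M => W1 J z * f (h.kap x₀ z) :=
    (measurable_W1 h).mul (hf.comp (h.measurable_kap x₀))
  rw [lintegral_mu' h x₀ hf, lintegral_prod _ hm.aemeasurable]
  refine lintegral_congr fun p => ?_
  exact stepB hP h x₀ p hf

/-- Step D: the measure `1 / J vol ⊗ vol` is `mu ⊗ dt` -/
theorem lintegral_Phi [SFinite vol] [SFinite σ] (hP : Polar vol σ γ J) (h : GJ M g J) (x₀ : Ph M)
    {f : Ph M × ℝ → ℝ≥0∞} (hf : Measurable f) :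
    ∫⁻ z, WW J z * f (h.kap x₀ z, dist z.1 z.2) ∂(vol.prod vol) =
      ∫⁻ t in Ioo 0 π, ∫⁻ x, f (x, t) ∂(mu vol h x₀) := by
  have hm : Measurable fun z : M × M => WW J z * f (h.kap x₀ z, dist z.1 z.2) :=
    h.measurable_WW.mul (hf.comp (h.measurable_Phi x₀))
  rw [lintegral_prod _ hm.aemeasurable]
  have e1 : ∀ p, ∫⁻ q, WW J (p, q) * f (h.kap x₀ (p, q), dist p q) ∂vol =
      ∫⁻ t in Ioo 0 π, ∫⁻ v, f (xp hP p v, t) ∂σ := by
    intro p
    rw [stepA hP h x₀ p hf]
    have hm2 : Measurable (Function.uncurry fun (v : S) (t : ℝ) => f (xp hP p v, t)) :=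
      hf.comp (((measurable_xp hP p).comp measurable_fst).prodMk measurable_snd)
    exact lintegral_lintegral_swap hm2.aemeasurable
  have e2 : ∀ p, ∀ t : ℝ, ∫⁻ v, f (xp hP p v, t) ∂σ =
      ∫⁻ q, W1 J (p, q) * f (h.kap x₀ (p, q), t) ∂vol := by
    intro p t
    exact (stepB hP h x₀ p (f := fun x => f (x, t)) (hf.comp measurable_prodMk_right)).symm
  have hm3 : Measurable (fun y : M × ℝ => ∫⁻ q, W1 J (y.1, q) * f (h.kap x₀ (y.1, q), y.2) ∂vol) := by
    refine Measurable.lintegral_prod_right' (f := fun y : (M × ℝ) × M =>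
      W1 J (y.1.1, y.2) * f (h.kap x₀ (y.1.1, y.2), y.1.2)) ?_
    have hpq : Measurable fun y : (M × ℝ) × M => ((y.1.1, y.2) : M × M) :=
      (measurable_fst.comp measurable_fst).prodMk measurable_snd
    exact ((measurable_W1 h).comp hpq).mul
      (hf.comp (((h.measurable_kap x₀).comp hpq).prodMk (measurable_snd.comp measurable_fst)))
  calc ∫⁻ p, ∫⁻ q, WW J (p, q) * f (h.kap x₀ (p, q), dist p q) ∂vol ∂vol
      = ∫⁻ p, (∫⁻ t in Ioo 0 π, ∫⁻ v, f (xp hP p v, t) ∂σ) ∂vol := lintegral_congr e1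
    _ = ∫⁻ t in Ioo 0 π, ∫⁻ p, ∫⁻ v, f (xp hP p v, t) ∂σ ∂vol := by
        simp only [e2]
        exact lintegral_lintegral_swap (f := fun p t =>
          ∫⁻ q, W1 J (p, q) * f (h.kap x₀ (p, q), t) ∂vol) hm3.aemeasurable
    _ = ∫⁻ t in Ioo 0 π, ∫⁻ x, f (x, t) ∂(mu vol h x₀) := by
        refine lintegral_congr fun t => ?_
        exact (lintegral_mu hP h x₀ (f := fun x => f (x, t))
          (hf.comp measurable_prodMk_right)).symm

end

end Pool.Agent.Lib.MP_ccbbf6_gt.Geo
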