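import Pool.Agent.Lib.MP_ccbbf6_gt.ML

/-!
# Polar coordinates for the lower integral (helper77)
-/

set_option autoImplicit false

open MeasureTheory Set Filter Topology Metric Real
open scoped ENNReal NNReal

noncomputable section

namespace Pool.Agent.Lib.MP_ccbbf6_gt.Geo

variable {E : Type*} [NormedAddCommGroup E] [NormedSpace ℝ E] [FiniteDimensional ℝ E]
  [MeasurableSpace E] [BorelSpace E] [Nontrivial E] (μ : Measure E) [μ.IsAddHaarMeasure]

/-- Polar coordinates. -/
theorem lintegral_polar {F : E → ℝ≥0∞} (hF : Measurable F) :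
    ∫⁻ ξ, F ξ ∂μ = ∫⁻ v : sphere (0 : E) 1,
      (∫⁻ r in Ioi (0 : ℝ), F (r • (v : E)) * ENNReal.ofReal (r ^ (Module.finrank ℝ E - 1)))
        ∂μ.toSphere := by
  have h0 : ∫⁻ ξ, F ξ ∂μ = ∫⁻ ξ in ({0}ᶜ : Set E), F ξ ∂μ := by
    rw [Measure.restrict_eq_self_of_ae_mem]
    rw [ae_iff]
    simp
  have hm : MeasurableSet ({0}ᶜ : Set E) := (measurableSet_singleton _).compl
  rw [h0, ← lintegral_subtype_comap hm]
  have hmp := μ.measurePreserving_homeomorphUnitSphereProd
  have h1 : ∀ x : ({0}ᶜ : Set E), F x = (fun y : sphere (0 : E) 1 × Ioi (0 : ℝ) =>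
      F (((homeomorphUnitSphereProd E).symm y : ({0}ᶜ : Set E)) : E))
      (homeomorphUnitSphereProd E x) := by
    intro x
    simp
  rw [lintegral_congr h1]
  have hG : Measurable fun y : sphere (0 : E) 1 × Ioi (0 : ℝ) =>
      F (((homeomorphUnitSphereProd E).symm y : ({0}ᶜ : Set E)) : E) :=
    hF.comp (measurable_subtype_coe.comp (homeomorphUnitSphereProd E).symm.measurable)
  rw [hmp.lintegral_comp hG, lintegral_prod _ hG.aemeasurable]
  refine lintegral_congr fun v => ?_
  have h2 : ∀ r : Ioi (0 : ℝ), (((homeomorphUnitSphereProd E).symm (v, r) : ({0}ᶜ : Set E)) : E) =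
      (r : ℝ) • (v : E) := by
    intro r
    simp
  simp only [h2]
  have hG2 : Measurable fun r : ℝ => F (r • (v : E)) :=
    hF.comp (measurable_id.smul measurable_const)
  have hw : Measurable fun r : Ioi (0 : ℝ) => ENNReal.ofReal ((r : ℝ) ^ (Module.finrank ℝ E - 1)) :=
    (measurable_subtype_coe.pow_const _).ennreal_ofReal
  have hG3 : Measurable fun r : Ioi (0 : ℝ) => F ((r : ℝ) • (v : E)) :=
    hG2.comp measurable_subtype_coe
  unfold Measure.volumeIoiPow
  refine (lintegral_withDensity_eq_lintegral_mul _ hw hG3).trans ?_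
  have h3 : ∀ r : Ioi (0 : ℝ), ((fun r : Ioi (0 : ℝ) => ENNReal.ofReal ((r : ℝ) ^
      (Module.finrank ℝ E - 1))) * (fun r : Ioi (0 : ℝ) => F ((r : ℝ) • (v : E)))) r =
      (fun r : ℝ => F (r • (v : E)) * ENNReal.ofReal (r ^ (Module.finrank ℝ E - 1))) r := by
    intro r
    simp only [Pi.mul_apply]
    rw [mul_comm]
  rw [lintegral_congr h3]
  exact lintegral_subtype_comap (μ := (volume : Measure ℝ)) (s := Ioi (0 : ℝ)) measurableSet_Ioi
    (fun r : ℝ => F (r • (v : E)) * ENNReal.ofReal (r ^ (Module.finrank ℝ E - 1)))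

end Pool.Agent.Lib.MP_ccbbf6_gt.Geo
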