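import Pool.Agent.Lib.MP_ccbbf6_gt.Geo.SMc

/-!
# SM-E, first part: behaviour near the base point, the Jacobian theta (helper97)
Everything except `theta_pos` (which uses `B_nondeg`).
-/

set_option autoImplicit false

open Set Filter Topology Metric Real
open scoped ContDiff RealInnerProductSpace

noncomputable section

namespace Pool.Agent.Lib.MP_ccbbf6_gt.Geo

variable {n : ℕ} {M : Type*} [MetricSpace M] [CompactSpace M] (𝒜 : SDist n M)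

/-! ## theta -/

theorem sme_theta_eq {p q : M} (h : ContDiffAt ℝ 2 (𝒜.F p q) (0, 0)) : 𝒜.theta p q = |(Mx (𝒜.F p q) (0, 0)).det| := by
  unfold SDist.theta Mx SDist.BF
  congr 3
  funext i j
  exact sm0_mixed h _ _

theorem sme_BF {p q : M} (h : ContDiffAt ℝ 2 (𝒜.F p q) (0, 0)) (a b : Eu n) :
    𝒜.BF p q a b = fderiv ℝ (fderiv ℝ (𝒜.F p q)) (0, 0) (a, 0) (0, b) :=
  sm0_mixed h a b

theorem sme_B {p q : M} (h : ContDiffAt ℝ 2 (𝒜.f p q) (0, 0)) (a b : Eu n) :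
    𝒜.B p q a b = fderiv ℝ (fderiv ℝ (𝒜.f p q)) (0, 0) (a, 0) (0, b) :=
  sm0_mixed h a b

theorem sme_H {p q : M} (h : ContDiffAt ℝ 2 (𝒜.f p q) (0, 0)) (a b : Eu n) :
    𝒜.H p q a b = fderiv ℝ (fderiv ℝ (𝒜.f p q)) (0, 0) (a, 0) (b, 0) :=
  sm0_second_fst h a b

theorem sme_D1 {p q : M} (h : DifferentiableAt ℝ (𝒜.f p q) (0, 0)) (a : Eu n) :
    𝒜.D1 p q a = fderiv ℝ (𝒜.f p q) (0, 0) (a, 0) := by
  unfold SDist.D1
  rw [sm0_fderiv_fst h]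
  rfl

/-- the entries of `H`, `B`, `theta` depend continuously on the geodesic and on the parameters -/
theorem tendsto_theta (hB : Bl M) : ContinuousOn (fun z : M × M => 𝒜.theta z.1 z.2) {z | dist z.1 z.2 < π} := by
  rintro ⟨p, q⟩ hpq
  have hpq : dist p q < π := hpq
  refine ContinuousAt.continuousWithinAt ?_
  have hF : ContDiffAt ℝ 2 (𝒜.F p q) (0, 0) := (contDiffAt_F 𝒜 hB hpq).of_le two_le_infty
  -- the chart changes
  have h1 : Tendsto (fun z : M × M => |(mt (fderiv ℝ (𝒜.ch p z.1) 0)).det|) (𝓝 (p, q)) (𝓝 1) :=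
    (tendsto_det_ch 𝒜 p).comp (continuous_fst.tendsto (p, q))
  have h2 : Tendsto (fun z : M × M => |(mt (fderiv ℝ (𝒜.ch q z.2) 0)).det|) (𝓝 (p, q)) (𝓝 1) :=
    (tendsto_det_ch 𝒜 q).comp (continuous_snd.tendsto (p, q))
  have h3 : Tendsto (fun z : M × M => (𝒜.ψ p z.1, 𝒜.ψ q z.2)) (𝓝 (p, q)) (𝓝 (0, 0)) :=
    ((tendsto_ψ 𝒜 p).comp (continuous_fst.tendsto (p, q))).prodMk_nhds
      ((tendsto_ψ 𝒜 q).comp (continuous_snd.tendsto (p, q)))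
  have h4 : Tendsto (fun z : M × M => |(Mx (𝒜.F p q) (𝒜.ψ p z.1, 𝒜.ψ q z.2)).det|) (𝓝 (p, q))
      (𝓝 |(Mx (𝒜.F p q) (0, 0)).det|) := by
    have e1 := (continuousAt_Mx hF).tendsto.comp h3
    have e2 := ((continuous_id.matrix_det).tendsto (Mx (𝒜.F p q) (0, 0))).comp e1
    exact (continuous_abs.tendsto _).comp e2
  have h5 := (h1.mul h4).mul h2
  rw [one_mul, mul_one, ← sme_theta_eq 𝒜 hF] at h5
  have h6 : 𝒜.theta p q = (fun z : M × M => 𝒜.theta z.1 z.2) (p, q) := rfl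
  rw [h6] at h5
  refine Tendsto.congr' ?_ h5
  have h7 : ∀ᶠ z : M × M in 𝓝 (p, q), z.1 ∈ (𝒜.ψ p).source :=
    (continuous_fst.tendsto (p, q)).eventually ((𝒜.ψ p).open_source.mem_nhds (𝒜.mem p))
  have h8 : ∀ᶠ z : M × M in 𝓝 (p, q), z.2 ∈ (𝒜.ψ q).source :=
    (continuous_snd.tendsto (p, q)).eventually ((𝒜.ψ q).open_source.mem_nhds (𝒜.mem q))
  have h9 : ∀ᶠ z : M × M in 𝓝 (p, q), dist z.1 z.2 < π := (continuous_dist.tendsto (p, q)).eventually (gt_mem_nhds hpq)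
  filter_upwards [h7, h8, h9, h3.eventually (hF.eventually (by simp))] with z e1 e2 e3 e4
  rw [sme_theta_eq 𝒜 ((contDiffAt_F 𝒜 hB e3).of_le two_le_infty), Mx_ch 𝒜 e1 e2 e4, Matrix.det_mul, Matrix.det_mul,
    Matrix.det_transpose, abs_mul, abs_mul]

/-- second derivative of a composition with a linear map -/
theorem sme_lin {V V' : Type*} [NormedAddCommGroup V] [NormedSpace ℝ V] [NormedAddCommGroup V'] [NormedSpace ℝ V']
    {G : V' → ℝ} (L : V →L[ℝ] V') {z : V} (h : ContDiffAt ℝ 2 G (L z)) (a b : V) :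
    fderiv ℝ (fderiv ℝ (fun y => G (L y))) z a b = fderiv ℝ (fderiv ℝ G) (L z) (L a) (L b) := by
  have h1 : (fderiv ℝ (fun y => G (L y))) =ᶠ[𝓝 z] fun y => (fderiv ℝ G (L y)).comp L := by
    filter_upwards [L.continuous.continuousAt.eventually (sm0_ev h)] with y hy
    exact (hy.hasFDerivAt.comp y L.hasFDerivAt).fderiv
  rw [h1.fderiv_eq]
  have h2 : HasFDerivAt (fun y : V => fderiv ℝ G (L y)) ((fderiv ℝ (fderiv ℝ G) (L z)).comp L) z :=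
    (sm0_d2 h).hasFDerivAt.comp z L.hasFDerivAt
  have h3 := (((ContinuousLinearMap.compL ℝ V V' ℝ).flip L).hasFDerivAt.comp z h2)
  have h4 : HasFDerivAt (fun y : V => (fderiv ℝ G (L y)).comp L)
      (((ContinuousLinearMap.compL ℝ V V' ℝ).flip L).comp ((fderiv ℝ (fderiv ℝ G) (L z)).comp L)) z := h3
  rw [h4.fderiv]
  rfl

theorem sme_swap {p q : M} (h : ContDiffAt ℝ 2 (𝒜.F p q) (0, 0)) (a b : Eu n) :
    fderiv ℝ (fderiv ℝ (𝒜.F q p)) (0, 0) (b, 0) (0, a) = fderiv ℝ (fderiv ℝ (𝒜.F p q)) (0, 0) (a, 0) (0, b) := by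
  have h1 : 𝒜.F q p = fun z => 𝒜.F p q (ContinuousLinearEquiv.prodComm ℝ (Eu n) (Eu n) z) := by
    funext z
    unfold SDist.F SDist.f
    rw [dist_comm]
    rfl
  rw [h1]
  have h2 := sme_lin (G := 𝒜.F p q) ((ContinuousLinearEquiv.prodComm ℝ (Eu n) (Eu n) : (Eu n × Eu n) →L[ℝ] Eu n × Eu n))
    (z := (0, 0)) h (b, 0) (0, a)
  refine h2.trans ?_
  exact sm0_symm h _ _

theorem theta_symm (hB : Bl M) {p q : M} (h1 : dist p q < π) : 𝒜.theta p q = 𝒜.theta q p := by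
  have hF : ContDiffAt ℝ 2 (𝒜.F p q) (0, 0) := (contDiffAt_F 𝒜 hB h1).of_le two_le_infty
  have hF' : ContDiffAt ℝ 2 (𝒜.F q p) (0, 0) :=
    (contDiffAt_F 𝒜 hB (by rwa [dist_comm] at h1)).of_le two_le_infty
  rw [sme_theta_eq 𝒜 hF, sme_theta_eq 𝒜 hF', ← Matrix.det_transpose (Mx (𝒜.F q p) (0, 0))]
  congr 2
  ext i j
  simp only [Mx, Matrix.transpose_apply, Matrix.of_apply]
  exact (sme_swap 𝒜 hF _ _).symm

/-- relation of `BF` and `B`: `D₁D₂F = D₁d ⊗ D₂d + d D₁D₂d` -/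
theorem sme_BF_eq (hB : Bl M) {c : ℝ → M} (hc : IsGeo c) {s t : ℝ} (h0 : s < t) (h1 : t < s + π) (a b : Eu n) :
    𝒜.BF (c s) (c t) a b = -⟪𝒜.vel c s, a⟫ * ⟪𝒜.vel c t, b⟫ + (t - s) * 𝒜.B (c s) (c t) a b := by
  have hd : dist (c s) (c t) = t - s := by
    rw [hc s t (by rw [abs_le]; constructor <;> linarith), abs_sub_comm, abs_of_pos (by linarith)]
  have hf : ContDiffAt ℝ 2 (𝒜.f (c s) (c t)) (0, 0) :=
    (contDiffAt_f 𝒜 hB (by rw [hd]; linarith) (by rw [hd]; linarith)).of_le two_le_infty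
  have hF : ContDiffAt ℝ 2 (𝒜.F (c s) (c t)) (0, 0) :=
    (contDiffAt_F 𝒜 hB (by rw [hd]; linarith)).of_le two_le_infty
  rw [sme_BF 𝒜 hF, sme_B 𝒜 hf]
  have e1 := sm0_sq hf (a, 0) (0, b)
  have e2 : fderiv ℝ (𝒜.f (c s) (c t)) (0, 0) (a, 0) = -⟪𝒜.vel c s, a⟫ := by
    rw [← sme_D1 𝒜 (hf.differentiableAt (by norm_num)) a]
    have := D1_forward 𝒜 hB hc (s := s) (t := t - s) (by linarith) (by linarith) a
    rwa [show s + (t - s) = t by ring] at this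
  have e3 : fderiv ℝ (𝒜.f (c s) (c t)) (0, 0) (0, b) = ⟪𝒜.vel c t, b⟫ := by
    have h3 := D1_backward 𝒜 hB hc (s := t) (t := t - s) (by linarith) (by linarith) b
    rw [show t - (t - s) = s by ring] at h3
    rw [← h3]
    have h4 := sm0_fderiv_snd (G := 𝒜.f (c s) (c t)) (u := 0) (v := 0) (hf.differentiableAt (by norm_num))
    have h5 := congrArg (fun L => L b) h4
    simp only [ContinuousLinearMap.comp_apply, ContinuousLinearMap.inr_apply] at h5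
    rw [← h5]
    unfold SDist.D1 SDist.f
    simp only [dist_comm]
  rw [e2, e3, f_zero, hd] at e1
  exact e1

/-! ## behaviour near the base point -/

theorem sme_f_of_F {p q : M} (hpq : p ≠ q) (h : ContDiffAt ℝ 2 (𝒜.F p q) (0, 0)) :
    ContDiffAt ℝ 2 (𝒜.f p q) (0, 0) := by
  have h1 : 𝒜.f p q = fun z => Real.sqrt (2 * 𝒜.F p q z) := by
    funext z
    unfold SDist.F
    rw [mul_div_cancel₀ _ (two_ne_zero), Real.sqrt_sq]
    exact dist_nonneg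
  rw [h1]
  refine ContDiffAt.sqrt (contDiffAt_const.mul h) ?_
  rw [F_zero]
  have := dist_pos.2 hpq
  positivity

theorem sme_ch_self (p : M) : fderiv ℝ (𝒜.ch p p) 0 = ContinuousLinearMap.id ℝ (Eu n) := by
  have h1 : 𝒜.ch p p =ᶠ[𝓝 0] id := by
    filter_upwards [(𝒜.ψ p).open_target.mem_nhds (zero_mem_target 𝒜 p)] with u hu
    exact (𝒜.ψ p).right_inv hu
  rw [h1.fderiv_eq, fderiv_id]

/-- first order chain rule -/
theorem sme_chain1 {G' G : Eu n × Eu n → ℝ} {φ χ : Eu n → Eu n} {u v : Eu n}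
    (hG : DifferentiableAt ℝ G (φ u, χ v)) (hφ : DifferentiableAt ℝ φ u) (hχ : DifferentiableAt ℝ χ v)
    (h : G' =ᶠ[𝓝 (u, v)] fun z => G (φ z.1, χ z.2)) (a b : Eu n) :
    fderiv ℝ G' (u, v) (a, b) = fderiv ℝ G (φ u, χ v) (fderiv ℝ φ u a, fderiv ℝ χ v b) := by
  have e4 : HasFDerivAt (fun z : Eu n × Eu n => (φ z.1, χ z.2))
      (((fderiv ℝ φ u).comp (ContinuousLinearMap.fst ℝ (Eu n) (Eu n))).prod
        ((fderiv ℝ χ v).comp (ContinuousLinearMap.snd ℝ (Eu n) (Eu n)))) (u, v) :=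
    (hφ.hasFDerivAt.comp (u, v) hasFDerivAt_fst).prodMk (hχ.hasFDerivAt.comp (u, v) hasFDerivAt_snd)
  have e5 : HasFDerivAt (fun z : Eu n × Eu n => G (φ z.1, χ z.2)) _ (u, v) := hG.hasFDerivAt.comp (u, v) e4
  rw [h.fderiv_eq, e5.fderiv]
  simp

/-- the local data at `x` near `s`: everything in terms of `G = F (c s) (c s)` at `(0, y x)` -/
theorem sme_local {c : ℝ → M} (hc : IsGeo c) (s : ℝ) : ∀ᶠ x in 𝓝[≠] s,
    0 < |x - s| ∧ dist (c s) (c x) = |x - s| ∧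
    ContDiffAt ℝ 2 (𝒜.F (c s) (c s)) (0, 𝒜.ψ (c s) (c x)) ∧
    ContDiffAt ℝ 2 (𝒜.F (c s) (c x)) (0, 0) ∧ ContDiffAt ℝ 2 (𝒜.f (c s) (c x)) (0, 0) ∧
    (∀ a, fderiv ℝ (𝒜.F (c s) (c x)) (0, 0) (a, 0) = fderiv ℝ (𝒜.F (c s) (c s)) (0, 𝒜.ψ (c s) (c x)) (a, 0)) ∧
    (∀ b, fderiv ℝ (𝒜.F (c s) (c x)) (0, 0) (0, b) =
      fderiv ℝ (𝒜.F (c s) (c s)) (0, 𝒜.ψ (c s) (c x)) (0, fderiv ℝ (𝒜.ch (c s) (c x)) 0 b)) ∧
    (∀ a b, fderiv ℝ (fderiv ℝ (𝒜.F (c s) (c x))) (0, 0) (a, 0) (b, 0) =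
      fderiv ℝ (fderiv ℝ (𝒜.F (c s) (c s))) (0, 𝒜.ψ (c s) (c x)) (a, 0) (b, 0)) ∧
    (∀ a b, fderiv ℝ (fderiv ℝ (𝒜.F (c s) (c x))) (0, 0) (a, 0) (0, b) =
      fderiv ℝ (fderiv ℝ (𝒜.F (c s) (c s))) (0, 𝒜.ψ (c s) (c x)) (a, 0) (0, fderiv ℝ (𝒜.ch (c s) (c x)) 0 b)) := by
  have hcont : ContinuousAt c s := by
    rw [Metric.continuousAt_iff]
    intro ε hε
    refine ⟨min ε π, lt_min hε pi_pos, fun x hx => ?_⟩
    rw [Real.dist_eq] at hx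
    have h1 : |x - s| ≤ π := hx.le.trans (min_le_right _ _)
    rw [hc x s h1]
    exact hx.trans_le (min_le_left _ _)
  have hy : Tendsto (fun x => 𝒜.ψ (c s) (c x)) (𝓝 s) (𝓝 0) := (tendsto_ψ 𝒜 (c s)).comp hcont
  have hy2 : Tendsto (fun x => ((0 : Eu n), 𝒜.ψ (c s) (c x))) (𝓝 s) (𝓝 (0, 0)) := tendsto_const_nhds.prodMk_nhds hy
  have hG : ContDiffAt ℝ 2 (𝒜.F (c s) (c s)) (0, 0) := (F_diag_eventually 𝒜 (c s)).self_of_nhds.of_le two_le_infty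
  have e1 := hy2.eventually (hG.eventually (by simp))
  have e2 : ∀ᶠ x in 𝓝 s, c x ∈ (𝒜.ψ (c s)).source := hcont.eventually ((𝒜.ψ (c s)).open_source.mem_nhds (𝒜.mem (c s)))
  have e3 : ∀ᶠ x in 𝓝 s, |x - s| < π := by
    have : Tendsto (fun x => |x - s|) (𝓝 s) (𝓝 |s - s|) := (continuous_abs.comp (continuous_id.sub continuous_const)).tendsto s
    rw [sub_self, abs_zero] at this
    exact this.eventually (gt_mem_nhds pi_pos)
  filter_upwards [nhdsWithin_le_nhds e1, nhdsWithin_le_nhds e2, nhdsWithin_le_nhds e3, self_mem_nhdsWithin] with x h1 h2 h3 h4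
  have h4 : x ≠ s := h4
  have hpos : 0 < |x - s| := abs_pos.2 (sub_ne_zero.2 h4)
  have hd : dist (c s) (c x) = |x - s| := by rw [dist_comm, hc x s h3.le]
  have hne : c s ≠ c x := by
    intro h
    rw [← dist_eq_zero, hd] at h
    exact hpos.ne' h
  have hs := 𝒜.mem (c s)
  have hz : 𝒜.ψ (c s) (c s) = 0 := 𝒜.zero _
  have hφ := contDiffAt_ch 𝒜 hs
  have hχ := contDiffAt_ch 𝒜 h2
  have hF : ContDiffAt ℝ 2 (𝒜.F (c s) (c x)) (0, 0) := by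
    have hΦ : ContDiffAt ℝ 2 (fun z : Eu n × Eu n => (𝒜.ch (c s) (c s) z.1, 𝒜.ch (c s) (c x) z.2)) (0, 0) :=
      ((hφ.of_le two_le_infty).comp ((0, 0) : Eu n × Eu n) contDiffAt_fst).prodMk
        ((hχ.of_le two_le_infty).comp ((0, 0) : Eu n × Eu n) contDiffAt_snd)
    refine ContDiffAt.congr_of_eventuallyEq ?_ (F_ch 𝒜 hs h2)
    refine ContDiffAt.comp ((0, 0) : Eu n × Eu n) (g := 𝒜.F (c s) (c s)) ?_ hΦ
    simp only [ch_zero, hz]
    exact h1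
  have hdφ : DifferentiableAt ℝ (𝒜.ch (c s) (c s)) 0 := hφ.differentiableAt (by simp)
  have hdχ : DifferentiableAt ℝ (𝒜.ch (c s) (c x)) 0 := hχ.differentiableAt (by simp)
  have hdG : DifferentiableAt ℝ (𝒜.F (c s) (c s)) (𝒜.ch (c s) (c s) 0, 𝒜.ch (c s) (c x) 0) := by
    rw [ch_zero, ch_zero, hz]
    exact h1.differentiableAt (by norm_num)
  have hch := fun a b => sme_chain1 hdG hdφ hdχ (F_ch 𝒜 hs h2) a b
  have hfun : ∀ u, 𝒜.F (c s) (c x) (u, 0) = 𝒜.F (c s) (c s) (u, 𝒜.ψ (c s) (c x)) := by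
    intro u
    unfold SDist.F SDist.f
    simp only [symm_zero, (𝒜.ψ (c s)).left_inv h2]
  refine ⟨hpos, hd, h1, hF, sme_f_of_F 𝒜 hne hF, ?_, ?_, ?_, ?_⟩
  · intro a
    have := hch a 0
    rw [ch_zero, ch_zero, hz, sme_ch_self, map_zero] at this
    exact this
  · intro b
    have := hch 0 b
    rw [ch_zero, ch_zero, hz, map_zero] at this
    exact this
  · intro a b
    rw [← sm0_second_fst hF, ← sm0_second_fst h1]
    simp only [hfun]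
  · intro a b
    have := D2F_ch 𝒜 hs h2 (by rw [hz]; exact h1) a b
    rw [hz, sme_ch_self] at this
    exact this

theorem sme_app {ι : Type*} {l : Filter ι} {Φ : ι → (Eu n × Eu n) →L[ℝ] (Eu n × Eu n) →L[ℝ] ℝ}
    {D : (Eu n × Eu n) →L[ℝ] (Eu n × Eu n) →L[ℝ] ℝ} (h : Tendsto Φ l (𝓝 D)) (u w : Eu n × Eu n) :
    Tendsto (fun x => Φ x u w) l (𝓝 (D u w)) := by
  have h1 : Continuous fun L : (Eu n × Eu n) →L[ℝ] (Eu n × Eu n) →L[ℝ] ℝ => L u w :=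
    (continuous_id.clm_apply continuous_const).clm_apply continuous_const
  exact (h1.tendsto D).comp h

/-- limits of the derivatives of `G = F (c s) (c s)` at `(0, y x)` -/
theorem sme_limits {c : ℝ → M} (hc : IsGeo c) (s : ℝ) :
    Tendsto (fun x => fderiv ℝ (fderiv ℝ (𝒜.F (c s) (c s))) (0, 𝒜.ψ (c s) (c x))) (𝓝[≠] s)
      (𝓝 (fderiv ℝ (fderiv ℝ (𝒜.F (c s) (c s))) (0, 0))) ∧
    ∀ w : Eu n × Eu n, Tendsto (fun x => (x - s)⁻¹ * fderiv ℝ (𝒜.F (c s) (c s)) (0, 𝒜.ψ (c s) (c x)) w) (𝓝[≠] s)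
      (𝓝 (⟪-𝒜.vel c s, w.1 - w.2⟫)) := by
  have hv : HasDerivAt (fun t => 𝒜.ψ (c s) (c t)) (𝒜.vel c s) s := (hc.exists_vel 𝒜 s).2
  have hG : ContDiffAt ℝ 2 (𝒜.F (c s) (c s)) (0, 0) := (F_diag_eventually 𝒜 (c s)).self_of_nhds.of_le two_le_infty
  have hy0 : 𝒜.ψ (c s) (c s) = 0 := 𝒜.zero _
  have hy2 : HasDerivAt (fun x => ((0 : Eu n), 𝒜.ψ (c s) (c x))) ((0 : Eu n), 𝒜.vel c s) s :=
    (hasDerivAt_const s (0 : Eu n)).prodMk hv
  constructor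
  · have h1 : ContinuousAt (fderiv ℝ (fderiv ℝ (𝒜.F (c s) (c s)))) (0, 0) :=
      ((hG.fderiv_right (m := 1) (by norm_num)).fderiv_right (m := 0) (by norm_num)).continuousAt
    have h2 : Tendsto (fun x => ((0 : Eu n), 𝒜.ψ (c s) (c x))) (𝓝 s) (𝓝 (0, 0)) := by
      have := hy2.continuousAt.tendsto
      rwa [hy0] at this
    exact (h1.tendsto.comp h2).mono_left nhdsWithin_le_nhds
  · intro w
    have h1 : HasFDerivAt (fderiv ℝ (𝒜.F (c s) (c s))) (fderiv ℝ (fderiv ℝ (𝒜.F (c s) (c s))) (0, 0))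
        ((0 : Eu n), 𝒜.ψ (c s) (c s)) := by
      rw [hy0]
      exact (sm0_d2 hG).hasFDerivAt
    have h2 : HasDerivAt (fun x => fderiv ℝ (𝒜.F (c s) (c s)) (0, 𝒜.ψ (c s) (c x)))
        (fderiv ℝ (fderiv ℝ (𝒜.F (c s) (c s))) (0, 0) ((0 : Eu n), 𝒜.vel c s)) s :=
      h1.comp_hasDerivAt s hy2
    have h3 : HasDerivAt (fun x => fderiv ℝ (𝒜.F (c s) (c s)) (0, 𝒜.ψ (c s) (c x)) w)
        (fderiv ℝ (fderiv ℝ (𝒜.F (c s) (c s))) (0, 0) ((0 : Eu n), 𝒜.vel c s) w) s := by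
      have := h2.clm_apply (hasDerivAt_const s w)
      simpa using this
    have h4 := hasDerivAt_iff_tendsto_slope.1 h3
    rw [D2F_diag] at h4
    simp only [zero_sub] at h4
    refine h4.congr fun x => ?_
    rw [slope_def_field, hy0, DF_diag]
    simp only [zero_apply, sub_zero]
    rw [div_eq_inv_mul]

theorem sme_D1_zero {c : ℝ → M} (hc : IsGeo c) (s : ℝ) {a : Eu n} (ha : ⟪𝒜.vel c s, a⟫ = 0) :
    Tendsto (fun x => fderiv ℝ (𝒜.f (c s) (c x)) (0, 0) (a, 0)) (𝓝[≠] s) (𝓝 0) := by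
  have h1 := (sme_limits 𝒜 hc s).2 (a, 0)
  simp only [sub_zero, inner_neg_left, ha, neg_zero] at h1
  rw [tendsto_zero_iff_abs_tendsto_zero] at h1 ⊢
  refine h1.congr' ?_
  filter_upwards [sme_local 𝒜 hc s] with x hx
  obtain ⟨hpos, hd, hG, hF, hf, e1, -, -, -⟩ := hx
  have e2 := sm0_sq1 (hf.differentiableAt (by norm_num)) (a, 0)
  rw [f_zero, hd] at e2
  have e3 := e1 a
  have e4 : fderiv ℝ (𝒜.F (c s) (c x)) (0, 0) (a, 0) = |x - s| * fderiv ℝ (𝒜.f (c s) (c x)) (0, 0) (a, 0) := e2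
  simp only [Function.comp_apply]
  rw [← e3, e4]
  rw [abs_mul, abs_mul, abs_inv, abs_abs, ← mul_assoc, inv_mul_cancel₀ hpos.ne', one_mul]

/-- behaviour near the base point -/
theorem tendsto_H_zero {c : ℝ → M} (hc : IsGeo c) (s : ℝ) {a b : Eu n} (ha : ⟪𝒜.vel c s, a⟫ = 0)
    (hb : ⟪𝒜.vel c s, b⟫ = 0) : Tendsto (fun x => |x - s| * 𝒜.H (c s) (c x) a b) (𝓝[≠] s) (𝓝 ⟪a, b⟫) := by
  have h1 := sme_app (sme_limits 𝒜 hc s).1 (a, 0) (b, 0)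
  rw [D2F_diag] at h1
  simp only [sub_zero] at h1
  have h2 := h1.sub ((sme_D1_zero 𝒜 hc s ha).mul (sme_D1_zero 𝒜 hc s hb))
  rw [mul_zero, sub_zero] at h2
  refine h2.congr' ?_
  filter_upwards [sme_local 𝒜 hc s] with x hx
  obtain ⟨hpos, hd, hG, hF, hf, -, -, e1, -⟩ := hx
  have e2 : fderiv ℝ (fderiv ℝ (𝒜.F (c s) (c x))) (0, 0) (a, 0) (b, 0) =
      fderiv ℝ (𝒜.f (c s) (c x)) (0, 0) (a, 0) * fderiv ℝ (𝒜.f (c s) (c x)) (0, 0) (b, 0) +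
      𝒜.f (c s) (c x) (0, 0) * fderiv ℝ (fderiv ℝ (𝒜.f (c s) (c x))) (0, 0) (a, 0) (b, 0) := sm0_sq hf (a, 0) (b, 0)
  rw [f_zero, hd] at e2
  rw [← e1, e2, sme_H 𝒜 hf]
  ring

theorem sme_pair (m m' : Fin n → ℝ) (T : Matrix (Fin n) (Fin n) ℝ) :
    ∑ j, (∑ k, m k * T k j) * (∑ l, m' l * T l j) = ∑ k, ∑ l, m k * m' l * (T * T.transpose) k l := by
  have h1 : ∀ j, (∑ k, m k * T k j) * (∑ l, m' l * T l j) = ∑ k, ∑ l, m k * m' l * (T k j * T l j) := by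
    intro j
    rw [Finset.sum_mul_sum]
    refine Finset.sum_congr rfl fun k _ => Finset.sum_congr rfl fun l _ => ?_
    ring
  simp only [h1, Matrix.mul_apply, Matrix.transpose_apply, Finset.mul_sum]
  rw [Finset.sum_comm]
  refine Finset.sum_congr rfl fun k _ => ?_
  rw [Finset.sum_comm]

theorem tendsto_BB_zero {c : ℝ → M} (hc : IsGeo c) (s : ℝ) {a b : Eu n} (ha : ⟪𝒜.vel c s, a⟫ = 0)
    (hb : ⟪𝒜.vel c s, b⟫ = 0) : Tendsto (fun x => (x - s) ^ 2 * ∑ j : Fin n,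
      𝒜.B (c s) (c x) a (EuclideanSpace.single j 1) * 𝒜.B (c s) (c x) b (EuclideanSpace.single j 1))
      (𝓝[≠] s) (𝓝 ⟪a, b⟫) := by
  -- the covectors
  set γ : Eu n → ℝ → Eu n → ℝ := fun a x w =>
    fderiv ℝ (fderiv ℝ (𝒜.F (c s) (c s))) (0, 𝒜.ψ (c s) (c x)) (a, 0) (0, w) -
      fderiv ℝ (𝒜.f (c s) (c x)) (0, 0) (a, 0) *
        (|x - s|⁻¹ * fderiv ℝ (𝒜.F (c s) (c s)) (0, 𝒜.ψ (c s) (c x)) (0, w)) with hγ
  have hlim : ∀ a : Eu n, ⟪𝒜.vel c s, a⟫ = 0 → ∀ w : Eu n, Tendsto (fun x => γ a x w) (𝓝[≠] s) (𝓝 (-⟪a, w⟫)) := by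
    intro a ha w
    have h1 := sme_app (sme_limits 𝒜 hc s).1 (a, 0) (0, w)
    rw [D2F_diag] at h1
    simp only [sub_zero, zero_sub, inner_neg_right] at h1
    have h2 : Tendsto (fun x => fderiv ℝ (𝒜.f (c s) (c x)) (0, 0) (a, 0) *
        (|x - s|⁻¹ * fderiv ℝ (𝒜.F (c s) (c s)) (0, 𝒜.ψ (c s) (c x)) (0, w))) (𝓝[≠] s) (𝓝 0) := by
      have h3 := (sme_D1_zero 𝒜 hc s ha).mul ((sme_limits 𝒜 hc s).2 (0, w))
      rw [zero_mul, tendsto_zero_iff_abs_tendsto_zero] at h3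
      rw [tendsto_zero_iff_abs_tendsto_zero]
      refine h3.congr fun x => ?_
      simp only [Function.comp_apply]
      rw [abs_mul, abs_mul, abs_mul, abs_mul, abs_inv, abs_inv, abs_abs]
    have h4 := h1.sub h2
    rw [sub_zero] at h4
    exact h4
  have hlin : ∀ (a : Eu n) (x : ℝ) (w : Eu n), γ a x w = ∑ k, γ a x (EuclideanSpace.single k 1) * w k := by
    intro a x w
    have e1 : ((0 : Eu n), w) = ∑ i, w i • ((0 : Eu n), EuclideanSpace.single i (1 : ℝ)) := by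
      have h := congrArg (fun x => ((0, x) : Eu n × Eu n)) (sm0_expand w)
      refine h.trans ?_
      rw [show (((0 : Eu n), ∑ i, w i • EuclideanSpace.single i (1 : ℝ))) =
        ContinuousLinearMap.inr ℝ (Eu n) (Eu n) (∑ i, w i • EuclideanSpace.single i (1 : ℝ)) from rfl, map_sum]
      simp
    simp only [hγ]
    rw [e1]
    simp only [map_sum, map_smul, smul_eq_mul, Finset.mul_sum]
    rw [← Finset.sum_sub_distrib]
    refine Finset.sum_congr rfl fun k _ => ?_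
    ring
  have hcont : Tendsto c (𝓝[≠] s) (𝓝 (c s)) := by
    have : ContinuousAt c s := by
      rw [Metric.continuousAt_iff]
      intro ε hε
      refine ⟨min ε π, lt_min hε pi_pos, fun x hx => ?_⟩
      rw [Real.dist_eq] at hx
      rw [hc x s (hx.le.trans (min_le_right _ _))]
      exact hx.trans_le (min_le_left _ _)
    exact this.tendsto.mono_left nhdsWithin_le_nhds
  have hT : ∀ k l, Tendsto (fun x => (mt (fderiv ℝ (𝒜.ch (c s) (c x)) 0) *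
      (mt (fderiv ℝ (𝒜.ch (c s) (c x)) 0)).transpose) k l) (𝓝[≠] s) (𝓝 ((1 : Matrix (Fin n) (Fin n) ℝ) k l)) := by
    intro k l
    have h1 := (tendsto_mul_transpose_ch 𝒜 (c s)).comp hcont
    exact ((continuous_apply l).tendsto _).comp (((continuous_apply k).tendsto _).comp h1)
  have hsum : Tendsto (fun x => ∑ k, ∑ l, γ a x (EuclideanSpace.single k 1) * γ b x (EuclideanSpace.single l 1) *
      (mt (fderiv ℝ (𝒜.ch (c s) (c x)) 0) * (mt (fderiv ℝ (𝒜.ch (c s) (c x)) 0)).transpose) k l) (𝓝[≠] s)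
      (𝓝 (∑ k, ∑ l, (-⟪a, EuclideanSpace.single k (1 : ℝ)⟫) * (-⟪b, EuclideanSpace.single l (1 : ℝ)⟫) *
        (1 : Matrix (Fin n) (Fin n) ℝ) k l)) :=
    tendsto_finsetSum _ fun k _ => tendsto_finsetSum _ fun l _ =>
      ((hlim a ha _).mul (hlim b hb _)).mul (hT k l)
  have hval : (∑ k, ∑ l, (-⟪a, EuclideanSpace.single k (1 : ℝ)⟫) * (-⟪b, EuclideanSpace.single l (1 : ℝ)⟫) *
        (1 : Matrix (Fin n) (Fin n) ℝ) k l) = ⟪a, b⟫ := by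
    simp [Matrix.one_apply, PiLp.inner_apply, mul_comm]
  rw [hval] at hsum
  refine hsum.congr' ?_
  filter_upwards [sme_local 𝒜 hc s] with x hx
  obtain ⟨hpos, hd, hG, hF, hf, -, e0, -, e1⟩ := hx
  have e2 : ∀ a b : Eu n, |x - s| * 𝒜.B (c s) (c x) a b = γ a x (fderiv ℝ (𝒜.ch (c s) (c x)) 0 b) := by
    intro a b
    have e3 : fderiv ℝ (fderiv ℝ (𝒜.F (c s) (c x))) (0, 0) (a, 0) (0, b) =
        fderiv ℝ (𝒜.f (c s) (c x)) (0, 0) (a, 0) * fderiv ℝ (𝒜.f (c s) (c x)) (0, 0) (0, b) +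
        𝒜.f (c s) (c x) (0, 0) * fderiv ℝ (fderiv ℝ (𝒜.f (c s) (c x))) (0, 0) (a, 0) (0, b) := sm0_sq hf (a, 0) (0, b)
    have e4 : fderiv ℝ (𝒜.F (c s) (c x)) (0, 0) (0, b) = 𝒜.f (c s) (c x) (0, 0) *
        fderiv ℝ (𝒜.f (c s) (c x)) (0, 0) (0, b) := sm0_sq1 (hf.differentiableAt (by norm_num)) (0, b)
    rw [f_zero, hd] at e3 e4
    simp only [hγ]
    rw [← e1, ← e0, e3, e4, sme_B 𝒜 hf]
    field_simp
    ring
  rw [← sme_pair, ← sq_abs (x - s), pow_two, Finset.mul_sum]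
  refine Finset.sum_congr rfl fun j _ => ?_
  have e3 : ∀ a : Eu n, |x - s| * 𝒜.B (c s) (c x) a (EuclideanSpace.single j 1) =
      ∑ k, γ a x (EuclideanSpace.single k 1) * mt (fderiv ℝ (𝒜.ch (c s) (c x)) 0) k j := by
    intro a
    rw [e2, hlin]
    rfl
  rw [← e3, ← e3]
  ring

end Pool.Agent.Lib.MP_ccbbf6_gt.Geo
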