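import Pool.Agent.Lib.MP_ccbbf6_gt.Geo.SMd
import Pool.Agent.Lib.MP_ccbbf6_gt.Geo.SMt

/-!
# SM-E, second part: `theta_pos` (helper97)
-/

set_option autoImplicit false

open Set Filter Topology Metric Real
open scoped ContDiff RealInnerProductSpace

noncomputable section

namespace Pool.Agent.Lib.MP_ccbbf6_gt.Geo

variable {n : ℕ} {M : Type*} [MetricSpace M] [CompactSpace M] (𝒜 : SDist n M)

theorem theta_pos (hB : Bl M) {p q : M} (h1 : dist p q < π) : 0 < 𝒜.theta p q := by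
  have hF : ContDiffAt ℝ 2 (𝒜.F p q) (0, 0) := (contDiffAt_F 𝒜 hB h1).of_le two_le_infty
  rw [sme_theta_eq 𝒜 hF, abs_pos]
  intro hdet
  -- a vector in the left kernel
  obtain ⟨v, hv, hv'⟩ := Matrix.exists_vecMul_eq_zero_iff.2 hdet
  set a : Eu n := WithLp.toLp 2 v with ha
  have ha0 : a ≠ 0 := by
    intro h
    apply hv
    funext i
    have := congrArg (fun x : Eu n => x i) h
    simpa [ha] using this
  have hker : ∀ b : Eu n, 𝒜.BF p q a b = 0 := by
    intro b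
    rw [sme_BF 𝒜 hF, sm0_bil, Finset.sum_comm]
    refine Finset.sum_eq_zero fun j _ => ?_
    have h2 := congrFun hv' j
    simp only [Matrix.vecMul, dotProduct, Mx, Matrix.of_apply, Pi.zero_apply] at h2
    have h3 : ∀ i, a i * b j * fderiv ℝ (fderiv ℝ (𝒜.F p q)) (0, 0) (EuclideanSpace.single i 1, 0)
        (0, EuclideanSpace.single j 1) = b j * (v i * fderiv ℝ (fderiv ℝ (𝒜.F p q)) (0, 0)
          (EuclideanSpace.single i 1, 0) (0, EuclideanSpace.single j 1)) := by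
      intro i
      have : a i = v i := rfl
      rw [this]
      ring
    simp only [h3]
    rw [← Finset.mul_sum, h2, mul_zero]
  rcases eq_or_ne p q with rfl | hne
  · have h2 := hker a
    rw [sme_BF 𝒜 hF, D2F_diag] at h2
    simp only [sub_zero, zero_sub, inner_neg_right, neg_eq_zero, inner_self_eq_zero] at h2
    exact ha0 h2
  · obtain ⟨hc, hc0, hc1⟩ := gd_spec 𝒜 hB hne
    set c := gd p q
    set ℓ := dist p q with hℓ
    have hℓ0 : 0 < ℓ := dist_pos.2 hne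
    have hd : dist (c 0) (c ℓ) = ℓ := by rw [hc0, hc1]
    have e : ∀ b, -⟪𝒜.vel c 0, a⟫ * ⟪𝒜.vel c ℓ, b⟫ + (ℓ - 0) * 𝒜.B (c 0) (c ℓ) a b = 0 := by
      intro b
      rw [← sme_BF_eq 𝒜 hB hc hℓ0 (by linarith) a b, hc0, hc1]
      exact hker b
    have e1 : ⟪𝒜.vel c 0, a⟫ = 0 := by
      have h2 := e (𝒜.vel c ℓ)
      have h3 : 𝒜.B (c 0) (c ℓ) a (𝒜.vel c ℓ) = 0 := by
        rw [B_symm 𝒜 hB (by rw [hd]; exact hℓ0) (by rw [hd]; exact h1)]
        exact B_vel 𝒜 hB hc hℓ0.ne' (by rw [sub_zero, abs_of_pos hℓ0]; exact h1) a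
      rw [h3, mul_zero, add_zero, real_inner_self_eq_norm_sq, (hc.exists_vel 𝒜 ℓ).1] at h2
      linarith
    have e2 : ∀ b, 𝒜.B (c 0) (c ℓ) a b = 0 := by
      intro b
      have h2 := e b
      rw [e1, neg_zero, zero_mul, zero_add, sub_zero] at h2
      exact (mul_eq_zero.1 h2).resolve_left hℓ0.ne'
    exact ha0 (B_nondeg 𝒜 hB hc hℓ0.ne (by rw [zero_sub, abs_neg, abs_of_pos hℓ0]; exact h1) e1 e2)

end Pool.Agent.Lib.MP_ccbbf6_gt.Geo
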