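import Pool.Agent.Lib.MP_ccbbf6_gt.Geo.EXa
import Pool.Agent.Lib.MP_ccbbf6_gt.Geo.MEb
import Pool.Agent.Lib.MP_ccbbf6_gt.Geo.MEp
import Pool.Agent.Lib.MP_ccbbf6_gt.Geo.SMe

/-!
# ME, part e: the phase space of a Blaschke space (helper77)
-/

set_option autoImplicit false

open MeasureTheory Set Filter Topology Metric Real
open scoped ENNReal NNReal

noncomputable section

namespace Pool.Agent.Lib.MP_ccbbf6_gt.Geo

variable {n : ℕ} {M : Type*} [MetricSpace M] [CompactSpace M] (𝒜 : SDist n M)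

theorem SDist.gj (hB : Bl M) : GJ M gd 𝒜.J where
  geo p q h0 _ := gd_spec 𝒜 hB (dist_pos.1 h0)
  eq c hc s t h0 h1 := gd_eq 𝒜 hc h0 h1
  cont := continuousOn_gd 𝒜 hB
  Jcont := by
    have h1 : ContinuousOn (fun z : M × M => 𝒜.theta z.1 z.2) (DD M) :=
      (tendsto_theta 𝒜 hB).mono fun z hz => hz.2
    have h2 : ContinuousOn (fun z : M × M => dist z.1 z.2 ^ (n - 1)) (DD M) :=
      ((continuous_fst.dist continuous_snd).pow _).continuousOn
    exact h2.div h1 fun z hz => (theta_pos 𝒜 hB hz.2).ne'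
  Jpos p q h0 h1 := div_pos (pow_pos h0 _) (theta_pos 𝒜 hB h1)
  Jsymm p q h0 h1 := by
    unfold SDist.J
    rw [theta_symm 𝒜 hB h1, dist_comm]

/-- the area formula for the exponential maps -/
def SDist.Area [MeasurableSpace M] (vol : Measure M) : Prop :=
  ∀ (p : M) (f : M → ℝ≥0∞), Measurable f → ∫⁻ q, f q ∂vol =
    ∫⁻ ξ in ball (0 : Eu n) π, f (𝒜.Ex p ξ) * ENNReal.ofReal ((𝒜.theta p (𝒜.Ex p ξ))⁻¹)

variable [MeasurableSpace M] [BorelSpace M]

omit [MeasurableSpace M] [BorelSpace M] in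
lemma continuousOn_theta_Ex (hB : Bl M) (p : M) :
    ContinuousOn (fun ξ : Eu n => 𝒜.theta p (𝒜.Ex p ξ)) (ball 0 π) := by
  have h1 : Continuous fun ξ : Eu n => ((p, 𝒜.Ex p ξ) : M × M) :=
    continuous_const.prodMk (continuous_Ex 𝒜 hB p)
  have h2 : MapsTo (fun ξ : Eu n => ((p, 𝒜.Ex p ξ) : M × M)) (ball 0 π)
      {z | dist z.1 z.2 < π} := by
    intro ξ hξ
    have hξ' : ‖ξ‖ < π := by simpa using hξ
    show dist p (𝒜.Ex p ξ) < π
    rw [dist_Ex 𝒜 hB p hξ'.le]
    exact hξ'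
  exact ContinuousOn.comp (g := fun z : M × M => 𝒜.theta z.1 z.2)
    (f := fun ξ : Eu n => ((p, 𝒜.Ex p ξ) : M × M)) (tendsto_theta 𝒜 hB) h1.continuousOn h2

omit [MeasurableSpace M] [BorelSpace M] in
lemma theta_Ex_pos (hB : Bl M) (p : M) {ξ : Eu n} (hξ : ‖ξ‖ < π) :
    0 < 𝒜.theta p (𝒜.Ex p ξ) := by
  apply theta_pos 𝒜 hB
  rw [dist_Ex 𝒜 hB p hξ.le]
  exact hξ

theorem SDist.polar (hn : 0 < n) (hB : Bl M) {vol : Measure M} (hA : 𝒜.Area vol) :
    Polar vol (volume : Measure (Eu n)).toSphere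
      (fun (p : M) (v : sphere (0 : Eu n) 1) => 𝒜.gv p v) 𝒜.J where
  geo p v := (gv_spec 𝒜 hB p (by simp)).1
  zero p v := (gv_spec 𝒜 hB p (by simp)).2.1
  meas p := by
    have h1 : Continuous fun v : sphere (0 : Eu n) 1 => (((v : Eu n), π / 2) : Eu n × ℝ) :=
      continuous_subtype_val.prodMk continuous_const
    have h2 : Continuous fun v : sphere (0 : Eu n) 1 => 𝒜.gv p v (π / 2) :=
      (continuousOn_gv 𝒜 hB p).comp_continuous h1 fun v => ⟨by simp, mem_univ _⟩
    exact h2.measurable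
  area p f hf := by
    have : Nonempty (Fin n) := ⟨⟨0, hn⟩⟩
    have : Nontrivial (Eu n) := inferInstance
    set F : Eu n → ℝ≥0∞ := (ball (0 : Eu n) π).indicator fun ξ =>
      f (𝒜.Ex p ξ) * ENNReal.ofReal ((𝒜.theta p (𝒜.Ex p ξ))⁻¹) with hF
    have hFm : Measurable F := by
      have h1 : Measurable ((ball (0 : Eu n) π).indicator fun ξ =>
          ENNReal.ofReal ((𝒜.theta p (𝒜.Ex p ξ))⁻¹)) := by
        refine measurable_of_restrict_of_restrict_compl (s := ball (0 : Eu n) π)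
          measurableSet_ball ?_ ?_
        · have h2 : ContinuousOn (fun ξ => ENNReal.ofReal ((𝒜.theta p (𝒜.Ex p ξ))⁻¹))
              (ball (0 : Eu n) π) := by
            refine ENNReal.continuous_ofReal.comp_continuousOn ?_
            refine (continuousOn_theta_Ex 𝒜 hB p).inv₀ fun ξ hξ => ?_
            exact (theta_Ex_pos 𝒜 hB p (by simpa using hξ)).ne'
          have h3 : ContinuousOn ((ball (0 : Eu n) π).indicator fun ξ =>
              ENNReal.ofReal ((𝒜.theta p (𝒜.Ex p ξ))⁻¹)) (ball (0 : Eu n) π) :=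
            h2.congr fun ξ hξ => indicator_of_mem hξ _
          exact (continuousOn_iff_continuous_domRestrict.1 h3).measurable
        · have : (ball (0 : Eu n) π)ᶜ.domRestrict ((ball (0 : Eu n) π).indicator fun ξ =>
              ENNReal.ofReal ((𝒜.theta p (𝒜.Ex p ξ))⁻¹)) = fun _ => 0 := by
            funext ξ
            have hξ : (ξ : Eu n) ∉ ball (0 : Eu n) π := ξ.2
            exact indicator_of_notMem hξ _
          rw [this]
          exact measurable_const
      have h4 : F = fun ξ => f (𝒜.Ex p ξ) * (ball (0 : Eu n) π).indicator (fun ξ =>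
          ENNReal.ofReal ((𝒜.theta p (𝒜.Ex p ξ))⁻¹)) ξ := by
        funext ξ
        by_cases hξ : ξ ∈ ball (0 : Eu n) π
        · rw [hF, indicator_of_mem hξ, indicator_of_mem hξ]
        · rw [hF, indicator_of_notMem hξ, indicator_of_notMem hξ, mul_zero]
      rw [h4]
      exact (hf.comp (continuous_Ex 𝒜 hB p).measurable).mul h1
    rw [hA p f hf, ← lintegral_indicator measurableSet_ball, ← hF,
      lintegral_polar (volume : Measure (Eu n)) hFm]
    refine lintegral_congr fun v => ?_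
    have hv : ‖(v : Eu n)‖ = 1 := by simp
    rw [finrank_euclideanSpace_fin]
    have h5 : ∀ r : ℝ, r ∈ Ioi (0 : ℝ) → F (r • (v : Eu n)) * ENNReal.ofReal (r ^ (n - 1)) =
        (Ioo (0 : ℝ) π).indicator (fun t => f (𝒜.gv p v t) *
          ENNReal.ofReal (𝒜.J p (𝒜.gv p v t))) r := by
      intro r hr
      have hr0 : 0 < r := hr
      have hnr : ‖r • (v : Eu n)‖ = r := by
        rw [norm_smul, hv, mul_one, Real.norm_of_nonneg hr0.le]
      by_cases hrπ : r < π
      · have hb : r • (v : Eu n) ∈ ball (0 : Eu n) π := by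
          rw [mem_ball_zero_iff, hnr]; exact hrπ
        rw [hF, indicator_of_mem hb, indicator_of_mem (show r ∈ Ioo (0 : ℝ) π from ⟨hr0, hrπ⟩)]
        have e1 : 𝒜.Ex p (r • (v : Eu n)) = 𝒜.gv p v r := Ex_smul 𝒜 hB p hv r
        have hθ := theta_Ex_pos 𝒜 hB p (ξ := r • (v : Eu n)) (by rw [hnr]; exact hrπ)
        have hd := dist_Ex 𝒜 hB p (ξ := r • (v : Eu n)) (by rw [hnr]; exact hrπ.le)
        rw [e1] at hθ hd ⊢
        rw [hnr] at hd
        rw [mul_assoc, ← ENNReal.ofReal_mul (inv_nonneg.2 hθ.le)]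
        unfold SDist.J
        rw [hd, div_eq_inv_mul]
      · have hb : r • (v : Eu n) ∉ ball (0 : Eu n) π := by
          rw [mem_ball_zero_iff, hnr]; exact hrπ
        rw [hF, indicator_of_notMem hb, indicator_of_notMem (fun h => hrπ h.2), zero_mul]
    rw [setLIntegral_congr_fun measurableSet_Ioi h5, ← lintegral_indicator measurableSet_Ioi,
      ← lintegral_indicator measurableSet_Ioo]
    refine lintegral_congr fun r => ?_
    by_cases hr : r ∈ Ioi (0 : ℝ)
    · rw [indicator_of_mem hr]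
    · rw [indicator_of_notMem hr, indicator_of_notMem (fun h => hr h.1)]

end Pool.Agent.Lib.MP_ccbbf6_gt.Geo
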