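import Pool.Agent.Lib.MP_ccbbf6_gt.Geo.MEd
import Pool.Agent.Lib.MP_ccbbf6_gt.Geo.MEe
import Pool.Agent.Lib.MP_ccbbf6_gt.LitDefs

/-!
# ME, part f: the volume of a Blaschke space, from Theorem 1 along its geodesics (helper77)
-/

set_option autoImplicit false

open MeasureTheory Set Filter Topology Metric Real
open scoped ENNReal NNReal

noncomputable section

namespace Pool.Agent.Lib.MP_ccbbf6_gt.Geo

/-- the Jacobian of the model -/
def mm (n κ : ℕ) (t : ℝ) : ℝ := Real.sin t ^ κ * (2 * Real.sin (t / 2)) ^ (n - 1 - κ)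

lemma mm_cont (n κ : ℕ) : Continuous (mm n κ) := by
  unfold mm
  fun_prop

lemma mm_pos (n κ : ℕ) {t : ℝ} (ht : t ∈ Ioo 0 π) : 0 < mm n κ t := by
  have h1 : 0 < Real.sin t := Real.sin_pos_of_pos_of_lt_pi ht.1 ht.2
  have h2 : 0 < Real.sin (t / 2) := Real.sin_pos_of_pos_of_lt_pi (by linarith [ht.1])
    (by linarith [ht.2, Real.pi_pos])
  unfold mm
  positivity

lemma log_mm (n κ : ℕ) {t : ℝ} (ht : t ∈ Ioo 0 π) : Real.log (mm n κ t) =
    κ * Real.log (Real.sin t) + ((n - 1 - κ : ℕ) : ℝ) * Real.log (2 * Real.sin (t / 2)) := by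
  have h1 : 0 < Real.sin t := Real.sin_pos_of_pos_of_lt_pi ht.1 ht.2
  have h2 : 0 < Real.sin (t / 2) := Real.sin_pos_of_pos_of_lt_pi (by linarith [ht.1])
    (by linarith [ht.2, Real.pi_pos])
  unfold mm
  rw [Real.log_mul (pow_pos h1 _).ne' (pow_pos (by positivity) _).ne', Real.log_pow, Real.log_pow]

lemma modelVolume_eq {n : ℕ} (hn : 0 < n) (κ : ℕ) : Blaschke.modelVolume n κ =
    (volume : Measure (Eu n)).toSphere univ * ∫⁻ t in Ioo 0 π, ENNReal.ofReal (mm n κ t) := by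
  have h1 : (volume : Measure (Eu n)).toSphere univ = n * volume (ball (0 : Eu n) 1) := by
    have : Nonempty (Fin n) := ⟨⟨0, hn⟩⟩
    have : Nontrivial (Eu n) := inferInstance
    rw [Measure.toSphere_apply_univ, finrank_euclideanSpace_fin]
  have h2 : ∫⁻ t in Ioo 0 π, ENNReal.ofReal (mm n κ t) =
      ENNReal.ofReal (∫ t in (0 : ℝ)..π, Real.sin t ^ κ * (2 * Real.sin (t / 2)) ^ (n - 1 - κ)) := by
    rw [intervalIntegral.integral_of_le Real.pi_pos.le, ← restrict_Ioo_eq_restrict_Ioc]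
    symm
    apply ofReal_integral_eq_lintegral_ofReal
    · exact ((mm_cont n κ).integrableOn_Icc (μ := volume) (a := 0) (b := π)).mono_set
        Ioo_subset_Icc_self
    · rw [Filter.EventuallyLE, ae_restrict_iff' measurableSet_Ioo]
      exact Eventually.of_forall fun t ht => (mm_pos n κ ht).le
  rw [h1, h2]
  rfl

variable {n : ℕ} {M : Type*} [MetricSpace M] [CompactSpace M] (𝒜 : SDist n M)

include 𝒜 in
lemma nonempty_Ph (hn : 0 < n) (hB : Bl M) [Nonempty M] : Nonempty (Ph M) := by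
  have : Nonempty (Fin n) := ⟨⟨0, hn⟩⟩
  obtain ⟨v, hv⟩ := exists_norm_eq (Eu n) (zero_le_one (α := ℝ))
  obtain ⟨p⟩ := ‹Nonempty M›
  exact ⟨GJ.pt (gv_spec 𝒜 hB p hv).1 0⟩

variable [MeasurableSpace M] [BorelSpace M]

/-- the measure is positive on open sets -/
theorem SDist.openPos (hB : Bl M) {vol : Measure M} (hA : 𝒜.Area vol) :
    vol.IsOpenPosMeasure := by
  constructor
  intro U hU hne hzero
  obtain ⟨p, hp⟩ := hne
  have h1 := hA p (U.indicator fun _ => 1) (measurable_const.indicator hU.measurableSet)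
  rw [lintegral_indicator hU.measurableSet, lintegral_const, one_mul,
    Measure.restrict_apply_univ, hzero] at h1
  have hO : IsOpen (ball (0 : Eu n) π ∩ 𝒜.Ex p ⁻¹' U) :=
    isOpen_ball.inter (hU.preimage (continuous_Ex 𝒜 hB p))
  have hmem : (0 : Eu n) ∈ ball (0 : Eu n) π ∩ 𝒜.Ex p ⁻¹' U := by
    refine ⟨mem_ball_self Real.pi_pos, ?_⟩
    show 𝒜.Ex p 0 ∈ U
    rw [Ex_zero 𝒜 hB p]
    exact hp
  have h0 : ‖(0 : Eu n)‖ < π := by rw [norm_zero]; exact Real.pi_pos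
  have hc0 : 0 < (𝒜.theta p (𝒜.Ex p (0 : Eu n)))⁻¹ := inv_pos.2 (theta_Ex_pos 𝒜 hB p h0)
  have hcont : ContinuousAt (fun ξ : Eu n => (𝒜.theta p (𝒜.Ex p ξ))⁻¹) 0 :=
    ((continuousOn_theta_Ex 𝒜 hB p).continuousAt (ball_mem_nhds _ Real.pi_pos)).inv₀
      (theta_Ex_pos 𝒜 hB p h0).ne'
  have hev : ∀ᶠ ξ in 𝓝 (0 : Eu n),
      (𝒜.theta p (𝒜.Ex p (0 : Eu n)))⁻¹ / 2 < (𝒜.theta p (𝒜.Ex p ξ))⁻¹ :=
    hcont.eventually (Ioi_mem_nhds (half_lt_self hc0))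
  obtain ⟨ε, hε, hball⟩ := Metric.mem_nhds_iff.1 (Filter.inter_mem (hO.mem_nhds hmem) hev)
  have hpos : 0 < (volume : Measure (Eu n)) (ball (0 : Eu n) ε) := measure_ball_pos _ _ hε
  have h2 : ∫⁻ _ξ in ball (0 : Eu n) ε,
      ENNReal.ofReal ((𝒜.theta p (𝒜.Ex p (0 : Eu n)))⁻¹ / 2) ≤ 0 := by
    rw [h1]
    refine le_trans (setLIntegral_mono' measurableSet_ball (g := fun ξ =>
      U.indicator (fun _ => 1) (𝒜.Ex p ξ) * ENNReal.ofReal ((𝒜.theta p (𝒜.Ex p ξ))⁻¹)) ?_)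
      (lintegral_mono_set fun ξ hξ => (hball hξ).1.1)
    intro ξ hξ
    obtain ⟨⟨_, hξU⟩, hξ2⟩ := hball hξ
    have h3 : U.indicator (fun _ => (1 : ℝ≥0∞)) (𝒜.Ex p ξ) = 1 :=
      indicator_of_mem (show 𝒜.Ex p ξ ∈ U from hξU) _
    simp only [h3, one_mul]
    exact ENNReal.ofReal_le_ofReal (le_of_lt hξ2)
  rw [setLIntegral_const] at h2
  have h4 : 0 < ENNReal.ofReal ((𝒜.theta p (𝒜.Ex p (0 : Eu n)))⁻¹ / 2) *
      (volume : Measure (Eu n)) (ball (0 : Eu n) ε) :=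
    ENNReal.mul_pos (by rw [Ne, ENNReal.ofReal_eq_zero, not_le]; positivity) hpos.ne'
  exact absurd h2 (not_le.2 h4)

/-- **The volume inequality**, from polar coordinates. -/
theorem SDist.volume_ge_polar (hn : 0 < n) (hB : Bl M) [Nonempty M] {vol : Measure M}
    [IsFiniteMeasure vol] [vol.IsOpenPosMeasure]
    (hP : Polar vol (volume : Measure (Eu n)).toSphere
      (fun (p : M) (v : sphere (0 : Eu n) 1) => 𝒜.gv p v) 𝒜.J) {κ : ℕ}
    (hT : ∀ t ∈ Ioo 0 π, ∀ c : ℝ → M, IsGeo c → 2 * π * Real.log (mm n κ t) ≤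
      ∫ w in (0 : ℝ)..(2 * π), Real.log (𝒜.J (c w) (c (w + t)))) :
    Blaschke.modelVolume n κ ≤ vol univ := by
  obtain ⟨x₀⟩ := nonempty_Ph 𝒜 hn hB
  rw [modelVolume_eq hn]
  exact vol_ineq hP (𝒜.gj hB) x₀ (fun t ht => mm_pos n κ ht) hT

/-- **The case of equality**, from polar coordinates. -/
theorem SDist.volume_eq_polar (hn : 0 < n) (hB : Bl M) [Nonempty M] {vol : Measure M}
    [IsFiniteMeasure vol] [vol.IsOpenPosMeasure]
    (hP : Polar vol (volume : Measure (Eu n)).toSphere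
      (fun (p : M) (v : sphere (0 : Eu n) 1) => 𝒜.gv p v) 𝒜.J) {κ : ℕ}
    (hT : ∀ t ∈ Ioo 0 π, ∀ c : ℝ → M, IsGeo c → 2 * π * Real.log (mm n κ t) ≤
      ∫ w in (0 : ℝ)..(2 * π), Real.log (𝒜.J (c w) (c (w + t))))
    (heq : vol univ = Blaschke.modelVolume n κ) {c : ℝ → M} (hc : IsGeo c) (s : ℝ) {t : ℝ}
    (ht : t ∈ Ioo 0 π) : 𝒜.J (c s) (c (s + t)) = mm n κ t := by
  obtain ⟨x₀⟩ := nonempty_Ph 𝒜 hn hB
  rw [modelVolume_eq hn] at heq
  exact vol_eq hP (𝒜.gj hB) x₀ (mm_cont n κ).continuousOn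
    (fun t ht => mm_pos n κ ht) hT heq.le hc s ht

/-- the equality for pairs of points -/
theorem SDist.J_eq_polar (hn : 0 < n) (hB : Bl M) [Nonempty M] {vol : Measure M}
    [IsFiniteMeasure vol] [vol.IsOpenPosMeasure]
    (hP : Polar vol (volume : Measure (Eu n)).toSphere
      (fun (p : M) (v : sphere (0 : Eu n) 1) => 𝒜.gv p v) 𝒜.J) {κ : ℕ}
    (hT : ∀ t ∈ Ioo 0 π, ∀ c : ℝ → M, IsGeo c → 2 * π * Real.log (mm n κ t) ≤
      ∫ w in (0 : ℝ)..(2 * π), Real.log (𝒜.J (c w) (c (w + t))))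
    (heq : vol univ = Blaschke.modelVolume n κ) {p q : M} (h0 : 0 < dist p q)
    (h1 : dist p q < π) : 𝒜.J p q = mm n κ (dist p q) := by
  obtain ⟨hc, hc0, hc1⟩ := (𝒜.gj hB).geo p q h0 h1
  have := 𝒜.volume_eq_polar hn hB hP hT heq hc 0 (t := dist p q) ⟨h0, h1⟩
  rwa [zero_add, hc0, hc1] at this

/-- **The volume inequality** -/
theorem SDist.volume_ge (hn : 0 < n) (hB : Bl M) [Nonempty M] {vol : Measure M}
    [IsFiniteMeasure vol] (hA : 𝒜.Area vol) {κ : ℕ}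
    (hT : ∀ t ∈ Ioo 0 π, ∀ c : ℝ → M, IsGeo c → 2 * π * Real.log (mm n κ t) ≤
      ∫ w in (0 : ℝ)..(2 * π), Real.log (𝒜.J (c w) (c (w + t)))) :
    Blaschke.modelVolume n κ ≤ vol univ := by
  have := 𝒜.openPos hB hA
  exact 𝒜.volume_ge_polar hn hB (𝒜.polar hn hB hA) hT

/-- **The case of equality** -/
theorem SDist.volume_eq (hn : 0 < n) (hB : Bl M) [Nonempty M] {vol : Measure M}
    [IsFiniteMeasure vol] (hA : 𝒜.Area vol) {κ : ℕ}
    (hT : ∀ t ∈ Ioo 0 π, ∀ c : ℝ → M, IsGeo c → 2 * π * Real.log (mm n κ t) ≤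
      ∫ w in (0 : ℝ)..(2 * π), Real.log (𝒜.J (c w) (c (w + t))))
    (heq : vol univ = Blaschke.modelVolume n κ) {c : ℝ → M} (hc : IsGeo c) (s : ℝ) {t : ℝ}
    (ht : t ∈ Ioo 0 π) : 𝒜.J (c s) (c (s + t)) = mm n κ t := by
  have := 𝒜.openPos hB hA
  exact 𝒜.volume_eq_polar hn hB (𝒜.polar hn hB hA) hT heq hc s ht

end Pool.Agent.Lib.MP_ccbbf6_gt.Geo
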