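import Pool.Agent.Lib.MP_ccbbf6_gt.Geo.Area2
import Pool.Agent.Lib.MP_ccbbf6_gt.Geo.EQc
import Pool.Agent.Lib.MP_ccbbf6_gt.Geo.KA
import Pool.Agent.Lib.MP_ccbbf6_gt.Geo.KD
import Pool.Agent.Lib.MP_ccbbf6_gt.Geo.MEf

/-!
# ASM: assembly of the volume inequality and of the case of equality, for `SDist`
-/

set_option autoImplicit false

open MeasureTheory Set Filter Topology Metric Real
open scoped ContDiff RealInnerProductSpace ENNReal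

noncomputable section

namespace Pool.Agent.Lib.MP_ccbbf6_gt.Geo

variable {n : ℕ} {M : Type*} [MetricSpace M] [CompactSpace M] (𝒜 : SDist n M)

/-- the multiplicity is `κ` along every geodesic -/
def SDist.HasKappa (κ : ℕ) : Prop := ∀ c : ℝ → M, IsGeo c → ∀ r s : ℝ, r < s → s < r + π →
  ∃ V : Submodule ℝ (Eu n), (V : Set (Eu n)) = 𝒜.Ker c r s ∧ Module.finrank ℝ V = κ

variable {κ : ℕ}

/-- Theorem 1 along every geodesic -/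
theorem thm1 {N : ℕ} (hn : n = N + 1) (hB : Bl M) (hκ : 𝒜.HasKappa κ) {c : ℝ → M} (hc : IsGeo c)
    {L : Eu N →ₗᵢ[ℝ] Eu n} (hL : Frame (𝒜.vel c 0) L) : 𝒜.Thm1 κ N c L := by
  obtain ⟨P, h1, h2, -, -, h3⟩ := geo_main 𝒜 hn hB hc hL
    (hκ c hc 0 (π / 2) (by positivity) (by linarith [Real.pi_pos]))
  refine ⟨P, h1, h2, fun x hx => ?_, h3⟩
  obtain ⟨K, K', hK, -⟩ := kdata 𝒜 hn hB hc hL
  exact (hK.Gpos x ⟨hx.1, by linarith [hx.2, Real.pi_pos]⟩ hx.2.ne).det_pos.ne'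

theorem line_ineq (hn : 2 ≤ n) (hB : Bl M) (hκ : 𝒜.HasKappa κ) {t : ℝ} (ht : t ∈ Ioo 0 π) {c : ℝ → M} (hc : IsGeo c) :
    2 * π * Real.log (mm n κ t) ≤ ∫ w in (0 : ℝ)..(2 * π), Real.log (𝒜.J (c w) (c (w + t))) := by
  obtain ⟨N, rfl⟩ : ∃ N, n = N + 1 := ⟨n - 1, by omega⟩
  obtain ⟨L, hL⟩ := exists_frame rfl (hc.exists_vel 𝒜 0).1
  obtain ⟨P, -, -, -, h⟩ := thm1 𝒜 rfl hB hκ hc hL
  rw [log_mm _ _ ht]
  exact (h t ht).1

/-- **Assembly**: `κ`, the spheres of directions, the volume inequality, the case of equality. -/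
theorem asm {n : ℕ} {M : Type*} [MetricSpace M] [CompactSpace M] [MeasurableSpace M] [BorelSpace M] [Nonempty M]
    (hn : 2 ≤ n) (𝒜 : SDist n M) (hB : Bl M) : ∃ κ : ℕ, κ ≤ n - 1 ∧
    (∀ p q : M, dist p q = π → ∃ V : Submodule ℝ (Eu n), 𝒜.Lam q p = {v | v ∈ V ∧ ‖v‖ = 1} ∧
      Module.finrank ℝ V = κ + 1) ∧
    Blaschke.modelVolume n κ ≤ μHE[n] (univ : Set M) ∧
    (μHE[n] (univ : Set M) = Blaschke.modelVolume n κ → ∀ c : ℝ → M, IsGeo c → ∃ V, 𝒜.Gram c V) := by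
  obtain ⟨κ, hκ, h1, h2⟩ := exists_kappa 𝒜 hn hB
  have hk : 𝒜.HasKappa κ := h1
  have hn0 : 0 < n := by omega
  have := finite_of_sdist 𝒜
  have := openPos_of_sdist 𝒜
  have hP := polar 𝒜 hn0 hB
  refine ⟨κ, hκ, h2, 𝒜.volume_ge_polar hn0 hB hP fun t ht c hc => line_ineq 𝒜 hn hB hk ht hc, fun heq => ?_⟩
  obtain ⟨N, rfl⟩ : ∃ N, n = N + 1 := ⟨n - 1, by omega⟩
  refine gram_of_J 𝒜 hB (κ := κ) (N := N) rfl (fun c hc L hL => thm1 𝒜 rfl hB hk hc hL) fun p q h0 h1 => ?_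
  exact 𝒜.J_eq_polar hn0 hB hP (fun t ht c hc => line_ineq 𝒜 hn hB hk ht hc) heq h0 h1

end Pool.Agent.Lib.MP_ccbbf6_gt.Geo
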