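import Pool.Agent.Lib.MP_ccbbf6_gt.Geo.CZ2

/-!
# CZ, part 3: the geodesics from `p` through points near `q`
-/

set_option autoImplicit false
set_option linter.unusedSectionVars false

open Set Filter Topology Metric Real
open scoped ContDiff RealInnerProductSpace

noncomputable section

namespace Pool.Agent.Lib.MP_ccbbf6_gt.Geo

variable {n : ℕ} {M : Type*} [MetricSpace M] [CompactSpace M] (𝒜 : SDist n M)

/-- the relation `R` of `LDat` -/
def SDist.RR (q p : M) (a w x : Eu n) : Prop :=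
  ∃ c : ℝ → M, IsGeo c ∧ c 0 = p ∧ c (dist p ((𝒜.ψ q).symm a)) = (𝒜.ψ q).symm a ∧ 𝒜.vel c 0 = x ∧
    𝒜.vel (gd q (c (dist p ((𝒜.ψ q).symm a) - 1))) 0 = w

theorem RR_lim (hB : Bl M) {q p : M} (h : dist q p = π) (a w : ℕ → Eu n) (x : ℕ → Eu n) (w' x' : Eu n)
    (ha : Tendsto a atTop (𝓝 0)) (hw : Tendsto w atTop (𝓝 w')) (hx : Tendsto x atTop (𝓝 x'))
    (hR : ∀ i, 𝒜.RR q p (a i) (w i) (x i)) : (w', x') ∈ 𝒜.LL q p := by
  choose c hc c0 cA cx cw using hR
  set l : Ultrafilter ℕ := Filter.hyperfilter ℕ with hl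
  have hle : (l : Filter ℕ) ≤ atTop := Nat.hyperfilter_le_atTop
  obtain ⟨c', hc', hlim⟩ := exists_limit_geo l c hc
  have hpi := Real.pi_gt_three
  have e0 : c' 0 = p := tendsto_nhds_unique (hlim 0) (tendsto_const_nhds.congr fun i => (c0 i).symm)
  -- the points A
  have hA : Tendsto (fun i => (𝒜.ψ q).symm (a i)) atTop (𝓝 q) := by
    have := (continuousAt_symm 𝒜 q).tendsto.comp ha
    rwa [symm_zero] at this
  have hdA : Tendsto (fun i => dist p ((𝒜.ψ q).symm (a i))) atTop (𝓝 π) := by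
    have : Tendsto (fun i => dist p ((𝒜.ψ q).symm (a i))) atTop (𝓝 (dist p q)) := tendsto_const_nhds.dist hA
    rwa [dist_comm p q, h] at this
  -- times converge
  have hshift : ∀ r : ℝ, Tendsto (fun i => c i (dist p ((𝒜.ψ q).symm (a i)) - r)) l (𝓝 (c' (π - r))) := by
    intro r
    rw [tendsto_iff_dist_tendsto_zero]
    have t1 : Tendsto (fun i => |dist p ((𝒜.ψ q).symm (a i)) - π| + dist (c i (π - r)) (c' (π - r))) l (𝓝 0) := by
      have u1 : Tendsto (fun i => |dist p ((𝒜.ψ q).symm (a i)) - π|) l (𝓝 0) := by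
        have := (hdA.mono_left hle).sub_const π
        rw [sub_self] at this
        have := this.abs
        rwa [abs_zero] at this
      have u2 := tendsto_iff_dist_tendsto_zero.1 (hlim (π - r))
      simpa using u1.add u2
    refine squeeze_zero (fun i => dist_nonneg) (fun i => ?_) t1
    refine (dist_triangle _ (c i (π - r)) _).trans (add_le_add ?_ le_rfl)
    refine (IsGeo.dist_le (hc i) _ _).trans (le_of_eq ?_)
    congr 1
    ring
  have eπ : c' π = q := by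
    have t1 := hshift 0
    simp only [sub_zero] at t1
    refine tendsto_nhds_unique t1 ?_
    exact (hA.mono_left hle).congr fun i => (cA i).symm
  -- velocity at p
  have hx' : 𝒜.vel c' 0 = x' := by
    have t1 := tendsto_vel 𝒜 hc hc' hlim (p := p) (s := 0) (by rw [e0]; exact 𝒜.mem p)
    have t3 : deriv (fun t => 𝒜.ψ p (c' t)) 0 = 𝒜.vel c' 0 := by unfold SDist.vel; rw [e0]
    rw [t3] at t1
    refine tendsto_nhds_unique t1 ((hx.mono_left hle).congr fun i => ?_)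
    rw [← cx i]
    unfold SDist.vel
    rw [c0 i]
  -- the reversed geodesic
  have hrev : IsGeo (fun t => c' (π - t)) := by
    have := (hc'.shift π).rev
    have e : (fun t => c' (π - t)) = fun t => c' (-t + π) := by
      funext t; congr 1; ring
    rw [e]; exact this
  -- the geodesics from q to the points at distance about 1
  set X : ℕ → M := fun i => c i (dist p ((𝒜.ψ q).symm (a i)) - 1) with hX
  have hXlim : Tendsto X l (𝓝 (c' (π - 1))) := hshift 1
  have dX' : dist q (c' (π - 1)) = 1 := by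
    rw [← eπ, hc' π (π - 1) (by rw [sub_sub_cancel, abs_one]; linarith), sub_sub_cancel, abs_one]
  have hdX : Tendsto (fun i => dist q (X i)) l (𝓝 1) := by
    have : Tendsto (fun i => dist q (X i)) l (𝓝 (dist q (c' (π - 1)))) := tendsto_const_nhds.dist hXlim
    rwa [dX'] at this
  have hev : ∀ᶠ i in (l : Filter ℕ), q ≠ X i := by
    filter_upwards [hdX.eventually (eventually_gt_nhds (show (0 : ℝ) < 1 by norm_num))] with i hi heq
    rw [← heq, dist_self] at hi
    exact lt_irrefl _ hi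
  have hg : ∀ i, ∃ g : ℝ → M, IsGeo g ∧ (q ≠ X i → g = gd q (X i)) := by
    intro i
    by_cases hi : q ≠ X i
    · exact ⟨gd q (X i), (gd_spec 𝒜 hB hi).1, fun _ => rfl⟩
    · exact ⟨c', hc', fun h1 => absurd h1 hi⟩
  choose g hgeo hgeq using hg
  obtain ⟨g', hg', hglim⟩ := exists_limit_geo l g hgeo
  have g0 : g' 0 = q := by
    refine tendsto_nhds_unique (hglim 0) (tendsto_const_nhds.congr' ?_)
    filter_upwards [hev] with i hi
    rw [hgeq i hi, (gd_spec 𝒜 hB hi).2.1]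
  have g1 : g' 1 = c' (π - 1) := by
    -- g i (dist q (X i)) = X i
    have t1 : Tendsto (fun i => g i (dist q (X i))) l (𝓝 (g' 1)) := by
      rw [tendsto_iff_dist_tendsto_zero]
      have t2 : Tendsto (fun i => |dist q (X i) - 1| + dist (g i 1) (g' 1)) l (𝓝 0) := by
        have u1 : Tendsto (fun i => |dist q (X i) - 1|) l (𝓝 0) := by
          have := hdX.sub_const 1
          rw [sub_self] at this
          have := this.abs
          rwa [abs_zero] at this
        have u2 := tendsto_iff_dist_tendsto_zero.1 (hglim 1)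
        simpa using u1.add u2
      refine squeeze_zero (fun i => dist_nonneg) (fun i => ?_) t2
      exact (dist_triangle _ (g i 1) _).trans (add_le_add (IsGeo.dist_le (hgeo i) _ _) le_rfl)
    refine tendsto_nhds_unique t1 (hXlim.congr' ?_)
    filter_upwards [hev] with i hi
    rw [hgeq i hi, (gd_spec 𝒜 hB hi).2.2]
  have heq : g' = fun t => c' (π - t) := by
    refine IsGeo.unique 𝒜 hg' hrev (a := 0) (b := 1) (by norm_num) (by rw [zero_sub, abs_neg, abs_one]; linarith) ?_ g1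
    show g' 0 = c' (π - 0)
    rw [sub_zero, g0, eπ]
  have hw' : 𝒜.vel g' 0 = w' := by
    have t1 := tendsto_vel 𝒜 hgeo hg' hglim (p := q) (s := 0) (by rw [g0]; exact 𝒜.mem q)
    have t3 : deriv (fun t => 𝒜.ψ q (g' t)) 0 = 𝒜.vel g' 0 := by unfold SDist.vel; rw [g0]
    rw [t3] at t1
    refine tendsto_nhds_unique t1 ((hw.mono_left hle).congr' ?_)
    filter_upwards [hev] with i hi
    have e1 : 𝒜.vel (g i) 0 = w i := by rw [hgeq i hi]; exact cw i
    rw [← e1]
    unfold SDist.vel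
    rw [hgeq i hi, (gd_spec 𝒜 hB hi).2.1]
  refine ⟨g', hg', g0, ?_, hw', ?_⟩
  · rw [heq]
    show c' (π - π) = p
    rw [sub_self, e0]
  · rw [← hx', heq]
    have e : (fun t => c' (π - t)) = fun t => (fun s => c' (s + π)) (-t) := by
      funext t
      show c' (π - t) = c' (-t + π)
      congr 1; ring
    rw [e, vel_rev 𝒜 (hc'.shift π), vel_shift 𝒜, neg_add_cancel]

theorem RR_ext (hB : Bl M) {q p : M} (h : dist q p = π) : ∃ η C : ℝ, 0 < η ∧ 0 ≤ C ∧ ∀ a : Eu n, ‖a‖ < η →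
    π - 𝒜.f q p (a, 0) ≤ 2 * ‖a‖ ∧ ∃ w x, 𝒜.RR q p a w x ∧ ‖w‖ = 1 ∧ ‖x‖ = 1 ∧
    π ≤ 𝒜.f q p (a, 0) + ⟪a, w⟫ + C * ‖a‖ ^ 2 ∧
    (∃ y, 𝒜.f q p (a, y) = π ∧ ‖y + (π - 𝒜.f q p (a, 0)) • x‖ ≤ C * ‖a‖ ^ 2) ∧
    (∃ z, 𝒜.f q p (z, 0) = π ∧ ‖z - a‖ ≤ 2 * (π - 𝒜.f q p (a, 0))) := by
  have hpi := Real.pi_gt_three
  obtain ⟨η1, C1, hη1, hC1, hut⟩ := ut 𝒜 hB q
  obtain ⟨η2, C2, hη2, hC2, hexp⟩ := geo_exp 𝒜 hB p
  -- metric comparison
  have hm : ∀ᶠ z in 𝓝 ((0, 0) : Eu n × Eu n),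
      |dist ((𝒜.ψ q).symm z.1) ((𝒜.ψ q).symm z.2) - ‖z.1 - z.2‖| ≤ (1 / 2) * ‖z.1 - z.2‖ :=
    𝒜.metric q (1 / 2) (by norm_num)
  obtain ⟨μ, hμ, hμ'⟩ := Metric.eventually_nhds_iff.1 hm
  have hmet : ∀ u v : Eu n, ‖u‖ < μ → ‖v‖ < μ →
      |dist ((𝒜.ψ q).symm u) ((𝒜.ψ q).symm v) - ‖u - v‖| ≤ (1 / 2) * ‖u - v‖ := by
    intro u v hu hv
    refine hμ' (y := (u, v)) ?_
    rw [dist_eq_norm, Prod.mk_sub_mk, sub_zero, sub_zero, Prod.norm_def, max_lt_iff]
    exact ⟨hu, hv⟩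
  obtain ⟨ρ, hρ, hρ'⟩ := exists_ball 𝒜 q hμ
  refine ⟨min (min η1 μ) (min (ρ / 4) (min (η2 / 2) (1 / 4))), max C1 (4 * C2),
    lt_min (lt_min hη1 hμ) (lt_min (by linarith) (lt_min (by linarith) (by norm_num))), le_max_of_le_left hC1,
    fun a ha => ?_⟩
  obtain ⟨⟨ha1, ha2⟩, ha3, ha4, ha5⟩ : (‖a‖ < η1 ∧ ‖a‖ < μ) ∧ ‖a‖ < ρ / 4 ∧ ‖a‖ < η2 / 2 ∧ ‖a‖ < 1 / 4 := by
    simpa only [lt_min_iff] using ha
  set A : M := (𝒜.ψ q).symm a with hA
  have hna := norm_nonneg a
  -- dist q A ≤ 2 ‖a‖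
  have hqA : dist q A ≤ 3 / 2 * ‖a‖ := by
    have h1 := hmet 0 a (by simpa using hμ) ha2
    rw [symm_zero, zero_sub, norm_neg] at h1
    have := (abs_le.1 h1).2
    rw [← hA] at this
    linarith
  have hfA : 𝒜.f q p (a, 0) = dist p A := by rw [f_left, dist_comm]
  rw [hfA]
  have hl1 : π - dist p A ≤ 3 / 2 * ‖a‖ := by
    have := dist_triangle q A p
    rw [h, dist_comm A p] at this
    linarith
  have hl2 : dist p A ≤ π := hB.diam p A
  set δ : ℝ := π - dist p A with hδ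
  have hδ0 : 0 ≤ δ := by linarith
  have hpA : p ≠ A := by
    intro h1
    rw [← h1, dist_self] at hδ
    linarith
  refine ⟨by linarith, ?_⟩
  obtain ⟨c, hc, hc0, hcA⟩ := exists_geo 𝒜 hB hpA
  set X : M := c (dist p A - 1) with hX
  have hdXA : dist A X = 1 := by
    rw [← hcA, hX, hc _ _ (by rw [sub_sub_cancel, abs_one]; linarith), sub_sub_cancel, abs_one]
  have hdXp : dist X p = dist p A - 1 := by
    rw [hX, ← hc0, hc _ _ (by rw [sub_zero, abs_le]; constructor <;> rw [hc0] <;> linarith), sub_zero, hc0,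
      abs_of_nonneg (by linarith)]
  have hqX1 : 1 / 2 ≤ dist q X := by
    have := dist_triangle A q X
    rw [hdXA, dist_comm A q] at this
    linarith
  have hqX2 : dist q X ≤ 3 / 2 := by
    have := dist_triangle q A X
    rw [hdXA] at this
    linarith
  have hqX : q ≠ X := by
    intro h1
    rw [← h1, dist_self] at hqX1
    linarith
  obtain ⟨hg, hg0, hg1⟩ := gd_spec 𝒜 hB hqX
  have hv := (IsGeo.exists_vel 𝒜 hg 0).1
  have hx1 := (IsGeo.exists_vel 𝒜 hc 0).1
  refine ⟨𝒜.vel (gd q X) 0, 𝒜.vel c 0, ⟨c, hc, hc0, hcA, rfl, rfl⟩, hv, hx1, ?_, ?_, ?_⟩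
  · -- first variation
    have h1 := hut X hqX1 hqX2 a ha1
    have h2 := D1_forward 𝒜 hB hg (s := 0) (t := dist q X) (by linarith) (by linarith) a
    rw [zero_add, hg0, hg1] at h2
    rw [h2, ← hA, hdXA, real_inner_comm] at h1
    have h3 := (abs_le.1 h1).1
    have h4 := dist_triangle q X p
    rw [h, hdXp] at h4
    have h5 : C1 * ‖a‖ ^ 2 ≤ max C1 (4 * C2) * ‖a‖ ^ 2 := mul_le_mul_of_nonneg_right (le_max_left _ _) (sq_nonneg _)
    linarith
  · -- beyond p
    have h1 := hexp c hc 0 hc0 (-δ) (by rw [abs_neg, abs_of_nonneg hδ0]; linarith)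
    rw [zero_add] at h1
    refine ⟨𝒜.ψ p (c (-δ)), ?_, ?_⟩
    · unfold SDist.f
      simp only
      rw [(𝒜.ψ p).left_inv h1.1, ← hA]
      conv_lhs => rw [← hcA]
      rw [hc _ _ (by rw [abs_le]; constructor <;> linarith), abs_of_nonneg (by linarith)]
      linarith
    · have h2 := h1.2
      rw [neg_smul, sub_neg_eq_add, neg_sq] at h2
      refine h2.trans ?_
      have h3 : δ ^ 2 ≤ 4 * ‖a‖ ^ 2 := by nlinarith
      have h4 : 4 * C2 * ‖a‖ ^ 2 ≤ max C1 (4 * C2) * ‖a‖ ^ 2 :=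
        mul_le_mul_of_nonneg_right (le_max_right _ _) (sq_nonneg _)
      have h5 := mul_le_mul_of_nonneg_left h3 hC2
      linarith
  · -- the end point at distance pi
    have hdz : dist (c π) A = δ := by
      conv_lhs => rw [← hcA]
      rw [hc _ _ (by rw [abs_le]; constructor <;> linarith), abs_of_nonneg (by linarith)]
    have hdqz : dist q (c π) < ρ := by
      have := dist_triangle q A (c π)
      rw [dist_comm A (c π), hdz] at this
      linarith
    obtain ⟨hs, hn⟩ := hρ' _ hdqz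
    refine ⟨𝒜.ψ q (c π), ?_, ?_⟩
    · rw [f_left, (𝒜.ψ q).left_inv hs, ← hc0, hc _ _ (by rw [sub_zero, abs_of_pos Real.pi_pos]), sub_zero,
        abs_of_pos Real.pi_pos]
    · have h1 := hmet (𝒜.ψ q (c π)) a hn ha2
      rw [(𝒜.ψ q).left_inv hs, ← hA, hdz] at h1
      have := (abs_le.1 h1).1
      linarith

end Pool.Agent.Lib.MP_ccbbf6_gt.Geo
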