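import Pool.Agent.Lib.MP_ccbbf6_gt.Geo.CZ2

/-!
# CZ, part 4: arcs of directions
-/

set_option autoImplicit false
set_option linter.unusedSectionVars false

open Set Filter Topology Metric Real
open scoped ContDiff RealInnerProductSpace

noncomputable section

namespace Pool.Agent.Lib.MP_ccbbf6_gt.Geo

variable {n : ℕ} {M : Type*} [MetricSpace M] [CompactSpace M] (𝒜 : SDist n M)

theorem norm_arc {w e : Eu n} (hw : ‖w‖ = 1) (he : ‖e‖ = 1) (hwe : ⟪w, e⟫ = 0) (s : ℝ) :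
    ‖cos s • w + sin s • e‖ = 1 := by
  have h : ‖cos s • w + sin s • e‖ ^ 2 = 1 := by
    rw [norm_add_sq_real, norm_smul, norm_smul, real_inner_smul_left, real_inner_smul_right, hwe, hw, he,
      norm_eq_abs, norm_eq_abs, mul_one, mul_one, sq_abs, sq_abs]
    nlinarith [sin_sq_add_cos_sq s]
  nlinarith [norm_nonneg (cos s • w + sin s • e)]

theorem contDiff_arc (w e : Eu n) (r : ℝ) : ContDiff ℝ ∞ (fun s : ℝ => r • (cos s • w + sin s • e)) := by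
  have h1 : ContDiff ℝ ∞ (fun s : ℝ => cos s • w) := contDiff_cos.smul contDiff_const
  have h2 : ContDiff ℝ ∞ (fun s : ℝ => sin s • e) := contDiff_sin.smul contDiff_const
  exact (contDiff_const (c := r)).smul (h1.add h2)

/-- the curve `s ↦ Ex q (r W(s))` in a chart -/
theorem contDiffAt_arc (hB : Bl M) (q : M) (w e : Eu n) (r : ℝ) {p : M} (hp : 𝒜.Ex q (r • w) ∈ (𝒜.ψ p).source) :
    ContDiffAt ℝ ∞ (fun s : ℝ => 𝒜.ψ p (𝒜.Ex q (r • (cos s • w + sin s • e)))) 0 := by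
  have e0 : r • (cos 0 • w + sin 0 • e) = r • w := by rw [cos_zero, sin_zero, one_smul, zero_smul, add_zero]
  have h1 := contDiffAt_Ex 𝒜 hB q (r • w) hp
  rw [← e0] at h1
  exact ContDiffAt.comp (0 : ℝ) (g := fun η => 𝒜.ψ p (𝒜.Ex q η)) h1 (contDiff_arc w e r).contDiffAt

theorem LL_gv {q p : M} {w x : Eu n} (h : (w, x) ∈ 𝒜.LL q p) {c : ℝ → M} (hc : 𝒜.gv q w = c) :
    IsGeo c ∧ c 0 = q ∧ c π = p ∧ 𝒜.vel c 0 = w ∧ 𝒜.vel c π = -x := by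
  obtain ⟨g, hg, h0, h1, h2, h3⟩ := h
  have e := gv_eq 𝒜 hg 0
  rw [h0, h2] at e
  have e' : c = g := by
    rw [← hc, e]
    funext t
    rw [zero_add]
  rw [e']
  exact ⟨hg, h0, h1, h2, h3⟩

theorem LL_arc (hB : Bl M) {q p : M} {w x e : Eu n} (h : (w, x) ∈ 𝒜.LL q p) (he : ‖e‖ = 1)
    (hwe : ⟪w, e⟫ = 0) {s1 : ℝ} (hs1 : 0 < s1)
    (harc : ∀ s, 0 ≤ s → s ≤ s1 → ∃ x', (cos s • w + sin s • e, x') ∈ 𝒜.LL q p) :
    ∃ C' s2 : ℝ, 0 ≤ C' ∧ 0 < s2 ∧ ∀ s, 0 < s → s < s2 → ∃ y, ‖y‖ ≤ C' * s ^ 2 ∧ 𝒜.f q p (0, y) = π ∧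
      ∀ a : Eu n, ‖a‖ < s2 → 𝒜.f q p (a, 0) ≤ π - ⟪a, cos s • w - sin s • e⟫ + ⟪y, x⟫ +
        C' * (‖a‖ ^ 2 + s ^ 3) := by
  have hpi := Real.pi_gt_three
  have hw : ‖w‖ = 1 := (LL_unit 𝒜 h).1
  obtain ⟨hc, hc0, hcπ, hcv, hcvπ⟩ := LL_gv 𝒜 h rfl
  set c : ℝ → M := 𝒜.gv q w with hcdef
  have hexc : ∀ r : ℝ, 𝒜.Ex q (r • w) = c r := fun r => Ex_smul 𝒜 hB q hw r
  -- Y
  set Y : ℝ → Eu n := fun s => 𝒜.ψ p (𝒜.Ex q (π • (cos s • w + sin s • e))) with hY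
  have hYd : ContDiffAt ℝ ∞ Y 0 := contDiffAt_arc 𝒜 hB q w e π (by rw [hexc, hcπ]; exact 𝒜.mem p)
  have hY0 : ∀ s, 0 ≤ s → s ≤ s1 → Y s = 0 := by
    intro s h0 h1
    obtain ⟨x', hx'⟩ := harc s h0 h1
    obtain ⟨-, -, hgπ, -, -⟩ := LL_gv 𝒜 hx' rfl
    rw [hY]
    simp only
    rw [Ex_smul 𝒜 hB q (norm_arc hw he hwe s), hgπ, 𝒜.zero]
  have hYdd : DifferentiableAt ℝ Y 0 := hYd.differentiableAt (by simp)
  have hY' : fderiv ℝ Y 0 = 0 := by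
    have h1 : HasFDerivWithinAt Y (fderiv ℝ Y 0) (Ici 0) 0 := hYdd.hasFDerivAt.hasFDerivWithinAt
    have h2 : HasFDerivWithinAt Y (0 : ℝ →L[ℝ] Eu n) (Ici 0) 0 := by
      have h3 : HasFDerivWithinAt (fun _ : ℝ => (0 : Eu n)) (0 : ℝ →L[ℝ] Eu n) (Ici 0) 0 := hasFDerivWithinAt_const _ _ _
      refine h3.congr_of_eventuallyEq ?_ (hY0 0 le_rfl hs1.le)
      have h4 : ∀ᶠ s : ℝ in 𝓝[≥] 0, s < s1 := nhdsWithin_le_nhds (eventually_lt_nhds hs1)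
      filter_upwards [h4, self_mem_nhdsWithin] with s hs hs'
      exact hY0 s hs' hs.le
    exact (uniqueDiffWithinAt_Ici (0 : ℝ)).eq h1 h2
  obtain ⟨δ1, C1, hδ1, hC1, hT1⟩ := CL.taylor_zero (hYd.of_le two_le_inf)
  have hYb : ∀ s, |s| < δ1 → ‖Y s‖ ≤ C1 * s ^ 2 := by
    intro s hs
    have := hT1 s hs
    rw [hY', hY0 0 le_rfl hs1.le, zero_apply, sub_zero, sub_zero, norm_eq_abs, sq_abs] at this
    exact this
  -- U
  set X0 : M := c (π - 1) with hX0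
  have dX0 : dist X0 p = 1 := by
    rw [hX0, ← hcπ, hc _ _ (by rw [abs_le]; constructor <;> linarith), abs_of_nonpos (by linarith)]
    ring
  set U : ℝ → Eu n := fun s => 𝒜.ψ X0 (𝒜.Ex q ((π - 1) • (cos s • w + sin s • e))) with hU
  have hUd : ContDiffAt ℝ ∞ U 0 := contDiffAt_arc 𝒜 hB q w e (π - 1) (by rw [hexc]; exact 𝒜.mem _)
  have hU0 : U 0 = 0 := by
    rw [hU]
    simp only
    rw [cos_zero, sin_zero, one_smul, zero_smul, add_zero, hexc, ← hX0, 𝒜.zero]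
  obtain ⟨δ2, C2, hδ2, hC2, hT2⟩ := CL.lip_zero (hUd.of_le two_le_inf) hU0
  -- sources
  have hsrc : ∀ (r : ℝ) (z : M), 𝒜.Ex q (r • w) ∈ (𝒜.ψ z).source → ∃ δ > 0, ∀ s : ℝ, |s| < δ →
      𝒜.Ex q (r • (cos s • w + sin s • e)) ∈ (𝒜.ψ z).source := by
    intro r z hz
    have hcont : Continuous (fun s : ℝ => 𝒜.Ex q (r • (cos s • w + sin s • e))) :=
      (continuous_Ex 𝒜 hB q).comp (contDiff_arc w e r).continuous
    have h1 : ∀ᶠ s : ℝ in 𝓝 0, 𝒜.Ex q (r • (cos s • w + sin s • e)) ∈ (𝒜.ψ z).source := by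
      apply hcont.continuousAt.eventually_mem
      apply (𝒜.ψ z).open_source.mem_nhds
      rw [cos_zero, sin_zero, one_smul, zero_smul, add_zero]
      exact hz
    obtain ⟨δ, hδ, h2⟩ := Metric.eventually_nhds_iff.1 h1
    exact ⟨δ, hδ, fun s hs => h2 (by rwa [Real.dist_eq, sub_zero])⟩
  obtain ⟨δ3, hδ3, hS3⟩ := hsrc π p (by rw [hexc, hcπ]; exact 𝒜.mem p)
  obtain ⟨δ4, hδ4, hS4⟩ := hsrc (π - 1) X0 (by rw [hexc]; exact 𝒜.mem _)
  -- Taylor expansion of f X0 p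
  have hf : ContDiffAt ℝ ∞ (𝒜.f X0 p) (0, 0) := contDiffAt_f 𝒜 hB (by rw [dX0]; norm_num) (by rw [dX0]; linarith)
  obtain ⟨δ5, C5, hδ5, hC5, hT5⟩ := CL.taylor_snd (hf.of_le two_le_inf)
  have hD : ∀ y : Eu n, fderiv ℝ (fun v => 𝒜.f X0 p (0, v)) 0 y = -⟪x, y⟫ := by
    intro y
    have e1 : (fun v => 𝒜.f X0 p (0, v)) = fun v => 𝒜.f p X0 (v, 0) := by
      funext v
      rw [f_swap]
    rw [e1]
    have h1 := D1_backward 𝒜 hB hc (s := π) (t := 1) one_pos (by linarith) y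
    rw [hcπ, ← hX0, hcvπ, inner_neg_left] at h1
    exact h1
  obtain ⟨η1, Cu, hη1, hCu, hut⟩ := ut 𝒜 hB q
  -- choice of constants
  set m : ℝ := min (min δ1 δ2) (min δ3 δ4) with hm
  have hmpos : 0 < m := lt_min (lt_min hδ1 hδ2) (lt_min hδ3 hδ4)
  refine ⟨C1 + Cu + C5 * (C2 + C1) * C1, min (min m 1) (min (min η1 (δ5 / (C1 + 1))) (δ5 / (C2 + 1))),
    by positivity, lt_min (lt_min hmpos one_pos) (lt_min (lt_min hη1 (by positivity)) (by positivity)), ?_⟩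
  intro s hs hslt
  obtain ⟨⟨hsm, hs1'⟩, ⟨-, hsδ1⟩, hsδ2⟩ : (s < m ∧ s < 1) ∧ (s < η1 ∧ s < δ5 / (C1 + 1)) ∧ s < δ5 / (C2 + 1) := by
    simpa only [lt_min_iff] using hslt
  obtain ⟨⟨hsa, hsb⟩, hsc, hsd⟩ : (s < δ1 ∧ s < δ2) ∧ s < δ3 ∧ s < δ4 := by
    simpa only [hm, lt_min_iff] using hsm
  have habs : |(-s)| = s := by rw [abs_neg, abs_of_pos hs]
  have hW : cos (-s) • w + sin (-s) • e = cos s • w - sin s • e := by
    rw [cos_neg, sin_neg, neg_smul, ← sub_eq_add_neg]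
  have hWn : ‖cos s • w - sin s • e‖ = 1 := by rw [← hW]; exact norm_arc hw he hwe (-s)
  obtain ⟨hg, hg0, hgv⟩ := gv_spec 𝒜 hB q hWn
  set g : ℝ → M := 𝒜.gv q (cos s • w - sin s • e) with hgdef
  have hexg : ∀ r : ℝ, 𝒜.Ex q (r • (cos (-s) • w + sin (-s) • e)) = g r := fun r => by
    rw [hW]; exact Ex_smul 𝒜 hB q hWn r
  have hs2 : s ^ 2 ≤ s := by nlinarith only [hs, hs1']
  have hYs : ‖Y (-s)‖ ≤ C1 * s ^ 2 := by
    have := hYb (-s) (by rw [habs]; exact hsa)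
    rwa [neg_sq] at this
  have hUs : ‖U (-s)‖ ≤ C2 * s := by
    have := hT2 (-s) (by rw [norm_eq_abs, habs]; exact hsb)
    rwa [norm_eq_abs, habs] at this
  have hgπ : g π ∈ (𝒜.ψ p).source := by
    have := hS3 (-s) (by rw [habs]; exact hsc)
    rwa [hexg] at this
  have hgπ1 : g (π - 1) ∈ (𝒜.ψ X0).source := by
    have := hS4 (-s) (by rw [habs]; exact hsd)
    rwa [hexg] at this
  have hYg : Y (-s) = 𝒜.ψ p (g π) := by
    show 𝒜.ψ p (𝒜.Ex q (π • (cos (-s) • w + sin (-s) • e))) = _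
    rw [hexg]
  have hUg : U (-s) = 𝒜.ψ X0 (g (π - 1)) := by
    show 𝒜.ψ X0 (𝒜.Ex q ((π - 1) • (cos (-s) • w + sin (-s) • e))) = _
    rw [hexg]
  have hs2nn : 0 ≤ s ^ 2 := sq_nonneg s
  have hs3 : 0 ≤ s ^ 3 := by positivity
  have hbig : 0 ≤ C5 * (C2 + C1) * C1 := by positivity
  refine ⟨Y (-s), ?_, ?_, fun a ha => ?_⟩
  · refine hYs.trans ?_
    linarith only [mul_nonneg hCu hs2nn, mul_nonneg hbig hs2nn]
  · rw [hYg]
    unfold SDist.f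
    simp only
    rw [(𝒜.ψ p).left_inv hgπ, symm_zero, ← hg0, hg 0 π (by rw [zero_sub, abs_neg, abs_of_pos Real.pi_pos]),
      zero_sub, abs_neg, abs_of_pos Real.pi_pos]
  · have haη : ‖a‖ < η1 := ha.trans_le ((min_le_right _ _).trans ((min_le_left _ _).trans (min_le_left _ _)))
    have d1 : dist q (g 1) = 1 := by
      rw [← hg0, hg 0 1 (by rw [zero_sub, abs_neg, abs_one]; linarith), zero_sub, abs_neg, abs_one]
    have d2 : dist (g 1) (g (π - 1)) = π - 2 := by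
      rw [hg 1 (π - 1) (by rw [abs_le]; constructor <;> linarith), abs_of_nonpos (by linarith)]
      ring
    have d3 : dist (g (π - 1)) (g π) = 1 := by
      rw [hg _ _ (by rw [abs_le]; constructor <;> linarith), abs_of_nonpos (by linarith)]
      ring
    have k1 := hut (g 1) (by rw [d1]; norm_num) (by rw [d1]; norm_num) a haη
    have g1 := D1_forward 𝒜 hB hg (s := 0) (t := 1) one_pos (by linarith) a
    rw [zero_add, hg0, hgv, real_inner_comm] at g1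
    rw [g1, d1] at k1
    have k1' := (abs_le.1 k1).2
    -- third part
    have hY5 : ‖Y (-s)‖ < δ5 := by
      have h3 : s * (C1 + 1) < δ5 := (lt_div_iff₀ (by linarith)).1 hsδ1
      have h4 : C1 * s ^ 2 ≤ C1 * s := mul_le_mul_of_nonneg_left hs2 hC1
      linarith only [h3, h4, hYs, hs]
    have hU5 : ‖U (-s)‖ < δ5 := by
      have h3 : s * (C2 + 1) < δ5 := (lt_div_iff₀ (by linarith)).1 hsδ2
      linarith only [h3, hUs, hs]
    have k2 := hT5 (U (-s)) (Y (-s)) hU5 hY5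
    rw [hD] at k2
    have f1 : 𝒜.f X0 p (U (-s), Y (-s)) = 1 := by
      unfold SDist.f
      simp only
      rw [hUg, hYg, (𝒜.ψ X0).left_inv hgπ1, (𝒜.ψ p).left_inv hgπ, d3]
    have f2 : 𝒜.f X0 p (U (-s), 0) = dist (g (π - 1)) p := by
      rw [f_left, hUg, (𝒜.ψ X0).left_inv hgπ1]
    rw [f1, f2, norm_eq_abs] at k2
    have k2' := (abs_le.1 k2).1
    have k3 : C5 * ((‖U (-s)‖ + ‖Y (-s)‖) * ‖Y (-s)‖) ≤ C5 * (C2 + C1) * C1 * s ^ 3 := by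
      have i1 : ‖U (-s)‖ + ‖Y (-s)‖ ≤ (C2 + C1) * s := by
        have h4 : C1 * s ^ 2 ≤ C1 * s := mul_le_mul_of_nonneg_left hs2 hC1
        linarith only [h4, hUs, hYs]
      have i2 : (‖U (-s)‖ + ‖Y (-s)‖) * ‖Y (-s)‖ ≤ ((C2 + C1) * s) * (C1 * s ^ 2) :=
        mul_le_mul i1 hYs (norm_nonneg _) (by positivity)
      calc C5 * ((‖U (-s)‖ + ‖Y (-s)‖) * ‖Y (-s)‖) ≤ C5 * (((C2 + C1) * s) * (C1 * s ^ 2)) :=
            mul_le_mul_of_nonneg_left i2 hC5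
        _ = _ := by ring
    have tri4 : 𝒜.f q p (a, 0) ≤ dist ((𝒜.ψ q).symm a) (g 1) + dist (g 1) (g (π - 1)) + dist (g (π - 1)) p := by
      rw [f_left]
      exact dist_triangle4 _ _ _ _
    have ha2 : 0 ≤ ‖a‖ ^ 2 := sq_nonneg _
    rw [real_inner_comm (Y (-s)) x] at k2'
    have z1 : Cu * ‖a‖ ^ 2 + C5 * (C2 + C1) * C1 * s ^ 3 ≤
        (C1 + Cu + C5 * (C2 + C1) * C1) * (‖a‖ ^ 2 + s ^ 3) := by
      linarith only [mul_nonneg hC1 ha2, mul_nonneg hC1 hs3, mul_nonneg hCu hs3, mul_nonneg hbig ha2]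
    linarith

end Pool.Agent.Lib.MP_ccbbf6_gt.Geo
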