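import Pool.Agent.Lib.MP_ccbbf6_gt.Geo.Ifc

/-!
# CZd: definitions
-/

set_option autoImplicit false

open Set Filter Topology Metric Real
open scoped ContDiff RealInnerProductSpace

noncomputable section

namespace Pool.Agent.Lib.MP_ccbbf6_gt.Geo

variable {n : ℕ} {M : Type*} [MetricSpace M] [CompactSpace M] (𝒜 : SDist n M)

/-- directions at `q` of the geodesics to `p` -/
def SDist.Lam (q p : M) : Set (Eu n) := {v | ‖v‖ = 1 ∧ 𝒜.gv q v π = p}

/-- the kernel of the second derivative at `c s` of `d(c r, .) + d(., c (r + π))` -/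
def SDist.Ker (c : ℝ → M) (r s : ℝ) : Set (Eu n) :=
  {a | ⟪𝒜.vel c s, a⟫ = 0 ∧ ∀ b, ⟪𝒜.vel c s, b⟫ = 0 → 𝒜.H (c s) (c r) a b + 𝒜.H (c s) (c (r + π)) a b = 0}

end Pool.Agent.Lib.MP_ccbbf6_gt.Geo
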