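import Pool.Agent.Lib.MP_ccbbf6_gt.CL.A2
import Pool.Agent.Lib.MP_ccbbf6_gt.Geo.CZ3
import Pool.Agent.Lib.MP_ccbbf6_gt.Geo.CZ4
import Pool.Agent.Lib.MP_ccbbf6_gt.Geo.CZd

/-!
# CZa: geodesics are closed (helper55)
-/

set_option autoImplicit false
set_option linter.unusedSectionVars false

open Set Filter Topology Metric Real
open scoped ContDiff RealInnerProductSpace

noncomputable section

namespace Pool.Agent.Lib.MP_ccbbf6_gt.Geo

variable {n : ℕ} {M : Type*} [MetricSpace M] [CompactSpace M] (𝒜 : SDist n M)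

/-- The local data at two points at distance `π`. -/
theorem exists_ldat (hB : Bl M) {p q : M} (h : dist q p = π) :
    ∃ 𝒟 : CL.LDat (Eu n) (Eu n), 𝒟.L = 𝒜.LL q p := by
  obtain ⟨η1, C1, hη1, hC1, h1⟩ := fv 𝒜 hB q p
  obtain ⟨η2, C2, hη2, hC2, h2⟩ := geo_exp 𝒜 hB q
  obtain ⟨η3, C3, hη3, hC3, h3⟩ := geo_exp 𝒜 hB p
  obtain ⟨η4, C4, hη4, hC4, h4⟩ := RR_ext 𝒜 hB h
  have hC : 0 ≤ C1 + C2 + C3 + C4 := by positivity
  refine ⟨{ D := fun a b => 𝒜.f q p (a, b)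
            L := 𝒜.LL q p
            R := 𝒜.RR q p
            r0 := min (min η1 η2) (min η3 η4)
            C := C1 + C2 + C3 + C4
            r0_pos := lt_min (lt_min hη1 hη2) (lt_min hη3 hη4)
            C_nonneg := hC
            diam := fun a b => hB.diam _ _
            zero := ?_
            unit := fun w x hx => LL_unit 𝒜 hx
            closed := LL_closed 𝒜 hB h
            nonempty := LL_nonempty 𝒜 hB h
            var := ?_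
            shift := ?_
            ext := ?_
            lim := fun a w x w' x' ha hw hx hR => RR_lim 𝒜 hB h a w x w' x' ha hw hx hR
            arc := fun w x e hL he hwe s1 hs1 harc => LL_arc 𝒜 hB hL he hwe hs1 harc }, rfl⟩
  · rw [← h]
    exact f_zero 𝒜 q p
  · rintro w x ⟨c, hc, c0, cπ, v0, vπ⟩ a b ha hb
    have ha' : ‖a‖ < η1 := ha.trans_le ((min_le_left _ _).trans (min_le_left _ _))
    have hb' : ‖b‖ < η1 := hb.trans_le ((min_le_left _ _).trans (min_le_left _ _))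
    have k := h1 c hc c0 cπ a b ha' hb'
    rw [v0, vπ, inner_neg_right] at k
    have k2 : 0 ≤ (C2 + C3 + C4) * (‖a‖ ^ 2 + ‖b‖ ^ 2) := by positivity
    show 𝒜.f q p (a, b) ≤ π - ⟪a, w⟫ - ⟪b, x⟫ + (C1 + C2 + C3 + C4) * (‖a‖ ^ 2 + ‖b‖ ^ 2)
    have k3 : 𝒜.f q p (a, b) ≤ π - ⟪a, w⟫ + -⟪b, x⟫ + C1 * (‖a‖ ^ 2 + ‖b‖ ^ 2) := k
    linarith
  · rintro w x ⟨c, hc, c0, cπ, v0, vπ⟩ r hr
    have hr2 : |r| < η2 := hr.trans_le ((min_le_left _ _).trans (min_le_right _ _))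
    have hr3 : |r| < η3 := hr.trans_le ((min_le_right _ _).trans (min_le_left _ _))
    obtain ⟨s2, e2⟩ := h2 c hc 0 c0 r hr2
    obtain ⟨s3, e3⟩ := h3 c hc π cπ r hr3
    refine ⟨𝒜.ψ q (c (0 + r)), 𝒜.ψ p (c (π + r)), ?_, ?_, ?_⟩
    · show dist ((𝒜.ψ q).symm (𝒜.ψ q (c (0 + r)))) ((𝒜.ψ p).symm (𝒜.ψ p (c (π + r)))) = π
      rw [(𝒜.ψ q).left_inv s2, (𝒜.ψ p).left_inv s3]
      have e : |0 + r - (π + r)| = π := by
        rw [zero_add, abs_sub_comm, add_sub_cancel_right, abs_of_pos Real.pi_pos]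
      rw [hc _ _ (by rw [e]), e]
    · rw [v0] at e2
      refine e2.trans ?_
      have : 0 ≤ (C1 + C3 + C4) * r ^ 2 := by positivity
      linarith
    · rw [vπ, smul_neg, sub_neg_eq_add] at e3
      refine e3.trans ?_
      have : 0 ≤ (C1 + C2 + C4) * r ^ 2 := by positivity
      linarith
  · intro a ha
    have ha4 : ‖a‖ < η4 := ha.trans_le ((min_le_right _ _).trans (min_le_right _ _))
    obtain ⟨m1, w, x, hR, hw, hx, m2, ⟨y, hy1, hy2⟩, m3⟩ := h4 a ha4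
    have h5 : 0 ≤ (C1 + C2 + C3) * ‖a‖ ^ 2 := by positivity
    refine ⟨m1, w, x, hR, hw, hx, ?_, ⟨y, hy1, ?_⟩, m3⟩
    · show π ≤ 𝒜.f q p (a, 0) + ⟪a, w⟫ + (C1 + C2 + C3 + C4) * ‖a‖ ^ 2
      linarith
    · refine hy2.trans ?_
      linarith

theorem mem_Lam_iff (hB : Bl M) {p q : M} {𝒟 : CL.LDat (Eu n) (Eu n)} (hD : 𝒟.L = 𝒜.LL q p) :
    𝒜.Lam q p = 𝒟.Lam := by
  ext v
  constructor
  · rintro ⟨hv, hπ⟩
    obtain ⟨hc, hc0, hcv⟩ := gv_spec 𝒜 hB q hv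
    refine ⟨-𝒜.vel (𝒜.gv q v) π, ?_⟩
    rw [hD]
    exact ⟨𝒜.gv q v, hc, hc0, hπ, hcv, (neg_neg _).symm⟩
  · rintro ⟨x, hx⟩
    rw [hD] at hx
    exact ⟨(LL_unit 𝒜 hx).1, (LL_gv 𝒜 hx rfl).2.2.1⟩

theorem neg_mem_Lam (hB : Bl M) {p q : M} (h : dist p q = π) {v : Eu n} (hv : v ∈ 𝒜.Lam q p) : -v ∈ 𝒜.Lam q p := by
  obtain ⟨𝒟, hD⟩ := exists_ldat 𝒜 hB (p := p) (q := q) (by rw [dist_comm]; exact h)
  rw [mem_Lam_iff 𝒜 hB hD] at hv ⊢
  exact 𝒟.neg_mem hv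

theorem exists_submodule_Lam (hB : Bl M) {p q : M} (h : dist p q = π) :
    ∃ V : Submodule ℝ (Eu n), 𝒜.Lam q p = {v | v ∈ V ∧ ‖v‖ = 1} ∧ (𝒜.Lam q p).Nonempty := by
  obtain ⟨𝒟, hD⟩ := exists_ldat 𝒜 hB (p := p) (q := q) (by rw [dist_comm]; exact h)
  rw [mem_Lam_iff 𝒜 hB hD]
  obtain ⟨V, hV⟩ := 𝒟.exists_submodule
  exact ⟨V, hV, 𝒟.lam_nonempty⟩

include 𝒜 in
theorem IsGeo.closed (hB : Bl M) {c : ℝ → M} (hc : IsGeo c) (t : ℝ) : c (t + 2 * π) = c t := by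
  have hg : IsGeo (fun s => c (s + t)) := hc.shift t
  set g : ℝ → M := fun s => c (s + t) with hgdef
  have hd : dist (g 0) (g π) = π := by
    rw [hg 0 π (by rw [zero_sub, abs_neg, abs_of_pos Real.pi_pos]), zero_sub, abs_neg, abs_of_pos Real.pi_pos]
  obtain ⟨𝒟, hD⟩ := exists_ldat 𝒜 hB (p := g π) (q := g 0) hd
  have h1 : (𝒜.vel g 0, -𝒜.vel g π) ∈ 𝒟.L := by
    rw [hD]
    exact ⟨g, hg, rfl, rfl, rfl, (neg_neg _).symm⟩
  have h2 := 𝒟.close h1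
  rw [hD] at h2
  obtain ⟨g', hg', e0, eπ, -, ev⟩ := h2
  have ev' : 𝒜.vel g' π = -𝒜.vel g π := by
    rw [ev]
    show - - -𝒜.vel g π = _
    rw [neg_neg]
  -- the reversed geodesic
  have hk : IsGeo (fun s => (fun s => g' (s + 2 * π)) (-s)) := (hg'.shift (2 * π)).rev
  have hkπ : (fun s => (fun s => g' (s + 2 * π)) (-s)) π = g π := by
    show g' (-π + 2 * π) = g π
    rw [show -π + 2 * π = π by ring, eπ]
  have hkv : 𝒜.vel (fun s => (fun s => g' (s + 2 * π)) (-s)) π = 𝒜.vel g π := by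
    rw [vel_rev 𝒜 (hg'.shift (2 * π)), vel_shift 𝒜, show -π + 2 * π = π by ring, ev', neg_neg]
  have heq := IsGeo.eq_of_vel 𝒜 hk hg (s := π) hkπ hkv
  have h3 : g' (-(2 * π) + 2 * π) = g (2 * π) := congrFun heq (2 * π)
  rw [neg_add_cancel, e0] at h3
  have h4 : c (0 + t) = c (2 * π + t) := h3
  rw [zero_add, add_comm (2 * π) t] at h4
  exact h4.symm

end Pool.Agent.Lib.MP_ccbbf6_gt.Geo
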