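import Pool.Agent.Lib.MP_ccbbf6_gt.ML

/-!
# BL geometry: the interface (helper78)

`SDist n M`: a metric space `M` with centered orthonormal charts in which the square of the distance is smooth
near the diagonal. Everything after the local theory (block LT) only uses this structure and the two metric
hypotheses `Bl M` (diameter at most pi, every minimal segment is part of one of length pi with the same start).
-/

set_option autoImplicit false

open Set Filter Topology Metric Real
open scoped ContDiff RealInnerProductSpace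

noncomputable section

namespace Pool.Agent.Lib.MP_ccbbf6_gt.Geo

abbrev Eu (n : ℕ) := EuclideanSpace ℝ (Fin n)

/-- A metric space with centered orthonormal charts in which the square of the distance is smooth near the
diagonal. -/
structure SDist (n : ℕ) (M : Type*) [MetricSpace M] where
  /-- the chart centered at `p` -/
  ψ : M → OpenPartialHomeomorph M (Eu n)
  mem : ∀ p, p ∈ (ψ p).source
  zero : ∀ p, ψ p p = 0
  trans : ∀ p q x, x ∈ (ψ p).source → x ∈ (ψ q).source →
    ContDiffAt ℝ ∞ (fun u => ψ q ((ψ p).symm u)) (ψ p x)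
  sq : ∀ p, ∀ᶠ z' in 𝓝 ((0, 0) : Eu n × Eu n), ContDiffAt ℝ ∞
    (fun z : Eu n × Eu n => dist ((ψ p).symm z.1) ((ψ p).symm z.2) ^ 2) z'
  metric : ∀ p, ∀ ε : ℝ, 0 < ε → ∀ᶠ z in 𝓝 ((0, 0) : Eu n × Eu n),
    |dist ((ψ p).symm z.1) ((ψ p).symm z.2) - ‖z.1 - z.2‖| ≤ ε * ‖z.1 - z.2‖
  btw : ∀ (p q : M) (r : ℝ), 0 ≤ r → r ≤ dist p q → ∃ x, dist p x = r ∧ dist x q = dist p q - r

/-- The metric hypotheses: `Inj = diam = π`. -/
structure Bl (M : Type*) [MetricSpace M] : Prop where
  diam : ∀ p q : M, dist p q ≤ π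
  ext : ∀ p q : M, p ≠ q → ∃ r, dist p r = π ∧ dist p q + dist q r = π

section Defs

variable {n : ℕ} {M : Type*} [MetricSpace M] (𝒜 : SDist n M)

/-- Unit speed geodesics (all segments of length at most `π` are minimal). -/
def IsGeo {M : Type*} [MetricSpace M] (c : ℝ → M) : Prop :=
  ∀ s t : ℝ, |s - t| ≤ π → dist (c s) (c t) = |s - t|

/-- the distance function in the charts centered at `p` and `q` -/
def SDist.f (p q : M) (z : Eu n × Eu n) : ℝ := dist ((𝒜.ψ p).symm z.1) ((𝒜.ψ q).symm z.2)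

/-- half of the square of the distance function in the charts centered at `p` and `q` -/
def SDist.F (p q : M) (z : Eu n × Eu n) : ℝ := 𝒜.f p q z ^ 2 / 2

/-- first derivative of `d(·, q)` at `p` -/
def SDist.D1 (p q : M) : Eu n →L[ℝ] ℝ := fderiv ℝ (fun u => 𝒜.f p q (u, 0)) 0

/-- second derivative of `d(·, q)` at `p` (in the chart centered at `p`) -/
def SDist.H (p q : M) : Eu n →L[ℝ] Eu n →L[ℝ] ℝ :=
  fderiv ℝ (fun u => fderiv ℝ (fun u' => 𝒜.f p q (u', 0)) u) 0

/-- mixed second derivative of `d` at `(p, q)`: `B p q a b`, `a` at `p`, `b` at `q` -/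
def SDist.B (p q : M) : Eu n →L[ℝ] Eu n →L[ℝ] ℝ :=
  fderiv ℝ (fun u => fderiv ℝ (fun v => 𝒜.f p q (u, v)) 0) 0

/-- mixed second derivative of `d ^ 2 / 2` at `(p, q)` -/
def SDist.BF (p q : M) : Eu n →L[ℝ] Eu n →L[ℝ] ℝ :=
  fderiv ℝ (fun u => fderiv ℝ (fun v => 𝒜.F p q (u, v)) 0) 0

/-- `|det D₁D₂ (d²/2)|` at `(p, q)`; its inverse is the Jacobian of the exponential map of `p` at `q` -/
def SDist.theta (p q : M) : ℝ :=
  |(Matrix.of fun i j : Fin n => 𝒜.BF p q (EuclideanSpace.single i 1) (EuclideanSpace.single j 1)).det|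

/-- the Jacobian in polar coordinates, `|det A(0, t)|`, `t = d(p, q)` -/
def SDist.J (p q : M) : ℝ := dist p q ^ (n - 1) / 𝒜.theta p q

/-- `v` is the velocity of `c` at time `s` (in the chart centered at `c s`) -/
def SDist.IsVel (c : ℝ → M) (s : ℝ) (v : Eu n) : Prop := HasDerivAt (fun t => 𝒜.ψ (c s) (c t)) v s

/-- the velocity of `c` at time `s` (in the chart centered at `c s`) -/
def SDist.vel (c : ℝ → M) (s : ℝ) : Eu n := deriv (fun t => 𝒜.ψ (c s) (c t)) s

open Classical in
/-- the geodesic through `p` and `q`, `0 < d(p, q) < π` -/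
def gd {M : Type*} [MetricSpace M] (p q : M) : ℝ → M :=
  if h : ∃ c : ℝ → M, IsGeo c ∧ c 0 = p ∧ c (dist p q) = q then h.choose else fun _ => p

open Classical in
/-- the geodesic starting at `p` with velocity `v`, `|v| = 1` -/
def SDist.gv (p : M) (v : Eu n) : ℝ → M :=
  if h : ∃ c : ℝ → M, IsGeo c ∧ c 0 = p ∧ HasDerivAt (fun t => 𝒜.ψ p (c t)) v 0 then h.choose else fun _ => p

/-- the exponential map of `p` -/
def SDist.Ex (p : M) (ξ : Eu n) : M := 𝒜.gv p (‖ξ‖⁻¹ • ξ) ‖ξ‖

end Defs

end Pool.Agent.Lib.MP_ccbbf6_gt.Geo
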