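import Pool.Agent.Lib.MP_ccbbf6_gt.ML

/-!
# ME area, part 0: the area formula in a metric space with almost isometric charts (helper67)
-/

set_option autoImplicit false
set_option linter.unusedSectionVars false

open MeasureTheory Measure Set Filter Topology
open scoped ENNReal NNReal

noncomputable section

namespace Pool.Agent.Lib.MP_ccbbf6_gt.Geo

section HE

variable {X Y : Type*} [EMetricSpace X] [MeasurableSpace X] [BorelSpace X]
  [EMetricSpace Y] [MeasurableSpace Y] [BorelSpace Y]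

lemma muHE_image_le {f : X → Y} {s : Set X} {K : ℝ≥0} (h : LipschitzOnWith K f s) (n : ℕ) :
    μHE[n] (f '' s) ≤ (K : ℝ≥0∞) ^ n * μHE[n] s := by
  rw [euclideanHausdorffMeasure_def, euclideanHausdorffMeasure_def]
  simp only [Measure.smul_apply]
  have h1 := h.hausdorffMeasure_image_le (d := n) (Nat.cast_nonneg n)
  rw [ENNReal.rpow_natCast] at h1
  calc _ ≤ addHaarScalarFactor (volume : Measure (EuclideanSpace ℝ (Fin n))) μH[n] •
        ((K : ℝ≥0∞) ^ n * μH[n] s) := by gcongr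
    _ = _ := by
      simp only [ENNReal.smul_def, smul_eq_mul]
      ring

end HE

lemma abs_det_le_pow {n : ℕ} {C : EuclideanSpace ℝ (Fin n) →L[ℝ] EuclideanSpace ℝ (Fin n)} {r : ℝ} (hr : 0 ≤ r)
    (hC : ∀ v, ‖C v‖ ≤ r * ‖v‖) : |C.det| ≤ r ^ n := by
  have h1 : (volume : Measure (EuclideanSpace ℝ (Fin n))) (C '' Metric.closedBall 0 1)
      = ENNReal.ofReal |C.det| * volume (Metric.closedBall (0 : EuclideanSpace ℝ (Fin n)) 1) :=
    Measure.addHaar_image_continuousLinearMap volume C _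
  have h2 : C '' Metric.closedBall 0 1 ⊆ Metric.closedBall (0 : EuclideanSpace ℝ (Fin n)) r := by
    rintro _ ⟨v, hv, rfl⟩
    rw [mem_closedBall_zero_iff] at hv ⊢
    calc ‖C v‖ ≤ r * ‖v‖ := hC v
      _ ≤ r * 1 := mul_le_mul_of_nonneg_left hv hr
      _ = r := mul_one r
  have h3 : (volume : Measure (EuclideanSpace ℝ (Fin n))) (Metric.closedBall (0 : EuclideanSpace ℝ (Fin n)) r)
      = ENNReal.ofReal (r ^ n) * volume (Metric.closedBall (0 : EuclideanSpace ℝ (Fin n)) 1) := by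
    have := Measure.addHaar_closedBall_mul (volume : Measure (EuclideanSpace ℝ (Fin n))) 0 hr (r := r) (s := 1)
      zero_le_one
    rw [mul_one] at this
    rw [this]
    simp
  have h4 := measure_mono (μ := (volume : Measure (EuclideanSpace ℝ (Fin n)))) h2
  rw [h1, h3] at h4
  have h5 : (volume : Measure (EuclideanSpace ℝ (Fin n))) (Metric.closedBall (0 : EuclideanSpace ℝ (Fin n)) 1) ≠ 0 :=
    (Metric.measure_closedBall_pos volume _ one_pos).ne'
  have h6 : (volume : Measure (EuclideanSpace ℝ (Fin n))) (Metric.closedBall (0 : EuclideanSpace ℝ (Fin n)) 1) ≠ ∞ :=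
    measure_closedBall_lt_top.ne
  have h7 := (ENNReal.mul_le_mul_iff_left h5 h6).1 h4
  exact (ENNReal.ofReal_le_ofReal_iff (by positivity)).1 h7

lemma le_of_forall_pow {a b : ℝ≥0∞} {k : ℕ} (h : ∀ r : ℝ≥0, 1 < r → a ≤ (r : ℝ≥0∞) ^ k * b) : a ≤ b := by
  rcases eq_or_ne b ∞ with rfl | hb
  · exact le_top
  have h1 : Tendsto (fun r : ℝ≥0 => (r : ℝ≥0∞) ^ k * b) (𝓝[>] 1) (𝓝 (((1 : ℝ≥0) : ℝ≥0∞) ^ k * b)) := by
    refine ENNReal.Tendsto.mul_const ?_ (Or.inr hb)
    refine tendsto_nhdsWithin_of_tendsto_nhds ?_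
    have : Continuous fun r : ℝ≥0 => (r : ℝ≥0∞) ^ k := by fun_prop
    exact this.tendsto 1
  have h2 : ∀ᶠ r : ℝ≥0 in 𝓝[>] 1, a ≤ (r : ℝ≥0∞) ^ k * b :=
    eventually_nhdsWithin_of_forall fun r hr => h r hr
  have := ge_of_tendsto h1 h2
  simpa using this

variable {n : ℕ} {M : Type*} [MetricSpace M] [MeasurableSpace M] [BorelSpace M]

/-- the inverse of an almost isometric chart -/
lemma muHE_le_of_bilip {r : ℝ≥0} {ψ : M → EuclideanSpace ℝ (Fin n)} {A : Set M}
    (hA : ∀ y ∈ A, ∀ z ∈ A, edist y z ≤ r * edist (ψ y) (ψ z)) :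
    μHE[n] A ≤ (r : ℝ≥0∞) ^ n * μHE[n] (ψ '' A) := by
  rcases A.eq_empty_or_nonempty with rfl | ⟨x, hx⟩
  · simp
  have : Nonempty M := ⟨x⟩
  have hinj : InjOn ψ A := by
    intro y hy z hz hyz
    have := hA y hy z hz
    rw [hyz, edist_self, mul_zero, nonpos_iff_eq_zero, edist_eq_zero] at this
    exact this
  set φ := Function.invFunOn ψ A with hφ
  have hφl : ∀ y ∈ A, φ (ψ y) = y := fun y hy => hinj.leftInvOn_invFunOn hy
  have hlip : LipschitzOnWith r φ (ψ '' A) := by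
    rintro _ ⟨y, hy, rfl⟩ _ ⟨z, hz, rfl⟩
    rw [hφl _ hy, hφl _ hz]
    exact hA _ hy _ hz
  have himg : φ '' (ψ '' A) = A := by
    rw [← image_comp]
    have : EqOn (φ ∘ ψ) id A := fun y hy => hφl _ hy
    rw [this.image_eq, image_id]
  calc μHE[n] A = μHE[n] (φ '' (ψ '' A)) := by rw [himg]
    _ ≤ _ := muHE_image_le hlip n

/-- the local hypothesis of the area formula: near every point there are `r`-bi-Lipschitz charts in which the
derivative of `F` has determinant comparable to `j` -/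
def AreaHyp (F : EuclideanSpace ℝ (Fin n) → M) (S : Set (EuclideanSpace ℝ (Fin n)))
    (j : EuclideanSpace ℝ (Fin n) → ℝ) : Prop :=
  ∀ r : ℝ≥0, 1 < r → ∀ p : M, ∃ (U : Set M) (ψ : M → EuclideanSpace ℝ (Fin n))
    (B : EuclideanSpace ℝ (Fin n) → EuclideanSpace ℝ (Fin n) →L[ℝ] EuclideanSpace ℝ (Fin n)),
    IsOpen U ∧ p ∈ U ∧ LipschitzOnWith r ψ U ∧
    (∀ y ∈ U, ∀ z ∈ U, edist y z ≤ r * edist (ψ y) (ψ z)) ∧
    ∀ x ∈ S, F x ∈ U → HasFDerivWithinAt (ψ ∘ F) (B x) S x ∧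
      |(B x).det| ≤ (r : ℝ) ^ n * j x ∧ j x ≤ (r : ℝ) ^ n * |(B x).det|

lemma area_local {r : ℝ≥0} {U : Set M} {ψ : M → EuclideanSpace ℝ (Fin n)}
    {B : EuclideanSpace ℝ (Fin n) → EuclideanSpace ℝ (Fin n) →L[ℝ] EuclideanSpace ℝ (Fin n)}
    (hL : LipschitzOnWith r ψ U)
    (hA : ∀ y ∈ U, ∀ z ∈ U, edist y z ≤ r * edist (ψ y) (ψ z))
    {F : EuclideanSpace ℝ (Fin n) → M} {j : EuclideanSpace ℝ (Fin n) → ℝ}
    {A : Set (EuclideanSpace ℝ (Fin n))} (hmA : MeasurableSet A)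
    (hF : ∀ x ∈ A, HasFDerivWithinAt (ψ ∘ F) (B x) A x)
    (h1 : ∀ x ∈ A, |(B x).det| ≤ (r : ℝ) ^ n * j x) (h2 : ∀ x ∈ A, j x ≤ (r : ℝ) ^ n * |(B x).det|)
    (hinj : InjOn F A) (hAU : MapsTo F A U) :
    ∫⁻ p in A, ENNReal.ofReal (j p) ≤ (r : ℝ≥0∞) ^ (2 * n) * μHE[n] (F '' A) ∧
    μHE[n] (F '' A) ≤ (r : ℝ≥0∞) ^ (2 * n) * ∫⁻ p in A, ENNReal.ofReal (j p) := by
  have hinjpsi : InjOn ψ U := by
    intro y hy z hz hyz
    have := hA y hy z hz
    rw [hyz, edist_self, mul_zero, nonpos_iff_eq_zero, edist_eq_zero] at this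
    exact this
  have hinj2 : InjOn (ψ ∘ F) A := hinjpsi.comp hinj hAU
  have harea := lintegral_abs_det_fderiv_eq_addHaar_image (volume : Measure (EuclideanSpace ℝ (Fin n)))
    hmA hF hinj2
  have hvol : (volume : Measure (EuclideanSpace ℝ (Fin n))) = μHE[n] :=
    (EuclideanSpace.euclideanHausdorffMeasure_eq_volume n).symm
  have himg : (ψ ∘ F) '' A = ψ '' (F '' A) := image_comp _ _ _
  have h5 : μHE[n] (ψ '' (F '' A)) ≤ (r : ℝ≥0∞) ^ n * μHE[n] (F '' A) :=
    muHE_image_le (hL.mono (image_subset_iff.2 hAU)) n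
  have h6 : μHE[n] (F '' A) ≤ (r : ℝ≥0∞) ^ n * μHE[n] (ψ '' (F '' A)) := by
    refine muHE_le_of_bilip ?_
    rintro _ ⟨p, hp, rfl⟩ _ ⟨q, hq, rfl⟩
    exact hA _ (hAU hp) _ (hAU hq)
  rw [himg, hvol] at harea
  have h3 : ∫⁻ p in A, ENNReal.ofReal (j p) ≤
      (r : ℝ≥0∞) ^ n * ∫⁻ p in A, ENNReal.ofReal |(B p).det| := by
    rw [← lintegral_const_mul' _ _ (by finiteness)]
    refine setLIntegral_mono' hmA fun p hp => ?_
    rw [← ENNReal.ofReal_coe_nnreal, ← ENNReal.ofReal_pow r.coe_nonneg, ← ENNReal.ofReal_mul (by positivity)]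
    exact ENNReal.ofReal_le_ofReal (h2 p hp)
  have h4 : ∫⁻ p in A, ENNReal.ofReal |(B p).det| ≤
      (r : ℝ≥0∞) ^ n * ∫⁻ p in A, ENNReal.ofReal (j p) := by
    rw [← lintegral_const_mul' _ _ (by finiteness)]
    refine setLIntegral_mono' hmA fun p hp => ?_
    rw [← ENNReal.ofReal_coe_nnreal, ← ENNReal.ofReal_pow r.coe_nonneg, ← ENNReal.ofReal_mul (by positivity)]
    exact ENNReal.ofReal_le_ofReal (h1 p hp)
  rw [hvol] at h3 h4 ⊢
  constructor
  · calc _ ≤ _ := h3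
      _ ≤ (r : ℝ≥0∞) ^ n * ((r : ℝ≥0∞) ^ n * μHE[n] (F '' A)) := by
          rw [harea]; gcongr
      _ = _ := by rw [two_mul, pow_add, mul_assoc]
  · calc _ ≤ _ := h6
      _ ≤ (r : ℝ≥0∞) ^ n * ((r : ℝ≥0∞) ^ n * ∫⁻ p in A, ENNReal.ofReal (j p) ∂μHE[n]) := by
          rw [← harea]; gcongr
      _ = _ := by rw [two_mul, pow_add, mul_assoc]

lemma measurableSet_inter_preimage {F : EuclideanSpace ℝ (Fin n) → M} {S : Set (EuclideanSpace ℝ (Fin n))}
    (hS : MeasurableSet S) (hF : ContinuousOn F S) {B : Set M} (hB : MeasurableSet B) :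
    MeasurableSet (S ∩ F ⁻¹' B) := by
  have h1 : Measurable (S.domRestrict F) := (continuousOn_iff_continuous_domRestrict.1 hF).measurable
  have h2 : S ∩ F ⁻¹' B = Subtype.val '' ((S.domRestrict F) ⁻¹' B) := by
    ext p
    simp [and_comm]
  rw [h2]
  exact hS.subtype_image (h1 hB)

variable [SecondCountableTopology M]

lemma area_aux {r : ℝ≥0} (hr : 1 < r) {F : EuclideanSpace ℝ (Fin n) → M}
    {j : EuclideanSpace ℝ (Fin n) → ℝ}
    {S : Set (EuclideanSpace ℝ (Fin n))} (hS : MeasurableSet S) (hcont : ContinuousOn F S)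
    (hinj : InjOn F S) (h : AreaHyp F S j) :
    ∫⁻ p in S, ENNReal.ofReal (j p) ≤ (r : ℝ≥0∞) ^ (2 * n) * μHE[n] (F '' S) ∧
    μHE[n] (F '' S) ≤ (r : ℝ≥0∞) ^ (2 * n) * ∫⁻ p in S, ENNReal.ofReal (j p) := by
  have : Nonempty M := ⟨F 0⟩
  choose U ψ B hUo hUx hL hA hD using h r hr
  obtain ⟨s, hsc, hs⟩ := TopologicalSpace.countable_cover_nhds (fun x => (hUo x).mem_nhds (hUx x))
  have hsne : s.Nonempty := by
    by_contra h
    rw [not_nonempty_iff_eq_empty] at h
    rw [h] at hs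
    simp only [mem_empty_iff_false, iUnion_of_empty, iUnion_empty] at hs
    exact Set.empty_ne_univ hs
  obtain ⟨x, hx⟩ := hsc.exists_eq_range hsne
  have hcov : ⋃ i, U (x i) = univ := by
    rw [← hs, hx]; simp
  set P : ℕ → Set M := disjointed (fun i => U (x i)) with hP
  have hPm : ∀ i, MeasurableSet (P i) := fun i =>
    MeasurableSet.disjointed (fun j => (hUo (x j)).measurableSet) i
  have hPd : Pairwise (Function.onFun Disjoint P) := disjoint_disjointed _
  have hPU : ∀ i, P i ⊆ U (x i) := fun i => disjointed_subset _ i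
  have hPc : ⋃ i, P i = univ := by rw [hP, iUnion_disjointed, hcov]
  set A : ℕ → Set (EuclideanSpace ℝ (Fin n)) := fun i => S ∩ F ⁻¹' (P i) with hAdef
  have hAm : ∀ i, MeasurableSet (A i) := fun i => measurableSet_inter_preimage hS hcont (hPm i)
  have hAd : Pairwise (Function.onFun Disjoint A) := by
    intro i j hij
    exact ((hPd hij).preimage F).mono inter_subset_right inter_subset_right
  have hAc : S = ⋃ i, A i := by
    rw [← inter_iUnion, ← preimage_iUnion, hPc, preimage_univ, inter_univ]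
  have hAS : ∀ i, A i ⊆ S := fun i => inter_subset_left
  have hFAd : Pairwise (Function.onFun Disjoint fun i => F '' (A i)) := by
    intro i j hij
    refine (hPd hij).mono ?_ ?_
    · rintro _ ⟨p, hp, rfl⟩; exact hp.2
    · rintro _ ⟨p, hp, rfl⟩; exact hp.2
  have hFAm : ∀ i, MeasurableSet (F '' (A i)) := fun i =>
    (hAm i).image_of_continuousOn_injOn (hcont.mono (hAS i)) (hinj.mono (hAS i))
  have hFS : F '' S = ⋃ i, F '' (A i) := by rw [← image_iUnion, ← hAc]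
  have hloc : ∀ i, _ := fun i => area_local (j := j) (hL (x i)) (hA (x i)) (hAm i)
    (fun p hp => ((hD (x i) p (hAS i hp) (hPU i hp.2)).1.mono (hAS i)))
    (fun p hp => (hD (x i) p (hAS i hp) (hPU i hp.2)).2.1)
    (fun p hp => (hD (x i) p (hAS i hp) (hPU i hp.2)).2.2)
    (hinj.mono (hAS i)) (fun p hp => hPU i hp.2)
  have hI : ∫⁻ p in S, ENNReal.ofReal (j p) = ∑' i, ∫⁻ p in A i, ENNReal.ofReal (j p) := by
    conv_lhs => rw [hAc]
    exact lintegral_iUnion hAm hAd _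
  have hM : μHE[n] (F '' S) = ∑' i, μHE[n] (F '' (A i)) := by
    rw [hFS]
    exact measure_iUnion hFAd hFAm
  rw [hI, hM, ← ENNReal.tsum_mul_left, ← ENNReal.tsum_mul_left]
  exact ⟨ENNReal.tsum_le_tsum fun i => (hloc i).1, ENNReal.tsum_le_tsum fun i => (hloc i).2⟩

lemma AreaHyp.mono {F : EuclideanSpace ℝ (Fin n) → M} {j : EuclideanSpace ℝ (Fin n) → ℝ}
    {S S' : Set (EuclideanSpace ℝ (Fin n))} (h : AreaHyp F S j) (hS : S' ⊆ S) : AreaHyp F S' j := by
  intro r hr p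
  obtain ⟨U, ψ, B, h1, h2, h3, h4, h5⟩ := h r hr p
  exact ⟨U, ψ, B, h1, h2, h3, h4, fun x hx hxU =>
    ⟨(h5 x (hS hx) hxU).1.mono hS, (h5 x (hS hx) hxU).2⟩⟩

/-- **Area formula** for the (Euclidean normalised) Hausdorff measure. -/
theorem area_formula {F : EuclideanSpace ℝ (Fin n) → M} {j : EuclideanSpace ℝ (Fin n) → ℝ}
    {S : Set (EuclideanSpace ℝ (Fin n))} (hS : MeasurableSet S) (hcont : ContinuousOn F S)
    (hinj : InjOn F S) (h : AreaHyp F S j) :
    ∫⁻ p in S, ENNReal.ofReal (j p) = μHE[n] (F '' S) :=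
  le_antisymm (le_of_forall_pow fun _ hr => (area_aux hr hS hcont hinj h).1)
    (le_of_forall_pow fun _ hr => (area_aux hr hS hcont hinj h).2)

/-- **Change of variables** for the (Euclidean normalised) Hausdorff measure. -/
theorem lintegral_image_eq {F : EuclideanSpace ℝ (Fin n) → M} {j : EuclideanSpace ℝ (Fin n) → ℝ}
    {S : Set (EuclideanSpace ℝ (Fin n))} (hS : MeasurableSet S) (hcont : ContinuousOn F S)
    (hinj : InjOn F S) (h : AreaHyp F S j)
    (hJ : AEMeasurable (fun p => ENNReal.ofReal (j p)) (volume.restrict S))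
    {g : M → ℝ≥0∞} (hg : Measurable g) :
    ∫⁻ y in F '' S, g y ∂μHE[n] = ∫⁻ p in S, ENNReal.ofReal (j p) * g (F p) := by
  have hFm : AEMeasurable F (volume.restrict S) := hcont.aemeasurable hS
  have hFm2 : AEMeasurable F ((volume.restrict S).withDensity fun p => ENNReal.ofReal (j p)) :=
    hFm.mono_ac (withDensity_absolutelyContinuous _ _)
  have hmap : (((volume.restrict S).withDensity fun p => ENNReal.ofReal (j p)).map F)
      = μHE[n].restrict (F '' S) := by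
    refine Measure.ext fun B hB => ?_
    rw [Measure.map_apply_of_aemeasurable hFm2 hB, Measure.restrict_apply hB]
    have hSB : MeasurableSet (S ∩ F ⁻¹' B) := measurableSet_inter_preimage hS hcont hB
    have h1 : ((volume.restrict S).withDensity fun p => ENNReal.ofReal (j p)) (F ⁻¹' B)
        = ((volume.restrict S).withDensity fun p => ENNReal.ofReal (j p)) (S ∩ F ⁻¹' B) := by
      refine measure_congr ?_
      have h2 : ∀ᵐ p ∂((volume.restrict S).withDensity fun p => ENNReal.ofReal (j p)), p ∈ S :=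
        (withDensity_absolutelyContinuous _ _).ae_le (ae_restrict_mem hS)
      filter_upwards [h2] with p hp
      exact propext ⟨fun h => ⟨hp, h⟩, fun h => h.2⟩
    rw [h1, withDensity_apply _ hSB, Measure.restrict_restrict hSB,
      inter_assoc, inter_comm (F ⁻¹' B) S, ← inter_assoc, inter_self,
      area_formula hSB (hcont.mono inter_subset_left) (hinj.mono inter_subset_left) (h.mono inter_subset_left)]
    congr 1
    ext y
    constructor
    · rintro ⟨p, ⟨hp, hpB⟩, rfl⟩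
      exact ⟨hpB, ⟨p, hp, rfl⟩⟩
    · rintro ⟨hB', ⟨p, hp, rfl⟩⟩
      exact ⟨p, ⟨hp, hB'⟩, rfl⟩
  rw [← hmap, lintegral_map' hg.aemeasurable hFm2, lintegral_withDensity_eq_lintegral_mul₀' hJ]
  · rfl
  · exact (hg.comp_aemeasurable hFm2)

/-- images of null sets under locally Lipschitz maps -/
lemma muHE_image_null {F : EuclideanSpace ℝ (Fin n) → M} {S : Set (EuclideanSpace ℝ (Fin n))}
    (hF : ∀ p ∈ S, ∃ K : ℝ≥0, ∃ t ∈ 𝓝[S] p, LipschitzOnWith K F t) (hS : volume S = 0) :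
    μHE[n] (F '' S) = 0 := by
  choose! K t ht hL using hF
  obtain ⟨s, hsS, hsc, hs⟩ := TopologicalSpace.countable_cover_nhdsWithin ht
  have h1 : F '' S ⊆ ⋃ p ∈ s, F '' (S ∩ t p) := by
    rintro _ ⟨q, hq, rfl⟩
    obtain ⟨p, hp, hqp⟩ := mem_iUnion₂.1 (hs hq)
    exact mem_iUnion₂.2 ⟨p, hp, ⟨q, ⟨hq, hqp⟩, rfl⟩⟩
  refine measure_mono_null h1 ((measure_biUnion_null_iff hsc).2 fun p hp => ?_)
  have h2 : μHE[n] (F '' (S ∩ t p)) ≤ (K p : ℝ≥0∞) ^ n * μHE[n] (S ∩ t p) :=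
    muHE_image_le ((hL p (hsS hp)).mono inter_subset_right) n
  rw [EuclideanSpace.euclideanHausdorffMeasure_eq_volume] at h2
  have h3 : volume (S ∩ t p) = 0 := measure_mono_null inter_subset_left hS
  rw [h3, mul_zero] at h2
  exact nonpos_iff_eq_zero.1 h2

end Pool.Agent.Lib.MP_ccbbf6_gt.Geo
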