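import Pool.Agent.Lib.MP_ccbbf6_gt.Geo.Area0
import Pool.Agent.Lib.MP_ccbbf6_gt.Geo.Ifc

/-!
# ME area, part 1: the charts of an `SDist` are almost isometric (helper67)
-/

set_option autoImplicit false
set_option linter.unusedSectionVars false

open MeasureTheory Measure Set Filter Topology Metric
open scoped ENNReal NNReal ContDiff

noncomputable section

namespace Pool.Agent.Lib.MP_ccbbf6_gt.Geo

variable {n : ℕ} {M : Type*} [MetricSpace M] (𝒜 : SDist n M)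

/-- the metric in the charts -/
lemma ar_metric (p : M) {r : ℝ} (hr : 1 < r) : ∃ δ > 0, ball (0 : Eu n) δ ⊆ (𝒜.ψ p).target ∧
    ∀ u ∈ ball (0 : Eu n) δ, ∀ v ∈ ball (0 : Eu n) δ,
    ‖u - v‖ ≤ r * dist ((𝒜.ψ p).symm u) ((𝒜.ψ p).symm v) ∧
    dist ((𝒜.ψ p).symm u) ((𝒜.ψ p).symm v) ≤ r * ‖u - v‖ := by
  have hr0 : 0 < r := by linarith
  have he : 0 < 1 - 1 / r := by
    rw [sub_pos, div_lt_one hr0]; exact hr
  set ε := min (r - 1) (1 - 1 / r) with hε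
  have hε0 : 0 < ε := lt_min (by linarith) he
  have h0 : (0 : Eu n) ∈ (𝒜.ψ p).target := by
    rw [← 𝒜.zero p]; exact (𝒜.ψ p).map_source (𝒜.mem p)
  obtain ⟨δ1, hδ1, h1⟩ := Metric.eventually_nhds_iff_ball.1 (𝒜.metric p ε hε0)
  obtain ⟨δ2, hδ2, h2⟩ := Metric.mem_nhds_iff.1 ((𝒜.ψ p).open_target.mem_nhds h0)
  refine ⟨min δ1 δ2, lt_min hδ1 hδ2, (ball_subset_ball (min_le_right _ _)).trans h2, fun u hu v hv => ?_⟩
  have h3 : (u, v) ∈ ball ((0, 0) : Eu n × Eu n) δ1 := by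
    rw [mem_ball, Prod.dist_eq]
    exact max_lt ((mem_ball.1 hu).trans_le (min_le_left _ _)) ((mem_ball.1 hv).trans_le (min_le_left _ _))
  have h4 := abs_le.1 (h1 _ h3)
  simp only at h4
  have hn := norm_nonneg (u - v)
  constructor
  · have h5 : (1 - ε) * ‖u - v‖ ≤ dist ((𝒜.ψ p).symm u) ((𝒜.ψ p).symm v) := by nlinarith [h4.1]
    have h6 : 1 / r ≤ 1 - ε := by
      have := min_le_right (r - 1) (1 - 1 / r)
      linarith
    have h7 : 1 / r * ‖u - v‖ ≤ dist ((𝒜.ψ p).symm u) ((𝒜.ψ p).symm v) :=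
      (mul_le_mul_of_nonneg_right h6 hn).trans h5
    have h8 := mul_le_mul_of_nonneg_left h7 hr0.le
    rwa [← mul_assoc, mul_one_div, div_self hr0.ne', one_mul] at h8
  · have h5 : ε ≤ r - 1 := min_le_left _ _
    nlinarith [h4.2]

/-- `r`-bi-Lipschitz neighbourhoods -/
lemma ar_nhd (p : M) {r : ℝ≥0} (hr : 1 < r) : ∃ U : Set M, IsOpen U ∧ p ∈ U ∧ U ⊆ (𝒜.ψ p).source ∧
    (∀ y ∈ U, ∀ z ∈ U, ‖𝒜.ψ p y - 𝒜.ψ p z‖ ≤ r * dist y z) ∧
    (∀ y ∈ U, ∀ z ∈ U, dist y z ≤ r * ‖𝒜.ψ p y - 𝒜.ψ p z‖) := by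
  obtain ⟨δ, hδ, -, h⟩ := ar_metric 𝒜 p (show (1:ℝ) < r from hr)
  refine ⟨(𝒜.ψ p).source ∩ 𝒜.ψ p ⁻¹' (ball 0 δ), (𝒜.ψ p).isOpen_inter_preimage isOpen_ball,
    ⟨𝒜.mem p, by rw [mem_preimage, 𝒜.zero]; exact mem_ball_self hδ⟩, inter_subset_left, ?_, ?_⟩
  · intro y hy z hz
    have := (h _ hy.2 _ hz.2).1
    rwa [(𝒜.ψ p).left_inv hy.1, (𝒜.ψ p).left_inv hz.1] at this
  · intro y hy z hz
    have := (h _ hy.2 _ hz.2).2
    rwa [(𝒜.ψ p).left_inv hy.1, (𝒜.ψ p).left_inv hz.1] at this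

/-- the transition map from the chart at `y` to the chart at `p`, at `y` -/
def ar_T (p y : M) : Eu n →L[ℝ] Eu n := fderiv ℝ (fun u => 𝒜.ψ p ((𝒜.ψ y).symm u)) 0

lemma ar_hasFDerivAt_T {p y : M} (h : y ∈ (𝒜.ψ p).source) :
    HasFDerivAt (fun u => 𝒜.ψ p ((𝒜.ψ y).symm u)) (ar_T 𝒜 p y) 0 := by
  have h1 := 𝒜.trans y p y (𝒜.mem y) h
  rw [𝒜.zero] at h1
  exact (h1.differentiableAt (by simp)).hasFDerivAt

lemma ar_symm_zero (y : M) : (𝒜.ψ y).symm 0 = y := by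
  rw [← 𝒜.zero y]; exact (𝒜.ψ y).left_inv (𝒜.mem y)

lemma ar_tendsto (y : M) : Tendsto (𝒜.ψ y).symm (𝓝 (0 : Eu n)) (𝓝 y) := by
  have h0 : (0 : Eu n) ∈ (𝒜.ψ y).target := by
    rw [← 𝒜.zero y]; exact (𝒜.ψ y).map_source (𝒜.mem y)
  have h1 : ContinuousAt (𝒜.ψ y).symm (0 : Eu n) := (𝒜.ψ y).symm.continuousAt h0
  have h2 := h1.tendsto
  rwa [ar_symm_zero] at h2

lemma ar_T_le {p y : M} {r : ℝ} (hr : 1 < r) {U : Set M} (hU : IsOpen U) (hy : y ∈ U) (hs : U ⊆ (𝒜.ψ p).source)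
    (h1 : ∀ y ∈ U, ∀ z ∈ U, ‖𝒜.ψ p y - 𝒜.ψ p z‖ ≤ r * dist y z) (v : Eu n) :
    ‖ar_T 𝒜 p y v‖ ≤ r * ‖v‖ := by
  have hr0 : 0 < r := by linarith
  have key : ∀ r' : ℝ, 1 < r' → ‖ar_T 𝒜 p y‖ ≤ r * r' := by
    intro r' hr'
    refine (ar_hasFDerivAt_T 𝒜 (hs hy)).le_of_lip' (by positivity) ?_
    obtain ⟨δ, hδ, -, h⟩ := ar_metric 𝒜 y hr'
    filter_upwards [ball_mem_nhds (0 : Eu n) hδ, (ar_tendsto 𝒜 y).eventually (hU.mem_nhds hy)] with u hu huU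
    have h2 := h1 _ huU _ hy
    rw [ar_symm_zero, sub_zero]
    refine h2.trans ?_
    rw [mul_assoc]
    refine mul_le_mul_of_nonneg_left ?_ hr0.le
    have h3 := (h u hu 0 (mem_ball_self hδ)).2
    rwa [ar_symm_zero, sub_zero] at h3
  have h5 : ‖ar_T 𝒜 p y‖ ≤ r := by
    refine le_of_forall_pos_le_add fun ε hε => ?_
    have := key (1 + ε / r) (by have := div_pos hε hr0; linarith)
    rwa [mul_add, mul_one, mul_div_cancel₀ _ hr0.ne'] at this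
  exact (ContinuousLinearMap.le_opNorm _ _).trans (mul_le_mul_of_nonneg_right h5 (norm_nonneg _))

lemma ar_le_T {p y : M} {r : ℝ} (hr : 1 < r) {U : Set M} (hU : IsOpen U) (hy : y ∈ U) (hs : U ⊆ (𝒜.ψ p).source)
    (h1 : ∀ y ∈ U, ∀ z ∈ U, dist y z ≤ r * ‖𝒜.ψ p y - 𝒜.ψ p z‖) (v : Eu n) :
    ‖v‖ ≤ r * ‖ar_T 𝒜 p y v‖ := by
  have hr0 : 0 < r := by linarith
  have hslope : Tendsto (fun s : ℝ => s⁻¹ • (𝒜.ψ p ((𝒜.ψ y).symm (s • v)) - 𝒜.ψ p y)) (𝓝[>] 0)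
      (𝓝 (ar_T 𝒜 p y v)) := by
    have h2 : HasDerivAt (fun s : ℝ => 𝒜.ψ p ((𝒜.ψ y).symm (s • v))) (ar_T 𝒜 p y v) 0 := by
      have h3 : HasDerivAt (fun s : ℝ => s • v) v 0 := by
        simpa using (hasDerivAt_id (0:ℝ)).smul_const v
      have h4 : HasFDerivAt (fun u => 𝒜.ψ p ((𝒜.ψ y).symm u)) (ar_T 𝒜 p y) ((0:ℝ) • v) := by
        rw [zero_smul]; exact ar_hasFDerivAt_T 𝒜 (hs hy)
      exact h4.comp_hasDerivAt 0 h3
    have h5 := (hasDerivAt_iff_tendsto_slope.1 h2).mono_left (nhdsWithin_mono 0 (fun s (hs : s ∈ Ioi (0:ℝ)) => ne_of_gt hs))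
    refine h5.congr fun s => ?_
    rw [slope_def_module, zero_smul, ar_symm_zero, sub_zero]
  have key : ∀ r' : ℝ, 1 < r' → ‖v‖ ≤ r' * r * ‖ar_T 𝒜 p y v‖ := by
    intro r' hr'
    have hr0' : 0 < r' := by linarith
    obtain ⟨δ, hδ, -, h⟩ := ar_metric 𝒜 y hr'
    have h6 : Tendsto (fun s : ℝ => s • v) (𝓝[>] 0) (𝓝 0) := by
      have : Tendsto (fun s : ℝ => s • v) (𝓝 0) (𝓝 ((0:ℝ) • v)) :=
        (continuous_id.smul continuous_const).tendsto 0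
      rw [zero_smul] at this
      exact this.mono_left nhdsWithin_le_nhds
    have h7 : ∀ᶠ s : ℝ in 𝓝[>] 0, ‖v‖ ≤ r' * r * ‖s⁻¹ • (𝒜.ψ p ((𝒜.ψ y).symm (s • v)) - 𝒜.ψ p y)‖ := by
      filter_upwards [h6.eventually (ball_mem_nhds (0 : Eu n) hδ),
        ((ar_tendsto 𝒜 y).comp h6).eventually (hU.mem_nhds hy), self_mem_nhdsWithin] with s hs1 hs2 hs3
      have hs3' : 0 < s := hs3
      have h8 := (h _ hs1 0 (mem_ball_self hδ)).1
      rw [ar_symm_zero, sub_zero, norm_smul, Real.norm_of_nonneg hs3'.le] at h8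
      have h9 := h1 _ hs2 _ hy
      rw [norm_smul, norm_inv, Real.norm_of_nonneg hs3'.le]
      have h10 : s * ‖v‖ ≤ r' * (r * ‖𝒜.ψ p ((𝒜.ψ y).symm (s • v)) - 𝒜.ψ p y‖) :=
        h8.trans (mul_le_mul_of_nonneg_left h9 hr0'.le)
      calc ‖v‖ = s⁻¹ * (s * ‖v‖) := by rw [← mul_assoc, inv_mul_cancel₀ hs3'.ne', one_mul]
        _ ≤ s⁻¹ * (r' * (r * ‖𝒜.ψ p ((𝒜.ψ y).symm (s • v)) - 𝒜.ψ p y‖)) :=
          mul_le_mul_of_nonneg_left h10 (inv_nonneg.2 hs3'.le)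
        _ = _ := by ring
    have h11 : Tendsto (fun s : ℝ => r' * r * ‖s⁻¹ • (𝒜.ψ p ((𝒜.ψ y).symm (s • v)) - 𝒜.ψ p y)‖) (𝓝[>] 0)
        (𝓝 (r' * r * ‖ar_T 𝒜 p y v‖)) := hslope.norm.const_mul _
    exact ge_of_tendsto h11 h7
  have h12 : Tendsto (fun r' : ℝ => r' * r * ‖ar_T 𝒜 p y v‖) (𝓝[>] 1) (𝓝 (1 * r * ‖ar_T 𝒜 p y v‖)) := by
    have : Continuous fun r' : ℝ => r' * r * ‖ar_T 𝒜 p y v‖ := by fun_prop
    exact (this.tendsto 1).mono_left nhdsWithin_le_nhds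
  rw [one_mul] at h12
  exact ge_of_tendsto h12 (eventually_nhdsWithin_of_forall fun r' hr' => key r' hr')

lemma one_le_pow_mul_det {C : Eu n →L[ℝ] Eu n} {r : ℝ} (hr : 0 ≤ r)
    (hC : ∀ v, ‖v‖ ≤ r * ‖C v‖) : 1 ≤ r ^ n * |C.det| := by
  have hinj : Function.Injective (C : Eu n →ₗ[ℝ] Eu n) := by
    rw [injective_iff_map_eq_zero]
    intro v hv
    have := hC v
    rw [show C v = 0 from hv, norm_zero, mul_zero] at this
    exact norm_le_zero_iff.1 this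
  set e : Eu n ≃ₗ[ℝ] Eu n := LinearEquiv.ofInjectiveEndo (C : Eu n →ₗ[ℝ] Eu n) hinj with he
  have heC : ∀ v, e v = C v := fun v => rfl
  set C' : Eu n →L[ℝ] Eu n := (e.symm.toContinuousLinearEquiv : Eu n →L[ℝ] Eu n) with hC'
  have h1 : C' ∘L C = ContinuousLinearMap.id ℝ (Eu n) := by
    ext v : 1
    change e.symm (C v) = v
    rw [← heC, e.symm_apply_apply]
  have h2 : C'.det * C.det = 1 := by
    have h3 : (C' ∘L C).det = C'.det * C.det := LinearMap.det_comp _ _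
    rw [← h3, h1]
    exact LinearMap.det_id
  have h4 : |C'.det| ≤ r ^ n := by
    refine abs_det_le_pow hr fun v => ?_
    change ‖e.symm v‖ ≤ r * ‖v‖
    have := hC (e.symm v)
    rwa [← heC, e.apply_symm_apply] at this
  calc (1 : ℝ) = |C'.det * C.det| := by rw [h2, abs_one]
    _ = |C'.det| * |C.det| := abs_mul _ _
    _ ≤ r ^ n * |C.det| := mul_le_mul_of_nonneg_right h4 (abs_nonneg _)

variable [MeasurableSpace M] [BorelSpace M]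

/-- the hypothesis of the area formula in terms of the charts of an `SDist` -/
theorem ar_areaHyp {F : Eu n → M} {S : Set (Eu n)} {A : Eu n → Eu n →L[ℝ] Eu n}
    (hcont : ContinuousOn F S)
    (hA : ∀ x ∈ S, HasFDerivWithinAt (fun x' => 𝒜.ψ (F x) (F x')) (A x) S x) :
    AreaHyp F S (fun x => |(A x).det|) := by
  intro r hr p
  obtain ⟨U, hU, hpU, hs, h1, h2⟩ := ar_nhd 𝒜 p hr
  have hr' : (1 : ℝ) < r := hr
  refine ⟨U, 𝒜.ψ p, fun x => (ar_T 𝒜 p (F x)) ∘L (A x), hU, hpU, ?_, ?_, ?_⟩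
  · refine LipschitzOnWith.of_dist_le_mul fun y hy z hz => ?_
    rw [dist_eq_norm]
    exact h1 y hy z hz
  · intro y hy z hz
    have := h2 y hy z hz
    rw [edist_dist, edist_dist, dist_eq_norm, ← ENNReal.ofReal_coe_nnreal, ← ENNReal.ofReal_mul (by positivity)]
    exact ENNReal.ofReal_le_ofReal this
  · intro x hx hxU
    have hdet : ((ar_T 𝒜 p (F x)) ∘L (A x)).det = (ar_T 𝒜 p (F x)).det * (A x).det := LinearMap.det_comp _ _
    refine ⟨?_, ?_, ?_⟩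
    · have h3 : HasFDerivAt (fun u => 𝒜.ψ p ((𝒜.ψ (F x)).symm u)) (ar_T 𝒜 p (F x)) (𝒜.ψ (F x) (F x)) := by
        rw [𝒜.zero]; exact ar_hasFDerivAt_T 𝒜 (hs hxU)
      have h4 := h3.comp_hasFDerivWithinAt x (hA x hx)
      refine h4.congr_of_eventuallyEq ?_ ?_
      · have h5 : ∀ᶠ x' in 𝓝[S] x, F x' ∈ (𝒜.ψ (F x)).source :=
          (hcont x hx).eventually ((𝒜.ψ (F x)).open_source.mem_nhds (𝒜.mem (F x)))
        filter_upwards [h5] with x' hx'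
        simp only [Function.comp_apply]
        rw [(𝒜.ψ (F x)).left_inv hx']
      · simp only [Function.comp_apply]
        rw [(𝒜.ψ (F x)).left_inv (𝒜.mem _)]
    · rw [hdet, abs_mul]
      exact mul_le_mul_of_nonneg_right
        (abs_det_le_pow r.coe_nonneg (ar_T_le 𝒜 hr' hU hxU hs h1)) (abs_nonneg _)
    · rw [hdet, abs_mul, ← mul_assoc]
      have := one_le_pow_mul_det r.coe_nonneg (ar_le_T 𝒜 hr' hU hxU hs h2)
      nlinarith [abs_nonneg (A x).det]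

end Pool.Agent.Lib.MP_ccbbf6_gt.Geo
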