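import Pool.Agent.Lib.MP_ccbbf6_gt.Geo.Area1
import Pool.Agent.Lib.MP_ccbbf6_gt.Geo.EXc
import Pool.Agent.Lib.MP_ccbbf6_gt.Geo.MEb
import Pool.Agent.Lib.MP_ccbbf6_gt.Meas.Polar

/-!
# ME area, part 2: the Riemannian measure in polar coordinates (helper67)
-/

set_option autoImplicit false
set_option linter.unusedSectionVars false

open MeasureTheory Measure Set Filter Topology Metric Real
open scoped ENNReal NNReal ContDiff RealInnerProductSpace

noncomputable section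

namespace Pool.Agent.Lib.MP_ccbbf6_gt.Geo

variable {n : ℕ} {M : Type*} [MetricSpace M] (𝒜 : SDist n M)

section

variable [MeasurableSpace M] [BorelSpace M]

include 𝒜 in
/-- the Riemannian measure is locally finite -/
theorem locallyFinite_of_sdist : IsLocallyFiniteMeasure (μHE[n] : Measure M) := by
  constructor
  intro x
  obtain ⟨U, hU, hxU, hs, h1, h2⟩ := ar_nhd 𝒜 x (r := 2) (by norm_num)
  have hcont : ContinuousAt (𝒜.ψ x) x := (𝒜.ψ x).continuousAt (𝒜.mem x)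
  refine ⟨U ∩ 𝒜.ψ x ⁻¹' (ball (𝒜.ψ x x) 1),
    inter_mem (hU.mem_nhds hxU) (hcont.preimage_mem_nhds (ball_mem_nhds _ one_pos)), ?_⟩
  refine (muHE_le_of_bilip (r := 2) (ψ := 𝒜.ψ x) ?_).trans_lt ?_
  · intro y hy z hz
    have := h2 y hy.1 z hz.1
    rw [edist_dist, edist_dist, dist_eq_norm, ← ENNReal.ofReal_coe_nnreal, ← ENNReal.ofReal_mul (by positivity)]
    exact ENNReal.ofReal_le_ofReal this
  · rw [EuclideanSpace.euclideanHausdorffMeasure_eq_volume]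
    refine ENNReal.mul_lt_top (by finiteness) ?_
    refine (measure_mono (t := ball (𝒜.ψ x x) 1) ?_).trans_lt measure_ball_lt_top
    rintro _ ⟨y, hy, rfl⟩
    exact hy.2

include 𝒜 in
/-- the Riemannian measure is finite -/
theorem finite_of_sdist [CompactSpace M] : IsFiniteMeasure (μHE[n] : Measure M) := by
  have := locallyFinite_of_sdist 𝒜
  exact ⟨isCompact_univ.measure_lt_top⟩

include 𝒜 in
/-- the Riemannian measure is positive on open sets -/
theorem openPos_of_sdist : (μHE[n] : Measure M).IsOpenPosMeasure := by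
  constructor
  rintro V hV ⟨x, hx⟩ h0
  obtain ⟨U, hU, hxU, hs, h1, h2⟩ := ar_nhd 𝒜 x (r := 2) (by norm_num)
  have hVU : IsOpen (V ∩ U) := hV.inter hU
  have h3 : IsOpen (𝒜.ψ x '' (V ∩ U)) :=
    (𝒜.ψ x).isOpen_image_of_subset_source hVU (inter_subset_right.trans hs)
  have h4 : LipschitzOnWith 2 (𝒜.ψ x) (V ∩ U) := by
    refine LipschitzOnWith.of_dist_le_mul fun y hy z hz => ?_
    rw [dist_eq_norm]
    exact h1 y hy.2 z hz.2
  have h5 := muHE_image_le h4 n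
  rw [measure_mono_null inter_subset_left h0, mul_zero, nonpos_iff_eq_zero,
    EuclideanSpace.euclideanHausdorffMeasure_eq_volume] at h5
  exact (h3.measure_pos volume ⟨_, mem_image_of_mem _ ⟨hx, hxU⟩⟩).ne' h5

end

variable [CompactSpace M]

lemma ar_lipschitz_Ex (hB : Bl M) (p : M) (ξ : Eu n) :
    ∃ K : ℝ≥0, ∃ t ∈ 𝓝 ξ, LipschitzOnWith K (𝒜.Ex p) t := by
  set q := 𝒜.Ex p ξ with hq
  obtain ⟨U, hU, hqU, hs, h1, h2⟩ := ar_nhd 𝒜 q (r := 2) (by norm_num)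
  have h3 : ContDiffAt ℝ ∞ (fun η => 𝒜.ψ q (𝒜.Ex p η)) ξ := contDiffAt_Ex 𝒜 hB p ξ (𝒜.mem q)
  have h3' : ContDiffAt ℝ 1 (fun η => 𝒜.ψ q (𝒜.Ex p η)) ξ := h3.of_le (mod_cast le_top)
  obtain ⟨K, t, ht, hK⟩ := h3'.exists_lipschitzOnWith
  refine ⟨2 * K, t ∩ 𝒜.Ex p ⁻¹' U,
    inter_mem ht ((continuous_Ex 𝒜 hB p).continuousAt.preimage_mem_nhds (hU.mem_nhds hqU)), ?_⟩
  refine LipschitzOnWith.of_dist_le_mul fun y hy z hz => ?_
  have h4 := h2 _ hy.2 _ hz.2
  have h5 := hK.dist_le_mul _ hy.1 _ hz.1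
  rw [dist_eq_norm] at h5
  calc dist (𝒜.Ex p y) (𝒜.Ex p z) ≤ (2 : ℝ≥0) * ‖𝒜.ψ q (𝒜.Ex p y) - 𝒜.ψ q (𝒜.Ex p z)‖ := h4
    _ ≤ (2 : ℝ≥0) * (K * dist y z) := mul_le_mul_of_nonneg_left h5 (by positivity)
    _ = _ := by push_cast; ring

section

variable [MeasurableSpace M] [BorelSpace M]

/-- the cut locus is a null set -/
lemma ar_null (hB : Bl M) (p : M) : μHE[n] (𝒜.Ex p '' (sphere 0 π)) = 0 := by
  refine muHE_image_null (fun ξ _ => ?_) ?_
  · obtain ⟨K, t, ht, h⟩ := ar_lipschitz_Ex 𝒜 hB p ξ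
    exact ⟨K, t, mem_nhdsWithin_of_mem_nhds ht, h⟩
  · exact Measure.addHaar_sphere_of_ne_zero volume 0 Real.pi_pos.ne'

lemma ar_area (hB : Bl M) (p : M) {f : M → ℝ≥0∞} (hf : Measurable f) :
    ∫⁻ q, f q ∂μHE[n] = ∫⁻ ξ in ball (0 : Eu n) π, ENNReal.ofReal ((𝒜.theta p (𝒜.Ex p ξ))⁻¹) * f (𝒜.Ex p ξ) := by
  have hcont : ContinuousOn (𝒜.Ex p) (ball 0 π) := (continuous_Ex 𝒜 hB p).continuousOn
  have hinj := Ex_injOn 𝒜 hB p
  set A : Eu n → Eu n →L[ℝ] Eu n := fun ξ => fderiv ℝ (fun η => 𝒜.ψ (𝒜.Ex p ξ) (𝒜.Ex p η)) ξ with hA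
  have hderiv : ∀ ξ ∈ ball (0 : Eu n) π,
      HasFDerivWithinAt (fun η => 𝒜.ψ (𝒜.Ex p ξ) (𝒜.Ex p η)) (A ξ) (ball 0 π) ξ := fun ξ _ =>
    ((contDiffAt_Ex 𝒜 hB p ξ (𝒜.mem _)).differentiableAt (by simp)).hasFDerivAt.hasFDerivWithinAt
  have hhyp := ar_areaHyp 𝒜 hcont hderiv
  have hdet : ∀ ξ ∈ ball (0 : Eu n) π, |(A ξ).det| = (𝒜.theta p (𝒜.Ex p ξ))⁻¹ := fun ξ hξ =>
    det_Ex 𝒜 hB p (mem_ball_zero_iff.1 hξ)
  have hthc : ContinuousOn (fun ξ => (𝒜.theta p (𝒜.Ex p ξ))⁻¹) (ball (0 : Eu n) π) := by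
    have h1 : ContinuousOn (fun ξ => 𝒜.theta p (𝒜.Ex p ξ)) (ball (0 : Eu n) π) := by
      refine (tendsto_theta 𝒜 hB).comp (f := fun ξ => (p, 𝒜.Ex p ξ))
        (continuousOn_const.prodMk hcont) fun ξ hξ => ?_
      have h2 := mem_ball_zero_iff.1 hξ
      change dist p (𝒜.Ex p ξ) < π
      rw [dist_Ex 𝒜 hB p h2.le]; exact h2
    refine h1.inv₀ fun ξ hξ => ?_
    have h2 := mem_ball_zero_iff.1 hξ
    exact (theta_pos 𝒜 hB (by rw [dist_Ex 𝒜 hB p h2.le]; exact h2)).ne'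
  have hm : AEMeasurable (fun ξ => ENNReal.ofReal |(A ξ).det|) (volume.restrict (ball (0 : Eu n) π)) := by
    refine (hthc.aemeasurable measurableSet_ball).ennreal_ofReal.congr ?_
    filter_upwards [ae_restrict_mem measurableSet_ball] with ξ hξ
    rw [hdet ξ hξ]
  have hsec : SecondCountableTopology M := inferInstance
  have hmain := lintegral_image_eq measurableSet_ball hcont hinj hhyp hm hf
  have hcompl : (𝒜.Ex p '' (ball 0 π))ᶜ ⊆ 𝒜.Ex p '' (sphere 0 π) := by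
    intro q hq
    obtain ⟨ξ, h1, h2⟩ := Ex_surj 𝒜 hB p q
    have h3 : ‖ξ‖ ≤ π := h1.trans_le (hB.diam p q)
    rcases h3.lt_or_eq with h4 | h4
    · exact absurd ⟨ξ, mem_ball_zero_iff.2 h4, h2⟩ hq
    · exact ⟨ξ, mem_sphere_zero_iff_norm.2 h4, h2⟩
  have hae : (𝒜.Ex p '' (ball 0 π) : Set M) =ᵐ[μHE[n]] univ := by
    rw [ae_eq_univ]
    exact measure_mono_null hcompl (ar_null 𝒜 hB p)
  calc ∫⁻ q, f q ∂μHE[n] = ∫⁻ q in 𝒜.Ex p '' (ball 0 π), f q ∂μHE[n] := by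
        rw [Measure.restrict_congr_set hae, Measure.restrict_univ]
    _ = ∫⁻ ξ in ball (0 : Eu n) π, ENNReal.ofReal |(A ξ).det| * f (𝒜.Ex p ξ) := hmain
    _ = _ := setLIntegral_congr_fun measurableSet_ball fun ξ hξ => by simp only [hdet ξ hξ]

/-- **The Riemannian measure in geodesic polar coordinates.** -/
theorem polar (hn : 1 ≤ n) (hB : Bl M) :
    Polar (μHE[n] : Measure M) (volume : Measure (Eu n)).toSphere
      (fun p (v : sphere (0 : Eu n) 1) => 𝒜.gv p v) 𝒜.J where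
  geo p v := (gv_spec 𝒜 hB p (mem_sphere_zero_iff_norm.1 v.2)).1
  zero p v := (gv_spec 𝒜 hB p (mem_sphere_zero_iff_norm.1 v.2)).2.1
  meas p := by
    refine Continuous.measurable ?_
    have h1 := continuousOn_gv 𝒜 hB p
    exact h1.comp_continuous (f := fun v : sphere (0 : Eu n) 1 => ((v : Eu n), π / 2))
      (continuous_subtype_val.prodMk continuous_const)
      fun v => ⟨mem_sphere_zero_iff_norm.1 v.2, mem_univ _⟩
  area p f hf := by
    have : Nonempty (Fin n) := ⟨⟨0, hn⟩⟩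
    rw [ar_area 𝒜 hB p hf]
    set S : Set (Eu n) := ball 0 π \ {0} with hS
    have hSm : MeasurableSet S := measurableSet_ball.diff (measurableSet_singleton _)
    have hSe : (S : Set (Eu n)) =ᵐ[volume] (ball 0 π : Set (Eu n)) := by
      exact sdiff_null_ae_eq_self (measure_singleton _)
    rw [← Measure.restrict_congr_set hSe]
    have hcont : Continuous (𝒜.Ex p) := continuous_Ex 𝒜 hB p
    have hm : Measurable (S.indicator fun ξ => ENNReal.ofReal ((𝒜.theta p (𝒜.Ex p ξ))⁻¹) * f (𝒜.Ex p ξ)) := by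
      refine measurable_of_restrict_of_restrict_compl hSm ?_ ?_
      · have h1 : S.domRestrict (S.indicator fun ξ => ENNReal.ofReal ((𝒜.theta p (𝒜.Ex p ξ))⁻¹) * f (𝒜.Ex p ξ)) =
            fun ξ : S => ENNReal.ofReal ((𝒜.theta p (𝒜.Ex p ξ))⁻¹) * f (𝒜.Ex p ξ) := by
          funext ξ
          exact indicator_of_mem ξ.2 _
        rw [h1]
        have h2 : Continuous fun ξ : S => 𝒜.theta p (𝒜.Ex p ξ) := by
          refine (tendsto_theta 𝒜 hB).comp_continuous (f := fun ξ : S => (p, 𝒜.Ex p ξ))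
            (continuous_const.prodMk (hcont.comp continuous_subtype_val)) fun ξ => ?_
          have h3 := mem_ball_zero_iff.1 ξ.2.1
          change dist p (𝒜.Ex p ξ) < π
          rw [dist_Ex 𝒜 hB p h3.le]; exact h3
        have h3 : Measurable fun ξ : S => (𝒜.theta p (𝒜.Ex p ξ))⁻¹ := h2.measurable.inv
        exact h3.ennreal_ofReal.mul (hf.comp (hcont.measurable.comp measurable_subtype_coe))
      · have h1 : Sᶜ.domRestrict (S.indicator fun ξ => ENNReal.ofReal ((𝒜.theta p (𝒜.Ex p ξ))⁻¹) * f (𝒜.Ex p ξ)) =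
            fun _ => 0 := by
          funext ξ
          exact indicator_of_notMem ξ.2 _
        rw [h1]
        exact measurable_const
    rw [BLM.setLIntegral_polar hn hm]
    refine lintegral_congr fun v => ?_
    have hv : ‖(v : Eu n)‖ = 1 := mem_sphere_zero_iff_norm.1 v.2
    refine setLIntegral_congr_fun measurableSet_Ioo fun t ht => ?_
    have h1 : ‖t • (v : Eu n)‖ = t := by
      rw [norm_smul, hv, mul_one, Real.norm_of_nonneg ht.1.le]
    have h2 : 𝒜.Ex p (t • (v : Eu n)) = 𝒜.gv p v t := Ex_smul 𝒜 hB p hv t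
    have h3 : dist p (𝒜.gv p v t) = t := by
      rw [← h2, dist_Ex 𝒜 hB p (by rw [h1]; exact ht.2.le), h1]
    simp only [h2]
    rw [SDist.J, h3, div_eq_mul_inv, ENNReal.ofReal_mul (pow_nonneg ht.1.le _)]
    ring

end

end Pool.Agent.Lib.MP_ccbbf6_gt.Geo
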