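import Pool.Agent.Lib.MP_ccbbf6_gt.ML

/-!
# SMk: calculus for the smoothness of the distance function (helper8)
-/

set_option autoImplicit false

open Set Filter Topology Metric Real
open scoped ContDiff RealInnerProductSpace

noncomputable section

namespace Pool.Agent.Lib.MP_ccbbf6_gt.Geo

section

variable {E : Type*} [NormedAddCommGroup E] [NormedSpace ℝ E]

theorem smb_ev {F : Type*} [NormedAddCommGroup F] [NormedSpace ℝ F] {k : E → F} {w : E} (hk : ContDiffAt ℝ ∞ k w) :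
    ∀ᶠ x in 𝓝 w, ContDiffAt ℝ 2 k x := by
  have h : ContDiffAt ℝ 2 k w := hk.of_le (by norm_cast)
  exact h.eventually (by norm_num)

/-- second derivative along a line -/
theorem smb_line {k : E → ℝ} {w : E} (hk : ContDiffAt ℝ ∞ k w) (a : E) :
    (∀ᶠ t in 𝓝 (0 : ℝ), HasDerivAt (fun t : ℝ => k (w + t • a)) (fderiv ℝ k (w + t • a) a) t) ∧
    HasDerivAt (fun t : ℝ => fderiv ℝ k (w + t • a) a) (fderiv ℝ (fderiv ℝ k) w a a) 0 := by
  have hl : ∀ t : ℝ, HasDerivAt (fun t : ℝ => w + t • a) a t := by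
    intro t
    simpa using ((hasDerivAt_id t).smul_const a).const_add w
  have hc : Tendsto (fun t : ℝ => w + t • a) (𝓝 0) (𝓝 w) := by
    have h := (hl 0).continuousAt.tendsto
    simpa using h
  have h1 : ∀ᶠ x in 𝓝 w, ContDiffAt ℝ 2 k x := smb_ev hk
  have hd : ContDiffAt ℝ ∞ (fderiv ℝ k) w := hk.fderiv_right (by norm_cast)
  refine ⟨?_, ?_⟩
  · filter_upwards [hc.eventually h1] with t ht
    have h2 : HasFDerivAt k (fderiv ℝ k (w + t • a)) (w + t • a) :=
      (ht.differentiableAt (by simp)).hasFDerivAt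
    exact h2.comp_hasDerivAt t (hl t)
  · have h2 : HasFDerivAt (fderiv ℝ k) (fderiv ℝ (fderiv ℝ k) w) (w + (0 : ℝ) • a) := by
      have := (hd.differentiableAt (by simp)).hasFDerivAt
      simpa using this
    have h3 := h2.comp_hasDerivAt (0 : ℝ) (hl 0)
    exact h3.clm_apply (hasDerivAt_const (0 : ℝ) a) |>.congr_deriv (by simp)

/-- the second derivative at a local minimum is nonnegative -/
theorem smb_min {k : E → ℝ} {w : E} (hk : ContDiffAt ℝ ∞ k w) (hm : IsLocalMin k w) (a : E) :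
    0 ≤ fderiv ℝ (fderiv ℝ k) w a a := by
  by_contra hneg
  have hneg := not_le.1 hneg
  obtain ⟨h1, h2⟩ := smb_line hk a
  set φ : ℝ → ℝ := fun t => k (w + t • a) with hφ
  have hc : Tendsto (fun t : ℝ => w + t • a) (𝓝 0) (𝓝 w) := by
    have h : Continuous (fun t : ℝ => w + t • a) := by fun_prop
    have := h.tendsto 0
    simpa using this
  have hmin : IsLocalMin φ 0 := by
    have : ∀ᶠ t in 𝓝 (0 : ℝ), k w ≤ k (w + t • a) := hc.eventually hm
    unfold IsLocalMin IsMinFilter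
    simpa [hφ] using this
  have hdd : deriv φ =ᶠ[𝓝 0] fun t => fderiv ℝ k (w + t • a) a := h1.mono fun t ht => ht.deriv
  have hd2 : deriv (deriv φ) 0 = fderiv ℝ (fderiv ℝ k) w a a := by
    rw [hdd.deriv_eq]
    exact h2.deriv
  have hmax : IsLocalMax φ 0 := by
    refine isLocalMax_of_deriv_deriv_neg (by rw [hd2]; exact hneg) hmin.deriv_eq_zero ?_
    exact h1.self_of_nhds.continuousAt
  have hconst : φ =ᶠ[𝓝 0] fun _ => φ 0 := by
    filter_upwards [hmin, hmax] with t ht1 ht2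
    exact le_antisymm ht2 ht1
  have hd1 : deriv φ =ᶠ[𝓝 0] fun _ => 0 := by
    have := hconst.deriv
    refine this.trans ?_
    simp
  have : deriv (deriv φ) 0 = 0 := by
    rw [hd1.deriv_eq]
    simp
  rw [hd2] at this
  linarith

/-- Taylor expansion at a minimum -/
theorem smb_taylor {k : E → ℝ} {w : E} (hk : ContDiffAt ℝ ∞ k w) (h0 : k w = 0) (hm : IsLocalMin k w) (a : E) :
    Tendsto (fun t : ℝ => k (w + t • a) / t ^ 2) (𝓝[≠] 0) (𝓝 (fderiv ℝ (fderiv ℝ k) w a a / 2)) := by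
  obtain ⟨h1, h2⟩ := smb_line hk a
  have hc : Tendsto (fun t : ℝ => w + t • a) (𝓝 0) (𝓝 w) := by
    have h : Continuous (fun t : ℝ => w + t • a) := by fun_prop
    have := h.tendsto 0
    simpa using this
  refine HasDerivAt.lhopital_zero_nhdsNE (f := fun t : ℝ => k (w + t • a)) (g := fun t : ℝ => t ^ 2)
    (f' := fun t : ℝ => fderiv ℝ k (w + t • a) a) (g' := fun t : ℝ => 2 * t) ?_ ?_ ?_ ?_ ?_ ?_
  · exact eventually_nhdsWithin_of_eventually_nhds h1
  · refine Filter.Eventually.of_forall fun t => ?_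
    have := hasDerivAt_pow 2 t
    simpa using this
  · filter_upwards [self_mem_nhdsWithin] with t ht
    have ht : t ≠ 0 := ht
    exact mul_ne_zero two_ne_zero ht
  · have := (hk.continuousAt.tendsto).comp hc
    rw [h0] at this
    exact this.mono_left nhdsWithin_le_nhds
  · have h : Continuous (fun t : ℝ => t ^ 2) := by fun_prop
    have := h.tendsto 0
    simp only [ne_eq, OfNat.ofNat_ne_zero, not_false_eq_true, zero_pow] at this
    exact this.mono_left nhdsWithin_le_nhds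
  · have h3 := h2.tendsto_slope_zero
    have h4 : fderiv ℝ k (w + (0 : ℝ) • a) a = 0 := by
      rw [zero_smul, add_zero, hm.fderiv_eq_zero]
      rfl
    have h5 := h3.div_const 2
    refine h5.congr' ?_
    filter_upwards [self_mem_nhdsWithin] with t ht
    have ht : t ≠ 0 := ht
    rw [h4, zero_add, sub_zero, smul_eq_mul]
    field_simp

/-- derivatives of a product of a function with itself -/
theorem smb_sq {g : E → ℝ} {w : E} (hg : ContDiffAt ℝ ∞ g w) (c : ℝ) (a b : E) :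
    fderiv ℝ (fderiv ℝ fun x => (g x - c) ^ 2) w a b =
      2 * (g w - c) * fderiv ℝ (fderiv ℝ g) w a b + 2 * (fderiv ℝ g w a * fderiv ℝ g w b) := by
  have h1 : ∀ᶠ x in 𝓝 w, ContDiffAt ℝ 2 g x := smb_ev hg
  have hd : ContDiffAt ℝ ∞ (fderiv ℝ g) w := hg.fderiv_right (by norm_cast)
  have h2 : (fderiv ℝ fun x => (g x - c) ^ 2) =ᶠ[𝓝 w] fun x => (2 * (g x - c)) • fderiv ℝ g x := by
    filter_upwards [h1] with x hx
    have h3 : HasFDerivAt g (fderiv ℝ g x) x := (hx.differentiableAt (by simp)).hasFDerivAt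
    have h4 := (h3.sub_const c).pow 2
    rw [h4.fderiv]
    simp
  rw [h2.fderiv_eq]
  have h3 : HasFDerivAt g (fderiv ℝ g w) w := (hg.differentiableAt (by simp)).hasFDerivAt
  have h4 : HasFDerivAt (fderiv ℝ g) (fderiv ℝ (fderiv ℝ g) w) w := (hd.differentiableAt (by simp)).hasFDerivAt
  have h5 := ((h3.sub_const c).const_mul 2).smul h4
  have h6 : fderiv ℝ (fun x => (2 * (g x - c)) • fderiv ℝ g x) w = _ := h5.fderiv
  rw [h6]
  simp only [add_apply, smul_apply, ContinuousLinearMap.smulRight_apply,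
    smul_eq_mul]
  ring

theorem smb_add {g h : E → ℝ} {w : E} (hg : ContDiffAt ℝ ∞ g w) (hh : ContDiffAt ℝ ∞ h w) :
    fderiv ℝ (fderiv ℝ fun x => g x + h x) w = fderiv ℝ (fderiv ℝ g) w + fderiv ℝ (fderiv ℝ h) w := by
  have h1 : ∀ᶠ x in 𝓝 w, ContDiffAt ℝ 2 g x := smb_ev hg
  have h1' : ∀ᶠ x in 𝓝 w, ContDiffAt ℝ 2 h x := smb_ev hh
  have hd : ContDiffAt ℝ ∞ (fderiv ℝ g) w := hg.fderiv_right (by norm_cast)
  have hd' : ContDiffAt ℝ ∞ (fderiv ℝ h) w := hh.fderiv_right (by norm_cast)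
  have h2 : (fderiv ℝ fun x => g x + h x) =ᶠ[𝓝 w] fun x => fderiv ℝ g x + fderiv ℝ h x := by
    filter_upwards [h1, h1'] with x hx hx'
    exact fderiv_fun_add (hx.differentiableAt (by simp)) (hx'.differentiableAt (by simp))
  rw [h2.fderiv_eq]
  exact fderiv_fun_add (hd.differentiableAt (by simp)) (hd'.differentiableAt (by simp))

theorem smb_half {g : E → ℝ} {w : E} (hg : ContDiffAt ℝ ∞ g w) (a : E) :
    fderiv ℝ (fderiv ℝ fun x => g x ^ 2 / 2) w a a =
      g w * fderiv ℝ (fderiv ℝ g) w a a + fderiv ℝ g w a * fderiv ℝ g w a := by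
  have h1 : ∀ᶠ x in 𝓝 w, ContDiffAt ℝ 2 g x := smb_ev hg
  have hd : ContDiffAt ℝ ∞ (fderiv ℝ g) w := hg.fderiv_right (by norm_cast)
  have h2 : (fderiv ℝ fun x => g x ^ 2 / 2) =ᶠ[𝓝 w] fun x => g x • fderiv ℝ g x := by
    filter_upwards [h1] with x hx
    have h3 : HasFDerivAt g (fderiv ℝ g x) x := (hx.differentiableAt (by simp)).hasFDerivAt
    have h4 := (h3.pow 2).mul_const ((2 : ℝ)⁻¹)
    have h5 : (fun x => g x ^ 2 / 2) = fun x => g x ^ 2 * (2 : ℝ)⁻¹ := by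
      funext x
      ring
    rw [h5]
    have h6 := h4.fderiv
    rw [h6]
    ext b
    simp
    ring
  rw [h2.fderiv_eq]
  have h3 : HasFDerivAt g (fderiv ℝ g w) w := (hg.differentiableAt (by simp)).hasFDerivAt
  have h4 : HasFDerivAt (fderiv ℝ g) (fderiv ℝ (fderiv ℝ g) w) w := (hd.differentiableAt (by simp)).hasFDerivAt
  have h5 := h3.smul h4
  have h6 : fderiv ℝ (fun x => g x • fderiv ℝ g x) w = _ := h5.fderiv
  rw [h6]
  simp only [add_apply, smul_apply, ContinuousLinearMap.smulRight_apply, smul_eq_mul]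

/-- second derivative in the first slot -/
theorem smb_part {F : Type*} [NormedAddCommGroup F] [NormedSpace ℝ F] {G : E × F → ℝ} {w : E} {v : F}
    (hG : ContDiffAt ℝ ∞ G (w, v)) (a b : E) :
    fderiv ℝ (fderiv ℝ fun x => G (x, v)) w a b = fderiv ℝ (fderiv ℝ G) (w, v) (a, 0) (b, 0) := by
  have hev : ∀ᶠ x in 𝓝 (w, v), ContDiffAt ℝ 2 G x := smb_ev hG
  have hd : ContDiffAt ℝ ∞ (fderiv ℝ G) (w, v) := hG.fderiv_right (by norm_cast)
  set L := ContinuousLinearMap.inl ℝ E F with hL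
  have hcw : Tendsto (fun x : E => (x, v)) (𝓝 w) (𝓝 (w, v)) := by
    have h : Continuous (fun x : E => (x, v)) := by fun_prop
    exact h.tendsto w
  have h1 : (fderiv ℝ fun x => G (x, v)) =ᶠ[𝓝 w] fun x => (fderiv ℝ G (x, v)).comp L := by
    filter_upwards [hcw.eventually hev] with x hx
    have h1 : HasFDerivAt G (fderiv ℝ G (x, v)) (x, v) := (hx.differentiableAt (by simp)).hasFDerivAt
    have h2 : HasFDerivAt (fun x : E => (x, v)) L x := hasFDerivAt_prodMk_left x v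
    exact (h1.comp x h2).fderiv
  rw [h1.fderiv_eq]
  have h2 : HasFDerivAt (fderiv ℝ G) (fderiv ℝ (fderiv ℝ G) (w, v)) (w, v) :=
    (hd.differentiableAt (by simp)).hasFDerivAt
  have h3 : HasFDerivAt (fun x : E => (x, v)) L w := hasFDerivAt_prodMk_left w v
  have h4 := h2.comp w h3
  have h5 : HasFDerivAt (fun x => (fderiv ℝ G (x, v)).comp L) _ w := h4.clm_comp (hasFDerivAt_const L w)
  rw [h5.fderiv]
  simp [hL]

/-- nondegeneracy of the second derivative -/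
theorem smb_nondeg {h g₁ g₂ : E → ℝ} {w a : E} {ε c : ℝ} (hh : ContDiffAt ℝ ∞ h w) (hg₁ : ContDiffAt ℝ ∞ g₁ w)
    (hg₂ : ContDiffAt ℝ ∞ g₂ w) (hε : 0 < ε) (e₁ : g₁ w = ε) (e₂ : g₂ w = 2 * ε) (hc : h w = c)
    (m₁ : IsLocalMin (fun x => h x + g₁ x) w) (m₂ : IsLocalMin (fun x => h x + g₂ x) w)
    (b₁ : |fderiv ℝ (fderiv ℝ fun x => g₁ x ^ 2 / 2) w a a - ‖a‖ ^ 2| ≤ ‖a‖ ^ 2 / 8)
    (b₂ : |fderiv ℝ (fderiv ℝ fun x => g₂ x ^ 2 / 2) w a a - ‖a‖ ^ 2| ≤ ‖a‖ ^ 2 / 8)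
    (h0 : fderiv ℝ (fderiv ℝ fun x => h x + g₁ x + (h x - c) ^ 2) w a a = 0) : a = 0 := by
  have hs : ContDiffAt ℝ ∞ (fun x => h x + g₁ x) w := hh.add hg₁
  have hs₂ : ContDiffAt ℝ ∞ (fun x => h x + g₂ x) w := hh.add hg₂
  have hq : ContDiffAt ℝ ∞ (fun x => (h x - c) ^ 2) w := (hh.sub contDiffAt_const).pow 2
  have e3 : fderiv ℝ (fderiv ℝ fun x => h x + g₁ x + (h x - c) ^ 2) w a a =
      fderiv ℝ (fderiv ℝ fun x => h x + g₁ x) w a a + 2 * (fderiv ℝ h w a * fderiv ℝ h w a) := by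
    rw [smb_add hs hq]
    rw [add_apply, add_apply, smb_sq hh c a a, hc]
    ring
  rw [e3] at h0
  have p₁ := smb_min hs m₁ a
  have p₂ := smb_min hs₂ m₂ a
  have p₃ : 0 ≤ fderiv ℝ h w a * fderiv ℝ h w a := mul_self_nonneg _
  have q₁ : fderiv ℝ (fderiv ℝ fun x => h x + g₁ x) w a a = 0 := by linarith
  have q₂ : fderiv ℝ h w a * fderiv ℝ h w a = 0 := by linarith
  have q₃ : fderiv ℝ h w a = 0 := mul_self_eq_zero.1 q₂
  rw [smb_add hh hg₁, add_apply, add_apply] at q₁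
  rw [smb_add hh hg₂, add_apply, add_apply] at p₂
  have hdh := hh.differentiableAt (by simp)
  have hd₁ := hg₁.differentiableAt (by simp)
  have hd₂ := hg₂.differentiableAt (by simp)
  have f₁ : fderiv ℝ g₁ w a = 0 := by
    have h1 := m₁.fderiv_eq_zero
    rw [fderiv_fun_add hdh hd₁] at h1
    have h2 := congrArg (fun L => L a) h1
    simp only [add_apply, q₃, zero_add] at h2
    exact h2
  have f₂ : fderiv ℝ g₂ w a = 0 := by
    have h1 := m₂.fderiv_eq_zero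
    rw [fderiv_fun_add hdh hd₂] at h1
    have h2 := congrArg (fun L => L a) h1
    simp only [add_apply, q₃, zero_add] at h2
    exact h2
  rw [smb_half hg₁, f₁, e₁] at b₁
  rw [smb_half hg₂, f₂, e₂] at b₂
  have b₁' := (abs_le.1 b₁).1
  have b₂' := (abs_le.1 b₂).2
  have k₁ : fderiv ℝ (fderiv ℝ g₁) w a a ≤ fderiv ℝ (fderiv ℝ g₂) w a a := by linarith
  have k₂ := mul_le_mul_of_nonneg_left k₁ hε.le
  have k₃ : ‖a‖ ^ 2 ≤ 0 := by nlinarith [sq_nonneg ‖a‖]
  have k₄ : ‖a‖ = 0 := by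
    have := le_antisymm k₃ (sq_nonneg _)
    exact pow_eq_zero_iff (two_ne_zero) |>.1 this
  exact norm_eq_zero.1 k₄

end

/-- implicit function theorem for a family of nondegenerate minima -/
theorem smb_ift {n : ℕ} {Z : Type*} [NormedAddCommGroup Z] [NormedSpace ℝ Z] [CompleteSpace Z]
    {G : Z × EuclideanSpace ℝ (Fin n) → ℝ} {z₀ : Z} {w₀ : EuclideanSpace ℝ (Fin n)}
    (hG : ContDiffAt ℝ ∞ G (z₀, w₀))
    (hnd : ∀ a, fderiv ℝ (fderiv ℝ fun w => G (z₀, w)) w₀ a a = 0 → a = 0)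
    {m : Z → EuclideanSpace ℝ (Fin n)} (hm : Tendsto m (𝓝 z₀) (𝓝 w₀))
    (hmin : ∀ᶠ z in 𝓝 z₀, IsLocalMin (fun w => G (z, w)) (m z))
    {f : Z → ℝ} (hf : ∀ᶠ z in 𝓝 z₀, f z = G (z, m z)) : ContDiffAt ℝ ∞ f z₀ := by
  have hm0 : m z₀ = w₀ := eq_of_tendsto_nhds hm
  set R := ContinuousLinearMap.inr ℝ Z (EuclideanSpace ℝ (Fin n)) with hR
  set Φ : Z × EuclideanSpace ℝ (Fin n) → (EuclideanSpace ℝ (Fin n) →L[ℝ] ℝ) :=
    fun x => (fderiv ℝ G x).comp R with hΦ
  have hdG : ContDiffAt ℝ ∞ (fderiv ℝ G) (z₀, w₀) := hG.fderiv_right (by norm_cast)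
  have hΦc : ContDiffAt ℝ ∞ Φ (z₀, w₀) := hdG.clm_comp contDiffAt_const
  have hev : ∀ᶠ x in 𝓝 (z₀, w₀), ContDiffAt ℝ 2 G x := smb_ev hG
  have hpart : ∀ z w, ContDiffAt ℝ 2 G (z, w) → fderiv ℝ (fun w => G (z, w)) w = Φ (z, w) := by
    intro z w h
    have h1 : HasFDerivAt G (fderiv ℝ G (z, w)) (z, w) := (h.differentiableAt (by simp)).hasFDerivAt
    have h2 : HasFDerivAt (fun w : EuclideanSpace ℝ (Fin n) => (z, w)) R w := hasFDerivAt_prodMk_right z w
    exact (h1.comp w h2).fderiv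
  have hzero : ∀ z w, ContDiffAt ℝ 2 G (z, w) → IsLocalMin (fun w => G (z, w)) w → Φ (z, w) = 0 := by
    intro z w h h1
    rw [← hpart z w h]
    exact h1.fderiv_eq_zero
  have hΦ0 : Φ (z₀, w₀) = 0 := by
    refine hzero z₀ w₀ hev.self_of_nhds ?_
    have := hmin.self_of_nhds
    rwa [hm0] at this
  -- the derivative in the second slot of `Φ`
  have hcw : Tendsto (fun w : EuclideanSpace ℝ (Fin n) => (z₀, w)) (𝓝 w₀) (𝓝 (z₀, w₀)) := by
    have h : Continuous (fun w : EuclideanSpace ℝ (Fin n) => (z₀, w)) := by fun_prop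
    exact h.tendsto w₀
  have hDD : (fderiv ℝ Φ (z₀, w₀)).comp R = fderiv ℝ (fderiv ℝ fun w => G (z₀, w)) w₀ := by
    have h1 : (fderiv ℝ fun w => G (z₀, w)) =ᶠ[𝓝 w₀] fun w => Φ (z₀, w) := by
      filter_upwards [hcw.eventually hev] with w hw
      exact hpart z₀ w hw
    rw [h1.fderiv_eq]
    have h2 : HasFDerivAt Φ (fderiv ℝ Φ (z₀, w₀)) (z₀, w₀) := (hΦc.differentiableAt (by simp)).hasFDerivAt
    have h3 : HasFDerivAt (fun w : EuclideanSpace ℝ (Fin n) => (z₀, w)) R w₀ := hasFDerivAt_prodMk_right z₀ w₀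
    exact (h2.comp w₀ h3).fderiv.symm
  have hinj : Function.Injective ((fderiv ℝ Φ (z₀, w₀)).comp R) := by
    rw [injective_iff_map_eq_zero]
    intro a ha
    apply hnd a
    rw [← hDD, ha]
    rfl
  have hinv : ((fderiv ℝ Φ (z₀, w₀)).comp R).IsInvertible := by
    have hfr : Module.finrank ℝ (EuclideanSpace ℝ (Fin n)) =
        Module.finrank ℝ (EuclideanSpace ℝ (Fin n) →L[ℝ] ℝ) :=
      (InnerProductSpace.toDual ℝ (EuclideanSpace ℝ (Fin n))).toLinearEquiv.finrank_eq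
    refine ⟨(LinearMap.linearEquivOfInjective ((fderiv ℝ Φ (z₀, w₀)).comp R).toLinearMap hinj hfr).toContinuousLinearEquiv, ?_⟩
    ext a b
    simp
  have h1 := hΦc.eventually_apply_eq_iff_implicitFunction (by simp) hinv
  have h2 := hΦc.contDiffAt_implicitFunction (by simp) hinv
  have h3 := hΦc.implicitFunction_apply_self (by simp) hinv
  set ψ := hΦc.implicitFunction (by simp) hinv with hψ
  have hzm : Tendsto (fun z => (z, m z)) (𝓝 z₀) (𝓝 (z₀, w₀)) := by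
    rw [nhds_prod_eq]
    exact tendsto_id.prodMk hm
  have h4 : ∀ᶠ z in 𝓝 z₀, ψ z = m z := by
    filter_upwards [hzm.eventually h1, hzm.eventually hev, hmin] with z hz1 hz2 hz3
    apply hz1.1
    rw [hzero z (m z) hz2 hz3, hΦ0]
  have h5 : f =ᶠ[𝓝 z₀] fun z => G (z, ψ z) := by
    filter_upwards [h4, hf] with z hz1 hz2
    rw [hz1, hz2]
  refine ContDiffAt.congr_of_eventuallyEq ?_ h5
  have h6 : ContDiffAt ℝ ∞ (fun z => (z, ψ z)) z₀ := contDiffAt_id.prodMk h2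
  have h7 : ContDiffAt ℝ ∞ G ((fun z => (z, ψ z)) z₀) := by
    show ContDiffAt ℝ ∞ G (z₀, ψ z₀)
    have : ψ z₀ = w₀ := h3
    rw [this]
    exact hG
  exact h7.comp z₀ h6

end Pool.Agent.Lib.MP_ccbbf6_gt.Geo
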