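import Pool.Agent.Lib.MP_ccbbf6_gt.Geo.GE3
import Pool.Agent.Lib.MP_ccbbf6_gt.Geo.SMk

/-!
# SMb: smoothness of the distance function on `0 < d < π` (helper8)
-/

set_option autoImplicit false

open Set Filter Topology Metric Real
open scoped ContDiff RealInnerProductSpace

noncomputable section

namespace Pool.Agent.Lib.MP_ccbbf6_gt.Geo

variable {n : ℕ} {M : Type*} [MetricSpace M] [CompactSpace M] (𝒜 : SDist n M)

omit [CompactSpace M] in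
theorem smb_mem_target (p : M) : (0 : Eu n) ∈ (𝒜.ψ p).target := by
  have := (𝒜.ψ p).map_source (𝒜.mem p)
  rwa [𝒜.zero] at this

omit [CompactSpace M] in
theorem smb_symm_zero (p : M) : (𝒜.ψ p).symm 0 = p := by
  have := (𝒜.ψ p).left_inv (𝒜.mem p)
  rwa [𝒜.zero] at this

omit [CompactSpace M] in
/-- change of charts -/
theorem smb_chart {p q r r' s s' : M} (hr : p ∈ (𝒜.ψ r).source) (hr' : q ∈ (𝒜.ψ r').source)
    (hs : p ∈ (𝒜.ψ s).source) (hs' : q ∈ (𝒜.ψ s').source)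
    (h : ContDiffAt ℝ ∞ (𝒜.f r r') (𝒜.ψ r p, 𝒜.ψ r' q)) : ContDiffAt ℝ ∞ (𝒜.f s s') (𝒜.ψ s p, 𝒜.ψ s' q) := by
  have h1 : ContDiffAt ℝ ∞ (fun z : Eu n × Eu n => (𝒜.ψ r ((𝒜.ψ s).symm z.1), 𝒜.ψ r' ((𝒜.ψ s').symm z.2)))
      (𝒜.ψ s p, 𝒜.ψ s' q) := by
    have a1 := 𝒜.trans s r p hs hr
    have a2 := 𝒜.trans s' r' q hs' hr'
    have b1 : ContDiffAt ℝ ∞ (fun z : Eu n × Eu n => 𝒜.ψ r ((𝒜.ψ s).symm z.1)) (𝒜.ψ s p, 𝒜.ψ s' q) :=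
      ContDiffAt.comp (g := fun u => 𝒜.ψ r ((𝒜.ψ s).symm u)) (𝒜.ψ s p, 𝒜.ψ s' q) a1 contDiffAt_fst
    have b2 : ContDiffAt ℝ ∞ (fun z : Eu n × Eu n => 𝒜.ψ r' ((𝒜.ψ s').symm z.2)) (𝒜.ψ s p, 𝒜.ψ s' q) :=
      ContDiffAt.comp (g := fun u => 𝒜.ψ r' ((𝒜.ψ s').symm u)) (𝒜.ψ s p, 𝒜.ψ s' q) a2 contDiffAt_snd
    exact b1.prodMk b2
  have h2 : ContDiffAt ℝ ∞ (𝒜.f r r')
      ((fun z : Eu n × Eu n => (𝒜.ψ r ((𝒜.ψ s).symm z.1), 𝒜.ψ r' ((𝒜.ψ s').symm z.2))) (𝒜.ψ s p, 𝒜.ψ s' q)) := by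
    simp only
    rw [(𝒜.ψ s).left_inv hs, (𝒜.ψ s').left_inv hs']
    exact h
  have h3 := h2.comp (𝒜.ψ s p, 𝒜.ψ s' q) h1
  refine h3.congr_of_eventuallyEq ?_
  have c1 : ∀ᶠ u in 𝓝 (𝒜.ψ s p), (𝒜.ψ s).symm u ∈ (𝒜.ψ r).source := by
    have := (𝒜.ψ s).continuousAt_symm ((𝒜.ψ s).map_source hs)
    have := this.tendsto
    rw [(𝒜.ψ s).left_inv hs] at this
    exact this.eventually ((𝒜.ψ r).open_source.mem_nhds hr)
  have c2 : ∀ᶠ u in 𝓝 (𝒜.ψ s' q), (𝒜.ψ s').symm u ∈ (𝒜.ψ r').source := by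
    have := (𝒜.ψ s').continuousAt_symm ((𝒜.ψ s').map_source hs')
    have := this.tendsto
    rw [(𝒜.ψ s').left_inv hs'] at this
    exact this.eventually ((𝒜.ψ r').open_source.mem_nhds hr')
  rw [nhds_prod_eq]
  filter_upwards [c1.prod_mk c2] with z hz
  show dist ((𝒜.ψ s).symm z.1) ((𝒜.ψ s').symm z.2) =
    dist ((𝒜.ψ r).symm (𝒜.ψ r ((𝒜.ψ s).symm z.1))) ((𝒜.ψ r').symm (𝒜.ψ r' ((𝒜.ψ s').symm z.2)))
  rw [(𝒜.ψ r).left_inv hz.1, (𝒜.ψ r').left_inv hz.2]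

omit [CompactSpace M] in
theorem smb_f_iff {p q r r' : M} (hp : p ∈ (𝒜.ψ r).source) (hq : q ∈ (𝒜.ψ r').source) :
    ContDiffAt ℝ ∞ (𝒜.f r r') (𝒜.ψ r p, 𝒜.ψ r' q) ↔ ContDiffAt ℝ ∞ (𝒜.f p q) (0, 0) := by
  constructor
  · intro h
    have := smb_chart 𝒜 hp hq (𝒜.mem p) (𝒜.mem q) h
    rwa [𝒜.zero, 𝒜.zero] at this
  · intro h
    have h' : ContDiffAt ℝ ∞ (𝒜.f p q) (𝒜.ψ p p, 𝒜.ψ q q) := by
      rw [𝒜.zero, 𝒜.zero]
      exact h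
    exact smb_chart 𝒜 (𝒜.mem p) (𝒜.mem q) hp hq h'

omit [CompactSpace M] in
theorem smb_F_diag (p : M) : ∀ᶠ z in 𝓝 ((0, 0) : Eu n × Eu n), ContDiffAt ℝ ∞ (𝒜.F p p) z := by
  filter_upwards [𝒜.sq p] with z hz
  exact hz.div_const 2

omit [CompactSpace M] in
/-- the second derivative of `d(·, p)² / 2` at `p` -/
theorem smb_D2 (p : M) (a : Eu n) :
    fderiv ℝ (fderiv ℝ (𝒜.F p p)) (0, 0) (a, 0) (a, 0) = ‖a‖ ^ 2 := by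
  have h0 : ContDiffAt ℝ ∞ (𝒜.F p p) (0, 0) := (smb_F_diag 𝒜 p).self_of_nhds
  rw [← smb_part h0 a a]
  have hk : ContDiffAt ℝ ∞ (fun x : Eu n => 𝒜.F p p (x, 0)) 0 := by
    have a2 : ContDiffAt ℝ ∞ (fun x : Eu n => (x, (0 : Eu n))) 0 := by fun_prop
    exact ContDiffAt.comp (g := 𝒜.F p p) (0 : Eu n) h0 a2
  have hk0 : 𝒜.F p p ((0 : Eu n), (0 : Eu n)) = 0 := by
    unfold SDist.F SDist.f
    simp
  have hm : IsLocalMin (fun x : Eu n => 𝒜.F p p (x, 0)) 0 := by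
    refine Filter.Eventually.of_forall fun x => ?_
    show 𝒜.F p p (0, 0) ≤ 𝒜.F p p (x, 0)
    rw [hk0]
    unfold SDist.F
    positivity
  have h1 := smb_taylor hk hk0 hm a
  have hf : Tendsto (fun t : ℝ => 𝒜.f p p (t • a, 0) / |t|) (𝓝[≠] 0) (𝓝 ‖a‖) := by
    rw [Metric.tendsto_nhds]
    intro ε hε
    have hδ : 0 < ε / (2 * (‖a‖ + 1)) := by positivity
    have hme := 𝒜.metric p _ hδ
    have hcc : Tendsto (fun t : ℝ => ((t • a, 0) : Eu n × Eu n)) (𝓝[≠] 0) (𝓝 (0, 0)) := by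
      have h : Continuous (fun t : ℝ => ((t • a, 0) : Eu n × Eu n)) := by fun_prop
      have := h.tendsto 0
      rw [zero_smul] at this
      exact this.mono_left nhdsWithin_le_nhds
    filter_upwards [hcc.eventually hme, self_mem_nhdsWithin] with t ht ht0
    have ht0 : t ≠ 0 := ht0
    have htp : 0 < |t| := abs_pos.2 ht0
    simp only [sub_zero, norm_smul, Real.norm_eq_abs] at ht
    have e1 : 𝒜.f p p (t • a, 0) / |t| - ‖a‖ = (dist ((𝒜.ψ p).symm (t • a)) ((𝒜.ψ p).symm 0) - |t| * ‖a‖) / |t| := by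
      unfold SDist.f
      field_simp
    rw [Real.dist_eq, e1, abs_div, abs_abs, div_lt_iff₀ htp]
    refine lt_of_le_of_lt ht ?_
    have e2 : ε / (2 * (‖a‖ + 1)) * (|t| * ‖a‖) = (ε * (‖a‖ / (2 * (‖a‖ + 1)))) * |t| := by ring
    rw [e2]
    refine mul_lt_mul_of_pos_right ?_ htp
    have e3 : ‖a‖ / (2 * (‖a‖ + 1)) < 1 := by
      rw [div_lt_one (by positivity)]
      linarith [norm_nonneg a]
    exact mul_lt_of_lt_one_right hε e3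
  have h2 : Tendsto (fun t : ℝ => (fun x : Eu n => 𝒜.F p p (x, 0)) (0 + t • a) / t ^ 2) (𝓝[≠] 0) (𝓝 (‖a‖ ^ 2 / 2)) := by
    have h3 := (hf.pow 2).div_const 2
    refine h3.congr' ?_
    filter_upwards [self_mem_nhdsWithin] with t ht0
    have ht0 : t ≠ 0 := ht0
    show (𝒜.f p p (t • a, 0) / |t|) ^ 2 / 2 = 𝒜.F p p (0 + t • a, 0) / t ^ 2
    unfold SDist.F
    rw [zero_add, div_pow, sq_abs]
    field_simp
  have h3 := tendsto_nhds_unique h1 h2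
  linarith

omit [CompactSpace M] in
/-- the good neighbourhood of the center of a chart -/
theorem smb_local (p : M) : ∃ r : ℝ, 0 < r ∧ ∀ u ∈ ball (0 : Eu n) r, ∀ v ∈ ball (0 : Eu n) r,
    u ∈ (𝒜.ψ p).target ∧ ContDiffAt ℝ ∞ (𝒜.F p p) (u, v) ∧
    ∀ a : Eu n, |fderiv ℝ (fderiv ℝ (𝒜.F p p)) (u, v) (a, 0) (a, 0) - ‖a‖ ^ 2| ≤ ‖a‖ ^ 2 / 8 := by
  have h1 : ∀ᶠ z in 𝓝 ((0, 0) : Eu n × Eu n), ContDiffAt ℝ ∞ (𝒜.F p p) z := smb_F_diag 𝒜 p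
  have h0 : ContDiffAt ℝ ∞ (𝒜.F p p) (0, 0) := h1.self_of_nhds
  have hd1 : ContDiffAt ℝ ∞ (fderiv ℝ (𝒜.F p p)) (0, 0) := h0.fderiv_right (by norm_cast)
  have hd2 : ContDiffAt ℝ ∞ (fderiv ℝ (fderiv ℝ (𝒜.F p p))) (0, 0) := hd1.fderiv_right (by norm_cast)
  have h2 : ∀ᶠ z in 𝓝 ((0, 0) : Eu n × Eu n),
      ‖fderiv ℝ (fderiv ℝ (𝒜.F p p)) z - fderiv ℝ (fderiv ℝ (𝒜.F p p)) (0, 0)‖ < 1 / 8 := by
    have := hd2.continuousAt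
    have h := Metric.tendsto_nhds.1 this (1 / 8) (by norm_num)
    filter_upwards [h] with z hz
    rwa [dist_eq_norm] at hz
  have h3 : ∀ᶠ z in 𝓝 ((0, 0) : Eu n × Eu n), z.1 ∈ (𝒜.ψ p).target := by
    have h : Continuous (fun z : Eu n × Eu n => z.1) := by fun_prop
    exact h.tendsto (0, 0) |>.eventually ((𝒜.ψ p).open_target.mem_nhds (smb_mem_target 𝒜 p))
  obtain ⟨r, hr, hball⟩ := Metric.eventually_nhds_iff_ball.1 (h1.and (h2.and h3))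
  refine ⟨r, hr, fun u hu v hv => ?_⟩
  have hz : ((u, v) : Eu n × Eu n) ∈ ball ((0, 0) : Eu n × Eu n) r := by
    rw [mem_ball] at *
    rw [Prod.dist_eq]
    exact max_lt hu hv
  obtain ⟨ha, hb, hc⟩ := hball _ hz
  refine ⟨hc, ha, fun a => ?_⟩
  have h5 : ‖a‖ ^ 2 = fderiv ℝ (fderiv ℝ (𝒜.F p p)) (0, 0) (a, 0) (a, 0) := (smb_D2 𝒜 p a).symm
  have h6 : fderiv ℝ (fderiv ℝ (𝒜.F p p)) (u, v) (a, 0) (a, 0) - ‖a‖ ^ 2 =
      (fderiv ℝ (fderiv ℝ (𝒜.F p p)) (u, v) - fderiv ℝ (fderiv ℝ (𝒜.F p p)) (0, 0)) (a, 0) (a, 0) := by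
    rw [h5]
    rfl
  rw [h6]
  have h7 := ContinuousLinearMap.le_opNorm₂
    (fderiv ℝ (fderiv ℝ (𝒜.F p p)) (u, v) - fderiv ℝ (fderiv ℝ (𝒜.F p p)) (0, 0)) (a, 0) (a, 0)
  have h8 : ‖((a, 0) : Eu n × Eu n)‖ = ‖a‖ := by
    rw [Prod.norm_def]
    simp
  rw [h8] at h7
  rw [← Real.norm_eq_abs]
  refine h7.trans ?_
  have h9 : 0 ≤ ‖a‖ * ‖a‖ := mul_nonneg (norm_nonneg _) (norm_nonneg _)
  calc _ = ‖fderiv ℝ (fderiv ℝ (𝒜.F p p)) (u, v) - fderiv ℝ (fderiv ℝ (𝒜.F p p)) (0, 0)‖ * (‖a‖ * ‖a‖) := by ring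
    _ ≤ 1 / 8 * (‖a‖ * ‖a‖) := mul_le_mul_of_nonneg_right hb.le h9
    _ = ‖a‖ ^ 2 / 8 := by ring

/-- uniform scale -/
theorem smb_scale : ∃ ρ : ℝ, 0 < ρ ∧ ∀ y : M, ∃ p : M, ∀ x : M, dist x y < ρ → x ∈ (𝒜.ψ p).source ∧
    ∀ x' : M, dist x' y < ρ → ContDiffAt ℝ ∞ (𝒜.F p p) (𝒜.ψ p x, 𝒜.ψ p x') ∧
    ∀ a : Eu n, |fderiv ℝ (fderiv ℝ (𝒜.F p p)) (𝒜.ψ p x, 𝒜.ψ p x') (a, 0) (a, 0) - ‖a‖ ^ 2| ≤ ‖a‖ ^ 2 / 8 := by
  choose r hr h using fun p => smb_local 𝒜 p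
  have hopen : ∀ p : M, IsOpen ((𝒜.ψ p).source ∩ (𝒜.ψ p) ⁻¹' ball (0 : Eu n) (r p)) := fun p =>
    (𝒜.ψ p).isOpen_inter_preimage isOpen_ball
  have hcov : (univ : Set M) ⊆ ⋃ p : M, (𝒜.ψ p).source ∩ (𝒜.ψ p) ⁻¹' ball (0 : Eu n) (r p) := by
    intro p _
    rw [mem_iUnion]
    refine ⟨p, 𝒜.mem p, ?_⟩
    rw [mem_preimage, 𝒜.zero]
    exact mem_ball_self (hr p)
  obtain ⟨ρ, hρ, hL⟩ := lebesgue_number_lemma_of_metric isCompact_univ hopen hcov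
  refine ⟨ρ, hρ, fun y => ?_⟩
  obtain ⟨p, hp⟩ := hL y (mem_univ y)
  refine ⟨p, fun x hx => ?_⟩
  have hx' := hp (mem_ball.2 hx)
  refine ⟨hx'.1, fun x' hx2 => ?_⟩
  have hx2' := hp (mem_ball.2 hx2)
  exact (h p _ hx'.2 _ hx2'.2).2

omit [CompactSpace M] in
/-- from `F` to `f` off the diagonal -/
theorem smb_f_of_F {p : M} {z : Eu n × Eu n} (hF : ContDiffAt ℝ ∞ (𝒜.F p p) z) (h : 𝒜.f p p z ≠ 0) :
    ContDiffAt ℝ ∞ (𝒜.f p p) z := by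
  have h1 : 𝒜.f p p = fun z => Real.sqrt (2 * 𝒜.F p p z) := by
    funext z
    unfold SDist.F
    rw [show 2 * (𝒜.f p p z ^ 2 / 2) = 𝒜.f p p z ^ 2 by ring, Real.sqrt_sq]
    exact dist_nonneg
  rw [h1]
  have h2 : ContDiffAt ℝ ∞ (fun z => 2 * 𝒜.F p p z) z := contDiffAt_const.mul hF
  refine h2.sqrt ?_
  unfold SDist.F
  have := pow_pos (lt_of_le_of_ne dist_nonneg (Ne.symm h) : 0 < 𝒜.f p p z) 2
  positivity

/-- the step of the induction -/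
theorem smb_step (hB : Bl M) {ρ : ℝ} (hρ : ∀ y : M, ∃ p : M, ∀ x : M, dist x y < ρ → x ∈ (𝒜.ψ p).source ∧
    ∀ x' : M, dist x' y < ρ → ContDiffAt ℝ ∞ (𝒜.F p p) (𝒜.ψ p x, 𝒜.ψ p x') ∧
    ∀ a : Eu n, |fderiv ℝ (fderiv ℝ (𝒜.F p p)) (𝒜.ψ p x, 𝒜.ψ p x') (a, 0) (a, 0) - ‖a‖ ^ 2| ≤ ‖a‖ ^ 2 / 8)
    {ε : ℝ} (hε : 0 < ε) (hε2 : 2 * ε < ρ) {p q : M} (h1 : ε < dist p q) (h2 : dist p q + ε ≤ π)
    (ih : ∀ y : M, dist p y = dist p q - ε → ContDiffAt ℝ ∞ (𝒜.f p y) (0, 0)) :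
    ContDiffAt ℝ ∞ (𝒜.f p q) (0, 0) := by
  have hpq : p ≠ q := by
    intro h
    rw [h, dist_self] at h1
    linarith
  obtain ⟨hc, hc0, hcl⟩ := gd_spec 𝒜 hB hpq
  set ℓ := dist p q with hℓ
  have hℓ0 : 0 < ℓ := by linarith
  set c := gd p q with hcdef
  set y := c (ℓ - ε) with hy
  set x₂ := c (ℓ + ε) with hx₂
  have d1 : dist p y = ℓ - ε := by
    rw [← hc0, hy, hc 0 (ℓ - ε) (by rw [abs_le]; constructor <;> linarith)]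
    rw [abs_of_nonpos (by linarith)]
    ring
  have d2 : dist y q = ε := by
    rw [← hcl, hy, hc (ℓ - ε) ℓ (by rw [abs_le]; constructor <;> linarith)]
    rw [abs_of_nonpos (by linarith)]
    ring
  have d3 : dist y x₂ = 2 * ε := by
    rw [hy, hx₂, hc (ℓ - ε) (ℓ + ε) (by rw [abs_le]; constructor <;> linarith)]
    rw [abs_of_nonpos (by linarith)]
    ring
  have d4 : dist p x₂ = ℓ + ε := by
    rw [← hc0, hx₂, hc 0 (ℓ + ε) (by rw [abs_le]; constructor <;> linarith)]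
    rw [abs_of_nonpos (by linarith)]
    ring
  obtain ⟨p₀, hp₀⟩ := hρ y
  have hρ0 : 0 < ρ := by linarith
  obtain ⟨sy, hFy⟩ := hp₀ y (by rw [dist_self]; exact hρ0)
  obtain ⟨sq, -⟩ := hp₀ q (by rw [dist_comm, d2]; linarith)
  obtain ⟨sx, -⟩ := hp₀ x₂ (by rw [dist_comm, d3]; linarith)
  obtain ⟨F1, B1⟩ := hFy q (by rw [dist_comm, d2]; linarith)
  obtain ⟨F2, B2⟩ := hFy x₂ (by rw [dist_comm, d3]; linarith)
  set w₀ := 𝒜.ψ p₀ y with hw₀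
  have ly : (𝒜.ψ p₀).symm w₀ = y := (𝒜.ψ p₀).left_inv sy
  have lq : (𝒜.ψ p₀).symm (𝒜.ψ p₀ q) = q := (𝒜.ψ p₀).left_inv sq
  have lx : (𝒜.ψ p₀).symm (𝒜.ψ p₀ x₂) = x₂ := (𝒜.ψ p₀).left_inv sx
  have f1 : ContDiffAt ℝ ∞ (𝒜.f p₀ p₀) (w₀, 𝒜.ψ p₀ q) := by
    refine smb_f_of_F 𝒜 F1 ?_
    unfold SDist.f
    rw [ly, lq, d2]
    exact hε.ne'
  have f2 : ContDiffAt ℝ ∞ (𝒜.f p₀ p₀) (w₀, 𝒜.ψ p₀ x₂) := by
    refine smb_f_of_F 𝒜 F2 ?_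
    unfold SDist.f
    rw [ly, lx, d3]
    exact (by linarith : (0 : ℝ) < 2 * ε).ne'
  have f3 : ContDiffAt ℝ ∞ (𝒜.f p p₀) (0, w₀) := by
    have := (smb_f_iff 𝒜 (𝒜.mem p) sy).2 (ih y d1)
    rwa [𝒜.zero] at this
  have f4 : ContDiffAt ℝ ∞ (𝒜.f p₀ q) (w₀, 0) := by
    have e1 := (smb_f_iff 𝒜 sy sq).1 f1
    have := (smb_f_iff 𝒜 sy (𝒜.mem q)).2 e1
    rwa [𝒜.zero] at this
  have sp : (𝒜.ψ p).symm 0 = p := smb_symm_zero 𝒜 p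
  have sqq : (𝒜.ψ q).symm 0 = q := smb_symm_zero 𝒜 q
  -- the function of the implicit function theorem
  set G : (Eu n × Eu n) × Eu n → ℝ := fun x =>
    𝒜.f p p₀ (x.1.1, x.2) + 𝒜.f p₀ q (x.2, x.1.2) + (𝒜.f p p₀ (x.1.1, x.2) - (ℓ - ε)) ^ 2 with hG
  have hGc : ContDiffAt ℝ ∞ G ((0, 0), w₀) := by
    have a1 : ContDiffAt ℝ ∞ (fun x : (Eu n × Eu n) × Eu n => 𝒜.f p p₀ (x.1.1, x.2)) ((0, 0), w₀) := by
      have a2 : ContDiffAt ℝ ∞ (fun x : (Eu n × Eu n) × Eu n => (x.1.1, x.2)) ((0, 0), w₀) := by fun_prop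
      exact ContDiffAt.comp (g := 𝒜.f p p₀) ((0, 0), w₀) f3 a2
    have a3 : ContDiffAt ℝ ∞ (fun x : (Eu n × Eu n) × Eu n => 𝒜.f p₀ q (x.2, x.1.2)) ((0, 0), w₀) := by
      have a2 : ContDiffAt ℝ ∞ (fun x : (Eu n × Eu n) × Eu n => (x.2, x.1.2)) ((0, 0), w₀) := by fun_prop
      exact ContDiffAt.comp (g := 𝒜.f p₀ q) ((0, 0), w₀) f4 a2
    exact (a1.add a3).add ((a1.sub contDiffAt_const).pow 2)
  -- the point of the geodesic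
  set P : Eu n × Eu n → M := fun z => gd ((𝒜.ψ p).symm z.1) ((𝒜.ψ q).symm z.2) (ℓ - ε) with hP
  have hcs : Tendsto (fun z : Eu n × Eu n => ((𝒜.ψ p).symm z.1, (𝒜.ψ q).symm z.2)) (𝓝 (0, 0)) (𝓝 (p, q)) := by
    have b1 : ContinuousAt (𝒜.ψ p).symm 0 := (𝒜.ψ p).continuousAt_symm (smb_mem_target 𝒜 p)
    have b2 : ContinuousAt (𝒜.ψ q).symm 0 := (𝒜.ψ q).continuousAt_symm (smb_mem_target 𝒜 q)
    have b3 : Tendsto (fun z : Eu n × Eu n => (𝒜.ψ p).symm z.1) (𝓝 (0, 0)) (𝓝 p) := by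
      have := b1.tendsto
      rw [sp] at this
      exact this.comp (continuous_fst.tendsto (0, 0))
    have b4 : Tendsto (fun z : Eu n × Eu n => (𝒜.ψ q).symm z.2) (𝓝 (0, 0)) (𝓝 q) := by
      have := b2.tendsto
      rw [sqq] at this
      exact this.comp (continuous_snd.tendsto (0, 0))
    rw [nhds_prod_eq (x := p)]
    exact b3.prodMk b4
  have hPt : Tendsto P (𝓝 (0, 0)) (𝓝 y) := by
    have hU : IsOpen {z : (M × M) × ℝ | 0 < dist z.1.1 z.1.2 ∧ dist z.1.1 z.1.2 < π} := by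
      have o1 : Continuous (fun z : (M × M) × ℝ => dist z.1.1 z.1.2) := by fun_prop
      exact (isOpen_lt continuous_const o1).inter (isOpen_lt o1 continuous_const)
    have hmem : ((p, q), ℓ - ε) ∈ {z : (M × M) × ℝ | 0 < dist z.1.1 z.1.2 ∧ dist z.1.1 z.1.2 < π} := by
      refine ⟨hℓ0, ?_⟩
      show dist p q < π
      linarith
    have hcont := (continuousOn_gd 𝒜 hB).continuousAt (hU.mem_nhds hmem)
    have b5 : Tendsto (fun z : Eu n × Eu n => (((𝒜.ψ p).symm z.1, (𝒜.ψ q).symm z.2), ℓ - ε)) (𝓝 (0, 0))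
        (𝓝 ((p, q), ℓ - ε)) := by
      rw [nhds_prod_eq (x := (p, q))]
      exact hcs.prodMk tendsto_const_nhds
    exact hcont.tendsto.comp b5
  set m : Eu n × Eu n → Eu n := fun z => 𝒜.ψ p₀ (P z) with hm
  have hmt : Tendsto m (𝓝 (0, 0)) (𝓝 w₀) := by
    have := ((𝒜.ψ p₀).continuousAt sy).tendsto
    exact this.comp hPt
  have hdist : ∀ᶠ z in 𝓝 ((0, 0) : Eu n × Eu n), ε < dist ((𝒜.ψ p).symm z.1) ((𝒜.ψ q).symm z.2) ∧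
      dist ((𝒜.ψ p).symm z.1) ((𝒜.ψ q).symm z.2) < π ∧
      ℓ - ε < dist ((𝒜.ψ p).symm z.1) ((𝒜.ψ q).symm z.2) := by
    have b6 : Tendsto (fun z : Eu n × Eu n => dist ((𝒜.ψ p).symm z.1) ((𝒜.ψ q).symm z.2)) (𝓝 (0, 0))
        (𝓝 (dist p q)) := by
      have hcd : Continuous (fun x : M × M => dist x.1 x.2) := by fun_prop
      exact (hcd.tendsto (p, q)).comp hcs
    filter_upwards [b6.eventually (lt_mem_nhds h1), b6.eventually (gt_mem_nhds (by linarith : dist p q < π)),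
      b6.eventually (lt_mem_nhds (by linarith : ℓ - ε < dist p q))] with z z1 z2 z3
    exact ⟨z1, z2, z3⟩
  have hsrc : ∀ᶠ z in 𝓝 ((0, 0) : Eu n × Eu n), P z ∈ (𝒜.ψ p₀).source :=
    hPt.eventually ((𝒜.ψ p₀).open_source.mem_nhds sy)
  -- values at the point
  have hval : ∀ᶠ z in 𝓝 ((0, 0) : Eu n × Eu n), 𝒜.f p q z = G (z, m z) := by
    filter_upwards [hdist, hsrc] with z hz1 hz2
    obtain ⟨z1, z2, z3⟩ := hz1
    have hne : (𝒜.ψ p).symm z.1 ≠ (𝒜.ψ q).symm z.2 := by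
      intro h
      rw [h, dist_self] at z1
      linarith
    obtain ⟨k1, k2, k3⟩ := gd_spec 𝒜 hB hne
    have lm : (𝒜.ψ p₀).symm (m z) = P z := (𝒜.ψ p₀).left_inv hz2
    have v1 : dist ((𝒜.ψ p).symm z.1) (P z) = ℓ - ε := by
      have := k1 0 (ℓ - ε) (by rw [abs_le]; constructor <;> linarith)
      rw [k2] at this
      rw [hP]
      simp only
      rw [this, abs_of_nonpos (by linarith)]
      ring
    have v2 : dist (P z) ((𝒜.ψ q).symm z.2) = dist ((𝒜.ψ p).symm z.1) ((𝒜.ψ q).symm z.2) - (ℓ - ε) := by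
      have := k1 (ℓ - ε) (dist ((𝒜.ψ p).symm z.1) ((𝒜.ψ q).symm z.2))
        (by rw [abs_le]; constructor <;> linarith)
      rw [k3] at this
      rw [hP]
      simp only
      rw [this, abs_of_nonpos (by linarith)]
      ring
    show dist ((𝒜.ψ p).symm z.1) ((𝒜.ψ q).symm z.2) = dist ((𝒜.ψ p).symm z.1) ((𝒜.ψ p₀).symm (m z)) +
      dist ((𝒜.ψ p₀).symm (m z)) ((𝒜.ψ q).symm z.2) + (dist ((𝒜.ψ p).symm z.1) ((𝒜.ψ p₀).symm (m z)) - (ℓ - ε)) ^ 2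
    rw [lm, v1, v2]
    ring
  have hminz : ∀ᶠ z in 𝓝 ((0, 0) : Eu n × Eu n), IsLocalMin (fun w => G (z, w)) (m z) := by
    filter_upwards [hval] with z hz
    refine Filter.Eventually.of_forall fun w => ?_
    show G (z, m z) ≤ G (z, w)
    rw [← hz]
    show dist ((𝒜.ψ p).symm z.1) ((𝒜.ψ q).symm z.2) ≤ dist ((𝒜.ψ p).symm z.1) ((𝒜.ψ p₀).symm w) +
      dist ((𝒜.ψ p₀).symm w) ((𝒜.ψ q).symm z.2) + (dist ((𝒜.ψ p).symm z.1) ((𝒜.ψ p₀).symm w) - (ℓ - ε)) ^ 2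
    have := dist_triangle ((𝒜.ψ p).symm z.1) ((𝒜.ψ p₀).symm w) ((𝒜.ψ q).symm z.2)
    have := sq_nonneg (dist ((𝒜.ψ p).symm z.1) ((𝒜.ψ p₀).symm w) - (ℓ - ε))
    linarith
  refine smb_ift hGc ?_ hmt hminz hval
  intro a ha
  have hw1 : ContDiffAt ℝ ∞ (fun w : Eu n => ((0 : Eu n), w)) w₀ := by fun_prop
  have hw2 : ContDiffAt ℝ ∞ (fun w : Eu n => (w, 𝒜.ψ p₀ q)) w₀ := by fun_prop
  have hw3 : ContDiffAt ℝ ∞ (fun w : Eu n => (w, 𝒜.ψ p₀ x₂)) w₀ := by fun_prop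
  refine smb_nondeg (h := fun w => 𝒜.f p p₀ (0, w)) (g₁ := fun w => 𝒜.f p₀ p₀ (w, 𝒜.ψ p₀ q))
    (g₂ := fun w => 𝒜.f p₀ p₀ (w, 𝒜.ψ p₀ x₂)) (w := w₀) (a := a) (ε := ε) (c := ℓ - ε) ?_ ?_ ?_ hε ?_ ?_ ?_ ?_ ?_
    ?_ ?_ ?_
  · exact ContDiffAt.comp (g := 𝒜.f p p₀) w₀ f3 hw1
  · exact ContDiffAt.comp (g := 𝒜.f p₀ p₀) w₀ f1 hw2
  · exact ContDiffAt.comp (g := 𝒜.f p₀ p₀) w₀ f2 hw3
  · show dist ((𝒜.ψ p₀).symm w₀) ((𝒜.ψ p₀).symm (𝒜.ψ p₀ q)) = ε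
    rw [ly, lq, d2]
  · show dist ((𝒜.ψ p₀).symm w₀) ((𝒜.ψ p₀).symm (𝒜.ψ p₀ x₂)) = 2 * ε
    rw [ly, lx, d3]
  · show dist ((𝒜.ψ p).symm 0) ((𝒜.ψ p₀).symm w₀) = ℓ - ε
    rw [ly, sp, d1]
  · refine Filter.Eventually.of_forall fun w => ?_
    show dist ((𝒜.ψ p).symm 0) ((𝒜.ψ p₀).symm w₀) + dist ((𝒜.ψ p₀).symm w₀) ((𝒜.ψ p₀).symm (𝒜.ψ p₀ q)) ≤
      dist ((𝒜.ψ p).symm 0) ((𝒜.ψ p₀).symm w) + dist ((𝒜.ψ p₀).symm w) ((𝒜.ψ p₀).symm (𝒜.ψ p₀ q))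
    rw [ly, lq, sp, d1, d2]
    have := dist_triangle p ((𝒜.ψ p₀).symm w) q
    linarith
  · refine Filter.Eventually.of_forall fun w => ?_
    show dist ((𝒜.ψ p).symm 0) ((𝒜.ψ p₀).symm w₀) + dist ((𝒜.ψ p₀).symm w₀) ((𝒜.ψ p₀).symm (𝒜.ψ p₀ x₂)) ≤
      dist ((𝒜.ψ p).symm 0) ((𝒜.ψ p₀).symm w) + dist ((𝒜.ψ p₀).symm w) ((𝒜.ψ p₀).symm (𝒜.ψ p₀ x₂))
    rw [ly, lx, sp, d1, d3]
    have := dist_triangle p ((𝒜.ψ p₀).symm w) x₂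
    linarith
  · have e1 := smb_part F1 a a
    have e2 := B1 a
    rw [← e1] at e2
    exact e2
  · have e1 := smb_part F2 a a
    have e2 := B2 a
    rw [← e1] at e2
    exact e2
  · have e3 : (fun w => G ((0, 0), w)) = fun w => 𝒜.f p p₀ (0, w) + 𝒜.f p₀ p₀ (w, 𝒜.ψ p₀ q) +
        (𝒜.f p p₀ (0, w) - (ℓ - ε)) ^ 2 := by
      funext w
      have e4 : 𝒜.f p₀ q (w, 0) = 𝒜.f p₀ p₀ (w, 𝒜.ψ p₀ q) := by
        unfold SDist.f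
        simp only
        rw [lq, sqq]
      rw [← e4]
    rw [← e3]
    exact ha

/-- the distance function is smooth on `0 < d < π` -/
theorem contDiffAt_f (hB : Bl M) {p q : M} (h0 : 0 < dist p q) (h1 : dist p q < π) :
    ContDiffAt ℝ ∞ (𝒜.f p q) (0, 0) := by
  obtain ⟨ρ, hρ, hρs⟩ := smb_scale 𝒜
  -- small distances
  have base : ∀ p q : M, 0 < dist p q → dist p q < ρ → ContDiffAt ℝ ∞ (𝒜.f p q) (0, 0) := by
    intro p q h0 h1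
    obtain ⟨p₀, hp₀⟩ := hρs p
    obtain ⟨s1, hF⟩ := hp₀ p (by rw [dist_self]; exact hρ)
    obtain ⟨s2, -⟩ := hp₀ q (by rw [dist_comm]; exact h1)
    obtain ⟨F1, -⟩ := hF q (by rw [dist_comm]; exact h1)
    refine (smb_f_iff 𝒜 s1 s2).1 (smb_f_of_F 𝒜 F1 ?_)
    unfold SDist.f
    rw [(𝒜.ψ p₀).left_inv s1, (𝒜.ψ p₀).left_inv s2]
    exact h0.ne'
  set ε := min (ρ / 4) ((π - dist p q) / 2) with hε
  have hε0 : 0 < ε := lt_min (by linarith) (by linarith)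
  have hε1 : ε ≤ ρ / 4 := min_le_left _ _
  have hε2 : ε ≤ (π - dist p q) / 2 := min_le_right _ _
  have key : ∀ k : ℕ, ∀ p' q' : M, 0 < dist p' q' → dist p' q' ≤ (k : ℝ) * ε → dist p' q' ≤ dist p q →
      ContDiffAt ℝ ∞ (𝒜.f p' q') (0, 0) := by
    intro k
    induction k with
    | zero =>
      intro p' q' a1 a2 a3
      simp at a2
      rw [a2, dist_self] at a1
      exact absurd a1 (lt_irrefl _)
    | succ k ih =>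
      intro p' q' a1 a2 a3
      by_cases hs : dist p' q' < ρ
      · exact base p' q' a1 hs
      · have hs := not_lt.1 hs
        refine smb_step 𝒜 hB hρs hε0 (by linarith) (by linarith) (by linarith) fun y hy => ?_
        have hy0 : 0 < dist p' y := by rw [hy]; linarith
        refine ih p' y hy0 ?_ (by rw [hy]; linarith)
        rw [hy]
        push_cast at a2
        linarith
  obtain ⟨k, hk⟩ := exists_nat_ge (dist p q / ε)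
  refine key k p q h0 ?_ le_rfl
  rw [div_le_iff₀ hε0] at hk
  exact hk

/-- `d² / 2` is smooth on `d < π` -/
theorem contDiffAt_F (hB : Bl M) {p q : M} (h1 : dist p q < π) : ContDiffAt ℝ ∞ (𝒜.F p q) (0, 0) := by
  by_cases h0 : p = q
  · subst h0
    exact (smb_F_diag 𝒜 p).self_of_nhds
  · have := contDiffAt_f 𝒜 hB (dist_pos.2 h0) h1
    exact (this.pow 2).div_const 2

end Pool.Agent.Lib.MP_ccbbf6_gt.Geo
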