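import Pool.Agent.Lib.MP_ccbbf6_gt.Geo.SMa
import Pool.Agent.Lib.MP_ccbbf6_gt.Geo.SMb

/-!
# SMc: first order, symmetry (helper59)
-/

set_option autoImplicit false

open Set Filter Topology Metric Real
open scoped ContDiff RealInnerProductSpace

noncomputable section

namespace Pool.Agent.Lib.MP_ccbbf6_gt.Geo

section Calc

variable {V W : Type*} [NormedAddCommGroup V] [NormedSpace ℝ V] [NormedAddCommGroup W] [NormedSpace ℝ W]

/-- the mixed derivative, first variable first -/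
theorem smc_mixed {G : V × W → ℝ} {u : V} {v : W} (h : ContDiffAt ℝ 2 G (u, v)) (a : V) (b : W) :
    fderiv ℝ (fun v' => fderiv ℝ (fun u' => G (u', v')) u) v b a = fderiv ℝ (fderiv ℝ G) (u, v) (0, b) (a, 0) := by
  have h1 : (fun v' => fderiv ℝ (fun u' => G (u', v')) u) =ᶠ[𝓝 v]
      fun v' => (fderiv ℝ G (u, v')).comp (ContinuousLinearMap.inl ℝ V W) := by
    have hc : Tendsto (fun v' : W => (u, v')) (𝓝 v) (𝓝 (u, v)) := (Continuous.prodMk_right u).tendsto v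
    filter_upwards [hc.eventually (sm0_ev h)] with v' hv'
    exact sm0_fderiv_fst hv'
  rw [h1.fderiv_eq]
  have h2 : HasFDerivAt (fun v' : W => fderiv ℝ G (u, v'))
      ((fderiv ℝ (fderiv ℝ G) (u, v)).comp (ContinuousLinearMap.inr ℝ V W)) v :=
    (sm0_d2 h).hasFDerivAt.comp v (hasFDerivAt_prodMk_right u v)
  have h3 := (((ContinuousLinearMap.compL ℝ V (V × W) ℝ).flip (ContinuousLinearMap.inl ℝ V W)).hasFDerivAt.comp v h2)
  have h4 : HasFDerivAt (fun v' : W => (fderiv ℝ G (u, v')).comp (ContinuousLinearMap.inl ℝ V W))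
      (((ContinuousLinearMap.compL ℝ V (V × W) ℝ).flip (ContinuousLinearMap.inl ℝ V W)).comp
        ((fderiv ℝ (fderiv ℝ G) (u, v)).comp (ContinuousLinearMap.inr ℝ V W))) v := h3
  rw [h4.fderiv]
  rfl

/-- a functional of norm at most one which is one on a unit vector -/
theorem smc_riesz {n : ℕ} {L : Eu n →L[ℝ] ℝ} (hL : ‖L‖ ≤ 1) {v : Eu n} (hv : ‖v‖ = 1) (h : L v = 1) (a : Eu n) :
    L a = ⟪v, a⟫ := by
  set w : Eu n := (InnerProductSpace.toDual ℝ (Eu n)).symm L with hw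
  have h1 : ∀ x, ⟪w, x⟫ = L x := fun x => InnerProductSpace.toDual_symm_apply
  have h2 : ‖w‖ ≤ 1 := by rw [hw, LinearIsometryEquiv.norm_map]; exact hL
  have h3 : ‖w - v‖ ^ 2 ≤ 0 := by
    rw [norm_sub_sq_real, h1, h, hv]
    nlinarith [norm_nonneg w]
  have h4 : w = v := by
    have : ‖w - v‖ = 0 := by nlinarith [norm_nonneg (w - v), sq_nonneg (‖w - v‖)]
    exact sub_eq_zero.1 (norm_eq_zero.1 this)
  rw [← h1, h4]

end Calc

section

variable {n : ℕ} {M : Type*} [MetricSpace M] (𝒜 : SDist n M)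

theorem smc_norm_le (p q : M) : ‖fderiv ℝ (fun u => dist ((𝒜.ψ p).symm u) q) 0‖ ≤ 1 := by
  refine le_of_forall_pos_le_add fun ε hε => ?_
  refine norm_fderiv_le_of_lip' ℝ (by positivity) ?_
  have hc : Tendsto (fun u : Eu n => (u, (0 : Eu n))) (𝓝 0) (𝓝 (0, 0)) := (Continuous.prodMk_left (0 : Eu n)).tendsto 0
  filter_upwards [hc.eventually (𝒜.metric p ε hε)] with u hu
  simp only [sub_zero] at hu ⊢
  rw [Real.norm_eq_abs]
  have h1 := abs_dist_sub_le ((𝒜.ψ p).symm u) ((𝒜.ψ p).symm 0) q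
  have h2 := (abs_le.1 hu).2
  linarith

theorem smc_abs_le (p q : M) (a : Eu n) : |fderiv ℝ (fun u => dist ((𝒜.ψ p).symm u) q) 0 a| ≤ ‖a‖ := by
  have h := (fderiv ℝ (fun u => dist ((𝒜.ψ p).symm u) q) 0).le_opNorm a
  rw [Real.norm_eq_abs] at h
  exact h.trans (mul_le_of_le_one_left (norm_nonneg a) (smc_norm_le 𝒜 p q))

theorem smc_D1_eq (p q : M) : 𝒜.D1 p q = fderiv ℝ (fun u => dist ((𝒜.ψ p).symm u) q) 0 := by
  unfold SDist.D1 SDist.f
  simp only [symm_zero]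

theorem smc_continuousAt {c : ℝ → M} (hc : IsGeo c) (s : ℝ) : ContinuousAt c s := by
  rw [ContinuousAt, tendsto_iff_dist_tendsto_zero]
  have h1 : Tendsto (fun t : ℝ => |t - s|) (𝓝 s) (𝓝 0) := by
    have : Tendsto (fun t : ℝ => |t - s|) (𝓝 s) (𝓝 |s - s|) := (continuous_id.sub continuous_const).abs.tendsto s
    rwa [sub_self, abs_zero] at this
  refine h1.congr' ?_
  filter_upwards [h1.eventually (ge_mem_nhds Real.pi_pos)] with t ht
  exact (hc t s ht).symm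

end

variable {n : ℕ} {M : Type*} [MetricSpace M] [CompactSpace M] (𝒜 : SDist n M)

theorem smc_two (hB : Bl M) {p q : M} (h0 : 0 < dist p q) (h1 : dist p q < π) : ContDiffAt ℝ 2 (𝒜.f p q) (0, 0) :=
  (contDiffAt_f 𝒜 hB h0 h1).of_le two_le_infty

/-- the derivative of the distance in the direction of the geodesic -/
theorem smc_D1_vel (hB : Bl M) {c : ℝ → M} (hc : IsGeo c) {s t : ℝ} (h0 : s ≠ t) (h1 : |s - t| < π) :
    𝒜.D1 (c s) (c t) (𝒜.vel c s) = ((SignType.sign (s - t) : SignType) : ℝ) := by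
  have hd : dist (c s) (c t) = |s - t| := hc s t h1.le
  have hf : ContDiffAt ℝ 2 (𝒜.f (c s) (c t)) (0, 0) :=
    smc_two 𝒜 hB (by rw [hd]; exact abs_pos.2 (sub_ne_zero.2 h0)) (by rw [hd]; exact h1)
  have h2 : HasFDerivAt (fun u => dist ((𝒜.ψ (c s)).symm u) (c t)) (𝒜.D1 (c s) (c t)) 0 := by
    have e1 : DifferentiableAt ℝ (fun u : Eu n => 𝒜.f (c s) (c t) (u, 0)) 0 := by
      have e0 : HasFDerivAt (fun u : Eu n => 𝒜.f (c s) (c t) (u, 0)) _ 0 :=
        HasFDerivAt.comp (f := fun u : Eu n => (u, (0 : Eu n))) (0 : Eu n)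
          (hf.differentiableAt (by norm_num)).hasFDerivAt (hasFDerivAt_prodMk_left (0 : Eu n) (0 : Eu n))
      exact e0.differentiableAt
    have e2 : (fun u : Eu n => 𝒜.f (c s) (c t) (u, 0)) = fun u => dist ((𝒜.ψ (c s)).symm u) (c t) := by
      funext u
      unfold SDist.f
      simp only [symm_zero]
    rw [smc_D1_eq, ← e2]
    exact e1.hasFDerivAt
  have h3 : HasDerivAt (fun τ => 𝒜.ψ (c s) (c τ)) (𝒜.vel c s) s := (IsGeo.exists_vel 𝒜 hc s).2
  have h4 : HasDerivAt (fun τ => dist ((𝒜.ψ (c s)).symm (𝒜.ψ (c s) (c τ))) (c t)) (𝒜.D1 (c s) (c t) (𝒜.vel c s)) s :=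
    HasFDerivAt.comp_hasDerivAt_of_eq s h2 h3 (𝒜.zero (c s)).symm
  have h5 : HasDerivAt (fun τ : ℝ => |τ - t|) ((SignType.sign (s - t) : SignType) : ℝ) s := by
    have := (hasDerivAt_abs (sub_ne_zero.2 h0)).comp s ((hasDerivAt_id s).sub_const t)
    rwa [mul_one] at this
  refine h4.unique (h5.congr_of_eventuallyEq ?_)
  have h6 : ∀ᶠ τ in 𝓝 s, |τ - t| ≤ π := by
    have : Tendsto (fun τ : ℝ => |τ - t|) (𝓝 s) (𝓝 |s - t|) := (continuous_id.sub continuous_const).abs.tendsto s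
    exact (this.eventually (gt_mem_nhds h1)).mono fun τ hτ => hτ.le
  filter_upwards [h6, (smc_continuousAt hc s).eventually ((𝒜.ψ (c s)).open_source.mem_nhds (𝒜.mem (c s)))] with τ h7 h8
  rw [(𝒜.ψ (c s)).left_inv h8]
  exact hc τ t h7

theorem D1_forward (hB : Bl M) {c : ℝ → M} (hc : IsGeo c) {s t : ℝ} (h0 : 0 < t) (h1 : t < π) (a : Eu n) :
    𝒜.D1 (c s) (c (s + t)) a = -⟪𝒜.vel c s, a⟫ := by
  have h2 := smc_D1_vel 𝒜 hB hc (s := s) (t := s + t) (by linarith) (by rw [sub_add_cancel_left, abs_neg, abs_of_pos h0]; exact h1)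
  rw [sub_add_cancel_left, sign_neg (neg_lt_zero.2 h0)] at h2
  have h3 := smc_riesz (L := -𝒜.D1 (c s) (c (s + t))) (by rw [norm_neg, smc_D1_eq]; exact smc_norm_le 𝒜 _ _)
    (IsGeo.exists_vel 𝒜 hc s).1 (by rw [neg_apply, h2]; simp) a
  rw [neg_apply] at h3
  linarith

theorem D1_backward (hB : Bl M) {c : ℝ → M} (hc : IsGeo c) {s t : ℝ} (h0 : 0 < t) (h1 : t < π) (a : Eu n) :
    𝒜.D1 (c s) (c (s - t)) a = ⟪𝒜.vel c s, a⟫ := by
  have h2 := smc_D1_vel 𝒜 hB hc (s := s) (t := s - t) (by linarith) (by rw [sub_sub_cancel, abs_of_pos h0]; exact h1)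
  rw [sub_sub_cancel, sign_pos h0] at h2
  exact smc_riesz (by rw [smc_D1_eq]; exact smc_norm_le 𝒜 _ _) (IsGeo.exists_vel 𝒜 hc s).1 (by rw [h2]; simp) a

theorem H_symm (hB : Bl M) {p q : M} (h0 : 0 < dist p q) (h1 : dist p q < π) (a b : Eu n) :
    𝒜.H p q a b = 𝒜.H p q b a := by
  have h := smc_two 𝒜 hB h0 h1
  unfold SDist.H
  rw [sm0_second_fst h, sm0_second_fst h, sm0_symm h]

theorem smc_B_eq (hB : Bl M) {p q : M} (h0 : 0 < dist p q) (h1 : dist p q < π) (a b : Eu n) :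
    𝒜.B p q a b = fderiv ℝ (fderiv ℝ (𝒜.f p q)) (0, 0) (a, 0) (0, b) := by
  unfold SDist.B
  rw [sm0_mixed (smc_two 𝒜 hB h0 h1)]

theorem B_symm (hB : Bl M) {p q : M} (h0 : 0 < dist p q) (h1 : dist p q < π) (a b : Eu n) :
    𝒜.B p q a b = 𝒜.B q p b a := by
  have h := smc_two 𝒜 hB h0 h1
  have h2 : 𝒜.B q p b a = fderiv ℝ (fderiv ℝ (𝒜.f p q)) (0, 0) (0, b) (a, 0) := by
    rw [← smc_mixed h]
    unfold SDist.B SDist.f
    simp only [dist_comm]
  rw [smc_B_eq 𝒜 hB h0 h1, h2, sm0_symm h]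

theorem B_vel (hB : Bl M) {c : ℝ → M} (hc : IsGeo c) {s t : ℝ} (h0 : s ≠ t) (h1 : |s - t| < π) (b : Eu n) :
    𝒜.B (c s) (c t) (𝒜.vel c s) b = 0 := by
  have hd : dist (c s) (c t) = |s - t| := hc s t h1.le
  have hp0 : 0 < dist (c s) (c t) := by rw [hd]; exact abs_pos.2 (sub_ne_zero.2 h0)
  have hp1 : dist (c s) (c t) < π := by rw [hd]; exact h1
  rw [B_symm 𝒜 hB hp0 hp1, smc_B_eq 𝒜 hB (by rwa [dist_comm]) (by rwa [dist_comm])]
  set p := c s with hp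
  set q := c t with hq
  set v := 𝒜.vel c s with hv
  have hf : ContDiffAt ℝ 2 (𝒜.f q p) (0, 0) := smc_two 𝒜 hB (by rwa [dist_comm]) (by rwa [dist_comm])
  have hg : HasFDerivAt (fun u : Eu n => fderiv ℝ (𝒜.f q p) (u, 0) (0, v))
      (((fderiv ℝ (fderiv ℝ (𝒜.f q p)) (0, 0)).comp (ContinuousLinearMap.inl ℝ (Eu n) (Eu n))).flip (0, v)) 0 := by
    have h2 : HasFDerivAt (fun u : Eu n => fderiv ℝ (𝒜.f q p) (u, 0))
        ((fderiv ℝ (fderiv ℝ (𝒜.f q p)) (0, 0)).comp (ContinuousLinearMap.inl ℝ (Eu n) (Eu n))) 0 :=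
      HasFDerivAt.comp (f := fun u : Eu n => (u, (0 : Eu n))) (0 : Eu n) (sm0_d2 hf).hasFDerivAt
        (hasFDerivAt_prodMk_left (0 : Eu n) (0 : Eu n))
    exact h2.clm_apply (hasFDerivAt_const ((0 : Eu n), v) 0) |>.congr_fderiv (by ext; simp)
  have hK : ∀ u : Eu n, DifferentiableAt ℝ (𝒜.f q p) (u, 0) →
      fderiv ℝ (𝒜.f q p) (u, 0) (0, v) = fderiv ℝ (fun w => dist ((𝒜.ψ p).symm w) ((𝒜.ψ q).symm u)) 0 v := by
    intro u hu
    have e1 : (fun w => dist ((𝒜.ψ p).symm w) ((𝒜.ψ q).symm u)) = fun w => 𝒜.f q p (u, w) := by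
      funext w
      unfold SDist.f
      rw [dist_comm]
    rw [e1, sm0_fderiv_snd hu]
    rfl
  have hc' : Tendsto (fun u : Eu n => (u, (0 : Eu n))) (𝓝 0) (𝓝 (0, 0)) := (Continuous.prodMk_left (0 : Eu n)).tendsto 0
  have hle : ∀ᶠ u in 𝓝 (0 : Eu n), |fderiv ℝ (𝒜.f q p) (u, 0) (0, v)| ≤ 1 := by
    filter_upwards [hc'.eventually (sm0_ev hf)] with u hu
    rw [hK u hu]
    have := smc_abs_le 𝒜 p ((𝒜.ψ q).symm u) v
    rwa [(IsGeo.exists_vel 𝒜 hc s).1] at this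
  have hv0 : fderiv ℝ (𝒜.f q p) (0, 0) (0, v) = ((SignType.sign (s - t) : SignType) : ℝ) := by
    rw [hK 0 (hf.differentiableAt (by norm_num)), symm_zero, ← smc_D1_eq]
    exact smc_D1_vel 𝒜 hB hc h0 h1
  have hz : fderiv ℝ (fun u : Eu n => fderiv ℝ (𝒜.f q p) (u, 0) (0, v)) 0 = 0 := by
    rcases lt_or_gt_of_ne h0 with hlt | hgt
    · rw [sign_neg (sub_neg.2 hlt)] at hv0
      refine IsLocalMin.fderiv_eq_zero ?_
      filter_upwards [hle] with u hu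
      rw [hv0]
      simpa using (abs_le.1 hu).1
    · rw [sign_pos (sub_pos.2 hgt)] at hv0
      refine IsLocalMax.fderiv_eq_zero ?_
      filter_upwards [hle] with u hu
      rw [hv0]
      simpa using (abs_le.1 hu).2
  rw [hg.fderiv] at hz
  have := congrArg (fun L => L b) hz
  simpa using this

end Pool.Agent.Lib.MP_ccbbf6_gt.Geo
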