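import Pool.Agent.Lib.MP_ccbbf6_gt.CL.Tay
import Pool.Agent.Lib.MP_ccbbf6_gt.Geo.SMc

/-!
# CZ, part 1: uniform Taylor expansions of the distance function
-/

set_option autoImplicit false
set_option linter.unusedSectionVars false

open Set Filter Topology Metric Real
open scoped ContDiff RealInnerProductSpace

noncomputable section

namespace Pool.Agent.Lib.MP_ccbbf6_gt.Geo

variable {n : ℕ} {M : Type*} [MetricSpace M] [CompactSpace M] (𝒜 : SDist n M)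

theorem two_le_inf : (2 : WithTop ℕ∞) ≤ ∞ := ENat.LEInfty.out

theorem f_left (p x : M) (u : Eu n) : 𝒜.f p x (u, 0) = dist ((𝒜.ψ p).symm u) x := by
  unfold SDist.f
  simp only
  rw [symm_zero]

theorem f_swap (p q : M) (u v : Eu n) : 𝒜.f p q (u, v) = 𝒜.f q p (v, u) := by
  unfold SDist.f
  exact dist_comm _ _

/-- small balls are in the domain of the chart -/
theorem exists_ball (p : M) {ε : ℝ} (hε : 0 < ε) : ∃ ρ : ℝ, 0 < ρ ∧ ∀ x, dist p x < ρ →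
    x ∈ (𝒜.ψ p).source ∧ ‖𝒜.ψ p x‖ < ε := by
  have h1 : ∀ᶠ x in 𝓝 p, x ∈ (𝒜.ψ p).source := (𝒜.ψ p).open_source.mem_nhds (𝒜.mem p)
  have h2 : ContinuousAt (𝒜.ψ p) p := (𝒜.ψ p).continuousAt (𝒜.mem p)
  have h3 : ∀ᶠ x in 𝓝 p, ‖𝒜.ψ p x‖ < ε := by
    have h4 : Tendsto (fun x => ‖𝒜.ψ p x‖) (𝓝 p) (𝓝 0) := by
      have := h2.norm.tendsto
      rwa [𝒜.zero, norm_zero] at this
    exact h4.eventually (eventually_lt_nhds hε)
  obtain ⟨ρ, hρ, h⟩ := Metric.eventually_nhds_iff.1 (h1.and h3)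
  exact ⟨ρ, hρ, fun x hx => h (by rwa [dist_comm] at hx)⟩

/-- uniform Taylor expansion of the distance functions of the points at distance between `1/2` and `3/2` -/
theorem ut (hB : Bl M) (q : M) : ∃ η C : ℝ, 0 < η ∧ 0 ≤ C ∧ ∀ x, 1 / 2 ≤ dist q x → dist q x ≤ 3 / 2 →
    ∀ u : Eu n, ‖u‖ < η → |dist ((𝒜.ψ q).symm u) x - dist q x - 𝒜.D1 q x u| ≤ C * ‖u‖ ^ 2 := by
  set S : Set M := {x | 1 / 2 ≤ dist q x ∧ dist q x ≤ 3 / 2} with hS
  have hSc : IsCompact S := by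
    apply IsClosed.isCompact
    exact (isClosed_le continuous_const (continuous_const.dist continuous_id)).inter
      (isClosed_le (continuous_const.dist continuous_id) continuous_const)
  have hloc : ∀ x0 ∈ S, ∃ (N : Set M) (δ C : ℝ), N ∈ 𝓝 x0 ∧ 0 < δ ∧ 0 ≤ C ∧ ∀ x ∈ N, ∀ u : Eu n, ‖u‖ < δ →
      |dist ((𝒜.ψ q).symm u) x - dist q x - 𝒜.D1 q x u| ≤ C * ‖u‖ ^ 2 := by
    intro x0 hx0
    have hπ := Real.pi_gt_three
    have h1 : ContDiffAt ℝ ∞ (𝒜.f q x0) (0, 0) :=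
      contDiffAt_f 𝒜 hB (by linarith [hx0.1]) (by linarith [hx0.2])
    obtain ⟨δ, C, hδ, hC, h⟩ := CL.taylor_fst (h1.of_le two_le_inf)
    obtain ⟨ρ, hρ, hρ'⟩ := exists_ball 𝒜 x0 hδ
    refine ⟨ball x0 ρ, δ, C, ball_mem_nhds _ hρ, hδ, hC, fun x hx u hu => ?_⟩
    obtain ⟨hxs, hxn⟩ := hρ' x (by rwa [mem_ball'] at hx)
    have h2 := h (𝒜.ψ x0 x) (by rwa [sub_zero]) u hu
    have e : ∀ u : Eu n, 𝒜.f q x0 (u, 𝒜.ψ x0 x) = dist ((𝒜.ψ q).symm u) x := by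
      intro u
      unfold SDist.f
      simp only
      rw [(𝒜.ψ x0).left_inv hxs]
    have e2 : (fun u => 𝒜.f q x0 (u, 𝒜.ψ x0 x)) = fun u => 𝒜.f q x (u, 0) := by
      funext u
      rw [e, f_left]
    rw [e2, e, e, symm_zero] at h2
    exact h2
  choose! N δ C hN hδ hC h using hloc
  obtain ⟨T, hT, hcov⟩ := hSc.elim_nhds_subcover N hN
  rcases T.eq_empty_or_nonempty with rfl | hne
  · refine ⟨1, 0, one_pos, le_rfl, fun x h1 h2 => ?_⟩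
    have := hcov (show x ∈ S from ⟨h1, h2⟩)
    simp at this
  refine ⟨T.inf' hne δ, ∑ v ∈ T, C v, ?_, Finset.sum_nonneg fun v hv => hC v (hT v hv), ?_⟩
  · rw [Finset.lt_inf'_iff]
    exact fun v hv => hδ v (hT v hv)
  · intro x h1 h2 u hu
    obtain ⟨w, hw, hxw⟩ := mem_iUnion₂.1 (hcov (show x ∈ S from ⟨h1, h2⟩))
    rw [Finset.lt_inf'_iff] at hu
    refine (h w (hT w hw) x hxw u (hu w hw)).trans ?_
    refine mul_le_mul_of_nonneg_right ?_ (sq_nonneg _)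
    exact Finset.single_le_sum (f := C) (fun v hv => hC v (hT v hv)) hw

/-- first variation -/
theorem fv (hB : Bl M) (q p : M) : ∃ η C : ℝ, 0 < η ∧ 0 ≤ C ∧ ∀ c : ℝ → M, IsGeo c → c 0 = q → c π = p →
    ∀ a b : Eu n, ‖a‖ < η → ‖b‖ < η →
      𝒜.f q p (a, b) ≤ π - ⟪a, 𝒜.vel c 0⟫ + ⟪b, 𝒜.vel c π⟫ + C * (‖a‖ ^ 2 + ‖b‖ ^ 2) := by
  obtain ⟨η1, C1, hη1, hC1, h1⟩ := ut 𝒜 hB q
  obtain ⟨η2, C2, hη2, hC2, h2⟩ := ut 𝒜 hB p
  refine ⟨min η1 η2, max C1 C2, lt_min hη1 hη2, le_max_of_le_left hC1, fun c hc h0 hπ a b ha hb => ?_⟩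
  have hpi := Real.pi_gt_three
  obtain ⟨ha1, -⟩ := lt_min_iff.1 ha
  obtain ⟨-, hb2⟩ := lt_min_iff.1 hb
  have d1 : dist (c 0) (c 1) = 1 := by
    rw [hc 0 1 (by rw [zero_sub, abs_neg, abs_one]; linarith), zero_sub, abs_neg, abs_one]
  have d2 : dist (c 1) (c (π - 1)) = π - 2 := by
    rw [hc 1 (π - 1) (by rw [abs_le]; constructor <;> linarith), abs_of_nonpos (by linarith)]
    ring
  have d3 : dist (c π) (c (π - 1)) = 1 := by
    rw [hc π (π - 1) (by rw [sub_sub_cancel, abs_one]; linarith), sub_sub_cancel, abs_one]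
  have k1 := h1 (c 1) (by rw [← h0, d1]; norm_num) (by rw [← h0, d1]; norm_num) a ha1
  have k2 := h2 (c (π - 1)) (by rw [← hπ, d3]; norm_num) (by rw [← hπ, d3]; norm_num) b hb2
  have g1 := D1_forward 𝒜 hB hc (s := 0) (t := 1) one_pos (by linarith) a
  have g2 := D1_backward 𝒜 hB hc (s := π) (t := 1) one_pos (by linarith) b
  rw [zero_add, real_inner_comm] at g1
  rw [real_inner_comm] at g2
  rw [h0] at g1 d1
  rw [hπ] at g2 d3
  rw [g1, d1] at k1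
  rw [g2, d3] at k2
  have k1' := (abs_le.1 k1).2
  have k2' := (abs_le.1 k2).2
  have tri : 𝒜.f q p (a, b) ≤ dist ((𝒜.ψ q).symm a) (c 1) + dist (c 1) (c (π - 1)) +
      dist ((𝒜.ψ p).symm b) (c (π - 1)) := by
    unfold SDist.f
    simp only
    have := dist_triangle4 ((𝒜.ψ q).symm a) (c 1) (c (π - 1)) ((𝒜.ψ p).symm b)
    rwa [dist_comm (c (π - 1)) ((𝒜.ψ p).symm b)] at this
  have m1 : C1 * ‖a‖ ^ 2 ≤ max C1 C2 * ‖a‖ ^ 2 := mul_le_mul_of_nonneg_right (le_max_left _ _) (sq_nonneg _)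
  have m2 : C2 * ‖b‖ ^ 2 ≤ max C1 C2 * ‖b‖ ^ 2 := mul_le_mul_of_nonneg_right (le_max_right _ _) (sq_nonneg _)
  linarith

end Pool.Agent.Lib.MP_ccbbf6_gt.Geo
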