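import Pool.Agent.Lib.MP_ccbbf6_gt.Geo.EXa
import Pool.Agent.Lib.MP_ccbbf6_gt.Geo.SMe

/-!
# EXb: smooth dependence of geodesics on their end points (helper34)

* `contDiffAt_gd`: `Ψ (u, v) = (u, ∇_u F p y (u, v))` is a local diffeomorphism at `(0, 0)` (`theta_pos`), and for `|s'| < π` the gradient at
  `p'` of the function `d(., gd p' q' s') ^ 2 / 2` is `s' / d(p', q')` times the gradient of `d(., q') ^ 2 / 2`. Larger parameters: step by step.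
* `contDiffAt_Ex`: the same in the ball of radius `π`, beyond through `contDiffAt_gd`.
-/

set_option autoImplicit false

open Set Filter Topology Metric Real
open scoped ContDiff RealInnerProductSpace

noncomputable section

namespace Pool.Agent.Lib.MP_ccbbf6_gt.Geo

/-! ## calculus: the mixed second derivative of a function of two variables -/

section Calc

variable {E₁ E₂ : Type*} [NormedAddCommGroup E₁] [NormedSpace ℝ E₁] [NormedAddCommGroup E₂] [NormedSpace ℝ E₂]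

theorem exc_partial2 {G : E₁ × E₂ → ℝ} {u : E₁} {v : E₂} (h : DifferentiableAt ℝ G (u, v)) (b : E₂) :
    fderiv ℝ (fun v' => G (u, v')) v b = fderiv ℝ G (u, v) (0, b) := by
  have h1 : HasFDerivAt (fun v' : E₂ => G (u, v')) ((fderiv ℝ G (u, v)).comp (ContinuousLinearMap.inr ℝ E₁ E₂)) v :=
    HasFDerivAt.comp v h.hasFDerivAt (hasFDerivAt_prodMk_right u v)
  rw [h1.fderiv]
  rfl

theorem exc_partial1 {G : E₁ × E₂ → ℝ} {u : E₁} {v : E₂} (h : DifferentiableAt ℝ G (u, v)) (a : E₁) :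
    fderiv ℝ (fun u' => G (u', v)) u a = fderiv ℝ G (u, v) (a, 0) := by
  have h1 : HasFDerivAt (fun u' : E₁ => G (u', v)) ((fderiv ℝ G (u, v)).comp (ContinuousLinearMap.inl ℝ E₁ E₂)) u :=
    HasFDerivAt.comp u h.hasFDerivAt (hasFDerivAt_prodMk_left u v)
  rw [h1.fderiv]
  rfl

theorem exc_diff {G : E₁ × E₂ → ℝ} {z : E₁ × E₂} (hG : ContDiffAt ℝ 2 G z) :
    (∀ᶠ y in 𝓝 z, DifferentiableAt ℝ G y) ∧ DifferentiableAt ℝ (fderiv ℝ G) z := by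
  refine ⟨?_, ?_⟩
  · have h1 := hG.eventually (by decide)
    filter_upwards [h1] with y hy
    exact hy.differentiableAt (by decide)
  · have h1 : ContDiffAt ℝ 1 (fderiv ℝ G) z := hG.fderiv_right (by norm_num)
    exact h1.differentiableAt (by decide)

/-- the mixed derivative, `D₁ D₂` -/
theorem exc_mixed {G : E₁ × E₂ → ℝ} {u : E₁} {v : E₂} (hG : ContDiffAt ℝ 2 G (u, v)) (a : E₁) (b : E₂) :
    fderiv ℝ (fun u' => fderiv ℝ (fun v' => G (u', v')) v) u a b = fderiv ℝ (fderiv ℝ G) (u, v) (a, 0) (0, b) := by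
  obtain ⟨h1, h2⟩ := exc_diff hG
  have h3 : ∀ᶠ u' in 𝓝 u, fderiv ℝ (fun v' => G (u', v')) v
      = (fderiv ℝ G (u', v)).comp (ContinuousLinearMap.inr ℝ E₁ E₂) := by
    have h4 : Tendsto (fun u' : E₁ => (u', v)) (𝓝 u) (𝓝 (u, v)) := by
      have : Continuous fun u' : E₁ => (u', v) := by fun_prop
      exact this.continuousAt
    filter_upwards [h4.eventually h1] with u' hu'
    exact (HasFDerivAt.comp v hu'.hasFDerivAt (hasFDerivAt_prodMk_right u' v)).fderiv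
  have h5 : HasFDerivAt (fun u' : E₁ => fderiv ℝ G (u', v))
      ((fderiv ℝ (fderiv ℝ G) (u, v)).comp (ContinuousLinearMap.inl ℝ E₁ E₂)) u :=
    HasFDerivAt.comp u h2.hasFDerivAt (hasFDerivAt_prodMk_left u v)
  have h6 : HasFDerivAt (fun u' : E₁ => (fderiv ℝ G (u', v)).comp (ContinuousLinearMap.inr ℝ E₁ E₂))
      ((ContinuousLinearMap.compL ℝ E₂ (E₁ × E₂) ℝ).flip (ContinuousLinearMap.inr ℝ E₁ E₂) ∘L
        ((fderiv ℝ (fderiv ℝ G) (u, v)).comp (ContinuousLinearMap.inl ℝ E₁ E₂))) u :=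
    HasFDerivAt.comp u ((ContinuousLinearMap.compL ℝ E₂ (E₁ × E₂) ℝ).flip
      (ContinuousLinearMap.inr ℝ E₁ E₂)).hasFDerivAt h5
  have h7 := h6.congr_of_eventuallyEq h3
  rw [h7.fderiv]
  rfl

theorem exc_mixed_symm {G : E₁ × E₂ → ℝ} {u : E₁} {v : E₂} (hG : ContDiffAt ℝ 2 G (u, v)) (a : E₁) (b : E₂) :
    fderiv ℝ (fderiv ℝ G) (u, v) (a, 0) (0, b) = fderiv ℝ (fderiv ℝ G) (u, v) (0, b) (a, 0) := by
  have h1 : IsSymmSndFDerivAt ℝ G (u, v) := hG.isSymmSndFDerivAt (by simp)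
  exact h1 _ _

/-- derivative of `η ↦ D₁ G (u, Φ η)` -/
theorem exc_chain {E₃ : Type*} [NormedAddCommGroup E₃] [NormedSpace ℝ E₃] {G : E₁ × E₂ → ℝ} {u : E₁} {Φ : E₃ → E₂} {ξ : E₃}
    {Φ' : E₃ →L[ℝ] E₂} (hG : ContDiffAt ℝ 2 G (u, Φ ξ)) (hΦ : HasFDerivAt Φ Φ' ξ) (a : E₁) :
    HasFDerivAt (fun η => fderiv ℝ (fun u' => G (u', Φ η)) u a)
      ((ContinuousLinearMap.apply ℝ ℝ ((a, 0) : E₁ × E₂)).comp ((fderiv ℝ (fderiv ℝ G) (u, Φ ξ)).comp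
        ((ContinuousLinearMap.inr ℝ E₁ E₂).comp Φ'))) ξ := by
  obtain ⟨h1, h2⟩ := exc_diff hG
  have h0 : HasFDerivAt (fun η : E₃ => (u, Φ η)) ((ContinuousLinearMap.inr ℝ E₁ E₂).comp Φ') ξ :=
    HasFDerivAt.comp ξ (hasFDerivAt_prodMk_right u (Φ ξ)) hΦ
  have h3 : ∀ᶠ η in 𝓝 ξ, fderiv ℝ (fun u' => G (u', Φ η)) u a = fderiv ℝ G (u, Φ η) (a, 0) := by
    filter_upwards [h0.continuousAt.eventually h1] with η hη
    exact exc_partial1 hη a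
  have h5 : HasFDerivAt (fun η => fderiv ℝ G (u, Φ η)) ((fderiv ℝ (fderiv ℝ G) (u, Φ ξ)).comp
        ((ContinuousLinearMap.inr ℝ E₁ E₂).comp Φ')) ξ := HasFDerivAt.comp (g := fderiv ℝ G) ξ h2.hasFDerivAt h0
  have h6 := HasFDerivAt.comp (g := fun L => ContinuousLinearMap.apply ℝ ℝ ((a, 0) : E₁ × E₂) L) ξ
    (ContinuousLinearMap.apply ℝ ℝ ((a, 0) : E₁ × E₂)).hasFDerivAt h5
  exact h6.congr_of_eventuallyEq h3

end Calc

section Base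

variable {n : ℕ} {M : Type*} [MetricSpace M] [CompactSpace M] (𝒜 : SDist n M)

theorem exc_symm_zero (p : M) : (𝒜.ψ p).symm 0 = p := by
  have h := (𝒜.ψ p).left_inv (𝒜.mem p)
  rw [𝒜.zero] at h
  exact h

theorem exc_f_zero (p q : M) : 𝒜.f p q (0, 0) = dist p q := by
  unfold SDist.f
  rw [exc_symm_zero, exc_symm_zero]

/-- `D₁ F (p, Ex p ξ) = - ξ` -/
theorem fderiv_F_Ex (hB : Bl M) (p : M) {ξ : Eu n} (h : ‖ξ‖ < π) (a : Eu n) :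
    fderiv ℝ (fun u => 𝒜.F p (𝒜.Ex p ξ) (u, 0)) 0 a = -⟪ξ, a⟫ := by
  by_cases h0 : ξ = 0
  · rw [h0, Ex_zero 𝒜 hB, inner_zero_left, neg_zero]
    have h1 : IsLocalMin (fun u => 𝒜.F p p (u, 0)) 0 := by
      refine Filter.Eventually.of_forall fun u => ?_
      have e : 𝒜.F p p (0, 0) = 0 := by
        unfold SDist.F
        rw [exc_f_zero, dist_self]
        norm_num
      show 𝒜.F p p (0, 0) ≤ 𝒜.F p p (u, 0)
      rw [e]
      unfold SDist.F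
      positivity
    rw [h1.fderiv_eq_zero]
    rfl
  · obtain ⟨a1, a2⟩ := exa_polar h0
    have hpos : 0 < ‖ξ‖ := norm_pos_iff.mpr h0
    obtain ⟨k1, k2, k3⟩ := gv_spec 𝒜 hB p a1
    have hd := dist_Ex 𝒜 hB p h.le
    have hq : 𝒜.Ex p ξ = 𝒜.gv p (‖ξ‖⁻¹ • ξ) (0 + ‖ξ‖) := by
      rw [zero_add]
      rfl
    have h1 := D1_forward 𝒜 hB k1 (s := 0) hpos h a
    rw [k3, ← hq, k2] at h1
    have hs : ContDiffAt ℝ ∞ (𝒜.f p (𝒜.Ex p ξ)) (0, 0) :=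
      contDiffAt_f 𝒜 hB (by rw [hd]; exact hpos) (by rw [hd]; exact h)
    have hdiff : DifferentiableAt ℝ (𝒜.f p (𝒜.Ex p ξ)) (0, 0) := hs.differentiableAt (by simp)
    have hf : HasFDerivAt (fun u => 𝒜.f p (𝒜.Ex p ξ) (u, 0))
        ((fderiv ℝ (𝒜.f p (𝒜.Ex p ξ)) (0, 0)).comp (ContinuousLinearMap.inl ℝ (Eu n) (Eu n))) 0 :=
      HasFDerivAt.comp (g := 𝒜.f p (𝒜.Ex p ξ)) (f := fun u : Eu n => (u, (0 : Eu n))) (0 : Eu n) hdiff.hasFDerivAt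
        (hasFDerivAt_prodMk_left (0 : Eu n) (0 : Eu n))
    have hf' : HasFDerivAt (fun u => 𝒜.f p (𝒜.Ex p ξ) (u, 0)) (𝒜.D1 p (𝒜.Ex p ξ)) 0 := by
      have e : 𝒜.D1 p (𝒜.Ex p ξ) = (fderiv ℝ (𝒜.f p (𝒜.Ex p ξ)) (0, 0)).comp (ContinuousLinearMap.inl ℝ (Eu n) (Eu n)) :=
        hf.fderiv
      rw [e]
      exact hf
    have hF : HasFDerivAt (fun u => 𝒜.F p (𝒜.Ex p ξ) (u, 0)) (‖ξ‖ • 𝒜.D1 p (𝒜.Ex p ξ)) 0 := by
      have h2 := (hf'.pow 2).mul_const (1 / 2 : ℝ)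
      have h3 : HasFDerivAt (fun u => 𝒜.F p (𝒜.Ex p ξ) (u, 0))
          ((1 / 2 : ℝ) • ((2 • 𝒜.f p (𝒜.Ex p ξ) (0, 0) ^ (2 - 1)) • 𝒜.D1 p (𝒜.Ex p ξ))) 0 := by
        refine h2.congr_of_eventuallyEq (Filter.Eventually.of_forall fun u => ?_)
        show 𝒜.f p (𝒜.Ex p ξ) (u, 0) ^ 2 / 2 = 𝒜.f p (𝒜.Ex p ξ) (u, 0) ^ 2 * (1 / 2)
        ring
      rw [exc_f_zero, hd] at h3
      refine h3.congr_fderiv ?_
      rw [smul_smul]
      congr 1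
      simp
    rw [hF.fderiv, _root_.smul_apply, h1, smul_eq_mul, real_inner_smul_left]
    field_simp

end Base

variable {n : ℕ}

/-! ## the inverse function theorem -/

theorem exb_inv {E : Type*} [NormedAddCommGroup E] [NormedSpace ℝ E] [FiniteDimensional ℝ E] {Ψ : E → E} {a : E}
    (h : ContDiffAt ℝ ∞ Ψ a) (hinj : Function.Injective (fderiv ℝ Ψ a)) :
    ∃ L : E → E, ContDiffAt ℝ ∞ L (Ψ a) ∧ ∀ᶠ x in 𝓝 a, L (Ψ x) = x := by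
  have : CompleteSpace E := FiniteDimensional.complete ℝ E
  set e : E ≃L[ℝ] E := (LinearEquiv.ofInjectiveEndo (fderiv ℝ Ψ a : E →ₗ[ℝ] E) hinj).toContinuousLinearEquiv with he
  have h1 : HasFDerivAt Ψ (e : E →L[ℝ] E) a := by
    have h2 : (e : E →L[ℝ] E) = fderiv ℝ Ψ a := by
      ext x
      rfl
    rw [h2]
    exact (h.differentiableAt (by simp)).hasFDerivAt
  exact ⟨h.localInverse h1 (by simp), h.to_localInverse h1 (by simp),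
    (h.hasStrictFDerivAt' h1 (by simp)).eventually_left_inverse⟩

theorem exb_lift {E Z : Type*} [NormedAddCommGroup E] [NormedSpace ℝ E] [FiniteDimensional ℝ E]
    [NormedAddCommGroup Z] [NormedSpace ℝ Z] {Ψ : E → E} {g : Z → E} {z : Z}
    (h : ContDiffAt ℝ ∞ Ψ (g z)) (hinj : Function.Injective (fderiv ℝ Ψ (g z))) (hg : ContinuousAt g z)
    (hc : ContDiffAt ℝ ∞ (fun z => Ψ (g z)) z) : ContDiffAt ℝ ∞ g z := by
  obtain ⟨L, hL, hev⟩ := exb_inv h hinj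
  have h1 : ContDiffAt ℝ ∞ (fun z => L (Ψ (g z))) z := ContDiffAt.comp z hL hc
  refine h1.congr_of_eventuallyEq ?_
  filter_upwards [hg.eventually hev] with w hw
  exact hw.symm

/-! ## the gradient in the first variable -/

/-- gradient in the first variable -/
def gr1 (G : Eu n × Eu n → ℝ) (z : Eu n × Eu n) : Eu n :=
  (InnerProductSpace.toDual ℝ (Eu n)).symm ((fderiv ℝ G z).comp (ContinuousLinearMap.inl ℝ (Eu n) (Eu n)))

theorem inner_gr1 (G : Eu n × Eu n → ℝ) (z : Eu n × Eu n) (a : Eu n) : ⟪gr1 G z, a⟫ = fderiv ℝ G z (a, 0) := by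
  unfold gr1
  rw [InnerProductSpace.toDual_symm_apply]
  rfl

theorem contDiffAt_gr1 {G : Eu n × Eu n → ℝ} {z : Eu n × Eu n} (h : ContDiffAt ℝ ∞ G z) : ContDiffAt ℝ ∞ (gr1 G) z := by
  have h1 : ContDiffAt ℝ ∞ (fderiv ℝ G) z := h.fderiv_right (by simp)
  have h2 : ContDiffAt ℝ ∞ (fun z => ((ContinuousLinearMap.compL ℝ (Eu n) (Eu n × Eu n) ℝ).flip
      (ContinuousLinearMap.inl ℝ (Eu n) (Eu n))) (fderiv ℝ G z)) z :=
    ((ContinuousLinearMap.compL ℝ (Eu n) (Eu n × Eu n) ℝ).flip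
      (ContinuousLinearMap.inl ℝ (Eu n) (Eu n))).contDiff.contDiffAt.comp z h1
  exact ((InnerProductSpace.toDual ℝ (Eu n)).symm.contDiff.contDiffAt).comp z h2

/-- the local diffeomorphism -/
def exPsi (G : Eu n × Eu n → ℝ) (z : Eu n × Eu n) : Eu n × Eu n := (z.1, gr1 G z)

theorem contDiffAt_exPsi {G : Eu n × Eu n → ℝ} {z : Eu n × Eu n} (h : ContDiffAt ℝ ∞ G z) : ContDiffAt ℝ ∞ (exPsi G) z :=
  contDiffAt_fst.prodMk (contDiffAt_gr1 h)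

theorem exPsi_inj {G : Eu n × Eu n → ℝ} (h : ContDiffAt ℝ ∞ G (0, 0))
    (hdet : (Matrix.of fun i j : Fin n => fderiv ℝ (fun u => fderiv ℝ (fun v => G (u, v)) 0) 0
      (EuclideanSpace.single i 1) (EuclideanSpace.single j 1)).det ≠ 0) :
    Function.Injective (fderiv ℝ (exPsi G) (0, 0)) := by
  have h2 : ContDiffAt ℝ 2 G (0, 0) := h.of_le (WithTop.coe_le_coe.2 le_top)
  obtain ⟨_, hd2⟩ := exc_diff h2
  have hg : DifferentiableAt ℝ (gr1 G) (0, 0) := (contDiffAt_gr1 h).differentiableAt (by simp)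
  have hP : HasFDerivAt (exPsi G) ((ContinuousLinearMap.fst ℝ (Eu n) (Eu n)).prod (fderiv ℝ (gr1 G) (0, 0))) (0, 0) :=
    hasFDerivAt_fst.prodMk hg.hasFDerivAt
  have hgr : ∀ w a, ⟪fderiv ℝ (gr1 G) (0, 0) w, a⟫ = fderiv ℝ (fderiv ℝ G) (0, 0) w (a, 0) := by
    intro w a
    have k1 : HasFDerivAt (fun z => ⟪gr1 G z, a⟫) ((innerSL ℝ a).comp (fderiv ℝ (gr1 G) (0, 0))) (0, 0) := by
      have k2 := HasFDerivAt.comp (g := fun x => innerSL ℝ a x) ((0, 0) : Eu n × Eu n) (innerSL ℝ a).hasFDerivAt hg.hasFDerivAt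
      refine k2.congr_of_eventuallyEq (Filter.Eventually.of_forall fun z => ?_)
      show ⟪gr1 G z, a⟫ = ⟪a, gr1 G z⟫
      rw [real_inner_comm]
    have k3 : HasFDerivAt (fun z => fderiv ℝ G z (a, 0))
        ((ContinuousLinearMap.apply ℝ ℝ ((a, 0) : Eu n × Eu n)).comp (fderiv ℝ (fderiv ℝ G) (0, 0))) (0, 0) :=
      HasFDerivAt.comp (g := fun L => ContinuousLinearMap.apply ℝ ℝ ((a, 0) : Eu n × Eu n) L) ((0, 0) : Eu n × Eu n)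
        (ContinuousLinearMap.apply ℝ ℝ ((a, 0) : Eu n × Eu n)).hasFDerivAt hd2.hasFDerivAt
    have k4 : (fun z => ⟪gr1 G z, a⟫) = fun z => fderiv ℝ G z (a, 0) := by
      funext z
      exact inner_gr1 G z a
    rw [k4] at k1
    have k5 := congrArg (fun L : Eu n × Eu n →L[ℝ] ℝ => L w) (k1.unique k3)
    have k6 : ⟪a, fderiv ℝ (gr1 G) (0, 0) w⟫ = fderiv ℝ (fderiv ℝ G) (0, 0) w (a, 0) := k5
    rw [real_inner_comm, k6]
  rw [hP.fderiv]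
  rw [injective_iff_map_eq_zero]
  rintro ⟨x, y⟩ hxy
  have hx : x = 0 := congrArg Prod.fst hxy
  have hy : fderiv ℝ (gr1 G) (0, 0) (x, y) = 0 := congrArg Prod.snd hxy
  subst hx
  have hz : ∀ a, fderiv ℝ (fderiv ℝ G) (0, 0) (a, 0) (0, y) = 0 := by
    intro a
    rw [exc_mixed_symm h2, ← hgr, hy, inner_zero_left]
  have hM : (Matrix.of fun i j : Fin n => fderiv ℝ (fun u => fderiv ℝ (fun v => G (u, v)) 0) 0
      (EuclideanSpace.single i 1) (EuclideanSpace.single j 1)).mulVec (fun j => y j) = 0 := by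
    funext i
    have hyv : y = ∑ j, y j • EuclideanSpace.single j (1 : ℝ) := by
      ext k
      simp [Pi.single_apply]
    have k1 := hz (EuclideanSpace.single i 1)
    rw [← exc_mixed h2] at k1
    rw [hyv, map_sum] at k1
    rw [Matrix.mulVec, dotProduct]
    refine Eq.trans (Finset.sum_congr rfl fun j _ => ?_) k1
    rw [map_smul, smul_eq_mul, mul_comm]
    rfl
  have hy0 := Matrix.eq_zero_of_mulVec_eq_zero hdet hM
  have : y = 0 := by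
    ext j
    exact congrFun hy0 j
  rw [this]
  rfl

variable {M : Type*} [MetricSpace M] [CompactSpace M] (𝒜 : SDist n M)

theorem exb_inj (hB : Bl M) {p y : M} (hd : dist p y < π) : Function.Injective (fderiv ℝ (exPsi (𝒜.F p y)) (0, 0)) := by
  refine exPsi_inj (contDiffAt_F 𝒜 hB hd) ?_
  have h := theta_pos 𝒜 hB hd
  exact abs_pos.mp h

/-! ## first order in arbitrary charts -/

theorem exb_DF (hB : Bl M) {c : ℝ → M} (hc : IsGeo c) {t : ℝ} (ht : |t| < π) (a : Eu n) :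
    fderiv ℝ (fun u => 𝒜.F (c 0) (c t) (u, 0)) 0 a = -(t * ⟪𝒜.vel c 0, a⟫) := by
  have hv := (IsGeo.exists_vel 𝒜 hc 0).1
  have h1 : 𝒜.Ex (c 0) (t • 𝒜.vel c 0) = c t := by
    rw [Ex_smul 𝒜 hB _ hv, gv_eq 𝒜 hc 0]
    show c (0 + t) = c t
    rw [zero_add]
  have h2 : ‖t • 𝒜.vel c 0‖ < π := by
    rw [norm_smul, hv, mul_one, Real.norm_eq_abs]
    exact ht
  have h3 := fderiv_F_Ex 𝒜 hB (c 0) h2 a
  rw [h1, real_inner_smul_left] at h3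
  exact h3

theorem exb_grad (hB : Bl M) {p y p' y' : M} (hp : p' ∈ (𝒜.ψ p).source) (hy : y' ∈ (𝒜.ψ y).source) {c : ℝ → M} (hc : IsGeo c)
    (h0 : c 0 = p') {t : ℝ} (ht : |t| < π) (hty : c t = y') (hF : DifferentiableAt ℝ (𝒜.F p y) (𝒜.ψ p p', 𝒜.ψ y y'))
    (a : Eu n) : ⟪gr1 (𝒜.F p y) (𝒜.ψ p p', 𝒜.ψ y y'), a⟫ =
      -(t * ⟪𝒜.vel c 0, fderiv ℝ (fun u => 𝒜.ψ p' ((𝒜.ψ p).symm u)) (𝒜.ψ p p') a⟫) := by
  have hd : dist p' y' < π := by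
    have e : |(0 : ℝ) - t| = |t| := by rw [zero_sub, abs_neg]
    have h := hc 0 t (by rw [e]; exact ht.le)
    rw [h0, hty, e] at h
    rw [h]
    exact ht
  rw [inner_gr1, ← exc_partial1 hF a]
  have h1 : (fun u' => 𝒜.F p y (u', 𝒜.ψ y y')) =ᶠ[𝓝 (𝒜.ψ p p')] fun u' => 𝒜.F p' y' (𝒜.ψ p' ((𝒜.ψ p).symm u'), 0) := by
    have k1 : ∀ᶠ u in 𝓝 (𝒜.ψ p p'), (𝒜.ψ p).symm u ∈ (𝒜.ψ p').source := by
      have k2 : ContinuousAt (𝒜.ψ p).symm (𝒜.ψ p p') := (𝒜.ψ p).continuousAt_symm ((𝒜.ψ p).map_source hp)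
      refine k2.eventually ?_
      rw [(𝒜.ψ p).left_inv hp]
      exact (𝒜.ψ p').open_source.mem_nhds (𝒜.mem p')
    filter_upwards [k1] with u hu
    unfold SDist.F SDist.f
    simp only
    rw [(𝒜.ψ p').left_inv hu, (𝒜.ψ y).left_inv hy, exc_symm_zero]
  have h2 : ContDiffAt ℝ ∞ (fun u => 𝒜.ψ p' ((𝒜.ψ p).symm u)) (𝒜.ψ p p') := 𝒜.trans p p' p' hp (𝒜.mem p')
  have h3 : DifferentiableAt ℝ (fun u => 𝒜.ψ p' ((𝒜.ψ p).symm u)) (𝒜.ψ p p') := h2.differentiableAt (by simp)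
  have h4 : 𝒜.ψ p' ((𝒜.ψ p).symm (𝒜.ψ p p')) = 0 := by
    rw [(𝒜.ψ p).left_inv hp, 𝒜.zero]
  have h5 : DifferentiableAt ℝ (fun u => 𝒜.F p' y' (u, 0)) 0 := by
    have k1 : DifferentiableAt ℝ (𝒜.F p' y') ((0 : Eu n), (0 : Eu n)) := (contDiffAt_F 𝒜 hB hd).differentiableAt (by simp)
    exact (HasFDerivAt.comp (g := 𝒜.F p' y') (f := fun u : Eu n => (u, (0 : Eu n))) (0 : Eu n) k1.hasFDerivAt
        (hasFDerivAt_prodMk_left (0 : Eu n) (0 : Eu n))).differentiableAt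
  have h6 : HasFDerivAt (fun u' => 𝒜.F p' y' (𝒜.ψ p' ((𝒜.ψ p).symm u'), 0))
      ((fderiv ℝ (fun u => 𝒜.F p' y' (u, 0)) 0).comp (fderiv ℝ (fun u => 𝒜.ψ p' ((𝒜.ψ p).symm u)) (𝒜.ψ p p')))
      (𝒜.ψ p p') := by
    refine HasFDerivAt.comp (g := fun u => 𝒜.F p' y' (u, 0)) (f := fun u => 𝒜.ψ p' ((𝒜.ψ p).symm u)) (𝒜.ψ p p') ?_
      h3.hasFDerivAt
    rw [h4]
    exact h5.hasFDerivAt
  rw [(h6.congr_of_eventuallyEq h1).fderiv]
  have h7 := exb_DF 𝒜 hB hc ht (fderiv ℝ (fun u => 𝒜.ψ p' ((𝒜.ψ p).symm u)) (𝒜.ψ p p') a)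
  rw [h0, hty] at h7
  exact h7

theorem exb_ratio (hB : Bl M) {p y q p' y' q' : M} (hp : p' ∈ (𝒜.ψ p).source) (hy : y' ∈ (𝒜.ψ y).source)
    (hq : q' ∈ (𝒜.ψ q).source) {c : ℝ → M} (hc : IsGeo c)
    (h0 : c 0 = p') {t d : ℝ} (ht : |t| < π) (hty : c t = y') (hd0 : d ≠ 0) (hd : |d| < π) (hdq : c d = q')
    (hF : DifferentiableAt ℝ (𝒜.F p y) (𝒜.ψ p p', 𝒜.ψ y y')) (hF' : DifferentiableAt ℝ (𝒜.F p q) (𝒜.ψ p p', 𝒜.ψ q q')) :
    gr1 (𝒜.F p y) (𝒜.ψ p p', 𝒜.ψ y y') = (t / d) • gr1 (𝒜.F p q) (𝒜.ψ p p', 𝒜.ψ q q') := by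
  refine ext_inner_right ℝ fun a => ?_
  rw [real_inner_smul_left, exb_grad 𝒜 hB hp hy hc h0 ht hty hF a, exb_grad 𝒜 hB hp hq hc h0 hd hdq hF' a]
  field_simp

/-- the chart expression of the geodesic through two points -/
def gdc (p q : M) (s : ℝ) (z : (Eu n × Eu n) × ℝ) : Eu n :=
  𝒜.ψ (gd p q s) (gd ((𝒜.ψ p).symm z.1.1) ((𝒜.ψ q).symm z.1.2) z.2)

theorem exb_cont (hB : Bl M) {p q : M} (h0 : 0 < dist p q) (h1 : dist p q < π) (s : ℝ) :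
    ContinuousAt (fun z : (Eu n × Eu n) × ℝ => gd ((𝒜.ψ p).symm z.1.1) ((𝒜.ψ q).symm z.1.2) z.2) ((0, 0), s) := by
  have hsp : ContinuousAt (𝒜.ψ p).symm 0 := by
    have h := (𝒜.ψ p).map_source (𝒜.mem p)
    rw [𝒜.zero] at h
    exact (𝒜.ψ p).continuousAt_symm h
  have hsq : ContinuousAt (𝒜.ψ q).symm 0 := by
    have h := (𝒜.ψ q).map_source (𝒜.mem q)
    rw [𝒜.zero] at h
    exact (𝒜.ψ q).continuousAt_symm h
  have k1 : ContinuousAt (fun z : (Eu n × Eu n) × ℝ => (𝒜.ψ p).symm z.1.1) ((0, 0), s) :=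
    ContinuousAt.comp (g := (𝒜.ψ p).symm) (f := fun z : (Eu n × Eu n) × ℝ => z.1.1) hsp
      (continuous_fst.comp continuous_fst).continuousAt
  have k2 : ContinuousAt (fun z : (Eu n × Eu n) × ℝ => (𝒜.ψ q).symm z.1.2) ((0, 0), s) :=
    ContinuousAt.comp (g := (𝒜.ψ q).symm) (f := fun z : (Eu n × Eu n) × ℝ => z.1.2) hsq
      (continuous_snd.comp continuous_fst).continuousAt
  have k3 : ContinuousAt (fun z : (Eu n × Eu n) × ℝ => (((𝒜.ψ p).symm z.1.1, (𝒜.ψ q).symm z.1.2), z.2)) ((0, 0), s) :=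
    (k1.prodMk k2).prodMk continuous_snd.continuousAt
  have k4 : IsOpen {z : (M × M) × ℝ | 0 < dist z.1.1 z.1.2 ∧ dist z.1.1 z.1.2 < π} := by
    have k41 : Continuous fun z : (M × M) × ℝ => dist z.1.1 z.1.2 := by fun_prop
    have k42 : IsOpen {z : (M × M) × ℝ | 0 < dist z.1.1 z.1.2} := isOpen_lt continuous_const k41
    have k43 : IsOpen {z : (M × M) × ℝ | dist z.1.1 z.1.2 < π} := isOpen_lt k41 continuous_const
    exact k42.and k43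
  have k5 : ContinuousAt (fun z : (M × M) × ℝ => gd z.1.1 z.1.2 z.2) ((p, q), s) :=
    (continuousOn_gd 𝒜 hB).continuousAt (k4.mem_nhds ⟨h0, h1⟩)
  refine ContinuousAt.comp (g := fun z : (M × M) × ℝ => gd z.1.1 z.1.2 z.2)
    (f := fun z : (Eu n × Eu n) × ℝ => (((𝒜.ψ p).symm z.1.1, (𝒜.ψ q).symm z.1.2), z.2)) ?_ k3
  simp only [exc_symm_zero]
  exact k5

/-- near `((0, 0), s)`: the conditions on the points -/
theorem exb_near {p q : M} (h0 : 0 < dist p q) (h1 : dist p q < π) (s : ℝ) :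
    ∀ᶠ z : (Eu n × Eu n) × ℝ in 𝓝 ((0, 0), s),
      (𝒜.ψ p).symm z.1.1 ∈ (𝒜.ψ p).source ∧ (𝒜.ψ q).symm z.1.2 ∈ (𝒜.ψ q).source ∧
      𝒜.ψ p ((𝒜.ψ p).symm z.1.1) = z.1.1 ∧ 𝒜.ψ q ((𝒜.ψ q).symm z.1.2) = z.1.2 ∧
      0 < dist ((𝒜.ψ p).symm z.1.1) ((𝒜.ψ q).symm z.1.2) ∧ dist ((𝒜.ψ p).symm z.1.1) ((𝒜.ψ q).symm z.1.2) < π := by
  have m1 : (0 : Eu n) ∈ (𝒜.ψ p).target := by
    have h := (𝒜.ψ p).map_source (𝒜.mem p)
    rwa [𝒜.zero] at h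
  have m2 : (0 : Eu n) ∈ (𝒜.ψ q).target := by
    have h := (𝒜.ψ q).map_source (𝒜.mem q)
    rwa [𝒜.zero] at h
  have t1 : Tendsto (fun z : (Eu n × Eu n) × ℝ => z.1.1) (𝓝 ((0, 0), s)) (𝓝 0) :=
    (continuous_fst.comp continuous_fst).continuousAt
  have t2 : Tendsto (fun z : (Eu n × Eu n) × ℝ => z.1.2) (𝓝 ((0, 0), s)) (𝓝 0) :=
    (continuous_snd.comp continuous_fst).continuousAt
  have k1 : ContinuousAt (fun z : (Eu n × Eu n) × ℝ => (𝒜.ψ p).symm z.1.1) ((0, 0), s) :=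
    ContinuousAt.comp (g := (𝒜.ψ p).symm) (f := fun z : (Eu n × Eu n) × ℝ => z.1.1)
      ((𝒜.ψ p).continuousAt_symm m1) t1
  have k2 : ContinuousAt (fun z : (Eu n × Eu n) × ℝ => (𝒜.ψ q).symm z.1.2) ((0, 0), s) :=
    ContinuousAt.comp (g := (𝒜.ψ q).symm) (f := fun z : (Eu n × Eu n) × ℝ => z.1.2)
      ((𝒜.ψ q).continuousAt_symm m2) t2
  have k3 : ContinuousAt (fun z : (Eu n × Eu n) × ℝ => dist ((𝒜.ψ p).symm z.1.1) ((𝒜.ψ q).symm z.1.2)) ((0, 0), s) :=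
    k1.dist k2
  have k4 : (fun z : (Eu n × Eu n) × ℝ => dist ((𝒜.ψ p).symm z.1.1) ((𝒜.ψ q).symm z.1.2)) ((0, 0), s) = dist p q := by
    simp only [exc_symm_zero]
  have e1 : ∀ᶠ z : (Eu n × Eu n) × ℝ in 𝓝 ((0, 0), s), 0 < dist ((𝒜.ψ p).symm z.1.1) ((𝒜.ψ q).symm z.1.2) :=
    k3.eventually (lt_mem_nhds (by rw [k4]; exact h0))
  have e2 : ∀ᶠ z : (Eu n × Eu n) × ℝ in 𝓝 ((0, 0), s), dist ((𝒜.ψ p).symm z.1.1) ((𝒜.ψ q).symm z.1.2) < π :=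
    k3.eventually (gt_mem_nhds (by rw [k4]; exact h1))
  filter_upwards [t1.eventually ((𝒜.ψ p).open_target.mem_nhds m1), t2.eventually ((𝒜.ψ q).open_target.mem_nhds m2),
    e1, e2] with z g1 g2 g3 g4
  exact ⟨(𝒜.ψ p).map_target g1, (𝒜.ψ q).map_target g2, (𝒜.ψ p).right_inv g1, (𝒜.ψ q).right_inv g2, g3, g4⟩

theorem exb_gd_small (hB : Bl M) {p q : M} (h0 : 0 < dist p q) (h1 : dist p q < π) {s : ℝ} (hs : |s| < π) :
    ContDiffAt ℝ ∞ (gdc 𝒜 p q s) ((0, 0), s) := by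
  set y := gd p q s with hy
  have hpq : p ≠ q := dist_pos.mp h0
  obtain ⟨g1, g2, g3⟩ := gd_spec 𝒜 hB hpq
  have hdy : dist p y < π := by
    have e : |(0 : ℝ) - s| = |s| := by rw [zero_sub, abs_neg]
    have h := g1 0 s (by rw [e]; exact hs.le)
    rw [g2, e] at h
    rw [hy, h]
    exact hs
  set g : (Eu n × Eu n) × ℝ → Eu n × Eu n := fun z => (z.1.1, gdc 𝒜 p q s z) with hg
  have hy0 : gdc 𝒜 p q s ((0, 0), s) = 0 := by
    unfold gdc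
    simp only [exc_symm_zero]
    exact 𝒜.zero _
  have hg0 : g ((0, 0), s) = (0, 0) := by
    rw [hg]
    simp only [hy0]
  have hFy : ContDiffAt ℝ ∞ (𝒜.F p y) (0, 0) := contDiffAt_F 𝒜 hB hdy
  have hFq : ContDiffAt ℝ ∞ (𝒜.F p q) (0, 0) := contDiffAt_F 𝒜 hB h1
  have hfq : ContDiffAt ℝ ∞ (𝒜.f p q) (0, 0) := contDiffAt_f 𝒜 hB h0 h1
  have hcont := exb_cont 𝒜 hB h0 h1 s
  have hψ : ContinuousAt (𝒜.ψ y) (gd ((𝒜.ψ p).symm (0 : Eu n)) ((𝒜.ψ q).symm (0 : Eu n)) s) := by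
    rw [exc_symm_zero, exc_symm_zero]
    exact (𝒜.ψ y).continuousAt (𝒜.mem y)
  have hgdc : ContinuousAt (gdc 𝒜 p q s) ((0, 0), s) := ContinuousAt.comp (g := 𝒜.ψ y)
    (f := fun z : (Eu n × Eu n) × ℝ => gd ((𝒜.ψ p).symm z.1.1) ((𝒜.ψ q).symm z.1.2) z.2) hψ hcont
  have hgc : ContinuousAt g ((0, 0), s) := (continuous_fst.comp continuous_fst).continuousAt.prodMk hgdc
  have hsrc : ∀ᶠ z : (Eu n × Eu n) × ℝ in 𝓝 ((0, 0), s),
      gd ((𝒜.ψ p).symm z.1.1) ((𝒜.ψ q).symm z.1.2) z.2 ∈ (𝒜.ψ y).source := by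
    refine hcont.eventually ?_
    simp only [exc_symm_zero]
    exact (𝒜.ψ y).open_source.mem_nhds (𝒜.mem y)
  have hsm : ∀ᶠ z : (Eu n × Eu n) × ℝ in 𝓝 ((0, 0), s), |z.2| < π := by
    have : ContinuousAt (fun z : (Eu n × Eu n) × ℝ => |z.2|) ((0, 0), s) := (continuous_snd.abs).continuousAt
    exact this.eventually (gt_mem_nhds hs)
  have hdy' : ∀ᶠ z : (Eu n × Eu n) × ℝ in 𝓝 ((0, 0), s), DifferentiableAt ℝ (𝒜.F p y) (g z) := by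
    refine hgc.eventually ?_
    rw [hg0]
    exact (exc_diff (hFy.of_le (WithTop.coe_le_coe.2 le_top))).1
  have hdq' : ∀ᶠ z : (Eu n × Eu n) × ℝ in 𝓝 ((0, 0), s), DifferentiableAt ℝ (𝒜.F p q) z.1 := by
    have : ContinuousAt (fun z : (Eu n × Eu n) × ℝ => z.1) ((0, 0), s) := continuous_fst.continuousAt
    exact this.eventually (exc_diff (hFq.of_le (WithTop.coe_le_coe.2 le_top))).1
  have key : (fun z => exPsi (𝒜.F p y) (g z)) =ᶠ[𝓝 ((0, 0), s)]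
      fun z : (Eu n × Eu n) × ℝ => (z.1.1, (z.2 / 𝒜.f p q z.1) • gr1 (𝒜.F p q) z.1) := by
    filter_upwards [exb_near 𝒜 h0 h1 s, hsrc, hsm, hdy', hdq'] with z hz1 hz2 hz3 hz4 hz5
    obtain ⟨a1, a2, a3, a4, a5, a6⟩ := hz1
    obtain ⟨c1, c2, c3⟩ := gd_spec 𝒜 hB (dist_pos.mp a5)
    have hda : |dist ((𝒜.ψ p).symm z.1.1) ((𝒜.ψ q).symm z.1.2)| < π := by
      rw [abs_of_pos a5]
      exact a6
    have hr := exb_ratio 𝒜 hB (p := p) (y := y) (q := q) a1 hz2 a2 c1 c2 hz3 rfl a5.ne' hda c3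
      (by rw [a3]; exact hz4) (by rw [a3, a4]; exact hz5)
    rw [a3, a4] at hr
    show (z.1.1, gr1 (𝒜.F p y) (g z)) = _
    rw [Prod.mk.injEq]
    exact ⟨rfl, hr⟩
  have hsmooth : ContDiffAt ℝ ∞ (fun z : (Eu n × Eu n) × ℝ => (z.1.1, (z.2 / 𝒜.f p q z.1) • gr1 (𝒜.F p q) z.1)) ((0, 0), s) := by
    have b1 : ContDiffAt ℝ ∞ (fun z : (Eu n × Eu n) × ℝ => z.1) ((0, 0), s) := contDiffAt_fst
    have b2 : ContDiffAt ℝ ∞ (fun z : (Eu n × Eu n) × ℝ => 𝒜.f p q z.1) ((0, 0), s) :=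
      ContDiffAt.comp (g := 𝒜.f p q) (f := fun z : (Eu n × Eu n) × ℝ => z.1) ((0, 0), s) hfq b1
    have b3 : ContDiffAt ℝ ∞ (fun z : (Eu n × Eu n) × ℝ => gr1 (𝒜.F p q) z.1) ((0, 0), s) :=
      ContDiffAt.comp (g := gr1 (𝒜.F p q)) (f := fun z : (Eu n × Eu n) × ℝ => z.1) ((0, 0), s) (contDiffAt_gr1 hFq) b1
    have b4 : 𝒜.f p q ((0 : Eu n), (0 : Eu n)) ≠ 0 := by
      rw [exc_f_zero]
      exact h0.ne'
    exact (contDiffAt_fst.comp _ b1).prodMk ((contDiffAt_snd.div b2 b4).smul b3)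
  have hfin := exb_lift (Ψ := exPsi (𝒜.F p y)) (g := g) (z := ((0, 0), s)) (by rw [hg0]; exact contDiffAt_exPsi hFy)
    (by rw [hg0]; exact exb_inj 𝒜 hB hdy) hgc (hsmooth.congr_of_eventuallyEq key)
  exact contDiffAt_snd.comp _ hfin

/-! ## larger parameters -/

theorem exb_step (hB : Bl M) {p q : M} (h0 : 0 < dist p q) (h1 : dist p q < π) {a δ σ : ℝ} (hδ : 0 < δ) (hδπ : δ < π)
    (hσ : |σ| < π) (ha : ContDiffAt ℝ ∞ (gdc 𝒜 p q a) ((0, 0), a))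
    (haδ : ContDiffAt ℝ ∞ (gdc 𝒜 p q (a + δ)) ((0, 0), a + δ)) :
    ContDiffAt ℝ ∞ (gdc 𝒜 p q (a + σ)) ((0, 0), a + σ) := by
  obtain ⟨g1, g2, g3⟩ := gd_spec 𝒜 hB (dist_pos.mp h0)
  set A := gd p q a with hA
  set B := gd p q (a + δ) with hBd
  have hAB : dist A B = δ := by
    have e : |a - (a + δ)| = δ := by
      rw [show a - (a + δ) = -δ by ring, abs_neg, abs_of_pos hδ]
    have h := g1 a (a + δ) (by rw [e]; exact hδπ.le)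
    rw [e] at h
    exact h
  have hgAB : gd A B = fun r => gd p q (a + r) := gd_eq 𝒜 g1 hδ hδπ
  have hbase := exb_gd_small 𝒜 hB (p := A) (q := B) (by rw [hAB]; exact hδ) (by rw [hAB]; exact hδπ) hσ
  -- the map into the parameters of the pair (A, B)
  set h : (Eu n × Eu n) × ℝ → (Eu n × Eu n) × ℝ := fun z =>
    ((gdc 𝒜 p q a (z.1, a), gdc 𝒜 p q (a + δ) (z.1, a + δ)), z.2 - a) with hh
  have z1 : gdc 𝒜 p q a ((0, 0), a) = 0 := by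
    unfold gdc
    simp only [exc_symm_zero]
    exact 𝒜.zero _
  have z2 : gdc 𝒜 p q (a + δ) ((0, 0), a + δ) = 0 := by
    unfold gdc
    simp only [exc_symm_zero]
    exact 𝒜.zero _
  have hh0 : h ((0, 0), a + σ) = ((0, 0), σ) := by
    rw [hh]
    simp only [z1, z2, add_sub_cancel_left]
  have hs1 : ContDiffAt ℝ ∞ (fun z : (Eu n × Eu n) × ℝ => gdc 𝒜 p q a (z.1, a)) ((0, 0), a + σ) :=
    ContDiffAt.comp (g := gdc 𝒜 p q a) (f := fun z : (Eu n × Eu n) × ℝ => (z.1, a)) ((0, 0), a + σ) ha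
      (contDiffAt_fst.prodMk contDiffAt_const)
  have hs2 : ContDiffAt ℝ ∞ (fun z : (Eu n × Eu n) × ℝ => gdc 𝒜 p q (a + δ) (z.1, a + δ)) ((0, 0), a + σ) :=
    ContDiffAt.comp (g := gdc 𝒜 p q (a + δ)) (f := fun z : (Eu n × Eu n) × ℝ => (z.1, a + δ)) ((0, 0), a + σ) haδ
      (contDiffAt_fst.prodMk contDiffAt_const)
  have hsm : ContDiffAt ℝ ∞ h ((0, 0), a + σ) := (hs1.prodMk hs2).prodMk (contDiffAt_snd.sub contDiffAt_const)
  have hcomp : ContDiffAt ℝ ∞ (fun z => gdc 𝒜 A B σ (h z)) ((0, 0), a + σ) := by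
    refine ContDiffAt.comp (g := gdc 𝒜 A B σ) (f := h) ((0, 0), a + σ) ?_ hsm
    rw [hh0]
    exact hbase
  refine hcomp.congr_of_eventuallyEq ?_
  -- the intermediate points are in the charts
  have t1 : ContinuousAt (fun z : (Eu n × Eu n) × ℝ => (z.1, a)) ((0, 0), a + σ) :=
    continuous_fst.continuousAt.prodMk continuousAt_const
  have t2 : ContinuousAt (fun z : (Eu n × Eu n) × ℝ => (z.1, a + δ)) ((0, 0), a + σ) :=
    continuous_fst.continuousAt.prodMk continuousAt_const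
  have m1 : ∀ᶠ z : (Eu n × Eu n) × ℝ in 𝓝 ((0, 0), a + σ),
      gd ((𝒜.ψ p).symm z.1.1) ((𝒜.ψ q).symm z.1.2) a ∈ (𝒜.ψ A).source := by
    have k := exb_cont 𝒜 hB h0 h1 a
    have k2 : ∀ᶠ z : (Eu n × Eu n) × ℝ in 𝓝 ((0, 0), a),
        gd ((𝒜.ψ p).symm z.1.1) ((𝒜.ψ q).symm z.1.2) z.2 ∈ (𝒜.ψ A).source := by
      refine k.eventually ?_
      simp only [exc_symm_zero]
      exact (𝒜.ψ A).open_source.mem_nhds (𝒜.mem A)
    exact t1.eventually k2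
  have m2 : ∀ᶠ z : (Eu n × Eu n) × ℝ in 𝓝 ((0, 0), a + σ),
      gd ((𝒜.ψ p).symm z.1.1) ((𝒜.ψ q).symm z.1.2) (a + δ) ∈ (𝒜.ψ B).source := by
    have k := exb_cont 𝒜 hB h0 h1 (a + δ)
    have k2 : ∀ᶠ z : (Eu n × Eu n) × ℝ in 𝓝 ((0, 0), a + δ),
        gd ((𝒜.ψ p).symm z.1.1) ((𝒜.ψ q).symm z.1.2) z.2 ∈ (𝒜.ψ B).source := by
      refine k.eventually ?_
      simp only [exc_symm_zero]
      exact (𝒜.ψ B).open_source.mem_nhds (𝒜.mem B)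
    exact t2.eventually k2
  filter_upwards [exb_near 𝒜 h0 h1 (a + σ), m1, m2] with z hz1 hz2 hz3
  obtain ⟨a1, a2, a3, a4, a5, a6⟩ := hz1
  obtain ⟨c1, c2, c3⟩ := gd_spec 𝒜 hB (dist_pos.mp a5)
  have e1 : gd A B σ = gd p q (a + σ) := by rw [hgAB]
  have e2 : gd (gd ((𝒜.ψ p).symm z.1.1) ((𝒜.ψ q).symm z.1.2) a) (gd ((𝒜.ψ p).symm z.1.1) ((𝒜.ψ q).symm z.1.2) (a + δ))
      = fun r => gd ((𝒜.ψ p).symm z.1.1) ((𝒜.ψ q).symm z.1.2) (a + r) := gd_eq 𝒜 c1 hδ hδπ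
  show 𝒜.ψ (gd p q (a + σ)) (gd ((𝒜.ψ p).symm z.1.1) ((𝒜.ψ q).symm z.1.2) z.2) =
    𝒜.ψ (gd A B σ) (gd ((𝒜.ψ A).symm (𝒜.ψ A (gd ((𝒜.ψ p).symm z.1.1) ((𝒜.ψ q).symm z.1.2) a)))
      ((𝒜.ψ B).symm (𝒜.ψ B (gd ((𝒜.ψ p).symm z.1.1) ((𝒜.ψ q).symm z.1.2) (a + δ)))) (z.2 - a))
  rw [(𝒜.ψ A).left_inv hz2, (𝒜.ψ B).left_inv hz3, e1, e2]
  simp only [add_sub_cancel]

theorem exb_all (hB : Bl M) {p q : M} (h0 : 0 < dist p q) (h1 : dist p q < π) (k : ℕ) :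
    ∀ s : ℝ, |s| < π + k * (π / 2) → ContDiffAt ℝ ∞ (gdc 𝒜 p q s) ((0, 0), s) := by
  have hπ := Real.pi_pos
  induction k with
  | zero =>
    intro s hs
    rw [Nat.cast_zero, zero_mul, add_zero] at hs
    exact exb_gd_small 𝒜 hB h0 h1 hs
  | succ k ih =>
    intro s hs
    have hk : (0 : ℝ) ≤ (k : ℝ) * (π / 2) := by positivity
    rw [Nat.cast_succ] at hs
    have hs' : |s| < 3 * π / 2 + k * (π / 2) := by linarith
    rcases le_total 0 s with h | h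
    · rw [abs_of_nonneg h] at hs'
      have b1 : |s - 3 * π / 4| < π + k * (π / 2) := by
        rw [abs_lt]
        constructor <;> linarith
      have b2 : |s - 3 * π / 4 + π / 8| < π + k * (π / 2) := by
        rw [abs_lt]
        constructor <;> linarith
      have b3 : |3 * π / 4| < π := by
        rw [abs_lt]
        constructor <;> linarith
      have := exb_step 𝒜 hB h0 h1 (a := s - 3 * π / 4) (δ := π / 8) (σ := 3 * π / 4) (by linarith) (by linarith) b3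
        (ih _ b1) (ih _ b2)
      rw [sub_add_cancel] at this
      exact this
    · rw [abs_of_nonpos h] at hs'
      have b1 : |s + 3 * π / 4| < π + k * (π / 2) := by
        rw [abs_lt]
        constructor <;> linarith
      have b2 : |s + 3 * π / 4 + π / 8| < π + k * (π / 2) := by
        rw [abs_lt]
        constructor <;> linarith
      have b3 : |-(3 * π / 4)| < π := by
        rw [abs_lt]
        constructor <;> linarith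
      have := exb_step 𝒜 hB h0 h1 (a := s + 3 * π / 4) (δ := π / 8) (σ := -(3 * π / 4)) (by linarith) (by linarith) b3
        (ih _ b1) (ih _ b2)
      rw [add_neg_cancel_right] at this
      exact this

/-- the geodesic through two points depends smoothly on them. PROOF. For `|s| < π` invert
`q' ↦ (D₁ F)(p', q')` (theta_pos); then compose. -/
theorem contDiffAt_gd (hB : Bl M) {p q : M} (h0 : 0 < dist p q) (h1 : dist p q < π) (s : ℝ) :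
    ContDiffAt ℝ ∞ (fun z : (Eu n × Eu n) × ℝ =>
      𝒜.ψ (gd p q s) (gd ((𝒜.ψ p).symm z.1.1) ((𝒜.ψ q).symm z.1.2) z.2)) ((0, 0), s) := by
  have hπ := Real.pi_pos
  obtain ⟨k, hk⟩ := exists_nat_gt (|s| / (π / 2))
  have h2 : |s| < k * (π / 2) := by rwa [div_lt_iff₀ (by positivity)] at hk
  exact exb_all 𝒜 hB h0 h1 k s (by linarith)

/-- change of the chart at the end point -/
theorem exb_chart {Z : Type*} [NormedAddCommGroup Z] [NormedSpace ℝ Z] {g : Z → M} {z : Z} {q : M}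
    (hg : ContinuousAt g z) (hs : ContDiffAt ℝ ∞ (fun w => 𝒜.ψ (g z) (g w)) z) (hq : g z ∈ (𝒜.ψ q).source) :
    ContDiffAt ℝ ∞ (fun w => 𝒜.ψ q (g w)) z := by
  have h1 : ContDiffAt ℝ ∞ (fun u => 𝒜.ψ q ((𝒜.ψ (g z)).symm u)) (𝒜.ψ (g z) (g z)) :=
    𝒜.trans (g z) q (g z) (𝒜.mem _) hq
  have h2 : ContDiffAt ℝ ∞ (fun w => 𝒜.ψ q ((𝒜.ψ (g z)).symm (𝒜.ψ (g z) (g w)))) z :=
    ContDiffAt.comp (g := fun u => 𝒜.ψ q ((𝒜.ψ (g z)).symm u)) (f := fun w => 𝒜.ψ (g z) (g w)) z h1 hs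
  refine h2.congr_of_eventuallyEq ?_
  filter_upwards [hg.eventually ((𝒜.ψ (g z)).open_source.mem_nhds (𝒜.mem (g z)))] with w hw
  rw [(𝒜.ψ (g z)).left_inv hw]

theorem exb_Ex_small (hB : Bl M) (p : M) {ξ : Eu n} (h : ‖ξ‖ < π) :
    ContDiffAt ℝ ∞ (fun η => 𝒜.ψ (𝒜.Ex p ξ) (𝒜.Ex p η)) ξ := by
  set y := 𝒜.Ex p ξ with hy
  have hdy : dist p y < π := by
    rw [hy, dist_Ex 𝒜 hB p h.le]
    exact h
  have hFy : ContDiffAt ℝ ∞ (𝒜.F p y) (0, 0) := contDiffAt_F 𝒜 hB hdy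
  have hcE : ContinuousAt (𝒜.Ex p) ξ := (continuous_Ex 𝒜 hB p).continuousAt
  have hψ : ContinuousAt (𝒜.ψ y) (𝒜.Ex p ξ) := (𝒜.ψ y).continuousAt (𝒜.mem y)
  set g : Eu n → Eu n × Eu n := fun η => (0, 𝒜.ψ y (𝒜.Ex p η)) with hg
  have hg0 : g ξ = (0, 0) := by
    rw [hg]
    simp only [← hy, 𝒜.zero]
  have hgc : ContinuousAt g ξ := continuousAt_const.prodMk (ContinuousAt.comp (g := 𝒜.ψ y) (f := 𝒜.Ex p) hψ hcE)
  have hsrc : ∀ᶠ η in 𝓝 ξ, 𝒜.Ex p η ∈ (𝒜.ψ y).source :=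
    hcE.eventually ((𝒜.ψ y).open_source.mem_nhds (𝒜.mem y))
  have hnorm : ∀ᶠ η : Eu n in 𝓝 ξ, ‖η‖ < π := continuous_norm.continuousAt.eventually (gt_mem_nhds h)
  have hdiff : ∀ᶠ η in 𝓝 ξ, DifferentiableAt ℝ (𝒜.F p y) (g η) := by
    refine hgc.eventually ?_
    rw [hg0]
    exact (exc_diff (hFy.of_le (WithTop.coe_le_coe.2 le_top))).1
  have key : (fun η => exPsi (𝒜.F p y) (g η)) =ᶠ[𝓝 ξ] fun η => ((0 : Eu n), -η) := by
    filter_upwards [hsrc, hnorm, hdiff] with η h1 h2 h3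
    show ((0 : Eu n), gr1 (𝒜.F p y) (g η)) = _
    rw [Prod.mk.injEq]
    refine ⟨rfl, ext_inner_right ℝ fun a => ?_⟩
    rw [inner_gr1, inner_neg_left, ← fderiv_F_Ex 𝒜 hB p h2 a]
    have e : (fun u' => 𝒜.F p y (u', 𝒜.ψ y (𝒜.Ex p η))) = fun u' => 𝒜.F p (𝒜.Ex p η) (u', 0) := by
      funext u'
      unfold SDist.F SDist.f
      simp only
      rw [(𝒜.ψ y).left_inv h1, exc_symm_zero]
    rw [← e]
    exact (exc_partial1 h3 a).symm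
  have hsm : ContDiffAt ℝ ∞ (fun η : Eu n => ((0 : Eu n), -η)) ξ := contDiffAt_const.prodMk contDiffAt_id.neg
  have hfin := exb_lift (Ψ := exPsi (𝒜.F p y)) (g := g) (z := ξ) (by rw [hg0]; exact contDiffAt_exPsi hFy)
    (by rw [hg0]; exact exb_inj 𝒜 hB hdy) hgc (hsm.congr_of_eventuallyEq key)
  exact contDiffAt_snd.comp _ hfin

theorem contDiffAt_Ex (hB : Bl M) (p : M) (ξ : Eu n) {q : M} (h : 𝒜.Ex p ξ ∈ (𝒜.ψ q).source) :
    ContDiffAt ℝ ∞ (fun η => 𝒜.ψ q (𝒜.Ex p η)) ξ := by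
  have hπ := Real.pi_pos
  refine exb_chart 𝒜 (continuous_Ex 𝒜 hB p).continuousAt ?_ h
  by_cases h0 : ξ = 0
  · refine exb_Ex_small 𝒜 hB p ?_
    rw [h0, norm_zero]
    exact hπ
  -- `ζ η` = the vector of length `π / 2` in the direction of `η`
  set ζ : Eu n → Eu n := fun η => (π / 2) • (‖η‖⁻¹ • η) with hζ
  have hζn : ∀ η : Eu n, η ≠ 0 → ‖ζ η‖ = π / 2 := by
    intro η hη
    rw [hζ]
    simp only
    rw [norm_smul, (exa_polar hη).1, mul_one, Real.norm_of_nonneg (by positivity)]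
  have hgeo : ∀ η : Eu n, η ≠ 0 → 𝒜.Ex p η = gd p (𝒜.Ex p (ζ η)) ‖η‖ := by
    intro η hη
    obtain ⟨g1, g2, g3⟩ := gv_spec 𝒜 hB p (exa_polar hη).1
    have e1 : 𝒜.Ex p (ζ η) = 𝒜.gv p (‖η‖⁻¹ • η) (0 + π / 2) := by
      rw [zero_add]
      exact Ex_smul 𝒜 hB p (exa_polar hη).1 (π / 2)
    have e2 := gd_eq 𝒜 g1 (s := 0) (t := π / 2) (by positivity) (by linarith)
    rw [g2, ← e1] at e2
    rw [e2]
    show 𝒜.gv p (‖η‖⁻¹ • η) ‖η‖ = 𝒜.gv p (‖η‖⁻¹ • η) (0 + ‖η‖)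
    rw [zero_add]
  set Q := 𝒜.Ex p (ζ ξ) with hQ
  have hdQ : dist p Q = π / 2 := by
    rw [hQ, dist_Ex 𝒜 hB p (by rw [hζn ξ h0]; linarith), hζn ξ h0]
  have hζs : ContDiffAt ℝ ∞ ζ ξ := by
    have k1 : ContDiffAt ℝ ∞ (fun η : Eu n => ‖η‖) ξ := contDiffAt_norm ℝ h0
    have k2 : ContDiffAt ℝ ∞ (fun η : Eu n => ‖η‖⁻¹) ξ := k1.inv (norm_ne_zero_iff.mpr h0)
    have k3 : ContDiffAt ℝ ∞ (fun η : Eu n => ‖η‖⁻¹ • η) ξ := k2.smul contDiffAt_id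
    exact k3.const_smul (π / 2)
  have hE2 : ContDiffAt ℝ ∞ (fun η => 𝒜.ψ Q (𝒜.Ex p (ζ η))) ξ :=
    ContDiffAt.comp (g := fun η => 𝒜.ψ Q (𝒜.Ex p η)) (f := ζ) ξ
      (exb_Ex_small 𝒜 hB p (by rw [hζn ξ h0]; linarith)) hζs
  have hgd := contDiffAt_gd 𝒜 hB (p := p) (q := Q) (by rw [hdQ]; positivity) (by rw [hdQ]; linarith) ‖ξ‖
  set h' : Eu n → (Eu n × Eu n) × ℝ := fun η => ((0, 𝒜.ψ Q (𝒜.Ex p (ζ η))), ‖η‖) with hh'
  have hh0 : h' ξ = ((0, 0), ‖ξ‖) := by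
    rw [hh']
    simp only [← hQ, 𝒜.zero]
  have hs' : ContDiffAt ℝ ∞ h' ξ := (contDiffAt_const.prodMk hE2).prodMk (contDiffAt_norm ℝ h0)
  have hcomp : ContDiffAt ℝ ∞ (fun η => 𝒜.ψ (gd p Q ‖ξ‖)
      (gd ((𝒜.ψ p).symm (h' η).1.1) ((𝒜.ψ Q).symm (h' η).1.2) (h' η).2)) ξ := by
    refine ContDiffAt.comp (g := fun z : (Eu n × Eu n) × ℝ =>
      𝒜.ψ (gd p Q ‖ξ‖) (gd ((𝒜.ψ p).symm z.1.1) ((𝒜.ψ Q).symm z.1.2) z.2)) (f := h') ξ ?_ hs'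
    rw [hh0]
    exact hgd
  have hne : ∀ᶠ η : Eu n in 𝓝 ξ, η ≠ 0 := isOpen_ne.mem_nhds h0
  have hsrc : ∀ᶠ η in 𝓝 ξ, 𝒜.Ex p (ζ η) ∈ (𝒜.ψ Q).source := by
    have k1 : ContinuousAt (fun η => 𝒜.Ex p (ζ η)) ξ :=
      ContinuousAt.comp (g := 𝒜.Ex p) (f := ζ) (continuous_Ex 𝒜 hB p).continuousAt hζs.continuousAt
    exact k1.eventually ((𝒜.ψ Q).open_source.mem_nhds (𝒜.mem Q))
  refine hcomp.congr_of_eventuallyEq ?_
  filter_upwards [hne, hsrc] with η h1 h2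
  show 𝒜.ψ (𝒜.Ex p ξ) (𝒜.Ex p η) = 𝒜.ψ (gd p Q ‖ξ‖) (gd ((𝒜.ψ p).symm 0) ((𝒜.ψ Q).symm (𝒜.ψ Q (𝒜.Ex p (ζ η)))) ‖η‖)
  rw [exc_symm_zero, (𝒜.ψ Q).left_inv h2, ← hgeo η h1, hgeo ξ h0]

end Pool.Agent.Lib.MP_ccbbf6_gt.Geo
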