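import Pool.Agent.Lib.MP_ccbbf6_gt.Geo.CZ1
import Pool.Agent.Lib.MP_ccbbf6_gt.Geo.EXb

/-!
# CZ, part 2: expansions along geodesics, the set of directions
-/

set_option autoImplicit false
set_option linter.unusedSectionVars false

open Set Filter Topology Metric Real
open scoped ContDiff RealInnerProductSpace

noncomputable section

namespace Pool.Agent.Lib.MP_ccbbf6_gt.Geo

variable {n : ℕ} {M : Type*} [MetricSpace M] [CompactSpace M] (𝒜 : SDist n M)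

theorem fderiv_Ex_zero (hB : Bl M) (q : M) (v : Eu n) :
    fderiv ℝ (fun η => 𝒜.ψ q (𝒜.Ex q η)) 0 v = v := by
  have hmem : 𝒜.Ex q 0 ∈ (𝒜.ψ q).source := by rw [Ex_zero 𝒜 hB]; exact 𝒜.mem q
  have hC := contDiffAt_Ex 𝒜 hB q 0 hmem
  have hd : DifferentiableAt ℝ (fun η => 𝒜.ψ q (𝒜.Ex q η)) 0 := hC.differentiableAt (by simp)
  have key : ∀ u : Eu n, ‖u‖ = 1 → fderiv ℝ (fun η => 𝒜.ψ q (𝒜.Ex q η)) 0 u = u := by
    intro u hu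
    obtain ⟨hg, hg0, hgv⟩ := gv_spec 𝒜 hB q hu
    have h1 := (IsGeo.exists_vel 𝒜 hg 0).2
    unfold SDist.IsVel at h1
    rw [hg0, hgv] at h1
    have h2 : HasDerivAt (fun t : ℝ => t • u) ((1 : ℝ) • u) 0 := (hasDerivAt_id (0 : ℝ)).smul_const u
    rw [one_smul] at h2
    have h3 : HasDerivAt (fun t : ℝ => 𝒜.ψ q (𝒜.Ex q (t • u))) (fderiv ℝ (fun η => 𝒜.ψ q (𝒜.Ex q η)) 0 u) 0 := by
      have h4 : HasFDerivAt (fun η => 𝒜.ψ q (𝒜.Ex q η)) (fderiv ℝ (fun η => 𝒜.ψ q (𝒜.Ex q η)) 0) ((0 : ℝ) • u) := by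
        rw [zero_smul]; exact hd.hasFDerivAt
      exact h4.comp_hasDerivAt (0 : ℝ) h2
    have h5 : (fun t : ℝ => 𝒜.ψ q (𝒜.Ex q (t • u))) = fun t => 𝒜.ψ q (𝒜.gv q u t) := by
      funext t
      rw [Ex_smul 𝒜 hB q hu]
    rw [h5] at h3
    exact h3.unique h1
  rcases eq_or_ne v 0 with rfl | hv
  · exact map_zero _
  · have h0 : ‖v‖ ≠ 0 := norm_ne_zero_iff.2 hv
    have h1 := key (‖v‖⁻¹ • v) (by rw [norm_smul, norm_inv, norm_norm, inv_mul_cancel₀ h0])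
    have h2 : ‖v‖ • fderiv ℝ (fun η => 𝒜.ψ q (𝒜.Ex q η)) 0 (‖v‖⁻¹ • v) = ‖v‖ • (‖v‖⁻¹ • v) := by rw [h1]
    rwa [← map_smul, smul_smul, mul_inv_cancel₀ h0, one_smul] at h2

/-- the exponential map at the origin -/
theorem exq (hB : Bl M) (q : M) : ∃ η C : ℝ, 0 < η ∧ 0 ≤ C ∧ ∀ ξ : Eu n, ‖ξ‖ < η →
    𝒜.Ex q ξ ∈ (𝒜.ψ q).source ∧ ‖𝒜.ψ q (𝒜.Ex q ξ) - ξ‖ ≤ C * ‖ξ‖ ^ 2 := by
  have hmem : 𝒜.Ex q 0 ∈ (𝒜.ψ q).source := by rw [Ex_zero 𝒜 hB]; exact 𝒜.mem q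
  have hC := contDiffAt_Ex 𝒜 hB q 0 hmem
  obtain ⟨δ, C, hδ, hC0, h⟩ := CL.taylor_zero (hC.of_le two_le_inf)
  obtain ⟨ρ, hρ, hρ'⟩ := exists_ball 𝒜 q one_pos
  refine ⟨min (min δ ρ) π, C, lt_min (lt_min hδ hρ) Real.pi_pos, hC0, fun ξ hξ => ?_⟩
  obtain ⟨⟨h1, h2⟩, h3⟩ : (‖ξ‖ < δ ∧ ‖ξ‖ < ρ) ∧ ‖ξ‖ < π := by simpa only [lt_min_iff] using hξ
  refine ⟨(hρ' _ (by rw [dist_Ex 𝒜 hB q h3.le]; exact h2)).1, ?_⟩
  have h4 := h ξ h1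
  rw [fderiv_Ex_zero 𝒜 hB, Ex_zero 𝒜 hB, 𝒜.zero, sub_zero] at h4
  exact h4

/-- geodesics through the base point -/
theorem geo_exp (hB : Bl M) (q : M) : ∃ η C : ℝ, 0 < η ∧ 0 ≤ C ∧ ∀ c : ℝ → M, IsGeo c → ∀ s : ℝ, c s = q →
    ∀ r : ℝ, |r| < η → c (s + r) ∈ (𝒜.ψ q).source ∧ ‖𝒜.ψ q (c (s + r)) - r • 𝒜.vel c s‖ ≤ C * r ^ 2 := by
  obtain ⟨η, C, hη, hC, h⟩ := exq 𝒜 hB q
  refine ⟨η, C, hη, hC, fun c hc s hs r hr => ?_⟩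
  have hv := (IsGeo.exists_vel 𝒜 hc s).1
  have h1 := gv_eq 𝒜 hc s
  have h2 := Ex_smul 𝒜 hB (c s) hv r
  rw [h1] at h2
  have hn : ‖r • 𝒜.vel c s‖ = |r| := by rw [norm_smul, hv, mul_one, Real.norm_eq_abs]
  have h3 := h (r • 𝒜.vel c s) (by rw [hn]; exact hr)
  rw [← hs, h2, hn, sq_abs] at h3
  rw [← hs]
  exact h3

/-- the set of pairs of directions at `q`, `p` of the geodesics of length `π` from `q` to `p` -/
def SDist.LL (q p : M) : Set (Eu n × Eu n) :=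
  {v | ∃ c : ℝ → M, IsGeo c ∧ c 0 = q ∧ c π = p ∧ 𝒜.vel c 0 = v.1 ∧ 𝒜.vel c π = -v.2}

theorem LL_unit {q p : M} {w x : Eu n} (h : (w, x) ∈ 𝒜.LL q p) : ‖w‖ = 1 ∧ ‖x‖ = 1 := by
  obtain ⟨c, hc, -, -, h1, h2⟩ := h
  refine ⟨?_, ?_⟩
  · have := (IsGeo.exists_vel 𝒜 hc 0).1
    rwa [h1] at this
  · have := (IsGeo.exists_vel 𝒜 hc π).1
    rwa [h2, norm_neg] at this

theorem LL_nonempty (hB : Bl M) {q p : M} (h : dist q p = π) : (𝒜.LL q p).Nonempty := by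
  have hne : q ≠ p := by
    intro h1
    rw [h1, dist_self] at h
    exact Real.pi_pos.ne h
  obtain ⟨c, hc, h0, h1⟩ := exists_geo 𝒜 hB hne
  rw [h] at h1
  exact ⟨(𝒜.vel c 0, -𝒜.vel c π), c, hc, h0, h1, rfl, (neg_neg _).symm⟩

/-- limits of geodesics with fixed end points; general form -/
theorem LL_lim {q p : M} {ι : Type*} (l : Ultrafilter ι) (c : ι → ℝ → M) (hc : ∀ i, IsGeo (c i))
    (v : ι → Eu n × Eu n) {v' : Eu n × Eu n} (hv : Tendsto v l (𝓝 v'))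
    (h0 : ∀ᶠ i in (l : Filter ι), c i 0 = q) (hπ : ∀ᶠ i in (l : Filter ι), c i π = p)
    (h1 : ∀ᶠ i in (l : Filter ι), 𝒜.vel (c i) 0 = (v i).1) (h2 : ∀ᶠ i in (l : Filter ι), 𝒜.vel (c i) π = -(v i).2) :
    v' ∈ 𝒜.LL q p := by
  obtain ⟨c', hc', hlim⟩ := exists_limit_geo l c hc
  have e0 : c' 0 = q := tendsto_nhds_unique (hlim 0) (tendsto_const_nhds.congr' (h0.mono fun i hi => hi.symm))
  have eπ : c' π = p := tendsto_nhds_unique (hlim π) (tendsto_const_nhds.congr' (hπ.mono fun i hi => hi.symm))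
  refine ⟨c', hc', e0, eπ, ?_, ?_⟩
  · have t1 := tendsto_vel 𝒜 hc hc' hlim (p := q) (s := 0) (by rw [e0]; exact 𝒜.mem q)
    have t2 : Tendsto (fun i => (v i).1) l (𝓝 v'.1) := (continuous_fst.tendsto _).comp hv
    have t3 : deriv (fun t => 𝒜.ψ q (c' t)) 0 = 𝒜.vel c' 0 := by unfold SDist.vel; rw [e0]
    rw [t3] at t1
    refine tendsto_nhds_unique t1 (t2.congr' ?_)
    filter_upwards [h0, h1] with i hi0 hi1
    rw [← hi1]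
    unfold SDist.vel
    rw [hi0]
  · have t1 := tendsto_vel 𝒜 hc hc' hlim (p := p) (s := π) (by rw [eπ]; exact 𝒜.mem p)
    have t2 : Tendsto (fun i => -(v i).2) l (𝓝 (-v'.2)) := ((continuous_snd.tendsto _).comp hv).neg
    have t3 : deriv (fun t => 𝒜.ψ p (c' t)) π = 𝒜.vel c' π := by unfold SDist.vel; rw [eπ]
    rw [t3] at t1
    refine tendsto_nhds_unique t1 (t2.congr' ?_)
    filter_upwards [hπ, h2] with i hi0 hi1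
    rw [← hi1]
    unfold SDist.vel
    rw [hi0]

theorem LL_closed (hB : Bl M) {q p : M} (h : dist q p = π) : IsClosed (𝒜.LL q p) := by
  rw [isClosed_iff_ultrafilter]
  intro x u hu hmem
  obtain ⟨v0, c0, hc0, -⟩ := LL_nonempty 𝒜 hB h
  have hch : ∀ v : Eu n × Eu n, ∃ c : ℝ → M, IsGeo c ∧
      (v ∈ 𝒜.LL q p → c 0 = q ∧ c π = p ∧ 𝒜.vel c 0 = v.1 ∧ 𝒜.vel c π = -v.2) := by
    intro v
    by_cases hv : v ∈ 𝒜.LL q p
    · obtain ⟨c, hc, h1⟩ := hv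
      exact ⟨c, hc, fun _ => h1⟩
    · exact ⟨c0, hc0, fun h1 => absurd h1 hv⟩
  choose c hc h1 using hch
  have hm : ∀ᶠ v in (u : Filter (Eu n × Eu n)), v ∈ 𝒜.LL q p := hmem
  exact LL_lim 𝒜 u c hc id hu (hm.mono fun v hv => (h1 v hv).1) (hm.mono fun v hv => (h1 v hv).2.1)
    (hm.mono fun v hv => (h1 v hv).2.2.1) (hm.mono fun v hv => (h1 v hv).2.2.2)

end Pool.Agent.Lib.MP_ccbbf6_gt.Geo
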