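import Pool.Agent.Lib.MP_ccbbf6_gt.Geo.CZa

/-!
# CZt: triples on a closed geodesic (helper13)

* `tl_crit`: first variation in an arbitrary chart: for points on different sides of `g τ` the derivatives of the
  distances are opposite.
* `tl_zero`: the derivative of `d(x,y) + d(y,z) + d(x,z)` vanishes at a triple of points of a closed geodesic.
-/

set_option autoImplicit false

open Set Filter Topology Metric Real
open scoped ContDiff RealInnerProductSpace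

noncomputable section

namespace Pool.Agent.Lib.MP_ccbbf6_gt.Geo

variable {n : ℕ} {M : Type*} [MetricSpace M] [CompactSpace M] (𝒜 : SDist n M)

/-- the distance to `q` in the chart centered at `p` -/
def SDist.dl (p q : M) (u : Eu n) : ℝ := dist ((𝒜.ψ p).symm u) q

theorem tl_smooth (hB : Bl M) {p q p' q' : M} (hp : p' ∈ (𝒜.ψ p).source) (hq : q' ∈ (𝒜.ψ q).source)
    (h0 : 0 < dist p' q') (h1 : dist p' q' < π) : DifferentiableAt ℝ (𝒜.f p q) (𝒜.ψ p p', 𝒜.ψ q q') :=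
  (((contDiffAt_f_iff 𝒜 hp hq).2 (contDiffAt_f 𝒜 hB h0 h1)).of_le two_le_infty).differentiableAt (by norm_num)

theorem tl_fst (hB : Bl M) {p q p' q' : M} (hp : p' ∈ (𝒜.ψ p).source) (hq : q' ∈ (𝒜.ψ q).source)
    (h0 : 0 < dist p' q') (h1 : dist p' q' < π) (a : Eu n) :
    fderiv ℝ (𝒜.f p q) (𝒜.ψ p p', 𝒜.ψ q q') (a, 0) = fderiv ℝ (𝒜.dl p q') (𝒜.ψ p p') a := by
  have e1 : (fun u => 𝒜.f p q (u, 𝒜.ψ q q')) = 𝒜.dl p q' := by
    funext u
    unfold SDist.f SDist.dl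
    rw [(𝒜.ψ q).left_inv hq]
  rw [← e1, sm0_fderiv_fst (tl_smooth 𝒜 hB hp hq h0 h1)]
  rfl

theorem tl_snd (hB : Bl M) {p q p' q' : M} (hp : p' ∈ (𝒜.ψ p).source) (hq : q' ∈ (𝒜.ψ q).source)
    (h0 : 0 < dist p' q') (h1 : dist p' q' < π) (b : Eu n) :
    fderiv ℝ (𝒜.f p q) (𝒜.ψ p p', 𝒜.ψ q q') (0, b) = fderiv ℝ (𝒜.dl q p') (𝒜.ψ q q') b := by
  have e1 : (fun v => 𝒜.f p q (𝒜.ψ p p', v)) = 𝒜.dl q p' := by
    funext u
    unfold SDist.f SDist.dl
    rw [(𝒜.ψ p).left_inv hp, dist_comm]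
  rw [← e1, sm0_fderiv_snd (tl_smooth 𝒜 hB hp hq h0 h1)]
  rfl

theorem tl_split (hB : Bl M) {p q p' q' : M} (hp : p' ∈ (𝒜.ψ p).source) (hq : q' ∈ (𝒜.ψ q).source)
    (h0 : 0 < dist p' q') (h1 : dist p' q' < π) (a b : Eu n) :
    fderiv ℝ (𝒜.f p q) (𝒜.ψ p p', 𝒜.ψ q q') (a, b) =
      fderiv ℝ (𝒜.dl p q') (𝒜.ψ p p') a + fderiv ℝ (𝒜.dl q p') (𝒜.ψ q q') b := by
  rw [← tl_fst 𝒜 hB hp hq h0 h1, ← tl_snd 𝒜 hB hp hq h0 h1, ← map_add]
  simp

theorem tl_dl (hB : Bl M) {p p' q' : M} (hp : p' ∈ (𝒜.ψ p).source) (h0 : 0 < dist p' q') (h1 : dist p' q' < π) :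
    DifferentiableAt ℝ (𝒜.dl p q') (𝒜.ψ p p') := by
  have e1 : (fun u => 𝒜.f p q' (u, 𝒜.ψ q' q')) = 𝒜.dl p q' := by
    funext u
    unfold SDist.f SDist.dl
    rw [(𝒜.ψ q').left_inv (𝒜.mem q')]
  rw [← e1]
  exact ((tl_smooth 𝒜 hB hp (𝒜.mem q') h0 h1).hasFDerivAt.comp (𝒜.ψ p p')
    (hasFDerivAt_prodMk_left (𝕜 := ℝ) (𝒜.ψ p p') (𝒜.ψ q' q'))).differentiableAt

/-- two points on the same side -/
theorem tl_same (hB : Bl M) {p x q q' : M} (hx : x ∈ (𝒜.ψ p).source) (h0 : 0 < dist x q) (h0' : 0 < dist x q')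
    (h1 : dist x q' < π) (h2 : dist x q + dist q q' = dist x q') :
    fderiv ℝ (𝒜.dl p q) (𝒜.ψ p x) = fderiv ℝ (𝒜.dl p q') (𝒜.ψ p x) := by
  have hq : dist x q < π := by linarith [dist_nonneg (x := q) (y := q')]
  have hmin : IsLocalMin (fun u => 𝒜.dl p q u - 𝒜.dl p q' u) (𝒜.ψ p x) := by
    refine Filter.Eventually.of_forall fun u => ?_
    unfold SDist.dl
    simp only [(𝒜.ψ p).left_inv hx]
    have := dist_triangle ((𝒜.ψ p).symm u) q q'
    linarith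
  have h3 := hmin.hasFDerivAt_eq_zero ((tl_dl 𝒜 hB hx h0 hq).hasFDerivAt.sub (tl_dl 𝒜 hB hx h0' h1).hasFDerivAt)
  exact sub_eq_zero.1 h3

/-- two points on different sides -/
theorem tl_opp (hB : Bl M) {p x q q' : M} (hx : x ∈ (𝒜.ψ p).source) (h0 : 0 < dist x q) (h0' : 0 < dist x q')
    (h1 : dist x q < π) (h1' : dist x q' < π) (h2 : dist q x + dist x q' = dist q q') :
    fderiv ℝ (𝒜.dl p q) (𝒜.ψ p x) + fderiv ℝ (𝒜.dl p q') (𝒜.ψ p x) = 0 := by
  have hmin : IsLocalMin (fun u => 𝒜.dl p q u + 𝒜.dl p q' u) (𝒜.ψ p x) := by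
    refine Filter.Eventually.of_forall fun u => ?_
    unfold SDist.dl
    simp only [(𝒜.ψ p).left_inv hx]
    have := dist_triangle q ((𝒜.ψ p).symm u) q'
    rw [dist_comm q x] at h2
    rw [dist_comm q ((𝒜.ψ p).symm u)] at this
    linarith
  exact hmin.hasFDerivAt_eq_zero ((tl_dl 𝒜 hB hx h0 h1).hasFDerivAt.add (tl_dl 𝒜 hB hx h0' h1').hasFDerivAt)

theorem tl_crit (hB : Bl M) {g : ℝ → M} (hg : IsGeo g) {p : M} {τ α β : ℝ} (hτ : g τ ∈ (𝒜.ψ p).source)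
    (hα : 0 < α) (hα' : α < π) (hβ : 0 < β) (hβ' : β < π) :
    fderiv ℝ (𝒜.dl p (g (τ + α))) (𝒜.ψ p (g τ)) + fderiv ℝ (𝒜.dl p (g (τ - β))) (𝒜.ψ p (g τ)) = 0 := by
  have a1 : dist (g τ) (g (τ + α)) = α := by rw [tr_dist hg (by linarith) (by linarith)]; ring
  have a2 : dist (g τ) (g (τ + α / 2)) = α / 2 := by rw [tr_dist hg (by linarith) (by linarith)]; ring
  have a3 : dist (g (τ + α / 2)) (g (τ + α)) = α / 2 := by rw [tr_dist hg (by linarith) (by linarith)]; ring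
  have b1 : dist (g τ) (g (τ - β)) = β := by rw [dist_comm, tr_dist hg (by linarith) (by linarith)]; ring
  have b2 : dist (g τ) (g (τ - β / 2)) = β / 2 := by rw [dist_comm, tr_dist hg (by linarith) (by linarith)]; ring
  have b3 : dist (g (τ - β / 2)) (g (τ - β)) = β / 2 := by
    rw [dist_comm, tr_dist hg (by linarith) (by linarith)]; ring
  have c1 : dist (g (τ + α / 2)) (g (τ - β / 2)) = α / 2 + β / 2 := by
    rw [dist_comm, tr_dist hg (by linarith) (by linarith)]; ring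
  have e1 := tl_same 𝒜 hB (p := p) (x := g τ) (q := g (τ + α / 2)) (q' := g (τ + α)) hτ (by rw [a2]; linarith)
    (by rw [a1]; linarith) (by rw [a1]; linarith) (by rw [a1, a2, a3]; ring)
  have e2 := tl_same 𝒜 hB (p := p) (x := g τ) (q := g (τ - β / 2)) (q' := g (τ - β)) hτ (by rw [b2]; linarith)
    (by rw [b1]; linarith) (by rw [b1]; linarith) (by rw [b1, b2, b3]; ring)
  have e3 := tl_opp 𝒜 hB (p := p) (x := g τ) (q := g (τ + α / 2)) (q' := g (τ - β / 2)) hτ (by rw [a2]; linarith)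
    (by rw [b2]; linarith) (by rw [a2]; linarith) (by rw [b2]; linarith) (by rw [dist_comm, a2, b2, c1])
  rw [← e1, ← e2]
  exact e3

/-- the derivative of `d(x,y) + d(y,z) + d(x,z)` vanishes at a triple of points of a closed geodesic -/
theorem tl_zero (hB : Bl M) {g : ℝ → M} (hg : IsGeo g) {x y z : M} {l m : ℝ} (hz : g 0 ∈ (𝒜.ψ z).source)
    (hx : g l ∈ (𝒜.ψ x).source) (hy : g (l + m) ∈ (𝒜.ψ y).source) (h1 : 0 < l) (h2 : l < π) (h3 : 0 < m)
    (h4 : m < π) (h5 : l + m < 2 * π) (h6 : π < l + m) :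
    fderiv ℝ (𝒜.tr x y z 1) (𝒜.ψ x (g l), 𝒜.ψ y (g (l + m)), 𝒜.ψ z (g 0)) = 0 := by
  have c1 : g (l + m + (2 * π - l - m)) = g 0 := by
    have := hg.closed 𝒜 hB 0
    rw [← this]
    congr 1
    ring
  have c2 : g (0 - (2 * π - l - m)) = g (l + m) := by
    have := hg.closed 𝒜 hB (0 - (2 * π - l - m))
    rw [← this]
    congr 1
    ring
  have dxy : dist (g l) (g (l + m)) = m := by rw [tr_dist hg (by linarith) (by linarith)]; ring
  have dyz : dist (g (l + m)) (g 0) = 2 * π - l - m := by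
    rw [← c1, tr_dist hg (by linarith) (by linarith)]; ring
  have dxz : dist (g l) (g 0) = l := by rw [dist_comm, tr_dist hg (by linarith) (by linarith)]; ring
  have t1 := tl_split 𝒜 hB hx hy (by rw [dxy]; linarith) (by rw [dxy]; linarith)
  have t2 := tl_split 𝒜 hB hy hz (by rw [dyz]; linarith) (by rw [dyz]; linarith)
  have t3 := tl_split 𝒜 hB hx hz (by rw [dxz]; linarith) (by rw [dxz]; linarith)
  have k1 := tl_crit 𝒜 hB hg (p := x) (τ := l) (α := m) (β := l) hx (by linarith) (by linarith) (by linarith)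
    (by linarith)
  have k2 := tl_crit 𝒜 hB hg (p := y) (τ := l + m) (α := 2 * π - l - m) (β := m) hy (by linarith) (by linarith)
    (by linarith) (by linarith)
  have k3 := tl_crit 𝒜 hB hg (p := z) (τ := 0) (α := l) (β := 2 * π - l - m) hz (by linarith) (by linarith)
    (by linarith) (by linarith)
  rw [sub_self] at k1
  rw [c1, add_sub_cancel_right] at k2
  rw [c2, zero_add] at k3
  have hf := tr_fderiv 𝒜 (x := x) (y := y) (z := z) (σ := 1) (w := (𝒜.ψ x (g l), 𝒜.ψ y (g (l + m)), 𝒜.ψ z (g 0)))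
    (tl_smooth 𝒜 hB hx hy (by rw [dxy]; linarith) (by rw [dxy]; linarith))
    (tl_smooth 𝒜 hB hy hz (by rw [dyz]; linarith) (by rw [dyz]; linarith))
    (tl_smooth 𝒜 hB hx hz (by rw [dxz]; linarith) (by rw [dxz]; linarith))
  rw [hf.fderiv]
  refine ContinuousLinearMap.ext fun v => ?_
  obtain ⟨a, e, b⟩ := v
  have j1 := congrArg (fun T => T a) k1
  have j2 := congrArg (fun T => T e) k2
  have j3 := congrArg (fun T => T b) k3
  simp only [add_apply, zero_apply] at j1 j2 j3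
  show fderiv ℝ (𝒜.f x y) (𝒜.ψ x (g l), 𝒜.ψ y (g (l + m))) (a, e) +
    fderiv ℝ (𝒜.f y z) (𝒜.ψ y (g (l + m)), 𝒜.ψ z (g 0)) (e, b) +
    1 * fderiv ℝ (𝒜.f x z) (𝒜.ψ x (g l), 𝒜.ψ z (g 0)) (a, b) = 0
  rw [t1, t2, t3]
  linarith

/-- three points on a closed geodesic, not on a half of it: the second derivative of
`d(x,y) + d(y,z) + d(z,x) - 2π` vanishes on the tangent vectors of the set of such triples -/
theorem tri_long (hB : Bl M) {c : ℝ → M} (hc : IsGeo c) {r s t : ℝ} (h1 : r < s) (h2 : s < t) (h3 : s < r + π)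
    (h4 : t < s + π) (h5 : r + π < t) :
    ∃ e : Eu n → Eu n → Eu n, ∀ a b,
      (∀ a', 𝒜.H (c r) (c s) a a' + 𝒜.H (c r) (c t) a a' + 𝒜.B (c r) (c s) a' (e a b)
        + 𝒜.B (c r) (c t) a' b = 0) ∧
      (∀ e', 𝒜.H (c s) (c r) (e a b) e' + 𝒜.H (c s) (c t) (e a b) e' + 𝒜.B (c r) (c s) a e'
        + 𝒜.B (c s) (c t) e' b = 0) ∧
      (∀ b', 𝒜.H (c t) (c s) b b' + 𝒜.H (c t) (c r) b b' + 𝒜.B (c s) (c t) (e a b) b'
        + 𝒜.B (c r) (c t) a b' = 0) := by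
  have hcl : c (r + 2 * π) = c r := hc.closed 𝒜 hB r
  have dzx : dist (c t) (c r) = r + 2 * π - t := by
    rw [← hcl, tr_dist hc (by linarith) (by linarith)]
  have dxy : dist (c r) (c s) = s - r := tr_dist hc h1.le h3.le
  have hxz : ContDiffAt ℝ ∞ (𝒜.f (c r) (c t)) (0, 0) :=
    contDiffAt_f 𝒜 hB (by rw [dist_comm, dzx]; linarith) (by rw [dist_comm, dzx]; linarith)
  have key : ∀ a b : Eu n, ∃ e : Eu n,
      (∀ a', 𝒜.H (c r) (c s) a a' + 1 * 𝒜.H (c r) (c t) a a' + 𝒜.B (c r) (c s) a' e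
        + 1 * 𝒜.B (c r) (c t) a' b = 0) ∧
      (∀ e', 𝒜.H (c s) (c r) e e' + 𝒜.H (c s) (c t) e e' + 𝒜.B (c r) (c s) a e' + 𝒜.B (c s) (c t) e' b = 0) ∧
      (∀ b', 𝒜.H (c t) (c s) b b' + 1 * 𝒜.H (c t) (c r) b b' + 𝒜.B (c s) (c t) e b'
        + 1 * 𝒜.B (c r) (c t) a b' = 0) := by
    intro a b
    have hx := tr_tendsto_symm 𝒜 (c r) a
    have hz := tr_tendsto_symm 𝒜 (c t) b
    have hd : Tendsto (fun ε : ℝ => dist ((𝒜.ψ (c t)).symm (ε • b)) ((𝒜.ψ (c r)).symm (ε • a))) (𝓝 0)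
        (𝓝 (r + 2 * π - t)) := by
      have := hz.dist hx
      rwa [dzx] at this
    have hd' : Tendsto (fun ε : ℝ => dist ((𝒜.ψ (c t)).symm (ε • b)) ((𝒜.ψ (c r)).symm (ε • a)) + (s - r)) (𝓝 0)
        (𝓝 (r + 2 * π - t + (s - r))) := hd.add_const _
    have hy : Tendsto (fun ε : ℝ => gd ((𝒜.ψ (c t)).symm (ε • b)) ((𝒜.ψ (c r)).symm (ε • a))
        (dist ((𝒜.ψ (c t)).symm (ε • b)) ((𝒜.ψ (c r)).symm (ε • a)) + (s - r))) (𝓝 0) (𝓝 (c s)) := by
      have := tr_tendsto_gd 𝒜 hB hz hx hd' (by rw [dzx]; linarith) (by rw [dzx]; linarith)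
      have e1 := gd_eq 𝒜 hc (s := t) (t := r + 2 * π - t) (by linarith) (by linarith)
      rw [add_sub_cancel, hcl] at e1
      rw [e1] at this
      have e2 : c (t + (r + 2 * π - t + (s - r))) = c s := by
        rw [← hc.closed 𝒜 hB s]
        congr 1
        ring
      simp only [e2] at this
      exact this
    have hxt : ∀ᶠ ε : ℝ in 𝓝 0, ε • a ∈ (𝒜.ψ (c r)).target := by
      have h6 : Tendsto (fun ε : ℝ => ε • a) (𝓝 0) (𝓝 ((0 : ℝ) • a)) :=
        (continuous_id.smul continuous_const).tendsto 0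
      rw [zero_smul] at h6
      exact h6.eventually ((𝒜.ψ (c r)).open_target.mem_nhds (zero_mem_target 𝒜 (c r)))
    have hzt : ∀ᶠ ε : ℝ in 𝓝 0, ε • b ∈ (𝒜.ψ (c t)).target := by
      have h6 : Tendsto (fun ε : ℝ => ε • b) (𝓝 0) (𝓝 ((0 : ℝ) • b)) :=
        (continuous_id.smul continuous_const).tendsto 0
      rw [zero_smul] at h6
      exact h6.eventually ((𝒜.ψ (c t)).open_target.mem_nhds (zero_mem_target 𝒜 (c t)))
    have hys : ∀ᶠ ε : ℝ in 𝓝 0, gd ((𝒜.ψ (c t)).symm (ε • b)) ((𝒜.ψ (c r)).symm (ε • a))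
        (dist ((𝒜.ψ (c t)).symm (ε • b)) ((𝒜.ψ (c r)).symm (ε • a)) + (s - r)) ∈ (𝒜.ψ (c s)).source :=
      hy.eventually ((𝒜.ψ (c s)).open_source.mem_nhds (𝒜.mem (c s)))
    have hl : ∀ᶠ ε : ℝ in 𝓝 0, dist ((𝒜.ψ (c t)).symm (ε • b)) ((𝒜.ψ (c r)).symm (ε • a)) ∈
        Ioo (max 0 (π - (s - r))) (min π (2 * π - (s - r))) := by
      refine hd.eventually (isOpen_Ioo.mem_nhds ⟨max_lt ?_ ?_, lt_min ?_ ?_⟩) <;> linarith
    refine tr_three 𝒜 (x := c r) (y := c s) (z := c t) (σ := 1) (tr_smooth 𝒜 hB hc h1 (by linarith))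
      (tr_smooth 𝒜 hB hc h2 (by linarith)) hxz a b
      (fun ε => 𝒜.ψ (c s) (gd ((𝒜.ψ (c t)).symm (ε • b)) ((𝒜.ψ (c r)).symm (ε • a))
        (dist ((𝒜.ψ (c t)).symm (ε • b)) ((𝒜.ψ (c r)).symm (ε • a)) + (s - r)))) ?_ ?_ ?_ ?_
    · have e1 := ((𝒜.ψ (c s)).continuousAt (𝒜.mem (c s))).tendsto
      rw [𝒜.zero] at e1
      exact (e1.comp hy).mono_left nhdsWithin_le_nhds
    · refine Filter.Eventually.filter_mono nhdsWithin_le_nhds ?_
      filter_upwards [hxt, hzt, hys, hl] with ε e1 e2 e3 e4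
      obtain ⟨e5, e6⟩ := e4
      rw [max_lt_iff] at e5
      rw [lt_min_iff] at e6
      have e7 := (𝒜.ψ (c r)).map_target e1
      have e8 := (𝒜.ψ (c t)).map_target e2
      have e9 := (𝒜.ψ (c r)).right_inv e1
      have e10 := (𝒜.ψ (c t)).right_inv e2
      set x' := (𝒜.ψ (c r)).symm (ε • a)
      set z' := (𝒜.ψ (c t)).symm (ε • b)
      have hne : z' ≠ x' := by
        intro h
        rw [h, dist_self] at e5
        exact lt_irrefl _ e5.1
      obtain ⟨g1, g2, g3⟩ := gd_spec 𝒜 hB hne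
      have h7 := tl_zero 𝒜 hB g1 (x := c r) (y := c s) (z := c t) (l := dist z' x') (m := s - r)
        (by rw [g2]; exact e8) (by rw [g3]; exact e7) e3 e5.1 e6.1 (by linarith) (by linarith) (by linarith)
        (by linarith)
      rw [g2, g3, e9, e10] at h7
      exact h7
    · refine Filter.Eventually.filter_mono nhdsWithin_le_nhds ?_
      filter_upwards [hys, hl] with ε e3 e4
      obtain ⟨e5, e6⟩ := e4
      rw [max_lt_iff] at e5
      have e7 := (𝒜.ψ (c s)).left_inv e3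
      unfold SDist.f
      simp only []
      rw [e7]
      set x' := (𝒜.ψ (c r)).symm (ε • a)
      set z' := (𝒜.ψ (c t)).symm (ε • b)
      have hne : z' ≠ x' := by
        intro h
        rw [h, dist_self] at e5
        exact lt_irrefl _ e5.1
      obtain ⟨g1, g2, g3⟩ := gd_spec 𝒜 hB hne
      have e8 := tr_dist g1 (s := dist z' x') (t := dist z' x' + (s - r)) (by linarith) (by linarith)
      rw [g3] at e8
      rw [e8, dxy]
      ring
    · intro e he1 _ he3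
      have e4 : 𝒜.D1 (c s) (c (s - (s - r))) e = ⟪𝒜.vel c s, e⟫ := D1_backward 𝒜 hB hc (by linarith) (by linarith) e
      rw [sub_sub_cancel, he3] at e4
      refine B_nondeg 𝒜 hB hc (s := s) (t := r) h1.ne' (by rw [abs_of_pos (by linarith)]; linarith) e4.symm
        fun a' => ?_
      rw [← B_symm 𝒜 hB (by rw [dxy]; linarith) (by rw [dxy]; linarith)]
      exact he1 a'
  choose e he using key
  refine ⟨e, fun a b => ⟨fun a' => ?_, (he a b).2.1, fun b' => ?_⟩⟩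
  · have := (he a b).1 a'
    linarith
  · have := (he a b).2.2 b'
    linarith

end Pool.Agent.Lib.MP_ccbbf6_gt.Geo
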