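import Pool.Agent.Lib.MP_ccbbf6_gt.Geo.DA3
import Pool.Agent.Lib.MP_ccbbf6_gt.MC

/-!
# DA: the data of Theorem 1 from the geometry
-/

set_option autoImplicit false
set_option linter.unusedSectionVars false

open Set Filter Topology Metric Real
open scoped ContDiff RealInnerProductSpace

noncomputable section

namespace Pool.Agent.Lib.MP_ccbbf6_gt.Geo

section aux

variable {N : ℕ} {M : Type*} [MetricSpace M] [CompactSpace M] (𝒜 : SDist (N + 1) M)

/-- `Γ` at the base point `c w` -/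
def SDist.Gw (c : ℝ → M) (w : ℝ) (L : Eu N →ₗᵢ[ℝ] Eu (N + 1)) (x : ℝ) : Matrix (Fin N) (Fin N) ℝ :=
  Matrix.of fun i j => ∑ k : Fin (N + 1),
    𝒜.B (c w) (c x) (L (EuclideanSpace.single i 1)) (EuclideanSpace.single k 1) *
    𝒜.B (c w) (c x) (L (EuclideanSpace.single j 1)) (EuclideanSpace.single k 1)

theorem da_dHw (hB : Bl M) {c : ℝ → M} (hc : IsGeo c) (L : Eu N →ₗᵢ[ℝ] Eu (N + 1)) {w x : ℝ} (h0 : w < x)
    (h1 : x < w + π) : BL.MD (fun x => 𝒜.Hm (c w) (c x) L) (-𝒜.Gw c w L x) x := fun i j =>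
  hasDerivAt_H 𝒜 hB hc h0 h1 (L (EuclideanSpace.single i 1)) (L (EuclideanSpace.single j 1))

theorem da_Gw_cont (hB : Bl M) {c : ℝ → M} (hc : IsGeo c) (L : Eu N →ₗᵢ[ℝ] Eu (N + 1)) {w x : ℝ} (h0 : w < x)
    (h1 : x < w + π) : ContinuousAt (𝒜.Gw c w L) x := by
  have h3 : Tendsto (𝒜.Gw c w L) (𝓝 x) (𝓝 (𝒜.Gw c w L x)) := by
    refine tendsto_pi_nhds.mpr fun i => tendsto_pi_nhds.mpr fun j => ?_
    have hd := hc.dist_pos (s := w) (t := x) h0.ne (by rw [abs_sub_lt_iff]; constructor <;> linarith [pi_pos])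
    have h4 : ContinuousAt (fun y => -deriv (fun z => 𝒜.Hm (c w) (c z) L i j) y) x :=
      (da_cont_deriv (da_contDiffAt_H 𝒜 hB hc hd.1 hd.2 (L (EuclideanSpace.single i 1))
        (L (EuclideanSpace.single j 1)))).neg
    have h5 : (fun y => 𝒜.Gw c w L y i j) =ᶠ[𝓝 x] fun y => -deriv (fun z => 𝒜.Hm (c w) (c z) L i j) y := by
      filter_upwards [Ioo_mem_nhds h0 h1] with y hy
      have := (da_dHw 𝒜 hB hc L hy.1 hy.2 i j).deriv
      rw [this]; simp
    exact (h4.congr_of_eventuallyEq h5 : ContinuousAt (fun y => 𝒜.Gw c w L y i j) x)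
  exact h3

theorem da_Gw_pos (hB : Bl M) {c : ℝ → M} (hc : IsGeo c) {L : Eu N →ₗᵢ[ℝ] Eu (N + 1)} {w x : ℝ}
    (hL : Frame (𝒜.vel c w) L) (h0 : w < x) (h1 : x < w + π) : (𝒜.Gw c w L x).PosDef := by
  have hwx : |w - x| < π := by rw [abs_sub_lt_iff]; constructor <;> linarith [pi_pos]
  obtain ⟨Lx, hx⟩ := da_frame_exists (hc.exists_vel 𝒜 x).1
  have h2 : 𝒜.Gw c w L x = 𝒜.Bm (c w) (c x) L Lx * (𝒜.Bm (c w) (c x) L Lx).transpose := by
    ext i j
    simp only [SDist.Gw, Matrix.of_apply, Matrix.mul_apply, Matrix.transpose_apply, SDist.Bm]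
    exact da_sum_frame 𝒜 hB hc h0.ne hwx hx _ _
  rw [h2]
  exact da_posDef_BB (da_Bm_det 𝒜 hB hc h0.ne hwx hL hx)

/-- congruence of a positive definite matrix -/
theorem da_congr_pos {X P : Matrix (Fin N) (Fin N) ℝ} (hX : X.PosDef) (hP : P.det ≠ 0) :
    ((P.transpose)⁻¹ * X * P⁻¹).PosDef := by
  have h1 : IsUnit (P⁻¹) := by
    rw [Matrix.isUnit_iff_isUnit_det]
    exact Matrix.isUnit_nonsing_inv_det _ (isUnit_iff_ne_zero.mpr hP)
  have h2 := Matrix.PosDef.conjTranspose_mul_mul_same (A := X) (B := P⁻¹) hX (Matrix.mulVec_injective_of_isUnit h1)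
  rw [Matrix.conjTranspose_eq_transpose_of_trivial, Matrix.transpose_nonsing_inv] at h2
  exact h2

theorem da_congr_psd {X P : Matrix (Fin N) (Fin N) ℝ} (hX : X.PosSemidef) :
    ((P.transpose)⁻¹ * X * P⁻¹).PosSemidef := by
  have h2 := hX.conjTranspose_mul_mul_same (P⁻¹)
  rw [Matrix.conjTranspose_eq_transpose_of_trivial, Matrix.transpose_nonsing_inv] at h2
  exact h2

theorem da_J_symm (hB : Bl M) {p q : M} (h : dist p q < π) : 𝒜.J p q = 𝒜.J q p := by
  rw [SDist.J, SDist.J, dist_comm, theta_symm 𝒜 hB h]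

theorem da_dist_uv (hB : Bl M) {c : ℝ → M} (hc : IsGeo c) {u v : ℝ} (h0 : 0 < u) (huv : u < v) (h2 : v < 2 * π)
    (hne : v ≠ u + π) (_𝒜 : SDist (N + 1) M) : 0 < dist (c u) (c v) ∧ dist (c u) (c v) < π := by
  rcases lt_or_gt_of_ne hne with h | h
  · exact hc.dist_pos huv.ne (by rw [abs_sub_lt_iff]; constructor <;> linarith [pi_pos])
  · rw [da_dist_long _𝒜 hB hc (by linarith) (by linarith)]
    constructor <;> linarith

/-- the determinant formula -/
theorem da_JS (hB : Bl M) {c : ℝ → M} (hc : IsGeo c) {L : Eu N →ₗᵢ[ℝ] Eu (N + 1)} (hL : Frame (𝒜.vel c 0) L)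
    {u v : ℝ} (h0 : 0 < u) (huv : u < v) (h2 : v < 2 * π) (hu : u ≠ π) (hv : v ≠ π) (hne : v ≠ u + π) :
    (𝒜.Smat c L u - 𝒜.Smat c L v).det ^ 2 = 𝒜.J (c u) (c v) ^ 2 * (𝒜.Gmat c L u).det * (𝒜.Gmat c L v).det := by
  have hpi := pi_pos
  obtain ⟨Lu, fu⟩ := da_frame_exists (hc.exists_vel 𝒜 u).1
  obtain ⟨Lv, fv⟩ := da_frame_exists (hc.exists_vel 𝒜 v).1
  have du := da_Bm0_det 𝒜 hB hc hL h0 (huv.trans h2) hu fu
  have dv := da_Bm0_det 𝒜 hB hc hL (h0.trans huv) h2 hv fv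
  rw [da_detG 𝒜 hB hc L h0 (huv.trans h2) hu fu, da_detG 𝒜 hB hc L (h0.trans huv) h2 hv fv]
  rcases lt_or_gt_of_ne hv with hv1 | hv1
  · -- `v < π`
    have T := da_tri 𝒜 hB hc h0 huv (by linarith : v < 0 + π) (L1 := L) (L3 := Lv) fu
    have e := T.det_one (Or.inr rfl) du dv
    have eJ := da_J 𝒜 hB hc huv (by linarith : v < u + π) fu fv
    rw [da_Smat_lt 𝒜 L (huv.trans hv1), da_Smat_lt 𝒜 L hv1]
    rw [show 𝒜.Hm (c 0) (c u) L - 𝒜.Hm (c 0) (c v) L = 𝒜.Hm (c 0) (c u) L + (-1 : ℝ) • 𝒜.Hm (c 0) (c v) L by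
      rw [neg_one_smul, sub_eq_add_neg]]
    linear_combination (𝒜.J (c u) (c v)) ^ 2 * e - (𝒜.Hm (c 0) (c u) L + (-1 : ℝ) • 𝒜.Hm (c 0) (c v) L).det ^ 2 * eJ
  · rcases lt_or_gt_of_ne hu with hu1 | hu1
    · rcases lt_or_gt_of_ne hne with hn | hn
      · -- `u < π < v < u + π`
        have T := da_tri_long 𝒜 hB hc h0 huv (by linarith : u < 0 + π) (by linarith : v < u + π)
          (by linarith : 0 + π < v) (L1 := L) (L3 := Lv) fu
        have e := T.det_one (Or.inl rfl) du dv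
        have eJ := da_J 𝒜 hB hc huv (by linarith : v < u + π) fu fv
        rw [da_Smat_lt 𝒜 L hu1, da_Smat_gt 𝒜 L hv1]
        rw [show 𝒜.Hm (c 0) (c u) L - -𝒜.Hm (c 0) (c v) L = 𝒜.Hm (c 0) (c u) L + (1 : ℝ) • 𝒜.Hm (c 0) (c v) L by
          rw [one_smul, sub_neg_eq_add]]
        linear_combination (𝒜.J (c u) (c v)) ^ 2 * e
          - (𝒜.Hm (c 0) (c u) L + (1 : ℝ) • 𝒜.Hm (c 0) (c v) L).det ^ 2 * eJ
      · -- `u < π`, `u + π < v`
        have fv' : Frame (𝒜.vel c (v - 2 * π)) Lv := by rw [da_vel_period 𝒜 hB hc]; exact fv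
        have T := da_tri 𝒜 hB hc (by linarith : v - 2 * π < 0) h0 (by linarith : u < v - 2 * π + π)
          (L1 := Lv) (L3 := Lu) hL
        have hP : (𝒜.Bm (c (v - 2 * π)) (c 0) Lv L).det ≠ 0 :=
          da_Bm_det 𝒜 hB hc (by linarith : v - 2 * π < 0).ne
            (by rw [abs_sub_lt_iff]; constructor <;> linarith) fv' hL
        have e := T.det_two (Or.inr rfl) hP
        have eJ := da_J 𝒜 hB hc (by linarith : v - 2 * π < u) (by linarith : u < v - 2 * π + π) fv' fu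
        rw [da_period 𝒜 hB hc] at e eJ
        have hdv := da_dist 𝒜 hB hc (h0.trans huv) h2 hv
        have ht : (𝒜.Bm (c v) (c 0) Lv L).det = (𝒜.Bm (c 0) (c v) L Lv).det := by
          rw [← da_Bm_transpose 𝒜 hB hdv.1 hdv.2 L Lv, Matrix.det_transpose]
        have hduv := da_dist_uv hB hc h0 huv h2 hne 𝒜
        rw [ht] at e
        rw [da_J_symm 𝒜 hB (by rw [dist_comm]; exact hduv.2)] at eJ
        rw [da_Smat_lt 𝒜 L hu1, da_Smat_gt 𝒜 L hv1]
        rw [show 𝒜.Hm (c 0) (c u) L - -𝒜.Hm (c 0) (c v) L = 𝒜.Hm (c 0) (c v) L + 𝒜.Hm (c 0) (c u) L by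
          rw [sub_neg_eq_add, add_comm]]
        linear_combination (𝒜.J (c u) (c v)) ^ 2 * e
          - (𝒜.Hm (c 0) (c v) L + 𝒜.Hm (c 0) (c u) L).det ^ 2 * eJ
    · -- `π < u < v`
      have fv' : Frame (𝒜.vel c (v - 2 * π)) Lv := by rw [da_vel_period 𝒜 hB hc]; exact fv
      have fu' : Frame (𝒜.vel c (u - 2 * π)) Lu := by rw [da_vel_period 𝒜 hB hc]; exact fu
      have T := da_tri 𝒜 hB hc (by linarith : u - 2 * π < v - 2 * π) (by linarith : v - 2 * π < 0)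
        (by linarith : 0 < u - 2 * π + π) (L1 := Lu) (L3 := L) fv'
      have hQ : (𝒜.Bm (c (v - 2 * π)) (c 0) Lv L).det ≠ 0 :=
        da_Bm_det 𝒜 hB hc (by linarith : v - 2 * π < 0).ne
          (by rw [abs_sub_lt_iff]; constructor <;> linarith) fv' hL
      have hR : (𝒜.Bm (c (u - 2 * π)) (c 0) Lu L).det ≠ 0 :=
        da_Bm_det 𝒜 hB hc (by linarith : u - 2 * π < 0).ne
          (by rw [abs_sub_lt_iff]; constructor <;> linarith) fu' hL
      have e := T.det_three (Or.inr rfl) hQ hR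
      have eJ := da_J 𝒜 hB hc huv (by linarith : v < u + π) fu fv
      rw [da_period 𝒜 hB hc, da_period 𝒜 hB hc] at e
      have hdv := da_dist 𝒜 hB hc (h0.trans huv) h2 hv
      have hdu := da_dist 𝒜 hB hc h0 (huv.trans h2) hu
      have htv : (𝒜.Bm (c v) (c 0) Lv L).det = (𝒜.Bm (c 0) (c v) L Lv).det := by
        rw [← da_Bm_transpose 𝒜 hB hdv.1 hdv.2 L Lv, Matrix.det_transpose]
      have htu : (𝒜.Bm (c u) (c 0) Lu L).det = (𝒜.Bm (c 0) (c u) L Lu).det := by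
        rw [← da_Bm_transpose 𝒜 hB hdu.1 hdu.2 L Lu, Matrix.det_transpose]
      rw [htv, htu] at e
      rw [da_Smat_gt 𝒜 L hu1, da_Smat_gt 𝒜 L hv1]
      rw [show -𝒜.Hm (c 0) (c u) L - -𝒜.Hm (c 0) (c v) L = 𝒜.Hm (c 0) (c v) L + (-1 : ℝ) • 𝒜.Hm (c 0) (c u) L by
        rw [neg_one_smul, sub_neg_eq_add, add_comm]]
      linear_combination (𝒜.J (c u) (c v)) ^ 2 * e
        - (𝒜.Hm (c 0) (c v) L + (-1 : ℝ) • 𝒜.Hm (c 0) (c u) L).det ^ 2 * eJ

theorem da_J_pos (hB : Bl M) {p q : M} (h0 : 0 < dist p q) (h1 : dist p q < π) : 0 < 𝒜.J p q :=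
  div_pos (pow_pos h0 _) (theta_pos 𝒜 hB h1)

theorem IsGeo.cont {M : Type*} [MetricSpace M] {c : ℝ → M} (hc : IsGeo c) : Continuous c := by
  refine continuous_iff_continuousAt.mpr fun x0 => ?_
  refine Metric.continuousAt_iff.mpr fun ε hε => ⟨min ε π, lt_min hε pi_pos, fun y hy => ?_⟩
  have h2 : |y - x0| < min ε π := by rwa [Real.dist_eq] at hy
  rw [hc y x0 (h2.le.trans (min_le_right _ _))]
  exact lt_of_lt_of_le h2 (min_le_left _ _)

theorem da_J_cont (hB : Bl M) {c : ℝ → M} (hc : IsGeo c) {u : ℝ} (h0 : 0 < u) (h2 : u < 2 * π) (hu : u ≠ π) :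
    ContinuousAt (fun v => 𝒜.J (c u) (c v)) π ∧ 0 < 𝒜.J (c u) (c π) := by
  have hpi := pi_pos
  have hd := hc.dist_pos (s := u) (t := π) hu (by rw [abs_sub_lt_iff]; constructor <;> linarith)
  have hopen : IsOpen {z : M × M | dist z.1 z.2 < π} := isOpen_lt (by fun_prop) continuous_const
  have hth : ContinuousAt (fun z : M × M => 𝒜.theta z.1 z.2) (c u, c π) :=
    (tendsto_theta 𝒜 hB).continuousAt (hopen.mem_nhds hd.2)
  have h3 : ContinuousAt (fun v => ((c u, c v) : M × M)) π :=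
    continuousAt_const.prodMk hc.cont.continuousAt
  have hth2 : ContinuousAt (fun v => 𝒜.theta (c u) (c v)) π :=
    ContinuousAt.comp (f := fun v => ((c u, c v) : M × M)) (g := fun z : M × M => 𝒜.theta z.1 z.2) hth h3
  have hdi : ContinuousAt (fun v => dist (c u) (c v) ^ (N + 1 - 1)) π :=
    (continuousAt_const.dist hc.cont.continuousAt).pow _
  exact ⟨hdi.div hth2 (theta_pos 𝒜 hB hd.2).ne', da_J_pos 𝒜 hB hd.1 hd.2⟩

end aux

variable {n : ℕ} {M : Type*} [MetricSpace M] [CompactSpace M] (𝒜 : SDist n M)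

/-- the data of Theorem 1 from the geometry. PROOF: hasDerivAt_H, tendsto_H_zero, tri, tri_long, G_pos;
`K x = B(c w, c 0)⁻¹ (H(c w, c 0) + H(c w, c x)) B(c 0, c w)⁻¹`, `w = π / 2`. -/
theorem kdata {N : ℕ} (hn : n = N + 1) (hB : Bl M) {c : ℝ → M} (hc : IsGeo c) {L : Eu N →ₗᵢ[ℝ] Eu n}
    (hL : Frame (𝒜.vel c 0) L) : ∃ K K' : ℝ → Matrix (Fin N) (Fin N) ℝ,
      KData (𝒜.Smat c L) (𝒜.Gmat c L) K K' (fun u v => 𝒜.J (c u) (c v)) ∧
      (K π).PosSemidef ∧ ∀ V : Submodule ℝ (Eu n), (V : Set (Eu n)) = 𝒜.Ker c 0 (π / 2) →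
        Module.finrank ℝ V = Module.finrank ℝ (LinearMap.ker (Matrix.toLin' (K π))) := by
  subst hn
  have hpi := pi_pos
  set w : ℝ := π / 2 with hw
  obtain ⟨Lw, fw⟩ := da_frame_exists (hc.exists_vel 𝒜 w).1
  set P := 𝒜.Bm (c 0) (c w) L Lw with hPdef
  have hP : P.det ≠ 0 := da_Bm0_det 𝒜 hB hc hL (by linarith) (by linarith) (by linarith : w < π).ne fw
  have hPu : IsUnit P.det := isUnit_iff_ne_zero.mpr hP
  have hPtu : IsUnit P.transpose.det := by rw [Matrix.det_transpose]; exact hPu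
  set Y : ℝ → Matrix (Fin N) (Fin N) ℝ := fun x => 𝒜.Hm (c w) (c 0) Lw + 𝒜.Hm (c w) (c x) Lw with hY
  have hdw0 := hc.dist_pos (s := w) (t := 0) (by linarith : 0 < w).ne'
    (by rw [abs_sub_lt_iff]; constructor <;> linarith)
  have hdwx : ∀ x, w < x → x < w + π → 0 < dist (c w) (c x) ∧ dist (c w) (c x) < π := fun x h1 h2 =>
    hc.dist_pos h1.ne (by rw [abs_sub_lt_iff]; constructor <;> linarith)
  have hYsymm : ∀ x, w < x → x < w + π → (Y x).transpose = Y x := by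
    intro x h1 h2
    rw [hY, Matrix.transpose_add, da_Hm_symm 𝒜 hB hdw0.1 hdw0.2, da_Hm_symm 𝒜 hB (hdwx x h1 h2).1 (hdwx x h1 h2).2]
  have h32 : (3 : ℝ) * π / 2 = w + π := by rw [hw]; ring
  refine ⟨fun x => (P.transpose)⁻¹ * Y x * P⁻¹, fun x => (P.transpose)⁻¹ * (-𝒜.Gw c w Lw x) * P⁻¹, ?_, ?_, ?_⟩
  · refine
      { Ssymm := ?_
        dS := fun x hx hx1 => da_dS 𝒜 hB hc L hx.1 hx.2 hx1
        Gpos := fun x hx hx1 => da_Gpos 𝒜 hB hc hL hx.1 hx.2 hx1
        Gcont := fun x hx hx1 => da_Gcont 𝒜 hB hc L hx.1 hx.2 hx1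
        S0 := da_S0 𝒜 hc hL
        G0 := da_G0 𝒜 hc hL
        S2 := da_S2 𝒜 hB hc hL
        G2 := da_G2 𝒜 hB hc hL
        Ksymm := ?_
        dK := ?_
        K'neg := ?_
        K'cont := ?_
        SK := ?_
        Jpos := ?_
        Jcont := ?_
        JS := ?_ }
    · intro x hx hx1
      have hd := da_dist 𝒜 hB hc hx.1 hx.2 hx1
      rcases lt_or_gt_of_ne hx1 with h | h
      · rw [da_Smat_lt 𝒜 L h]; exact da_Hm_symm 𝒜 hB hd.1 hd.2 L
      · rw [da_Smat_gt 𝒜 L h, Matrix.transpose_neg, da_Hm_symm 𝒜 hB hd.1 hd.2 L]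
    · rintro x ⟨h1, h2⟩
      rw [h32] at h2
      rw [Matrix.transpose_mul, Matrix.transpose_mul, Matrix.transpose_nonsing_inv, Matrix.transpose_nonsing_inv,
        Matrix.transpose_transpose, hYsymm x h1 h2, Matrix.mul_assoc]
    · rintro x ⟨h1, h2⟩
      rw [h32] at h2
      have e1 : BL.MD Y (-𝒜.Gw c w Lw x) x := by
        have := BL.MD.add (BL.MD.const (𝒜.Hm (c w) (c 0) Lw) x) (da_dHw 𝒜 hB hc Lw h1 h2)
        rwa [zero_add] at this
      exact BL.MD.mul_const P⁻¹ (BL.MD.const_mul (P.transpose)⁻¹ e1)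
    · rintro x ⟨h1, h2⟩
      rw [h32] at h2
      have e1 := da_congr_pos (da_Gw_pos 𝒜 hB hc fw h1 h2) hP
      have e2 : -((P.transpose)⁻¹ * (-𝒜.Gw c w Lw x) * P⁻¹) = (P.transpose)⁻¹ * 𝒜.Gw c w Lw x * P⁻¹ := by
        rw [Matrix.mul_neg, Matrix.neg_mul, neg_neg]
      rw [e2]; exact e1
    · rintro x ⟨h1, h2⟩
      rw [h32] at h2
      have e1 := da_Gw_cont 𝒜 hB hc Lw h1 h2
      have e2 : Continuous (fun X : Matrix (Fin N) (Fin N) ℝ => (P.transpose)⁻¹ * (-X) * P⁻¹) := by fun_prop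
      exact ContinuousAt.comp (g := fun X : Matrix (Fin N) (Fin N) ℝ => (P.transpose)⁻¹ * (-X) * P⁻¹)
        e2.continuousAt e1
    · rintro x ⟨h1, h2⟩ h3
      rw [h32] at h2
      rcases lt_or_gt_of_ne h3 with h | h
      · have T := da_tri 𝒜 hB hc (by linarith : 0 < w) h1 (by linarith : x < 0 + π) (L1 := L) (L3 := Lw) fw
        have e := T.inv hP
        rw [neg_one_smul, ← sub_eq_add_neg] at e
        rw [da_Smat_lt 𝒜 L (by linarith : w < π), da_Smat_lt 𝒜 L h]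
        exact e
      · have T := da_tri_long 𝒜 hB hc (by linarith : 0 < w) h1 (by linarith : w < 0 + π) h2
          (by linarith : 0 + π < x) (L1 := L) (L3 := Lw) fw
        have e := T.inv hP
        rw [one_smul] at e
        rw [da_Smat_lt 𝒜 L (by linarith : w < π), da_Smat_gt 𝒜 L h, sub_neg_eq_add]
        exact e
    · intro u v h0 huv h2 hne
      have := da_dist_uv hB hc h0 huv h2 hne 𝒜
      exact da_J_pos 𝒜 hB this.1 this.2
    · intro u hu hu1
      exact da_J_cont 𝒜 hB hc hu.1 hu.2 hu1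
    · intro u v hu hv hv0 hu2 huv hu1 hv1 hne hne'
      rcases lt_or_gt_of_ne huv with h | h
      · exact da_JS 𝒜 hB hc hL hu h hv hu1 hv1 hne
      · have e := da_JS 𝒜 hB hc hL hv0 h hu2 hv1 hu1 hne'
        have hd := da_dist_uv hB hc hv0 h hu2 hne' 𝒜
        have e2 : (𝒜.Smat c L u - 𝒜.Smat c L v).det ^ 2 = (𝒜.Smat c L v - 𝒜.Smat c L u).det ^ 2 := by
          rw [← neg_sub, Matrix.det_neg, mul_pow, ← pow_mul, mul_comm (Fintype.card (Fin N)) 2, pow_mul]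
          simp
        rw [e2, e, da_J_symm 𝒜 hB hd.2]
        ring
  · -- positive semidefinite at `π`
    have h1 : w < π := by linarith
    have h2 : π < w + π := by linarith
    refine da_congr_psd ?_
    refine Matrix.PosSemidef.of_dotProduct_mulVec_nonneg ?_ fun x => ?_
    · rw [Matrix.isHermitian_iff_isSymm]
      exact hYsymm π h1 h2
    · set z : Eu N := WithLp.toLp 2 x with hz
      have e := G_nonneg 𝒜 hB hc (by linarith : 0 < w) h1 (by linarith : π ≤ 0 + π) (Lw z)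
      have e2 : ∀ q : M, 𝒜.H (c w) q (Lw z) (Lw z) = x ⬝ᵥ ((𝒜.Hm (c w) q Lw).mulVec x) := by
        intro q
        have h3 : ∀ a : Eu (N + 1), 𝒜.H (c w) q a (Lw z) = ((𝒜.H (c w) q).flip (Lw z)) a := fun a => rfl
        rw [h3, da_lin ((𝒜.H (c w) q).flip (Lw z)) Lw z]
        simp only [ContinuousLinearMap.flip_apply, da_Hm_right]
        simp only [dotProduct]
        refine Finset.sum_congr rfl fun k _ => ?_
        rw [mul_comm]
      rw [e2, e2, ← dotProduct_add, ← Matrix.add_mulVec] at e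
      simpa using e
  · -- the dimension of the kernel
    intro V hV
    have h1 : w < π := by linarith
    have h2 : π < w + π := by linarith
    -- the injective linear map `x ↦ Lw (P⁻¹ x)`
    let T : (Fin N → ℝ) →ₗ[ℝ] Eu (N + 1) :=
      Lw.toLinearMap ∘ₗ (WithLp.linearEquiv 2 ℝ (Fin N → ℝ)).symm.toLinearMap ∘ₗ Matrix.toLin' P⁻¹
    have hTapp : ∀ x, T x = Lw (WithLp.toLp 2 (P⁻¹.mulVec x)) := fun x => rfl
    have hTinj : Function.Injective T := by
      intro x y hxy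
      rw [hTapp, hTapp] at hxy
      have h3 := Lw.injective hxy
      have h4 : P⁻¹.mulVec x = P⁻¹.mulVec y := by
        have := congrArg (WithLp.ofLp) h3
        simpa using this
      have h5 := congrArg P.mulVec h4
      rw [Matrix.mulVec_mulVec, Matrix.mulVec_mulVec, Matrix.mul_nonsing_inv _ hPu, Matrix.one_mulVec,
        Matrix.one_mulVec] at h5
      exact h5
    have hmap : V = (LinearMap.ker (Matrix.toLin' ((P.transpose)⁻¹ * Y π * P⁻¹))).map T := by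
      ext a
      rw [Submodule.mem_map]
      have hmem : a ∈ V ↔ a ∈ 𝒜.Ker c 0 w := by rw [← hV]; rfl
      rw [hmem]
      have hYker : ∀ z : Eu N, (∀ b, ⟪𝒜.vel c w, b⟫ = 0 → 𝒜.H (c w) (c 0) (Lw z) b + 𝒜.H (c w) (c (0 + π)) (Lw z) b = 0)
          ↔ (Y π).mulVec z = 0 := by
        intro z
        have hdπ := hdwx π h1 h2
        have hent : ∀ i : Fin N, 𝒜.H (c w) (c 0) (Lw z) (Lw (EuclideanSpace.single i 1))
            + 𝒜.H (c w) (c (0 + π)) (Lw z) (Lw (EuclideanSpace.single i 1)) = (Y π).mulVec z i := by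
          intro i
          rw [zero_add, da_Hm_left 𝒜 hB hdw0.1 hdw0.2, da_Hm_left 𝒜 hB hdπ.1 hdπ.2, hY, Matrix.add_mulVec]
          rfl
        constructor
        · intro h
          ext i
          rw [← hent i]
          exact h _ (fw.orth _)
        · intro h b hb
          obtain ⟨y, rfl⟩ := fw.surj b hb
          have e1 := da_lin (𝒜.H (c w) (c 0) (Lw z)) Lw y
          have e2 := da_lin (𝒜.H (c w) (c (0 + π)) (Lw z)) Lw y
          rw [e1, e2, ← Finset.sum_add_distrib]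
          refine Finset.sum_eq_zero fun k _ => ?_
          rw [← add_mul, hent k, h]
          simp
      constructor
      · rintro ⟨ha1, ha2⟩
        obtain ⟨z, rfl⟩ := fw.surj a ha1
        refine ⟨P.mulVec z, ?_, ?_⟩
        · rw [LinearMap.mem_ker, Matrix.toLin'_apply, ← Matrix.mulVec_mulVec, ← Matrix.mulVec_mulVec,
            Matrix.mulVec_mulVec _ P⁻¹ P, Matrix.nonsing_inv_mul _ hPu, Matrix.one_mulVec, (hYker z).mp ha2,
            Matrix.mulVec_zero]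
        · rw [hTapp, Matrix.mulVec_mulVec, Matrix.nonsing_inv_mul _ hPu, Matrix.one_mulVec]
      · rintro ⟨x, hx, rfl⟩
        rw [LinearMap.mem_ker, Matrix.toLin'_apply, ← Matrix.mulVec_mulVec, ← Matrix.mulVec_mulVec] at hx
        have hx2 : (Y π).mulVec (P⁻¹.mulVec x) = 0 := by
          have := congrArg P.transpose.mulVec hx
          rwa [Matrix.mulVec_mulVec, Matrix.mul_nonsing_inv _ hPtu, Matrix.one_mulVec, Matrix.mulVec_zero] at this
        rw [hTapp]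
        exact ⟨fw.orth _, (hYker (WithLp.toLp 2 (P⁻¹.mulVec x))).mpr hx2⟩
    rw [hmap]
    exact (Submodule.equivMapOfInjective T hTinj _).finrank_eq.symm

end Pool.Agent.Lib.MP_ccbbf6_gt.Geo
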