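import Pool.Agent.Lib.MP_ccbbf6_gt.Geo.DAd

/-!
# DA0: frames, Parseval, matrix identities
-/

set_option autoImplicit false
set_option linter.unusedSectionVars false

open Set Filter Topology Metric Real
open scoped ContDiff RealInnerProductSpace

noncomputable section

namespace Pool.Agent.Lib.MP_ccbbf6_gt.Geo

/-! ## frames -/

theorem da_frame_exists {N : ℕ} {v : Eu (N + 1)} (hv : ‖v‖ = 1) :
    ∃ L : Eu N →ₗᵢ[ℝ] Eu (N + 1), Frame v L := by
  have hv0 : v ≠ 0 := by
    rintro rfl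
    simp at hv
  have : Fact (Module.finrank ℝ (Eu (N + 1)) = N + 1) := ⟨by simp⟩
  have hfin : Module.finrank ℝ (ℝ ∙ v)ᗮ = N := Submodule.finrank_orthogonal_span_singleton hv0
  let b : OrthonormalBasis (Fin N) ℝ (ℝ ∙ v)ᗮ := (stdOrthonormalBasis ℝ (ℝ ∙ v)ᗮ).reindex (finCongr hfin)
  let L : Eu N →ₗᵢ[ℝ] Eu (N + 1) := (ℝ ∙ v)ᗮ.subtypeₗᵢ.comp b.repr.symm.toLinearIsometry
  refine ⟨L, ⟨fun a => ?_, fun w hw => ?_⟩⟩
  · have h1 : (L a) ∈ (ℝ ∙ v)ᗮ := (b.repr.symm a).2
    exact Submodule.mem_orthogonal_singleton_iff_inner_right.mp h1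
  · have h1 : w ∈ (ℝ ∙ v)ᗮ := Submodule.mem_orthogonal_singleton_iff_inner_right.mpr hw
    refine ⟨b.repr ⟨w, h1⟩, ?_⟩
    change ((b.repr.symm (b.repr ⟨w, h1⟩) : (ℝ ∙ v)ᗮ) : Eu (N + 1)) = w
    rw [LinearIsometryEquiv.symm_apply_apply]

theorem Frame.inner_map {n N : ℕ} {v : Eu n} {L : Eu N →ₗᵢ[ℝ] Eu n} (_h : Frame v L) (i j : Fin N) :
    ⟪L (EuclideanSpace.single i 1), L (EuclideanSpace.single j 1)⟫ = if i = j then (1 : ℝ) else 0 := by
  rw [L.inner_map_map]
  simp [EuclideanSpace.inner_single_left]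

/-- decomposition along the velocity and its orthogonal complement -/
theorem Frame.decomp {n N : ℕ} {v : Eu n} (hv : ‖v‖ = 1) {L : Eu N →ₗᵢ[ℝ] Eu n} (h : Frame v L) (e : Eu n) :
    ∃ z : Eu N, e = ⟪v, e⟫ • v + L z := by
  obtain ⟨z, hz⟩ := h.surj (e - ⟪v, e⟫ • v) (by
    rw [inner_sub_right, inner_smul_right, real_inner_self_eq_norm_sq, hv]; ring)
  exact ⟨z, by rw [hz]; abel⟩

/-- the orthonormal basis `v, L e_1, ..., L e_N` -/
theorem Frame.exists_basis {N : ℕ} {v : Eu (N + 1)} (hv : ‖v‖ = 1) {L : Eu N →ₗᵢ[ℝ] Eu (N + 1)} (h : Frame v L) :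
    ∃ b : OrthonormalBasis (Unit ⊕ Fin N) ℝ (Eu (N + 1)), b (Sum.inl ()) = v ∧
      ∀ i, b (Sum.inr i) = L (EuclideanSpace.single i 1) := by
  let w : Unit ⊕ Fin N → Eu (N + 1) := Sum.elim (fun _ => v) (fun i => L (EuclideanSpace.single i 1))
  have hon : Orthonormal ℝ w := by
    rw [orthonormal_iff_ite]
    rintro (i | i) (j | j)
    · simp [w, hv]
    · simp [w, h.orth]
    · simp [w, real_inner_comm, h.orth]
    · simp only [w, Sum.elim_inr, Sum.inr.injEq]
      exact h.inner_map i j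
  have hcard : Fintype.card (Unit ⊕ Fin N) = Module.finrank ℝ (Eu (N + 1)) := by
    simp [add_comm]
  let B := OrthonormalBasis.mk hon (by
    have := hon.linearIndependent.span_eq_top_of_card_eq_finrank' hcard
    rw [this])
  refine ⟨B, ?_, fun i => ?_⟩
  · simp [B, w]
  · simp [B, w]

/-- Parseval for two functionals -/
theorem da_parseval {n : ℕ} {ι : Type} [Fintype ι] (b : OrthonormalBasis ι ℝ (Eu n)) (φ χ : Eu n →L[ℝ] ℝ) :
    ∑ k : Fin n, φ (EuclideanSpace.single k 1) * χ (EuclideanSpace.single k 1) = ∑ i, φ (b i) * χ (b i) := by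
  have key : ∀ {κ : Type} [Fintype κ] (c : OrthonormalBasis κ ℝ (Eu n)),
      ∑ i, φ (c i) * χ (c i) = ⟪(InnerProductSpace.toDual ℝ (Eu n)).symm φ,
        (InnerProductSpace.toDual ℝ (Eu n)).symm χ⟫ := by
    intro κ _ c
    have h1 := c.sum_inner_mul_inner ((InnerProductSpace.toDual ℝ (Eu n)).symm φ)
      ((InnerProductSpace.toDual ℝ (Eu n)).symm χ)
    rw [← h1]
    refine Finset.sum_congr rfl fun i _ => ?_
    rw [InnerProductSpace.toDual_symm_apply, real_inner_comm, InnerProductSpace.toDual_symm_apply]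
  have h2 := key (EuclideanSpace.basisFun (Fin n) ℝ)
  simp only [EuclideanSpace.basisFun_apply] at h2
  rw [h2, key b]

/-- a rectangular orthonormal change of basis has determinant `± 1` -/
theorem da_det_basis {n : ℕ} {ι : Type} [Fintype ι] [DecidableEq ι] (b : OrthonormalBasis ι ℝ (Eu n)) (e : ι ≃ Fin n) :
    ((Matrix.of fun (k : Fin n) (i : ι) => (b i) k).submatrix id e.symm).det ^ 2 = 1 := by
  set U : Matrix (Fin n) (Fin n) ℝ := (Matrix.of fun (k : Fin n) (i : ι) => (b i) k).submatrix id e.symm with hU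
  have h1 : U.transpose * U = 1 := by
    ext i j
    rw [Matrix.mul_apply]
    simp only [hU, Matrix.transpose_apply, Matrix.submatrix_apply, Matrix.of_apply, id]
    have h2 : ⟪b (e.symm i), b (e.symm j)⟫ = if e.symm i = e.symm j then (1 : ℝ) else 0 :=
      orthonormal_iff_ite.mp b.orthonormal _ _
    rw [PiLp.inner_apply] at h2
    simp only [RCLike.inner_apply, conj_trivial] at h2
    rw [Matrix.one_apply]
    rw [show (∑ x, (b (e.symm i)) x * (b (e.symm j)) x) = ∑ x, (b (e.symm j)) x * (b (e.symm i)) x from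
      Finset.sum_congr rfl fun x _ => mul_comm _ _, h2]
    simp
  have h2 := congrArg Matrix.det h1
  rw [Matrix.det_mul, Matrix.det_transpose, Matrix.det_one] at h2
  rw [sq]; exact h2

/-- the determinant of a bilinear form in orthonormal bases -/
theorem da_det_bilin {n : ℕ} {ι : Type} [Fintype ι] [DecidableEq ι] (b b' : OrthonormalBasis ι ℝ (Eu n))
    (φ : Eu n →L[ℝ] Eu n →L[ℝ] ℝ) :
    |(Matrix.of fun i j => φ (b i) (b' j)).det|
      = |(Matrix.of fun i j : Fin n => φ (EuclideanSpace.single i 1) (EuclideanSpace.single j 1)).det| := by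
  have hcard : Fintype.card ι = Fintype.card (Fin n) := by
    have h1 := Module.finrank_eq_card_basis b.toBasis
    rw [← h1]; simp
  let e : ι ≃ Fin n := Fintype.equivOfCardEq hcard
  set M := (Matrix.of fun i j : Fin n => φ (EuclideanSpace.single i 1) (EuclideanSpace.single j 1)) with hM
  set U : Matrix (Fin n) (Fin n) ℝ := (Matrix.of fun (k : Fin n) (i : ι) => (b i) k).submatrix id e.symm with hU
  set V : Matrix (Fin n) (Fin n) ℝ := (Matrix.of fun (k : Fin n) (i : ι) => (b' i) k).submatrix id e.symm with hV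
  have hexp : ∀ x : Eu n, x = ∑ k : Fin n, x k • EuclideanSpace.single k (1 : ℝ) := by
    intro x
    have := (EuclideanSpace.basisFun (Fin n) ℝ).sum_repr x
    simp only [EuclideanSpace.basisFun_apply, EuclideanSpace.basisFun_repr] at this
    exact this.symm
  have h1 : (Matrix.of fun i j => φ (b i) (b' j)).submatrix e.symm e.symm = U.transpose * M * V := by
    ext i j
    simp only [Matrix.submatrix_apply, Matrix.of_apply, Matrix.mul_apply, Matrix.transpose_apply, hU, hV, hM, id]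
    conv_lhs => rw [hexp (b (e.symm i)), hexp (b' (e.symm j))]
    simp only [map_sum, map_smul, _root_.sum_apply, _root_.smul_apply, smul_eq_mul,
      Finset.mul_sum, Finset.sum_mul]
    refine Finset.sum_congr rfl fun x _ => Finset.sum_congr rfl fun y _ => ?_
    ring
  have h2 := congrArg Matrix.det h1
  rw [Matrix.det_submatrix_equiv_self, Matrix.det_mul, Matrix.det_mul, Matrix.det_transpose] at h2
  have h3 := da_det_basis b e
  have h4 := da_det_basis b' e
  rw [← hU] at h3
  rw [← hV] at h4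
  have h5 : |U.det| = 1 := by
    have := congrArg Real.sqrt h3
    rwa [Real.sqrt_sq_eq_abs, Real.sqrt_one] at this
  have h6 : |V.det| = 1 := by
    have := congrArg Real.sqrt h4
    rwa [Real.sqrt_sq_eq_abs, Real.sqrt_one] at this
  rw [h2, abs_mul, abs_mul, h5, h6]; ring

end Pool.Agent.Lib.MP_ccbbf6_gt.Geo
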