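import Pool.Agent.Lib.MP_ccbbf6_gt.Geo.SMa
import Pool.Agent.Lib.MP_ccbbf6_gt.Geo.SMb

/-!
# SMg: the critical function d(x,.) + d(.,z)
-/

set_option autoImplicit false

open Set Filter Topology Metric Real Asymptotics
open scoped ContDiff RealInnerProductSpace

noncomputable section

namespace Pool.Agent.Lib.MP_ccbbf6_gt.Geo

variable {n : ℕ} {M : Type*} [MetricSpace M] [CompactSpace M] (𝒜 : SDist n M)

/-- the distance to `q` in the chart centered at `p` -/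
def SDist.sgd (p q : M) (u : Eu n) : ℝ := dist ((𝒜.ψ p).symm u) q

omit [CompactSpace M] in
theorem sg_eq (p q : M) : (fun u : Eu n => 𝒜.f p q (u, 0)) = 𝒜.sgd p q := by
  funext u
  unfold SDist.f SDist.sgd
  simp only [symm_zero]

omit [CompactSpace M] in
theorem sg_H (p q : M) : 𝒜.H p q = fderiv ℝ (fderiv ℝ (𝒜.sgd p q)) 0 := by
  unfold SDist.H
  rw [← sg_eq]

theorem sg_smooth (hB : Bl M) {p q : M} (h0 : 0 < dist p q) (h1 : dist p q < π) : ContDiffAt ℝ 2 (𝒜.sgd p q) 0 := by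
  have h : ContDiffAt ℝ 2 (𝒜.f p q) ((0 : Eu n), (0 : Eu n)) := (contDiffAt_f 𝒜 hB h0 h1).of_le two_le_infty
  rw [← sg_eq]
  have h2 : ContDiffAt ℝ 2 (fun u : Eu n => (u, (0 : Eu n))) 0 := contDiffAt_id.prodMk contDiffAt_const
  exact ContDiffAt.comp (g := 𝒜.f p q) (f := fun u : Eu n => (u, (0 : Eu n))) (0 : Eu n) h h2

omit [CompactSpace M] in
theorem sg_dist {c : ℝ → M} (hc : IsGeo c) {s t : ℝ} (h : s ≤ t) (h1 : t ≤ s + π) : dist (c s) (c t) = t - s := by
  rw [hc s t (by rw [abs_sub_comm, abs_of_nonneg (by linarith)]; linarith), abs_sub_comm, abs_of_nonneg (by linarith)]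

/-- second derivative test -/
theorem sg_min {V : Type*} [NormedAddCommGroup V] [NormedSpace ℝ V] {G : V → ℝ} (h : ContDiffAt ℝ 2 G 0)
    (hG : ∀ v, G 0 ≤ G v) (v : V) : 0 ≤ fderiv ℝ (fderiv ℝ G) 0 v v := by
  have h1 : fderiv ℝ G 0 = 0 := by
    have : IsLocalMin G 0 := Filter.Eventually.of_forall fun x => hG x
    exact this.fderiv_eq_zero
  have h' : ContDiffAt ℝ 2 (fun x => G x - G 0) 0 := h.sub contDiffAt_const
  have hf : fderiv ℝ (fun x => G x - G 0) = fderiv ℝ G := by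
    funext x
    rw [fderiv_sub_const]
  have hT := sm0_taylor h' (sub_self _) (by rw [hf]; exact h1)
  rw [hf] at hT
  by_contra hcon
  push Not at hcon
  set D := fderiv ℝ (fderiv ℝ G) 0 with hD
  have hc : 0 < -(D v v) / (4 * (‖v‖ ^ 2 + 1)) := div_pos (by linarith) (by positivity)
  have h2 : Tendsto (fun t : ℝ => t • v) (𝓝[>] 0) (𝓝 0) := by
    have : Tendsto (fun t : ℝ => t • v) (𝓝 0) (𝓝 ((0 : ℝ) • v)) := (continuous_id.smul continuous_const).tendsto 0
    rw [zero_smul] at this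
    exact this.mono_left nhdsWithin_le_nhds
  obtain ⟨t, ht, ht0⟩ := ((h2.eventually ((isLittleO_iff.1 hT) hc)).and self_mem_nhdsWithin).exists
  have ht0 : 0 < t := ht0
  rw [Real.norm_eq_abs, Real.norm_eq_abs, abs_of_nonneg (by positivity : (0 : ℝ) ≤ ‖t • v‖ ^ 2), norm_smul,
    Real.norm_eq_abs, abs_of_pos ht0] at ht
  have h3 := (abs_le.1 ht).2
  simp only [map_smul, smul_apply, smul_eq_mul] at h3
  have h4 := hG (t • v)
  have h5 : -(D v v) / (4 * (‖v‖ ^ 2 + 1)) * (t * ‖v‖) ^ 2 ≤ -(D v v) * t ^ 2 / 4 := by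
    rw [div_mul_eq_mul_div, div_le_div_iff₀ (by positivity) (by norm_num)]
    have : 0 ≤ -(D v v) * t ^ 2 := mul_nonneg (by linarith) (by positivity)
    nlinarith
  have h6 : 0 < -(D v v) * t ^ 2 := mul_pos (by linarith) (by positivity)
  nlinarith

/-- second derivative of a sum of two functions -/
theorem sg_add {V : Type*} [NormedAddCommGroup V] [NormedSpace ℝ V] {G G' : V → ℝ} {z : V} (h : ContDiffAt ℝ 2 G z)
    (h' : ContDiffAt ℝ 2 G' z) (v w : V) :
    fderiv ℝ (fderiv ℝ (fun x => G x + G' x)) z v w = fderiv ℝ (fderiv ℝ G) z v w + fderiv ℝ (fderiv ℝ G') z v w := by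
  have e1 : fderiv ℝ (fun x => G x + G' x) =ᶠ[𝓝 z] fun x => fderiv ℝ G x + fderiv ℝ G' x := by
    filter_upwards [sm0_ev h, sm0_ev h'] with x hx hx'
    exact (hx.hasFDerivAt.add hx'.hasFDerivAt).fderiv
  rw [e1.fderiv_eq]
  exact congrArg (fun T => T v w) (HasFDerivAt.fderiv ((sm0_d2 h).hasFDerivAt.add (sm0_d2 h').hasFDerivAt))

/-- ... and nonnegative when the two end points are at distance `π` -/
theorem G_nonneg (hB : Bl M) {c : ℝ → M} (hc : IsGeo c) {r s t : ℝ} (h1 : r < s) (h2 : s < t) (h3 : t ≤ r + π)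
    (a : Eu n) : 0 ≤ 𝒜.H (c s) (c r) a a + 𝒜.H (c s) (c t) a a := by
  have d1 : dist (c s) (c r) = s - r := by rw [dist_comm, sg_dist hc h1.le (by linarith)]
  have d2 : dist (c s) (c t) = t - s := sg_dist hc h2.le (by linarith)
  have d3 : dist (c r) (c t) = t - r := sg_dist hc (by linarith) h3
  have s1 := sg_smooth 𝒜 hB (p := c s) (q := c r) (by rw [d1]; linarith) (by rw [d1]; linarith)
  have s2 := sg_smooth 𝒜 hB (p := c s) (q := c t) (by rw [d2]; linarith) (by rw [d2]; linarith)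
  rw [sg_H, sg_H, ← sg_add s1 s2]
  refine sg_min (s1.add s2) (fun v => ?_) a
  unfold SDist.sgd
  rw [symm_zero, d1, d2]
  have := dist_triangle (c r) ((𝒜.ψ (c s)).symm v) (c t)
  rw [d3, dist_comm (c r)] at this
  linarith

/-- derivative along the geodesic of the first derivative of the distance -/
theorem sg_along (hB : Bl M) {c : ℝ → M} (hc : IsGeo c) {s : ℝ} {q : M} (h0 : 0 < dist (c s) q)
    (h1 : dist (c s) q < π) :
    HasDerivAt (fun τ => fderiv ℝ (𝒜.sgd (c s) q) (𝒜.ψ (c s) (c τ))) (𝒜.H (c s) q (𝒜.vel c s)) s := by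
  obtain ⟨-, hv⟩ := hc.exists_vel 𝒜 s
  have h2 := (sm0_d2 (sg_smooth 𝒜 hB h0 h1)).hasFDerivAt
  rw [← sg_H, ← 𝒜.zero (c s)] at h2
  exact h2.comp_hasDerivAt s hv

omit [CompactSpace M] in
/-- two points on the same side -/
theorem sg_same {p x q q' : M} (hx : x ∈ (𝒜.ψ p).source) (hd : DifferentiableAt ℝ (𝒜.sgd p q) (𝒜.ψ p x))
    (hd' : DifferentiableAt ℝ (𝒜.sgd p q') (𝒜.ψ p x)) (h2 : dist x q + dist q q' = dist x q') :
    fderiv ℝ (𝒜.sgd p q) (𝒜.ψ p x) - fderiv ℝ (𝒜.sgd p q') (𝒜.ψ p x) = 0 := by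
  have hmin : IsLocalMin (fun u => 𝒜.sgd p q u - 𝒜.sgd p q' u) (𝒜.ψ p x) := by
    refine Filter.Eventually.of_forall fun u => ?_
    unfold SDist.sgd
    simp only [(𝒜.ψ p).left_inv hx]
    have := dist_triangle ((𝒜.ψ p).symm u) q q'
    linarith
  exact hmin.hasFDerivAt_eq_zero (hd.hasFDerivAt.sub hd'.hasFDerivAt)

omit [CompactSpace M] in
/-- two points on different sides -/
theorem sg_opp {p x q q' : M} (hx : x ∈ (𝒜.ψ p).source) (hd : DifferentiableAt ℝ (𝒜.sgd p q) (𝒜.ψ p x))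
    (hd' : DifferentiableAt ℝ (𝒜.sgd p q') (𝒜.ψ p x)) (h2 : dist q x + dist x q' = dist q q') :
    fderiv ℝ (𝒜.sgd p q) (𝒜.ψ p x) + fderiv ℝ (𝒜.sgd p q') (𝒜.ψ p x) = 0 := by
  have hmin : IsLocalMin (fun u => 𝒜.sgd p q u + 𝒜.sgd p q' u) (𝒜.ψ p x) := by
    refine Filter.Eventually.of_forall fun u => ?_
    unfold SDist.sgd
    simp only [(𝒜.ψ p).left_inv hx]
    have := dist_triangle q ((𝒜.ψ p).symm u) q'
    rw [dist_comm q x] at h2
    rw [dist_comm q ((𝒜.ψ p).symm u)] at this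
    linarith
  exact hmin.hasFDerivAt_eq_zero (hd.hasFDerivAt.add hd'.hasFDerivAt)

omit [CompactSpace M] in
theorem sg_cont {c : ℝ → M} (hc : IsGeo c) (s : ℝ) : ContinuousAt c s := by
  rw [Metric.continuousAt_iff]
  intro ε hε
  refine ⟨ε, hε, fun {x} hx => lt_of_le_of_lt (hc.dist_le x s) ?_⟩
  rwa [Real.dist_eq] at hx

theorem sg_ev (hB : Bl M) {c : ℝ → M} (hc : IsGeo c) {s : ℝ} {q : M} (h0 : 0 < dist (c s) q)
    (h1 : dist (c s) q < π) : ∀ᶠ τ in 𝓝 s, c τ ∈ (𝒜.ψ (c s)).source ∧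
      DifferentiableAt ℝ (𝒜.sgd (c s) q) (𝒜.ψ (c s) (c τ)) := by
  have h2 := sg_cont hc s
  have h3 : Tendsto (fun τ => 𝒜.ψ (c s) (c τ)) (𝓝 s) (𝓝 0) := by
    have := ((𝒜.ψ (c s)).continuousAt (𝒜.mem (c s))).tendsto.comp h2.tendsto
    rwa [𝒜.zero] at this
  exact (h2.eventually ((𝒜.ψ (c s)).open_source.mem_nhds (𝒜.mem (c s)))).and
    (h3.eventually (sm0_ev (sg_smooth 𝒜 hB h0 h1)))

/-- the second derivative of the critical function `d(x,.) + d(.,z)` kills the direction of the geodesic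
(`x`, `z` on different sides of `y = c s` at distance less than `π` from `y`) -/
theorem G_vel (hB : Bl M) {c : ℝ → M} (hc : IsGeo c) {r s t : ℝ} (h1 : r < s) (h2 : s < t) (h3 : s < r + π)
    (h4 : t < s + π) (a : Eu n) : 𝒜.H (c s) (c r) (𝒜.vel c s) a + 𝒜.H (c s) (c t) (𝒜.vel c s) a = 0 := by
  have dg : ∀ u v : ℝ, u ≤ v → v ≤ u + π → dist (c u) (c v) = v - u := fun u v => sg_dist hc
  have dg' : ∀ u v : ℝ, u ≤ v → v ≤ u + π → dist (c v) (c u) = v - u := fun u v h h' => by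
    rw [dist_comm, sg_dist hc h h']
  have pr : 0 < dist (c s) (c r) ∧ dist (c s) (c r) < π := by
    rw [dg' r s h1.le h3.le]; constructor <;> linarith
  have pt : 0 < dist (c s) (c t) ∧ dist (c s) (c t) < π := by
    rw [dg s t h2.le h4.le]; constructor <;> linarith
  have pr' : 0 < dist (c s) (c ((r + s) / 2)) ∧ dist (c s) (c ((r + s) / 2)) < π := by
    rw [dg' ((r + s) / 2) s (by linarith) (by linarith)]; constructor <;> linarith
  have pt' : 0 < dist (c s) (c ((s + t) / 2)) ∧ dist (c s) (c ((s + t) / 2)) < π := by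
    rw [dg s ((s + t) / 2) (by linarith) (by linarith)]; constructor <;> linarith
  have hz : (fun τ => fderiv ℝ (𝒜.sgd (c s) (c r)) (𝒜.ψ (c s) (c τ)) +
      fderiv ℝ (𝒜.sgd (c s) (c t)) (𝒜.ψ (c s) (c τ))) =ᶠ[𝓝 s] fun _ => 0 := by
    filter_upwards [sg_ev 𝒜 hB hc pr.1 pr.2, sg_ev 𝒜 hB hc pt.1 pt.2, sg_ev 𝒜 hB hc pr'.1 pr'.2,
      sg_ev 𝒜 hB hc pt'.1 pt'.2, Ioo_mem_nhds (show (r + s) / 2 < s by linarith) (show s < (s + t) / 2 by linarith),
      Ioo_mem_nhds (show t - π < s by linarith) (show s < r + π by linarith)]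
      with τ e1 e2 e3 e4 e5 e6
    obtain ⟨i1, i2⟩ := e5
    obtain ⟨i3, i4⟩ := e6
    have j1 := sg_same 𝒜 e1.1 e3.2 e1.2 (by
      rw [dg' ((r + s) / 2) τ (by linarith) (by linarith), dg' r ((r + s) / 2) (by linarith) (by linarith),
        dg' r τ (by linarith) (by linarith)]
      ring)
    have j2 := sg_same 𝒜 e1.1 e4.2 e2.2 (by
      rw [dg τ ((s + t) / 2) (by linarith) (by linarith), dg ((s + t) / 2) t (by linarith) (by linarith),
        dg τ t (by linarith) (by linarith)]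
      ring)
    have j3 := sg_opp 𝒜 e1.1 e3.2 e4.2 (by
      rw [dg ((r + s) / 2) τ (by linarith) (by linarith), dg τ ((s + t) / 2) (by linarith) (by linarith),
        dg ((r + s) / 2) ((s + t) / 2) (by linarith) (by linarith)]
      ring)
    rw [← sub_eq_zero.1 j1, ← sub_eq_zero.1 j2]
    exact j3
  have h5 := ((sg_along 𝒜 hB hc pr.1 pr.2).add (sg_along 𝒜 hB hc pt.1 pt.2)).unique
    ((hasDerivAt_const s (0 : Eu n →L[ℝ] ℝ)).congr_of_eventuallyEq hz)
  exact congrArg (fun T => T a) h5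

/-- the same for two points on the same side -/
theorem G_vel' (hB : Bl M) {c : ℝ → M} (hc : IsGeo c) {r s t : ℝ} (h1 : s < r) (h2 : s < t) (h3 : r < s + π)
    (h4 : t < s + π) (a : Eu n) : 𝒜.H (c s) (c r) (𝒜.vel c s) a - 𝒜.H (c s) (c t) (𝒜.vel c s) a = 0 := by
  have dg : ∀ u v : ℝ, u ≤ v → v ≤ u + π → dist (c u) (c v) = v - u := fun u v => sg_dist hc
  have key : ∀ r t : ℝ, s < r → r ≤ t → t < s + π → 𝒜.H (c s) (c r) (𝒜.vel c s) = 𝒜.H (c s) (c t) (𝒜.vel c s) := by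
    intro r t h1 h2 h4
    have pr : 0 < dist (c s) (c r) ∧ dist (c s) (c r) < π := by
      rw [dg s r h1.le (by linarith)]; constructor <;> linarith
    have pt : 0 < dist (c s) (c t) ∧ dist (c s) (c t) < π := by
      rw [dg s t (by linarith) (by linarith)]; constructor <;> linarith
    have hz : (fun τ => fderiv ℝ (𝒜.sgd (c s) (c r)) (𝒜.ψ (c s) (c τ))) =ᶠ[𝓝 s]
        fun τ => fderiv ℝ (𝒜.sgd (c s) (c t)) (𝒜.ψ (c s) (c τ)) := by
      filter_upwards [sg_ev 𝒜 hB hc pr.1 pr.2, sg_ev 𝒜 hB hc pt.1 pt.2,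
        Ioo_mem_nhds (show t - π < s by linarith) (show s < r by linarith)] with τ e1 e2 e3
      obtain ⟨i1, i2⟩ := e3
      exact sub_eq_zero.1 (sg_same 𝒜 e1.1 e1.2 e2.2 (by
        rw [dg τ r (by linarith) (by linarith), dg r t (by linarith) (by linarith), dg τ t (by linarith) (by linarith)]
        ring))
    exact (sg_along 𝒜 hB hc pr.1 pr.2).unique ((sg_along 𝒜 hB hc pt.1 pt.2).congr_of_eventuallyEq hz)
  rcases le_total r t with h | h
  · rw [key r t h1 h h4, sub_self]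
  · rw [key t r h2 h h3, sub_self]

end Pool.Agent.Lib.MP_ccbbf6_gt.Geo
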