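import Pool.Agent.Lib.MP_ccbbf6_gt.Geo.SM0

/-!
# TR0: calculus for `tri` and `tri_long` (helper13)

* `tr_kill`: if the derivative of `L` vanishes at the points `(ε a, η ε, ε b)`, the second derivative of `L` at `0`
  kills a vector `(a, e, b)`.
* `tr_D1f`, `tr_D2f`: first and second derivative of the two point function.
* `tr_three`: the conclusion of `tri` and `tri_long` from a family of critical points.
-/

set_option autoImplicit false

open Set Filter Topology Metric Real Asymptotics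
open scoped ContDiff RealInnerProductSpace

noncomputable section

namespace Pool.Agent.Lib.MP_ccbbf6_gt.Geo

section Calc

/-- A family of critical points `(ε a, η ε, ε b)` gives a vector `(a, e, b)` in the kernel of the second derivative.
`k` is a function constant on the family; the hypothesis `hn` is the nondegeneracy in the second variable. -/
theorem tr_kill {W : Type*} [NormedAddCommGroup W] [NormedSpace ℝ W] [FiniteDimensional ℝ W]
    {L k : W × W × W → ℝ} (hL : ContDiffAt ℝ 2 L 0) (hk : DifferentiableAt ℝ k 0)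
    {a b : W} {η : ℝ → W} (hη : Tendsto η (𝓝[≠] 0) (𝓝 0))
    (h1 : ∀ᶠ ε in 𝓝[≠] (0 : ℝ), fderiv ℝ L (ε • a, η ε, ε • b) = 0)
    (h2 : ∀ᶠ ε in 𝓝[≠] (0 : ℝ), k (ε • a, η ε, ε • b) = k 0)
    (hn : ∀ e : W, (∀ w, fderiv ℝ (fderiv ℝ L) 0 (0, e, 0) w = 0) → fderiv ℝ k 0 (0, e, 0) = 0 → e = 0) :
    ∃ e, ∀ w, fderiv ℝ (fderiv ℝ L) 0 (a, e, b) w = 0 := by
  by_contra hcon
  push Not at hcon
  let ι : ℝ × W →L[ℝ] W × W × W :=
    ((ContinuousLinearMap.fst ℝ ℝ W).smulRight a).prod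
      ((ContinuousLinearMap.snd ℝ ℝ W).prod ((ContinuousLinearMap.fst ℝ ℝ W).smulRight b))
  have hι : ∀ ε e, ι (ε, e) = (ε • a, e, ε • b) := fun ε e => rfl
  have hι0 : ι 0 = 0 := map_zero ι
  let T : ℝ × W →L[ℝ] (W × W × W →L[ℝ] ℝ) × ℝ :=
    ((fderiv ℝ (fderiv ℝ L) 0).comp ι).prod ((fderiv ℝ k 0).comp ι)
  let Φ : ℝ × W → (W × W × W →L[ℝ] ℝ) × ℝ := fun z => (fderiv ℝ L (ι z), k (ι z))
  have hΦ : HasFDerivAt Φ T 0 := by
    have e1 : HasFDerivAt (fderiv ℝ L) (fderiv ℝ (fderiv ℝ L) 0) (ι 0) := by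
      rw [hι0]
      exact (sm0_d2 hL).hasFDerivAt
    have e2 : HasFDerivAt k (fderiv ℝ k 0) (ι 0) := by
      rw [hι0]
      exact hk.hasFDerivAt
    exact (e1.comp 0 ι.hasFDerivAt).prodMk (e2.comp 0 ι.hasFDerivAt)
  have hT : LinearMap.ker (T : ℝ × W →ₗ[ℝ] (W × W × W →L[ℝ] ℝ) × ℝ) = ⊥ := by
    rw [LinearMap.ker_eq_bot']
    rintro ⟨ε, e⟩ h
    have h' : T (ε, e) = 0 := h
    have hA : fderiv ℝ (fderiv ℝ L) 0 (ε • a, e, ε • b) = 0 := (Prod.ext_iff.1 h').1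
    have hB : fderiv ℝ k 0 (ε • a, e, ε • b) = 0 := (Prod.ext_iff.1 h').2
    rcases eq_or_ne ε 0 with rfl | hε
    · rw [zero_smul, zero_smul] at hA hB
      have := hn e (fun w => by rw [hA]; rfl) hB
      rw [this]
      rfl
    · exfalso
      obtain ⟨w, hw⟩ := hcon (ε⁻¹ • e)
      apply hw
      have e3 : ((a, ε⁻¹ • e, b) : W × W × W) = ε⁻¹ • (ε • a, e, ε • b) := by
        simp [Prod.smul_mk, smul_smul, inv_mul_cancel₀ hε]
      rw [e3, map_smul, hA, smul_zero]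
      rfl
  obtain ⟨K, -, hK⟩ := LinearMap.exists_antilipschitzWith (T : ℝ × W →ₗ[ℝ] (W × W × W →L[ℝ] ℝ) × ℝ) hT
  have hne : ∀ᶠ z in 𝓝[≠] (0 : ℝ × W), Φ z ≠ (0, k 0) := hΦ.eventually_ne ⟨K, hK⟩
  have htend : Tendsto (fun ε : ℝ => (ε, η ε)) (𝓝[≠] 0) (𝓝[≠] (0 : ℝ × W)) := by
    refine tendsto_nhdsWithin_iff.2 ⟨?_, ?_⟩
    · exact (tendsto_id.mono_right nhdsWithin_le_nhds).prodMk_nhds hη
    · filter_upwards [self_mem_nhdsWithin] with ε hε h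
      exact hε (congrArg Prod.fst h)
  obtain ⟨ε, hε1, hε2, hε3⟩ := ((htend.eventually hne).and (h1.and h2)).exists
  apply hε1
  show (fderiv ℝ L (ι (ε, η ε)), k (ι (ε, η ε))) = (0, k 0)
  rw [hι, hε2, hε3]

variable {V W : Type*} [NormedAddCommGroup V] [NormedSpace ℝ V] [NormedAddCommGroup W] [NormedSpace ℝ W]

/-- the second derivative in the second variable is an entry of the second derivative -/
theorem tr_second_snd {G : V × W → ℝ} {u : V} {v : W} (h : ContDiffAt ℝ 2 G (u, v)) (a b : W) :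
    fderiv ℝ (fun v' => fderiv ℝ (fun v'' => G (u, v'')) v') v a b =
      fderiv ℝ (fderiv ℝ G) (u, v) (0, a) (0, b) := by
  have h1 : (fun v' => fderiv ℝ (fun v'' => G (u, v'')) v') =ᶠ[𝓝 v]
      fun v' => (fderiv ℝ G (u, v')).comp (ContinuousLinearMap.inr ℝ V W) := by
    have hc : Tendsto (fun v' : W => (u, v')) (𝓝 v) (𝓝 (u, v)) := (Continuous.prodMk_right u).tendsto v
    filter_upwards [hc.eventually (sm0_ev h)] with v' hv'
    exact sm0_fderiv_snd hv'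
  rw [h1.fderiv_eq]
  have h2 : HasFDerivAt (fun v' : W => fderiv ℝ G (u, v'))
      ((fderiv ℝ (fderiv ℝ G) (u, v)).comp (ContinuousLinearMap.inr ℝ V W)) v :=
    (sm0_d2 h).hasFDerivAt.comp v (hasFDerivAt_prodMk_right u v)
  have h3 := (((ContinuousLinearMap.compL ℝ W (V × W) ℝ).flip (ContinuousLinearMap.inr ℝ V W)).hasFDerivAt.comp v h2)
  have h4 : HasFDerivAt (fun v' : W => (fderiv ℝ G (u, v')).comp (ContinuousLinearMap.inr ℝ V W))
      (((ContinuousLinearMap.compL ℝ W (V × W) ℝ).flip (ContinuousLinearMap.inr ℝ V W)).comp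
        ((fderiv ℝ (fderiv ℝ G) (u, v)).comp (ContinuousLinearMap.inr ℝ V W))) v := h3
  rw [h4.fderiv]
  rfl

theorem tr_comp1 {G : W → ℝ} (P : V →L[ℝ] W) {z : V} (h : DifferentiableAt ℝ G (P z)) :
    fderiv ℝ (fun x => G (P x)) z = (fderiv ℝ G (P z)).comp P :=
  (h.hasFDerivAt.comp z P.hasFDerivAt).fderiv

/-- second derivative of the composition with a linear map -/
theorem tr_comp {G : W → ℝ} (P : V →L[ℝ] W) {z : V} (h : ContDiffAt ℝ 2 G (P z)) :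
    HasFDerivAt (fderiv ℝ (fun x => G (P x)))
      (((ContinuousLinearMap.compL ℝ V W ℝ).flip P).comp ((fderiv ℝ (fderiv ℝ G) (P z)).comp P)) z := by
  have h1 : (fderiv ℝ (fun x => G (P x))) =ᶠ[𝓝 z] fun x => (fderiv ℝ G (P x)).comp P := by
    have hc : Tendsto P (𝓝 z) (𝓝 (P z)) := P.continuous.tendsto z
    filter_upwards [hc.eventually (sm0_ev h)] with x hx
    exact (hx.hasFDerivAt.comp x P.hasFDerivAt).fderiv
  have h2 : HasFDerivAt (fun x => fderiv ℝ G (P x)) ((fderiv ℝ (fderiv ℝ G) (P z)).comp P) z :=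
    (sm0_d2 h).hasFDerivAt.comp z P.hasFDerivAt
  have h3 := (((ContinuousLinearMap.compL ℝ V W ℝ).flip P).hasFDerivAt.comp z h2)
  exact h3.congr_of_eventuallyEq h1

end Calc

section Two

variable {n : ℕ} {M : Type*} [MetricSpace M] (𝒜 : SDist n M)

theorem tr_f_symm (p q : M) (z : Eu n × Eu n) : 𝒜.f q p z = 𝒜.f p q (z.2, z.1) := by
  unfold SDist.f
  rw [dist_comm]

/-- the first derivative of the two point function -/
theorem tr_D1f {p q : M} (h : ContDiffAt ℝ ∞ (𝒜.f p q) (0, 0)) (a b : Eu n) :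
    fderiv ℝ (𝒜.f p q) (0, 0) (a, b) = 𝒜.D1 p q a + 𝒜.D1 q p b := by
  have hd : DifferentiableAt ℝ (𝒜.f p q) ((0 : Eu n), (0 : Eu n)) := (h.of_le two_le_infty).differentiableAt (by norm_num)
  have h1 : 𝒜.D1 p q a = fderiv ℝ (𝒜.f p q) (0, 0) (a, 0) := by
    unfold SDist.D1
    rw [sm0_fderiv_fst hd]
    rfl
  have h2 : 𝒜.D1 q p b = fderiv ℝ (𝒜.f p q) (0, 0) (0, b) := by
    unfold SDist.D1
    have : (fun u : Eu n => 𝒜.f q p (u, 0)) = fun u => 𝒜.f p q (0, u) := by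
      funext u
      rw [tr_f_symm]
    rw [this, sm0_fderiv_snd hd]
    rfl
  rw [h1, h2, ← map_add]
  simp

/-- the second derivative of the two point function -/
theorem tr_D2f {p q : M} (h : ContDiffAt ℝ ∞ (𝒜.f p q) (0, 0)) (a b a' b' : Eu n) :
    fderiv ℝ (fderiv ℝ (𝒜.f p q)) (0, 0) (a, b) (a', b') =
      𝒜.H p q a a' + 𝒜.B p q a b' + 𝒜.B p q a' b + 𝒜.H q p b b' := by
  have hc : ContDiffAt ℝ 2 (𝒜.f p q) ((0 : Eu n), (0 : Eu n)) := h.of_le two_le_infty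
  have h1 : 𝒜.H p q a a' = fderiv ℝ (fderiv ℝ (𝒜.f p q)) (0, 0) (a, 0) (a', 0) := sm0_second_fst hc a a'
  have h2 : 𝒜.B p q a b' = fderiv ℝ (fderiv ℝ (𝒜.f p q)) (0, 0) (a, 0) (0, b') := sm0_mixed hc a b'
  have h3 : 𝒜.B p q a' b = fderiv ℝ (fderiv ℝ (𝒜.f p q)) (0, 0) (0, b) (a', 0) := by
    rw [sm0_symm hc]
    exact sm0_mixed hc a' b
  have h4 : 𝒜.H q p b b' = fderiv ℝ (fderiv ℝ (𝒜.f p q)) (0, 0) (0, b) (0, b') := by
    rw [← tr_second_snd hc]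
    unfold SDist.H
    have : ∀ u : Eu n, (fun u' : Eu n => 𝒜.f q p (u', 0)) = fun u' => 𝒜.f p q (0, u') := by
      intro u
      funext u'
      rw [tr_f_symm]
    simp only [this 0]
  rw [h1, h2, h3, h4]
  have e1 : ((a, b) : Eu n × Eu n) = (a, 0) + (0, b) := by simp
  have e2 : ((a', b') : Eu n × Eu n) = (a', 0) + (0, b') := by simp
  rw [e1, e2, map_add, map_add, add_apply, add_apply]
  ring

/-! ## three points -/

/-- first and last -/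
def tr13 (n : ℕ) : Eu n × Eu n × Eu n →L[ℝ] Eu n × Eu n :=
  (ContinuousLinearMap.fst ℝ (Eu n) (Eu n × Eu n)).prod
    ((ContinuousLinearMap.snd ℝ (Eu n) (Eu n)).comp (ContinuousLinearMap.snd ℝ (Eu n) (Eu n × Eu n)))

/-- first and second -/
def tr12 (n : ℕ) : Eu n × Eu n × Eu n →L[ℝ] Eu n × Eu n :=
  (ContinuousLinearMap.fst ℝ (Eu n) (Eu n × Eu n)).prod
    ((ContinuousLinearMap.fst ℝ (Eu n) (Eu n)).comp (ContinuousLinearMap.snd ℝ (Eu n) (Eu n × Eu n)))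

/-- second and last -/
def tr23 (n : ℕ) : Eu n × Eu n × Eu n →L[ℝ] Eu n × Eu n := ContinuousLinearMap.snd ℝ (Eu n) (Eu n × Eu n)

/-- `d(x,y) + d(y,z) + σ d(x,z)` in the charts centered at `x`, `y`, `z` -/
def SDist.tr (x y z : M) (σ : ℝ) (w : Eu n × Eu n × Eu n) : ℝ :=
  𝒜.f x y (tr12 n w) + 𝒜.f y z (tr23 n w) + σ * 𝒜.f x z (tr13 n w)

theorem tr_contDiffAt {x y z : M} {σ : ℝ} {w : Eu n × Eu n × Eu n} (h1 : ContDiffAt ℝ 2 (𝒜.f x y) (tr12 n w))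
    (h2 : ContDiffAt ℝ 2 (𝒜.f y z) (tr23 n w)) (h3 : ContDiffAt ℝ 2 (𝒜.f x z) (tr13 n w)) :
    ContDiffAt ℝ 2 (𝒜.tr x y z σ) w :=
  ((h1.comp w (tr12 n).contDiff.contDiffAt).add (h2.comp w (tr23 n).contDiff.contDiffAt)).add
    (contDiffAt_const.mul (h3.comp w (tr13 n).contDiff.contDiffAt))

theorem tr_fderiv {x y z : M} {σ : ℝ} {w : Eu n × Eu n × Eu n} (h1 : DifferentiableAt ℝ (𝒜.f x y) (tr12 n w))
    (h2 : DifferentiableAt ℝ (𝒜.f y z) (tr23 n w)) (h3 : DifferentiableAt ℝ (𝒜.f x z) (tr13 n w)) :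
    HasFDerivAt (𝒜.tr x y z σ) ((fderiv ℝ (𝒜.f x y) (tr12 n w)).comp (tr12 n) +
      (fderiv ℝ (𝒜.f y z) (tr23 n w)).comp (tr23 n) + σ • (fderiv ℝ (𝒜.f x z) (tr13 n w)).comp (tr13 n)) w :=
  ((h1.hasFDerivAt.comp w (tr12 n).hasFDerivAt).add (h2.hasFDerivAt.comp w (tr23 n).hasFDerivAt)).add
    ((h3.hasFDerivAt.comp w (tr13 n).hasFDerivAt).const_mul σ)

theorem tr_fderiv2 {x y z : M} {σ : ℝ} {w : Eu n × Eu n × Eu n} (h1 : ContDiffAt ℝ 2 (𝒜.f x y) (tr12 n w))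
    (h2 : ContDiffAt ℝ 2 (𝒜.f y z) (tr23 n w)) (h3 : ContDiffAt ℝ 2 (𝒜.f x z) (tr13 n w))
    (v v' : Eu n × Eu n × Eu n) :
    fderiv ℝ (fderiv ℝ (𝒜.tr x y z σ)) w v v' =
      fderiv ℝ (fderiv ℝ (𝒜.f x y)) (tr12 n w) (tr12 n v) (tr12 n v') +
      fderiv ℝ (fderiv ℝ (𝒜.f y z)) (tr23 n w) (tr23 n v) (tr23 n v') +
      σ * fderiv ℝ (fderiv ℝ (𝒜.f x z)) (tr13 n w) (tr13 n v) (tr13 n v') := by
  have e1 : (fderiv ℝ (𝒜.tr x y z σ)) =ᶠ[𝓝 w] fun w' =>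
      fderiv ℝ (fun w'' => 𝒜.f x y (tr12 n w'')) w' + fderiv ℝ (fun w'' => 𝒜.f y z (tr23 n w'')) w' +
        σ • fderiv ℝ (fun w'' => 𝒜.f x z (tr13 n w'')) w' := by
    filter_upwards [(tr12 n).continuous.continuousAt.eventually (sm0_ev h1),
      (tr23 n).continuous.continuousAt.eventually (sm0_ev h2),
      (tr13 n).continuous.continuousAt.eventually (sm0_ev h3)] with w' hw1 hw2 hw3
    rw [(tr_fderiv 𝒜 hw1 hw2 hw3).fderiv, tr_comp1 (tr12 n) hw1, tr_comp1 (tr23 n) hw2, tr_comp1 (tr13 n) hw3]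
  rw [e1.fderiv_eq]
  have e2 := ((tr_comp (tr12 n) h1).add (tr_comp (tr23 n) h2)).add ((tr_comp (tr13 n) h3).const_smul σ)
  have e3 := congrArg (fun T => T v v') (HasFDerivAt.fderiv e2)
  exact e3

/-- the common part of `tri` and `tri_long` -/
theorem tr_three {x y z : M} {σ : ℝ} (h1 : ContDiffAt ℝ ∞ (𝒜.f x y) (0, 0)) (h2 : ContDiffAt ℝ ∞ (𝒜.f y z) (0, 0))
    (h3 : ContDiffAt ℝ ∞ (𝒜.f x z) (0, 0)) (a b : Eu n) (η : ℝ → Eu n)
    (hη : Tendsto η (𝓝[≠] 0) (𝓝 0))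
    (hc : ∀ᶠ ε in 𝓝[≠] (0 : ℝ), fderiv ℝ (𝒜.tr x y z σ) (ε • a, η ε, ε • b) = 0)
    (hk : ∀ᶠ ε in 𝓝[≠] (0 : ℝ), 𝒜.f x y (ε • a, η ε) = dist x y)
    (hn : ∀ e : Eu n, (∀ a', 𝒜.B x y a' e = 0) → (∀ e', 𝒜.H y x e e' + 𝒜.H y z e e' = 0) → 𝒜.D1 y x e = 0 →
      e = 0) :
    ∃ e : Eu n,
      (∀ a', 𝒜.H x y a a' + σ * 𝒜.H x z a a' + 𝒜.B x y a' e + σ * 𝒜.B x z a' b = 0) ∧
      (∀ e', 𝒜.H y x e e' + 𝒜.H y z e e' + 𝒜.B x y a e' + 𝒜.B y z e' b = 0) ∧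
      (∀ b', 𝒜.H z y b b' + σ * 𝒜.H z x b b' + 𝒜.B y z e b' + σ * 𝒜.B x z a b' = 0) := by
  have g1 : ContDiffAt ℝ 2 (𝒜.f x y) (tr12 n 0) := h1.of_le two_le_infty
  have g2 : ContDiffAt ℝ 2 (𝒜.f y z) (tr23 n 0) := h2.of_le two_le_infty
  have g3 : ContDiffAt ℝ 2 (𝒜.f x z) (tr13 n 0) := h3.of_le two_le_infty
  have hL := tr_contDiffAt 𝒜 (σ := σ) g1 g2 g3
  have D2 : ∀ a e b a' e' b' : Eu n, fderiv ℝ (fderiv ℝ (𝒜.tr x y z σ)) 0 (a, e, b) (a', e', b') =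
      (𝒜.H x y a a' + 𝒜.B x y a e' + 𝒜.B x y a' e + 𝒜.H y x e e') +
      (𝒜.H y z e e' + 𝒜.B y z e b' + 𝒜.B y z e' b + 𝒜.H z y b b') +
      σ * (𝒜.H x z a a' + 𝒜.B x z a b' + 𝒜.B x z a' b + 𝒜.H z x b b') := by
    intro a e b a' e' b'
    rw [← tr_D2f 𝒜 h1, ← tr_D2f 𝒜 h2, ← tr_D2f 𝒜 h3]
    exact tr_fderiv2 𝒜 g1 g2 g3 (a, e, b) (a', e', b')
  have gk : DifferentiableAt ℝ (fun w => 𝒜.f x y (tr12 n w)) 0 :=
    (g1.differentiableAt (by norm_num)).comp 0 (tr12 n).differentiableAt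
  have Dk : ∀ e : Eu n, fderiv ℝ (fun w => 𝒜.f x y (tr12 n w)) 0 (0, e, 0) = 𝒜.D1 y x e := by
    intro e
    rw [tr_comp1 (tr12 n) (g1.differentiableAt (by norm_num))]
    have := tr_D1f 𝒜 h1 0 e
    rw [map_zero, zero_add] at this
    exact this
  obtain ⟨e, he⟩ := tr_kill hL gk hη hc (by
    filter_upwards [hk] with ε hε
    have e1 : 𝒜.f x y (tr12 n 0) = dist x y := f_zero 𝒜 x y
    rw [e1]
    exact hε) (by
    intro e he1 he2
    refine hn e ?_ ?_ (by rw [← Dk]; exact he2)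
    · intro a'
      have := he1 (a', 0, 0)
      rw [D2] at this
      simpa using this
    · intro e'
      have := he1 (0, e', 0)
      rw [D2] at this
      simpa using this)
  refine ⟨e, ?_, ?_, ?_⟩
  · intro a'
    have := he (a', 0, 0)
    rw [D2] at this
    simp only [map_zero, zero_apply, add_zero] at this
    linarith
  · intro e'
    have := he (0, e', 0)
    rw [D2] at this
    simp only [map_zero, zero_apply, add_zero, zero_add] at this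
    linarith
  · intro b'
    have := he (0, 0, b')
    rw [D2] at this
    simp only [map_zero, zero_apply, add_zero, zero_add] at this
    linarith

end Two

end Pool.Agent.Lib.MP_ccbbf6_gt.Geo
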