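import Pool.Agent.Lib.MP_ccbbf6_gt.Geo.SMc
import Pool.Agent.Lib.MP_ccbbf6_gt.Geo.SMg
import Pool.Agent.Lib.MP_ccbbf6_gt.Geo.TR0

/-!
# SMd: collinear triples, no conjugate points (helper13)

`hasDerivAt_H`, `hasDerivAt_H'` (the differentiated eikonal equation) are in HH.lean (helper56). This file has `tri`,
`G_pos` and `B_nondeg`; `tri` and `B_nondeg` need the positivity `G_pos` only for a short first side, which follows
from the diagonal, and then give it in general.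

* `tri_of_pos`: `tri` when the second derivative of `d(x,.) + d(.,z)` is positive transversally.
* `tr_mono`: monotonicity of `H` along a geodesic, and `B a = 0` in the case of equality.
* `tr_pos`: positivity when `B` is nondegenerate at the first side.
* `tr_short`: `B` is nondegenerate at small distance.
* `B_nondeg`: induction on the distance, then `G_pos` and `tri`.
-/

set_option autoImplicit false

open Set Filter Topology Metric Real Asymptotics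
open scoped ContDiff RealInnerProductSpace Uniformity

noncomputable section

namespace Pool.Agent.Lib.MP_ccbbf6_gt.Geo

variable {n : ℕ} {M : Type*} [MetricSpace M] [CompactSpace M] (𝒜 : SDist n M)

/-- second derivative test -/
theorem tr_min {V : Type*} [NormedAddCommGroup V] [NormedSpace ℝ V] {G : V → ℝ} (h : ContDiffAt ℝ 2 G 0)
    (h0 : G 0 = 0) (hG : ∀ v, 0 ≤ G v) (v : V) : 0 ≤ fderiv ℝ (fderiv ℝ G) 0 v v := by
  have h1 : fderiv ℝ G 0 = 0 := by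
    have : IsLocalMin G 0 := Filter.Eventually.of_forall fun x => by rw [h0]; exact hG x
    exact this.fderiv_eq_zero
  have hT := sm0_taylor h h0 h1
  by_contra hcon
  push Not at hcon
  set D := fderiv ℝ (fderiv ℝ G) 0 with hD
  have hc : 0 < -(D v v) / (4 * (‖v‖ ^ 2 + 1)) := div_pos (by linarith) (by positivity)
  have h2 : Tendsto (fun t : ℝ => t • v) (𝓝[>] 0) (𝓝 0) := by
    have : Tendsto (fun t : ℝ => t • v) (𝓝 0) (𝓝 ((0 : ℝ) • v)) := (continuous_id.smul continuous_const).tendsto 0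
    rw [zero_smul] at this
    exact this.mono_left nhdsWithin_le_nhds
  obtain ⟨t, ht, ht0⟩ := ((h2.eventually ((isLittleO_iff.1 hT) hc)).and self_mem_nhdsWithin).exists
  have ht0 : 0 < t := ht0
  rw [Real.norm_eq_abs, Real.norm_eq_abs, abs_of_nonneg (by positivity : (0 : ℝ) ≤ ‖t • v‖ ^ 2), norm_smul,
    Real.norm_eq_abs, abs_of_pos ht0] at ht
  have h3 := (abs_le.1 ht).2
  simp only [map_smul, smul_apply, smul_eq_mul] at h3
  have h4 := hG (t • v)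
  have h5 : -(D v v) / (4 * (‖v‖ ^ 2 + 1)) * (t * ‖v‖) ^ 2 ≤ -(D v v) * t ^ 2 / 4 := by
    rw [div_mul_eq_mul_div, div_le_div_iff₀ (by positivity) (by norm_num)]
    have : 0 ≤ -(D v v) * t ^ 2 := mul_nonneg (by linarith) (by positivity)
    nlinarith
  have h6 : 0 < -(D v v) * t ^ 2 := mul_pos (by linarith) (by positivity)
  nlinarith

omit [CompactSpace M] in
theorem tr_dist {c : ℝ → M} (hc : IsGeo c) {s t : ℝ} (h : s ≤ t) (h1 : t ≤ s + π) : dist (c s) (c t) = t - s := by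
  rw [hc s t (by rw [abs_sub_comm, abs_of_nonneg (by linarith)]; linarith), abs_sub_comm, abs_of_nonneg (by linarith)]

theorem tr_smooth (hB : Bl M) {c : ℝ → M} (hc : IsGeo c) {s t : ℝ} (h : s < t) (h1 : t < s + π) :
    ContDiffAt ℝ ∞ (𝒜.f (c s) (c t)) (0, 0) := by
  have := tr_dist hc h.le h1.le
  exact contDiffAt_f 𝒜 hB (by rw [this]; linarith) (by rw [this]; linarith)

omit [CompactSpace M] in
theorem tr_nonneg (x y z : M) (w : Eu n × Eu n × Eu n) : 0 ≤ 𝒜.tr x y z (-1) w := by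
  have := dist_triangle ((𝒜.ψ x).symm w.1) ((𝒜.ψ y).symm w.2.1) ((𝒜.ψ z).symm w.2.2)
  unfold SDist.tr SDist.f
  show 0 ≤ dist ((𝒜.ψ x).symm w.1) ((𝒜.ψ y).symm w.2.1) + dist ((𝒜.ψ y).symm w.2.1) ((𝒜.ψ z).symm w.2.2) +
    (-1) * dist ((𝒜.ψ x).symm w.1) ((𝒜.ψ z).symm w.2.2)
  linarith

omit [CompactSpace M] in
theorem tr_tendsto_symm (p : M) (a : Eu n) : Tendsto (fun ε : ℝ => (𝒜.ψ p).symm (ε • a)) (𝓝 0) (𝓝 p) := by
  have h1 : Tendsto (fun ε : ℝ => ε • a) (𝓝 0) (𝓝 0) := by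
    have : Tendsto (fun t : ℝ => t • a) (𝓝 0) (𝓝 ((0 : ℝ) • a)) := (continuous_id.smul continuous_const).tendsto 0
    rwa [zero_smul] at this
  have h2 : Tendsto (𝒜.ψ p).symm (𝓝 0) (𝓝 p) := by
    have := (continuousAt_symm 𝒜 p).tendsto
    rwa [symm_zero] at this
  exact h2.comp h1

theorem tr_tendsto_gd (𝒜 : SDist n M) (hB : Bl M) {ι : Type*} {l : Filter ι} {p q : ι → M} {t : ι → ℝ} {p' q' : M}
    {t' : ℝ} (hp : Tendsto p l (𝓝 p')) (hq : Tendsto q l (𝓝 q')) (ht : Tendsto t l (𝓝 t')) (h0 : 0 < dist p' q')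
    (h1 : dist p' q' < π) : Tendsto (fun i => gd (p i) (q i) (t i)) l (𝓝 (gd p' q' t')) := by
  have ho : IsOpen {z : (M × M) × ℝ | 0 < dist z.1.1 z.1.2 ∧ dist z.1.1 z.1.2 < π} := by
    have hd : Continuous fun z : (M × M) × ℝ => dist z.1.1 z.1.2 := by fun_prop
    exact (isOpen_lt continuous_const hd).inter (isOpen_lt hd continuous_const)
  have h2 := (continuousOn_gd 𝒜 hB).continuousAt (ho.mem_nhds (x := ((p', q'), t')) ⟨h0, h1⟩)
  exact h2.tendsto.comp ((hp.prodMk_nhds hq).prodMk_nhds ht)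

/-- `tri` when the second derivative of `d(x,.) + d(.,z)` is positive transversally -/
theorem tri_of_pos (hB : Bl M) {c : ℝ → M} (hc : IsGeo c) {r s t : ℝ} (h1 : r < s) (h2 : s < t) (h3 : t < r + π)
    (hpos : ∀ a, ⟪𝒜.vel c s, a⟫ = 0 → a ≠ 0 → 0 < 𝒜.H (c s) (c r) a a + 𝒜.H (c s) (c t) a a) :
    ∃ e : Eu n → Eu n → Eu n, ∀ a b,
      (∀ a', 𝒜.H (c r) (c s) a a' - 𝒜.H (c r) (c t) a a' + 𝒜.B (c r) (c s) a' (e a b)
        - 𝒜.B (c r) (c t) a' b = 0) ∧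
      (∀ e', 𝒜.H (c s) (c r) (e a b) e' + 𝒜.H (c s) (c t) (e a b) e' + 𝒜.B (c r) (c s) a e'
        + 𝒜.B (c s) (c t) e' b = 0) ∧
      (∀ b', 𝒜.H (c t) (c s) b b' - 𝒜.H (c t) (c r) b b' + 𝒜.B (c s) (c t) (e a b) b'
        - 𝒜.B (c r) (c t) a b' = 0) := by
  have d13 : dist (c r) (c t) = t - r := tr_dist hc (by linarith) h3.le
  have d12 : dist (c r) (c s) = s - r := tr_dist hc h1.le (by linarith)
  have key : ∀ a b : Eu n, ∃ e : Eu n,
      (∀ a', 𝒜.H (c r) (c s) a a' + (-1) * 𝒜.H (c r) (c t) a a' + 𝒜.B (c r) (c s) a' e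
        + (-1) * 𝒜.B (c r) (c t) a' b = 0) ∧
      (∀ e', 𝒜.H (c s) (c r) e e' + 𝒜.H (c s) (c t) e e' + 𝒜.B (c r) (c s) a e' + 𝒜.B (c s) (c t) e' b = 0) ∧
      (∀ b', 𝒜.H (c t) (c s) b b' + (-1) * 𝒜.H (c t) (c r) b b' + 𝒜.B (c s) (c t) e b'
        + (-1) * 𝒜.B (c r) (c t) a b' = 0) := by
    intro a b
    have hx := tr_tendsto_symm 𝒜 (c r) a
    have hz := tr_tendsto_symm 𝒜 (c t) b
    have hd : Tendsto (fun ε : ℝ => dist ((𝒜.ψ (c r)).symm (ε • a)) ((𝒜.ψ (c t)).symm (ε • b))) (𝓝 0) (𝓝 (t - r)) := by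
      have := hx.dist hz
      rwa [d13] at this
    have hy : Tendsto (fun ε : ℝ => gd ((𝒜.ψ (c r)).symm (ε • a)) ((𝒜.ψ (c t)).symm (ε • b)) (s - r)) (𝓝 0)
        (𝓝 (c s)) := by
      have := tr_tendsto_gd 𝒜 hB hx hz (tendsto_const_nhds (x := s - r)) (by rw [d13]; linarith) (by rw [d13]; linarith)
      have e1 := gd_eq 𝒜 hc (s := r) (t := t - r) (by linarith) (by linarith)
      rw [add_sub_cancel] at e1
      rw [e1] at this
      simpa using this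
    have hs : ∀ᶠ ε : ℝ in 𝓝 0, gd ((𝒜.ψ (c r)).symm (ε • a)) ((𝒜.ψ (c t)).symm (ε • b)) (s - r) ∈ (𝒜.ψ (c s)).source :=
      hy.eventually ((𝒜.ψ (c s)).open_source.mem_nhds (𝒜.mem (c s)))
    have hfam : ∀ᶠ ε : ℝ in 𝓝 0, ∀ y, y = (𝒜.ψ (c s)).symm (𝒜.ψ (c s)
        (gd ((𝒜.ψ (c r)).symm (ε • a)) ((𝒜.ψ (c t)).symm (ε • b)) (s - r))) →
        dist ((𝒜.ψ (c r)).symm (ε • a)) y = s - r ∧
        dist y ((𝒜.ψ (c t)).symm (ε • b)) = dist ((𝒜.ψ (c r)).symm (ε • a)) ((𝒜.ψ (c t)).symm (ε • b)) - (s - r) := by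
      filter_upwards [hs, hd.eventually (lt_mem_nhds (show s - r < t - r by linarith))] with ε e1 e2 y hy'
      rw [(𝒜.ψ (c s)).left_inv e1] at hy'
      rw [hy']
      set x' := (𝒜.ψ (c r)).symm (ε • a)
      set z' := (𝒜.ψ (c t)).symm (ε • b)
      have hne : x' ≠ z' := by
        intro h
        rw [h, dist_self] at e2
        linarith
      obtain ⟨g1, g2, g3⟩ := gd_spec 𝒜 hB hne
      have hl : dist x' z' ≤ π := hB.diam _ _
      constructor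
      · have e4 := tr_dist g1 (s := 0) (t := s - r) (by linarith) (by linarith)
        rw [g2] at e4
        rw [e4]
        ring
      · have e4 := tr_dist g1 (s := s - r) (t := dist x' z') e2.le (by linarith)
        rw [g3] at e4
        exact e4
    refine tr_three 𝒜 (x := c r) (y := c s) (z := c t) (σ := -1) (tr_smooth 𝒜 hB hc h1 (by linarith))
      (tr_smooth 𝒜 hB hc h2 (by linarith)) (tr_smooth 𝒜 hB hc (by linarith) h3) a b
      (fun ε => 𝒜.ψ (c s) (gd ((𝒜.ψ (c r)).symm (ε • a)) ((𝒜.ψ (c t)).symm (ε • b)) (s - r))) ?_ ?_ ?_ ?_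
    · have e1 := ((𝒜.ψ (c s)).continuousAt (𝒜.mem (c s))).tendsto
      rw [𝒜.zero] at e1
      exact (e1.comp hy).mono_left nhdsWithin_le_nhds
    · refine Filter.Eventually.filter_mono nhdsWithin_le_nhds ?_
      filter_upwards [hfam] with ε hε
      obtain ⟨e1, e2⟩ := hε _ rfl
      have hmin : IsLocalMin (𝒜.tr (c r) (c s) (c t) (-1)) (ε • a, 𝒜.ψ (c s) (gd ((𝒜.ψ (c r)).symm (ε • a))
          ((𝒜.ψ (c t)).symm (ε • b)) (s - r)), ε • b) := by
        refine Filter.Eventually.of_forall fun w => ?_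
        refine le_trans (le_of_eq ?_) (tr_nonneg 𝒜 _ _ _ w)
        show dist ((𝒜.ψ (c r)).symm (ε • a)) ((𝒜.ψ (c s)).symm (𝒜.ψ (c s) (gd ((𝒜.ψ (c r)).symm (ε • a))
          ((𝒜.ψ (c t)).symm (ε • b)) (s - r)))) + dist ((𝒜.ψ (c s)).symm (𝒜.ψ (c s) (gd ((𝒜.ψ (c r)).symm (ε • a))
          ((𝒜.ψ (c t)).symm (ε • b)) (s - r)))) ((𝒜.ψ (c t)).symm (ε • b)) +
          (-1) * dist ((𝒜.ψ (c r)).symm (ε • a)) ((𝒜.ψ (c t)).symm (ε • b)) = 0
        rw [e1, e2]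
        ring
      exact hmin.fderiv_eq_zero
    · refine Filter.Eventually.filter_mono nhdsWithin_le_nhds ?_
      filter_upwards [hfam] with ε hε
      obtain ⟨e1, e2⟩ := hε _ rfl
      rw [d12]
      exact e1
    · intro e he1 he2 he3
      by_contra hne
      have e4 : 𝒜.D1 (c s) (c (s - (s - r))) e = ⟪𝒜.vel c s, e⟫ := D1_backward 𝒜 hB hc (by linarith) (by linarith) e
      rw [sub_sub_cancel, he3] at e4
      have := hpos e e4.symm hne
      rw [he2 e] at this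
      exact lt_irrefl _ this
  choose e he using key
  refine ⟨e, fun a b => ⟨fun a' => ?_, (he a b).2.1, fun b' => ?_⟩⟩
  · have := (he a b).1 a'
    linarith
  · have := (he a b).2.2 b'
    linarith

/-- monotonicity of `H` along a geodesic -/
theorem tr_mono (hB : Bl M) {c : ℝ → M} (hc : IsGeo c) {s t u : ℝ} (h1 : s < t) (h2 : t < u) (h3 : u < s + π)
    (a : Eu n) : 𝒜.H (c s) (c u) a a ≤ 𝒜.H (c s) (c t) a a ∧
      (𝒜.H (c s) (c u) a a = 𝒜.H (c s) (c t) a a → ∀ e, 𝒜.B (c s) (c t) a e = 0) := by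
  have s1 := tr_smooth 𝒜 hB hc h1 (by linarith)
  have s2 := tr_smooth 𝒜 hB hc h2 (by linarith)
  have s3 := tr_smooth 𝒜 hB hc (h1.trans h2) h3
  have g1 : ContDiffAt ℝ 2 (𝒜.f (c s) (c t)) (tr12 n 0) := s1.of_le two_le_infty
  have g2 : ContDiffAt ℝ 2 (𝒜.f (c t) (c u)) (tr23 n 0) := s2.of_le two_le_infty
  have g3 : ContDiffAt ℝ 2 (𝒜.f (c s) (c u)) (tr13 n 0) := s3.of_le two_le_infty
  have hL := tr_contDiffAt 𝒜 (σ := -1) g1 g2 g3
  have hL0 : 𝒜.tr (c s) (c t) (c u) (-1) 0 = 0 := by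
    show 𝒜.f (c s) (c t) (0, 0) + 𝒜.f (c t) (c u) (0, 0) + (-1) * 𝒜.f (c s) (c u) (0, 0) = 0
    rw [f_zero, f_zero, f_zero, tr_dist hc h1.le (by linarith), tr_dist hc h2.le (by linarith),
      tr_dist hc (by linarith) h3.le]
    ring
  have key : ∀ e : Eu n, 0 ≤ 𝒜.H (c s) (c t) a a - 𝒜.H (c s) (c u) a a + 2 * 𝒜.B (c s) (c t) a e +
      (𝒜.H (c t) (c s) e e + 𝒜.H (c t) (c u) e e) := by
    intro e
    have := tr_min hL hL0 (tr_nonneg 𝒜 _ _ _) (a, e, 0)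
    rw [tr_fderiv2 𝒜 g1 g2 g3] at this
    have e1 : fderiv ℝ (fderiv ℝ (𝒜.f (c s) (c t))) (tr12 n 0) (tr12 n (a, e, 0)) (tr12 n (a, e, 0)) = _ :=
      tr_D2f 𝒜 s1 a e a e
    have e2 : fderiv ℝ (fderiv ℝ (𝒜.f (c t) (c u))) (tr23 n 0) (tr23 n (a, e, 0)) (tr23 n (a, e, 0)) = _ :=
      tr_D2f 𝒜 s2 e 0 e 0
    have e3 : fderiv ℝ (fderiv ℝ (𝒜.f (c s) (c u))) (tr13 n 0) (tr13 n (a, e, 0)) (tr13 n (a, e, 0)) = _ :=
      tr_D2f 𝒜 s3 a 0 a 0
    rw [e1, e2, e3] at this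
    simp only [map_zero, add_zero] at this
    linarith
  constructor
  · have := key 0
    simp only [map_zero, add_zero, mul_zero] at this
    linarith
  · intro heq e
    have hq : ∀ τ : ℝ, 0 ≤ 2 * τ * 𝒜.B (c s) (c t) a e + τ ^ 2 * (𝒜.H (c t) (c s) e e + 𝒜.H (c t) (c u) e e) := by
      intro τ
      have := key (τ • e)
      simp only [map_smul, smul_apply, smul_eq_mul] at this
      rw [heq] at this
      linarith
    set β := 𝒜.B (c s) (c t) a e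
    set C := 𝒜.H (c t) (c s) e e + 𝒜.H (c t) (c u) e e
    by_contra hβ
    have hC : 0 < |C| + 1 := by positivity
    have := hq (-β / (|C| + 1))
    have e4 : 2 * (-β / (|C| + 1)) * β + (-β / (|C| + 1)) ^ 2 * C = -(β ^ 2 / (|C| + 1)) * (2 - C / (|C| + 1)) := by
      field_simp
      ring
    rw [e4] at this
    have e5 : C / (|C| + 1) < 1 := by
      rw [div_lt_one hC]
      have := le_abs_self C
      linarith
    have e6 : 0 < β ^ 2 / (|C| + 1) := div_pos (by positivity) hC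
    nlinarith

/-- the same for points on the other side -/
theorem tr_mono' (hB : Bl M) {c : ℝ → M} (hc : IsGeo c) {s t u : ℝ} (h1 : t < s) (h2 : u < t) (h3 : s < u + π)
    (a : Eu n) : 𝒜.H (c s) (c u) a a ≤ 𝒜.H (c s) (c t) a a ∧
      (𝒜.H (c s) (c u) a a = 𝒜.H (c s) (c t) a a → ∀ e, 𝒜.B (c s) (c t) a e = 0) := by
  have := tr_mono 𝒜 hB hc.rev (s := -s) (t := -t) (u := -u) (by linarith) (by linarith) (by linarith) a
  simpa only [neg_neg] using this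

/-- positivity when `B` is nondegenerate at the first side -/
theorem tr_pos (hB : Bl M) {c : ℝ → M} (hc : IsGeo c) {r s t : ℝ} (h1 : r < s) (h2 : s < t) (h3 : t < r + π)
    (hb : ∀ a, ⟪𝒜.vel c s, a⟫ = 0 → (∀ b, 𝒜.B (c s) (c r) a b = 0) → a = 0) {a : Eu n}
    (ha : ⟪𝒜.vel c s, a⟫ = 0) (ha0 : a ≠ 0) : 0 < 𝒜.H (c s) (c r) a a + 𝒜.H (c s) (c t) a a := by
  by_contra hcon
  push Not at hcon
  have hu1 : (r + (t - π)) / 2 < r := by linarith
  have hu2 : t < (r + (t - π)) / 2 + π := by linarith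
  obtain ⟨e1, e2⟩ := tr_mono' 𝒜 hB hc (s := s) (t := r) (u := (r + (t - π)) / 2) h1 hu1 (by linarith) a
  have e3 := G_nonneg 𝒜 hB hc (r := (r + (t - π)) / 2) (s := s) (t := t) (by linarith) h2 hu2.le a
  exact ha0 (hb a ha (e2 (by linarith)))

omit [CompactSpace M] in
/-- first derivatives of `d` and mixed second derivative of `d ^ 2 / 2` -/
theorem tr_BF {p q : M} (h : ContDiffAt ℝ ∞ (𝒜.f p q) (0, 0)) (a b : Eu n) :
    𝒜.BF p q a b = 𝒜.D1 p q a * 𝒜.D1 q p b + dist p q * 𝒜.B p q a b := by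
  have hc : ContDiffAt ℝ 2 (𝒜.f p q) ((0 : Eu n), (0 : Eu n)) := h.of_le two_le_infty
  have hF : ContDiffAt ℝ 2 (𝒜.F p q) ((0 : Eu n), (0 : Eu n)) := (hc.pow 2).div_const 2
  have h1 : 𝒜.BF p q a b = fderiv ℝ (fderiv ℝ (𝒜.F p q)) (0, 0) (a, 0) (0, b) := sm0_mixed hF a b
  have h2 : 𝒜.B p q a b = fderiv ℝ (fderiv ℝ (𝒜.f p q)) (0, 0) (a, 0) (0, b) := sm0_mixed hc a b
  have h3 : fderiv ℝ (fderiv ℝ (𝒜.F p q)) (0, 0) (a, 0) (0, b) = _ := sm0_sq hc (a, 0) (0, b)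
  rw [h1, h3, h2, f_zero]
  have e1 := tr_D1f 𝒜 h a 0
  have e2 := tr_D1f 𝒜 h 0 b
  rw [map_zero, add_zero] at e1
  rw [map_zero, zero_add] at e2
  rw [e1, e2]

omit [CompactSpace M] in
theorem tr_theta {p q : M} (h : 𝒜.theta p q ≠ 0) {a : Eu n} (ha : ∀ b, 𝒜.BF p q a b = 0) : a = 0 := by
  have hdet : (Matrix.of fun i j : Fin n =>
      𝒜.BF p q (EuclideanSpace.single i 1) (EuclideanSpace.single j 1)).det ≠ 0 := by
    intro h'
    apply h
    unfold SDist.theta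
    rw [h', abs_zero]
  have hv : Matrix.vecMul (fun i => a i) (Matrix.of fun i j : Fin n =>
      𝒜.BF p q (EuclideanSpace.single i 1) (EuclideanSpace.single j 1)) = 0 := by
    funext j
    have h1 := ha (EuclideanSpace.single j 1)
    rw [sm0_expand a, map_sum, sum_apply] at h1
    simp only [map_smul, smul_apply, smul_eq_mul] at h1
    simpa [Matrix.vecMul, dotProduct] using h1
  have h2 := Matrix.eq_zero_of_vecMul_eq_zero hdet hv
  ext i
  exact congrFun h2 i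

/-- the mixed second derivative of `d ^ 2 / 2` is nondegenerate near the diagonal -/
theorem tr_theta_ev (p₀ : M) : ∀ᶠ z in 𝓝 (p₀, p₀), 𝒜.theta z.1 z.2 ≠ 0 := by
  have t1 : Tendsto (fun z : M × M => z.1) (𝓝 (p₀, p₀)) (𝓝 p₀) := continuous_fst.tendsto _
  have t2 : Tendsto (fun z : M × M => z.2) (𝓝 (p₀, p₀)) (𝓝 p₀) := continuous_snd.tendsto _
  have t3 : Tendsto (fun z : M × M => (𝒜.ψ p₀ z.1, 𝒜.ψ p₀ z.2)) (𝓝 (p₀, p₀)) (𝓝 (0, 0)) :=
    ((tendsto_ψ 𝒜 p₀).comp t1).prodMk_nhds ((tendsto_ψ 𝒜 p₀).comp t2)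
  have hdet : ∀ᶠ z : M × M in 𝓝 (p₀, p₀), (Mx (𝒜.F p₀ p₀) (𝒜.ψ p₀ z.1, 𝒜.ψ p₀ z.2)).det ≠ 0 := by
    have h1 := (continuousAt_Mx ((F_diag_eventually 𝒜 p₀).self_of_nhds.of_le two_le_infty)).tendsto.comp t3
    have h2 := ((continuous_id.matrix_det).tendsto (Mx (𝒜.F p₀ p₀) (0, 0))).comp h1
    refine h2.eventually_ne ?_
    show (id (Mx (𝒜.F p₀ p₀) (0, 0))).det ≠ 0
    rw [id_eq, Mx_diag, Matrix.det_neg, Matrix.det_one]
    simp
  have hT : ∀ᶠ p' in 𝓝 p₀, (mt (fderiv ℝ (𝒜.ch p₀ p') 0)).det ≠ 0 := by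
    filter_upwards [(tendsto_det_ch 𝒜 p₀).eventually_ne one_ne_zero] with p' hp' h
    apply hp'
    rw [h, abs_zero]
  have hs := (𝒜.ψ p₀).open_source.mem_nhds (𝒜.mem p₀)
  filter_upwards [t1.eventually hs, t2.eventually hs, t1.eventually hT, t2.eventually hT, hdet,
    t3.eventually (F_diag_eventually 𝒜 p₀)] with z h1 h2 h3 h4 h5 h6
  have h7 : ContDiffAt ℝ 2 (𝒜.F z.1 z.2) (0, 0) := ((contDiffAt_F_iff 𝒜 h1 h2).1 h6).of_le two_le_infty
  have h8 : (Matrix.of fun i j : Fin n =>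
      𝒜.BF z.1 z.2 (EuclideanSpace.single i 1) (EuclideanSpace.single j 1)) = Mx (𝒜.F z.1 z.2) (0, 0) := by
    ext i j
    exact sm0_mixed h7 _ _
  unfold SDist.theta
  rw [h8, Mx_ch 𝒜 h1 h2 (h6.of_le two_le_infty), Matrix.det_mul, Matrix.det_mul, Matrix.det_transpose]
  exact abs_ne_zero.2 (mul_ne_zero (mul_ne_zero h3 h5) h4)

/-- `B` is nondegenerate at small distance -/
theorem tr_short : ∃ ρ : ℝ, 0 < ρ ∧ ∀ p q : M, dist p q < ρ → 𝒜.theta p q ≠ 0 := by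
  have h1 : {z : M × M | 𝒜.theta z.1 z.2 ≠ 0} ∈ 𝓤 M := by
    rw [← nhdsSet_diagonal_eq_uniformity, mem_nhdsSet_iff_forall]
    rintro ⟨p, q⟩ hpq
    have hpq : p = q := hpq
    subst hpq
    exact tr_theta_ev 𝒜 p
  obtain ⟨ρ, h2, h3⟩ := Metric.mem_uniformity_dist.1 h1
  exact ⟨ρ, h2, fun p q h => h3 h⟩

theorem tr_short_B (hB : Bl M) {c : ℝ → M} (hc : IsGeo c) {s t : ℝ} (h1 : s < t) (h2 : t < s + π)
    (h3 : 𝒜.theta (c s) (c t) ≠ 0) {a : Eu n} (ha : ⟪𝒜.vel c s, a⟫ = 0) (hb : ∀ b, 𝒜.B (c s) (c t) a b = 0) :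
    a = 0 := by
  apply tr_theta 𝒜 h3
  intro b
  rw [tr_BF 𝒜 (tr_smooth 𝒜 hB hc h1 h2), hb b]
  have : 𝒜.D1 (c s) (c (s + (t - s))) a = -⟪𝒜.vel c s, a⟫ := D1_forward 𝒜 hB hc (by linarith) (by linarith) a
  rw [add_sub_cancel, ha] at this
  rw [this]
  ring

theorem tr_vel_rev {c : ℝ → M} (hc : IsGeo c) {s : ℝ} {a : Eu n} (ha : ⟪𝒜.vel c s, a⟫ = 0) :
    ⟪𝒜.vel (fun x => c (-x)) (-s), a⟫ = 0 := by
  rw [vel_rev 𝒜 hc, neg_neg, inner_neg_left, ha, neg_zero]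

theorem tr_short_B' (hB : Bl M) {c : ℝ → M} (hc : IsGeo c) {s t : ℝ} (h1 : t < s) (h2 : s < t + π)
    (h3 : 𝒜.theta (c s) (c t) ≠ 0) {a : Eu n} (ha : ⟪𝒜.vel c s, a⟫ = 0) (hb : ∀ b, 𝒜.B (c s) (c t) a b = 0) :
    a = 0 := by
  refine tr_short_B 𝒜 hB hc.rev (s := -s) (t := -t) (by linarith) (by linarith) ?_ (tr_vel_rev 𝒜 hc ha) ?_
  · simpa only [neg_neg] using h3
  · simpa only [neg_neg] using hb

theorem tr_step (hB : Bl M) {c : ℝ → M} (hc : IsGeo c) {r m t : ℝ} (h1 : r < m) (h2 : m < t) (h3 : t < r + π)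
    (hθ : 𝒜.theta (c r) (c m) ≠ 0) (hθ' : 𝒜.theta (c m) (c r) ≠ 0)
    (hm : ∀ e, ⟪𝒜.vel c m, e⟫ = 0 → (∀ b, 𝒜.B (c m) (c t) e b = 0) → e = 0) {a : Eu n}
    (ha : ⟪𝒜.vel c r, a⟫ = 0) (hb : ∀ b, 𝒜.B (c r) (c t) a b = 0) : a = 0 := by
  obtain ⟨e, he⟩ := tri_of_pos 𝒜 hB hc h1 h2 h3 (fun a ha ha0 => tr_pos 𝒜 hB hc h1 h2 h3
    (fun a ha hb => tr_short_B' 𝒜 hB hc h1 (by linarith) hθ' ha hb) ha ha0)
  obtain ⟨-, he2, he3⟩ := he a 0
  obtain ⟨hv1, -⟩ := hc.exists_vel 𝒜 m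
  have hBv : ∀ b, 𝒜.B (c m) (c t) (𝒜.vel c m) b = 0 :=
    B_vel 𝒜 hB hc h2.ne (by rw [abs_sub_comm, abs_of_pos (by linarith)]; linarith)
  have e1 : ∀ b, 𝒜.B (c m) (c t) (e a 0) b = 0 := by
    intro b
    have := he3 b
    simp only [map_zero, zero_apply] at this
    rw [hb b] at this
    linarith
  have e2 : e a 0 - ⟪𝒜.vel c m, e a 0⟫ • 𝒜.vel c m = 0 := by
    apply hm
    · rw [inner_sub_right, inner_smul_right, real_inner_self_eq_norm_sq, hv1]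
      ring
    · intro b
      rw [map_sub, map_smul, sub_apply, smul_apply, e1 b, hBv b]
      simp
  have e3 : e a 0 = ⟪𝒜.vel c m, e a 0⟫ • 𝒜.vel c m := sub_eq_zero.1 e2
  refine tr_short_B 𝒜 hB hc h1 (by linarith) hθ ha fun b => ?_
  have h4 := he2 b
  rw [e3] at h4
  have h5 := G_vel 𝒜 hB hc h1 h2 (by linarith) (by linarith) b
  simp only [map_smul, smul_apply, smul_eq_mul, map_zero] at h4
  rw [← mul_add, h5, mul_zero, zero_add, add_zero] at h4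
  exact h4

theorem tr_nondeg (hB : Bl M) {c : ℝ → M} (hc : IsGeo c) {s t : ℝ} (h0 : s < t) (h1 : t < s + π) {a : Eu n}
    (ha : ⟪𝒜.vel c s, a⟫ = 0) (hb : ∀ b, 𝒜.B (c s) (c t) a b = 0) : a = 0 := by
  obtain ⟨ρ, hρ, hθ⟩ := tr_short 𝒜
  have key : ∀ (k : ℕ) (s t : ℝ), s < t → t < s + π → t - s ≤ (k + 1) * (ρ / 2) → ∀ a : Eu n,
      ⟪𝒜.vel c s, a⟫ = 0 → (∀ b, 𝒜.B (c s) (c t) a b = 0) → a = 0 := by
    intro k
    induction k with
    | zero =>
      intro s t h0 h1 h2 a ha hb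
      refine tr_short_B 𝒜 hB hc h0 h1 (hθ _ _ ?_) ha hb
      rw [tr_dist hc h0.le h1.le]
      simp only [Nat.cast_zero, zero_add, one_mul] at h2
      linarith
    | succ k ih =>
      intro s t h0 h1 h2 a ha hb
      by_cases h3 : t - s ≤ ρ / 2
      · refine tr_short_B 𝒜 hB hc h0 h1 (hθ _ _ ?_) ha hb
        rw [tr_dist hc h0.le h1.le]
        linarith
      · push Not at h3
        have hd : dist (c s) (c (s + ρ / 2)) < ρ := by
          rw [tr_dist hc (by linarith) (by linarith)]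
          linarith
        refine tr_step 𝒜 hB hc (r := s) (m := s + ρ / 2) (t := t) (by linarith) (by linarith) h1 (hθ _ _ hd)
          (hθ _ _ (by rw [dist_comm]; exact hd)) ?_ ha hb
        intro e he1 he2
        refine ih (s + ρ / 2) t (by linarith) (by linarith) ?_ e he1 he2
        push_cast at h2
        linarith
  obtain ⟨k, hk⟩ := exists_nat_gt ((t - s) / (ρ / 2))
  refine key k s t h0 h1 ?_ a ha hb
  rw [div_lt_iff₀ (by positivity)] at hk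
  linarith

/-- no conjugate points before `π` -/
theorem B_nondeg (hB : Bl M) {c : ℝ → M} (hc : IsGeo c) {s t : ℝ} (h0 : s ≠ t) (h1 : |s - t| < π) {a : Eu n}
    (ha : ⟪𝒜.vel c s, a⟫ = 0) (ha' : ∀ b, 𝒜.B (c s) (c t) a b = 0) : a = 0 := by
  rcases lt_or_gt_of_ne h0 with h | h
  · rw [abs_sub_comm, abs_of_pos (by linarith)] at h1
    exact tr_nondeg 𝒜 hB hc h (by linarith) ha ha'
  · rw [abs_of_pos (by linarith)] at h1
    refine tr_nondeg 𝒜 hB hc.rev (s := -s) (t := -t) (by linarith) (by linarith) (tr_vel_rev 𝒜 hc ha) ?_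
    simpa only [neg_neg] using ha'

/-- the second derivative of `d(x,.) + d(.,z)` at an interior point of the segment is positive transversally -/
theorem G_pos (hB : Bl M) {c : ℝ → M} (hc : IsGeo c) {r s t : ℝ} (h1 : r < s) (h2 : s < t) (h3 : t < r + π)
    {a : Eu n} (ha : ⟪𝒜.vel c s, a⟫ = 0) (ha0 : a ≠ 0) :
    0 < 𝒜.H (c s) (c r) a a + 𝒜.H (c s) (c t) a a :=
  tr_pos 𝒜 hB hc h1 h2 h3 (fun _ ha hb => B_nondeg 𝒜 hB hc h1.ne'
    (by rw [abs_of_pos (by linarith)]; linarith) ha hb) ha ha0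

/-- three points on a geodesic, the middle one between the others: the second derivative of
`G(x,y,z) = d(x,y) + d(y,z) - d(x,z)` vanishes on the tangent vectors of the set of collinear triples -/
theorem tri (hB : Bl M) {c : ℝ → M} (hc : IsGeo c) {r s t : ℝ} (h1 : r < s) (h2 : s < t) (h3 : t < r + π) :
    ∃ e : Eu n → Eu n → Eu n, ∀ a b,
      (∀ a', 𝒜.H (c r) (c s) a a' - 𝒜.H (c r) (c t) a a' + 𝒜.B (c r) (c s) a' (e a b)
        - 𝒜.B (c r) (c t) a' b = 0) ∧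
      (∀ e', 𝒜.H (c s) (c r) (e a b) e' + 𝒜.H (c s) (c t) (e a b) e' + 𝒜.B (c r) (c s) a e'
        + 𝒜.B (c s) (c t) e' b = 0) ∧
      (∀ b', 𝒜.H (c t) (c s) b b' - 𝒜.H (c t) (c r) b b' + 𝒜.B (c s) (c t) (e a b) b'
        - 𝒜.B (c r) (c t) a b' = 0) :=
  tri_of_pos 𝒜 hB hc h1 h2 h3 fun _ ha ha0 => G_pos 𝒜 hB hc h1 h2 h3 ha ha0

end Pool.Agent.Lib.MP_ccbbf6_gt.Geo
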