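import Pool.Agent.Lib.MP_ccbbf6_gt.Geo.DA0
import Pool.Agent.Lib.MP_ccbbf6_gt.Geo.SMd

/-!
# DA1: matrix form of `tri` and `tri_long`
-/

set_option autoImplicit false
set_option linter.unusedSectionVars false

open Set Filter Topology Metric Real
open scoped ContDiff RealInnerProductSpace

noncomputable section

namespace Pool.Agent.Lib.MP_ccbbf6_gt.Geo

variable {n N : ℕ} {M : Type*} [MetricSpace M] [CompactSpace M] (𝒜 : SDist n M)

/-- the mixed second derivative in frames -/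
def SDist.Bm (p q : M) (L L' : Eu N →ₗᵢ[ℝ] Eu n) : Matrix (Fin N) (Fin N) ℝ :=
  Matrix.of fun i j => 𝒜.B p q (L (EuclideanSpace.single i 1)) (L' (EuclideanSpace.single j 1))

/-- the second derivative in a frame -/
def SDist.Hm (p q : M) (L : Eu N →ₗᵢ[ℝ] Eu n) : Matrix (Fin N) (Fin N) ℝ :=
  Matrix.of fun i j => 𝒜.H p q (L (EuclideanSpace.single i 1)) (L (EuclideanSpace.single j 1))

theorem da_expand (x : Eu N) : x = ∑ k : Fin N, x k • EuclideanSpace.single k (1 : ℝ) := by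
  have := (EuclideanSpace.basisFun (Fin N) ℝ).sum_repr x
  simp only [EuclideanSpace.basisFun_apply, EuclideanSpace.basisFun_repr] at this
  exact this.symm

/-- coordinates of a linear functional applied to a vector of the frame -/
theorem da_lin (φ : Eu n →L[ℝ] ℝ) (L : Eu N →ₗᵢ[ℝ] Eu n) (x : Eu N) :
    φ (L x) = ∑ k : Fin N, φ (L (EuclideanSpace.single k 1)) * x k := by
  conv_lhs => rw [da_expand x]
  simp only [map_sum, map_smul, smul_eq_mul, mul_comm]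

theorem da_Bm_right (p q : M) (L L' : Eu N →ₗᵢ[ℝ] Eu n) (i : Fin N) (x : Eu N) :
    𝒜.B p q (L (EuclideanSpace.single i 1)) (L' x) = (𝒜.Bm p q L L').mulVec x i := by
  rw [da_lin]
  simp [SDist.Bm, Matrix.mulVec, dotProduct]

theorem da_Bm_left (p q : M) (L L' : Eu N →ₗᵢ[ℝ] Eu n) (i : Fin N) (x : Eu N) :
    𝒜.B p q (L x) (L' (EuclideanSpace.single i 1)) = (𝒜.Bm p q L L').transpose.mulVec x i := by
  have := da_lin ((𝒜.B p q).flip (L' (EuclideanSpace.single i 1))) L x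
  simp only [ContinuousLinearMap.flip_apply] at this
  rw [this]
  simp [SDist.Bm, Matrix.mulVec, dotProduct]

theorem da_Hm_right (p q : M) (L : Eu N →ₗᵢ[ℝ] Eu n) (i : Fin N) (x : Eu N) :
    𝒜.H p q (L (EuclideanSpace.single i 1)) (L x) = (𝒜.Hm p q L).mulVec x i := by
  rw [da_lin]
  simp [SDist.Hm, Matrix.mulVec, dotProduct]

theorem da_Hm_symm (hB : Bl M) {p q : M} (h0 : 0 < dist p q) (h1 : dist p q < π) (L : Eu N →ₗᵢ[ℝ] Eu n) :
    (𝒜.Hm p q L).transpose = 𝒜.Hm p q L := by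
  ext i j
  simp only [SDist.Hm, Matrix.transpose_apply, Matrix.of_apply]
  exact H_symm 𝒜 hB h0 h1 _ _

theorem da_Hm_left (hB : Bl M) {p q : M} (h0 : 0 < dist p q) (h1 : dist p q < π) (L : Eu N →ₗᵢ[ℝ] Eu n)
    (i : Fin N) (x : Eu N) :
    𝒜.H p q (L x) (L (EuclideanSpace.single i 1)) = (𝒜.Hm p q L).mulVec x i := by
  rw [H_symm 𝒜 hB h0 h1, da_Hm_right]

theorem da_Bm_transpose (hB : Bl M) {p q : M} (h0 : 0 < dist p q) (h1 : dist p q < π) (L L' : Eu N →ₗᵢ[ℝ] Eu n) :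
    (𝒜.Bm p q L L').transpose = 𝒜.Bm q p L' L := by
  ext i j
  simp only [SDist.Bm, Matrix.transpose_apply, Matrix.of_apply]
  exact B_symm 𝒜 hB h0 h1 _ _

/-- distances on a geodesic -/
theorem IsGeo.dist_eq' {c : ℝ → M} (hc : IsGeo c) {s t : ℝ} (h : |s - t| < π) : dist (c s) (c t) = |s - t| :=
  hc s t h.le

theorem IsGeo.dist_pos {c : ℝ → M} (hc : IsGeo c) {s t : ℝ} (h0 : s ≠ t) (h : |s - t| < π) :
    0 < dist (c s) (c t) ∧ dist (c s) (c t) < π := by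
  rw [hc.dist_eq' h]
  exact ⟨abs_pos.mpr (sub_ne_zero.mpr h0), h⟩

theorem B_vel_right (hB : Bl M) {c : ℝ → M} (hc : IsGeo c) {s t : ℝ} (h0 : s ≠ t) (h1 : |s - t| < π) (a : Eu n) :
    𝒜.B (c s) (c t) a (𝒜.vel c t) = 0 := by
  have h2 := hc.dist_pos h0 h1
  rw [B_symm 𝒜 hB h2.1 h2.2]
  exact B_vel 𝒜 hB hc h0.symm (by rwa [abs_sub_comm]) a

/-- the mixed second derivative in frames is invertible -/
theorem da_Bm_det (hB : Bl M) {c : ℝ → M} (hc : IsGeo c) {s t : ℝ} (h0 : s ≠ t) (h1 : |s - t| < π)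
    {L L' : Eu N →ₗᵢ[ℝ] Eu n} (hL : Frame (𝒜.vel c s) L) (hL' : Frame (𝒜.vel c t) L') :
    (𝒜.Bm (c s) (c t) L L').det ≠ 0 := by
  intro hdet
  rw [← Matrix.det_transpose] at hdet
  obtain ⟨w, hw0, hw⟩ := Matrix.exists_mulVec_eq_zero_iff.mpr hdet
  apply hw0
  set x : Eu N := WithLp.toLp 2 w with hx
  have h2 : ∀ b, 𝒜.B (c s) (c t) (L x) b = 0 := by
    intro b
    obtain ⟨z, hz⟩ := hL'.decomp (hc.exists_vel 𝒜 t).1 b
    rw [hz, map_add, map_smul, B_vel_right 𝒜 hB hc h0 h1, smul_zero, zero_add]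
    have h3 := da_lin (𝒜.B (c s) (c t) (L x)) L' z
    rw [h3]
    refine Finset.sum_eq_zero fun k _ => ?_
    rw [da_Bm_left]
    have : (𝒜.Bm (c s) (c t) L L').transpose.mulVec x k = 0 := by
      have := congrFun hw k
      simpa using this
    rw [this, zero_mul]
  have h3 := B_nondeg 𝒜 hB hc h0 h1 (hL.orth x) h2
  have h4 : x = 0 := by
    apply L.injective
    rw [h3, map_zero]
  have : w = (x : Fin N → ℝ) := rfl
  rw [this, h4]
  rfl

/-- the common form of `tri` (`ε = -1`) and `tri_long` (`ε = 1`) in frames -/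
structure TriM (ε : ℝ) (H12 H13 H21 H23 H32 H31 P Q R : Matrix (Fin N) (Fin N) ℝ) : Prop where
  ex : ∀ α β : Fin N → ℝ, ∃ ζ : Fin N → ℝ,
    (H12 + ε • H13).mulVec α + P.mulVec ζ + ε • R.mulVec β = 0 ∧
    (H21 + H23).mulVec ζ + P.transpose.mulVec α + Q.mulVec β = 0 ∧
    (H32 + ε • H31).mulVec β + Q.transpose.mulVec ζ + ε • R.transpose.mulVec α = 0

theorem TriM.one {ε : ℝ} {H12 H13 H21 H23 H32 H31 P Q R : Matrix (Fin N) (Fin N) ℝ}
    (h : TriM ε H12 H13 H21 H23 H32 H31 P Q R) (hP : P.det ≠ 0) :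
    (H21 + H23) * P⁻¹ * (H12 + ε • H13) = P.transpose ∧ ε • ((H21 + H23) * P⁻¹ * R) = Q := by
  have hu : IsUnit P.det := isUnit_iff_ne_zero.mpr hP
  constructor
  · apply Matrix.toLin'.injective
    apply LinearMap.ext
    intro α
    obtain ⟨ζ, h1, h2, -⟩ := h.ex α 0
    rw [Matrix.mulVec_zero, smul_zero, add_zero] at h1
    rw [Matrix.mulVec_zero, add_zero] at h2
    have h3 : (H12 + ε • H13).mulVec α = -(P.mulVec ζ) := eq_neg_of_add_eq_zero_left h1
    rw [Matrix.toLin'_apply, Matrix.toLin'_apply, ← Matrix.mulVec_mulVec, h3, Matrix.mulVec_neg,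
      Matrix.mulVec_mulVec, Matrix.mul_assoc, Matrix.nonsing_inv_mul _ hu, Matrix.mul_one]
    exact (eq_neg_of_add_eq_zero_right h2).symm
  · apply Matrix.toLin'.injective
    apply LinearMap.ext
    intro β
    obtain ⟨ζ, h1, h2, -⟩ := h.ex 0 β
    rw [Matrix.mulVec_zero, zero_add] at h1
    rw [Matrix.mulVec_zero, add_zero] at h2
    have h3 : ε • R.mulVec β = -(P.mulVec ζ) := eq_neg_of_add_eq_zero_right h1
    rw [Matrix.toLin'_apply, Matrix.toLin'_apply, Matrix.smul_mulVec, ← Matrix.mulVec_mulVec,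
      ← Matrix.mulVec_smul, h3, Matrix.mulVec_neg,
      Matrix.mulVec_mulVec, Matrix.mul_assoc, Matrix.nonsing_inv_mul _ hu, Matrix.mul_one]
    exact (eq_neg_of_add_eq_zero_right h2).symm

theorem TriM.three {ε : ℝ} {H12 H13 H21 H23 H32 H31 P Q R : Matrix (Fin N) (Fin N) ℝ}
    (h : TriM ε H12 H13 H21 H23 H32 H31 P Q R) (hQ : Q.det ≠ 0) :
    (H21 + H23) * (Q.transpose)⁻¹ * (H32 + ε • H31) = Q ∧
      ε • ((H21 + H23) * (Q.transpose)⁻¹ * R.transpose) = P.transpose := by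
  have hu : IsUnit Q.transpose.det := by
    rw [Matrix.det_transpose]; exact isUnit_iff_ne_zero.mpr hQ
  constructor
  · apply Matrix.toLin'.injective
    apply LinearMap.ext
    intro β
    obtain ⟨ζ, -, h2, h1⟩ := h.ex 0 β
    rw [Matrix.mulVec_zero, smul_zero, add_zero] at h1
    rw [Matrix.mulVec_zero, add_zero] at h2
    have h3 : (H32 + ε • H31).mulVec β = -(Q.transpose.mulVec ζ) := eq_neg_of_add_eq_zero_left h1
    rw [Matrix.toLin'_apply, Matrix.toLin'_apply, ← Matrix.mulVec_mulVec, h3, Matrix.mulVec_neg,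
      Matrix.mulVec_mulVec, Matrix.mul_assoc, Matrix.nonsing_inv_mul _ hu, Matrix.mul_one]
    exact (eq_neg_of_add_eq_zero_right h2).symm
  · apply Matrix.toLin'.injective
    apply LinearMap.ext
    intro α
    obtain ⟨ζ, -, h2, h1⟩ := h.ex α 0
    rw [Matrix.mulVec_zero, zero_add] at h1
    rw [Matrix.mulVec_zero, add_zero] at h2
    have h3 : ε • R.transpose.mulVec α = -(Q.transpose.mulVec ζ) := eq_neg_of_add_eq_zero_right h1
    rw [Matrix.toLin'_apply, Matrix.toLin'_apply, Matrix.smul_mulVec, ← Matrix.mulVec_mulVec,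
      ← Matrix.mulVec_smul, h3, Matrix.mulVec_neg,
      Matrix.mulVec_mulVec, Matrix.mul_assoc, Matrix.nonsing_inv_mul _ hu, Matrix.mul_one]
    exact (eq_neg_of_add_eq_zero_right h2).symm

/-- `K Δ = 1` -/
theorem TriM.inv {ε : ℝ} {H12 H13 H21 H23 H32 H31 P Q R : Matrix (Fin N) (Fin N) ℝ}
    (h : TriM ε H12 H13 H21 H23 H32 H31 P Q R) (hP : P.det ≠ 0) :
    (H12 + ε • H13) * ((P.transpose)⁻¹ * (H21 + H23) * P⁻¹) = 1 := by
  have hu : IsUnit P.transpose.det := by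
    rw [Matrix.det_transpose]; exact isUnit_iff_ne_zero.mpr hP
  apply mul_eq_one_comm.mp
  have h1 := (h.one hP).1
  calc (P.transpose)⁻¹ * (H21 + H23) * P⁻¹ * (H12 + ε • H13)
      = (P.transpose)⁻¹ * ((H21 + H23) * P⁻¹ * (H12 + ε • H13)) := by simp only [Matrix.mul_assoc]
    _ = 1 := by rw [h1, Matrix.nonsing_inv_mul _ hu]

theorem da_absdet_smul {ε : ℝ} (hε : ε = 1 ∨ ε = -1) (X : Matrix (Fin N) (Fin N) ℝ) :
    (ε • X).det ^ 2 = X.det ^ 2 := by
  have h1 : (ε ^ Fintype.card (Fin N)) ^ 2 = 1 := by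
    rw [← pow_mul, mul_comm, pow_mul]
    rcases hε with rfl | rfl <;> simp
  rw [Matrix.det_smul, mul_pow, h1, one_mul]

/-- determinant consequences, first form -/
theorem TriM.det_one {ε : ℝ} (hε : ε = 1 ∨ ε = -1) {H12 H13 H21 H23 H32 H31 P Q R : Matrix (Fin N) (Fin N) ℝ}
    (h : TriM ε H12 H13 H21 H23 H32 H31 P Q R) (hP : P.det ≠ 0) (hR : R.det ≠ 0) :
    (H12 + ε • H13).det ^ 2 * Q.det ^ 2 = P.det ^ 2 * R.det ^ 2 := by
  obtain ⟨h1, h2⟩ := h.one hP
  have h3 := congrArg Matrix.det h1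
  have h4 := congrArg (fun X => Matrix.det X ^ 2) h2
  rw [da_absdet_smul hε] at h4
  rw [Matrix.det_mul, Matrix.det_mul, Matrix.det_transpose, Matrix.det_nonsing_inv, Ring.inverse_eq_inv'] at h3
  rw [Matrix.det_mul, Matrix.det_mul, Matrix.det_nonsing_inv, Ring.inverse_eq_inv'] at h4
  set y := (H21 + H23).det
  set d := (H12 + ε • H13).det
  have h5 : y * d = P.det ^ 2 := by
    field_simp at h3
    linarith
  rw [← h4]
  have h6 : d ^ 2 * (y * P.det⁻¹ * R.det) ^ 2 = (y * d) ^ 2 * (P.det⁻¹) ^ 2 * R.det ^ 2 := by ring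
  rw [h6, h5]
  field_simp

/-- second form: the middle operator -/
theorem TriM.det_two {ε : ℝ} (hε : ε = 1 ∨ ε = -1) {H12 H13 H21 H23 H32 H31 P Q R : Matrix (Fin N) (Fin N) ℝ}
    (h : TriM ε H12 H13 H21 H23 H32 H31 P Q R) (hP : P.det ≠ 0) :
    (H21 + H23).det ^ 2 * R.det ^ 2 = P.det ^ 2 * Q.det ^ 2 := by
  obtain ⟨-, h2⟩ := h.one hP
  have h4 := congrArg (fun X => Matrix.det X ^ 2) h2
  rw [da_absdet_smul hε, Matrix.det_mul, Matrix.det_mul, Matrix.det_nonsing_inv, Ring.inverse_eq_inv'] at h4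
  rw [← h4]
  field_simp

/-- third form -/
theorem TriM.det_three {ε : ℝ} (hε : ε = 1 ∨ ε = -1) {H12 H13 H21 H23 H32 H31 P Q R : Matrix (Fin N) (Fin N) ℝ}
    (h : TriM ε H12 H13 H21 H23 H32 H31 P Q R) (hQ : Q.det ≠ 0) (hR : R.det ≠ 0) :
    (H32 + ε • H31).det ^ 2 * P.det ^ 2 = Q.det ^ 2 * R.det ^ 2 := by
  obtain ⟨h1, h2⟩ := h.three hQ
  have h3 := congrArg Matrix.det h1
  have h4 := congrArg (fun X => Matrix.det X ^ 2) h2
  rw [da_absdet_smul hε] at h4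
  rw [Matrix.det_mul, Matrix.det_mul, Matrix.det_nonsing_inv, Matrix.det_transpose, Ring.inverse_eq_inv'] at h3
  rw [Matrix.det_mul, Matrix.det_mul, Matrix.det_nonsing_inv, Ring.inverse_eq_inv', Matrix.det_transpose,
    Matrix.det_transpose, Matrix.det_transpose] at h4
  set y := (H21 + H23).det
  set d := (H32 + ε • H31).det
  have h5 : y * d = Q.det ^ 2 := by
    field_simp at h3
    linarith
  rw [← h4]
  have h6 : d ^ 2 * (y * Q.det⁻¹ * R.det) ^ 2 = (y * d) ^ 2 * (Q.det⁻¹) ^ 2 * R.det ^ 2 := by ring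
  rw [h6, h5]
  field_simp

end Pool.Agent.Lib.MP_ccbbf6_gt.Geo
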