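import Pool.Agent.Lib.MP_ccbbf6_gt.Geo.CZt
import Pool.Agent.Lib.MP_ccbbf6_gt.Geo.DA1
import Pool.Agent.Lib.MP_ccbbf6_gt.Geo.EXc

/-!
# DA2: `tri`, `tri_long` in frames; smoothness of `x ↦ H (c s) (c x)`; Jacobian in frames
-/

set_option autoImplicit false
set_option linter.unusedSectionVars false

open Set Filter Topology Metric Real
open scoped ContDiff RealInnerProductSpace

noncomputable section

namespace Pool.Agent.Lib.MP_ccbbf6_gt.Geo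

variable {n N : ℕ} {M : Type*} [MetricSpace M] [CompactSpace M] (𝒜 : SDist n M)

theorem da_aux (hB : Bl M) {c : ℝ → M} (hc : IsGeo c) {r s t : ℝ} (h1 : r < s) (h2 : s < t) (h3 : s < r + π)
    (h4 : t < s + π) (hd : 0 < dist (c r) (c t) ∧ dist (c r) (c t) < π) (ε : ℝ)
    {L1 L2 L3 : Eu N →ₗᵢ[ℝ] Eu n} (f2 : Frame (𝒜.vel c s) L2)
    (he : ∃ e : Eu n → Eu n → Eu n, ∀ a b,
      (∀ a', 𝒜.H (c r) (c s) a a' + ε * 𝒜.H (c r) (c t) a a' + 𝒜.B (c r) (c s) a' (e a b)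
        + ε * 𝒜.B (c r) (c t) a' b = 0) ∧
      (∀ e', 𝒜.H (c s) (c r) (e a b) e' + 𝒜.H (c s) (c t) (e a b) e' + 𝒜.B (c r) (c s) a e'
        + 𝒜.B (c s) (c t) e' b = 0) ∧
      (∀ b', 𝒜.H (c t) (c s) b b' + ε * 𝒜.H (c t) (c r) b b' + 𝒜.B (c s) (c t) (e a b) b'
        + ε * 𝒜.B (c r) (c t) a b' = 0)) :
    TriM ε (𝒜.Hm (c r) (c s) L1) (𝒜.Hm (c r) (c t) L1) (𝒜.Hm (c s) (c r) L2) (𝒜.Hm (c s) (c t) L2)
      (𝒜.Hm (c t) (c s) L3) (𝒜.Hm (c t) (c r) L3) (𝒜.Bm (c r) (c s) L1 L2) (𝒜.Bm (c s) (c t) L2 L3)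
      (𝒜.Bm (c r) (c t) L1 L3) := by
  obtain ⟨e, he⟩ := he
  have hrs : |r - s| < π := by rw [abs_sub_lt_iff]; constructor <;> linarith
  have hst : |s - t| < π := by rw [abs_sub_lt_iff]; constructor <;> linarith
  have hsr : |s - r| < π := by rw [abs_sub_comm]; exact hrs
  have hts : |t - s| < π := by rw [abs_sub_comm]; exact hst
  have drs := hc.dist_pos h1.ne hrs
  have dst := hc.dist_pos h2.ne hst
  have dsr := hc.dist_pos h1.ne' hsr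
  have dts := hc.dist_pos h2.ne' hts
  have dtr : 0 < dist (c t) (c r) ∧ dist (c t) (c r) < π := by rw [dist_comm]; exact hd
  refine ⟨fun α β => ?_⟩
  set a : Eu N := WithLp.toLp 2 α with ha
  set b : Eu N := WithLp.toLp 2 β with hb
  obtain ⟨i1, i2, i3⟩ := he (L1 a) (L3 b)
  obtain ⟨z, hz⟩ := f2.decomp (hc.exists_vel 𝒜 s).1 (e (L1 a) (L3 b))
  set lam := ⟪𝒜.vel c s, e (L1 a) (L3 b)⟫ with hlam
  refine ⟨z, ?_, ?_, ?_⟩
  · ext i
    have j := i1 (L1 (EuclideanSpace.single i 1))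
    rw [hz, map_add, map_smul, B_vel_right 𝒜 hB hc h1.ne hrs, smul_zero, zero_add,
      da_Hm_left 𝒜 hB drs.1 drs.2, da_Hm_left 𝒜 hB hd.1 hd.2, da_Bm_right, da_Bm_right] at j
    simpa [Matrix.add_mulVec, Matrix.smul_mulVec] using j
  · ext i
    have j := i2 (L2 (EuclideanSpace.single i 1))
    have hv : 𝒜.H (c s) (c r) (e (L1 a) (L3 b)) (L2 (EuclideanSpace.single i 1))
        + 𝒜.H (c s) (c t) (e (L1 a) (L3 b)) (L2 (EuclideanSpace.single i 1))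
        = 𝒜.H (c s) (c r) (L2 z) (L2 (EuclideanSpace.single i 1))
          + 𝒜.H (c s) (c t) (L2 z) (L2 (EuclideanSpace.single i 1)) := by
      have g := G_vel 𝒜 hB hc h1 h2 h3 h4 (L2 (EuclideanSpace.single i 1))
      rw [hz]
      simp only [map_add, map_smul, _root_.add_apply, _root_.smul_apply, smul_eq_mul]
      linear_combination lam * g
    rw [hv, da_Hm_left 𝒜 hB dsr.1 dsr.2, da_Hm_left 𝒜 hB dst.1 dst.2, da_Bm_left, da_Bm_right] at j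
    simpa [Matrix.add_mulVec, Matrix.smul_mulVec] using j
  · ext i
    have j := i3 (L3 (EuclideanSpace.single i 1))
    have hv : 𝒜.B (c s) (c t) (e (L1 a) (L3 b)) (L3 (EuclideanSpace.single i 1))
        = 𝒜.B (c s) (c t) (L2 z) (L3 (EuclideanSpace.single i 1)) := by
      have g := B_vel 𝒜 hB hc h2.ne hst (L3 (EuclideanSpace.single i 1))
      rw [hz]
      simp only [map_add, map_smul, _root_.add_apply, _root_.smul_apply, smul_eq_mul]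
      rw [g]; ring
    rw [hv, da_Hm_left 𝒜 hB dts.1 dts.2, da_Hm_left 𝒜 hB dtr.1 dtr.2, da_Bm_left, da_Bm_left] at j
    simpa [Matrix.add_mulVec, Matrix.smul_mulVec] using j

theorem da_tri (hB : Bl M) {c : ℝ → M} (hc : IsGeo c) {r s t : ℝ} (h1 : r < s) (h2 : s < t) (h3 : t < r + π)
    {L1 L2 L3 : Eu N →ₗᵢ[ℝ] Eu n} (f2 : Frame (𝒜.vel c s) L2) :
    TriM (-1) (𝒜.Hm (c r) (c s) L1) (𝒜.Hm (c r) (c t) L1) (𝒜.Hm (c s) (c r) L2) (𝒜.Hm (c s) (c t) L2)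
      (𝒜.Hm (c t) (c s) L3) (𝒜.Hm (c t) (c r) L3) (𝒜.Bm (c r) (c s) L1 L2) (𝒜.Bm (c s) (c t) L2 L3)
      (𝒜.Bm (c r) (c t) L1 L3) := by
  have hrt : |r - t| < π := by rw [abs_sub_lt_iff]; constructor <;> linarith
  refine da_aux 𝒜 hB hc h1 h2 (by linarith) (by linarith) (hc.dist_pos (by linarith : r < t).ne hrt) (-1) f2 ?_
  obtain ⟨e, he⟩ := tri 𝒜 hB hc h1 h2 h3
  refine ⟨e, fun a b => ⟨fun a' => ?_, fun e' => ?_, fun b' => ?_⟩⟩
  · have := (he a b).1 a'; linarith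
  · exact (he a b).2.1 e'
  · have := (he a b).2.2 b'; linarith

/-- wrapper for `IsGeo.closed` -/
theorem da_closed {M : Type*} [MetricSpace M] [CompactSpace M] (_𝒜 : SDist n M) (hB : Bl M) {c : ℝ → M}
    (hc : IsGeo c) (t : ℝ) : c (t + 2 * π) = c t := IsGeo.closed _𝒜 hB hc t

theorem da_dist_long {M : Type*} [MetricSpace M] [CompactSpace M] (𝒜 : SDist n M) (hB : Bl M) {c : ℝ → M}
    (hc : IsGeo c) {s t : ℝ} (h1 : s + π < t) (h2 : t < s + 2 * π) :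
    dist (c s) (c t) = 2 * π - (t - s) := by
  have h3 : c t = c (t - 2 * π) := by
    have := da_closed 𝒜 hB hc (t - 2 * π)
    rwa [sub_add_cancel] at this
  rw [h3, hc s (t - 2 * π) (by rw [abs_le]; constructor <;> linarith [pi_pos]), abs_of_pos (by linarith)]
  ring

theorem da_tri_long (hB : Bl M) {c : ℝ → M} (hc : IsGeo c) {r s t : ℝ} (h1 : r < s) (h2 : s < t) (h3 : s < r + π)
    (h4 : t < s + π) (h5 : r + π < t) {L1 L2 L3 : Eu N →ₗᵢ[ℝ] Eu n} (f2 : Frame (𝒜.vel c s) L2) :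
    TriM 1 (𝒜.Hm (c r) (c s) L1) (𝒜.Hm (c r) (c t) L1) (𝒜.Hm (c s) (c r) L2) (𝒜.Hm (c s) (c t) L2)
      (𝒜.Hm (c t) (c s) L3) (𝒜.Hm (c t) (c r) L3) (𝒜.Bm (c r) (c s) L1 L2) (𝒜.Bm (c s) (c t) L2 L3)
      (𝒜.Bm (c r) (c t) L1 L3) := by
  have hd := da_dist_long 𝒜 hB hc h5 (by linarith : t < r + 2 * π)
  refine da_aux 𝒜 hB hc h1 h2 h3 h4 ⟨by rw [hd]; linarith, by rw [hd]; linarith⟩ 1 f2 ?_
  obtain ⟨e, he⟩ := tri_long 𝒜 hB hc h1 h2 h3 h4 h5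
  refine ⟨e, fun a b => ⟨fun a' => ?_, fun e' => ?_, fun b' => ?_⟩⟩
  · have := (he a b).1 a'; linarith
  · exact (he a b).2.1 e'
  · have := (he a b).2.2 b'; linarith

/-! ## smoothness of `x ↦ H (c s) (c x)` -/

theorem SDist.symm_zero (p : M) : (𝒜.ψ p).symm 0 = p := by
  have := (𝒜.ψ p).left_inv (𝒜.mem p)
  rwa [𝒜.zero p] at this

theorem da_contDiffAt_H (hB : Bl M) {c : ℝ → M} (hc : IsGeo c) {p : M} {x0 : ℝ} (h0 : 0 < dist p (c x0))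
    (h1 : dist p (c x0) < π) (a b : Eu n) : ContDiffAt ℝ ∞ (fun x => 𝒜.H p (c x) a b) x0 := by
  set q0 := c x0 with hq0
  set g : ℝ → Eu n := fun x => 𝒜.ψ q0 (c x) with hg
  have hgs : ContDiffAt ℝ ∞ g x0 := hc.contDiffAt 𝒜 (𝒜.mem q0)
  have hg0 : g x0 = 0 := 𝒜.zero q0
  have hf : ContDiffAt ℝ ∞ (𝒜.f p q0) (0, 0) := contDiffAt_f 𝒜 hB h0 h1
  -- the function of all variables
  set h : ℝ → Eu n → ℝ := fun x u => 𝒜.f p q0 (u, g x) with hh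
  have hhs : ContDiffAt ℝ ∞ (fun z : ℝ × Eu n => h z.1 z.2) (x0, 0) := by
    have e0 : ContDiffAt ℝ ∞ (fun z : ℝ × Eu n => g z.1) (x0, 0) :=
      ContDiffAt.comp (x0, (0 : Eu n)) (g := g) hgs contDiffAt_fst
    have e1 : ContDiffAt ℝ ∞ (fun z : ℝ × Eu n => ((z.2, g z.1) : Eu n × Eu n)) (x0, 0) :=
      contDiffAt_snd.prodMk e0
    have e2 : ContDiffAt ℝ ∞ (𝒜.f p q0) ((fun z : ℝ × Eu n => ((z.2, g z.1) : Eu n × Eu n)) (x0, 0)) := by
      simp only [hg0]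
      exact hf
    exact e2.comp (x0, (0 : Eu n)) e1
  -- first derivative
  set F1 : ℝ → Eu n → (Eu n →L[ℝ] ℝ) := fun x u => fderiv ℝ (h x) u with hF1
  have hF1s : ContDiffAt ℝ ∞ (Function.uncurry F1) (x0, 0) := by
    have e1 : ContDiffAt ℝ ∞ (Function.uncurry fun (z : ℝ × Eu n) (u : Eu n) => h z.1 u)
        ((x0, (0 : Eu n)), (fun z : ℝ × Eu n => z.2) (x0, 0)) := by
      have e2 : ContDiffAt ℝ ∞ (fun w : (ℝ × Eu n) × Eu n => ((w.1.1, w.2) : ℝ × Eu n)) ((x0, (0 : Eu n)), 0) :=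
        (contDiffAt_fst.comp ((x0, (0 : Eu n)), (0 : Eu n)) contDiffAt_fst).prodMk contDiffAt_snd
      exact ContDiffAt.comp ((x0, (0 : Eu n)), (0 : Eu n))
        (g := fun z : ℝ × Eu n => h z.1 z.2) hhs e2
    exact ContDiffAt.fderiv (m := ∞) (n := ∞) e1 contDiffAt_snd (by simp)
  have hF2s : ContDiffAt ℝ ∞ (fun x => fderiv ℝ (F1 x) 0) x0 :=
    ContDiffAt.fderiv (m := ∞) (n := ∞) (g := fun _ => (0 : Eu n)) hF1s contDiffAt_const (by simp)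
  have hev : ∀ᶠ x in 𝓝 x0, 𝒜.H p (c x) = fderiv ℝ (F1 x) 0 := by
    have hcont : ContinuousAt c x0 := by
      refine Metric.continuousAt_iff.mpr fun ε hε => ⟨min ε π, lt_min hε pi_pos, fun y hy => ?_⟩
      have h2 : |y - x0| < min ε π := by rwa [Real.dist_eq] at hy
      rw [hc y x0 (h2.le.trans (min_le_right _ _))]
      exact lt_of_lt_of_le h2 (min_le_left _ _)
    have h2 : ∀ᶠ x in 𝓝 x0, c x ∈ (𝒜.ψ q0).source :=
      hcont.eventually ((𝒜.ψ q0).open_source.mem_nhds (𝒜.mem q0))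
    filter_upwards [h2] with x hx
    have h3 : (fun u' : Eu n => 𝒜.f p (c x) (u', 0)) = h x := by
      funext u'
      simp only [hh, SDist.f, hg]
      rw [𝒜.symm_zero (c x), (𝒜.ψ q0).left_inv hx]
    simp only [SDist.H, h3, hF1]
  have h5 : ContDiffAt ℝ ∞ (fun x => fderiv ℝ (F1 x) 0 a b) x0 :=
    (hF2s.clm_apply contDiffAt_const).clm_apply contDiffAt_const
  refine h5.congr_of_eventuallyEq ?_
  filter_upwards [hev] with x hx
  rw [hx]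

/-! ## the Jacobian in frames -/

/-- the sum over the coordinates in a frame -/
theorem da_sum_frame {M : Type*} [MetricSpace M] [CompactSpace M] (𝒜 : SDist (N + 1) M) (hB : Bl M) {c : ℝ → M}
    (hc : IsGeo c) {s t : ℝ} (h0 : s ≠ t) (h1 : |s - t| < π)
    {L' : Eu N →ₗᵢ[ℝ] Eu (N + 1)} (hL' : Frame (𝒜.vel c t) L') (a b : Eu (N + 1)) :
    ∑ k : Fin (N + 1), 𝒜.B (c s) (c t) a (EuclideanSpace.single k 1) * 𝒜.B (c s) (c t) b (EuclideanSpace.single k 1)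
      = ∑ j : Fin N, 𝒜.B (c s) (c t) a (L' (EuclideanSpace.single j 1)) *
        𝒜.B (c s) (c t) b (L' (EuclideanSpace.single j 1)) := by
  obtain ⟨bs, hb1, hb2⟩ := hL'.exists_basis (hc.exists_vel 𝒜 t).1
  rw [da_parseval bs, Fintype.sum_sum_type]
  simp only [hb2, Finset.univ_unique, PUnit.default_eq_unit, Finset.sum_singleton, hb1,
    B_vel_right 𝒜 hB hc h0 h1, zero_mul, zero_add]

theorem da_theta {M : Type*} [MetricSpace M] [CompactSpace M] (𝒜 : SDist (N + 1) M) (hB : Bl M) {c : ℝ → M}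
    (hc : IsGeo c) {s t : ℝ} (h0 : s < t) (h1 : t < s + π)
    {L L' : Eu N →ₗᵢ[ℝ] Eu (N + 1)} (hL : Frame (𝒜.vel c s) L) (hL' : Frame (𝒜.vel c t) L') :
    𝒜.theta (c s) (c t) = (t - s) ^ N * |(𝒜.Bm (c s) (c t) L L').det| := by
  have hst : |s - t| < π := by rw [abs_sub_lt_iff]; constructor <;> linarith [pi_pos]
  obtain ⟨b1, hb1, hb2⟩ := hL.exists_basis (hc.exists_vel 𝒜 s).1
  obtain ⟨b1', hb1', hb2'⟩ := hL'.exists_basis (hc.exists_vel 𝒜 t).1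
  rw [SDist.theta, ← da_det_bilin b1 b1' (𝒜.BF (c s) (c t))]
  have hv1 : ⟪𝒜.vel c s, 𝒜.vel c s⟫ = (1 : ℝ) := by
    rw [real_inner_self_eq_norm_sq, (hc.exists_vel 𝒜 s).1]; norm_num
  have hv2 : ⟪𝒜.vel c t, 𝒜.vel c t⟫ = (1 : ℝ) := by
    rw [real_inner_self_eq_norm_sq, (hc.exists_vel 𝒜 t).1]; norm_num
  have hblock : (Matrix.of fun i j => 𝒜.BF (c s) (c t) (b1 i) (b1' j))
      = Matrix.fromBlocks (-1) 0 0 ((t - s) • 𝒜.Bm (c s) (c t) L L') := by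
    ext i j
    rcases i with i | i <;> rcases j with j | j
    · simp only [Matrix.of_apply, Matrix.fromBlocks_apply₁₁, hb1, hb1', BF_eq 𝒜 hB hc h0 h1, hv1, hv2,
        B_vel 𝒜 hB hc h0.ne hst, mul_zero, Matrix.neg_apply]
      rw [Subsingleton.elim i j, Matrix.one_apply_eq]
      norm_num
    · simp only [Matrix.of_apply, Matrix.fromBlocks_apply₁₂, hb1, hb2', BF_eq 𝒜 hB hc h0 h1, hL'.orth,
        B_vel 𝒜 hB hc h0.ne hst, mul_zero, Matrix.zero_apply, add_zero]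
    · simp only [Matrix.of_apply, Matrix.fromBlocks_apply₂₁, hb2, hb1', BF_eq 𝒜 hB hc h0 h1, hL.orth,
        B_vel_right 𝒜 hB hc h0.ne hst, mul_zero, Matrix.zero_apply, add_zero, neg_zero, zero_mul]
    · simp only [Matrix.of_apply, Matrix.fromBlocks_apply₂₂, hb2, hb2', BF_eq 𝒜 hB hc h0 h1, hL.orth,
        neg_zero, zero_mul, zero_add, Matrix.smul_apply, SDist.Bm, smul_eq_mul]
  rw [hblock, Matrix.det_fromBlocks_zero₂₁, Matrix.det_smul, abs_mul, abs_mul, Fintype.card_fin, abs_pow,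
    abs_of_pos (sub_pos.mpr h0)]
  have h3 : |(-1 : Matrix Unit Unit ℝ).det| = 1 := by simp
  rw [h3, one_mul]

theorem da_J {M : Type*} [MetricSpace M] [CompactSpace M] (𝒜 : SDist (N + 1) M) (hB : Bl M) {c : ℝ → M}
    (hc : IsGeo c) {s t : ℝ} (h0 : s < t) (h1 : t < s + π)
    {L L' : Eu N →ₗᵢ[ℝ] Eu (N + 1)} (hL : Frame (𝒜.vel c s) L) (hL' : Frame (𝒜.vel c t) L') :
    𝒜.J (c s) (c t) ^ 2 * (𝒜.Bm (c s) (c t) L L').det ^ 2 = 1 := by
  have hst : |s - t| < π := by rw [abs_sub_lt_iff]; constructor <;> linarith [pi_pos]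
  have hdet := da_Bm_det 𝒜 hB hc h0.ne hst hL hL'
  rw [SDist.J, da_theta 𝒜 hB hc h0 h1 hL hL', hc.dist_eq' hst, abs_sub_comm, abs_of_pos (sub_pos.mpr h0),
    Nat.add_sub_cancel]
  have h2 : (t - s) ^ N ≠ 0 := pow_ne_zero _ (sub_pos.mpr h0).ne'
  have h3 : |(𝒜.Bm (c s) (c t) L L').det| ≠ 0 := abs_ne_zero.mpr hdet
  rw [mul_comm ((t - s) ^ N), div_mul_cancel_right₀ h2, inv_pow, sq_abs]
  exact inv_mul_cancel₀ (pow_ne_zero _ hdet)

end Pool.Agent.Lib.MP_ccbbf6_gt.Geo
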