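import Pool.Agent.Lib.MP_ccbbf6_gt.Geo.HHa
import Pool.Agent.Lib.MP_ccbbf6_gt.Geo.SMc

/-!
# HH: the differentiated eikonal equation
-/

set_option autoImplicit false
set_option maxSynthPendingDepth 3

open Set Filter Topology Metric Real
open scoped ContDiff RealInnerProductSpace

noncomputable section

namespace Pool.Agent.Lib.MP_ccbbf6_gt.Geo

variable {n : ℕ} {M : Type*} [MetricSpace M] [CompactSpace M] (𝒜 : SDist n M)

omit [CompactSpace M] in
lemma hh_continuous {c : ℝ → M} (hc : IsGeo c) : Continuous c := by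
  rw [Metric.continuous_iff]
  intro t ε hε
  refine ⟨ε, hε, fun s hs => lt_of_le_of_lt (hc.dist_le s t) ?_⟩
  rwa [Real.dist_eq] at hs

omit [CompactSpace M] in
lemma hh_symm_zero (p : M) : (𝒜.ψ p).symm 0 = p := by
  have := (𝒜.ψ p).left_inv (𝒜.mem p)
  rwa [𝒜.zero p] at this

omit [CompactSpace M] in
/-- `D₂ f (p, q)` at `(u, 0)` -/
lemma hh_D1 (p q : M) (u : Eu n) :
    fderiv ℝ (fun v => 𝒜.f p q (u, v)) 0 = 𝒜.D1 q ((𝒜.ψ p).symm u) := by
  unfold SDist.D1 SDist.f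
  simp only [hh_symm_zero]
  congr 1
  funext v
  rw [dist_comm]

omit [CompactSpace M] in
/-- the second derivative with the second point moving -/
lemma hh_H (p q x : M) (hx : x ∈ (𝒜.ψ q).source) :
    𝒜.H p x = fderiv ℝ (fun u => fderiv ℝ (fun u' => 𝒜.f p q (u', 𝒜.ψ q x)) u) 0 := by
  unfold SDist.H SDist.f
  simp only [hh_symm_zero, (𝒜.ψ q).left_inv hx]

/-- eikonal equation -/
lemma hh_eik (hB : Bl M) {p q : M} (h0 : 0 < dist p q) (h1 : dist p q < π) :
    ∑ j : Fin n, (𝒜.D1 q p (EuclideanSpace.single j 1)) ^ 2 = 1 := by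
  obtain ⟨c, hc, hc0, hc1⟩ := exists_geo 𝒜 hB (dist_pos.1 h0)
  obtain ⟨hv, -⟩ := hc.exists_vel 𝒜 (dist p q)
  have h2 : ∀ a, 𝒜.D1 q p a = ⟪𝒜.vel c (dist p q), a⟫ := by
    intro a
    have := D1_backward 𝒜 hB hc (s := dist p q) (t := dist p q) h0 h1 a
    rwa [sub_self, hc0, hc1] at this
  simp only [h2]
  have h3 : ∀ j : Fin n, ⟪𝒜.vel c (dist p q), EuclideanSpace.single j (1 : ℝ)⟫ =
      𝒜.vel c (dist p q) j := by
    intro j
    rw [EuclideanSpace.inner_single_right]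
    simp
  simp only [h3]
  rw [← EuclideanSpace.real_norm_sq_eq, hv, one_pow]

lemma hh_expand (w : Eu n) : w = ∑ j : Fin n, w j • EuclideanSpace.single j (1 : ℝ) := by
  ext i
  simp [Finset.sum_apply, Pi.single_apply]

/-- common part -/
lemma hh_core (hB : Bl M) {c : ℝ → M} (hc : IsGeo c) {s t : ℝ} (h0 : 0 < dist (c s) (c t))
    (h1 : dist (c s) (c t) < π) {σ : ℝ} (hσ : σ ^ 2 = 1)
    (hD : ∀ a, 𝒜.D1 (c t) (c s) a = σ * ⟪𝒜.vel c t, a⟫) (a b : Eu n) :
    HasDerivAt (fun x => 𝒜.H (c s) (c x) a b)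
      (-σ * ∑ j : Fin n, 𝒜.B (c s) (c t) a (EuclideanSpace.single j 1) *
        𝒜.B (c s) (c t) b (EuclideanSpace.single j 1)) t := by
  have hcont := hh_continuous hc
  have hf := contDiffAt_f 𝒜 hB h0 h1
  obtain ⟨-, hvel⟩ := hc.exists_vel 𝒜 t
  have h2 : (fun x => 𝒜.H (c s) (c x) a b) =ᶠ[𝓝 t] fun x =>
      fderiv ℝ (fun u => fderiv ℝ (fun u' => 𝒜.f (c s) (c t) (u', 𝒜.ψ (c t) (c x))) u) 0 a b := by
    have h3 : ∀ᶠ x in 𝓝 t, c x ∈ (𝒜.ψ (c t)).source :=
      hcont.continuousAt.eventually ((𝒜.ψ (c t)).open_source.mem_nhds (𝒜.mem _))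
    filter_upwards [h3] with x hx
    rw [hh_H 𝒜 (c s) (c t) (c x) hx]
  have h4 : ∀ᶠ u in 𝓝 (0 : Eu n), ∑ j : Fin n,
      (fderiv ℝ (fun v => 𝒜.f (c s) (c t) (u, v)) 0 (EuclideanSpace.single j 1)) ^ 2 = 1 := by
    have h5 : ContinuousAt (fun u => dist ((𝒜.ψ (c s)).symm u) (c t)) 0 := by
      have h6 : ContinuousAt (𝒜.ψ (c s)).symm 0 := by
        have h7 : (0 : Eu n) ∈ (𝒜.ψ (c s)).target := by
          have := (𝒜.ψ (c s)).map_source (𝒜.mem (c s))
          rwa [𝒜.zero] at this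
        exact (𝒜.ψ (c s)).continuousAt_symm h7
      exact h6.dist continuousAt_const
    have h8 : dist ((𝒜.ψ (c s)).symm 0) (c t) ∈ Ioo 0 π := by
      rw [hh_symm_zero]
      exact ⟨h0, h1⟩
    filter_upwards [h5.eventually (isOpen_Ioo.mem_nhds h8)] with u hu
    rw [hh_D1]
    exact hh_eik 𝒜 hB hu.1 hu.2
  have h5 := hh_main (g := 𝒜.f (c s) (c t)) (u0 := 0) (v0 := 0) (hf.of_le ENat.LEInfty.out)
    (fun j : Fin n => EuclideanSpace.single j (1 : ℝ)) h4 (γ := fun x => 𝒜.ψ (c t) (c x)) (t := t)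
    (w := 𝒜.vel c t) (𝒜.zero _) hvel (σ := σ) ?_ a b
  · exact h5.congr_of_eventuallyEq h2
  · have h6 : fderiv ℝ (fun v => 𝒜.f (c s) (c t) (0, v)) 0 = 𝒜.D1 (c t) (c s) := by
      rw [hh_D1, hh_symm_zero]
    rw [h6]
    have h7 : ∀ j : Fin n, 𝒜.D1 (c t) (c s) (EuclideanSpace.single j 1) = σ * 𝒜.vel c t j := by
      intro j
      rw [hD, EuclideanSpace.inner_single_right]
      simp
    simp only [h7]
    rw [Finset.smul_sum]
    simp only [smul_smul]
    have h8 : ∀ j : Fin n, σ * (σ * 𝒜.vel c t j) = 𝒜.vel c t j := by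
      intro j
      rw [← mul_assoc, ← pow_two, hσ, one_mul]
    simp only [h8]
    exact hh_expand _

/-- the differentiated eikonal equation -/
theorem hasDerivAt_H (hB : Bl M) {c : ℝ → M} (hc : IsGeo c) {s t : ℝ} (h0 : s < t) (h1 : t < s + π) (a b : Eu n) :
    HasDerivAt (fun x => 𝒜.H (c s) (c x) a b)
      (-∑ j : Fin n, 𝒜.B (c s) (c t) a (EuclideanSpace.single j 1) * 𝒜.B (c s) (c t) b (EuclideanSpace.single j 1)) t := by
  have hd : dist (c s) (c t) = t - s := by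
    rw [hc s t (by rw [abs_sub_comm, abs_of_pos (by linarith)]; linarith), abs_sub_comm,
      abs_of_pos (by linarith)]
  have h := hh_core 𝒜 hB hc (s := s) (t := t) (by rw [hd]; linarith) (by rw [hd]; linarith) (σ := 1)
    (by norm_num) (fun a => ?_) a b
  · simpa using h
  · have := D1_backward 𝒜 hB hc (s := t) (t := t - s) (by linarith) (by linarith) a
    rw [sub_sub_cancel] at this
    rw [this, one_mul]

theorem hasDerivAt_H' (hB : Bl M) {c : ℝ → M} (hc : IsGeo c) {s t : ℝ} (h0 : t < s) (h1 : s < t + π) (a b : Eu n) :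
    HasDerivAt (fun x => 𝒜.H (c s) (c x) a b)
      (∑ j : Fin n, 𝒜.B (c s) (c t) a (EuclideanSpace.single j 1) * 𝒜.B (c s) (c t) b (EuclideanSpace.single j 1)) t := by
  have hd : dist (c s) (c t) = s - t := by
    rw [hc s t (by rw [abs_of_pos (by linarith)]; linarith), abs_of_pos (by linarith)]
  have h := hh_core 𝒜 hB hc (s := s) (t := t) (by rw [hd]; linarith) (by rw [hd]; linarith) (σ := -1)
    (by norm_num) (fun a => ?_) a b
  · simpa using h
  · have := D1_forward 𝒜 hB hc (s := t) (t := s - t) (by linarith) (by linarith) a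
    rw [add_sub_cancel] at this
    rw [this, neg_one_mul]

end Pool.Agent.Lib.MP_ccbbf6_gt.Geo
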