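import Pool.Agent.Lib.MP_ccbbf6_gt.Geo.DA2
import Pool.Agent.Lib.MP_ccbbf6_gt.Geo.HH

/-!
# DA3: `S`, `G` along a closed geodesic
-/

set_option autoImplicit false
set_option linter.unusedSectionVars false

open Set Filter Topology Metric Real
open scoped ContDiff RealInnerProductSpace

noncomputable section

namespace Pool.Agent.Lib.MP_ccbbf6_gt.Geo

variable {N : ℕ} {M : Type*} [MetricSpace M] [CompactSpace M] (𝒜 : SDist (N + 1) M)

theorem da_Smat_lt {c : ℝ → M} (L : Eu N →ₗᵢ[ℝ] Eu (N + 1)) {x : ℝ} (hx : x < π) :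
    𝒜.Smat c L x = 𝒜.Hm (c 0) (c x) L := by
  ext i j
  simp [SDist.Smat, SDist.Hm, hx]

theorem da_Smat_gt {c : ℝ → M} (L : Eu N →ₗᵢ[ℝ] Eu (N + 1)) {x : ℝ} (hx : π < x) :
    𝒜.Smat c L x = -𝒜.Hm (c 0) (c x) L := by
  ext i j
  simp [SDist.Smat, SDist.Hm, hx.le.not_gt]

include 𝒜 in
theorem da_period (hB : Bl M) {c : ℝ → M} (hc : IsGeo c) (x : ℝ) : c (x - 2 * π) = c x := by
  have := da_closed 𝒜 hB hc (x - 2 * π)
  rw [sub_add_cancel] at this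
  exact this.symm

theorem da_vel_period (hB : Bl M) {c : ℝ → M} (hc : IsGeo c) (x : ℝ) : 𝒜.vel c (x - 2 * π) = 𝒜.vel c x := by
  have h1 := vel_shift 𝒜 (c := c) (-(2 * π)) x
  have h2 : (fun t => c (t + -(2 * π))) = c := by
    funext t
    rw [← sub_eq_add_neg]
    exact da_period 𝒜 hB hc t
  rw [h2, ← sub_eq_add_neg] at h1
  exact h1.symm

include 𝒜 in
theorem da_dist (hB : Bl M) {c : ℝ → M} (hc : IsGeo c) {x : ℝ} (h0 : 0 < x) (h2 : x < 2 * π) (h1 : x ≠ π) :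
    0 < dist (c 0) (c x) ∧ dist (c 0) (c x) < π := by
  rcases lt_or_gt_of_ne h1 with h | h
  · exact hc.dist_pos h0.ne (by rw [zero_sub, abs_neg, abs_of_pos h0]; exact h)
  · rw [da_dist_long 𝒜 hB hc (by linarith) (by linarith)]
    constructor <;> linarith

/-- the derivative of `S` -/
theorem da_dS (hB : Bl M) {c : ℝ → M} (hc : IsGeo c) (L : Eu N →ₗᵢ[ℝ] Eu (N + 1)) {x : ℝ} (h0 : 0 < x)
    (h2 : x < 2 * π) (h1 : x ≠ π) : BL.MD (𝒜.Smat c L) (-𝒜.Gmat c L x) x := by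
  intro i j
  rcases lt_or_gt_of_ne h1 with h | h
  · have h3 := hasDerivAt_H 𝒜 hB hc h0 (by linarith : x < 0 + π) (L (EuclideanSpace.single i 1))
      (L (EuclideanSpace.single j 1))
    have h4 : (fun y => 𝒜.Smat c L y i j) =ᶠ[𝓝 x] fun y => 𝒜.H (c 0) (c y) (L (EuclideanSpace.single i 1))
        (L (EuclideanSpace.single j 1)) := by
      filter_upwards [Iio_mem_nhds h] with y hy
      rw [da_Smat_lt 𝒜 L hy]; rfl
    exact h3.congr_of_eventuallyEq h4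
  · have h3 := hasDerivAt_H' 𝒜 hB hc (by linarith : x - 2 * π < 0) (by linarith : (0 : ℝ) < x - 2 * π + π)
      (L (EuclideanSpace.single i 1)) (L (EuclideanSpace.single j 1))
    have h5 : HasDerivAt (fun y => 𝒜.H (c 0) (c (y - 2 * π)) (L (EuclideanSpace.single i 1))
        (L (EuclideanSpace.single j 1))) _ x := HasDerivAt.comp_sub_const x (2 * π) h3
    have h4 : (fun y => 𝒜.Smat c L y i j) =ᶠ[𝓝 x] fun y => -𝒜.H (c 0) (c (y - 2 * π))
        (L (EuclideanSpace.single i 1)) (L (EuclideanSpace.single j 1)) := by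
      filter_upwards [Ioi_mem_nhds h] with y hy
      rw [da_Smat_gt 𝒜 L hy, da_period 𝒜 hB hc]; rfl
    have h6 := h5.neg.congr_of_eventuallyEq h4
    rw [da_period 𝒜 hB hc] at h6
    exact h6

/-- smoothness of the entries of `S` -/
theorem da_contDiffAt_S (hB : Bl M) {c : ℝ → M} (hc : IsGeo c) (L : Eu N →ₗᵢ[ℝ] Eu (N + 1)) {x : ℝ} (h0 : 0 < x)
    (h2 : x < 2 * π) (h1 : x ≠ π) (i j : Fin N) : ContDiffAt ℝ ∞ (fun y => 𝒜.Smat c L y i j) x := by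
  have hd := da_dist 𝒜 hB hc h0 h2 h1
  have h3 := da_contDiffAt_H 𝒜 hB hc hd.1 hd.2 (L (EuclideanSpace.single i 1)) (L (EuclideanSpace.single j 1))
  rcases lt_or_gt_of_ne h1 with h | h
  · refine h3.congr_of_eventuallyEq ?_
    filter_upwards [Iio_mem_nhds h] with y hy
    rw [da_Smat_lt 𝒜 L hy]; rfl
  · refine h3.neg.congr_of_eventuallyEq ?_
    filter_upwards [Ioi_mem_nhds h] with y hy
    rw [da_Smat_gt 𝒜 L hy]; rfl

/-- the derivative of a `C^∞` function is continuous -/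
theorem da_cont_deriv {f : ℝ → ℝ} {x : ℝ} (h : ContDiffAt ℝ ∞ f x) : ContinuousAt (deriv f) x := by
  have h1 : ContDiffAt ℝ 0 (fderiv ℝ f) x := h.fderiv_right (m := 0) (by simp)
  have h2 : ContinuousAt (fun y => fderiv ℝ f y 1) x := h1.continuousAt.clm_apply continuousAt_const
  exact h2

theorem da_Gcont (hB : Bl M) {c : ℝ → M} (hc : IsGeo c) (L : Eu N →ₗᵢ[ℝ] Eu (N + 1)) {x : ℝ} (h0 : 0 < x)
    (h2 : x < 2 * π) (h1 : x ≠ π) : ContinuousAt (𝒜.Gmat c L) x := by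
  have h3 : Tendsto (𝒜.Gmat c L) (𝓝 x) (𝓝 (𝒜.Gmat c L x)) := by
    refine tendsto_pi_nhds.mpr fun i => tendsto_pi_nhds.mpr fun j => ?_
    have h4 : ContinuousAt (fun y => -deriv (fun z => 𝒜.Smat c L z i j) y) x :=
      (da_cont_deriv (da_contDiffAt_S 𝒜 hB hc L h0 h2 h1 i j)).neg
    have h5 : (fun y => 𝒜.Gmat c L y i j) =ᶠ[𝓝 x] fun y => -deriv (fun z => 𝒜.Smat c L z i j) y := by
      filter_upwards [Ioo_mem_nhds h0 h2, isOpen_ne.mem_nhds h1] with y hy hy1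
      have := (da_dS 𝒜 hB hc L hy.1 hy.2 hy1 i j).deriv
      rw [this]; simp
    exact (h4.congr_of_eventuallyEq h5 : ContinuousAt (fun y => 𝒜.Gmat c L y i j) x)
  exact h3

/-- `G = B Bᵀ` in a frame at `c x` -/
theorem da_G_eq (hB : Bl M) {c : ℝ → M} (hc : IsGeo c) (L : Eu N →ₗᵢ[ℝ] Eu (N + 1)) {x : ℝ} (h0 : 0 < x)
    (h2 : x < 2 * π) (h1 : x ≠ π) {Lx : Eu N →ₗᵢ[ℝ] Eu (N + 1)} (hx : Frame (𝒜.vel c x) Lx) :
    𝒜.Gmat c L x = 𝒜.Bm (c 0) (c x) L Lx * (𝒜.Bm (c 0) (c x) L Lx).transpose := by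
  ext i j
  simp only [SDist.Gmat, Matrix.of_apply, Matrix.mul_apply, Matrix.transpose_apply, SDist.Bm]
  rcases lt_or_gt_of_ne h1 with h | h
  · exact da_sum_frame 𝒜 hB hc h0.ne (by rw [zero_sub, abs_neg, abs_of_pos h0]; exact h) hx _ _
  · have hx' : Frame (𝒜.vel c (x - 2 * π)) Lx := by rw [da_vel_period 𝒜 hB hc]; exact hx
    have h3 := da_sum_frame 𝒜 hB hc (s := 0) (t := x - 2 * π) (by linarith : x - 2 * π < 0).ne'
      (by rw [zero_sub, abs_neg, abs_of_neg (by linarith)]; linarith) hx'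
      (L (EuclideanSpace.single i 1)) (L (EuclideanSpace.single j 1))
    rw [da_period 𝒜 hB hc] at h3
    exact h3

theorem da_Bm0_det (hB : Bl M) {c : ℝ → M} (hc : IsGeo c) {L : Eu N →ₗᵢ[ℝ] Eu (N + 1)} (hL : Frame (𝒜.vel c 0) L)
    {x : ℝ} (h0 : 0 < x) (h2 : x < 2 * π) (h1 : x ≠ π) {Lx : Eu N →ₗᵢ[ℝ] Eu (N + 1)} (hx : Frame (𝒜.vel c x) Lx) :
    (𝒜.Bm (c 0) (c x) L Lx).det ≠ 0 := by
  rcases lt_or_gt_of_ne h1 with h | h
  · exact da_Bm_det 𝒜 hB hc h0.ne (by rw [zero_sub, abs_neg, abs_of_pos h0]; exact h) hL hx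
  · have hx' : Frame (𝒜.vel c (x - 2 * π)) Lx := by rw [da_vel_period 𝒜 hB hc]; exact hx
    have h3 := da_Bm_det 𝒜 hB hc (s := 0) (t := x - 2 * π) (by linarith : x - 2 * π < 0).ne'
      (by rw [zero_sub, abs_neg, abs_of_neg (by linarith)]; linarith) hL hx'
    rw [da_period 𝒜 hB hc] at h3
    exact h3

theorem da_detG (hB : Bl M) {c : ℝ → M} (hc : IsGeo c) (L : Eu N →ₗᵢ[ℝ] Eu (N + 1)) {x : ℝ} (h0 : 0 < x)
    (h2 : x < 2 * π) (h1 : x ≠ π) {Lx : Eu N →ₗᵢ[ℝ] Eu (N + 1)} (hx : Frame (𝒜.vel c x) Lx) :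
    (𝒜.Gmat c L x).det = (𝒜.Bm (c 0) (c x) L Lx).det ^ 2 := by
  rw [da_G_eq 𝒜 hB hc L h0 h2 h1 hx, Matrix.det_mul, Matrix.det_transpose, sq]

/-- `B Bᵀ` is positive definite if `B` is invertible -/
theorem da_posDef_BB {B : Matrix (Fin N) (Fin N) ℝ} (h : B.det ≠ 0) : (B * B.transpose).PosDef := by
  have h1 : IsUnit B.transpose := by
    rw [Matrix.isUnit_iff_isUnit_det, Matrix.det_transpose]
    exact isUnit_iff_ne_zero.mpr h
  have h2 := Matrix.PosDef.conjTranspose_mul_mul_same (A := (1 : Matrix (Fin N) (Fin N) ℝ)) (B := B.transpose)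
    Matrix.PosDef.one (by
      exact Matrix.mulVec_injective_of_isUnit h1)
  have h3 : B.transpose.conjTranspose = B := by
    rw [Matrix.conjTranspose_eq_transpose_of_trivial, Matrix.transpose_transpose]
  rw [h3, Matrix.mul_one] at h2
  exact h2

theorem da_Gpos (hB : Bl M) {c : ℝ → M} (hc : IsGeo c) {L : Eu N →ₗᵢ[ℝ] Eu (N + 1)} (hL : Frame (𝒜.vel c 0) L)
    {x : ℝ} (h0 : 0 < x) (h2 : x < 2 * π) (h1 : x ≠ π) : (𝒜.Gmat c L x).PosDef := by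
  obtain ⟨Lx, hx⟩ := da_frame_exists (hc.exists_vel 𝒜 x).1
  rw [da_G_eq 𝒜 hB hc L h0 h2 h1 hx]
  exact da_posDef_BB (da_Bm0_det 𝒜 hB hc hL h0 h2 h1 hx)

/-! ## behaviour at the base point -/

theorem da_S0 {c : ℝ → M} (hc : IsGeo c) {L : Eu N →ₗᵢ[ℝ] Eu (N + 1)} (hL : Frame (𝒜.vel c 0) L) :
    Tendsto (fun x : ℝ => x • 𝒜.Smat c L x) (𝓝[>] 0) (𝓝 1) := by
  refine tendsto_pi_nhds.mpr fun i => tendsto_pi_nhds.mpr fun j => ?_
  have h1 := tendsto_H_zero 𝒜 hc 0 (hL.orth (EuclideanSpace.single i 1)) (hL.orth (EuclideanSpace.single j 1))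
  rw [hL.inner_map i j] at h1
  have h2 := h1.mono_left (nhdsWithin_mono (0 : ℝ) fun x (hx : 0 < x) => hx.ne')
  have h3 : (1 : Matrix (Fin N) (Fin N) ℝ) i j = if i = j then 1 else 0 := Matrix.one_apply
  rw [h3]
  refine h2.congr' ?_
  filter_upwards [Ioo_mem_nhdsGT pi_pos] with x hx
  rw [da_Smat_lt 𝒜 L hx.2, sub_zero, abs_of_pos hx.1]
  rfl

theorem da_G0 {c : ℝ → M} (hc : IsGeo c) {L : Eu N →ₗᵢ[ℝ] Eu (N + 1)} (hL : Frame (𝒜.vel c 0) L) :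
    Tendsto (fun x : ℝ => x ^ 2 • 𝒜.Gmat c L x) (𝓝[>] 0) (𝓝 1) := by
  refine tendsto_pi_nhds.mpr fun i => tendsto_pi_nhds.mpr fun j => ?_
  have h1 := tendsto_BB_zero 𝒜 hc 0 (hL.orth (EuclideanSpace.single i 1)) (hL.orth (EuclideanSpace.single j 1))
  rw [hL.inner_map i j] at h1
  have h2 := h1.mono_left (nhdsWithin_mono (0 : ℝ) fun x (hx : 0 < x) => hx.ne')
  have h3 : (1 : Matrix (Fin N) (Fin N) ℝ) i j = if i = j then 1 else 0 := Matrix.one_apply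
  rw [h3]
  refine h2.congr fun x => ?_
  rw [sub_zero]; rfl

theorem da_shift_tendsto : Tendsto (fun x : ℝ => x - 2 * π) (𝓝[<] (2 * π)) (𝓝[≠] 0) := by
  refine tendsto_nhdsWithin_iff.mpr ⟨?_, ?_⟩
  · have : Tendsto (fun x : ℝ => x - 2 * π) (𝓝 (2 * π)) (𝓝 (2 * π - 2 * π)) :=
      (continuous_id.sub continuous_const).tendsto _
    rw [sub_self] at this
    exact this.mono_left nhdsWithin_le_nhds
  · filter_upwards [self_mem_nhdsWithin] with x hx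
    exact (sub_neg.mpr hx).ne

theorem da_S2 (hB : Bl M) {c : ℝ → M} (hc : IsGeo c) {L : Eu N →ₗᵢ[ℝ] Eu (N + 1)} (hL : Frame (𝒜.vel c 0) L) :
    Tendsto (fun x : ℝ => (x - 2 * π) • 𝒜.Smat c L x) (𝓝[<] (2 * π)) (𝓝 1) := by
  refine tendsto_pi_nhds.mpr fun i => tendsto_pi_nhds.mpr fun j => ?_
  have h1 := tendsto_H_zero 𝒜 hc 0 (hL.orth (EuclideanSpace.single i 1)) (hL.orth (EuclideanSpace.single j 1))
  rw [hL.inner_map i j] at h1
  have h2 := h1.comp da_shift_tendsto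
  have h3 : (1 : Matrix (Fin N) (Fin N) ℝ) i j = if i = j then 1 else 0 := Matrix.one_apply
  rw [h3]
  refine h2.congr' ?_
  filter_upwards [Ioo_mem_nhdsLT (by linarith [pi_pos] : π < 2 * π)] with x hx
  rw [da_Smat_gt 𝒜 L hx.1]
  simp only [Function.comp_apply, sub_zero, Matrix.smul_apply, Matrix.neg_apply, SDist.Hm, Matrix.of_apply,
    smul_eq_mul]
  rw [abs_of_neg (sub_neg.mpr hx.2), da_period 𝒜 hB hc]
  ring

theorem da_G2 (hB : Bl M) {c : ℝ → M} (hc : IsGeo c) {L : Eu N →ₗᵢ[ℝ] Eu (N + 1)} (hL : Frame (𝒜.vel c 0) L) :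
    Tendsto (fun x : ℝ => (x - 2 * π) ^ 2 • 𝒜.Gmat c L x) (𝓝[<] (2 * π)) (𝓝 1) := by
  refine tendsto_pi_nhds.mpr fun i => tendsto_pi_nhds.mpr fun j => ?_
  have h1 := tendsto_BB_zero 𝒜 hc 0 (hL.orth (EuclideanSpace.single i 1)) (hL.orth (EuclideanSpace.single j 1))
  rw [hL.inner_map i j] at h1
  have h2 := h1.comp da_shift_tendsto
  have h3 : (1 : Matrix (Fin N) (Fin N) ℝ) i j = if i = j then 1 else 0 := Matrix.one_apply
  rw [h3]
  refine h2.congr fun x => ?_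
  simp only [Function.comp_apply, sub_zero, da_period 𝒜 hB hc]
  rfl

end Pool.Agent.Lib.MP_ccbbf6_gt.Geo
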