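import Pool.Agent.Lib.MP_ccbbf6_gt.Base
import Pool.Agent.Lib.MP_ccbbf6_gt.Geo.Ifc

/-!
# DAd: definitions for the block DA (data of Theorem 1)
-/

set_option autoImplicit false

open Set Filter Topology Metric Real
open scoped ContDiff RealInnerProductSpace

noncomputable section

namespace Pool.Agent.Lib.MP_ccbbf6_gt.Geo

/-- K-form of the data of Theorem 1, index `Fin N`. `K x = (S (π/2) - S x)⁻¹` near `π`. -/
structure KData {N : ℕ} (S G K K' : ℝ → Matrix (Fin N) (Fin N) ℝ) (J : ℝ → ℝ → ℝ) : Prop where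
  Ssymm : ∀ x ∈ Ioo 0 (2 * π), x ≠ π → (S x).transpose = S x
  dS : ∀ x ∈ Ioo 0 (2 * π), x ≠ π → BL.MD S (-G x) x
  Gpos : ∀ x ∈ Ioo 0 (2 * π), x ≠ π → (G x).PosDef
  Gcont : ∀ x ∈ Ioo 0 (2 * π), x ≠ π → ContinuousAt G x
  S0 : Tendsto (fun x : ℝ => x • S x) (𝓝[>] 0) (𝓝 1)
  G0 : Tendsto (fun x : ℝ => x ^ 2 • G x) (𝓝[>] 0) (𝓝 1)
  S2 : Tendsto (fun x : ℝ => (x - 2 * π) • S x) (𝓝[<] (2 * π)) (𝓝 1)
  G2 : Tendsto (fun x : ℝ => (x - 2 * π) ^ 2 • G x) (𝓝[<] (2 * π)) (𝓝 1)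
  Ksymm : ∀ x ∈ Ioo (π / 2) (3 * π / 2), (K x).transpose = K x
  dK : ∀ x ∈ Ioo (π / 2) (3 * π / 2), BL.MD K (K' x) x
  K'neg : ∀ x ∈ Ioo (π / 2) (3 * π / 2), (-K' x).PosDef
  K'cont : ∀ x ∈ Ioo (π / 2) (3 * π / 2), ContinuousAt K' x
  SK : ∀ x ∈ Ioo (π / 2) (3 * π / 2), x ≠ π → (S (π / 2) - S x) * K x = 1
  Jpos : ∀ u v, 0 < u → u < v → v < 2 * π → v ≠ u + π → 0 < J u v
  Jcont : ∀ u ∈ Ioo 0 (2 * π), u ≠ π → ContinuousAt (J u) π ∧ 0 < J u π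
  JS : ∀ u v, 0 < u → v < 2 * π → 0 < v → u < 2 * π → u ≠ v → u ≠ π → v ≠ π → v ≠ u + π → u ≠ v + π →
    (S u - S v).det ^ 2 = J u v ^ 2 * (G u).det * (G v).det

variable {n : ℕ} {M : Type*} [MetricSpace M] [CompactSpace M] (𝒜 : SDist n M)

/-- orthonormal frame of the orthogonal complement of the velocity -/
structure Frame {N : ℕ} (v : Eu n) (L : Eu N →ₗᵢ[ℝ] Eu n) : Prop where
  orth : ∀ a, ⟪v, L a⟫ = 0
  surj : ∀ b, ⟪v, b⟫ = 0 → ∃ a, L a = b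

/-- `S x`, `0 < x < 2π`: the second derivative at `c 0` of `d(., c x)` for `x < π`, of `- d(., c x)` for `x > π` -/
def SDist.Smat {N : ℕ} (c : ℝ → M) (L : Eu N →ₗᵢ[ℝ] Eu n) (x : ℝ) : Matrix (Fin N) (Fin N) ℝ :=
  Matrix.of fun i j => (if x < π then 1 else -1) *
    𝒜.H (c 0) (c x) (L (EuclideanSpace.single i 1)) (L (EuclideanSpace.single j 1))

def SDist.Gmat {N : ℕ} (c : ℝ → M) (L : Eu N →ₗᵢ[ℝ] Eu n) (x : ℝ) : Matrix (Fin N) (Fin N) ℝ :=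
  Matrix.of fun i j => ∑ k : Fin n, 𝒜.B (c 0) (c x) (L (EuclideanSpace.single i 1)) (EuclideanSpace.single k 1) *
    𝒜.B (c 0) (c x) (L (EuclideanSpace.single j 1)) (EuclideanSpace.single k 1)

end Pool.Agent.Lib.MP_ccbbf6_gt.Geo
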