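import Pool.Agent.Lib.MP_ccbbf6_gt.Geo.DAd
import Pool.Agent.Lib.MP_ccbbf6_gt.Geo.EQa

/-!
# EQb: from the matrix form of the equality case to `Gram`
-/

set_option autoImplicit false

open Set Filter Topology Metric Real
open scoped ContDiff RealInnerProductSpace Matrix

noncomputable section

namespace Pool.Agent.Lib.MP_ccbbf6_gt.Geo

section alg

variable {N : ℕ}

theorem inner_eq_dot (x y : Eu N) : ⟪x, y⟫ = x.ofLp ⬝ᵥ y.ofLp := by
  rw [EuclideanSpace.inner_eq_star_dotProduct, star_trivial, dotProduct_comm]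

theorem norm_sq_eq_dot (x : Eu N) : ‖x‖ ^ 2 = x.ofLp ⬝ᵥ x.ofLp := by
  rw [← real_inner_self_eq_norm_sq, inner_eq_dot]

/-- the linear map of a matrix -/
def mapOf (P : Matrix (Fin N) (Fin N) ℝ) : Eu N →ₗ[ℝ] Eu N := Matrix.toEuclideanLin P

theorem mapOf_ofLp (P : Matrix (Fin N) (Fin N) ℝ) (x : Eu N) : (mapOf P x).ofLp = P *ᵥ x.ofLp := rfl

theorem mapOf_sq {P : Matrix (Fin N) (Fin N) ℝ} (h : P * P = P) (x : Eu N) : mapOf P (mapOf P x) = mapOf P x := by
  apply WithLp.ofLp_injective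
  rw [mapOf_ofLp, mapOf_ofLp, Matrix.mulVec_mulVec, h]

theorem inner_mapOf {P : Matrix (Fin N) (Fin N) ℝ} (h : P.transpose = P) (x y : Eu N) :
    ⟪mapOf P x, y⟫ = ⟪x, mapOf P y⟫ := by
  rw [inner_eq_dot, inner_eq_dot, mapOf_ofLp, mapOf_ofLp, Matrix.dotProduct_mulVec, ← Matrix.mulVec_transpose, h]

theorem quad_mapOf {P : Matrix (Fin N) (Fin N) ℝ} (h : P.transpose = P) (h2 : P * P = P) (x : Eu N) :
    x.ofLp ⬝ᵥ (P *ᵥ x.ofLp) = ‖mapOf P x‖ ^ 2 := by
  rw [← mapOf_ofLp, ← inner_eq_dot, ← real_inner_self_eq_norm_sq, inner_mapOf h, mapOf_sq h2]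

theorem quad_mapOf' {P : Matrix (Fin N) (Fin N) ℝ} (h : P.transpose = P) (h2 : P * P = P) (x : Eu N) :
    x.ofLp ⬝ᵥ ((1 - P) *ᵥ x.ofLp) = ‖x - mapOf P x‖ ^ 2 := by
  have h3 : mapOf (1 - P) x = x - mapOf P x := by
    apply WithLp.ofLp_injective
    rw [mapOf_ofLp, Matrix.sub_mulVec, Matrix.one_mulVec, WithLp.ofLp_sub, mapOf_ofLp]
  rw [← h3]
  refine quad_mapOf ?_ ?_ x
  · rw [Matrix.transpose_sub, Matrix.transpose_one, h]
  · rw [sub_mul, mul_sub, mul_sub, h2]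
    simp

end alg

variable {n : ℕ} {M : Type*} [MetricSpace M] [CompactSpace M] (𝒜 : SDist n M)

theorem gram_of_matrix (hB : Bl M) {c : ℝ → M} (hc : IsGeo c) {N : ℕ} {L : Eu N →ₗᵢ[ℝ] Eu n}
    (hL : Frame (𝒜.vel c 0) L) {P : Matrix (Fin N) (Fin N) ℝ} (hP : P.transpose = P) (hP2 : P * P = P)
    (hG : ∀ x ∈ Ioo 0 π, (𝒜.Gmat c L x).det ≠ 0 ∧
      (𝒜.Gmat c L x)⁻¹ = Real.sin x ^ 2 • P + (4 * Real.sin (x / 2) ^ 2) • (1 - P)) :
    ∃ V, 𝒜.Gram c V := by
  refine ⟨(LinearMap.range (mapOf P)).map L.toLinearMap, ?_, ?_⟩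
  · rintro a ⟨b, -, rfl⟩
    exact hL.orth b
  intro t h0 h1 w y hw hy hB'
  obtain ⟨o, rfl⟩ := hL.surj w hw
  have hproj : ((LinearMap.range (mapOf P)).map L.toLinearMap).starProjection (L o) = L (mapOf P o) := by
    refine Submodule.eq_starProjection_of_mem_of_inner_eq_zero ⟨_, ⟨o, rfl⟩, rfl⟩ ?_
    rintro _ ⟨_, ⟨o', rfl⟩, rfl⟩
    change ⟪L o - L (mapOf P o), L (mapOf P o')⟫ = 0
    rw [← map_sub, L.inner_map_map, inner_sub_left, inner_mapOf hP o, mapOf_sq hP2, sub_self]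
  rw [hproj, ← map_sub, L.norm_map, L.norm_map]
  obtain ⟨hdet, hinv⟩ := hG t ⟨h0, h1⟩
  have hvel := (hc.exists_vel 𝒜 0).1
  have hd : dist (c 0) (c t) = t := by
    rw [hc 0 t (by rw [zero_sub, abs_neg, abs_of_pos h0]; exact h1.le), zero_sub, abs_neg, abs_of_pos h0]
  have hd' : dist (c t) (c 0) = t := by rw [dist_comm, hd]
  -- the vectors `β i`
  let β : Fin N → Eu n := fun i => ∑ k : Fin n,
    𝒜.B (c 0) (c t) (L (EuclideanSpace.single i 1)) (EuclideanSpace.single k 1) • EuclideanSpace.single k (1 : ℝ)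
  have hsum : ∀ z : Eu n, z = ∑ k : Fin n, z.ofLp k • EuclideanSpace.single k (1 : ℝ) := by
    intro z
    apply WithLp.ofLp_injective
    funext j
    simp [Finset.sum_apply, Pi.single_apply]
  have hβ : ∀ i (z : Eu n), ⟪β i, z⟫ = 𝒜.B (c 0) (c t) (L (EuclideanSpace.single i 1)) z := by
    intro i z
    conv_rhs => rw [hsum z]
    rw [map_sum]
    simp only [β, sum_inner, inner_smul_left, map_smul, smul_eq_mul, EuclideanSpace.inner_single_left]
    refine Finset.sum_congr rfl fun k _ => ?_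
    simp [mul_comm]
  have hGm : ∀ i j, 𝒜.Gmat c L t i j = ⟪β i, β j⟫ := by
    intro i j
    rw [hβ]
    simp only [β, map_sum, map_smul, smul_eq_mul, SDist.Gmat, Matrix.of_apply]
    exact Finset.sum_congr rfl fun k _ => mul_comm _ _
  have hGsymm : (𝒜.Gmat c L t).transpose = 𝒜.Gmat c L t := by
    ext i j
    rw [Matrix.transpose_apply, hGm, hGm, real_inner_comm]
  let x : Fin N → ℝ := -(t⁻¹ • ((𝒜.Gmat c L t)⁻¹ *ᵥ o.ofLp))
  have hx : 𝒜.Gmat c L t *ᵥ x = -(t⁻¹ • o.ofLp) := by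
    simp only [x]
    rw [Matrix.mulVec_neg, Matrix.mulVec_smul, Matrix.mulVec_mulVec, Matrix.mul_nonsing_inv _ (Ne.isUnit hdet),
      Matrix.one_mulVec]
  let y' : Eu n := ∑ j, x j • β j
  have hy' : ∀ i, ⟪β i, y'⟫ = -(t⁻¹ * o.ofLp i) := by
    intro i
    have h2 := congrFun hx i
    simp only [Pi.neg_apply, Pi.smul_apply, smul_eq_mul] at h2
    rw [← h2]
    simp only [y', inner_sum, inner_smul_right, Matrix.mulVec, dotProduct]
    exact Finset.sum_congr rfl fun j _ => by rw [hGm, mul_comm]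
  have hpos : ⟪𝒜.vel c t, y'⟫ = 0 := by
    simp only [y', inner_sum, inner_smul_right]
    refine Finset.sum_eq_zero fun j _ => ?_
    have e1 := B_symm 𝒜 hB (p := c 0) (q := c t) (by rw [hd]; exact h0) (by rw [hd]; exact h1)
      (L (EuclideanSpace.single j 1)) (𝒜.vel c t)
    have e2 := B_vel 𝒜 hB hc (s := t) (t := 0) (ne_of_gt h0) (by rw [sub_zero, abs_of_pos h0]; exact h1)
      (L (EuclideanSpace.single j 1))
    rw [real_inner_comm, hβ, e1, e2, mul_zero]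
  have hyy : y = y' := by
    have h2 : ∀ a : Eu n, 𝒜.B (c 0) (c t) a (y - y') = 0 := by
      intro a
      have h3 : a = ⟪𝒜.vel c 0, a⟫ • 𝒜.vel c 0 + (a - ⟪𝒜.vel c 0, a⟫ • 𝒜.vel c 0) := by abel
      have h4 : ⟪𝒜.vel c 0, a - ⟪𝒜.vel c 0, a⟫ • 𝒜.vel c 0⟫ = 0 := by
        rw [inner_sub_right, inner_smul_right, real_inner_self_eq_norm_sq, hvel]
        ring
      obtain ⟨b, hb⟩ := hL.surj _ h4
      have h5 : b = ∑ i, b.ofLp i • EuclideanSpace.single i (1 : ℝ) := by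
        apply WithLp.ofLp_injective
        funext j
        simp [Finset.sum_apply, Pi.single_apply]
      have h6 : ∀ i, 𝒜.B (c 0) (c t) (L (EuclideanSpace.single i 1)) (y - y') = 0 := by
        intro i
        have h7 := hB' (L (EuclideanSpace.single i 1))
        rw [L.inner_map_map, EuclideanSpace.inner_single_left] at h7
        simp only [map_one, one_mul] at h7
        rw [map_sub, ← hβ i y', hy' i]
        have h8 : 𝒜.B (c 0) (c t) (L (EuclideanSpace.single i 1)) y = -(t⁻¹ * o.ofLp i) := by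
          field_simp
          linarith
        rw [h8, sub_self]
      rw [h3, ← hb, h5]
      simp only [map_add, map_smul, map_sum, _root_.add_apply, _root_.smul_apply,
        _root_.sum_apply, h6, smul_zero, Finset.sum_const_zero, add_zero]
      rw [B_vel 𝒜 hB hc h0.ne (by rw [zero_sub, abs_neg, abs_of_pos h0]; exact h1), smul_zero]
    have h3 : y - y' = 0 := by
      refine B_nondeg 𝒜 hB hc (s := t) (t := 0) h0.ne' (by rw [sub_zero, abs_of_pos h0]; exact h1)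
        (by rw [inner_sub_right, hy, hpos, sub_zero]) fun a => ?_
      exact (B_symm 𝒜 hB (by rw [hd']; exact h0) (by rw [hd']; exact h1) _ _).trans (h2 a)
    exact sub_eq_zero.1 h3
  have hnorm : ‖y'‖ ^ 2 = x ⬝ᵥ (𝒜.Gmat c L t *ᵥ x) := by
    rw [← real_inner_self_eq_norm_sq]
    conv_lhs => simp only [y']
    rw [sum_inner]
    simp only [dotProduct]
    refine Finset.sum_congr rfl fun i _ => ?_
    rw [inner_smul_left, hx]
    change x i * ⟪β i, y'⟫ = _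
    rw [hy' i]
    simp
  rw [hyy, hnorm, hx]
  have h2 : t ^ 2 * (x ⬝ᵥ -(t⁻¹ • o.ofLp)) = o.ofLp ⬝ᵥ ((𝒜.Gmat c L t)⁻¹ *ᵥ o.ofLp) := by
    simp only [x]
    rw [dotProduct_neg, neg_dotProduct, neg_neg, smul_dotProduct, dotProduct_smul, smul_eq_mul, smul_eq_mul,
      dotProduct_comm]
    field_simp
  rw [h2, hinv, Matrix.add_mulVec, Matrix.smul_mulVec, Matrix.smul_mulVec, dotProduct_add, dotProduct_smul,
    dotProduct_smul, quad_mapOf hP hP2, quad_mapOf' hP hP2, smul_eq_mul, smul_eq_mul]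

/-- the same, the invertibility follows from the form of the inverse -/
theorem gram_of_gmat {N : ℕ} (_hn : n = N + 1) (hB : Bl M) {c : ℝ → M} (hc : IsGeo c) {L : Eu N →ₗᵢ[ℝ] Eu n}
    (hL : Frame (𝒜.vel c 0) L) {P : Matrix (Fin N) (Fin N) ℝ} (hP : P.transpose = P) (hPP : P * P = P)
    (h : ∀ x ∈ Ioo 0 π, (𝒜.Gmat c L x)⁻¹ = Real.sin x ^ 2 • P + (4 * Real.sin (x / 2) ^ 2) • (1 - P)) :
    ∃ V, 𝒜.Gram c V := by
  refine gram_of_matrix 𝒜 hB hc hL hP hPP fun x hx => ⟨fun hdet => ?_, h x hx⟩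
  have h1 : (𝒜.Gmat c L x)⁻¹ = 0 :=
    Matrix.nonsing_inv_apply_not_isUnit _ (by rw [hdet]; exact not_isUnit_zero)
  have hs : Real.sin x ^ 2 ≠ 0 := pow_ne_zero 2 (Real.sin_pos_of_pos_of_lt_pi hx.1 hx.2).ne'
  have hs' : 4 * Real.sin (x / 2) ^ 2 ≠ 0 :=
    mul_ne_zero four_ne_zero (pow_ne_zero 2
      (Real.sin_pos_of_pos_of_lt_pi (by linarith [hx.1]) (by linarith [hx.2, pi_pos])).ne')
  have h2 : (Real.sin x ^ 2 • P + (4 * Real.sin (x / 2) ^ 2) • (1 - P)) *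
      ((Real.sin x ^ 2)⁻¹ • P + (4 * Real.sin (x / 2) ^ 2)⁻¹ • (1 - P)) = 1 := by
    have e1 : P * (1 - P) = 0 := by rw [mul_sub, mul_one, hPP, sub_self]
    have e2 : (1 - P) * P = 0 := by rw [sub_mul, one_mul, hPP, sub_self]
    have e3 : (1 - P) * (1 - P) = 1 - P := by rw [mul_sub, mul_one, e2, sub_zero]
    rw [add_mul, mul_add, mul_add, smul_mul_smul_comm, smul_mul_smul_comm, smul_mul_smul_comm, smul_mul_smul_comm, hPP,
      e1, e2, e3, mul_inv_cancel₀ hs, mul_inv_cancel₀ hs', smul_zero, smul_zero, one_smul, one_smul]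
    abel
  rw [← h x hx, h1, zero_mul] at h2
  have h3 : 𝒜.Gmat c L x = 1 := by
    rw [← one_mul (𝒜.Gmat c L x), ← h2, zero_mul]
  rw [h3, Matrix.det_one] at hdet
  exact one_ne_zero hdet

end Pool.Agent.Lib.MP_ccbbf6_gt.Geo
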