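import Pool.Agent.Lib.MP_ccbbf6_gt.Geo.CZa
import Pool.Agent.Lib.MP_ccbbf6_gt.Geo.EQa
import Pool.Agent.Lib.MP_ccbbf6_gt.LitDefs
import Pool.Agent.Lib.MP_ccbbf6_gt.SymB

/-!
# EQm: the equality case of Theorem 1 along every geodesic gives the geodesic symmetries
-/

set_option autoImplicit false

open Set Filter Topology Metric Real
open scoped ContDiff RealInnerProductSpace Manifold

noncomputable section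

namespace Pool.Agent.Lib.MP_ccbbf6_gt.Geo

open Bundle

/-- The charts of `𝒜` are charts of the manifold `M` (modelled on `E`), and their derivatives at their centers are
isometries. -/
structure SDist.Mfd (E : Type*) [NormedAddCommGroup E] [NormedSpace ℝ E] [FiniteDimensional ℝ E] {n : ℕ} {M : Type*}
    [MetricSpace M] [ChartedSpace E M] [RiemannianBundle (fun x : M => TangentSpace 𝓘(ℝ, E) x)] (𝒜 : SDist n M) :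
    Prop where
  smooth : ∀ q, ContMDiffOn 𝓘(ℝ, E) 𝓘(ℝ, Eu n) ∞ (𝒜.ψ q) (𝒜.ψ q).source
  symm : ∀ q, ContMDiffOn 𝓘(ℝ, Eu n) 𝓘(ℝ, E) ∞ (𝒜.ψ q).symm (𝒜.ψ q).target
  iso : ∀ q (u : TangentSpace 𝓘(ℝ, E) q),
    ‖(show Eu n from mfderiv 𝓘(ℝ, E) 𝓘(ℝ, Eu n) (𝒜.ψ q) q u)‖ = ‖u‖

variable {E : Type*} [NormedAddCommGroup E] [NormedSpace ℝ E] [FiniteDimensional ℝ E] {n : ℕ} {M : Type*}
  [MetricSpace M] [CompactSpace M] [ChartedSpace E M] [RiemannianBundle (fun x : M => TangentSpace 𝓘(ℝ, E) x)]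
  {𝒜 : SDist n M}

theorem contMDiff_Ex (hA : 𝒜.Mfd E) (hB : Bl M) (p : M) : ContMDiff 𝓘(ℝ, Eu n) 𝓘(ℝ, E) ∞ (𝒜.Ex p) := by
  intro ξ
  have h1 : ContMDiffAt 𝓘(ℝ, Eu n) 𝓘(ℝ, Eu n) ∞ (fun η => 𝒜.ψ (𝒜.Ex p ξ) (𝒜.Ex p η)) ξ :=
    (contDiffAt_Ex 𝒜 hB p ξ (𝒜.mem _)).contMDiffAt
  have h2 : ContMDiffAt 𝓘(ℝ, Eu n) 𝓘(ℝ, E) ∞ (𝒜.ψ (𝒜.Ex p ξ)).symm (𝒜.ψ (𝒜.Ex p ξ) (𝒜.Ex p ξ)) :=
    (hA.symm (𝒜.Ex p ξ)).contMDiffAt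
      ((𝒜.ψ (𝒜.Ex p ξ)).open_target.mem_nhds ((𝒜.ψ (𝒜.Ex p ξ)).map_source (𝒜.mem _)))
  have h3 := h2.comp ξ h1
  refine h3.congr_of_eventuallyEq ?_
  have h4 : ∀ᶠ η in 𝓝 ξ, 𝒜.Ex p η ∈ (𝒜.ψ (𝒜.Ex p ξ)).source :=
    (continuous_Ex 𝒜 hB p).continuousAt.eventually ((𝒜.ψ (𝒜.Ex p ξ)).open_source.mem_nhds (𝒜.mem _))
  filter_upwards [h4] with η hη
  exact ((𝒜.ψ (𝒜.Ex p ξ)).left_inv hη).symm

theorem mdifferentiableAt_Ex (hA : 𝒜.Mfd E) (hB : Bl M) (p : M) (ξ : Eu n) :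
    MDifferentiableAt 𝓘(ℝ, Eu n) 𝓘(ℝ, E) (𝒜.Ex p) ξ :=
  (contMDiff_Ex hA hB p).contMDiffAt.mdifferentiableAt (by simp)

theorem mfderiv_psi_Ex (hA : 𝒜.Mfd E) (hB : Bl M) (p : M) (ξ η : Eu n) :
    (show Eu n from mfderiv 𝓘(ℝ, E) 𝓘(ℝ, Eu n) (𝒜.ψ (𝒜.Ex p ξ)) (𝒜.Ex p ξ)
      (mfderiv 𝓘(ℝ, Eu n) 𝓘(ℝ, E) (𝒜.Ex p) ξ η)) = 𝒜.DE p ξ η := by
  have h1 : MDifferentiableAt 𝓘(ℝ, E) 𝓘(ℝ, Eu n) (𝒜.ψ (𝒜.Ex p ξ)) (𝒜.Ex p ξ) :=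
    ((hA.smooth (𝒜.Ex p ξ)).contMDiffAt
      ((𝒜.ψ (𝒜.Ex p ξ)).open_source.mem_nhds (𝒜.mem _))).mdifferentiableAt (by simp)
  have h2 := mfderiv_comp_apply (x := ξ) (f := 𝒜.Ex p) (g := 𝒜.ψ (𝒜.Ex p ξ)) (I := 𝓘(ℝ, Eu n)) (I' := 𝓘(ℝ, E))
    (I'' := 𝓘(ℝ, Eu n)) h1 (mdifferentiableAt_Ex hA hB p ξ) η
  refine Eq.trans h2.symm ?_
  have h3 : mfderiv 𝓘(ℝ, Eu n) 𝓘(ℝ, Eu n) (𝒜.ψ (𝒜.Ex p ξ) ∘ 𝒜.Ex p) ξ = 𝒜.DE p ξ := by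
    rw [mfderiv_eq_fderiv]
    rfl
  exact DFunLike.congr_fun h3 η

theorem norm_mfderiv_Ex (hA : 𝒜.Mfd E) (hB : Bl M) (p : M) (ξ η : Eu n) :
    ‖mfderiv 𝓘(ℝ, Eu n) 𝓘(ℝ, E) (𝒜.Ex p) ξ η‖ = ‖𝒜.DE p ξ η‖ := by
  rw [← mfderiv_psi_Ex hA hB p ξ η]
  exact (hA.iso _ _).symm

theorem inner_mfderiv_Ex (hA : 𝒜.Mfd E) (hB : Bl M) (p : M) (ξ η η' : Eu n) :
    inner ℝ (mfderiv 𝓘(ℝ, Eu n) 𝓘(ℝ, E) (𝒜.Ex p) ξ η) (mfderiv 𝓘(ℝ, Eu n) 𝓘(ℝ, E) (𝒜.Ex p) ξ η') =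
      ⟪𝒜.DE p ξ η, 𝒜.DE p ξ η'⟫ := by
  rw [real_inner_eq_norm_add_mul_self_sub_norm_mul_self_sub_norm_mul_self_div_two,
    real_inner_eq_norm_add_mul_self_sub_norm_mul_self_sub_norm_mul_self_div_two, norm_mfderiv_Ex hA hB,
    norm_mfderiv_Ex hA hB, ← map_add (𝒜.DE p ξ), ← norm_mfderiv_Ex hA hB p ξ (η + η')]
  have h1 : mfderiv 𝓘(ℝ, Eu n) 𝓘(ℝ, E) (𝒜.Ex p) ξ (η + η') =
      mfderiv 𝓘(ℝ, Eu n) 𝓘(ℝ, E) (𝒜.Ex p) ξ η + mfderiv 𝓘(ℝ, Eu n) 𝓘(ℝ, E) (𝒜.Ex p) ξ η' :=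
    map_add (mfderiv 𝓘(ℝ, Eu n) 𝓘(ℝ, E) (𝒜.Ex p) ξ) η η'
  rw [h1]

section riem

variable [IsManifold 𝓘(ℝ, E) ∞ M] [IsContMDiffRiemannianBundle 𝓘(ℝ, E) ∞ E (fun x : M => TangentSpace 𝓘(ℝ, E) x)]

theorem continuous_norm_mfderiv_Ex (hA : 𝒜.Mfd E) (hB : Bl M) (p : M) (v w : Eu n) :
    Continuous fun t : ℝ => ‖mfderiv 𝓘(ℝ, Eu n) 𝓘(ℝ, E) (𝒜.Ex p) (t • v) w‖ ^ 2 := by
  have hM : IsManifold 𝓘(ℝ, E) 1 M := IsManifold.of_le (n := ∞) (by simp)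
  have hR : IsContinuousRiemannianBundle E (fun x : M => TangentSpace 𝓘(ℝ, E) x) := by
    obtain ⟨g, hg, hg'⟩ := IsContMDiffRiemannianBundle.exists_contMDiff (IB := 𝓘(ℝ, E)) (n := ∞) (F := E)
      (E := fun x : M => TangentSpace 𝓘(ℝ, E) x)
    exact ⟨g, hg.continuous, hg'⟩
  have h1 : Continuous (fun t : ℝ => (⟨t • v, w⟩ : TangentBundle 𝓘(ℝ, Eu n) (Eu n))) := by
    have h2 := (tangentBundleModelSpaceHomeomorph 𝓘(ℝ, Eu n)).symm.continuous.comp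
      (f := fun t : ℝ => ((t • v, w) : ModelProd (Eu n) (Eu n)))
      ((continuous_id.smul continuous_const).prodMk continuous_const)
    exact h2
  have h3 : Continuous (tangentMap 𝓘(ℝ, Eu n) 𝓘(ℝ, E) (𝒜.Ex p)) :=
    ((contMDiff_Ex hA hB p).of_le (by simp : (1 : WithTop ℕ∞) ≤ ∞)).continuous_tangentMap le_rfl
  have h4 := h3.comp h1
  have h5 := Continuous.inner_bundle (F := E) (E := fun x : M => TangentSpace 𝓘(ℝ, E) x)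
    (b := fun t : ℝ => 𝒜.Ex p (t • v))
    (v := fun t => mfderiv 𝓘(ℝ, Eu n) 𝓘(ℝ, E) (𝒜.Ex p) (t • v) w)
    (w := fun t => mfderiv 𝓘(ℝ, Eu n) 𝓘(ℝ, E) (𝒜.Ex p) (t • v) w) h4 h4
  refine h5.congr fun t => ?_
  exact real_inner_self_eq_norm_sq _

theorem polar_gv (hA : 𝒜.Mfd E) (hB : Bl M) (p : M) {v : Eu n} (hv : ‖v‖ = 1) {V : Submodule ℝ (Eu n)}
    (hG : 𝒜.Gram (𝒜.gv p v) V) {w : Eu n} (hw : ⟪v, w⟫ = 0) {t : ℝ} (h0 : 0 < t) (h1 : t < π) :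
    t ^ 2 * ‖mfderiv 𝓘(ℝ, Eu n) 𝓘(ℝ, E) (𝒜.Ex p) (t • v) w‖ ^ 2 =
      Real.sin t ^ 2 * ‖V.starProjection w‖ ^ 2 + 4 * Real.sin (t / 2) ^ 2 * ‖w - V.starProjection w‖ ^ 2 := by
  obtain ⟨hc, hc0, hcv⟩ := gv_spec 𝒜 hB p hv
  have h2 := Gram.polar 𝒜 hB hc hG h0 h1 (w := w) (by rw [hcv]; exact hw)
  rw [hc0, hcv] at h2
  rw [norm_mfderiv_Ex hA hB, h2]

theorem kerAt_eq (hA : 𝒜.Mfd E) (hB : Bl M) (p : M) {v : Eu n} (hv : ‖v‖ = 1) {V : Submodule ℝ (Eu n)}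
    (hG : 𝒜.Gram (𝒜.gv p v) V) : MPbl.kerAt E (𝒜.Ex p) v = V := by
  obtain ⟨hc, hc0, hcv⟩ := gv_spec 𝒜 hB p hv
  have key : ∀ w : Eu n, ⟪v, w⟫ = 0 → π ^ 2 * ‖mfderiv 𝓘(ℝ, Eu n) 𝓘(ℝ, E) (𝒜.Ex p) (π • v) w‖ ^ 2 =
      4 * ‖w - V.starProjection w‖ ^ 2 := by
    intro w hw
    have h1 : Tendsto (fun t : ℝ => t ^ 2 * ‖mfderiv 𝓘(ℝ, Eu n) 𝓘(ℝ, E) (𝒜.Ex p) (t • v) w‖ ^ 2) (𝓝[<] π)
        (𝓝 (π ^ 2 * ‖mfderiv 𝓘(ℝ, Eu n) 𝓘(ℝ, E) (𝒜.Ex p) (π • v) w‖ ^ 2)) :=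
      (((continuous_id.pow 2).mul (continuous_norm_mfderiv_Ex hA hB p v w)).continuousAt (x := π)).tendsto.mono_left
        nhdsWithin_le_nhds
    have h2 : Continuous fun t : ℝ => Real.sin t ^ 2 * ‖V.starProjection w‖ ^ 2 +
        4 * Real.sin (t / 2) ^ 2 * ‖w - V.starProjection w‖ ^ 2 := by fun_prop
    have h3 := (h2.continuousAt (x := π)).tendsto.mono_left (nhdsWithin_le_nhds (s := Iio π))
    have h4 : (fun t : ℝ => t ^ 2 * ‖mfderiv 𝓘(ℝ, Eu n) 𝓘(ℝ, E) (𝒜.Ex p) (t • v) w‖ ^ 2) =ᶠ[𝓝[<] π]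
        fun t : ℝ => Real.sin t ^ 2 * ‖V.starProjection w‖ ^ 2 +
        4 * Real.sin (t / 2) ^ 2 * ‖w - V.starProjection w‖ ^ 2 := by
      filter_upwards [Ioo_mem_nhdsLT pi_pos] with t ht
      exact polar_gv hA hB p hv hG hw ht.1 ht.2
    have h5 := tendsto_nhds_unique (h1.congr' h4) h3
    rw [h5, Real.sin_pi, Real.sin_pi_div_two]
    ring
  have hz : ∀ w : Eu n, ⟪v, w⟫ = 0 → (@Eq E (mfderiv 𝓘(ℝ, Eu n) 𝓘(ℝ, E) (𝒜.Ex p) (π • v) w) 0 ↔ w ∈ V) := by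
    intro w hw
    have h1 := key w hw
    constructor
    · intro h2
      have h3 : ‖mfderiv 𝓘(ℝ, Eu n) 𝓘(ℝ, E) (𝒜.Ex p) (π • v) w‖ = 0 := by
        rw [norm_eq_zero]
        exact h2
      rw [h3] at h1
      have h4 : ‖w - V.starProjection w‖ = 0 := by
        have h5 : ‖w - V.starProjection w‖ ^ 2 = 0 := by linarith
        exact pow_eq_zero_iff two_ne_zero |>.1 h5
      have h6 : w = V.starProjection w := sub_eq_zero.1 (norm_eq_zero.1 h4)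
      rw [h6]
      exact V.starProjection_apply_mem w
    · intro h2
      have h3 : V.starProjection w = w := Submodule.starProjection_eq_self_iff.2 h2
      rw [h3, sub_self, norm_zero] at h1
      have h4 : ‖mfderiv 𝓘(ℝ, Eu n) 𝓘(ℝ, E) (𝒜.Ex p) (π • v) w‖ ^ 2 = 0 := by
        have h5 : (π ^ 2 : ℝ) ≠ 0 := pow_ne_zero 2 pi_ne_zero
        have h6 : π ^ 2 * ‖mfderiv 𝓘(ℝ, Eu n) 𝓘(ℝ, E) (𝒜.Ex p) (π • v) w‖ ^ 2 = 0 := by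
          rw [h1]
          ring
        exact (mul_eq_zero.1 h6).resolve_left h5
      have h7 : mfderiv 𝓘(ℝ, Eu n) 𝓘(ℝ, E) (𝒜.Ex p) (π • v) w = 0 :=
        norm_eq_zero.1 (pow_eq_zero_iff two_ne_zero |>.1 h4)
      exact h7
  ext w
  rw [MPbl.mem_kerAt]
  constructor
  · rintro ⟨h1, h2⟩
    exact (hz w h1).1 h2
  · intro h1
    have h2 : ⟪v, w⟫ = 0 := by
      have := hG.1 w h1
      rwa [hcv] at this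
    exact ⟨h2, (hz w h2).2 h1⟩

theorem polarData (hA : 𝒜.Mfd E) (hn : Module.finrank ℝ E = n) (hB : Bl M) (p : M)
    (hG : ∀ v : Eu n, ‖v‖ = 1 → ∃ V, 𝒜.Gram (𝒜.gv p v) V) : MPbl.PolarData E p (𝒜.Ex p) where
  smooth := (contMDiff_Ex hA hB p).of_le (by simp)
  surj q := by
    obtain ⟨ξ, h1, h2⟩ := Ex_surj 𝒜 hB p q
    exact ⟨ξ, h1.trans_le (hB.diam p q), h2⟩
  dist_e ξ hξ := dist_Ex 𝒜 hB p hξ
  inj ξ ξ' h1 h2 h := Ex_injOn 𝒜 hB p (mem_ball_zero_iff.2 h1) (mem_ball_zero_iff.2 h2) h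
  cut v hv := by
    obtain ⟨hc, -, -⟩ := gv_spec 𝒜 hB p hv
    rw [← neg_smul, Ex_smul 𝒜 hB p hv, Ex_smul 𝒜 hB p hv, ← IsGeo.closed 𝒜 hB hc (-π)]
    congr 1
    ring
  dim := by rw [hn, finrank_euclideanSpace_fin]
  der_zero := by
    have h1 := DE_zero_inj 𝒜 hB p
    intro a b h
    refine h1 ?_
    rw [← mfderiv_psi_Ex hA hB p 0 a, ← mfderiv_psi_Ex hA hB p 0 b, h]
  gauss v hv t h0 h1 η := by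
    obtain ⟨hc, hc0, hcv⟩ := gv_spec 𝒜 hB p hv
    rw [inner_mfderiv_Ex hA hB, vel_gv 𝒜 hB p hv]
    have h2 := gauss_DE 𝒜 hB hc h0 h1 η
    rwa [hc0, hcv] at h2
  polar v hv t h0 h1 w hw := by
    obtain ⟨V, hV⟩ := hG v hv
    rw [kerAt_eq hA hB p hv hV]
    exact polar_gv hA hB p hv hV hw h0 h1

/-- **The equality case of Theorem 1 along every geodesic gives the geodesic symmetries.** -/
theorem symmetric_of_gram [IsRiemannianManifold 𝓘(ℝ, E) M] (hA : 𝒜.Mfd E) (hn : Module.finrank ℝ E = n) (hB : Bl M)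
    (hG : ∀ c : ℝ → M, IsGeo c → ∃ V, 𝒜.Gram c V) : Blaschke.Symmetric M := by
  intro p
  have h1 := (polarData hA hn hB p fun v hv => hG _ (gv_spec 𝒜 hB p hv).1).expData
  obtain ⟨s, hs1, hs2, -, hs4⟩ := h1.exists_symmetry (fun v hv a b hab => by
    rw [Ex_smul 𝒜 hB p hv, Ex_smul 𝒜 hB p hv]
    exact (gv_spec 𝒜 hB p hv).1 a b hab)
  exact ⟨s, hs1, hs2, hs4⟩

end riem

end Pool.Agent.Lib.MP_ccbbf6_gt.Geo
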