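import Pool.Agent.Lib.MP_ccbbf6_gt.Geo.SMv

/-!
# EXa: the geodesic with given velocity and the exponential map, metric part (helper34)
-/

set_option autoImplicit false

open Set Filter Topology Metric Real
open scoped ContDiff RealInnerProductSpace

noncomputable section

namespace Pool.Agent.Lib.MP_ccbbf6_gt.Geo

variable {n : ℕ} {M : Type*} [MetricSpace M] [CompactSpace M] (𝒜 : SDist n M)

/-- the choice in the definition of `gv` -/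
theorem exa_gv_of {p : M} {v : Eu n} (h : ∃ c : ℝ → M, IsGeo c ∧ c 0 = p ∧ 𝒜.vel c 0 = v) :
    IsGeo (𝒜.gv p v) ∧ 𝒜.gv p v 0 = p ∧ 𝒜.vel (𝒜.gv p v) 0 = v := by
  have h' : ∃ c : ℝ → M, IsGeo c ∧ c 0 = p ∧ HasDerivAt (fun t => 𝒜.ψ p (c t)) v 0 := by
    obtain ⟨c, h1, h2, h3⟩ := h
    refine ⟨c, h1, h2, ?_⟩
    have h4 : HasDerivAt (fun t => 𝒜.ψ (c 0) (c t)) (𝒜.vel c 0) 0 := (IsGeo.exists_vel 𝒜 h1 0).2
    rw [h3, h2] at h4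
    exact h4
  have e : 𝒜.gv p v = h'.choose := by
    unfold SDist.gv
    rw [dif_pos h']
  obtain ⟨h1, h2, h3⟩ := h'.choose_spec
  rw [e]
  refine ⟨h1, h2, ?_⟩
  unfold SDist.vel
  rw [h2]
  exact h3.deriv

theorem gv_spec (hB : Bl M) (p : M) {v : Eu n} (hv : ‖v‖ = 1) :
    IsGeo (𝒜.gv p v) ∧ 𝒜.gv p v 0 = p ∧ 𝒜.vel (𝒜.gv p v) 0 = v :=
  exa_gv_of 𝒜 (exists_geo_vel 𝒜 hB p hv)

theorem gv_eq {c : ℝ → M} (hc : IsGeo c) (s : ℝ) : 𝒜.gv (c s) (𝒜.vel c s) = fun t => c (s + t) := by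
  have h1 : IsGeo (fun t => c (s + t)) := by
    have h2 := hc.shift s
    have e : (fun t => c (t + s)) = fun t => c (s + t) := by
      funext t
      rw [add_comm]
    rw [e] at h2
    exact h2
  have h2 : 𝒜.vel (fun t => c (s + t)) 0 = 𝒜.vel c s := by
    have h3 := vel_shift 𝒜 (c := c) s 0
    have e : (fun t => c (t + s)) = fun t => c (s + t) := by
      funext t
      rw [add_comm]
    rw [e, zero_add] at h3
    exact h3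
  have h3 : (fun t => c (s + t)) 0 = c s := by
    show c (s + 0) = c s
    rw [add_zero]
  obtain ⟨k1, k2, k3⟩ := exa_gv_of 𝒜 (p := c s) (v := 𝒜.vel c s) ⟨_, h1, h3, h2⟩
  refine IsGeo.eq_of_vel 𝒜 k1 h1 (s := 0) ?_ ?_
  · rw [k2]
    exact h3.symm
  · rw [k3]
    exact h2.symm

theorem exa_gv_unique {p : M} {v : Eu n} {c : ℝ → M} (hc : IsGeo c) (h0 : c 0 = p) (hv : 𝒜.vel c 0 = v) :
    𝒜.gv p v = c := by
  have h := gv_eq 𝒜 hc 0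
  rw [h0, hv] at h
  rw [h]
  funext t
  rw [zero_add]

theorem gv_zero (p : M) (v : Eu n) : 𝒜.gv p v 0 = p := by
  unfold SDist.gv
  split_ifs with h
  · exact h.choose_spec.2.1
  · rfl

/-- convergence of the geodesics with convergent velocities -/
theorem tendsto_gv (hB : Bl M) (p : M) {ι : Type*} (l : Ultrafilter ι) (v : ι → Eu n) {w : Eu n} (hv : ∀ i, ‖v i‖ = 1)
    (hw : Tendsto v l (𝓝 w)) (t : ℝ) : Tendsto (fun i => 𝒜.gv p (v i) t) l (𝓝 (𝒜.gv p w t)) := by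
  obtain ⟨c, hc, hlim⟩ := exists_limit_geo l (fun i => 𝒜.gv p (v i)) (fun i => (gv_spec 𝒜 hB p (hv i)).1)
  have h0 : c 0 = p := by
    have h1 := hlim 0
    have e : (fun i => 𝒜.gv p (v i) 0) = fun _ => p := by
      funext i
      exact gv_zero 𝒜 p (v i)
    rw [e] at h1
    exact tendsto_nhds_unique h1 tendsto_const_nhds
  have h1 := tendsto_vel 𝒜 (l := (l : Filter ι)) (c := fun i => 𝒜.gv p (v i)) (fun i => (gv_spec 𝒜 hB p (hv i)).1) hc hlim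
    (p := p) (s := 0) (by rw [h0]; exact 𝒜.mem p)
  have e : (fun i => deriv (fun t => 𝒜.ψ p (𝒜.gv p (v i) t)) 0) = v := by
    funext i
    have h2 := (gv_spec 𝒜 hB p (hv i)).2.2
    unfold SDist.vel at h2
    rw [gv_zero] at h2
    exact h2
  rw [e] at h1
  have h2 : 𝒜.vel c 0 = w := by
    have h3 := tendsto_nhds_unique hw h1
    unfold SDist.vel
    rw [h0]
    exact h3.symm
  rw [exa_gv_unique 𝒜 hc h0 h2]
  exact hlim t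

theorem continuousOn_gv (hB : Bl M) (p : M) :
    ContinuousOn (fun z : Eu n × ℝ => 𝒜.gv p z.1 z.2) ({v | ‖v‖ = 1} ×ˢ univ) := by
  rw [continuousOn_iff_continuous_domRestrict, continuous_iff_continuousAt]
  intro z
  rw [ContinuousAt, tendsto_iff_ultrafilter]
  intro l hl
  have hz1 : Tendsto (fun z : ({v : Eu n | ‖v‖ = 1} ×ˢ (univ : Set ℝ) : Set (Eu n × ℝ)) => z.1.1) l (𝓝 z.1.1) :=
    (continuous_fst.comp continuous_subtype_val).continuousAt.tendsto.mono_left hl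
  have hz2 : Tendsto (fun z : ({v : Eu n | ‖v‖ = 1} ×ˢ (univ : Set ℝ) : Set (Eu n × ℝ)) => z.1.2) l (𝓝 z.1.2) :=
    (continuous_snd.comp continuous_subtype_val).continuousAt.tendsto.mono_left hl
  have hv : ∀ i : ({v : Eu n | ‖v‖ = 1} ×ˢ (univ : Set ℝ) : Set (Eu n × ℝ)), ‖i.1.1‖ = 1 := fun i => i.2.1
  have h1 := tendsto_gv 𝒜 hB p l (fun i : ({v : Eu n | ‖v‖ = 1} ×ˢ (univ : Set ℝ) : Set (Eu n × ℝ)) => i.1.1) hv hz1 z.1.2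
  refine (tendsto_iff_of_dist ?_).1 h1
  have h2 : Tendsto (fun i : ({v : Eu n | ‖v‖ = 1} ×ˢ (univ : Set ℝ) : Set (Eu n × ℝ)) => |z.1.2 - i.1.2|) l (𝓝 0) := by
    have h3 : Tendsto (fun i : ({v : Eu n | ‖v‖ = 1} ×ˢ (univ : Set ℝ) : Set (Eu n × ℝ)) => |z.1.2 - i.1.2|) l
        (𝓝 |z.1.2 - z.1.2|) := (tendsto_const_nhds.sub hz2).abs
    rw [sub_self, abs_zero] at h3
    exact h3
  refine squeeze_zero (fun i => dist_nonneg) (fun i => ?_) h2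
  exact (gv_spec 𝒜 hB p (hv i)).1.dist_le _ _

theorem Ex_zero (hB : Bl M) (p : M) : 𝒜.Ex p 0 = p := by
  unfold SDist.Ex
  rw [norm_zero]
  exact gv_zero 𝒜 p _

theorem gv_neg (hB : Bl M) (p : M) {v : Eu n} (hv : ‖v‖ = 1) (t : ℝ) : 𝒜.gv p (-v) t = 𝒜.gv p v (-t) := by
  obtain ⟨h1, h2, h3⟩ := gv_spec 𝒜 hB p hv
  have h4 : 𝒜.gv p (-v) = fun t => 𝒜.gv p v (-t) := by
    refine exa_gv_unique 𝒜 h1.rev ?_ ?_
    · show 𝒜.gv p v (-0) = p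
      rw [neg_zero, h2]
    · rw [vel_rev 𝒜 h1, neg_zero, h3]
  rw [h4]

theorem Ex_smul_of_nonneg (p : M) {v : Eu n} (hv : ‖v‖ = 1) {t : ℝ} (ht : 0 ≤ t) : 𝒜.Ex p (t • v) = 𝒜.gv p v t := by
  rcases ht.eq_or_lt with rfl | ht
  · rw [gv_zero]
    unfold SDist.Ex
    rw [zero_smul, norm_zero]
    exact gv_zero 𝒜 p _
  · have e1 : ‖t • v‖ = t := by rw [norm_smul, hv, mul_one, Real.norm_of_nonneg ht.le]
    unfold SDist.Ex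
    rw [e1, smul_smul, inv_mul_cancel₀ ht.ne', one_smul]

theorem Ex_smul (hB : Bl M) (p : M) {v : Eu n} (hv : ‖v‖ = 1) (t : ℝ) : 𝒜.Ex p (t • v) = 𝒜.gv p v t := by
  rcases le_total 0 t with ht | ht
  · exact Ex_smul_of_nonneg 𝒜 p hv ht
  · have h1 : 𝒜.Ex p ((-t) • (-v)) = 𝒜.gv p (-v) (-t) :=
      Ex_smul_of_nonneg 𝒜 p (by rw [norm_neg, hv]) (by linarith)
    rw [smul_neg, neg_smul, neg_neg, gv_neg 𝒜 hB p hv, neg_neg] at h1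
    exact h1

/-- polar decomposition of a nonzero vector -/
theorem exa_polar {ξ : Eu n} (h : ξ ≠ 0) : ‖‖ξ‖⁻¹ • ξ‖ = 1 ∧ ‖ξ‖ • (‖ξ‖⁻¹ • ξ) = ξ := by
  have h1 : ‖ξ‖ ≠ 0 := norm_ne_zero_iff.mpr h
  refine ⟨?_, ?_⟩
  · rw [norm_smul, norm_inv, norm_norm, inv_mul_cancel₀ h1]
  · rw [smul_smul, mul_inv_cancel₀ h1, one_smul]

theorem dist_Ex (hB : Bl M) (p : M) {ξ : Eu n} (h : ‖ξ‖ ≤ π) : dist p (𝒜.Ex p ξ) = ‖ξ‖ := by
  by_cases h0 : ξ = 0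
  · rw [h0, Ex_zero 𝒜 hB, dist_self, norm_zero]
  · obtain ⟨h1, h2⟩ := exa_polar h0
    obtain ⟨k1, k2, k3⟩ := gv_spec 𝒜 hB p h1
    have e : |(0 : ℝ) - ‖ξ‖| = ‖ξ‖ := by rw [zero_sub, abs_neg, abs_norm]
    have h3 := k1 0 ‖ξ‖ (by rw [e]; exact h)
    rw [k2, e] at h3
    exact h3

theorem Ex_surj (hB : Bl M) (p q : M) : ∃ ξ : Eu n, ‖ξ‖ = dist p q ∧ 𝒜.Ex p ξ = q := by
  by_cases hpq : p = q
  · refine ⟨0, ?_, ?_⟩
    · rw [hpq, dist_self, norm_zero]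
    · rw [Ex_zero 𝒜 hB, hpq]
  · obtain ⟨c, hc, h0, h1⟩ := exists_geo 𝒜 hB hpq
    have hv := (IsGeo.exists_vel 𝒜 hc 0).1
    refine ⟨dist p q • 𝒜.vel c 0, ?_, ?_⟩
    · rw [norm_smul, hv, mul_one, Real.norm_of_nonneg dist_nonneg]
    · rw [Ex_smul 𝒜 hB p hv, exa_gv_unique 𝒜 hc h0 rfl, h1]

theorem Ex_injOn (hB : Bl M) (p : M) : InjOn (𝒜.Ex p) (ball 0 π) := by
  intro ξ hξ η hη he
  rw [mem_ball_zero_iff] at hξ hη
  have h1 : ‖ξ‖ = ‖η‖ := by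
    rw [← dist_Ex 𝒜 hB p hξ.le, ← dist_Ex 𝒜 hB p hη.le, he]
  by_cases h0 : ξ = 0
  · rw [h0, norm_zero] at h1
    rw [h0, norm_eq_zero.mp h1.symm]
  · have h0' : η ≠ 0 := by
      intro h
      rw [h, norm_zero] at h1
      exact h0 (norm_eq_zero.mp h1)
    obtain ⟨a1, a2⟩ := exa_polar h0
    obtain ⟨b1, b2⟩ := exa_polar h0'
    obtain ⟨k1, k2, k3⟩ := gv_spec 𝒜 hB p a1
    obtain ⟨m1, m2, m3⟩ := gv_spec 𝒜 hB p b1
    have hpos : 0 < ‖ξ‖ := norm_pos_iff.mpr h0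
    have hc : 𝒜.gv p (‖ξ‖⁻¹ • ξ) = 𝒜.gv p (‖η‖⁻¹ • η) := by
      refine IsGeo.unique 𝒜 k1 m1 (a := 0) (b := ‖ξ‖) hpos.ne ?_ ?_ ?_
      · rw [zero_sub, abs_neg, abs_norm]
        exact hξ
      · rw [k2, m2]
      · have e2 := he
        unfold SDist.Ex at e2
        rw [e2, h1]
    have hv : ‖ξ‖⁻¹ • ξ = ‖η‖⁻¹ • η := by rw [← k3, hc, m3]
    rw [← a2, ← b2, hv, h1]

theorem continuous_Ex (hB : Bl M) (p : M) : Continuous (𝒜.Ex p) := by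
  rw [continuous_iff_continuousAt]
  intro ξ
  by_cases h0 : ξ = 0
  · rw [h0, ContinuousAt, Ex_zero 𝒜 hB, tendsto_iff_dist_tendsto_zero]
    have h1 : ∀ᶠ η : Eu n in 𝓝 0, ‖η‖ < π := by
      have h2 : Tendsto (fun η : Eu n => ‖η‖) (𝓝 0) (𝓝 0) := tendsto_norm_zero
      exact h2.eventually (gt_mem_nhds Real.pi_pos)
    have h3 : Tendsto (fun η : Eu n => ‖η‖) (𝓝 0) (𝓝 0) := tendsto_norm_zero
    refine h3.congr' ?_
    filter_upwards [h1] with η hη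
    rw [dist_comm, dist_Ex 𝒜 hB p hη.le]
  · have h1 : ‖ξ‖ ≠ 0 := norm_ne_zero_iff.mpr h0
    have h2 : ContinuousAt (fun η : Eu n => (‖η‖⁻¹ • η, ‖η‖)) ξ :=
      ((continuous_norm.continuousAt.inv₀ h1).smul continuousAt_id).prodMk continuous_norm.continuousAt
    have h3 : ∀ᶠ η : Eu n in 𝓝 ξ, ((‖η‖⁻¹ • η, ‖η‖) : Eu n × ℝ) ∈ ({v | ‖v‖ = 1} ×ˢ univ : Set (Eu n × ℝ)) := by
      have h4 : ∀ᶠ η : Eu n in 𝓝 ξ, η ≠ 0 := isOpen_ne.mem_nhds h0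
      filter_upwards [h4] with η hη
      exact ⟨(exa_polar hη).1, mem_univ _⟩
    have h5 : Tendsto (fun η : Eu n => ((‖η‖⁻¹ • η, ‖η‖) : Eu n × ℝ)) (𝓝 ξ)
        (𝓝[{v | ‖v‖ = 1} ×ˢ univ] ((‖ξ‖⁻¹ • ξ, ‖ξ‖) : Eu n × ℝ)) :=
      tendsto_nhdsWithin_iff.mpr ⟨h2, h3⟩
    have h6 := continuousOn_gv 𝒜 hB p ((‖ξ‖⁻¹ • ξ, ‖ξ‖) : Eu n × ℝ) ⟨(exa_polar h0).1, mem_univ _⟩
    have h7 : Tendsto ((fun x : Eu n × ℝ => 𝒜.gv p x.1 x.2) ∘ fun η : Eu n => ((‖η‖⁻¹ • η, ‖η‖) : Eu n × ℝ))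
        (𝓝 ξ) (𝓝 ((fun x : Eu n × ℝ => 𝒜.gv p x.1 x.2) ((‖ξ‖⁻¹ • ξ, ‖ξ‖) : Eu n × ℝ))) :=
      Tendsto.comp (ContinuousWithinAt.tendsto h6) h5
    exact h7

end Pool.Agent.Lib.MP_ccbbf6_gt.Geo
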