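import Pool.Agent.Lib.MP_ccbbf6_gt.Geo.Ifc
import Pool.Agent.Lib.MP_ccbbf6_gt.MetricGeod

/-!
# GE1: metric geodesics, limits, minimal segments (helper6)
-/

set_option autoImplicit false

open Set Filter Topology Metric Real
open scoped ContDiff RealInnerProductSpace

noncomputable section

namespace Pool.Agent.Lib.MP_ccbbf6_gt.Geo

variable {n : ℕ} {M : Type*} [MetricSpace M]

theorem IsGeo.shift {c : ℝ → M} (hc : IsGeo c) (a : ℝ) : IsGeo (fun t => c (t + a)) := by
  intro s t h
  have := hc (s + a) (t + a) (by simpa using h)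
  simpa using this

theorem IsGeo.rev {c : ℝ → M} (hc : IsGeo c) : IsGeo (fun t => c (-t)) := by
  intro s t h
  have e : |(-s) - (-t)| = |s - t| := by rw [← abs_neg]; congr 1; ring
  rw [← e]
  exact hc (-s) (-t) (by rw [e]; exact h)

theorem IsGeo.dist_le {c : ℝ → M} (hc : IsGeo c) (s t : ℝ) : dist (c s) (c t) ≤ |s - t| := by
  obtain ⟨N, hN⟩ := exists_nat_ge (|s - t| / π)
  have hN1 : |s - t| ≤ (N + 1 : ℕ) * π := by
    rw [div_le_iff₀ Real.pi_pos] at hN
    push_cast
    nlinarith [Real.pi_pos]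
  have hpos : (0 : ℝ) < ((N + 1 : ℕ) : ℝ) := by positivity
  let x : ℕ → ℝ := fun i => s + i * ((t - s) / ((N + 1 : ℕ) : ℝ))
  have hx0 : x 0 = s := by simp [x]
  have hxN : x (N + 1) = t := by
    simp only [x]
    field_simp
    ring
  have hstep : ∀ i, |x i - x (i + 1)| = |s - t| / ((N + 1 : ℕ) : ℝ) := by
    intro i
    have : x i - x (i + 1) = (s - t) / ((N + 1 : ℕ) : ℝ) := by
      simp only [x]
      push_cast
      ring
    rw [this, abs_div, abs_of_pos hpos]
  have hd : ∀ i, dist (c (x i)) (c (x (i + 1))) = |s - t| / ((N + 1 : ℕ) : ℝ) := by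
    intro i
    rw [hc (x i) (x (i + 1)) (by rw [hstep, div_le_iff₀ hpos]; linarith), hstep]
  have h := dist_le_range_sum_dist (fun i => c (x i)) (N + 1)
  simp only [hd, hx0, hxN, Finset.sum_const, Finset.card_range, nsmul_eq_mul] at h
  rw [mul_div_cancel₀] at h
  · exact h
  · exact hpos.ne'

theorem isClosed_isGeo : IsClosed {c : ℝ → M | IsGeo c} := by
  have : {c : ℝ → M | IsGeo c} = ⋂ s : ℝ, ⋂ t : ℝ, ⋂ _ : |s - t| ≤ π,
      {c : ℝ → M | dist (c s) (c t) = |s - t|} := by
    ext c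
    simp [IsGeo]
  rw [this]
  refine isClosed_iInter fun s => isClosed_iInter fun t => isClosed_iInter fun _ => ?_
  exact isClosed_eq ((continuous_apply s).dist (continuous_apply t)) continuous_const

/-- limits of geodesics -/
theorem exists_limit_geo [CompactSpace M] {ι : Type*} (l : Ultrafilter ι) (c : ι → ℝ → M) (hc : ∀ i, IsGeo (c i)) :
    ∃ c' : ℝ → M, IsGeo c' ∧ ∀ t, Tendsto (fun i => c i t) l (𝓝 (c' t)) := by
  have h : ∀ t, ∃ x : M, Tendsto (fun i => c i t) l (𝓝 x) := by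
    intro t
    obtain ⟨x, -, hx⟩ := isCompact_univ.ultrafilter_le_nhds (l.map (fun i => c i t)) (by simp)
    exact ⟨x, hx⟩
  choose c' hc' using h
  refine ⟨c', fun s t hst => ?_, hc'⟩
  have h1 : Tendsto (fun i => dist (c i s) (c i t)) l (𝓝 (dist (c' s) (c' t))) := (hc' s).dist (hc' t)
  have h2 : (fun i => dist (c i s) (c i t)) = fun _ => |s - t| := by
    funext i
    exact hc i s t hst
  rw [h2] at h1
  exact tendsto_nhds_unique h1 tendsto_const_nhds |>.symm ▸ rfl

/-- betweenness -/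
theorem ge1_between (𝒜 : SDist n M) : MPbl.Between M := 𝒜.btw

/-- minimal segments (midpoints and compactness: chains of `2 ^ k` points, limit along an ultrafilter) -/
theorem exists_seg [CompactSpace M] (𝒜 : SDist n M) (p q : M) : ∃ c : ℝ → M, c 0 = p ∧ c (dist p q) = q ∧
    ∀ s ∈ Icc 0 (dist p q), ∀ t ∈ Icc 0 (dist p q), dist (c s) (c t) = |s - t| :=
  MPbl.exists_seg (ge1_between 𝒜) p q

end Pool.Agent.Lib.MP_ccbbf6_gt.Geo
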