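import Pool.Agent.Lib.MP_ccbbf6_gt.Geo.Ifc

/-!
# LU: local uniqueness of geodesics (block GE, helper91)
-/

set_option autoImplicit false

open Set Filter Topology Metric Real
open scoped ContDiff RealInnerProductSpace

noncomputable section

namespace Pool.Agent.Lib.MP_ccbbf6_gt.Geo

variable {n : ℕ} {M : Type*} [MetricSpace M]

/-! ## the second derivative of `d²` at the diagonal -/

/-- a function with `Q z = |z.1 - z.2|² (1 + o(1))` at `0`: the values of the second derivative at `0` -/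
theorem lu_second {Q : Eu n × Eu n → ℝ} (hQ : ContDiffAt ℝ 2 Q 0)
    (hm : ∀ ε : ℝ, 0 < ε → ∀ᶠ z in 𝓝 (0 : Eu n × Eu n), |Q z - ‖z.1 - z.2‖ ^ 2| ≤ ε * ‖z.1 - z.2‖ ^ 2)
    (w : Eu n × Eu n) : fderiv ℝ (fderiv ℝ Q) 0 w w = 2 * ‖w.1 - w.2‖ ^ 2 := by
  have hsm : Tendsto (fun t : ℝ => t • w) (𝓝 0) (𝓝 0) := by
    have h : Continuous (fun t : ℝ => t • w) := by fun_prop
    simpa using h.tendsto 0
  have hnorm : ∀ t : ℝ, ‖(t • w).1 - (t • w).2‖ ^ 2 = t ^ 2 * ‖w.1 - w.2‖ ^ 2 := by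
    intro t
    rw [Prod.smul_fst, Prod.smul_snd, ← smul_sub, norm_smul, mul_pow, Real.norm_eq_abs, sq_abs]
  set N : ℝ := ‖w.1 - w.2‖ ^ 2 with hN
  have hN0 : 0 ≤ N := by positivity
  have hQ0 : Q 0 = 0 := by
    have := (hm 1 one_pos).self_of_nhds
    simp at this
    exact this
  -- the quotient `Q (t w) / t ^ 2` tends to `N`
  have hquot : Tendsto (fun t : ℝ => Q (t • w) / t ^ 2) (𝓝[≠] 0) (𝓝 N) := by
    rw [Metric.tendsto_nhds]
    intro ε hε
    have h1 : ∀ᶠ t : ℝ in 𝓝 0, |Q (t • w) - t ^ 2 * N| ≤ (ε / (2 * (N + 1))) * (t ^ 2 * N) := by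
      have := hsm.eventually (hm (ε / (2 * (N + 1))) (by positivity))
      filter_upwards [this] with t ht
      rwa [hnorm] at ht
    filter_upwards [h1.filter_mono nhdsWithin_le_nhds, self_mem_nhdsWithin] with t ht ht0
    have ht0' : t ≠ 0 := ht0
    have ht2 : 0 < t ^ 2 := by positivity
    rw [Real.dist_eq]
    have e : Q (t • w) / t ^ 2 - N = (Q (t • w) - t ^ 2 * N) / t ^ 2 := by
      field_simp
    rw [e, abs_div, abs_of_pos ht2, div_lt_iff₀ ht2]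
    refine lt_of_le_of_lt ht ?_
    have h2 : ε / (2 * (N + 1)) * N < ε := by
      rw [div_mul_eq_mul_div, div_lt_iff₀ (by positivity)]
      nlinarith
    calc ε / (2 * (N + 1)) * (t ^ 2 * N) = (ε / (2 * (N + 1)) * N) * t ^ 2 := by ring
      _ < ε * t ^ 2 := by
        exact mul_lt_mul_of_pos_right h2 ht2
  -- derivatives
  have hev : ∀ᶠ z in 𝓝 (0 : Eu n × Eu n), DifferentiableAt ℝ Q z := by
    filter_upwards [hQ.eventually (by simp)] with z hz
    exact hz.differentiableAt (by norm_num)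
  have hev' : ∀ᶠ t : ℝ in 𝓝 0, HasDerivAt (fun t : ℝ => Q (t • w)) (fderiv ℝ Q (t • w) w) t := by
    filter_upwards [hsm.eventually hev] with t ht
    have h1 : HasDerivAt (fun t : ℝ => t • w) w t := by
      simpa using (hasDerivAt_id t).smul_const w
    exact ht.hasFDerivAt.comp_hasDerivAt t h1
  have hG : DifferentiableAt ℝ (fderiv ℝ Q) 0 := by
    have := hQ.fderiv_right (m := 1) (by norm_num)
    exact this.differentiableAt (by norm_num)
  have hG' : HasDerivAt (fun t : ℝ => fderiv ℝ Q (t • w) w) (fderiv ℝ (fderiv ℝ Q) 0 w w) 0 := by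
    have h1 : HasDerivAt (fun t : ℝ => t • w) w 0 := by
      simpa using (hasDerivAt_id (0 : ℝ)).smul_const w
    have h2 : HasFDerivAt (fderiv ℝ Q) (fderiv ℝ (fderiv ℝ Q) 0) ((0 : ℝ) • w) := by
      rw [zero_smul]
      exact hG.hasFDerivAt
    have h3 : HasDerivAt (fun t : ℝ => fderiv ℝ Q (t • w)) (fderiv ℝ (fderiv ℝ Q) 0 w) 0 :=
      h2.comp_hasDerivAt (0 : ℝ) h1
    simpa using h3.clm_apply (hasDerivAt_const (0 : ℝ) w)
  have hq0 : fderiv ℝ Q 0 w = 0 := by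
    have h1 : HasDerivAt (fun t : ℝ => Q (t • w)) (fderiv ℝ Q 0 w) 0 := by
      have := hev'.self_of_nhds
      simpa using this
    have h2 := (hasDerivAt_iff_tendsto_slope.1 h1)
    have h3 : Tendsto (slope (fun t : ℝ => Q (t • w)) 0) (𝓝[≠] 0) (𝓝 0) := by
      have h4 : Tendsto (fun t : ℝ => t * (Q (t • w) / t ^ 2)) (𝓝[≠] 0) (𝓝 (0 * N)) :=
        ((tendsto_id (x := 𝓝 (0 : ℝ))).mono_left nhdsWithin_le_nhds).mul hquot
      rw [zero_mul] at h4
      refine h4.congr' ?_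
      filter_upwards [self_mem_nhdsWithin] with t ht
      have ht0 : t ≠ 0 := ht
      rw [slope_def_field]
      simp only [zero_smul, hQ0, sub_zero]
      field_simp
    exact tendsto_nhds_unique h2 h3
  have hquot' : Tendsto (fun t : ℝ => Q (t • w) / t ^ 2) (𝓝[≠] 0) (𝓝 (fderiv ℝ (fderiv ℝ Q) 0 w w / 2)) := by
    refine HasDerivAt.lhopital_zero_nhdsNE (f' := fun t => fderiv ℝ Q (t • w) w) (g' := fun t => 2 * t)
      (hev'.filter_mono nhdsWithin_le_nhds) ?_ ?_ ?_ ?_ ?_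
    · refine Eventually.of_forall fun t => ?_
      simpa using hasDerivAt_pow 2 t
    · filter_upwards [self_mem_nhdsWithin] with t ht
      have ht0 : t ≠ 0 := ht
      simpa using ht0
    · have h1 : ContinuousAt (fun t : ℝ => Q (t • w)) 0 := hev'.self_of_nhds.continuousAt
      have h2 : Tendsto (fun t : ℝ => Q (t • w)) (𝓝 0) (𝓝 (Q ((0 : ℝ) • w))) := h1
      rw [zero_smul, hQ0] at h2
      exact h2.mono_left nhdsWithin_le_nhds
    · have h2 : Tendsto (fun t : ℝ => t ^ 2) (𝓝 0) (𝓝 ((0 : ℝ) ^ 2)) := (continuous_pow 2).tendsto 0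
      rw [zero_pow (by norm_num)] at h2
      exact h2.mono_left nhdsWithin_le_nhds
    · have h1 := hasDerivAt_iff_tendsto_slope.1 hG'
      have h2 := h1.div_const 2
      refine h2.congr' ?_
      filter_upwards [self_mem_nhdsWithin] with t ht
      have ht0 : t ≠ 0 := ht
      rw [slope_def_field]
      simp only [zero_smul, hq0, sub_zero]
      field_simp
  have := tendsto_nhds_unique hquot hquot'
  linarith

theorem lu_second_bilin {Q : Eu n × Eu n → ℝ} (hQ : ContDiffAt ℝ 2 Q 0)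
    (hm : ∀ ε : ℝ, 0 < ε → ∀ᶠ z in 𝓝 (0 : Eu n × Eu n), |Q z - ‖z.1 - z.2‖ ^ 2| ≤ ε * ‖z.1 - z.2‖ ^ 2)
    (w w' : Eu n × Eu n) : fderiv ℝ (fderiv ℝ Q) 0 w w' = 2 * ⟪w.1 - w.2, w'.1 - w'.2⟫ := by
  have hsymm : fderiv ℝ (fderiv ℝ Q) 0 w w' = fderiv ℝ (fderiv ℝ Q) 0 w' w := by
    exact (hQ.isSymmSndFDerivAt (by simp)) w w'
  have h1 := lu_second hQ hm (w + w')
  have h2 := lu_second hQ hm w
  have h3 := lu_second hQ hm w'
  simp only [map_add, add_apply, h2, h3, hsymm, Prod.fst_add, Prod.snd_add] at h1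
  have e : ‖w.1 + w'.1 - (w.2 + w'.2)‖ ^ 2 = ‖w.1 - w.2‖ ^ 2 + 2 * ⟪w.1 - w.2, w'.1 - w'.2⟫ + ‖w'.1 - w'.2‖ ^ 2 := by
    rw [← norm_add_sq_real]
    congr 2
    abel
  rw [e] at h1
  rw [hsymm]
  linarith

/-- the square of the distance in the chart centered at `p` -/
def SDist.Q (𝒜 : SDist n M) (p : M) (z : Eu n × Eu n) : ℝ := dist ((𝒜.ψ p).symm z.1) ((𝒜.ψ p).symm z.2) ^ 2

theorem lu_sq (𝒜 : SDist n M) (p : M) (ε : ℝ) (hε : 0 < ε) :
    ∀ᶠ z in 𝓝 (0 : Eu n × Eu n), |𝒜.Q p z - ‖z.1 - z.2‖ ^ 2| ≤ ε * ‖z.1 - z.2‖ ^ 2 := by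
  have h := 𝒜.metric p (min 1 (ε / 3)) (by positivity)
  filter_upwards [h] with z hz
  set d := dist ((𝒜.ψ p).symm z.1) ((𝒜.ψ p).symm z.2) with hd
  have hd0 : 0 ≤ d := dist_nonneg
  set r := ‖z.1 - z.2‖ with hr
  have hr0 : 0 ≤ r := norm_nonneg _
  have h1 : |d - r| ≤ r := hz.trans (by nlinarith [min_le_left (1 : ℝ) (ε / 3)])
  have h2 : |d - r| ≤ (ε / 3) * r := hz.trans (by nlinarith [min_le_right (1 : ℝ) (ε / 3)])
  have h3 : d + r ≤ 3 * r := by
    have := abs_le.1 h1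
    linarith
  have e : 𝒜.Q p z - r ^ 2 = (d - r) * (d + r) := by
    unfold SDist.Q
    rw [← hd]
    ring
  rw [e, abs_mul, abs_of_nonneg (by linarith : 0 ≤ d + r)]
  calc |d - r| * (d + r) ≤ ((ε / 3) * r) * (3 * r) := by gcongr
    _ = ε * r ^ 2 := by ring

theorem lu_two_le : (2 : WithTop ℕ∞) ≤ ∞ := by
  have h : ((2 : ℕ∞) : WithTop ℕ∞) ≤ ((⊤ : ℕ∞) : WithTop ℕ∞) := WithTop.coe_le_coe.2 le_top
  exact h

theorem lu_Q_contDiffAt (𝒜 : SDist n M) (p : M) : ContDiffAt ℝ ∞ (𝒜.Q p) 0 := (𝒜.sq p).self_of_nhds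

theorem lu_Q_second (𝒜 : SDist n M) (p : M) (w w' : Eu n × Eu n) :
    fderiv ℝ (fderiv ℝ (𝒜.Q p)) 0 w w' = 2 * ⟪w.1 - w.2, w'.1 - w'.2⟫ :=
  lu_second_bilin ((lu_Q_contDiffAt 𝒜 p).of_le lu_two_le) (lu_sq 𝒜 p) w w'

/-- in the chart of the center the first derivatives of `d²` in the first slot determine the second point -/
theorem lu_inj (𝒜 : SDist n M) (p : M) : ∃ δ : ℝ, 0 < δ ∧ ∀ u v v' : Eu n, ‖u‖ < δ → ‖v‖ < δ → ‖v'‖ < δ →
    (∀ a : Eu n, fderiv ℝ (𝒜.Q p) (u, v) (a, 0) = fderiv ℝ (𝒜.Q p) (u, v') (a, 0)) → v = v' := by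
  have hQ2 : ContDiffAt ℝ 2 (𝒜.Q p) 0 := (lu_Q_contDiffAt 𝒜 p).of_le lu_two_le
  have hG : ContDiffAt ℝ 1 (fderiv ℝ (𝒜.Q p)) 0 := hQ2.fderiv_right (by norm_num)
  have hst : HasStrictFDerivAt (fderiv ℝ (𝒜.Q p)) (fderiv ℝ (fderiv ℝ (𝒜.Q p)) 0) 0 :=
    hG.hasStrictFDerivAt (by norm_num)
  have h1 := hst.isLittleO.def (c := 1) one_pos
  rw [Metric.eventually_nhds_iff] at h1
  obtain ⟨δ, hδ, h1⟩ := h1
  refine ⟨δ, hδ, fun u v v' hu hv hv' h => ?_⟩
  have hd : dist (((u, v), (u, v')) : (Eu n × Eu n) × (Eu n × Eu n)) (0, 0) < δ := by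
    rw [Prod.dist_eq, max_lt_iff]
    constructor
    · rw [dist_zero_right, Prod.norm_def, max_lt_iff]
      exact ⟨hu, hv⟩
    · rw [dist_zero_right, Prod.norm_def, max_lt_iff]
      exact ⟨hu, hv'⟩
  have h2 := h1 hd
  simp only [one_mul] at h2
  set T := fderiv ℝ (𝒜.Q p) (u, v) - fderiv ℝ (𝒜.Q p) (u, v') -
    fderiv ℝ (fderiv ℝ (𝒜.Q p)) 0 ((u, v) - (u, v')) with hT
  have h3 : T (v - v', 0) = 2 * ‖v - v'‖ ^ 2 := by
    have e1 : T (v - v', 0) = (fderiv ℝ (𝒜.Q p) (u, v) (v - v', 0) - fderiv ℝ (𝒜.Q p) (u, v') (v - v', 0)) -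
        fderiv ℝ (fderiv ℝ (𝒜.Q p)) 0 ((u, v) - (u, v')) (v - v', 0) := by
      rw [hT]
      rfl
    rw [e1, h (v - v'), sub_self, lu_Q_second]
    simp only [Prod.fst_sub, Prod.snd_sub, sub_self, zero_sub, sub_zero]
    rw [inner_neg_left, real_inner_self_eq_norm_sq]
    ring
  have h4 : ‖T (v - v', 0)‖ ≤ ‖T‖ * ‖((v - v', 0) : Eu n × Eu n)‖ := T.le_opNorm _
  have h5 : ‖((v - v', 0) : Eu n × Eu n)‖ = ‖v - v'‖ := by
    rw [Prod.norm_def]
    simp
  have h6 : ‖((u, v) - (u, v') : Eu n × Eu n)‖ = ‖v - v'‖ := by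
    rw [Prod.norm_def]
    simp
  rw [h6] at h2
  rw [h5, h3, Real.norm_eq_abs, abs_of_nonneg (by positivity)] at h4
  have h7 : 2 * ‖v - v'‖ ^ 2 ≤ ‖v - v'‖ * ‖v - v'‖ := h4.trans (by gcongr)
  have h8 : ‖v - v'‖ ^ 2 ≤ 0 := by nlinarith
  have h9 : ‖v - v'‖ = 0 := by
    have := sq_nonneg ‖v - v'‖
    nlinarith [sq_eq_zero_iff.1 (le_antisymm h8 this)]
  exact sub_eq_zero.1 (norm_eq_zero.1 h9)

/-- near the center: no branching -/
theorem lu_local (𝒜 : SDist n M) (p : M) : ∃ U : Set M, IsOpen U ∧ p ∈ U ∧ ∀ x ∈ U, ∀ y ∈ U, ∀ z ∈ U, ∀ z' ∈ U,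
    x ≠ y → dist x y + dist y z = dist x z → dist x y + dist y z' = dist x z' → dist y z = dist y z' → z = z' := by
  obtain ⟨δ, hδ, hinj⟩ := lu_inj 𝒜 p
  have hQ2 : ContDiffAt ℝ 2 (𝒜.Q p) 0 := (lu_Q_contDiffAt 𝒜 p).of_le lu_two_le
  have hev : ∀ᶠ z in 𝓝 (0 : Eu n × Eu n), DifferentiableAt ℝ (𝒜.Q p) z := by
    filter_upwards [hQ2.eventually (by simp)] with z hz
    exact hz.differentiableAt (by norm_num)
  rw [Metric.eventually_nhds_iff] at hev
  obtain ⟨δ', hδ', hdiff⟩ := hev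
  have htgt : ∀ᶠ u in 𝓝 (0 : Eu n), u ∈ (𝒜.ψ p).target := by
    have h := (𝒜.ψ p).open_target.mem_nhds ((𝒜.ψ p).map_source (𝒜.mem p))
    rw [𝒜.zero p] at h
    exact h
  set r := min δ δ' with hr
  have hr0 : 0 < r := lt_min hδ hδ'
  refine ⟨(𝒜.ψ p).source ∩ (𝒜.ψ p) ⁻¹' (ball 0 r), ?_, ⟨𝒜.mem p, ?_⟩, ?_⟩
  · exact (𝒜.ψ p).isOpen_inter_preimage isOpen_ball
  · show 𝒜.ψ p p ∈ ball 0 r
    rw [𝒜.zero p]
    exact mem_ball_self hr0
  intro x hx y hy z hz z' hz' hxy h1 h2 h3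
  set ψ := 𝒜.ψ p with hψ
  have nx : ‖ψ x‖ < r := by simpa using hx.2
  have ny : ‖ψ y‖ < r := by simpa using hy.2
  have nz : ‖ψ z‖ < r := by simpa using hz.2
  have nz' : ‖ψ z'‖ < r := by simpa using hz'.2
  have sx : ψ.symm (ψ x) = x := ψ.left_inv hx.1
  have sy : ψ.symm (ψ y) = y := ψ.left_inv hy.1
  have sz : ψ.symm (ψ z) = z := ψ.left_inv hz.1
  have sz' : ψ.symm (ψ z') = z' := ψ.left_inv hz'.1
  by_cases hyz : y = z
  · rw [hyz, dist_self] at h3
    exact (dist_eq_zero.1 h3.symm)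
  have dyz : 0 < dist y z := dist_pos.2 hyz
  have dyz' : 0 < dist y z' := h3 ▸ dyz
  have dxy : 0 < dist x y := dist_pos.2 hxy
  have hQd : ∀ u v : Eu n, ‖u‖ < r → ‖v‖ < r → DifferentiableAt ℝ (𝒜.Q p) (u, v) := by
    intro u v hu hv
    apply hdiff
    rw [dist_zero_right, Prod.norm_def, max_lt_iff]
    exact ⟨hu.trans_le (min_le_right _ _), hv.trans_le (min_le_right _ _)⟩
  -- the derivative of the distance to a point, first slot
  have hfst : ∀ w : M, w ∈ ψ.source → ‖ψ w‖ < r → 0 < dist y w →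
      HasFDerivAt (fun u : Eu n => dist (ψ.symm u) w)
        ((1 / (2 * dist y w)) • (fderiv ℝ (𝒜.Q p) (ψ y, ψ w)).comp (ContinuousLinearMap.inl ℝ (Eu n) (Eu n))) (ψ y) := by
    intro w hw hw1 hw0
    have sw : ψ.symm (ψ w) = w := ψ.left_inv hw
    have e1 : HasFDerivAt (fun u : Eu n => 𝒜.Q p (u, ψ w))
        ((fderiv ℝ (𝒜.Q p) (ψ y, ψ w)).comp (ContinuousLinearMap.inl ℝ (Eu n) (Eu n))) (ψ y) := by
      have e2 : HasFDerivAt (fun u : Eu n => (u, ψ w)) (ContinuousLinearMap.inl ℝ (Eu n) (Eu n)) (ψ y) :=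
        hasFDerivAt_prodMk_left (ψ y) (ψ w)
      exact (hQd _ _ ny hw1).hasFDerivAt.comp (ψ y) e2
    have e3 : 𝒜.Q p (ψ y, ψ w) = dist y w ^ 2 := by
      show dist (ψ.symm (ψ y)) (ψ.symm (ψ w)) ^ 2 = _
      rw [sy, sw]
    have e4 := e1.sqrt (by show 𝒜.Q p (ψ y, ψ w) ≠ 0; rw [e3]; positivity)
    have e5 : (fun u : Eu n => √(𝒜.Q p (u, ψ w))) = fun u : Eu n => dist (ψ.symm u) w := by
      funext u
      show √(dist (ψ.symm u) (ψ.symm (ψ w)) ^ 2) = _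
      rw [sw, Real.sqrt_sq dist_nonneg]
    rw [e5, e3, Real.sqrt_sq dist_nonneg] at e4
    exact e4
  have hcond : ∀ w : M, w ∈ ψ.source → ‖ψ w‖ < r → 0 < dist y w → dist x y + dist y w = dist x w →
      ∀ a : Eu n, (1 / (2 * dist y x)) * fderiv ℝ (𝒜.Q p) (ψ y, ψ x) (a, 0) +
        (1 / (2 * dist y w)) * fderiv ℝ (𝒜.Q p) (ψ y, ψ w) (a, 0) = 0 := by
    intro w hw hw1 hw0 hw2 a
    have f1 := hfst x hx.1 nx (by rw [dist_comm]; exact dxy)
    have f2 := hfst w hw hw1 hw0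
    have hmin : IsLocalMin (fun u : Eu n => dist (ψ.symm u) x + dist (ψ.symm u) w) (ψ y) := by
      refine Eventually.of_forall fun u => ?_
      show dist (ψ.symm (ψ y)) x + dist (ψ.symm (ψ y)) w ≤ dist (ψ.symm u) x + dist (ψ.symm u) w
      rw [sy, dist_comm y x, hw2, dist_comm (ψ.symm u) x]
      exact dist_triangle _ _ _
    have h := hmin.hasFDerivAt_eq_zero (f1.add f2)
    have h' := congrArg (fun L : Eu n →L[ℝ] ℝ => L a) h
    simpa using h'
  have c1 := hcond z hz.1 nz dyz h1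
  have c2 := hcond z' hz'.1 nz' dyz' h2
  have hv : ψ z = ψ z' := by
    refine hinj (ψ y) (ψ z) (ψ z') (ny.trans_le (min_le_left _ _)) (nz.trans_le (min_le_left _ _))
      (nz'.trans_le (min_le_left _ _)) fun a => ?_
    have d1 := c1 a
    have d2 := c2 a
    rw [← h3] at d2
    have d3 : (1 / (2 * dist y z)) * fderiv ℝ (𝒜.Q p) (ψ y, ψ z) (a, 0) =
        (1 / (2 * dist y z)) * fderiv ℝ (𝒜.Q p) (ψ y, ψ z') (a, 0) := by linarith
    exact mul_left_cancel₀ (by positivity) d3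
  rw [← sz, ← sz', hv]

/-- points of the segment from `x` to `y` close to `y` -/
theorem lu_near (𝒜 : SDist n M) (x y : M) (k : ℕ) : ∃ m, dist m y = dist x y / 2 ^ k ∧ dist x m + dist m y = dist x y := by
  have h1 : (1 : ℝ) ≤ 2 ^ k := one_le_pow₀ (by norm_num)
  have h2 : 0 ≤ dist x y / 2 ^ k := by positivity
  have h3 : dist x y / 2 ^ k ≤ dist x y := div_le_self dist_nonneg h1
  obtain ⟨m, e1, e2⟩ := 𝒜.btw x y (dist x y - dist x y / 2 ^ k) (by linarith) (by linarith)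
  exact ⟨m, by rw [e2]; ring, by rw [e1, e2]; ring⟩

/-- no branching at small scale -/
theorem local_unique [CompactSpace M] (𝒜 : SDist n M) : ∃ ρ : ℝ, 0 < ρ ∧ ∀ x y z z' : M, x ≠ y →
    dist x y + dist y z = dist x z → dist x y + dist y z' = dist x z' → dist y z = dist y z' →
    dist y z < ρ → z = z' := by
  choose U hU hpU hloc using lu_local 𝒜
  obtain ⟨ρ, hρ, hleb⟩ := lebesgue_number_lemma_of_metric (isCompact_univ (X := M)) hU
    (fun p _ => mem_iUnion.2 ⟨p, hpU p⟩)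
  refine ⟨ρ, hρ, fun x y z z' hxy h1 h2 h3 h4 => ?_⟩
  obtain ⟨p, hp⟩ := hleb y (mem_univ y)
  have dxy : 0 < dist x y := dist_pos.2 hxy
  obtain ⟨k, hk⟩ := exists_pow_lt_of_lt_one (show 0 < ρ / dist x y by positivity) (show (1 / 2 : ℝ) < 1 by norm_num)
  obtain ⟨m, hm1, hm2⟩ := lu_near 𝒜 x y k
  have hmy : dist m y < ρ := by
    rw [hm1]
    have : dist x y / 2 ^ k = (1 / 2) ^ k * dist x y := by
      rw [one_div, inv_pow]
      ring
    rw [this]
    exact (lt_div_iff₀ dxy).1 hk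
  have hmy0 : 0 < dist m y := by
    rw [hm1]
    positivity
  have coll : ∀ w : M, dist x y + dist y w = dist x w → dist m y + dist y w = dist m w := by
    intro w hw
    have t1 := dist_triangle m y w
    have t2 := dist_triangle x m w
    linarith
  exact hloc p m (hp (by simpa [mem_ball] using hmy)) y (hp (mem_ball_self hρ)) z
    (hp (by simpa [mem_ball, dist_comm] using h4)) z' (hp (by rw [h3] at h4; simpa [mem_ball, dist_comm] using h4))
    (dist_pos.1 hmy0) (coll z h1) (coll z' h2) h3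

/-! ## uniqueness of geodesics -/

theorem lu_rev {c : ℝ → M} (hc : IsGeo c) : IsGeo (fun t => c (-t)) := by
  intro s t h
  have e : |(-s) - (-t)| = |s - t| := by rw [← abs_neg]; congr 1; ring
  rw [← e]
  exact hc (-s) (-t) (by rw [e]; exact h)

theorem lu_dist {c : ℝ → M} (hc : IsGeo c) {s t : ℝ} (h : s ≤ t) (h' : t - s ≤ π) : dist (c s) (c t) = t - s := by
  have e : |s - t| = t - s := by rw [abs_sub_comm, abs_of_nonneg (by linarith)]
  rw [hc s t (by rw [e]; exact h'), e]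

theorem lu_step [CompactSpace M] (𝒜 : SDist n M) : ∃ ρ : ℝ, 0 < ρ ∧ ∀ c c' : ℝ → M, IsGeo c → IsGeo c' →
    ∀ s t r : ℝ, s < t → t ≤ r → r - t < ρ → r - s ≤ π → c s = c' s → c t = c' t → c r = c' r := by
  obtain ⟨ρ, hρ, H⟩ := local_unique 𝒜
  refine ⟨ρ, hρ, fun c c' hc hc' s t r hst htr h1 h2 hs ht => ?_⟩
  have e1 : dist (c s) (c t) = t - s := lu_dist hc hst.le (by linarith)
  have e2 : dist (c t) (c r) = r - t := lu_dist hc htr (by linarith)
  have e3 : dist (c s) (c r) = r - s := lu_dist hc (by linarith) h2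
  have e2' : dist (c t) (c' r) = r - t := by rw [ht]; exact lu_dist hc' htr (by linarith)
  have e3' : dist (c s) (c' r) = r - s := by rw [hs]; exact lu_dist hc' (by linarith) h2
  refine H (c s) (c t) (c r) (c' r) ?_ ?_ ?_ ?_ ?_
  · exact dist_pos.1 (by rw [e1]; linarith)
  · rw [e1, e2, e3]; ring
  · rw [e1, e2', e3']; ring
  · rw [e2, e2']
  · rw [e2]; exact h1

theorem lu_fwd [CompactSpace M] (𝒜 : SDist n M) {c c' : ℝ → M} (hc : IsGeo c) (hc' : IsGeo c') {s t : ℝ}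
    (hst : s < t) (h : t - s < π) (hs : c s = c' s) (ht : c t = c' t) (r : ℝ) (hr : t ≤ r) : c r = c' r := by
  obtain ⟨ρ, hρ, H⟩ := lu_step 𝒜
  obtain ⟨η, hη, hη1, hη2⟩ : ∃ η : ℝ, 0 < η ∧ η < ρ ∧ η ≤ (π - (t - s)) / 2 := by
    refine ⟨min (ρ / 2) ((π - (t - s)) / 2), lt_min (by linarith) (by linarith), ?_, min_le_right _ _⟩
    exact (min_le_left _ _).trans_lt (by linarith)
  have key : ∀ k : ℕ, ∀ r : ℝ, t ≤ r → r ≤ t + (k + 1) * η → c r = c' r := by
    intro k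
    induction k with
    | zero =>
      intro r h1 h2
      simp only [Nat.cast_zero, zero_add, one_mul] at h2
      exact H c c' hc hc' s t r hst h1 (by linarith) (by linarith) hs ht
    | succ k ih =>
      intro r h1 h2
      push_cast at h2
      rcases le_total r (t + (k + 1) * η) with h3 | h3
      · exact ih r h1 h3
      · have hk : (0 : ℝ) ≤ (k : ℝ) * η := by positivity
        refine H c c' hc hc' (t + k * η) (t + (k + 1) * η) r (by linarith) h3 (by linarith) (by linarith) ?_ ?_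
        · exact ih _ (by linarith) (by linarith)
        · exact ih _ (by linarith) le_rfl
  obtain ⟨k, hk⟩ := exists_nat_gt ((r - t) / η)
  refine key k r hr ?_
  rw [div_lt_iff₀ hη] at hk
  linarith

/-- two geodesics which agree at two times at distance less than `π` are equal -/
theorem IsGeo.unique [CompactSpace M] (𝒜 : SDist n M) {c c' : ℝ → M} (hc : IsGeo c) (hc' : IsGeo c') {a b : ℝ}
    (hab : a ≠ b) (h : |a - b| < π) (ha : c a = c' a) (hb : c b = c' b) : c = c' := by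
  wlog hlt : a < b generalizing a b
  · exact this hab.symm (by rw [abs_sub_comm]; exact h) hb ha (lt_of_le_of_ne (not_lt.1 hlt) hab.symm)
  rw [abs_sub_comm, abs_of_pos (by linarith)] at h
  have h1 : ∀ r, b ≤ r → c r = c' r := lu_fwd 𝒜 hc hc' hlt h ha hb
  funext r
  rcases le_total b r with hr | hr
  · exact h1 r hr
  · have h2 := lu_fwd 𝒜 (lu_rev hc) (lu_rev hc') (s := -(b + 1)) (t := -b) (by linarith)
      (by linarith [Real.pi_gt_three]) (by simpa using h1 (b + 1) (by linarith)) (by simpa using h1 b le_rfl) (-r)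
      (by linarith)
    simpa using h2

end Pool.Agent.Lib.MP_ccbbf6_gt.Geo
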