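import Pool.Agent.Lib.MP_ccbbf6_gt.Geo.GE1
import Pool.Agent.Lib.MP_ccbbf6_gt.Geo.LU

/-!
# GE: metric geodesics: existence and continuity
-/

set_option autoImplicit false

open Set Filter Topology Metric Real
open scoped ContDiff RealInnerProductSpace

noncomputable section

namespace Pool.Agent.Lib.MP_ccbbf6_gt.Geo

variable {n : ℕ} {M : Type*} [MetricSpace M]

/-- Unit speed geodesics on an interval. -/
def GeoOn (c : ℝ → M) (a b : ℝ) : Prop :=
  ∀ s ∈ Icc a b, ∀ t ∈ Icc a b, |s - t| ≤ π → dist (c s) (c t) = |s - t|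

theorem GeoOn.rev {c : ℝ → M} {a b : ℝ} (hc : GeoOn c a b) : GeoOn (fun t => c (-t)) (-b) (-a) := by
  intro s hs t ht h
  have e : |(-s) - (-t)| = |s - t| := by rw [← abs_neg]; congr 1; ring
  rw [← e]
  exact hc (-s) ⟨by linarith [hs.2], by linarith [hs.1]⟩ (-t) ⟨by linarith [ht.2], by linarith [ht.1]⟩
    (by rw [e]; exact h)

theorem GeoOn.mono {c : ℝ → M} {a b a' b' : ℝ} (hc : GeoOn c a b) (ha : a ≤ a') (hb : b' ≤ b) :
    GeoOn c a' b' :=
  fun s hs t ht h => hc s ⟨ha.trans hs.1, hs.2.trans hb⟩ t ⟨ha.trans ht.1, ht.2.trans hb⟩ h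

theorem GeoOn.congr {c c' : ℝ → M} {a b : ℝ} (hc : GeoOn c a b) (h : ∀ s ∈ Icc a b, c' s = c s) :
    GeoOn c' a b := by
  intro s hs t ht hst
  rw [h s hs, h t ht]
  exact hc s hs t ht hst

/-- A small extension. -/
theorem GeoOn.step [CompactSpace M] (𝒜 : SDist n M) (hB : Bl M) : ∃ δ : ℝ, 0 < δ ∧
    ∀ (c : ℝ → M) (a b : ℝ), a + π ≤ b → GeoOn c a b →
      ∃ c' : ℝ → M, GeoOn c' a (b + δ) ∧ ∀ s ≤ b, c' s = c s := by
  obtain ⟨ρ, hρ, hu⟩ := local_unique 𝒜
  have hπ := Real.pi_pos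
  refine ⟨min (ρ / 2) (π / 2), lt_min (by linarith) (by linarith), fun c a b hab hc => ?_⟩
  set δ := min (ρ / 2) (π / 2) with hδ
  have hδ0 : 0 < δ := lt_min (by linarith) (by linarith)
  have hδρ : δ < ρ := lt_of_le_of_lt (min_le_left _ _) (by linarith)
  have hδπ : δ ≤ π / 2 := min_le_right _ _
  set x₀ := c (b + δ - π) with hx₀
  have hxm : b + δ - π ∈ Icc a b := ⟨by linarith, by linarith⟩
  have hbm : b ∈ Icc a b := ⟨by linarith, le_refl _⟩
  have hxy : dist x₀ (c b) = π - δ := by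
    rw [hx₀, hc _ hxm _ hbm (by rw [abs_le]; constructor <;> linarith)]
    rw [abs_of_nonpos (by linarith)]
    ring
  have hne : x₀ ≠ c b := by
    intro h
    rw [h, dist_self] at hxy
    linarith
  obtain ⟨r, hr1, hr2⟩ := hB.ext x₀ (c b) hne
  have hyr : dist (c b) r = δ := by rw [hxy] at hr2; linarith
  obtain ⟨e, he0, he1, he⟩ := exists_seg 𝒜 (c b) r
  rw [hyr] at he1 he
  have he' : ∀ t ∈ Icc (0 : ℝ) δ, dist (c b) (e t) = t := by
    intro t ht
    have h1 := he 0 ⟨le_refl _, hδ0.le⟩ t ht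
    rw [he0, zero_sub, abs_neg, abs_of_nonneg ht.1] at h1
    exact h1
  have hx0e : ∀ t ∈ Icc (0 : ℝ) δ, dist x₀ (e t) = π - δ + t := by
    intro t ht
    have h1 : dist (e t) r = δ - t := by
      have h2 := he t ht δ ⟨hδ0.le, le_refl _⟩
      rw [he1, abs_of_nonpos (by linarith [ht.2])] at h2
      linarith
    have h3 := dist_triangle x₀ (e t) r
    have h4 := dist_triangle x₀ (c b) (e t)
    rw [he' t ht, hxy] at h4
    rw [h1, hr1] at h3
    linarith
  -- the key identity
  have key : ∀ s ∈ Icc a b, ∀ t ∈ Icc (0 : ℝ) δ, b + t - s ≤ π → dist (c s) (e t) = b + t - s := by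
    intro s hs t ht hst
    have hup : dist (c s) (e t) ≤ b + t - s := by
      have h1 := dist_triangle (c s) (c b) (e t)
      rw [he' t ht, hc s hs b hbm (by rw [abs_le]; constructor <;> linarith [hs.2, ht.1]),
        abs_of_nonpos (by linarith [hs.2])] at h1
      linarith
    rcases le_or_gt (b + δ - π) s with h0 | h0
    · refine le_antisymm hup ?_
      have h1 := dist_triangle x₀ (c s) (e t)
      rw [hx0e t ht, hx₀, hc _ hxm s hs (by rw [abs_le]; constructor <;> linarith [hs.2]),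
        abs_of_nonpos (by linarith)] at h1
      linarith
    · rcases ht.1.eq_or_lt with ht0 | ht0
      · rw [← ht0, he0, hc s hs b hbm (by rw [abs_le]; constructor <;> linarith [hs.2]),
          abs_of_nonpos (by linarith [hs.2])]
        ring
      · have hsb : dist (c s) (c b) = b - s := by
          rw [hc s hs b hbm (by rw [abs_le]; constructor <;> linarith [hs.2]),
            abs_of_nonpos (by linarith [hs.2])]
          ring
        have hne' : c s ≠ c b := by
          intro h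
          rw [h, dist_self] at hsb
          linarith
        obtain ⟨r', hr1', hr2'⟩ := hB.ext (c s) (c b) hne'
        obtain ⟨e', he0', he1', hee'⟩ := exists_seg 𝒜 (c b) r'
        have hyr' : dist (c b) r' = π - (b - s) := by rw [hsb] at hr2'; linarith
        rw [hyr'] at he1' hee'
        have htm : t ∈ Icc (0 : ℝ) (π - (b - s)) := ⟨ht.1, by linarith⟩
        have h5 : dist (c b) (e' t) = t := by
          have h1 := hee' 0 ⟨le_refl _, by linarith [htm.2]⟩ t htm
          rw [he0', zero_sub, abs_neg, abs_of_nonneg ht.1] at h1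
          exact h1
        have h6 : dist (e' t) r' = π - (b - s) - t := by
          have h2 := hee' t htm (π - (b - s)) ⟨by linarith [htm.2], le_refl _⟩
          rw [he1', abs_of_nonpos (by linarith [htm.2])] at h2
          linarith
        have h7 : dist (c s) (e' t) = b - s + t := by
          have h3 := dist_triangle (c s) (e' t) r'
          have h4 := dist_triangle (c s) (c b) (e' t)
          rw [h5, hsb] at h4
          rw [h6, hr1'] at h3
          linarith
        have h8 : dist (c s) x₀ = b + δ - π - s := by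
          rw [hx₀, hc s hs _ hxm (by rw [abs_le]; constructor <;> linarith [hs.2]),
            abs_of_nonpos (by linarith)]
          ring
        have h9 : dist x₀ (e' t) = π - δ + t := by
          have h3 := dist_triangle (c s) x₀ (e' t)
          have h4 := dist_triangle x₀ (c b) (e' t)
          rw [h5, hxy] at h4
          rw [h7, h8] at h3
          linarith
        have h10 : e t = e' t := by
          refine hu x₀ (c b) (e t) (e' t) hne ?_ ?_ ?_ ?_
          · rw [hxy, he' t ht, hx0e t ht]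
          · rw [hxy, h5, h9]
          · rw [he' t ht, h5]
          · rw [he' t ht]
            linarith [ht.2]
        rw [h10, h7]
        ring
  classical
  refine ⟨fun s => if s ≤ b then c s else e (s - b), ?_, fun s hs => if_pos hs⟩
  intro s hs t ht hst
  have hmem : ∀ s, s ∈ Icc a (b + δ) → ¬ s ≤ b → s - b ∈ Icc (0 : ℝ) δ :=
    fun s hs h => ⟨by linarith [not_le.mp h], by linarith [hs.2]⟩
  by_cases h1 : s ≤ b
  · by_cases h2 : t ≤ b
    · simp only [if_pos h1, if_pos h2]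
      exact hc s ⟨hs.1, h1⟩ t ⟨ht.1, h2⟩ hst
    · simp only [if_pos h1, if_neg h2]
      have h3 := abs_le.mp hst
      rw [key s ⟨hs.1, h1⟩ (t - b) (hmem t ht h2) (by linarith [h3.1]),
        abs_of_nonpos (by linarith [not_le.mp h2])]
      ring
  · by_cases h2 : t ≤ b
    · simp only [if_neg h1, if_pos h2]
      have h3 := abs_le.mp hst
      rw [dist_comm, key t ⟨ht.1, h2⟩ (s - b) (hmem s hs h1) (by linarith [h3.2]),
        abs_of_nonneg (by linarith [not_le.mp h1])]
      ring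
    · simp only [if_neg h1, if_neg h2]
      rw [he (s - b) (hmem s hs h1) (t - b) (hmem t ht h2)]
      congr 1
      ring

/-- Many small extensions. -/
theorem GeoOn.extend [CompactSpace M] (𝒜 : SDist n M) (hB : Bl M) {c : ℝ → M} {a b : ℝ}
    (hab : a + π ≤ b) (hc : GeoOn c a b) (L : ℝ) :
    ∃ c' : ℝ → M, GeoOn c' a (b + L) ∧ ∀ s ≤ b, c' s = c s := by
  obtain ⟨δ, hδ, h⟩ := GeoOn.step 𝒜 hB
  have hk : ∀ k : ℕ, ∃ c' : ℝ → M, GeoOn c' a (b + k * δ) ∧ ∀ s ≤ b, c' s = c s := by
    intro k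
    induction k with
    | zero => exact ⟨c, by simpa using hc, fun s _ => rfl⟩
    | succ k ih =>
      obtain ⟨c₁, h1, h2⟩ := ih
      have h0 : 0 ≤ (k : ℝ) * δ := by positivity
      obtain ⟨c₂, h3, h4⟩ := h c₁ a (b + k * δ) (by linarith) h1
      refine ⟨c₂, ?_, fun s hs => ?_⟩
      · have e : b + k * δ + δ = b + ((k + 1 : ℕ) : ℝ) * δ := by push_cast; ring
        rw [← e]
        exact h3
      · rw [h4 s (by linarith), h2 s hs]
  obtain ⟨k, hk'⟩ := exists_nat_ge (L / δ)
  obtain ⟨c', h1, h2⟩ := hk k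
  refine ⟨c', h1.mono (le_refl _) ?_, h2⟩
  have h3 : L ≤ k * δ := (div_le_iff₀ hδ).mp hk'
  linarith

/-- A segment of length `π` through `p` and `q`. -/
theorem exists_geoOn [CompactSpace M] (𝒜 : SDist n M) (hB : Bl M) {p q : M} (h : p ≠ q) :
    ∃ c : ℝ → M, GeoOn c 0 π ∧ c 0 = p ∧ c (dist p q) = q := by
  classical
  obtain ⟨r, hr1, hr2⟩ := hB.ext p q h
  obtain ⟨e, he0, he1, he⟩ := exists_seg 𝒜 p q
  obtain ⟨e', he0', he1', he'⟩ := exists_seg 𝒜 q r
  have hqr : dist q r = π - dist p q := by linarith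
  have hd0 : 0 < dist p q := dist_pos.mpr h
  have hdπ : dist p q ≤ π := hB.diam p q
  rw [hqr] at he1' he'
  set d := dist p q with hd
  have hm : ∀ s, s ∈ Icc (0 : ℝ) π → ¬ s ≤ d → s - d ∈ Icc (0 : ℝ) (π - d) :=
    fun s hs h => ⟨by linarith [not_le.mp h], by linarith [hs.2]⟩
  have key : ∀ s ∈ Icc (0 : ℝ) d, ∀ t ∈ Icc (0 : ℝ) (π - d), dist (e s) (e' t) = d + t - s := by
    intro s hs t ht
    have h1 : dist (e s) q = d - s := by
      have h2 := he s hs d ⟨hd0.le, le_refl _⟩
      rw [he1, abs_of_nonpos (by linarith [hs.2])] at h2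
      linarith
    have h2 : dist q (e' t) = t := by
      have h3 := he' 0 ⟨le_refl _, by linarith⟩ t ht
      rw [he0', zero_sub, abs_neg, abs_of_nonneg ht.1] at h3
      exact h3
    have h3 : dist p (e s) = s := by
      have h4 := he 0 ⟨le_refl _, hd0.le⟩ s hs
      rw [he0, zero_sub, abs_neg, abs_of_nonneg hs.1] at h4
      exact h4
    have h4 : dist (e' t) r = π - d - t := by
      have h5 := he' t ht (π - d) ⟨by linarith, le_refl _⟩
      rw [he1', abs_of_nonpos (by linarith [ht.2])] at h5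
      linarith
    have h5 := dist_triangle (e s) q (e' t)
    have h6 := dist_triangle p (e s) r
    have h7 := dist_triangle (e s) (e' t) r
    refine le_antisymm (by linarith) (by linarith)
  refine ⟨fun s => if s ≤ d then e s else e' (s - d), ?_, ?_, ?_⟩
  · intro s hs t ht _
    by_cases h1 : s ≤ d
    · by_cases h2 : t ≤ d
      · simp only [if_pos h1, if_pos h2]
        exact he s ⟨hs.1, h1⟩ t ⟨ht.1, h2⟩
      · simp only [if_pos h1, if_neg h2]
        rw [key s ⟨hs.1, h1⟩ (t - d) (hm t ht h2), abs_of_nonpos (by linarith [not_le.mp h2])]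
        ring
    · by_cases h2 : t ≤ d
      · simp only [if_neg h1, if_pos h2]
        rw [dist_comm, key t ⟨ht.1, h2⟩ (s - d) (hm s hs h1),
          abs_of_nonneg (by linarith [not_le.mp h1])]
        ring
      · simp only [if_neg h1, if_neg h2]
        rw [he' (s - d) (hm s hs h1) (t - d) (hm t ht h2)]
        congr 1
        ring
  · simp only [if_pos hd0.le]
    exact he0
  · simp only [if_pos (le_refl d)]
    exact he1

theorem exists_geoOn_both [CompactSpace M] (𝒜 : SDist n M) (hB : Bl M) {p q : M} (h : p ≠ q)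
    {L : ℝ} (hL : 0 ≤ L) :
    ∃ c : ℝ → M, GeoOn c (-L) L ∧ c 0 = p ∧ c (dist p q) = q := by
  have hπ := Real.pi_pos
  obtain ⟨c, h1, h2, h3⟩ := exists_geoOn 𝒜 hB h
  obtain ⟨c₁, h4, h5⟩ := h1.extend 𝒜 hB (by linarith) L
  obtain ⟨c₂, h6, h7⟩ := h4.rev.extend 𝒜 hB (by linarith) L
  have h8 : ∀ s, 0 ≤ s → c₂ (-s) = c₁ s := by
    intro s hs
    rw [h7 (-s) (by linarith), neg_neg]
  refine ⟨fun s => c₂ (-s), ?_, ?_, ?_⟩
  · refine h6.rev.mono (by linarith) (by linarith)
  · show c₂ (-0) = p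
    rw [h8 0 (le_refl _), h5 0 hπ.le, h2]
  · show c₂ (-(dist p q)) = q
    rw [h8 _ dist_nonneg, h5 _ (hB.diam p q), h3]

theorem exists_geo [CompactSpace M] (𝒜 : SDist n M) (hB : Bl M) {p q : M} (h : p ≠ q) :
    ∃ c : ℝ → M, IsGeo c ∧ c 0 = p ∧ c (dist p q) = q := by
  have h1 := fun k : ℕ => exists_geoOn_both 𝒜 hB h (L := k) (Nat.cast_nonneg k)
  choose c hc h0 hd using h1
  set l : Ultrafilter (ℝ → M) := (Filter.hyperfilter ℕ).map c with hl
  have hlim : (l : Filter (ℝ → M)) ≤ 𝓝 l.lim := l.le_nhds_lim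
  have ht : ∀ t, Tendsto (fun k => c k t) (Filter.hyperfilter ℕ : Filter ℕ) (𝓝 (l.lim t)) := by
    intro t
    have h2 : Tendsto (fun x : ℝ → M => x t) (l : Filter (ℝ → M)) (𝓝 (l.lim t)) :=
      ((continuous_apply t).tendsto _).mono_left hlim
    exact h2
  have hev : ∀ N : ℕ, ∀ᶠ k in (Filter.hyperfilter ℕ : Filter ℕ), N ≤ k := by
    intro N
    have h2 : ∀ᶠ k in Filter.cofinite, N ≤ k := by
      rw [Nat.cofinite_eq_atTop]
      exact Filter.eventually_ge_atTop N
    exact Filter.hyperfilter_le_cofinite h2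
  refine ⟨l.lim, ?_, ?_, ?_⟩
  · intro s t hst
    obtain ⟨N, hN⟩ := exists_nat_ge (max |s| |t|)
    have h2 : Tendsto (fun k => dist (c k s) (c k t)) (Filter.hyperfilter ℕ : Filter ℕ)
        (𝓝 (dist (l.lim s) (l.lim t))) := (ht s).dist (ht t)
    have h3 : ∀ᶠ k in (Filter.hyperfilter ℕ : Filter ℕ), dist (c k s) (c k t) = |s - t| := by
      filter_upwards [hev N] with k hk
      have h4 : (N : ℝ) ≤ k := by exact_mod_cast hk
      have hs := abs_le.mp ((le_max_left _ _).trans (hN.trans h4) : |s| ≤ k)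
      have ht' := abs_le.mp ((le_max_right _ _).trans (hN.trans h4) : |t| ≤ k)
      exact hc k s ⟨hs.1, hs.2⟩ t ⟨ht'.1, ht'.2⟩ hst
    exact tendsto_nhds_unique_of_eventuallyEq h2 tendsto_const_nhds h3
  · have h2 : Tendsto (fun k => c k 0) (Filter.hyperfilter ℕ : Filter ℕ) (𝓝 p) := by
      simp only [h0]
      exact tendsto_const_nhds
    exact tendsto_nhds_unique (ht 0) h2
  · have h2 : Tendsto (fun k => c k (dist p q)) (Filter.hyperfilter ℕ : Filter ℕ) (𝓝 q) := by
      simp only [hd]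
      exact tendsto_const_nhds
    exact tendsto_nhds_unique (ht _) h2

theorem gd_spec [CompactSpace M] (𝒜 : SDist n M) (hB : Bl M) {p q : M} (h : p ≠ q) :
    IsGeo (gd p q) ∧ gd p q 0 = p ∧ gd p q (dist p q) = q := by
  have e := exists_geo 𝒜 hB h
  unfold gd
  rw [dif_pos e]
  exact e.choose_spec

theorem gd_eq [CompactSpace M] (𝒜 : SDist n M) {c : ℝ → M} (hc : IsGeo c) {s t : ℝ} (h0 : 0 < t) (ht : t < π) :
    gd (c s) (c (s + t)) = fun r => c (s + r) := by
  have hd : dist (c s) (c (s + t)) = t := by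
    have h1 := hc s (s + t) (by rw [abs_le]; constructor <;> linarith)
    rw [h1, abs_of_nonpos (by linarith)]
    ring
  have hg : IsGeo fun r => c (s + r) := by
    have h1 := hc.shift s
    have h2 : (fun r => c (s + r)) = fun r => c (r + s) := by
      funext r
      rw [add_comm]
    rw [h2]
    exact h1
  have e : ∃ c' : ℝ → M, IsGeo c' ∧ c' 0 = c s ∧ c' (dist (c s) (c (s + t))) = c (s + t) :=
    ⟨fun r => c (s + r), hg, by simp, by rw [hd]⟩
  have h1 : IsGeo (gd (c s) (c (s + t))) ∧ gd (c s) (c (s + t)) 0 = c s ∧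
      gd (c s) (c (s + t)) (dist (c s) (c (s + t))) = c (s + t) := by
    unfold gd
    rw [dif_pos e]
    exact e.choose_spec
  refine IsGeo.unique 𝒜 h1.1 hg (a := 0) (b := t) h0.ne ?_ ?_ ?_
  · rw [zero_sub, abs_neg, abs_of_pos h0]
    exact ht
  · rw [h1.2.1, add_zero]
  · have h3 := h1.2.2
    rw [hd] at h3
    exact h3

/-- the geodesic through two points depends continuously on them -/
theorem continuousOn_gd [CompactSpace M] (𝒜 : SDist n M) (hB : Bl M) :
    ContinuousOn (fun z : (M × M) × ℝ => gd z.1.1 z.1.2 z.2)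
      {z | 0 < dist z.1.1 z.1.2 ∧ dist z.1.1 z.1.2 < π} := by
  classical
  set S : Set ((M × M) × ℝ) := {z | 0 < dist z.1.1 z.1.2 ∧ dist z.1.1 z.1.2 < π} with hS
  rintro ⟨⟨p, q⟩, r⟩ hz
  have hz1 : 0 < dist p q := hz.1
  have hz2 : dist p q < π := hz.2
  have hpq : p ≠ q := dist_pos.mp hz1
  have hgs : ∀ z ∈ S, IsGeo (gd z.1.1 z.1.2) ∧ gd z.1.1 z.1.2 0 = z.1.1 ∧
      gd z.1.1 z.1.2 (dist z.1.1 z.1.2) = z.1.2 :=
    fun z hz => gd_spec 𝒜 hB (dist_pos.mp hz.1)
  rw [ContinuousWithinAt, Filter.tendsto_iff_ultrafilter]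
  intro l hl
  have hlS : S ∈ (l : Filter ((M × M) × ℝ)) := hl self_mem_nhdsWithin
  have hln : (l : Filter ((M × M) × ℝ)) ≤ 𝓝 ((p, q), r) := hl.trans nhdsWithin_le_nhds
  set c : (M × M) × ℝ → ℝ → M := fun z => if z ∈ S then gd z.1.1 z.1.2 else gd p q with hc
  have hcS : ∀ z ∈ S, c z = gd z.1.1 z.1.2 := fun z hz => if_pos hz
  have hcg : ∀ z, IsGeo (c z) := by
    intro z
    by_cases h : z ∈ S
    · rw [hcS z h]
      exact (hgs z h).1
    · rw [hc]
      simp only [if_neg h]
      exact (gd_spec 𝒜 hB hpq).1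
  obtain ⟨c', hc'g, hc'⟩ := exists_limit_geo l c hcg
  have t1 : Tendsto (fun z : (M × M) × ℝ => z.1.1) (l : Filter ((M × M) × ℝ)) (𝓝 p) :=
    ((continuous_fst.fst).tendsto ((p, q), r)).mono_left hln
  have t2 : Tendsto (fun z : (M × M) × ℝ => z.1.2) (l : Filter ((M × M) × ℝ)) (𝓝 q) :=
    ((continuous_fst.snd).tendsto ((p, q), r)).mono_left hln
  have t3 : Tendsto (fun z : (M × M) × ℝ => z.2) (l : Filter ((M × M) × ℝ)) (𝓝 r) :=
    ((continuous_snd).tendsto ((p, q), r)).mono_left hln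
  -- a general fact: moving times
  have hmove : ∀ (a : (M × M) × ℝ → ℝ) (a₀ : ℝ), Tendsto a (l : Filter ((M × M) × ℝ)) (𝓝 a₀) →
      Tendsto (fun z => c z (a z)) (l : Filter ((M × M) × ℝ)) (𝓝 (c' a₀)) := by
    intro a a₀ ha
    rw [tendsto_iff_dist_tendsto_zero]
    have h1 : Tendsto (fun z => |a z - a₀| + dist (c z a₀) (c' a₀)) (l : Filter ((M × M) × ℝ))
        (𝓝 (|a₀ - a₀| + dist (c' a₀) (c' a₀))) :=
      ((ha.sub tendsto_const_nhds).abs).add ((hc' a₀).dist tendsto_const_nhds)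
    rw [sub_self, abs_zero, dist_self, add_zero] at h1
    refine squeeze_zero (fun _ => dist_nonneg) (fun z => ?_) h1
    exact (dist_triangle _ (c z a₀) _).trans (add_le_add ((hcg z).dist_le _ _) (le_refl _))
  have h0 : c' 0 = p := by
    refine tendsto_nhds_unique (hc' 0) (t1.congr' ?_)
    filter_upwards [hlS] with z hz
    rw [hcS z hz, (hgs z hz).2.1]
  have h1 : c' (dist p q) = q := by
    have h2 := hmove (fun z => dist z.1.1 z.1.2) (dist p q) (t1.dist t2)
    refine tendsto_nhds_unique h2 (t2.congr' ?_)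
    filter_upwards [hlS] with z hz
    rw [hcS z hz, (hgs z hz).2.2]
  have h2 : c' = gd p q := by
    have h3 := gd_spec 𝒜 hB hpq
    refine IsGeo.unique 𝒜 hc'g h3.1 (a := 0) (b := dist p q) hz1.ne ?_ ?_ ?_
    · rw [zero_sub, abs_neg, abs_of_pos hz1]
      exact hz2
    · rw [h0, h3.2.1]
    · rw [h1, h3.2.2]
  have h3 := hmove (fun z => z.2) r t3
  rw [h2] at h3
  refine h3.congr' ?_
  filter_upwards [hlS] with z hz
  rw [hcS z hz]

end Pool.Agent.Lib.MP_ccbbf6_gt.Geo
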