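import Pool.Agent.Lib.MP_ccbbf6_gt.ML

/-!
# HHa: mixed third derivatives (for hasDerivAt_H)
-/

set_option autoImplicit false
set_option maxSynthPendingDepth 3

open Set Filter Topology Metric Real
open scoped ContDiff RealInnerProductSpace

namespace Pool.Agent.Lib.MP_ccbbf6_gt.Geo

section Abstract

variable {E F : Type*} [NormedAddCommGroup E] [NormedSpace ℝ E] [NormedAddCommGroup F] [NormedSpace ℝ F]

/-- derivative in the first variable -/
lemma hh_left {G : Type*} [NormedAddCommGroup G] [NormedSpace ℝ G] {g : E × F → G} {u : E} {v : F}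
    (h : DifferentiableAt ℝ g (u, v)) :
    HasFDerivAt (fun u => g (u, v)) ((fderiv ℝ g (u, v)).comp (ContinuousLinearMap.inl ℝ E F)) u := by
  have h2 : HasFDerivAt (fun u : E => ((u, v) : E × F)) (ContinuousLinearMap.inl ℝ E F) u :=
    hasFDerivAt_prodMk_left _ _
  exact HasFDerivAt.comp u (f := fun u : E => ((u, v) : E × F)) h.hasFDerivAt h2

/-- derivative in the second variable -/
lemma hh_right {G : Type*} [NormedAddCommGroup G] [NormedSpace ℝ G] {g : E × F → G} {u : E} {v : F}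
    (h : DifferentiableAt ℝ g (u, v)) :
    HasFDerivAt (fun v => g (u, v)) ((fderiv ℝ g (u, v)).comp (ContinuousLinearMap.inr ℝ E F)) v := by
  have h2 : HasFDerivAt (fun v : F => ((u, v) : E × F)) (ContinuousLinearMap.inr ℝ E F) v :=
    hasFDerivAt_prodMk_right _ _
  exact HasFDerivAt.comp v (f := fun v : F => ((u, v) : E × F)) h.hasFDerivAt h2

/-- apply a differentiable family of linear maps to a fixed vector -/
lemma hh_apply {G : Type*} [NormedAddCommGroup G] [NormedSpace ℝ G] {N : E → F →L[ℝ] G}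
    {N' : E →L[ℝ] F →L[ℝ] G} {u : E} (h : HasFDerivAt N N' u) (b : F) :
    HasFDerivAt (fun u => N u b) (N'.flip b) u := by
  have := h.clm_apply (hasFDerivAt_const b u)
  refine this.congr_fderiv ?_
  ext w
  simp

variable {g : E × F → ℝ}

/-- second derivative in the first variable -/
lemma hh_left2 {v : F} {u : E} (h : ContDiffAt ℝ 2 g (u, v)) (a b : E) :
    fderiv ℝ (fun u => fderiv ℝ (fun u' => g (u', v)) u) u a b
      = fderiv ℝ (fderiv ℝ g) (u, v) (a, 0) (b, 0) := by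
  have h1 : ∀ᶠ z in 𝓝 (u, v), ContDiffAt ℝ 2 g z := h.eventually (by norm_num)
  have h2 : ∀ᶠ u' in 𝓝 u, ContDiffAt ℝ 2 g (u', v) := by
    have hc : ContinuousAt (fun u' : E => ((u', v) : E × F)) u := by fun_prop
    exact hc.eventually h1
  have h3 : (fun u => fderiv ℝ (fun u' => g (u', v)) u) =ᶠ[𝓝 u]
      fun u => (fderiv ℝ g (u, v)).comp (ContinuousLinearMap.inl ℝ E F) := by
    filter_upwards [h2] with u' hu'
    exact (hh_left (hu'.differentiableAt two_ne_zero)).fderiv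
  have h4 : DifferentiableAt ℝ (fderiv ℝ g) (u, v) :=
    (h.fderiv_right (m := 1) (by norm_num)).differentiableAt one_ne_zero
  have h5 := hh_left h4
  have h6 := ((ContinuousLinearMap.compL ℝ E (E × F) ℝ).flip
    (ContinuousLinearMap.inl ℝ E F)).hasFDerivAt (x := fderiv ℝ g (u, v))
  have h7 := HasFDerivAt.comp u h6 h5
  have h8 := (h7.congr_of_eventuallyEq h3).fderiv
  rw [h8]
  simp

/-- mixed second derivative -/
lemma hh_mixed {v : F} {u : E} (h : ContDiffAt ℝ 2 g (u, v)) (a : E) (b : F) :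
    fderiv ℝ (fun u => fderiv ℝ (fun v' => g (u, v')) v) u a b
      = fderiv ℝ (fderiv ℝ g) (u, v) (a, 0) (0, b) := by
  have h1 : ∀ᶠ z in 𝓝 (u, v), ContDiffAt ℝ 2 g z := h.eventually (by norm_num)
  have h2 : ∀ᶠ u' in 𝓝 u, ContDiffAt ℝ 2 g (u', v) := by
    have hc : ContinuousAt (fun u' : E => ((u', v) : E × F)) u := by fun_prop
    exact hc.eventually h1
  have h3 : (fun u => fderiv ℝ (fun v' => g (u, v')) v) =ᶠ[𝓝 u]
      fun u => (fderiv ℝ g (u, v)).comp (ContinuousLinearMap.inr ℝ E F) := by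
    filter_upwards [h2] with u' hu'
    exact (hh_right (hu'.differentiableAt two_ne_zero)).fderiv
  have h4 : DifferentiableAt ℝ (fderiv ℝ g) (u, v) :=
    (h.fderiv_right (m := 1) (by norm_num)).differentiableAt one_ne_zero
  have h5 := hh_left h4
  have h6 := ((ContinuousLinearMap.compL ℝ F (E × F) ℝ).flip
    (ContinuousLinearMap.inr ℝ E F)).hasFDerivAt (x := fderiv ℝ g (u, v))
  have h7 := HasFDerivAt.comp u h6 h5
  have h8 := (h7.congr_of_eventuallyEq h3).fderiv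
  rw [h8]
  simp

/-- symmetry of the third derivative -/
lemma hh_symm3 {z : E × F} (h : ContDiffAt ℝ 3 g z) (a b w : E × F) :
    fderiv ℝ (fderiv ℝ (fderiv ℝ g)) z w a b = fderiv ℝ (fderiv ℝ (fderiv ℝ g)) z a b w := by
  have h1 : ContDiffAt ℝ 2 (fderiv ℝ g) z := h.fderiv_right (m := 2) (by norm_num)
  have h2 : fderiv ℝ (fderiv ℝ (fderiv ℝ g)) z w a = fderiv ℝ (fderiv ℝ (fderiv ℝ g)) z a w :=
    (h1.isSymmSndFDerivAt (by simp)) _ _
  rw [h2]
  have h3 : ∀ᶠ y in 𝓝 z, ContDiffAt ℝ 3 g y := h.eventually (by norm_num)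
  have h4 : DifferentiableAt ℝ (fderiv ℝ (fderiv ℝ g)) z :=
    (h1.fderiv_right (m := 1) (by norm_num)).differentiableAt one_ne_zero
  have h5 : ∀ c d : E × F, HasFDerivAt (fun y => fderiv ℝ (fderiv ℝ g) y c d)
      (((fderiv ℝ (fderiv ℝ (fderiv ℝ g)) z).flip c).flip d) z :=
    fun c d => hh_apply (hh_apply h4.hasFDerivAt c) d
  have h6 : (fun y => fderiv ℝ (fderiv ℝ g) y w b) =ᶠ[𝓝 z]
      fun y => fderiv ℝ (fderiv ℝ g) y b w := by
    filter_upwards [h3] with y hy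
    have hy2 : ContDiffAt ℝ 2 g y := hy.of_le (by norm_num)
    exact (hy2.isSymmSndFDerivAt (by simp)) _ _
  have h7 := (h5 w b).unique ((h5 b w).congr_of_eventuallyEq h6)
  have h8 := congrArg (fun L : E × F →L[ℝ] ℝ => L a) h7
  simpa using h8

/-- **Differentiated eikonal equation**, abstract form. -/
theorem hh_main {ι : Type*} [Fintype ι] {g : E × F → ℝ} {u0 : E} {v0 : F}
    (h : ContDiffAt ℝ 3 g (u0, v0)) (e : ι → F)
    (heik : ∀ᶠ u in 𝓝 u0, ∑ j, (fderiv ℝ (fun v => g (u, v)) v0 (e j)) ^ 2 = 1)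
    {γ : ℝ → F} {t : ℝ} {w : F} (hγ0 : γ t = v0) (hγ : HasDerivAt γ w t) {σ : ℝ}
    (hw : w = σ • ∑ j, (fderiv ℝ (fun v => g (u0, v)) v0 (e j)) • e j) (a b : E) :
    HasDerivAt (fun x => fderiv ℝ (fun u => fderiv ℝ (fun u' => g (u', γ x)) u) u0 a b)
      (-σ * ∑ j, fderiv ℝ (fun u => fderiv ℝ (fun v => g (u, v)) v0) u0 a (e j) *
        fderiv ℝ (fun u => fderiv ℝ (fun v => g (u, v)) v0) u0 b (e j)) t := by
  have h3 : ∀ᶠ y in 𝓝 (u0, v0), ContDiffAt ℝ 3 g y := h.eventually (by norm_num)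
  have h1 : ContDiffAt ℝ 2 (fderiv ℝ g) (u0, v0) := h.fderiv_right (m := 2) (by norm_num)
  have h4 : DifferentiableAt ℝ (fderiv ℝ (fderiv ℝ g)) (u0, v0) :=
    (h1.fderiv_right (m := 1) (by norm_num)).differentiableAt one_ne_zero
  obtain ⟨T, hT⟩ : ∃ T, T = fderiv ℝ (fderiv ℝ (fderiv ℝ g)) (u0, v0) := ⟨_, rfl⟩
  obtain ⟨D, hD⟩ : ∃ D, D = fderiv ℝ (fderiv ℝ g) (u0, v0) := ⟨_, rfl⟩
  have h5 : ∀ c d : E × F, HasFDerivAt (fun y => fderiv ℝ (fderiv ℝ g) y c d)
      ((T.flip c).flip d) (u0, v0) := by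
    intro c d
    rw [hT]
    exact hh_apply (hh_apply h4.hasFDerivAt c) d
  -- the left-hand side
  have h6 : HasDerivAt (fun x => fderiv ℝ (fderiv ℝ g) (u0, γ x) (a, 0) (b, 0))
      (T (0, w) (a, 0) (b, 0)) t := by
    have h7 : HasDerivAt (fun x => ((u0, γ x) : E × F)) (0, w) t :=
      (hasDerivAt_const t u0).prodMk hγ
    have h8 : HasFDerivAt (fun y => fderiv ℝ (fderiv ℝ g) y (a, 0) (b, 0))
      ((T.flip (a, 0)).flip (b, 0)) ((fun x => ((u0, γ x) : E × F)) t) := by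
      simp only [hγ0]
      exact h5 (a, 0) (b, 0)
    exact HasFDerivAt.comp_hasDerivAt t h8 h7
  have h7 : (fun x => fderiv ℝ (fun u => fderiv ℝ (fun u' => g (u', γ x)) u) u0 a b) =ᶠ[𝓝 t]
      (fun x => fderiv ℝ (fderiv ℝ g) (u0, γ x) (a, 0) (b, 0)) := by
    have hc : ContinuousAt (fun x => ((u0, γ x) : E × F)) t :=
      continuousAt_const.prodMk hγ.continuousAt
    have h8 : ∀ᶠ x in 𝓝 t, ContDiffAt ℝ 3 g (u0, γ x) := by
      apply hc.eventually
      simp only [hγ0]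
      exact h3
    filter_upwards [h8] with x hx
    exact hh_left2 (hx.of_le (by norm_num)) a b
  refine (h6.congr_of_eventuallyEq h7).congr_deriv ?_
  -- the eikonal equation
  have hc1 : ContinuousAt (fun u => ((u, v0) : E × F)) u0 := by fun_prop
  have h8 : ∀ᶠ u in 𝓝 u0, ContDiffAt ℝ 3 g (u, v0) := hc1.eventually h3
  have h9 : ∀ᶠ u in 𝓝 u0, ∑ j, (fderiv ℝ g (u, v0) (0, e j)) ^ 2 = 1 := by
    filter_upwards [h8, heik] with u hu hu'
    rw [(hh_right (hu.differentiableAt (by norm_num))).fderiv] at hu'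
    simpa using hu'
  -- first derivative
  have h10 : ∀ᶠ u in 𝓝 u0, ∑ j, 2 * (fderiv ℝ g (u, v0) (0, e j) *
      fderiv ℝ (fderiv ℝ g) (u, v0) (a, 0) (0, e j)) = 0 := by
    filter_upwards [h8, h9.eventually_nhds] with u hu hu'
    have k1 : DifferentiableAt ℝ (fderiv ℝ g) (u, v0) :=
      (hu.fderiv_right (m := 2) (by norm_num)).differentiableAt two_ne_zero
    have k2 := hh_left k1
    have k3 : ∀ j, HasFDerivAt (fun u => fderiv ℝ g (u, v0) (0, e j))
        (((fderiv ℝ (fderiv ℝ g) (u, v0)).comp (ContinuousLinearMap.inl ℝ E F)).flip (0, e j)) u :=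
      fun j => hh_apply k2 (0, e j)
    have k4 : HasFDerivAt (fun u => ∑ j, (fderiv ℝ g (u, v0) (0, e j)) ^ 2)
        (∑ j, (2 * fderiv ℝ g (u, v0) (0, e j)) •
        (((fderiv ℝ (fderiv ℝ g) (u, v0)).comp (ContinuousLinearMap.inl ℝ E F)).flip (0, e j))) u := by
      refine HasFDerivAt.fun_sum fun j _ => ?_
      have := (k3 j).pow 2
      simpa using this
    have k5 : HasFDerivAt (fun u => ∑ j, (fderiv ℝ g (u, v0) (0, e j)) ^ 2) (0 : E →L[ℝ] ℝ) u :=
      (hasFDerivAt_const (1 : ℝ) u).congr_of_eventuallyEq hu'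
    have k6 := congrArg (fun L : E →L[ℝ] ℝ => L a) (k4.unique k5)
    simp only [_root_.sum_apply, _root_.smul_apply, smul_eq_mul,
      ContinuousLinearMap.flip_apply, ContinuousLinearMap.comp_apply, ContinuousLinearMap.inl_apply,
      _root_.zero_apply] at k6
    rw [← k6]
    refine Finset.sum_congr rfl fun j _ => ?_
    ring
  -- second derivative
  have h11 : ∑ j, 2 * (D (b, 0) (0, e j) * D (a, 0) (0, e j) +
      fderiv ℝ g (u0, v0) (0, e j) * T (b, 0) (a, 0) (0, e j)) = 0 := by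
    have k1 : DifferentiableAt ℝ (fderiv ℝ g) (u0, v0) := h1.differentiableAt two_ne_zero
    have k2 := hh_left k1
    have k3 : ∀ j, HasFDerivAt (fun u => fderiv ℝ g (u, v0) (0, e j))
        (((fderiv ℝ (fderiv ℝ g) (u0, v0)).comp (ContinuousLinearMap.inl ℝ E F)).flip (0, e j)) u0 :=
      fun j => hh_apply k2 (0, e j)
    have k4 : ∀ j, HasFDerivAt (fun u => fderiv ℝ (fderiv ℝ g) (u, v0) (a, 0) (0, e j))
        ((((T.comp (ContinuousLinearMap.inl ℝ E F)).flip (a, 0))).flip (0, e j)) u0 := by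
      intro j
      rw [hT]
      exact hh_apply (hh_apply (hh_left h4) (a, 0)) (0, e j)
    have k5 := HasFDerivAt.fun_sum (u := Finset.univ) fun j _ =>
      ((k3 j).mul (k4 j)).const_mul (2 : ℝ)
    have k6 : HasFDerivAt (fun u => ∑ j, 2 * (fderiv ℝ g (u, v0) (0, e j) *
      fderiv ℝ (fderiv ℝ g) (u, v0) (a, 0) (0, e j))) (0 : E →L[ℝ] ℝ) u0 :=
      (hasFDerivAt_const (0 : ℝ) u0).congr_of_eventuallyEq h10
    have k7 := congrArg (fun L : E →L[ℝ] ℝ => L b) (k5.unique k6)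
    simp only [_root_.sum_apply, _root_.smul_apply, smul_eq_mul,
      ContinuousLinearMap.flip_apply, ContinuousLinearMap.comp_apply, ContinuousLinearMap.inl_apply,
      _root_.zero_apply, _root_.add_apply] at k7
    rw [← k7, hD]
    refine Finset.sum_congr rfl fun j _ => ?_
    ring
  -- conclusion
  have h12 : ∀ j, fderiv ℝ (fun v => g (u0, v)) v0 (e j) = fderiv ℝ g (u0, v0) (0, e j) := by
    intro j
    rw [(hh_right (h.differentiableAt (by norm_num))).fderiv]
    simp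
  have h13 : ∀ (c : E) (j : ι), fderiv ℝ (fun u => fderiv ℝ (fun v => g (u, v)) v0) u0 c (e j)
      = D (c, 0) (0, e j) := by
    intro c j
    rw [hD]
    exact hh_mixed (h.of_le (by norm_num)) c (e j)
  simp only [h12] at hw
  simp only [h13]
  have h14 : T (0, w) (a, 0) (b, 0) = T (b, 0) (a, 0) (0, w) := by
    rw [hT, hh_symm3 h (a, 0) (b, 0) (0, w)]
    have h15 : fderiv ℝ (fderiv ℝ (fderiv ℝ g)) (u0, v0) (a, 0) (b, 0) =
      fderiv ℝ (fderiv ℝ (fderiv ℝ g)) (u0, v0) (b, 0) (a, 0) :=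
      (h1.isSymmSndFDerivAt (by simp)) _ _
    rw [h15]
  have h16 : T (b, 0) (a, 0) (0, w) =
      σ * ∑ j, fderiv ℝ g (u0, v0) (0, e j) * T (b, 0) (a, 0) (0, e j) := by
    have h17 : ((0, w) : E × F) = σ • ∑ j, (fderiv ℝ g (u0, v0) (0, e j)) • ((0, e j) : E × F) := by
      rw [hw]
      ext
      · simp [Prod.fst_sum]
      · simp [Prod.snd_sum]
    rw [h17, map_smul, map_sum]
    simp only [map_smul, smul_eq_mul]
  rw [h14, h16]
  simp only [mul_add, Finset.sum_add_distrib, ← Finset.mul_sum] at h11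
  have h18 : ∑ j, fderiv ℝ g (u0, v0) (0, e j) * T (b, 0) (a, 0) (0, e j)
      = -∑ j, D (a, 0) (0, e j) * D (b, 0) (0, e j) := by
    have h19 : ∑ j, D (a, 0) (0, e j) * D (b, 0) (0, e j) =
        ∑ j, D (b, 0) (0, e j) * D (a, 0) (0, e j) :=
      Finset.sum_congr rfl fun j _ => mul_comm _ _
    rw [h19]
    linarith
  rw [h18]
  ring

end Abstract

end Pool.Agent.Lib.MP_ccbbf6_gt.Geo
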