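import Pool.Agent.Lib.MP_ccbbf6_gt.ML

/-!
# KAa: the index of a nondegenerate symmetric form is locally constant
-/

set_option autoImplicit false

open Set Filter Topology Metric Real
open scoped RealInnerProductSpace

noncomputable section

namespace Pool.Agent.Lib.MP_ccbbf6_gt.Geo

section Index

variable {E : Type*} [NormedAddCommGroup E] [InnerProductSpace ℝ E] [FiniteDimensional ℝ E]

/-- bilinear forms -/
abbrev Bil (E : Type*) [NormedAddCommGroup E] [InnerProductSpace ℝ E] := E →L[ℝ] E →L[ℝ] ℝ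

def NegOn (A : Bil E) (W : Submodule ℝ E) : Prop := ∀ w ∈ W, w ≠ 0 → A w w < 0

def PosOn (A : Bil E) (W : Submodule ℝ E) : Prop := ∀ w ∈ W, w ≠ 0 → 0 < A w w

def HasInd (A : Bil E) (k : ℕ) : Prop :=
  ∃ W W' : Submodule ℝ E, NegOn A W ∧ PosOn A W' ∧ Module.finrank ℝ W = k ∧
    Module.finrank ℝ W + Module.finrank ℝ W' = Module.finrank ℝ E

theorem NegOn.add_le {A : Bil E} {W W' : Submodule ℝ E} (h : NegOn A W) (h' : PosOn A W') :
    Module.finrank ℝ W + Module.finrank ℝ W' ≤ Module.finrank ℝ E := by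
  refine Submodule.finrank_add_finrank_le_of_disjoint ?_
  rw [Submodule.disjoint_def]
  intro x hx hx'
  by_contra h0
  exact absurd (h x hx h0) (not_lt.2 (h' x hx' h0).le)

theorem HasInd.unique {A : Bil E} {k k' : ℕ} (h : HasInd A k) (h' : HasInd A k') : k = k' := by
  obtain ⟨W, W', h1, h2, h3, h4⟩ := h
  obtain ⟨V, V', g1, g2, g3, g4⟩ := h'
  have a1 := h1.add_le g2
  have a2 := g1.add_le h2
  omega

/-- lower bound on the unit sphere -/
theorem PosOn.exists_bound {A : Bil E} {W : Submodule ℝ E} (h : PosOn A W) :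
    ∃ c : ℝ, 0 < c ∧ ∀ w ∈ W, c * ‖w‖ ^ 2 ≤ A w w := by
  by_cases hW : ∃ w ∈ W, w ≠ 0
  · have hcont : Continuous (fun w : E => A w w) := by fun_prop
    have hcomp : IsCompact ((W : Set E) ∩ sphere 0 1) :=
      (isCompact_sphere 0 1).inter_left W.closed_of_finiteDimensional
    obtain ⟨w0, hw0, hw0'⟩ := hW
    have hne : ((W : Set E) ∩ sphere 0 1).Nonempty := by
      refine ⟨‖w0‖⁻¹ • w0, W.smul_mem _ hw0, ?_⟩
      rw [mem_sphere_zero_iff_norm, norm_smul, norm_inv, norm_norm]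
      exact inv_mul_cancel₀ (norm_ne_zero_iff.2 hw0')
    obtain ⟨m, hm, hmin⟩ := hcomp.exists_isMinOn hne hcont.continuousOn
    have hm0 : m ≠ 0 := by
      intro h0
      have := mem_sphere_zero_iff_norm.1 hm.2
      rw [h0, norm_zero] at this
      exact zero_ne_one this
    refine ⟨A m m, h m hm.1 hm0, fun w hw => ?_⟩
    by_cases hw0 : w = 0
    · rw [hw0]; simp
    · have hn : ‖w‖ ≠ 0 := norm_ne_zero_iff.2 hw0
      have hmem : ‖w‖⁻¹ • w ∈ (W : Set E) ∩ sphere 0 1 := by
        refine ⟨W.smul_mem _ hw, ?_⟩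
        rw [mem_sphere_zero_iff_norm, norm_smul, norm_inv, norm_norm]
        exact inv_mul_cancel₀ hn
      have h1 : A m m ≤ A (‖w‖⁻¹ • w) (‖w‖⁻¹ • w) := hmin hmem
      have h2 : A (‖w‖⁻¹ • w) (‖w‖⁻¹ • w) = ‖w‖⁻¹ ^ 2 * A w w := by
        simp only [map_smul, smul_apply, smul_eq_mul]
        ring
      rw [h2] at h1
      have h3 : 0 < ‖w‖ ^ 2 := by positivity
      calc A m m * ‖w‖ ^ 2 ≤ (‖w‖⁻¹ ^ 2 * A w w) * ‖w‖ ^ 2 := mul_le_mul_of_nonneg_right h1 h3.le
        _ = A w w := by field_simp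
  · refine ⟨1, one_pos, fun w hw => ?_⟩
    have : w = 0 := by
      by_contra h0
      exact hW ⟨w, hw, h0⟩
    rw [this]; simp

theorem bil_diag_le {A B : Bil E} {δ : ℝ}
    (h : ∀ i j, |B (stdOrthonormalBasis ℝ E i) (stdOrthonormalBasis ℝ E j)
      - A (stdOrthonormalBasis ℝ E i) (stdOrthonormalBasis ℝ E j)| ≤ δ) (w : E) :
    |B w w - A w w| ≤ (Module.finrank ℝ E : ℝ) ^ 2 * δ * ‖w‖ ^ 2 := by
  set b := stdOrthonormalBasis ℝ E
  have hw : w = ∑ i, ⟪b i, w⟫ • b i := (b.sum_repr' w).symm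
  have hexp : ∀ C : Bil E, C w w = ∑ i, ∑ j, ⟪b i, w⟫ * (⟪b j, w⟫ * C (b i) (b j)) := by
    intro C
    have h1 : C w w = C (∑ i, ⟪b i, w⟫ • b i) (∑ j, ⟪b j, w⟫ • b j) := by rw [← hw]
    rw [h1]
    simp only [map_sum, map_smul, FunLike.coe_sum, Finset.sum_apply, smul_apply, smul_eq_mul,
      Finset.mul_sum]
    rw [Finset.sum_comm]
    refine Finset.sum_congr rfl (fun i _ => Finset.sum_congr rfl (fun j _ => ?_))
    ring
  have hc : ∀ i, |⟪b i, w⟫| ≤ ‖w‖ := by
    intro i
    have := abs_real_inner_le_norm (b i) w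
    rwa [b.norm_eq_one, one_mul] at this
  rw [hexp, hexp, ← Finset.sum_sub_distrib]
  calc |∑ i, ((∑ j, ⟪b i, w⟫ * (⟪b j, w⟫ * B (b i) (b j))) - ∑ j, ⟪b i, w⟫ * (⟪b j, w⟫ * A (b i) (b j)))|
      ≤ ∑ i : Fin (Module.finrank ℝ E), ∑ j : Fin (Module.finrank ℝ E), ‖w‖ * (‖w‖ * δ) := by
        refine (Finset.abs_sum_le_sum_abs _ _).trans (Finset.sum_le_sum fun i _ => ?_)
        rw [← Finset.sum_sub_distrib]
        refine (Finset.abs_sum_le_sum_abs _ _).trans (Finset.sum_le_sum fun j _ => ?_)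
        have e : ⟪b i, w⟫ * (⟪b j, w⟫ * B (b i) (b j)) - ⟪b i, w⟫ * (⟪b j, w⟫ * A (b i) (b j))
            = ⟪b i, w⟫ * (⟪b j, w⟫ * (B (b i) (b j) - A (b i) (b j))) := by ring
        rw [e, abs_mul, abs_mul]
        have := h i j
        gcongr
        · exact hc i
        · exact hc j
    _ = (Module.finrank ℝ E : ℝ) ^ 2 * δ * ‖w‖ ^ 2 := by
        simp only [Finset.sum_const, Finset.card_univ, Fintype.card_fin, nsmul_eq_mul]
        ring

/-- entrywise convergence of forms -/
def TendB {Z : Type*} (A : Z → Bil E) (l : Filter Z) (A0 : Bil E) : Prop :=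
  ∀ a b, Tendsto (fun z => A z a b) l (𝓝 (A0 a b))

theorem PosOn.eventually {Z : Type*} {l : Filter Z} {A : Z → Bil E} {A0 : Bil E} (hA : TendB A l A0)
    {W : Submodule ℝ E} (h : PosOn A0 W) : ∀ᶠ z in l, PosOn (A z) W := by
  obtain ⟨c, hc, hb⟩ := h.exists_bound
  set N : ℝ := (Module.finrank ℝ E : ℝ) ^ 2 with hN
  have hN0 : 0 ≤ N := by positivity
  set δ : ℝ := c / (2 * (N + 1)) with hδ
  have hδ0 : 0 < δ := by positivity
  have h1 : ∀ᶠ z in l, ∀ i j, |A z (stdOrthonormalBasis ℝ E i) (stdOrthonormalBasis ℝ E j)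
      - A0 (stdOrthonormalBasis ℝ E i) (stdOrthonormalBasis ℝ E j)| ≤ δ := by
    rw [eventually_all]
    intro i
    rw [eventually_all]
    intro j
    have := (tendsto_iff_dist_tendsto_zero.1 (hA (stdOrthonormalBasis ℝ E i) (stdOrthonormalBasis ℝ E j))).eventually
      (ge_mem_nhds hδ0)
    filter_upwards [this] with z hz
    rwa [Real.dist_eq] at hz
  filter_upwards [h1] with z hz w hw hw0
  have h2 := (abs_le.1 (bil_diag_le hz w)).1
  have h3 := hb w hw
  have h4 : 0 < ‖w‖ ^ 2 := by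
    have := norm_pos_iff.2 hw0
    positivity
  have h5 : N * δ < c := by
    rw [hδ, mul_div_assoc', div_lt_iff₀ (by positivity)]
    nlinarith
  have h6 : N * δ * ‖w‖ ^ 2 < c * ‖w‖ ^ 2 := mul_lt_mul_of_pos_right h5 h4
  linarith

theorem negOn_iff {A : Bil E} {W : Submodule ℝ E} : NegOn A W ↔ PosOn (-A) W := by
  unfold NegOn PosOn
  simp only [neg_apply, neg_pos]

theorem NegOn.eventually {Z : Type*} {l : Filter Z} {A : Z → Bil E} {A0 : Bil E} (hA : TendB A l A0)
    {W : Submodule ℝ E} (h : NegOn A0 W) : ∀ᶠ z in l, NegOn (A z) W := by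
  have hA' : TendB (fun z => -A z) l (-A0) := fun a b => (hA a b).neg
  have := PosOn.eventually hA' (negOn_iff.1 h)
  filter_upwards [this] with z hz
  exact negOn_iff.2 hz

theorem HasInd.eventually {Z : Type*} {l : Filter Z} {A : Z → Bil E} {A0 : Bil E} (hA : TendB A l A0)
    {k : ℕ} (h : HasInd A0 k) : ∀ᶠ z in l, HasInd (A z) k := by
  obtain ⟨W, W', h1, h2, h3, h4⟩ := h
  filter_upwards [h1.eventually hA, h2.eventually hA] with z hz hz'
  exact ⟨W, W', hz, hz', h3, h4⟩

/-- the spectral theorem for forms -/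
theorem exists_hasInd {A : Bil E} (hs : ∀ a b, A a b = A b a) (hn : ∀ a, (∀ b, A a b = 0) → a = 0) :
    ∃ k, HasInd A k := by
  classical
  -- the operator
  let T : E →L[ℝ] E := (InnerProductSpace.toDual ℝ E).symm.toContinuousLinearEquiv.toContinuousLinearMap.comp A
  have hT : ∀ a b, ⟪T a, b⟫ = A a b := by
    intro a b
    simp only [T, ContinuousLinearMap.comp_apply]
    exact InnerProductSpace.toDual_symm_apply
  have hsym : (T : E →ₗ[ℝ] E).IsSymmetric := by
    intro a b
    simp only [ContinuousLinearMap.coe_coe]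
    rw [hT a b, real_inner_comm, hT b a]
    exact hs a b
  let bb := hsym.eigenvectorBasis rfl
  let ev := hsym.eigenvalues rfl
  have hev : ∀ i, T (bb i) = (ev i) • bb i := fun i => hsym.apply_eigenvectorBasis rfl i
  have hev0 : ∀ i, ev i ≠ 0 := by
    intro i h0
    have h1 : bb i = 0 := hn (bb i) (fun b => by rw [← hT, hev, h0, zero_smul, inner_zero_left])
    exact bb.toBasis.ne_zero i (by rw [bb.coe_toBasis]; exact h1)
  have hform : ∀ w, A w w = ∑ i, ev i * ⟪bb i, w⟫ ^ 2 := by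
    intro w
    have e1 : ∀ i, ⟪bb i, T w⟫ = ev i * ⟪bb i, w⟫ := by
      intro i
      have := hsym (bb i) w
      simp only [ContinuousLinearMap.coe_coe] at this
      rw [← this, hev, real_inner_smul_left]
    rw [← hT, ← bb.sum_inner_mul_inner (T w) w]
    refine Finset.sum_congr rfl (fun i _ => ?_)
    rw [real_inner_comm, e1]
    ring
  let W (s : Set (Fin (Module.finrank ℝ E))) : Submodule ℝ E := Submodule.span ℝ (bb '' s)
  have hW : ∀ s : Set (Fin (Module.finrank ℝ E)), ∀ w ∈ W s, ∀ i ∉ s, ⟪bb i, w⟫ = 0 := by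
    intro s w hw i hi
    refine Submodule.span_induction (p := fun w _ => ⟪bb i, w⟫ = 0) ?_ ?_ ?_ ?_ hw
    · rintro x ⟨j, hj, rfl⟩
      have hij : i ≠ j := fun h => hi (h ▸ hj)
      exact bb.inner_eq_zero hij
    · exact inner_zero_right _
    · intro x y _ _ hx hy
      rw [inner_add_right, hx, hy, add_zero]
    · intro a x _ hx
      rw [real_inner_smul_right, hx, mul_zero]
  have hfin : ∀ s : Set (Fin (Module.finrank ℝ E)), Module.finrank ℝ (W s) = Fintype.card s := by
    intro s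
    have hli : LinearIndependent ℝ (fun x : s => bb x) :=
      bb.orthonormal.linearIndependent.comp _ Subtype.val_injective
    have := finrank_span_eq_card hli
    rw [← this]
    have e : (bb '' s) = range (fun x : s => bb x) := by
      ext x
      constructor
      · rintro ⟨j, hj, rfl⟩; exact ⟨⟨j, hj⟩, rfl⟩
      · rintro ⟨j, rfl⟩; exact ⟨j, j.2, rfl⟩
    have hWs : W s = Submodule.span ℝ (range (fun x : s => bb x)) := by rw [← e]
    rw [hWs]
  have hne : ∀ w, w ≠ 0 → ∃ i, ⟪bb i, w⟫ ≠ 0 := by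
    intro w hw
    by_contra hcon
    push Not at hcon
    have := bb.sum_repr' w
    simp only [hcon, zero_smul, Finset.sum_const_zero] at this
    exact hw this.symm
  refine ⟨_, W {i | ev i < 0}, W {i | 0 < ev i}, ?_, ?_, rfl, ?_⟩
  · intro w hw hw0
    rw [hform]
    obtain ⟨i, hi⟩ := hne w hw0
    have hi' : ev i < 0 := by
      by_contra hcon
      exact hi (hW _ w hw i hcon)
    refine Finset.sum_neg' (fun j _ => ?_) ⟨i, Finset.mem_univ i, ?_⟩
    · by_cases hj : ev j < 0
      · exact mul_nonpos_of_nonpos_of_nonneg hj.le (sq_nonneg _)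
      · rw [hW _ w hw j hj]; simp
    · exact mul_neg_of_neg_of_pos hi' (by positivity)
  · intro w hw hw0
    rw [hform]
    obtain ⟨i, hi⟩ := hne w hw0
    have hi' : 0 < ev i := by
      by_contra hcon
      exact hi (hW _ w hw i hcon)
    refine Finset.sum_pos' (fun j _ => ?_) ⟨i, Finset.mem_univ i, ?_⟩
    · by_cases hj : 0 < ev j
      · exact mul_nonneg hj.le (sq_nonneg _)
      · rw [hW _ w hw j hj]; simp
    · exact mul_pos hi' (by positivity)
  · rw [hfin, hfin]
    have hd : Disjoint {i | ev i < 0} {i | 0 < ev i} := by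
      rw [Set.disjoint_left]
      intro i hi hi'
      exact lt_asymm (show ev i < 0 from hi) hi'
    have hu : {i | ev i < 0} ∪ {i | 0 < ev i} = univ := by
      ext i
      simp only [mem_union, Set.mem_ofPred_eq, mem_univ, iff_true]
      exact lt_or_gt_of_ne (hev0 i)
    rw [← Set.toFinset_card, ← Set.toFinset_card, ← Finset.card_union_of_disjoint (by
      rw [Set.disjoint_toFinset]; exact hd), ← Set.toFinset_union]
    have : ({i | ev i < 0} ∪ {i | 0 < ev i}).toFinset = Finset.univ := by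
      ext i
      rw [Set.mem_toFinset, hu]
      simp
    rw [this]
    simp

open Classical in
def indx (A : Bil E) : ℕ := if h : ∃ k, HasInd A k then h.choose else 0

theorem HasInd.indx_eq {A : Bil E} {k : ℕ} (h : HasInd A k) : indx A = k := by
  have h' : ∃ k, HasInd A k := ⟨k, h⟩
  unfold indx
  rw [dif_pos h']
  exact h'.choose_spec.unique h

theorem hasInd_indx {A : Bil E} (hs : ∀ a b, A a b = A b a) (hn : ∀ a, (∀ b, A a b = 0) → a = 0) :
    HasInd A (indx A) := by
  obtain ⟨k, hk⟩ := exists_hasInd hs hn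
  rw [hk.indx_eq]
  exact hk

/-- the index is constant on a connected family of nondegenerate forms -/
theorem indx_const {Z : Type*} [TopologicalSpace Z] {s : Set Z} (hs : IsPreconnected s) {A : Z → Bil E}
    (hA : ∀ z ∈ s, TendB A (𝓝[s] z) (A z)) (hsym : ∀ z ∈ s, ∀ a b, A z a b = A z b a)
    (hn : ∀ z ∈ s, ∀ a, (∀ b, A z a b = 0) → a = 0) {z z' : Z} (hz : z ∈ s) (hz' : z' ∈ s) :
    indx (A z) = indx (A z') := by
  refine hs.constant (f := fun z => indx (A z)) ?_ hz hz'
  intro y hy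
  have h1 : ∀ᶠ x in 𝓝[s] y, indx (A x) = indx (A y) := by
    filter_upwards [(hasInd_indx (hsym y hy) (hn y hy)).eventually (hA y hy)] with x hx
    exact hx.indx_eq
  exact (tendsto_const_nhds (x := indx (A y))).congr' (h1.mono fun x hx => hx.symm)

end Index

end Pool.Agent.Lib.MP_ccbbf6_gt.Geo
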