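import Pool.Agent.Lib.MP_ccbbf6_gt.Geo.CZt
import Pool.Agent.Lib.MP_ccbbf6_gt.Geo.HH
import Pool.Agent.Lib.MP_ccbbf6_gt.Geo.KAa

/-!
# KAb: the dimension of the kernels `Ker c r s` is constant
-/

set_option autoImplicit false

open Set Filter Topology Metric Real
open scoped ContDiff RealInnerProductSpace

noncomputable section

namespace Pool.Agent.Lib.MP_ccbbf6_gt.Geo

variable {n : ℕ} {M : Type*} [MetricSpace M] [CompactSpace M] (𝒜 : SDist n M)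

/-- the second derivative at `c s` of `d(c x, .) + d(., c y)`, made positive along the geodesic -/
def SDist.NF (c : ℝ → M) (s x y : ℝ) : Bil (Eu n) :=
  𝒜.H (c s) (c x) + 𝒜.H (c s) (c y) + (innerSL ℝ (𝒜.vel c s)).smulRight (innerSL ℝ (𝒜.vel c s))

theorem NF_apply (c : ℝ → M) (s x y : ℝ) (a b : Eu n) :
    𝒜.NF c s x y a b = 𝒜.H (c s) (c x) a b + 𝒜.H (c s) (c y) a b + ⟪𝒜.vel c s, a⟫ * ⟪𝒜.vel c s, b⟫ := by
  simp only [SDist.NF, add_apply, ContinuousLinearMap.smulRight_apply, innerSL_apply_apply, smul_apply, smul_eq_mul]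

theorem IsGeo.dist_pos' {c : ℝ → M} (hc : IsGeo c) {s t : ℝ} (h0 : s ≠ t) (h1 : |s - t| < π) :
    0 < dist (c s) (c t) ∧ dist (c s) (c t) < π := by
  rw [hc s t h1.le]
  exact ⟨abs_pos.2 (sub_ne_zero.2 h0), h1⟩

theorem IsGeo.H_symm' (hB : Bl M) {c : ℝ → M} (hc : IsGeo c) {s t : ℝ} (h0 : s ≠ t) (h1 : |s - t| < π) (a b : Eu n) :
    𝒜.H (c s) (c t) a b = 𝒜.H (c s) (c t) b a := by
  obtain ⟨h2, h3⟩ := hc.dist_pos' h0 h1
  exact H_symm 𝒜 hB h2 h3 a b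

theorem IsGeo.B_symm' (hB : Bl M) {c : ℝ → M} (hc : IsGeo c) {s t : ℝ} (h0 : s ≠ t) (h1 : |s - t| < π) (a b : Eu n) :
    𝒜.B (c s) (c t) a b = 𝒜.B (c t) (c s) b a := by
  obtain ⟨h2, h3⟩ := hc.dist_pos' h0 h1
  exact B_symm 𝒜 hB h2 h3 a b

theorem IsGeo.B_vel' (hB : Bl M) {c : ℝ → M} (hc : IsGeo c) {s t : ℝ} (h0 : s ≠ t) (h1 : |s - t| < π) (a : Eu n) :
    𝒜.B (c s) (c t) a (𝒜.vel c t) = 0 := by
  rw [hc.B_symm' 𝒜 hB h0 h1]
  exact B_vel 𝒜 hB hc h0.symm (by rw [abs_sub_comm]; exact h1) a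

theorem NF_symm (hB : Bl M) {c : ℝ → M} (hc : IsGeo c) {s x y : ℝ} (h0 : s ≠ x) (h1 : |s - x| < π) (h2 : s ≠ y)
    (h3 : |s - y| < π) (a b : Eu n) : 𝒜.NF c s x y a b = 𝒜.NF c s x y b a := by
  rw [NF_apply, NF_apply, hc.H_symm' 𝒜 hB h0 h1, hc.H_symm' 𝒜 hB h2 h3]
  ring

theorem vel_inner_self {c : ℝ → M} (hc : IsGeo c) (s : ℝ) : ⟪𝒜.vel c s, 𝒜.vel c s⟫ = 1 := by
  rw [real_inner_self_eq_norm_sq, (IsGeo.exists_vel 𝒜 hc s).1, one_pow]

theorem vel_inner_proj {c : ℝ → M} (hc : IsGeo c) (s : ℝ) (a : Eu n) :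
    ⟪𝒜.vel c s, a - ⟪𝒜.vel c s, a⟫ • 𝒜.vel c s⟫ = 0 := by
  rw [inner_sub_right, real_inner_smul_right, vel_inner_self 𝒜 hc]
  ring

/-- `y < s < x` -/
theorem NF_vel (hB : Bl M) {c : ℝ → M} (hc : IsGeo c) {s x y : ℝ} (h1 : y < s) (h2 : s < x) (h3 : s < y + π)
    (h4 : x < s + π) (a : Eu n) : 𝒜.NF c s x y (𝒜.vel c s) a = ⟪𝒜.vel c s, a⟫ := by
  have := G_vel 𝒜 hB hc h1 h2 h3 h4 a
  rw [NF_apply, vel_inner_self 𝒜 hc, add_comm (𝒜.H (c s) (c x) _ a), this]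
  ring

theorem abs_sub_lt_pi {s t : ℝ} (h1 : s < t + π) (h2 : t < s + π) : |s - t| < π := by
  rw [abs_lt]; constructor <;> linarith

theorem NF_nondeg (hB : Bl M) {c : ℝ → M} (hc : IsGeo c) {s x y : ℝ} (h1 : y < s) (h2 : s < x) (h3 : s < y + π)
    (h4 : x < s + π) (h5 : y + π < x) (a : Eu n) (ha : ∀ b, 𝒜.NF c s x y a b = 0) : a = 0 := by
  have hpi := Real.pi_pos
  have hsx : |s - x| < π := abs_sub_lt_pi (by linarith) (by linarith)
  have hsy : |s - y| < π := abs_sub_lt_pi (by linarith) (by linarith)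
  have hv : ⟪𝒜.vel c s, a⟫ = 0 := by
    rw [← NF_vel 𝒜 hB hc h1 h2 h3 h4, NF_symm 𝒜 hB hc h2.ne hsx h1.ne' hsy]
    exact ha _
  have hH : ∀ b, 𝒜.H (c s) (c x) a b + 𝒜.H (c s) (c y) a b = 0 := by
    intro b
    have := ha b
    rw [NF_apply, hv] at this
    linarith
  obtain ⟨e, he⟩ := tri_long 𝒜 hB hc h1 h2 h3 h4 h5
  refine B_nondeg 𝒜 hB hc h1.ne' hsy hv (fun b => ?_)
  have h6 := (he b 0).2.1 a
  rw [map_zero, add_zero, hc.H_symm' 𝒜 hB h1.ne' hsy, hc.H_symm' 𝒜 hB h2.ne hsx, hc.B_symm' 𝒜 hB h1.ne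
    (by rw [abs_sub_comm]; exact hsy)] at h6
  linarith [hH (e b 0)]

/-- `Ker c r s` as a subspace -/
def SDist.KerS (c : ℝ → M) (r s : ℝ) : Submodule ℝ (Eu n) where
  carrier := 𝒜.Ker c r s
  add_mem' := by
    rintro a a' ⟨h1, h2⟩ ⟨h3, h4⟩
    refine ⟨by rw [inner_add_right, h1, h3, add_zero], fun b hb => ?_⟩
    simp only [map_add, add_apply]
    linarith [h2 b hb, h4 b hb]
  zero_mem' := by
    refine ⟨inner_zero_right _, fun b hb => ?_⟩
    simp only [map_zero, zero_apply, add_zero]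
  smul_mem' := by
    rintro t a ⟨h1, h2⟩
    refine ⟨by rw [real_inner_smul_right, h1, mul_zero], fun b hb => ?_⟩
    simp only [map_smul, smul_apply, smul_eq_mul]
    rw [← mul_add, h2 b hb, mul_zero]

theorem coe_KerS (c : ℝ → M) (r s : ℝ) : (𝒜.KerS c r s : Set (Eu n)) = 𝒜.Ker c r s := rfl

theorem mem_KerS_iff (hB : Bl M) {c : ℝ → M} (hc : IsGeo c) {r s : ℝ} (h1 : r < s) (h2 : s < r + π) (a : Eu n) :
    a ∈ 𝒜.KerS c r s ↔ ∀ b, 𝒜.NF c s (r + π) r a b = 0 := by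
  have hpi := Real.pi_pos
  have hsx : |s - (r + π)| < π := abs_sub_lt_pi (by linarith) (by linarith)
  have hsy : |s - r| < π := abs_sub_lt_pi (by linarith) (by linarith)
  have hvel : ∀ a, 𝒜.NF c s (r + π) r (𝒜.vel c s) a = ⟪𝒜.vel c s, a⟫ :=
    NF_vel 𝒜 hB hc h1 h2 h2 (by linarith)
  have hsym := NF_symm 𝒜 hB hc h2.ne hsx h1.ne' hsy
  constructor
  · rintro ⟨ha, hb⟩ b
    have e : b = (b - ⟪𝒜.vel c s, b⟫ • 𝒜.vel c s) + ⟪𝒜.vel c s, b⟫ • 𝒜.vel c s := by abel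
    have h3 := hb _ (vel_inner_proj 𝒜 hc s b)
    have h4 : 𝒜.NF c s (r + π) r a (b - ⟪𝒜.vel c s, b⟫ • 𝒜.vel c s) = 0 := by
      rw [NF_apply, ha]
      linarith
    rw [e, map_add, h4, map_smul, hsym, hvel, ha, smul_zero, add_zero]
  · intro h
    have hv : ⟪𝒜.vel c s, a⟫ = 0 := by rw [← hvel, hsym]; exact h _
    refine ⟨hv, fun b _ => ?_⟩
    have := h b
    rw [NF_apply, hv] at this
    linarith

theorem NF_psd (hB : Bl M) {c : ℝ → M} (hc : IsGeo c) {r s : ℝ} (h1 : r < s) (h2 : s < r + π) (a : Eu n) :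
    0 ≤ 𝒜.NF c s (r + π) r a a := by
  have := G_nonneg 𝒜 hB hc h1 h2 le_rfl a
  rw [NF_apply]
  nlinarith [mul_self_nonneg ⟪𝒜.vel c s, a⟫]

theorem psd_kernel {E : Type*} [NormedAddCommGroup E] [InnerProductSpace ℝ E] {A : Bil E}
    (hs : ∀ a b, A a b = A b a) (hp : ∀ a, 0 ≤ A a a) {w : E} (hw : A w w = 0) (b : E) : A w b = 0 := by
  by_contra h0
  have h1 := hp (b - ((A b b + 1) / (2 * A w b)) • w)
  simp only [map_sub, sub_apply, map_smul, smul_apply, smul_eq_mul] at h1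
  rw [hw, hs b w] at h1
  have h2 : (A b b + 1) / (2 * A w b) * A w b = (A b b + 1) / 2 := by field_simp
  linarith

theorem NF_posOn (hB : Bl M) {c : ℝ → M} (hc : IsGeo c) {r s : ℝ} (h1 : r < s) (h2 : s < r + π) :
    PosOn (𝒜.NF c s (r + π) r) (𝒜.KerS c r s)ᗮ := by
  have hpi := Real.pi_pos
  have hsx : |s - (r + π)| < π := abs_sub_lt_pi (by linarith) (by linarith)
  have hsy : |s - r| < π := abs_sub_lt_pi (by linarith) (by linarith)
  have hsym := NF_symm 𝒜 hB hc h2.ne hsx h1.ne' hsy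
  intro w hw hw0
  refine lt_of_le_of_ne (NF_psd 𝒜 hB hc h1 h2 w) (fun h0 => hw0 ?_)
  have h3 : w ∈ 𝒜.KerS c r s := (mem_KerS_iff 𝒜 hB hc h1 h2 w).2
    (psd_kernel hsym (NF_psd 𝒜 hB hc h1 h2) h0.symm)
  have h4 : w ∈ (𝒜.KerS c r s) ⊓ (𝒜.KerS c r s)ᗮ := ⟨h3, hw⟩
  rwa [Submodule.inf_orthogonal_eq_bot, Submodule.mem_bot] at h4

theorem exists_B_ne (hB : Bl M) {c : ℝ → M} (hc : IsGeo c) {s t : ℝ} (h0 : s ≠ t) (h1 : |s - t| < π) {a : Eu n}
    (ha : ⟪𝒜.vel c s, a⟫ = 0) (ha0 : a ≠ 0) : ∃ j : Fin n, 𝒜.B (c s) (c t) a (EuclideanSpace.single j 1) ≠ 0 := by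
  by_contra hcon
  push Not at hcon
  refine ha0 (B_nondeg 𝒜 hB hc h0 h1 ha (fun b => ?_))
  have hb : b = ∑ j : Fin n, b j • EuclideanSpace.single j (1 : ℝ) := by
    have := (EuclideanSpace.basisFun (Fin n) ℝ).sum_repr b
    simp only [EuclideanSpace.basisFun_repr, EuclideanSpace.basisFun_apply] at this
    exact this.symm
  rw [hb, map_sum]
  exact Finset.sum_eq_zero (fun j _ => by rw [map_smul, hcon j, smul_zero])

theorem H_back_lt (hB : Bl M) {c : ℝ → M} (hc : IsGeo c) {s y r : ℝ} (h1 : y < r) (h2 : r < s) (h3 : s < y + π)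
    {a : Eu n} (ha : ⟪𝒜.vel c s, a⟫ = 0) (ha0 : a ≠ 0) : 𝒜.H (c s) (c y) a a < 𝒜.H (c s) (c r) a a := by
  have hpi := Real.pi_pos
  have hd : ∀ x ∈ Icc y r, HasDerivAt (fun x => 𝒜.H (c s) (c x) a a)
      (∑ j : Fin n, 𝒜.B (c s) (c x) a (EuclideanSpace.single j 1) * 𝒜.B (c s) (c x) a (EuclideanSpace.single j 1)) x :=
    fun x hx => hasDerivAt_H' 𝒜 hB hc (by linarith [hx.2]) (by linarith [hx.1]) a a
  have hmono : StrictMonoOn (fun x => 𝒜.H (c s) (c x) a a) (Icc y r) := by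
    refine strictMonoOn_of_deriv_pos (convex_Icc y r) (fun x hx => (hd x hx).continuousAt.continuousWithinAt) ?_
    intro x hx
    rw [interior_Icc] at hx
    rw [(hd x ⟨hx.1.le, hx.2.le⟩).deriv]
    obtain ⟨j, hj⟩ := exists_B_ne 𝒜 hB hc (s := s) (t := x) (by linarith [hx.2] : x < s).ne'
      (abs_sub_lt_pi (by linarith [hx.1]) (by linarith [hx.2])) ha ha0
    exact Finset.sum_pos' (fun i _ => mul_self_nonneg _) ⟨j, Finset.mem_univ j, mul_self_pos.2 hj⟩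
  exact hmono ⟨le_rfl, h1.le⟩ ⟨h1.le, le_rfl⟩ h1

theorem NF_negOn (hB : Bl M) {c : ℝ → M} (hc : IsGeo c) {r s y : ℝ} (h1 : r < s) (h2 : y < r) (h3 : s < y + π) :
    NegOn (𝒜.NF c s (r + π) y) (𝒜.KerS c r s) := by
  rintro w ⟨hw1, hw2⟩ hw0
  have h4 := H_back_lt 𝒜 hB hc h2 h1 h3 hw1 hw0
  have h5 := hw2 w hw1
  rw [NF_apply, hw1]
  linarith

theorem H_cont_fwd (hB : Bl M) {c : ℝ → M} (hc : IsGeo c) {s t : ℝ} (h0 : s < t) (h1 : t < s + π) (a b : Eu n) :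
    ContinuousAt (fun x => 𝒜.H (c s) (c x) a b) t := (hasDerivAt_H 𝒜 hB hc h0 h1 a b).continuousAt

theorem H_cont_back (hB : Bl M) {c : ℝ → M} (hc : IsGeo c) {s t : ℝ} (h0 : t < s) (h1 : s < t + π) (a b : Eu n) :
    ContinuousAt (fun x => 𝒜.H (c s) (c x) a b) t := (hasDerivAt_H' 𝒜 hB hc h0 h1 a b).continuousAt

theorem exists_hasInd_near (hB : Bl M) {c : ℝ → M} (hc : IsGeo c) {r s : ℝ} (h1 : r < s) (h2 : s < r + π) :
    ∃ y, s - π < y ∧ y < r ∧ indx (𝒜.NF c s (r + π) y) = Module.finrank ℝ (𝒜.KerS c r s) := by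
  have hT : TendB (fun y => 𝒜.NF c s (r + π) y) (𝓝[<] r) (𝒜.NF c s (r + π) r) := by
    intro a b
    simp only [NF_apply]
    exact ((tendsto_const_nhds.add (H_cont_back 𝒜 hB hc h1 h2 a b)).add tendsto_const_nhds).mono_left
      nhdsWithin_le_nhds
  have h3 := (NF_posOn 𝒜 hB hc h1 h2).eventually hT
  have h4 : ∀ᶠ y in 𝓝[<] r, y < r := self_mem_nhdsWithin
  have h5 : ∀ᶠ y in 𝓝[<] r, s - π < y := nhdsWithin_le_nhds (lt_mem_nhds (by linarith))
  obtain ⟨y, hy⟩ := (h3.and (h4.and h5)).exists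
  refine ⟨y, hy.2.2, hy.2.1, HasInd.indx_eq ⟨𝒜.KerS c r s, (𝒜.KerS c r s)ᗮ,
    NF_negOn 𝒜 hB hc h1 hy.2.1 (by linarith [hy.2.2]), hy.1, rfl, ?_⟩⟩
  exact Submodule.finrank_add_finrank_orthogonal _

/-- at a fixed base point of a geodesic the index of all the forms is the dimension of all the kernels -/
theorem indx_NF (hB : Bl M) {c : ℝ → M} (hc : IsGeo c) {s x y : ℝ} (h1 : s - π < y) (h2 : y + π < x) (h3 : x < s + π)
    {r : ℝ} (h4 : r < s) (h5 : s < r + π) :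
    indx (𝒜.NF c s x y) = Module.finrank ℝ (𝒜.KerS c r s) := by
  obtain ⟨y0, hy0, hy1, hy2⟩ := exists_hasInd_near 𝒜 hB hc h4 h5
  rw [← hy2]
  have hconv : IsPreconnected {z : ℝ × ℝ | s - π < z.2 ∧ z.2 + π < z.1 ∧ z.1 < s + π} := by
    refine Convex.isPreconnected ?_
    have e : {z : ℝ × ℝ | s - π < z.2 ∧ z.2 + π < z.1 ∧ z.1 < s + π}
        = {z : ℝ × ℝ | s - π < z.2} ∩ ({z : ℝ × ℝ | π < z.1 - z.2} ∩ {z : ℝ × ℝ | z.1 < s + π}) := by
      ext z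
      constructor
      · rintro ⟨a1, a2, a3⟩
        exact ⟨a1, by show π < z.1 - z.2; linarith, a3⟩
      · rintro ⟨a1, a2, a3⟩
        have a2' : π < z.1 - z.2 := a2
        exact ⟨a1, by linarith, a3⟩
    rw [e]
    refine Convex.inter ?_ (Convex.inter ?_ ?_)
    · exact convex_halfSpace_gt (LinearMap.snd ℝ ℝ ℝ).isLinear _
    · exact convex_halfSpace_gt (LinearMap.fst ℝ ℝ ℝ - LinearMap.snd ℝ ℝ ℝ).isLinear _
    · exact convex_halfSpace_lt (LinearMap.fst ℝ ℝ ℝ).isLinear _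
  refine indx_const (A := fun z : ℝ × ℝ => 𝒜.NF c s z.1 z.2) (z := (x, y)) (z' := (r + π, y0)) hconv ?_ ?_ ?_
    ⟨h1, h2, h3⟩ ⟨hy0, by linarith, by linarith⟩
  · rintro ⟨x', y'⟩ ⟨a1, a2, a3⟩ a b
    simp only at a1 a2 a3
    simp only [NF_apply]
    have c1 : ContinuousAt (fun z : ℝ × ℝ => 𝒜.H (c s) (c z.1) a b) (x', y') :=
      ContinuousAt.comp (f := Prod.fst) (g := fun x => 𝒜.H (c s) (c x) a b)
        (H_cont_fwd 𝒜 hB hc (by linarith) a3 a b) continuousAt_fst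
    have c2 : ContinuousAt (fun z : ℝ × ℝ => 𝒜.H (c s) (c z.2) a b) (x', y') :=
      ContinuousAt.comp (f := Prod.snd) (g := fun x => 𝒜.H (c s) (c x) a b)
        (H_cont_back 𝒜 hB hc (by linarith) (by linarith) a b) continuousAt_snd
    exact ((c1.add c2).add continuousAt_const).tendsto.mono_left nhdsWithin_le_nhds
  · rintro ⟨x', y'⟩ ⟨a1, a2, a3⟩ a b
    simp only at a1 a2 a3
    exact NF_symm 𝒜 hB hc (by linarith : s < x').ne (abs_sub_lt_pi (by linarith) (by linarith))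
      (by linarith : y' < s).ne' (abs_sub_lt_pi (by linarith) (by linarith)) a b
  · rintro ⟨x', y'⟩ ⟨a1, a2, a3⟩ a ha
    simp only at a1 a2 a3
    exact NF_nondeg 𝒜 hB hc (by linarith) (by linarith) (by linarith) a3 a2 a ha

/-! ## change of the base point along a geodesic -/

/-- relation between the values at `c s` and `c s'` of the Jacobi fields vanishing at `c r` and `c (r + π)` -/
def SDist.Rel (c : ℝ → M) (r s s' : ℝ) : Submodule ℝ (Eu n × Eu n) where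
  carrier := {z | z.1 ∈ 𝒜.KerS c r s ∧ z.2 ∈ 𝒜.KerS c r s' ∧
    ∀ a', 𝒜.H (c s) (c s') z.1 a' + 𝒜.H (c s) (c r) z.1 a' + 𝒜.B (c s) (c s') a' z.2 = 0}
  add_mem' := by
    rintro z z' ⟨h1, h2, h3⟩ ⟨h4, h5, h6⟩
    refine ⟨Submodule.add_mem _ h1 h4, Submodule.add_mem _ h2 h5, fun a' => ?_⟩
    simp only [Prod.fst_add, Prod.snd_add, map_add, add_apply]
    linarith [h3 a', h6 a']
  zero_mem' := by
    refine ⟨Submodule.zero_mem _, Submodule.zero_mem _, fun a' => ?_⟩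
    simp only [Prod.fst_zero, Prod.snd_zero, map_zero, zero_apply, add_zero]
  smul_mem' := by
    rintro t z ⟨h1, h2, h3⟩
    refine ⟨Submodule.smul_mem _ _ h1, Submodule.smul_mem _ _ h2, fun a' => ?_⟩
    simp only [Prod.smul_fst, Prod.smul_snd, map_smul, smul_apply, smul_eq_mul]
    rw [← mul_add, ← mul_add, h3 a', mul_zero]

/-- a vector killed by the positive form `H(c s,c r) + H(c s,c t)` is a multiple of the velocity -/
theorem eq_smul_vel (hB : Bl M) {c : ℝ → M} (hc : IsGeo c) {r s t : ℝ} (h1 : r < s) (h2 : s < t) (h3 : t < r + π)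
    {a : Eu n} (ha : ∀ b, 𝒜.H (c s) (c r) a b + 𝒜.H (c s) (c t) a b = 0) : a = ⟪𝒜.vel c s, a⟫ • 𝒜.vel c s := by
  by_contra hne
  have h0 : a - ⟪𝒜.vel c s, a⟫ • 𝒜.vel c s ≠ 0 := sub_ne_zero.2 hne
  have hp := G_pos 𝒜 hB hc h1 h2 h3 (vel_inner_proj 𝒜 hc s a) h0
  have hv := G_vel 𝒜 hB hc h1 h2 (by linarith) (by linarith) (a - ⟪𝒜.vel c s, a⟫ • 𝒜.vel c s)
  have hb := ha (a - ⟪𝒜.vel c s, a⟫ • 𝒜.vel c s)
  have e : ∀ (q : M) (w : Eu n), 𝒜.H (c s) q (a - ⟪𝒜.vel c s, a⟫ • 𝒜.vel c s) w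
      = 𝒜.H (c s) q a w - ⟪𝒜.vel c s, a⟫ * 𝒜.H (c s) q (𝒜.vel c s) w := by
    intro q w
    simp only [map_sub, sub_apply, map_smul, smul_apply, smul_eq_mul]
  rw [e, e] at hp
  have h4 : ⟪𝒜.vel c s, a⟫ * (𝒜.H (c s) (c r) (𝒜.vel c s) (a - ⟪𝒜.vel c s, a⟫ • 𝒜.vel c s)
      + 𝒜.H (c s) (c t) (𝒜.vel c s) (a - ⟪𝒜.vel c s, a⟫ • 𝒜.vel c s)) = 0 := by rw [hv, mul_zero]
  linarith

theorem finrank_KerS_le (hB : Bl M) {c : ℝ → M} (hc : IsGeo c) {r s s' : ℝ} (h1 : r < s) (h2 : s < s')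
    (h3 : s' < r + π) : Module.finrank ℝ (𝒜.KerS c r s) ≤ Module.finrank ℝ (𝒜.KerS c r s') := by
  have hpi := Real.pi_pos
  have hss : |s - s'| < π := abs_sub_lt_pi (by linarith) (by linarith)
  -- the first projection is onto
  have hsurj : ∀ a ∈ 𝒜.KerS c r s, ∃ e', (a, e') ∈ 𝒜.Rel c r s s' := by
    intro a ha
    have haN := (mem_KerS_iff 𝒜 hB hc h1 (h2.trans h3) a).1 ha
    have hav : ⟪𝒜.vel c s, a⟫ = 0 := ha.1
    have haH : ∀ b, 𝒜.H (c s) (c r) a b + 𝒜.H (c s) (c (r + π)) a b = 0 := by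
      intro b
      have := haN b
      rw [NF_apply, hav] at this
      linarith
    obtain ⟨e, he⟩ := tri 𝒜 hB hc h2 h3 (by linarith : r + π < s + π)
    obtain ⟨f1, f2, -⟩ := he a 0
    simp only [map_zero, sub_zero, add_zero] at f1 f2
    set e0 := e a 0
    set v' := 𝒜.vel c s' with hv'
    set e' := e0 - ⟪v', e0⟫ • v' with he'
    have hBv : ∀ a', 𝒜.B (c s) (c s') a' v' = 0 := hc.B_vel' 𝒜 hB h2.ne hss
    have hR : ∀ a', 𝒜.H (c s) (c s') a a' + 𝒜.H (c s) (c r) a a' + 𝒜.B (c s) (c s') a' e' = 0 := by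
      intro a'
      rw [he', map_sub, map_smul, hBv, smul_zero, sub_zero]
      linarith [f1 a', haH a']
    have hG : ∀ x, 𝒜.H (c s') (c s) e' x + 𝒜.H (c s') (c (r + π)) e' x + 𝒜.B (c s) (c s') a x = 0 := by
      intro x
      have g1 := G_vel 𝒜 hB hc h2 h3 (by linarith) (by linarith) x
      have g2 : ∀ q, 𝒜.H (c s') q e' x = 𝒜.H (c s') q e0 x - ⟪v', e0⟫ * 𝒜.H (c s') q v' x := by
        intro q
        rw [he']
        simp only [map_sub, sub_apply, map_smul, smul_apply, smul_eq_mul]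
      rw [g2, g2]
      have g3 : ⟪v', e0⟫ * (𝒜.H (c s') (c s) v' x + 𝒜.H (c s') (c (r + π)) v' x) = 0 := by rw [g1, mul_zero]
      linarith [f2 x]
    obtain ⟨ε, hε⟩ := tri 𝒜 hB hc h1 h2 h3
    obtain ⟨-, k2, k3⟩ := hε 0 e'
    simp only [map_zero, zero_apply, sub_zero, add_zero] at k2 k3
    set ε0 := ε 0 e'
    have hδ : ε0 - a = ⟪𝒜.vel c s, ε0 - a⟫ • 𝒜.vel c s := by
      refine eq_smul_vel 𝒜 hB hc h1 h2 h3 (fun b => ?_)
      simp only [map_sub, sub_apply]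
      linarith [k2 b, hR b]
    have hBa : ∀ x, 𝒜.B (c s) (c s') ε0 x = 𝒜.B (c s) (c s') a x := by
      intro x
      have g1 : 𝒜.B (c s) (c s') (ε0 - a) x = 0 := by
        rw [hδ]
        simp only [map_smul, smul_apply, smul_eq_mul]
        rw [B_vel 𝒜 hB hc h2.ne hss, mul_zero]
      simp only [map_sub, sub_apply] at g1
      linarith
    refine ⟨e', ha, ⟨vel_inner_proj 𝒜 hc s' e0, fun b _ => ?_⟩, hR⟩
    have g1 := k3 b
    have g2 := hG b
    rw [hBa] at g1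
    linarith
  -- the second projection is injective
  have hinj : ∀ z ∈ 𝒜.Rel c r s s', z.2 = 0 → z = 0 := by
    rintro ⟨a, e'⟩ ⟨g1, g2, g3⟩ g4
    simp only at g1 g2 g3 g4
    have g5 := eq_smul_vel 𝒜 hB hc h1 h2 h3 (a := a) (fun b => by
      have := g3 b
      rw [g4, map_zero, add_zero] at this
      linarith)
    have g6 : ⟪𝒜.vel c s, a⟫ = 0 := g1.1
    rw [g6, zero_smul] at g5
    rw [g5, g4]
    rfl
  have hle1 : Module.finrank ℝ (𝒜.KerS c r s) ≤ Module.finrank ℝ (𝒜.Rel c r s s') := by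
    have hf : ∀ z : 𝒜.Rel c r s s', (LinearMap.fst ℝ (Eu n) (Eu n)) z ∈ 𝒜.KerS c r s := fun z => z.2.1
    refine LinearMap.finrank_le_finrank_of_surjective
      (f := ((LinearMap.fst ℝ (Eu n) (Eu n)).domRestrict (𝒜.Rel c r s s')).codRestrict (𝒜.KerS c r s) hf) ?_
    rintro ⟨a, ha⟩
    obtain ⟨e', he'⟩ := hsurj a ha
    exact ⟨⟨(a, e'), he'⟩, rfl⟩
  have hle2 : Module.finrank ℝ (𝒜.Rel c r s s') ≤ Module.finrank ℝ (𝒜.KerS c r s') := by
    have hf : ∀ z : 𝒜.Rel c r s s', (LinearMap.snd ℝ (Eu n) (Eu n)) z ∈ 𝒜.KerS c r s' := fun z => z.2.2.1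
    refine LinearMap.finrank_le_finrank_of_injective
      (f := ((LinearMap.snd ℝ (Eu n) (Eu n)).domRestrict (𝒜.Rel c r s s')).codRestrict (𝒜.KerS c r s') hf) ?_
    rw [injective_iff_map_eq_zero]
    rintro ⟨z, hz⟩ h0
    have h0' : z.2 = 0 := by
      have := congrArg Subtype.val h0
      exact this
    exact Subtype.ext (hinj z hz h0')
  exact hle1.trans hle2

/-- reversal -/
theorem KerS_rev {c : ℝ → M} (hc : IsGeo c) (r s : ℝ) :
    𝒜.KerS (fun t => c (-t)) (-(r + π)) (-s) = 𝒜.KerS c r s := by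
  have e1 : 𝒜.vel (fun t => c (-t)) (-s) = -𝒜.vel c s := by
    rw [vel_rev 𝒜 hc, neg_neg]
  have e2 : -(-(r + π) + π) = r := by ring
  ext a
  constructor
  · rintro ⟨h1, h2⟩
    rw [e1, inner_neg_left, neg_eq_zero] at h1
    refine ⟨h1, fun b hb => ?_⟩
    have h3 := h2 b (by rw [e1, inner_neg_left, hb, neg_zero])
    simp only [neg_neg] at h3
    rw [e2] at h3
    linarith
  · rintro ⟨h1, h2⟩
    refine ⟨by rw [e1, inner_neg_left, h1, neg_zero], fun b hb => ?_⟩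
    rw [e1, inner_neg_left, neg_eq_zero] at hb
    have h3 := h2 b hb
    simp only [neg_neg]
    rw [e2]
    linarith

theorem KerS_shift (c : ℝ → M) (a r s : ℝ) :
    𝒜.KerS (fun t => c (t + a)) r s = 𝒜.KerS c (r + a) (s + a) := by
  have e1 : 𝒜.vel (fun t => c (t + a)) s = 𝒜.vel c (s + a) := vel_shift 𝒜 a s
  have e2 : r + π + a = r + a + π := by ring
  ext x
  constructor
  · rintro ⟨h1, h2⟩
    rw [e1] at h1
    refine ⟨h1, fun b hb => ?_⟩
    have h3 := h2 b (by rw [e1, hb])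
    beta_reduce at h3
    rw [e2] at h3
    exact h3
  · rintro ⟨h1, h2⟩
    refine ⟨by rw [e1, h1], fun b hb => ?_⟩
    rw [e1] at hb
    have h3 := h2 b hb
    beta_reduce
    rw [e2]
    exact h3

theorem finrank_KerS_eq (hB : Bl M) {c : ℝ → M} (hc : IsGeo c) {r s s' : ℝ} (h1 : r < s) (h2 : s < r + π)
    (h3 : r < s') (h4 : s' < r + π) : Module.finrank ℝ (𝒜.KerS c r s) = Module.finrank ℝ (𝒜.KerS c r s') := by
  have key : ∀ x y : ℝ, r < x → x < y → y < r + π →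
      Module.finrank ℝ (𝒜.KerS c r x) = Module.finrank ℝ (𝒜.KerS c r y) := by
    intro x y hx hxy hy
    refine le_antisymm (finrank_KerS_le 𝒜 hB hc hx hxy hy) ?_
    have := finrank_KerS_le 𝒜 hB hc.rev (r := -(r + π)) (s := -y) (s' := -x) (by linarith) (by linarith)
      (by linarith)
    rwa [KerS_rev 𝒜 hc, KerS_rev 𝒜 hc] at this
  rcases lt_trichotomy s s' with h | h | h
  · exact key s s' h1 h h4
  · rw [h]
  · exact (key s' s h3 h h2).symm

/-- the multiplicity is constant along a geodesic -/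
theorem finrank_KerS_along (hB : Bl M) {c : ℝ → M} (hc : IsGeo c) {r s r' s' : ℝ} (h1 : r < s) (h2 : s < r + π)
    (h3 : r' < s') (h4 : s' < r' + π) :
    Module.finrank ℝ (𝒜.KerS c r s) = Module.finrank ℝ (𝒜.KerS c r' s') := by
  have hpi := Real.pi_pos
  -- the same base point
  have key : ∀ s r r' : ℝ, r < s → s < r + π → r' < s → s < r' + π →
      Module.finrank ℝ (𝒜.KerS c r s) = Module.finrank ℝ (𝒜.KerS c r' s) := by
    intro s r r' g1 g2 g3 g4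
    rw [← indx_NF 𝒜 hB hc (s := s) (x := s + π / 2) (y := s - 3 * π / 4) (by linarith) (by linarith) (by linarith) g1 g2,
      ← indx_NF 𝒜 hB hc (s := s) (x := s + π / 2) (y := s - 3 * π / 4) (by linarith) (by linarith) (by linarith) g3 g4]
  let g : ℝ → ℕ := fun s => Module.finrank ℝ (𝒜.KerS c (s - π / 2) s)
  have hg : ∀ s s', |s - s'| < π / 2 → g s = g s' := by
    intro s s' h
    rw [abs_lt] at h
    show Module.finrank ℝ (𝒜.KerS c (s - π / 2) s) = Module.finrank ℝ (𝒜.KerS c (s' - π / 2) s')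
    rw [finrank_KerS_eq 𝒜 hB hc (r := s - π / 2) (s := s) (s' := s') (by linarith) (by linarith) (by linarith)
      (by linarith)]
    exact key s' _ _ (by linarith) (by linarith) (by linarith) (by linarith)
  have hloc : IsLocallyConstant g := by
    rw [IsLocallyConstant.iff_eventually_eq]
    intro x
    filter_upwards [Metric.ball_mem_nhds x (by positivity : (0 : ℝ) < π / 2)] with y hy
    exact hg y x (by rwa [Metric.mem_ball, Real.dist_eq] at hy)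
  have hconst : g s = g s' := hloc.apply_eq_of_preconnectedSpace s s'
  rw [key s r (s - π / 2) h1 h2 (by linarith) (by linarith), key s' r' (s' - π / 2) h3 h4 (by linarith) (by linarith)]
  exact hconst

/-! ## all geodesics through one point -/

theorem continuousAt_H (hB : Bl M) (p : M) {q : M} (h0 : 0 < dist p q) (h1 : dist p q < π) (a b : Eu n) :
    ContinuousAt (fun q => 𝒜.H p q a b) q := by
  have hf := contDiffAt_f 𝒜 hB h0 h1
  have hD : ContDiffAt ℝ ∞ (fun z : Eu n × Eu n => fderiv ℝ (fun u => 𝒜.f p q (u, z.1)) z.2) (0, 0) := by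
    refine ContDiffAt.fderiv (n := ∞) (f := fun (z : Eu n × Eu n) (u : Eu n) => 𝒜.f p q (u, z.1)) (g := fun z => z.2)
      ?_ contDiffAt_snd le_rfl
    have hg : ContDiffAt ℝ ∞ (fun y : (Eu n × Eu n) × Eu n => (y.2, y.1.1)) ((0, 0), 0) :=
      contDiffAt_snd.prodMk (contDiffAt_fst.comp _ contDiffAt_fst)
    exact ContDiffAt.comp ((0, 0), 0) (g := 𝒜.f p q) (f := fun y : (Eu n × Eu n) × Eu n => (y.2, y.1.1)) hf hg
  have hE : ContDiffAt ℝ ∞ (fun w : Eu n => fderiv ℝ (fun u => fderiv ℝ (fun u' => 𝒜.f p q (u', w)) u) 0) 0 := by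
    refine ContDiffAt.fderiv (n := ∞)
      (f := fun (w : Eu n) (u : Eu n) => fderiv ℝ (fun u' => 𝒜.f p q (u', w)) u) (g := fun _ => 0)
      ?_ contDiffAt_const le_rfl
    exact hD
  have hc : ContinuousAt (fun q' => fderiv ℝ (fun u => fderiv ℝ (fun u' => 𝒜.f p q (u', 𝒜.ψ q q')) u) 0 a b) q := by
    have h2 : ContinuousAt (fun q' => 𝒜.ψ q q') q := (𝒜.ψ q).continuousAt (𝒜.mem q)
    have h3 : ContinuousAt (fun q' => fderiv ℝ (fun u => fderiv ℝ (fun u' => 𝒜.f p q (u', 𝒜.ψ q q')) u) 0) q := by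
      refine ContinuousAt.comp
        (g := fun w : Eu n => fderiv ℝ (fun u => fderiv ℝ (fun u' => 𝒜.f p q (u', w)) u) 0) ?_ h2
      rw [𝒜.zero q]
      exact hE.continuousAt
    exact (h3.clm_apply continuousAt_const).clm_apply continuousAt_const
  refine hc.congr ?_
  have hs : ∀ᶠ q' in 𝓝 q, q' ∈ (𝒜.ψ q).source := (𝒜.ψ q).open_source.mem_nhds (𝒜.mem q)
  filter_upwards [hs] with q' hq'
  have e : ∀ u', 𝒜.f p q (u', 𝒜.ψ q q') = 𝒜.f p q' (u', 0) := by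
    intro u'
    simp only [SDist.f]
    rw [symm_zero, (𝒜.ψ q).left_inv hq']
  simp only [e]
  rfl

theorem finrank_KerS_gv (hn : 2 ≤ n) (hB : Bl M) (p : M) {v v' : Eu n} (hv : ‖v‖ = 1) (hv' : ‖v'‖ = 1) :
    Module.finrank ℝ (𝒜.KerS (𝒜.gv p v) (-π / 2) 0) = Module.finrank ℝ (𝒜.KerS (𝒜.gv p v') (-π / 2) 0) := by
  have hpi := Real.pi_pos
  have hS : IsPreconnected (sphere (0 : Eu n) 1) := by
    refine isPreconnected_sphere ?_ 0 1
    refine Module.lt_rank_of_lt_finrank ?_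
    rw [finrank_euclideanSpace_fin]
    omega
  have hmem : ∀ {v : Eu n}, v ∈ sphere (0 : Eu n) 1 → ‖v‖ = 1 := fun h => mem_sphere_zero_iff_norm.1 h
  have key : indx (𝒜.NF (𝒜.gv p v) 0 (π / 2) (-3 * π / 4)) = indx (𝒜.NF (𝒜.gv p v') 0 (π / 2) (-3 * π / 4)) := by
    refine indx_const (A := fun v => 𝒜.NF (𝒜.gv p v) 0 (π / 2) (-3 * π / 4)) hS ?_ ?_ ?_
      (mem_sphere_zero_iff_norm.2 hv) (mem_sphere_zero_iff_norm.2 hv')
    · intro v0 hv0 a b
      obtain ⟨g1, g2, g3⟩ := gv_spec 𝒜 hB p (hmem hv0)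
      have hcont : ∀ t : ℝ, ContinuousWithinAt (fun v => 𝒜.gv p v t) (sphere (0 : Eu n) 1) v0 := by
        intro t
        have h1 := continuousOn_gv 𝒜 hB p (v0, t) ⟨hmem hv0, mem_univ _⟩
        have h2 : ContinuousWithinAt (fun v : Eu n => (v, t)) (sphere (0 : Eu n) 1) v0 :=
          (continuous_id.prodMk continuous_const).continuousWithinAt
        exact ContinuousWithinAt.comp (g := fun z : Eu n × ℝ => 𝒜.gv p z.1 z.2) (f := fun v : Eu n => (v, t))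
          (t := {v | ‖v‖ = 1} ×ˢ univ) h1 h2 (fun v hv => ⟨hmem hv, mem_univ _⟩)
      have hH : ∀ t : ℝ, 0 < |t| → |t| < π →
          ContinuousWithinAt (fun v => 𝒜.H p (𝒜.gv p v t) a b) (sphere (0 : Eu n) 1) v0 := by
        intro t ht ht'
        have hd : dist p (𝒜.gv p v0 t) = |t| := by
          have := g1 0 t (by rw [zero_sub, abs_neg]; exact ht'.le)
          rw [g2, zero_sub, abs_neg] at this
          exact this
        exact ContinuousAt.comp_continuousWithinAt (g := fun q => 𝒜.H p q a b)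
          (continuousAt_H 𝒜 hB p (by rw [hd]; exact ht) (by rw [hd]; exact ht') a b) (hcont t)
      have h1 := hH (π / 2) (by rw [abs_of_pos (by positivity)]; positivity)
        (by rw [abs_of_pos (by positivity)]; linarith)
      have h2 := hH (-3 * π / 4) (by rw [abs_of_neg (by linarith)]; linarith)
        (by rw [abs_of_neg (by linarith)]; linarith)
      have h3 : ContinuousWithinAt (fun v : Eu n => ⟪v, a⟫ * ⟪v, b⟫) (sphere (0 : Eu n) 1) v0 := by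
        refine Continuous.continuousWithinAt ?_
        fun_prop
      have h4 := (h1.add h2).add h3
      have e : ∀ v ∈ sphere (0 : Eu n) 1, 𝒜.NF (𝒜.gv p v) 0 (π / 2) (-3 * π / 4) a b
          = 𝒜.H p (𝒜.gv p v (π / 2)) a b + 𝒜.H p (𝒜.gv p v (-3 * π / 4)) a b + ⟪v, a⟫ * ⟪v, b⟫ := by
        intro v hv
        obtain ⟨k1, k2, k3⟩ := gv_spec 𝒜 hB p (hmem hv)
        rw [NF_apply, k2, k3]
      show Tendsto (fun v => 𝒜.NF (𝒜.gv p v) 0 (π / 2) (-3 * π / 4) a b) (𝓝[sphere (0 : Eu n) 1] v0)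
        (𝓝 (𝒜.NF (𝒜.gv p v0) 0 (π / 2) (-3 * π / 4) a b))
      rw [e v0 hv0]
      refine Tendsto.congr' ?_ h4
      filter_upwards [self_mem_nhdsWithin] with v hv
      exact (e v hv).symm
    · intro v0 hv0 a b
      obtain ⟨g1, -, -⟩ := gv_spec 𝒜 hB p (hmem hv0)
      exact NF_symm 𝒜 hB g1 (by linarith : (0 : ℝ) < π / 2).ne (abs_sub_lt_pi (by linarith) (by linarith))
        (by linarith : -3 * π / 4 < 0).ne' (abs_sub_lt_pi (by linarith) (by linarith)) a b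
    · intro v0 hv0 a ha
      obtain ⟨g1, -, -⟩ := gv_spec 𝒜 hB p (hmem hv0)
      exact NF_nondeg 𝒜 hB g1 (by linarith) (by linarith) (by linarith) (by linarith) (by linarith) a ha
  rw [indx_NF 𝒜 hB (gv_spec 𝒜 hB p hv).1 (r := -π / 2) (by linarith) (by linarith) (by linarith) (by linarith)
    (by linarith), indx_NF 𝒜 hB (gv_spec 𝒜 hB p hv').1 (r := -π / 2) (by linarith) (by linarith) (by linarith)
    (by linarith) (by linarith)] at key
  exact key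

/-- all geodesics -/
theorem finrank_KerS_const (hn : 2 ≤ n) (hB : Bl M) {c c' : ℝ → M} (hc : IsGeo c) (hc' : IsGeo c') {r s r' s' : ℝ}
    (h1 : r < s) (h2 : s < r + π) (h3 : r' < s') (h4 : s' < r' + π) :
    Module.finrank ℝ (𝒜.KerS c r s) = Module.finrank ℝ (𝒜.KerS c' r' s') := by
  have hpi := Real.pi_pos
  -- two geodesics with the same initial point
  have key : ∀ {c c' : ℝ → M}, IsGeo c → IsGeo c' → c 0 = c' 0 →
      Module.finrank ℝ (𝒜.KerS c (-π / 2) 0) = Module.finrank ℝ (𝒜.KerS c' (-π / 2) 0) := by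
    intro c c' hc hc' h0
    have e1 := gv_eq 𝒜 hc 0
    have e2 := gv_eq 𝒜 hc' 0
    simp only [zero_add] at e1 e2
    have h := finrank_KerS_gv 𝒜 hn hB (c 0) (IsGeo.exists_vel 𝒜 hc 0).1 (IsGeo.exists_vel 𝒜 hc' 0).1
    rw [h0, e2, ← h0, e1] at h
    exact h
  have key2 : ∀ {c : ℝ → M}, IsGeo c → ∀ a, Module.finrank ℝ (𝒜.KerS (fun t => c (t + a)) (-π / 2) 0)
      = Module.finrank ℝ (𝒜.KerS c (-π / 2) 0) := by
    intro c hc a
    rw [KerS_shift]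
    exact finrank_KerS_along 𝒜 hB hc (by linarith) (by linarith) (by linarith) (by linarith)
  rw [finrank_KerS_along 𝒜 hB hc h1 h2 (r' := -π / 2) (s' := 0) (by linarith) (by linarith),
    finrank_KerS_along 𝒜 hB hc' h3 h4 (r' := -π / 2) (s' := 0) (by linarith) (by linarith)]
  by_cases h0 : c 0 = c' 0
  · exact key hc hc' h0
  · obtain ⟨c2, g1, g2, g3⟩ := exists_geo 𝒜 hB h0
    rw [key hc g1 g2.symm, ← key2 g1 (dist (c 0) (c' 0))]
    refine key (g1.shift _) hc' ?_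
    simp only [zero_add]
    exact g3

/-- part (1) of `exists_kappa` -/
theorem exists_kappa_ker (hn : 2 ≤ n) (hB : Bl M) [Nonempty M] : ∃ κ : ℕ, κ ≤ n - 1 ∧
    ∀ c : ℝ → M, IsGeo c → ∀ r s : ℝ, r < s → s < r + π →
      ∃ V : Submodule ℝ (Eu n), (V : Set (Eu n)) = 𝒜.Ker c r s ∧ Module.finrank ℝ V = κ := by
  have hpi := Real.pi_pos
  obtain ⟨p⟩ := ‹Nonempty M›
  have hv : ‖(EuclideanSpace.single (⟨0, by omega⟩ : Fin n) (1 : ℝ) : Eu n)‖ = 1 := by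
    rw [PiLp.norm_single, norm_one]
  obtain ⟨g1, g2, g3⟩ := gv_spec 𝒜 hB p hv
  set c0 := 𝒜.gv p (EuclideanSpace.single (⟨0, by omega⟩ : Fin n) (1 : ℝ) : Eu n)
  refine ⟨Module.finrank ℝ (𝒜.KerS c0 (-π / 2) 0), ?_, fun c hc r s h1 h2 => ⟨𝒜.KerS c r s, rfl, ?_⟩⟩
  · have hlt : 𝒜.KerS c0 (-π / 2) 0 < ⊤ := by
      rw [lt_top_iff_ne_top]
      intro h
      have h1 : 𝒜.vel c0 0 ∈ 𝒜.KerS c0 (-π / 2) 0 := by rw [h]; exact Submodule.mem_top
      have h2 : ⟪𝒜.vel c0 0, 𝒜.vel c0 0⟫ = 0 := h1.1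
      rw [vel_inner_self 𝒜 g1] at h2
      exact one_ne_zero h2
    have := Submodule.finrank_lt hlt.ne
    rw [finrank_euclideanSpace_fin] at this
    omega
  · exact finrank_KerS_const 𝒜 hn hB hc g1 h1 h2 (by linarith) (by linarith)

end Pool.Agent.Lib.MP_ccbbf6_gt.Geo
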