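import Pool.Agent.Lib.MP_ccbbf6_gt.Geo.Ifc

/-!
# ME, part a: the phase space, its flow and flips (helper77)
-/

set_option autoImplicit false

open MeasureTheory Set Filter Topology Metric Real
open scoped ENNReal NNReal

noncomputable section

namespace Pool.Agent.Lib.MP_ccbbf6_gt.Geo

/-- the phase space (replacing the unit tangent bundle) -/
abbrev Ph (M : Type*) [MetricSpace M] : Type _ := {z : M × M // dist z.1 z.2 = π / 2}

/-- the pairs at distance in `(0, π)` -/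
def DD (M : Type*) [MetricSpace M] : Set (M × M) := {z | 0 < dist z.1 z.2 ∧ dist z.1 z.2 < π}

/-- What is needed about geodesics and the Jacobian. -/
structure GJ (M : Type*) [MetricSpace M] (g : M → M → ℝ → M) (J : M → M → ℝ) : Prop where
  geo : ∀ p q, 0 < dist p q → dist p q < π → IsGeo (g p q) ∧ g p q 0 = p ∧ g p q (dist p q) = q
  eq : ∀ c : ℝ → M, IsGeo c → ∀ s t, 0 < t → t < π → g (c s) (c (s + t)) = fun r => c (s + r)
  cont : ContinuousOn (fun z : (M × M) × ℝ => g z.1.1 z.1.2 z.2)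
    {z | 0 < dist z.1.1 z.1.2 ∧ dist z.1.1 z.1.2 < π}
  Jcont : ContinuousOn (fun z : M × M => J z.1 z.2) (DD M)
  Jpos : ∀ p q, 0 < dist p q → dist p q < π → 0 < J p q
  Jsymm : ∀ p q, 0 < dist p q → dist p q < π → J p q = J q p

variable {M : Type*} [MetricSpace M] {g : M → M → ℝ → M} {J : M → M → ℝ}

lemma isOpen_DD : IsOpen (DD M) :=
  (isOpen_lt continuous_const (continuous_fst.dist continuous_snd)).inter
    (isOpen_lt (continuous_fst.dist continuous_snd) continuous_const)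

lemma Ph.pos (x : Ph M) : 0 < dist x.1.1 x.1.2 := by rw [x.2]; positivity

lemma Ph.lt (x : Ph M) : dist x.1.1 x.1.2 < π := by rw [x.2]; linarith [Real.pi_pos]

lemma Ph.mem (x : Ph M) : x.1 ∈ DD M := ⟨x.pos, x.lt⟩

namespace GJ

lemma geoPh (h : GJ M g J) (x : Ph M) : IsGeo (g x.1.1 x.1.2) := (h.geo _ _ x.pos x.lt).1

lemma geoPh0 (h : GJ M g J) (x : Ph M) : g x.1.1 x.1.2 0 = x.1.1 := (h.geo _ _ x.pos x.lt).2.1

lemma geoPh1 (h : GJ M g J) (x : Ph M) : g x.1.1 x.1.2 (π / 2) = x.1.2 := by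
  have := (h.geo _ _ x.pos x.lt).2.2
  rwa [x.2] at this

lemma dist_geo {c : ℝ → M} (hc : IsGeo c) (s : ℝ) {t : ℝ} (h0 : 0 ≤ t) (h1 : t ≤ π) :
    dist (c s) (c (s + t)) = t := by
  rw [hc s (s + t) (by rw [sub_add_cancel_left, abs_neg, abs_of_nonneg h0]; exact h1),
    sub_add_cancel_left, abs_neg, abs_of_nonneg h0]

/-- the point of the phase space given by a geodesic and a time -/
def pt {c : ℝ → M} (hc : IsGeo c) (s : ℝ) : Ph M :=
  ⟨(c s, c (s + π / 2)), dist_geo hc s (by positivity) (by linarith [Real.pi_pos])⟩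

lemma g_pt (h : GJ M g J) {c : ℝ → M} (hc : IsGeo c) (s : ℝ) :
    g (pt hc s).1.1 (pt hc s).1.2 = fun r => c (s + r) :=
  h.eq c hc s (π / 2) (by positivity) (by linarith [Real.pi_pos])

/-- the flow -/
def flow (h : GJ M g J) (r : ℝ) (x : Ph M) : Ph M := pt (h.geoPh x) r

lemma geo_rev {c : ℝ → M} (hc : IsGeo c) : IsGeo (fun t => c (-t)) := by
  intro s t h
  have e : |(-s) - (-t)| = |s - t| := by rw [← abs_neg]; congr 1; ring
  rw [← e]
  exact hc (-s) (-t) (by rw [e]; exact h)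

/-- the flip -/
def fl (h : GJ M g J) (t : ℝ) (x : Ph M) : Ph M := pt (geo_rev (h.geoPh x)) (-t)

lemma fl_fst (h : GJ M g J) (t : ℝ) (x : Ph M) : (h.fl t x).1.1 = g x.1.1 x.1.2 t := by
  show g x.1.1 x.1.2 (-(-t)) = _
  rw [neg_neg]

lemma fl_snd (h : GJ M g J) (t : ℝ) (x : Ph M) :
    (h.fl t x).1.2 = g x.1.1 x.1.2 (t - π / 2) := by
  show g x.1.1 x.1.2 (-(-t + π / 2)) = _
  congr 1; ring

lemma flow_fst (h : GJ M g J) (t : ℝ) (x : Ph M) : (h.flow t x).1.1 = g x.1.1 x.1.2 t := rfl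

lemma flow_snd (h : GJ M g J) (t : ℝ) (x : Ph M) :
    (h.flow t x).1.2 = g x.1.1 x.1.2 (t + π / 2) := rfl

lemma g_flow (h : GJ M g J) (t : ℝ) (x : Ph M) :
    g (h.flow t x).1.1 (h.flow t x).1.2 = fun r => g x.1.1 x.1.2 (t + r) :=
  h.g_pt (h.geoPh x) t

lemma g_fl (h : GJ M g J) (t : ℝ) (x : Ph M) :
    g (h.fl t x).1.1 (h.fl t x).1.2 = fun r => g x.1.1 x.1.2 (t - r) := by
  have := h.g_pt (geo_rev (h.geoPh x)) (-t)
  have e : g (h.fl t x).1.1 (h.fl t x).1.2 = fun r => g x.1.1 x.1.2 (-(-t + r)) := this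
  rw [e]
  funext r
  congr 1; ring

lemma flow_flow (h : GJ M g J) (a b : ℝ) (x : Ph M) : h.flow a (h.flow b x) = h.flow (b + a) x := by
  apply Subtype.ext
  apply Prod.ext
  · rw [flow_fst, h.g_flow b x, flow_fst]
  · rw [flow_snd, h.g_flow b x, flow_snd, add_assoc]

lemma fl_fl (h : GJ M g J) (s t : ℝ) (x : Ph M) : h.fl t (h.fl s x) = h.flow (s - t) x := by
  apply Subtype.ext
  apply Prod.ext
  · rw [fl_fst, h.g_fl s x, flow_fst]
  · rw [fl_snd, h.g_fl s x, flow_snd]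
    show g x.1.1 x.1.2 (s - (t - π / 2)) = _
    congr 1; ring

lemma continuous_g (h : GJ M g J) : Continuous (fun z : Ph M × ℝ => g z.1.1.1 z.1.1.2 z.2) := by
  have h1 : Continuous (fun z : Ph M × ℝ => ((z.1.1, z.2) : (M × M) × ℝ)) :=
    (continuous_subtype_val.comp continuous_fst).prodMk continuous_snd
  exact h.cont.comp_continuous h1 fun z => z.1.mem

lemma continuous_flow (h : GJ M g J) : Continuous (fun z : ℝ × Ph M => h.flow z.1 z.2) := by
  apply Continuous.subtype_mk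
  have hg := h.continuous_g
  refine Continuous.prodMk ?_ ?_
  · exact hg.comp (continuous_snd.prodMk continuous_fst)
  · exact hg.comp (continuous_snd.prodMk (continuous_fst.add continuous_const))

lemma continuous_fl (h : GJ M g J) : Continuous (fun z : ℝ × Ph M => h.fl z.1 z.2) := by
  rw [continuous_induced_rng]
  have hg := h.continuous_g
  have h1 : Continuous (fun z : ℝ × Ph M => g z.2.1.1 z.2.1.2 z.1) :=
    hg.comp (continuous_snd.prodMk continuous_fst)
  have h2 : Continuous (fun z : ℝ × Ph M => g z.2.1.1 z.2.1.2 (z.1 - π / 2)) :=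
    hg.comp (continuous_snd.prodMk (continuous_fst.sub continuous_const))
  have h3 : (Subtype.val ∘ fun z : ℝ × Ph M => h.fl z.1 z.2) =
      fun z : ℝ × Ph M => (g z.2.1.1 z.2.1.2 z.1, g z.2.1.1 z.2.1.2 (z.1 - π / 2)) := by
    funext z
    exact Prod.ext (h.fl_fst z.1 z.2) (h.fl_snd z.1 z.2)
  rw [h3]
  exact h1.prodMk h2

open Classical in
/-- the point of the phase space given by a pair in `DD` -/
def kap (h : GJ M g J) (x₀ : Ph M) (z : M × M) : Ph M :=
  if hz : z ∈ DD M then pt (h.geo z.1 z.2 hz.1 hz.2).1 0 else x₀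

lemma kap_mem (h : GJ M g J) (x₀ : Ph M) {z : M × M} (hz : z ∈ DD M) :
    (h.kap x₀ z).1 = (z.1, g z.1 z.2 (π / 2)) := by
  unfold kap
  rw [dif_pos hz]
  apply Prod.ext
  · exact (h.geo z.1 z.2 hz.1 hz.2).2.1
  · show g z.1 z.2 (0 + π / 2) = _
    rw [zero_add]

/-- pairs on a geodesic -/
lemma kap_geo (h : GJ M g J) (x₀ : Ph M) {c : ℝ → M} (hc : IsGeo c) (s : ℝ) {t : ℝ} (h0 : 0 < t)
    (h1 : t < π) : h.kap x₀ (c s, c (s + t)) = pt hc s := by
  have hd := dist_geo hc s h0.le h1.le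
  have hz : ((c s, c (s + t)) : M × M) ∈ DD M := by
    refine ⟨?_, ?_⟩
    · show 0 < dist (c s) (c (s + t))
      rw [hd]; exact h0
    · show dist (c s) (c (s + t)) < π
      rw [hd]; exact h1
  apply Subtype.ext
  rw [h.kap_mem x₀ hz]
  show (c s, g (c s) (c (s + t)) (π / 2)) = (c s, c (s + π / 2))
  rw [h.eq c hc s t h0 h1]

lemma g_kap (h : GJ M g J) (x₀ : Ph M) {z : M × M} (hz : z ∈ DD M) :
    g (h.kap x₀ z).1.1 (h.kap x₀ z).1.2 = g z.1 z.2 := by
  rw [h.kap_mem x₀ hz]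
  have hc := (h.geo z.1 z.2 hz.1 hz.2)
  have := h.eq _ hc.1 0 (π / 2) (by positivity) (by linarith [Real.pi_pos])
  rw [hc.2.1] at this
  simp only [zero_add] at this
  exact this

/-- the flip of a pair -/
lemma kap_swap (h : GJ M g J) (x₀ : Ph M) {z : M × M} (hz : z ∈ DD M) :
    h.kap x₀ z.swap = h.fl (dist z.1 z.2) (h.kap x₀ z) := by
  obtain ⟨hc, hc0, hc1⟩ := h.geo z.1 z.2 hz.1 hz.2
  set t := dist z.1 z.2 with ht
  set c := g z.1 z.2 with hcdef
  have h1 := h.kap_geo x₀ (geo_rev hc) (-t) hz.1 hz.2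
  have h2 : c (- -t) = z.2 := by
    rw [neg_neg, hc1]
  have h3 : c (-(-t + t)) = z.1 := by
    rw [neg_add_cancel, neg_zero, hc0]
  simp only [← ht] at h1
  rw [h2, h3] at h1
  have h4 : z.swap = (z.2, z.1) := rfl
  rw [h4, h1]
  apply Subtype.ext
  apply Prod.ext
  · rw [fl_fst, h.g_kap x₀ hz]
    show c (-(-t)) = c t
    rw [neg_neg]
  · rw [fl_snd, h.g_kap x₀ hz]
    show c (-(-t + π / 2)) = c (t - π / 2)
    congr 1; ring

lemma continuousOn_kap (h : GJ M g J) (x₀ : Ph M) : ContinuousOn (h.kap x₀) (DD M) := by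
  rw [continuousOn_iff_continuous_domRestrict, continuous_induced_rng]
  have h1 : (Subtype.val ∘ (DD M).domRestrict (h.kap x₀)) =
      fun z : DD M => (z.1.1, g z.1.1 z.1.2 (π / 2)) := by
    funext z
    exact h.kap_mem x₀ z.2
  rw [h1]
  refine (continuous_fst.comp continuous_subtype_val).prodMk ?_
  have h2 : Continuous (fun z : DD M => ((z.1, π / 2) : (M × M) × ℝ)) :=
    continuous_subtype_val.prodMk continuous_const
  exact h.cont.comp_continuous h2 fun z => z.2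

end GJ

end Pool.Agent.Lib.MP_ccbbf6_gt.Geo
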