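import Pool.Agent.Lib.MP_ccbbf6_gt.FlowInt
import Pool.Agent.Lib.MP_ccbbf6_gt.Geo.MEb

/-!
# ME, part c: the flow preserves the measure (helper77)
-/

set_option autoImplicit false

open MeasureTheory Set Filter Topology Metric Real
open scoped ENNReal NNReal BoundedContinuousFunction

noncomputable section

namespace Pool.Agent.Lib.MP_ccbbf6_gt.Geo

variable {M : Type*} [MetricSpace M] [CompactSpace M] [MeasurableSpace M] [BorelSpace M]
  {g : M → M → ℝ → M} {J : M → M → ℝ}
  {vol : Measure M} [IsFiniteMeasure vol] {S : Type*} [MeasurableSpace S] {σ : Measure S}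
  [IsFiniteMeasure σ] {γ : M → S → ℝ → M}

omit [MeasurableSpace M] [BorelSpace M] in
lemma compact_Ph : IsCompact {z : M × M | dist z.1 z.2 = π / 2} :=
  (isClosed_eq (continuous_fst.dist continuous_snd) continuous_const).isCompact

instance : CompactSpace (Ph M) := isCompact_iff_compactSpace.1 compact_Ph

omit [IsFiniteMeasure σ] in
lemma mu_univ (hP : Polar vol σ γ J) (h : GJ M g J) (x₀ : Ph M) :
    mu vol h x₀ univ = σ univ * vol univ := by
  rw [← lintegral_one, lintegral_mu hP h x₀ measurable_const]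
  simp

lemma isFinite_mu (hP : Polar vol σ γ J) (h : GJ M g J) (x₀ : Ph M) :
    IsFiniteMeasure (mu vol h x₀) := by
  constructor
  rw [mu_univ hP h x₀]
  exact ENNReal.mul_lt_top (measure_lt_top _ _) (measure_lt_top _ _)

omit [CompactSpace M] [MeasurableSpace M] [BorelSpace M] in
lemma WW_swap (h : GJ M g J) (z : M × M) : WW J z.swap = WW J z := by
  by_cases hz : z ∈ DD M
  · have hz' : z.swap ∈ DD M := by
      refine ⟨?_, ?_⟩
      · show 0 < dist z.2 z.1
        rw [dist_comm]; exact hz.1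
      · show dist z.2 z.1 < π
        rw [dist_comm]; exact hz.2
    unfold WW
    rw [indicator_of_mem hz, indicator_of_mem hz']
    show (ENNReal.ofReal (J z.2 z.1))⁻¹ = _
    rw [h.Jsymm z.1 z.2 hz.1 hz.2]
  · have hz' : z.swap ∉ DD M := by
      intro hz'
      apply hz
      refine ⟨?_, ?_⟩
      · have := hz'.1
        rw [dist_comm]; exact this
      · have := hz'.2
        rw [dist_comm]; exact this
    unfold WW
    rw [indicator_of_notMem hz, indicator_of_notMem hz']

/-- flip invariance -/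
lemma lintegral_fl (hP : Polar vol σ γ J) (h : GJ M g J) (x₀ : Ph M)
    {f : Ph M × ℝ → ℝ≥0∞} (hf : Measurable f) :
    ∫⁻ t in Ioo 0 π, ∫⁻ x, f (h.fl t x, t) ∂(mu vol h x₀) =
      ∫⁻ t in Ioo 0 π, ∫⁻ x, f (x, t) ∂(mu vol h x₀) := by
  have hfl : Measurable fun y : Ph M × ℝ => (h.fl y.2 y.1, y.2) :=
    ((h.continuous_fl.comp (continuous_snd.prodMk continuous_fst)).prodMk
      continuous_snd).measurable
  have hf' : Measurable fun y : Ph M × ℝ => f (h.fl y.2 y.1, y.2) := hf.comp hfl
  rw [← lintegral_Phi hP h x₀ hf, ← lintegral_Phi hP h x₀ hf']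
  have hm : Measurable fun z : M × M => WW J z * f (h.kap x₀ z, dist z.1 z.2) :=
    h.measurable_WW.mul (hf.comp (h.measurable_Phi x₀))
  have hsw := (Measure.measurePreserving_swap (μ := vol) (ν := vol)).lintegral_comp hm
  rw [← hsw]
  refine lintegral_congr fun z => ?_
  by_cases hz : z ∈ DD M
  · rw [WW_swap h z, h.kap_swap x₀ hz]
    show WW J z * f (h.fl (dist z.1 z.2) (h.kap x₀ z), dist z.1 z.2) =
      WW J z * f (h.fl (dist z.1 z.2) (h.kap x₀ z), dist z.2 z.1)
    rw [dist_comm z.2 z.1]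
  · rw [WW_swap h z]
    have : WW J z = 0 := indicator_of_notMem hz _
    rw [this, zero_mul, zero_mul]

/-- the flips preserve the measure -/
theorem fl_preserving (hP : Polar vol σ γ J) (h : GJ M g J) (x₀ : Ph M) {t₀ : ℝ}
    (ht₀ : t₀ ∈ Ioo 0 π) : MeasurePreserving (h.fl t₀) (mu vol h x₀) (mu vol h x₀) := by
  have := isFinite_mu hP h x₀
  have hflc : ∀ t, Continuous (h.fl t) := fun t =>
    h.continuous_fl.comp (continuous_const.prodMk continuous_id)
  refine ⟨(hflc t₀).measurable, ?_⟩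
  have : IsFiniteMeasure ((mu vol h x₀).map (h.fl t₀)) :=
    Measure.isFiniteMeasure_map _ _
  apply ext_of_forall_lintegral_eq_of_IsFiniteMeasure
  intro f
  rw [lintegral_map f.continuous.measurable.coe_nnreal_ennreal (hflc t₀).measurable]
  have hΦ : Continuous fun t => ∫ x, ((f (h.fl t x) : ℝ≥0) : ℝ) ∂(mu vol h x₀) := by
    have h0 := continuous_parametric_integral_of_continuous (μ := mu vol h x₀)
      (f := fun t x => ((f (h.fl t x) : ℝ≥0) : ℝ)) (NNReal.continuous_coe.comp
        (f.continuous.comp h.continuous_fl)) (s := univ) isCompact_univ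
    simpa using h0
  have hint : ∀ t, Integrable (fun x => ((f (h.fl t x) : ℝ≥0) : ℝ)) (mu vol h x₀) := fun t =>
    MPbl.integrable_of_cont _ (NNReal.continuous_coe.comp (f.continuous.comp (hflc t)))
  have hφ : Continuous fun t => ∫⁻ x, f (h.fl t x) ∂(mu vol h x₀) := by
    have e : (fun t => ∫⁻ x, f (h.fl t x) ∂(mu vol h x₀)) =
        fun t => ENNReal.ofReal (∫ x, ((f (h.fl t x) : ℝ≥0) : ℝ) ∂(mu vol h x₀)) := by
      funext t
      exact lintegral_coe_eq_integral _ (hint t)
    rw [e]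
    exact ENNReal.continuous_ofReal.comp hΦ
  have hae : (fun t => ∫⁻ x, f (h.fl t x) ∂(mu vol h x₀)) =ᵐ[volume.restrict (Ioo 0 π)]
      fun _ => ∫⁻ x, f x ∂(mu vol h x₀) := by
    apply ae_eq_of_forall_setLIntegral_eq_of_sigmaFinite hφ.measurable measurable_const
    intro s hs _
    rw [← lintegral_indicator hs, ← lintegral_indicator hs]
    have hfm : Measurable fun y : Ph M × ℝ => s.indicator (fun _ => (f y.1 : ℝ≥0∞)) y.2 := by
      have h1 : (fun y : Ph M × ℝ => s.indicator (fun _ => (f y.1 : ℝ≥0∞)) y.2) =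
          (Prod.snd ⁻¹' s).indicator (fun y : Ph M × ℝ => (f y.1 : ℝ≥0∞)) := by
        funext y
        by_cases hy : y.2 ∈ s
        · rw [indicator_of_mem hy, indicator_of_mem (show y ∈ Prod.snd ⁻¹' s from hy)]
        · rw [indicator_of_notMem hy, indicator_of_notMem (show y ∉ Prod.snd ⁻¹' s from hy)]
      rw [h1]
      exact ((f.continuous.measurable.coe_nnreal_ennreal).comp measurable_fst).indicator
        (measurable_snd hs)
    have hmain := lintegral_fl hP h x₀ hfm
    have e1 : ∀ t : ℝ, s.indicator (fun t => ∫⁻ x, f (h.fl t x) ∂(mu vol h x₀)) t =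
        ∫⁻ x, s.indicator (fun _ => (f (h.fl t x) : ℝ≥0∞)) t ∂(mu vol h x₀) := by
      intro t
      by_cases hy : t ∈ s
      · simp only [indicator_of_mem hy]
      · simp only [indicator_of_notMem hy, lintegral_zero]
    have e2 : ∀ t : ℝ, s.indicator (fun _ => ∫⁻ x, f x ∂(mu vol h x₀)) t =
        ∫⁻ x, s.indicator (fun _ => (f x : ℝ≥0∞)) t ∂(mu vol h x₀) := by
      intro t
      by_cases hy : t ∈ s
      · simp only [indicator_of_mem hy]
      · simp only [indicator_of_notMem hy, lintegral_zero]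
    simp only [e1, e2]
    exact hmain
  exact Measure.eqOn_open_of_ae_eq hae isOpen_Ioo hφ.continuousOn continuousOn_const ht₀

omit [CompactSpace M] [MeasurableSpace M] [BorelSpace M] in
lemma flow_zero (h : GJ M g J) (x : Ph M) : h.flow 0 x = x := by
  apply Subtype.ext
  apply Prod.ext
  · rw [GJ.flow_fst, h.geoPh0]
  · rw [GJ.flow_snd, zero_add, h.geoPh1]

lemma flow_small (hP : Polar vol σ γ J) (h : GJ M g J) (x₀ : Ph M) {r : ℝ} (hr : |r| < π) :
    MeasurePreserving (h.flow r) (mu vol h x₀) (mu vol h x₀) := by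
  obtain ⟨h1, h2⟩ := abs_lt.1 hr
  have e : h.flow r = h.fl ((π - r) / 2) ∘ h.fl ((π + r) / 2) := by
    funext x
    show _ = h.fl _ (h.fl _ x)
    rw [h.fl_fl]
    congr 1; ring
  rw [e]
  exact (fl_preserving hP h x₀ ⟨by linarith, by linarith⟩).comp
    (fl_preserving hP h x₀ ⟨by linarith, by linarith⟩)

/-- the flow preserves the measure -/
theorem flow_preserving (hP : Polar vol σ γ J) (h : GJ M g J) (x₀ : Ph M) (r : ℝ) :
    MeasurePreserving (h.flow r) (mu vol h x₀) (mu vol h x₀) := by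
  obtain ⟨k, hk⟩ := exists_nat_gt (|r| / π)
  have hk0 : (0 : ℝ) < k := lt_of_le_of_lt (by positivity) hk
  have hsmall : |r / k| < π := by
    rw [abs_div, abs_of_pos hk0, div_lt_iff₀ hk0]
    rw [div_lt_iff₀ Real.pi_pos] at hk
    linarith
  have e : ∀ j : ℕ, (h.flow (r / k))^[j] = h.flow (j * (r / k)) := by
    intro j
    induction j with
    | zero =>
      funext x
      simp only [Function.iterate_zero, id, Nat.cast_zero, zero_mul]
      exact (flow_zero h x).symm
    | succ j ih =>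
      funext x
      rw [Function.iterate_succ_apply', ih, h.flow_flow]
      congr 1
      push_cast; ring
  have h1 := (flow_small hP h x₀ hsmall).iterate k
  rw [e k] at h1
  have h2 : (k : ℝ) * (r / k) = r := by field_simp
  rwa [h2] at h1

/-- the measure is positive on open sets -/
theorem mu_openPos [vol.IsOpenPosMeasure] (h : GJ M g J) (x₀ : Ph M) :
    (mu vol h x₀).IsOpenPosMeasure := by
  constructor
  intro U hU hne hzero
  obtain ⟨x, hx⟩ := hne
  -- the open set of pairs
  have hO : IsOpen (DD M ∩ h.kap x₀ ⁻¹' U) :=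
    (h.continuousOn_kap x₀).isOpen_inter_preimage isOpen_DD hU
  have hO2 : IsOpen ({z : M × M | dist z.1 z.2 < 1} ∩ (DD M ∩ h.kap x₀ ⁻¹' U)) :=
    (isOpen_lt (continuous_fst.dist continuous_snd) continuous_const).inter hO
  have hmem : (g x.1.1 x.1.2 0, g x.1.1 x.1.2 (0 + 1 / 2)) ∈
      {z : M × M | dist z.1 z.2 < 1} ∩ (DD M ∩ h.kap x₀ ⁻¹' U) := by
    have hπ := Real.pi_gt_three
    have hd := GJ.dist_geo (h.geoPh x) 0 (t := 1 / 2) (by norm_num) (by linarith)
    refine ⟨?_, ⟨?_, ?_⟩, ?_⟩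
    · show dist _ _ < 1
      rw [hd]; norm_num
    · show 0 < dist _ _
      rw [hd]; norm_num
    · show dist _ _ < π
      rw [hd]; linarith
    · show h.kap x₀ _ ∈ U
      rw [h.kap_geo x₀ (h.geoPh x) 0 (by norm_num) (by linarith)]
      have : GJ.pt (h.geoPh x) 0 = x := flow_zero h x
      rw [this]
      exact hx
  have hpos : 0 < (vol.prod vol) ({z : M × M | dist z.1 z.2 < 1} ∩ (DD M ∩ h.kap x₀ ⁻¹' U)) :=
    hO2.measure_pos _ ⟨_, hmem⟩
  have hone : Measurable (U.indicator (fun _ => (1 : ℝ≥0∞))) :=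
    measurable_const.indicator hU.measurableSet
  have h1 : mu vol h x₀ U =
      ∫⁻ z, W1 J z * U.indicator (fun _ => (1 : ℝ≥0∞)) (h.kap x₀ z) ∂(vol.prod vol) := by
    rw [← lintegral_mu' h x₀ hone, lintegral_indicator hU.measurableSet]
    simp
  rw [h1] at hzero
  have hm : Measurable fun z => W1 J z * U.indicator (fun _ => (1 : ℝ≥0∞)) (h.kap x₀ z) :=
    (measurable_W1 h).mul (hone.comp (h.measurable_kap x₀))
  rw [lintegral_eq_zero_iff hm] at hzero
  have h2 : (vol.prod vol) ({z : M × M | dist z.1 z.2 < 1} ∩ (DD M ∩ h.kap x₀ ⁻¹' U)) = 0 := by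
    refine measure_mono_null ?_ hzero
    rintro z ⟨hz1, hz2, hz3⟩ hz4
    have hz4' : W1 J z * U.indicator (fun _ => (1 : ℝ≥0∞)) (h.kap x₀ z) = 0 := hz4
    have e1 : W1 J z = (ENNReal.ofReal (J z.1 z.2))⁻¹ := by
      unfold W1 WW
      rw [indicator_of_mem hz1, indicator_of_mem hz2]
    have e2 : U.indicator (fun _ => (1 : ℝ≥0∞)) (h.kap x₀ z) = 1 :=
      indicator_of_mem (show h.kap x₀ z ∈ U from hz3) _
    rw [e1, e2, mul_one, ENNReal.inv_eq_zero] at hz4'
    exact ENNReal.ofReal_ne_top hz4'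
  exact hpos.ne' h2

end Pool.Agent.Lib.MP_ccbbf6_gt.Geo
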