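import Pool.Agent.Lib.MP_ccbbf6_gt.Geo.MEc

/-!
# ME, part d: the volume inequality and the case of equality, from Theorem 1 (helper77)
-/

set_option autoImplicit false

open MeasureTheory Set Filter Topology Metric Real
open scoped ENNReal NNReal

noncomputable section

namespace Pool.Agent.Lib.MP_ccbbf6_gt.Geo

variable {M : Type*} [MetricSpace M] [CompactSpace M] [MeasurableSpace M] [BorelSpace M]
  {g : M → M → ℝ → M} {J : M → M → ℝ}
  {vol : Measure M} [IsFiniteMeasure vol] {S : Type*} [MeasurableSpace S] {σ : Measure S}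
  [IsFiniteMeasure σ] {γ : M → S → ℝ → M}

/-- the Jacobian along the geodesic of `x` -/
def jj (g : M → M → ℝ → M) (J : M → M → ℝ) (t : ℝ) (x : Ph M) : ℝ :=
  J x.1.1 (g x.1.1 x.1.2 t)

/-- the Jacobian, extended by zero -/
def FF (g : M → M → ℝ → M) (J : M → M → ℝ) : Ph M × ℝ → ℝ≥0∞ :=
  {y : Ph M × ℝ | y.2 ∈ Ioo 0 π}.indicator fun y => ENNReal.ofReal (jj g J y.2 y.1)

omit [CompactSpace M] [MeasurableSpace M] [BorelSpace M] in
lemma mem_DD_geo {c : ℝ → M} (hc : IsGeo c) (s : ℝ) {t : ℝ} (ht : t ∈ Ioo 0 π) :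
    ((c s, c (s + t)) : M × M) ∈ DD M := by
  have hd := GJ.dist_geo hc s ht.1.le ht.2.le
  refine ⟨?_, ?_⟩
  · show 0 < dist (c s) (c (s + t))
    rw [hd]; exact ht.1
  · show dist (c s) (c (s + t)) < π
    rw [hd]; exact ht.2

omit [CompactSpace M] [MeasurableSpace M] [BorelSpace M] in
lemma mem_DD_ph (h : GJ M g J) (x : Ph M) {t : ℝ} (ht : t ∈ Ioo 0 π) :
    ((x.1.1, g x.1.1 x.1.2 t) : M × M) ∈ DD M := by
  have := mem_DD_geo (h.geoPh x) 0 ht
  rwa [h.geoPh0, zero_add] at this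

omit [CompactSpace M] [MeasurableSpace M] [BorelSpace M] in
lemma jj_pos (h : GJ M g J) (x : Ph M) {t : ℝ} (ht : t ∈ Ioo 0 π) : 0 < jj g J t x :=
  have hz := mem_DD_ph h x ht
  h.Jpos _ _ hz.1 hz.2

omit [CompactSpace M] [MeasurableSpace M] [BorelSpace M] in
lemma jj_cont (h : GJ M g J) {t : ℝ} (ht : t ∈ Ioo 0 π) : Continuous (jj g J t) := by
  have h1 : Continuous fun x : Ph M => ((x.1.1, g x.1.1 x.1.2 t) : M × M) :=
    (continuous_fst.comp continuous_subtype_val).prodMk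
      (h.continuous_g.comp (continuous_id.prodMk continuous_const))
  exact h.Jcont.comp_continuous h1 fun x => mem_DD_ph h x ht

omit [CompactSpace M] [MeasurableSpace M] [BorelSpace M] in
lemma jj_cont2 (h : GJ M g J) :
    ContinuousOn (fun y : Ph M × ℝ => jj g J y.2 y.1) {y : Ph M × ℝ | y.2 ∈ Ioo 0 π} := by
  have h1 : Continuous fun y : Ph M × ℝ => ((y.1.1.1, g y.1.1.1 y.1.1.2 y.2) : M × M) :=
    (continuous_fst.comp (continuous_subtype_val.comp continuous_fst)).prodMk h.continuous_g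
  exact h.Jcont.comp h1.continuousOn fun y hy => mem_DD_ph h y.1 hy

omit [CompactSpace M] [MeasurableSpace M] [BorelSpace M] in
lemma jj_flow (h : GJ M g J) (t w : ℝ) (x : Ph M) :
    jj g J t (h.flow w x) = J (g x.1.1 x.1.2 w) (g x.1.1 x.1.2 (w + t)) := by
  unfold jj
  rw [h.g_flow w x]
  rfl

lemma measurable_FF (h : GJ M g J) : Measurable (FF g J) := by
  have hO : MeasurableSet {y : Ph M × ℝ | y.2 ∈ Ioo 0 π} := measurable_snd measurableSet_Ioo
  refine measurable_of_restrict_of_restrict_compl hO ?_ ?_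
  · have h1 : ContinuousOn (fun y : Ph M × ℝ => ENNReal.ofReal (jj g J y.2 y.1))
        {y : Ph M × ℝ | y.2 ∈ Ioo 0 π} := ENNReal.continuous_ofReal.comp_continuousOn (jj_cont2 h)
    have h2 : ContinuousOn (FF g J) {y : Ph M × ℝ | y.2 ∈ Ioo 0 π} :=
      h1.congr fun y hy => indicator_of_mem hy _
    exact (continuousOn_iff_continuous_domRestrict.1 h2).measurable
  · have : {y : Ph M × ℝ | y.2 ∈ Ioo 0 π}ᶜ.domRestrict (FF g J) = fun _ => 0 := by
      funext y
      have hy : (y : Ph M × ℝ) ∉ {y : Ph M × ℝ | y.2 ∈ Ioo 0 π} := y.2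
      show FF g J (y : Ph M × ℝ) = 0
      exact indicator_of_notMem hy _
    rw [this]
    exact measurable_const

/-- the total mass -/
lemma lintegral_FF (hP : Polar vol σ γ J) (h : GJ M g J) (x₀ : Ph M) :
    ∫⁻ t in Ioo 0 π, ∫⁻ x, FF g J (x, t) ∂(mu vol h x₀) ≤ vol univ * vol univ := by
  rw [← lintegral_Phi hP h x₀ (measurable_FF h)]
  have h1 : ∀ z : M × M, WW J z * FF g J (h.kap x₀ z, dist z.1 z.2) ≤ 1 := by
    intro z
    by_cases hz : z ∈ DD M
    · obtain ⟨hc, hc0, hc1⟩ := h.geo z.1 z.2 hz.1 hz.2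
      have e1 : WW J z = (ENNReal.ofReal (J z.1 z.2))⁻¹ := indicator_of_mem hz _
      have e2 : FF g J (h.kap x₀ z, dist z.1 z.2) = ENNReal.ofReal (J z.1 z.2) := by
        have hy : (h.kap x₀ z, dist z.1 z.2) ∈ {y : Ph M × ℝ | y.2 ∈ Ioo 0 π} := hz
        unfold FF
        rw [indicator_of_mem hy]
        unfold jj
        simp only
        rw [h.g_kap x₀ hz, hc1, h.kap_mem x₀ hz]
      rw [e1, e2]
      exact ENNReal.inv_mul_le_one _
    · have e1 : WW J z = 0 := indicator_of_notMem hz _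
      rw [e1, zero_mul]
      exact zero_le_one
  calc ∫⁻ z, WW J z * FF g J (h.kap x₀ z, dist z.1 z.2) ∂(vol.prod vol)
      ≤ ∫⁻ _, 1 ∂(vol.prod vol) := lintegral_mono h1
    _ = vol univ * vol univ := by
        rw [lintegral_one, ← univ_prod_univ, Measure.prod_prod]

/-- the inequality for one `t` -/
lemma ineq_t (hP : Polar vol σ γ J) (h : GJ M g J) (x₀ : Ph M) {m : ℝ → ℝ} {t : ℝ}
    (ht : t ∈ Ioo 0 π) (hm : 0 < m t)
    (hT : ∀ c : ℝ → M, IsGeo c → 2 * π * Real.log (m t) ≤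
      ∫ w in (0 : ℝ)..(2 * π), Real.log (J (c w) (c (w + t)))) :
    mu vol h x₀ univ * ENNReal.ofReal (m t) ≤ ∫⁻ x, FF g J (x, t) ∂(mu vol h x₀) := by
  have := isFinite_mu hP h x₀
  have h1 := MPbl.flow_ineq (mu vol h x₀) h.flow h.continuous_flow (flow_preserving hP h x₀)
    (jj_cont h ht) (fun x => jj_pos h x ht) (Real.log (m t)) (fun x => by
      simp only [jj_flow]
      exact hT _ (h.geoPh x))
  rw [Real.exp_log hm] at h1
  have h2 : ∀ x, FF g J (x, t) = ENNReal.ofReal (jj g J t x) := fun x =>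
    indicator_of_mem (show (x, t) ∈ {y : Ph M × ℝ | y.2 ∈ Ioo 0 π} from ht) _
  simp only [h2]
  rw [← ofReal_integral_eq_lintegral_ofReal (MPbl.integrable_of_cont _ (jj_cont h ht))
    (Eventually.of_forall fun x => (jj_pos h x ht).le)]
  calc mu vol h x₀ univ * ENNReal.ofReal (m t)
      = ENNReal.ofReal ((mu vol h x₀).real univ * m t) := by
        rw [ENNReal.ofReal_mul measureReal_nonneg, ofReal_measureReal]
    _ ≤ _ := ENNReal.ofReal_le_ofReal h1

/-- **The volume inequality.** -/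
theorem vol_ineq [vol.IsOpenPosMeasure] (hP : Polar vol σ γ J) (h : GJ M g J) (x₀ : Ph M)
    {m : ℝ → ℝ} (hm : ∀ t ∈ Ioo 0 π, 0 < m t)
    (hT : ∀ t ∈ Ioo 0 π, ∀ c : ℝ → M, IsGeo c → 2 * π * Real.log (m t) ≤
      ∫ w in (0 : ℝ)..(2 * π), Real.log (J (c w) (c (w + t)))) :
    σ univ * ∫⁻ t in Ioo 0 π, ENNReal.ofReal (m t) ≤ vol univ := by
  have h1 : mu vol h x₀ univ * ∫⁻ t in Ioo 0 π, ENNReal.ofReal (m t) ≤ vol univ * vol univ := by
    have := isFinite_mu hP h x₀
    rw [← lintegral_const_mul' _ _ (measure_ne_top _ _)]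
    refine le_trans ?_ (lintegral_FF hP h x₀)
    exact setLIntegral_mono' measurableSet_Ioo fun t ht => ineq_t hP h x₀ ht (hm t ht) (hT t ht)
  rw [mu_univ hP h x₀, mul_comm (σ univ), mul_assoc] at h1
  have : Nonempty M := ⟨x₀.1.1⟩
  have hpos : vol univ ≠ 0 := isOpen_univ.measure_ne_zero vol univ_nonempty
  exact (ENNReal.mul_le_mul_iff_right hpos (measure_ne_top _ _)).1 h1

/-- **The case of equality.** -/
theorem vol_eq [vol.IsOpenPosMeasure] (hP : Polar vol σ γ J) (h : GJ M g J) (x₀ : Ph M)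
    {m : ℝ → ℝ} (hmc : ContinuousOn m (Ioo 0 π)) (hm : ∀ t ∈ Ioo 0 π, 0 < m t)
    (hT : ∀ t ∈ Ioo 0 π, ∀ c : ℝ → M, IsGeo c → 2 * π * Real.log (m t) ≤
      ∫ w in (0 : ℝ)..(2 * π), Real.log (J (c w) (c (w + t))))
    (heq : vol univ ≤ σ univ * ∫⁻ t in Ioo 0 π, ENNReal.ofReal (m t))
    {c : ℝ → M} (hc : IsGeo c) (s : ℝ) {t : ℝ} (ht : t ∈ Ioo 0 π) :
    J (c s) (c (s + t)) = m t := by
  have := isFinite_mu hP h x₀
  have := mu_openPos (vol := vol) h x₀
  have hineq := vol_ineq hP h x₀ hm hT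
  have hlt : σ univ * ∫⁻ t in Ioo 0 π, ENNReal.ofReal (m t) ≠ ⊤ :=
    ne_top_of_le_ne_top (measure_ne_top vol univ) hineq
  set A : ℝ → ℝ≥0∞ := fun t => mu vol h x₀ univ * ENNReal.ofReal (m t) with hA
  set B : ℝ → ℝ≥0∞ := fun t => ∫⁻ x, FF g J (x, t) ∂(mu vol h x₀) with hB
  have hAint : ∫⁻ t in Ioo 0 π, A t = vol univ * (σ univ * ∫⁻ t in Ioo 0 π, ENNReal.ofReal (m t)) := by
    rw [hA, lintegral_const_mul' _ _ (measure_ne_top _ _), mu_univ hP h x₀, mul_comm (σ univ),
      mul_assoc]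
  have hAne : ∫⁻ t in Ioo 0 π, A t ≠ ⊤ := by
    rw [hAint]
    exact ENNReal.mul_ne_top (measure_ne_top _ _) hlt
  have hBA : ∫⁻ t in Ioo 0 π, B t ≤ ∫⁻ t in Ioo 0 π, A t := by
    rw [hAint]
    exact (lintegral_FF hP h x₀).trans (mul_le_mul_right heq _)
  have hAB : A ≤ᵐ[volume.restrict (Ioo 0 π)] B := by
    rw [Filter.EventuallyLE, ae_restrict_iff' measurableSet_Ioo]
    exact Eventually.of_forall fun t ht => ineq_t hP h x₀ ht (hm t ht) (hT t ht)
  have hBm : Measurable B := (measurable_FF h).lintegral_prod_left'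
  have hae := ae_eq_of_ae_le_of_lintegral_le hAB hAne hBm.aemeasurable hBA
  have hae2 : (fun t => J (c s) (c (s + t))) =ᵐ[volume.restrict (Ioo 0 π)] m := by
    have hmem : ∀ᵐ t ∂(volume.restrict (Ioo 0 π)), t ∈ Ioo 0 π := ae_restrict_mem measurableSet_Ioo
    filter_upwards [hae, hmem] with t htAB ht
    have h2 : ∀ x, FF g J (x, t) = ENNReal.ofReal (jj g J t x) := fun x =>
      indicator_of_mem (show (x, t) ∈ {y : Ph M × ℝ | y.2 ∈ Ioo 0 π} from ht) _
    have h3 : ∫ x, jj g J t x ∂(mu vol h x₀) ≤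
        (mu vol h x₀).real univ * Real.exp (Real.log (m t)) := by
      rw [Real.exp_log (hm t ht)]
      have h4 : B t = ENNReal.ofReal (∫ x, jj g J t x ∂(mu vol h x₀)) := by
        rw [hB]
        simp only [h2]
        exact (ofReal_integral_eq_lintegral_ofReal (MPbl.integrable_of_cont _ (jj_cont h ht))
          (Eventually.of_forall fun x => (jj_pos h x ht).le)).symm
      have h5 : A t = ENNReal.ofReal ((mu vol h x₀).real univ * m t) := by
        rw [hA]
        simp only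
        rw [ENNReal.ofReal_mul measureReal_nonneg, ofReal_measureReal]
      rw [h4, h5] at htAB
      exact (ENNReal.ofReal_le_ofReal_iff (mul_nonneg measureReal_nonneg (hm t ht).le)).1
        htAB.symm.le
    have h6 := MPbl.flow_eq (mu vol h x₀) h.flow h.continuous_flow (flow_preserving hP h x₀)
      (jj_cont h ht) (fun x => jj_pos h x ht) (Real.log (m t)) (fun x => by
        simp only [jj_flow]
        exact hT t ht _ (h.geoPh x)) h3 (GJ.pt hc s)
    rw [Real.exp_log (hm t ht)] at h6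
    have h7 : jj g J t (GJ.pt hc s) = J (c s) (c (s + t)) := by
      unfold jj
      rw [h.g_pt hc s]
      rfl
    rw [← h7, h6]
  have hJc : ContinuousOn (fun t => J (c s) (c (s + t))) (Ioo 0 π) := by
    have hcc : Continuous c := by
      rw [Metric.continuous_iff]
      intro b ε hε
      refine ⟨min ε π, lt_min hε Real.pi_pos, fun a ha => ?_⟩
      rw [Real.dist_eq] at ha
      rw [hc a b (ha.le.trans (min_le_right _ _))]
      exact ha.trans_le (min_le_left _ _)
    have h1 : Continuous fun t => ((c s, c (s + t)) : M × M) :=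
      continuous_const.prodMk (hcc.comp (continuous_const.add continuous_id))
    exact h.Jcont.comp h1.continuousOn fun t ht => mem_DD_geo hc s ht
  exact Measure.eqOn_open_of_ae_eq hae2 isOpen_Ioo hJc hmc ht

end Pool.Agent.Lib.MP_ccbbf6_gt.Geo
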