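import Pool.Agent.Lib.MP_ccbbf6_gt.Geo.Ifc

/-!
# SM0: second derivatives, change of charts, the diagonal (helper97)

* `sm0_mixed`, `sm0_second_fst`: the iterated derivatives of the interface are entries of the second derivative.
* `sm0_chain`: chain rule for the mixed second derivative.
* `sm0_sq`: second derivative of `f ^ 2 / 2`.
* `D2F_diag`: the second derivative of `d ^ 2 / 2` on the diagonal.
* `ch`, `f_ch`, `F_ch`: change of charts.
* `Mx`: matrix of the mixed second derivative; `tendsto_det_ch`, `tendsto_mul_transpose_ch`.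
-/

set_option autoImplicit false

open Set Filter Topology Metric Real Asymptotics
open scoped ContDiff RealInnerProductSpace

noncomputable section

namespace Pool.Agent.Lib.MP_ccbbf6_gt.Geo

theorem two_le_infty : (2 : WithTop ℕ∞) ≤ ∞ := WithTop.coe_le_coe.2 (le_top : (2 : ℕ∞) ≤ ⊤)

section Calc

variable {V W V' W' : Type*} [NormedAddCommGroup V] [NormedSpace ℝ V] [NormedAddCommGroup W] [NormedSpace ℝ W]
  [NormedAddCommGroup V'] [NormedSpace ℝ V'] [NormedAddCommGroup W'] [NormedSpace ℝ W']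

theorem sm0_fderiv_snd {G : V × W → ℝ} {u : V} {v : W} (h : DifferentiableAt ℝ G (u, v)) :
    fderiv ℝ (fun v' => G (u, v')) v = (fderiv ℝ G (u, v)).comp (ContinuousLinearMap.inr ℝ V W) :=
  (h.hasFDerivAt.comp v (hasFDerivAt_prodMk_right u v)).fderiv

theorem sm0_fderiv_fst {G : V × W → ℝ} {u : V} {v : W} (h : DifferentiableAt ℝ G (u, v)) :
    fderiv ℝ (fun u' => G (u', v)) u = (fderiv ℝ G (u, v)).comp (ContinuousLinearMap.inl ℝ V W) :=
  (h.hasFDerivAt.comp u (hasFDerivAt_prodMk_left u v)).fderiv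

theorem sm0_d2 {G : V → ℝ} {z : V} (h : ContDiffAt ℝ 2 G z) : DifferentiableAt ℝ (fderiv ℝ G) z :=
  (h.fderiv_right (m := 1) (by norm_num)).differentiableAt (by norm_num)

theorem sm0_ev {G : V → ℝ} {z : V} (h : ContDiffAt ℝ 2 G z) : ∀ᶠ y in 𝓝 z, DifferentiableAt ℝ G y := by
  filter_upwards [h.eventually (by simp)] with y hy
  exact hy.differentiableAt (by norm_num)

/-- the mixed derivative of the interface is an entry of the second derivative -/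
theorem sm0_mixed {G : V × W → ℝ} {u : V} {v : W} (h : ContDiffAt ℝ 2 G (u, v)) (a : V) (b : W) :
    fderiv ℝ (fun u' => fderiv ℝ (fun v' => G (u', v')) v) u a b = fderiv ℝ (fderiv ℝ G) (u, v) (a, 0) (0, b) := by
  have h1 : (fun u' => fderiv ℝ (fun v' => G (u', v')) v) =ᶠ[𝓝 u]
      fun u' => (fderiv ℝ G (u', v)).comp (ContinuousLinearMap.inr ℝ V W) := by
    have hc : Tendsto (fun u' : V => (u', v)) (𝓝 u) (𝓝 (u, v)) := (Continuous.prodMk_left v).tendsto u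
    filter_upwards [hc.eventually (sm0_ev h)] with u' hu'
    exact sm0_fderiv_snd hu'
  rw [h1.fderiv_eq]
  have h2 : HasFDerivAt (fun u' : V => fderiv ℝ G (u', v))
      ((fderiv ℝ (fderiv ℝ G) (u, v)).comp (ContinuousLinearMap.inl ℝ V W)) u :=
    (sm0_d2 h).hasFDerivAt.comp u (hasFDerivAt_prodMk_left u v)
  have h3 := (((ContinuousLinearMap.compL ℝ W (V × W) ℝ).flip (ContinuousLinearMap.inr ℝ V W)).hasFDerivAt.comp u h2)
  have h4 : HasFDerivAt (fun u' : V => (fderiv ℝ G (u', v)).comp (ContinuousLinearMap.inr ℝ V W))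
      (((ContinuousLinearMap.compL ℝ W (V × W) ℝ).flip (ContinuousLinearMap.inr ℝ V W)).comp
        ((fderiv ℝ (fderiv ℝ G) (u, v)).comp (ContinuousLinearMap.inl ℝ V W))) u := h3
  rw [h4.fderiv]
  rfl

/-- the second derivative in the first variable is an entry of the second derivative -/
theorem sm0_second_fst {G : V × W → ℝ} {u : V} {v : W} (h : ContDiffAt ℝ 2 G (u, v)) (a b : V) :
    fderiv ℝ (fun u' => fderiv ℝ (fun u'' => G (u'', v)) u') u a b =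
      fderiv ℝ (fderiv ℝ G) (u, v) (a, 0) (b, 0) := by
  have h1 : (fun u' => fderiv ℝ (fun u'' => G (u'', v)) u') =ᶠ[𝓝 u]
      fun u' => (fderiv ℝ G (u', v)).comp (ContinuousLinearMap.inl ℝ V W) := by
    have hc : Tendsto (fun u' : V => (u', v)) (𝓝 u) (𝓝 (u, v)) := (Continuous.prodMk_left v).tendsto u
    filter_upwards [hc.eventually (sm0_ev h)] with u' hu'
    exact sm0_fderiv_fst hu'
  rw [h1.fderiv_eq]
  have h2 : HasFDerivAt (fun u' : V => fderiv ℝ G (u', v))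
      ((fderiv ℝ (fderiv ℝ G) (u, v)).comp (ContinuousLinearMap.inl ℝ V W)) u :=
    (sm0_d2 h).hasFDerivAt.comp u (hasFDerivAt_prodMk_left u v)
  have h3 := (((ContinuousLinearMap.compL ℝ V (V × W) ℝ).flip (ContinuousLinearMap.inl ℝ V W)).hasFDerivAt.comp u h2)
  have h4 : HasFDerivAt (fun u' : V => (fderiv ℝ G (u', v)).comp (ContinuousLinearMap.inl ℝ V W))
      (((ContinuousLinearMap.compL ℝ V (V × W) ℝ).flip (ContinuousLinearMap.inl ℝ V W)).comp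
        ((fderiv ℝ (fderiv ℝ G) (u, v)).comp (ContinuousLinearMap.inl ℝ V W))) u := h3
  rw [h4.fderiv]
  rfl

theorem sm0_symm {G : V → ℝ} {z : V} (h : ContDiffAt ℝ 2 G z) (a b : V) :
    fderiv ℝ (fderiv ℝ G) z a b = fderiv ℝ (fderiv ℝ G) z b a :=
  (h.isSymmSndFDerivAt (by simp)).eq a b

/-- chain rule for the mixed second derivative -/
theorem sm0_chain {G' : V × W → ℝ} {G : V' × W' → ℝ} {φ : V → V'} {χ : W → W'} {u : V} {v : W}
    (hG : ContDiffAt ℝ 2 G (φ u, χ v)) (hφ : ContDiffAt ℝ 2 φ u) (hχ : ContDiffAt ℝ 2 χ v)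
    (h : G' =ᶠ[𝓝 (u, v)] fun z => G (φ z.1, χ z.2)) (a : V) (b : W) :
    fderiv ℝ (fderiv ℝ G') (u, v) (a, 0) (0, b) =
      fderiv ℝ (fderiv ℝ G) (φ u, χ v) (fderiv ℝ φ u a, 0) (0, fderiv ℝ χ v b) := by
  have hΦ : ContDiffAt ℝ 2 (fun z : V × W => (φ z.1, χ z.2)) (u, v) :=
    (hφ.comp (u, v) contDiffAt_fst).prodMk (hχ.comp (u, v) contDiffAt_snd)
  have hG' : ContDiffAt ℝ 2 G' (u, v) := (hG.comp (u, v) hΦ).congr_of_eventuallyEq h
  have hc : Tendsto (fun u' : V => (u', v)) (𝓝 u) (𝓝 (u, v)) := (Continuous.prodMk_left v).tendsto u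
  -- first derivative in the second variable
  have h1 : (fun u' : V => fderiv ℝ G' (u', v) (0, b)) =ᶠ[𝓝 u]
      fun u' => fderiv ℝ G (φ u', χ v) (0, fderiv ℝ χ v b) := by
    have e1 := hc.eventually h.eventually_nhds
    have e2 := hc.eventually (hΦ.continuousAt.eventually (sm0_ev hG))
    have e3 : ∀ᶠ u' in 𝓝 u, DifferentiableAt ℝ φ u' := by
      filter_upwards [hφ.eventually (by simp)] with y hy
      exact hy.differentiableAt (by norm_num)
    filter_upwards [e1, e2, e3] with u' h1 h2 h3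
    have hχ' : DifferentiableAt ℝ χ v := hχ.differentiableAt (by norm_num)
    have e4 : HasFDerivAt (fun z : V × W => (φ z.1, χ z.2))
        (((fderiv ℝ φ u').comp (ContinuousLinearMap.fst ℝ V W)).prod
          ((fderiv ℝ χ v).comp (ContinuousLinearMap.snd ℝ V W))) (u', v) :=
      (h3.hasFDerivAt.comp (u', v) hasFDerivAt_fst).prodMk (hχ'.hasFDerivAt.comp (u', v) hasFDerivAt_snd)
    have e5 : HasFDerivAt (fun z : V × W => G (φ z.1, χ z.2)) _ (u', v) := h2.hasFDerivAt.comp (u', v) e4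
    rw [EventuallyEq.fderiv_eq h1, e5.fderiv]
    simp
  have h2 : HasFDerivAt (fun u' : V => fderiv ℝ G' (u', v))
      ((fderiv ℝ (fderiv ℝ G') (u, v)).comp (ContinuousLinearMap.inl ℝ V W)) u :=
    (sm0_d2 hG').hasFDerivAt.comp u (hasFDerivAt_prodMk_left u v)
  have h3 : HasFDerivAt (fun u' : V => fderiv ℝ G' (u', v) (0, b))
      (((fderiv ℝ (fderiv ℝ G') (u, v)).comp (ContinuousLinearMap.inl ℝ V W)).flip (0, b)) u :=
    h2.clm_apply (hasFDerivAt_const ((0 : V), b) u) |>.congr_fderiv (by ext; simp)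
  have h4 : HasFDerivAt (fun u' : V => (φ u', χ v)) ((fderiv ℝ φ u).prod 0) u :=
    (hφ.differentiableAt (by norm_num)).hasFDerivAt.prodMk (hasFDerivAt_const (χ v) u)
  have h5 : HasFDerivAt (fun u' : V => fderiv ℝ G (φ u', χ v))
      ((fderiv ℝ (fderiv ℝ G) (φ u, χ v)).comp ((fderiv ℝ φ u).prod 0)) u :=
    HasFDerivAt.comp u (sm0_d2 hG).hasFDerivAt h4
  have h6 : HasFDerivAt (fun u' : V => fderiv ℝ G (φ u', χ v) (0, fderiv ℝ χ v b))
      (((fderiv ℝ (fderiv ℝ G) (φ u, χ v)).comp ((fderiv ℝ φ u).prod 0)).flip (0, fderiv ℝ χ v b)) u :=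
    h5.clm_apply (hasFDerivAt_const ((0 : V'), fderiv ℝ χ v b) u) |>.congr_fderiv (by ext; simp)
  have h7 := h1.fderiv_eq (𝕜 := ℝ)
  rw [h3.fderiv, h6.fderiv] at h7
  have h8 := congrArg (fun L => L a) h7
  simpa using h8

/-- second derivative of `f ^ 2 / 2` -/
theorem sm0_sq {f : V → ℝ} {z : V} (h : ContDiffAt ℝ 2 f z) (a b : V) :
    fderiv ℝ (fderiv ℝ (fun y => f y ^ 2 / 2)) z a b =
      fderiv ℝ f z a * fderiv ℝ f z b + f z * fderiv ℝ (fderiv ℝ f) z a b := by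
  have h1 : (fderiv ℝ (fun y => f y ^ 2 / 2)) =ᶠ[𝓝 z] fun y => f y • fderiv ℝ f y := by
    filter_upwards [sm0_ev h] with y hy
    have e := (hy.hasFDerivAt.pow 2).mul_const (2⁻¹ : ℝ)
    simp only [div_eq_mul_inv]
    rw [e.fderiv]
    ext w
    simp
    ring
  rw [h1.fderiv_eq]
  have h2 : HasFDerivAt (fun y => f y • fderiv ℝ f y)
      (f z • fderiv ℝ (fderiv ℝ f) z + (fderiv ℝ f z).smulRight (fderiv ℝ f z)) z :=
    (h.differentiableAt (by norm_num)).hasFDerivAt.smul (sm0_d2 h).hasFDerivAt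
  rw [h2.fderiv]
  simp
  ring

/-- first derivative of `f ^ 2 / 2` -/
theorem sm0_sq1 {f : V → ℝ} {z : V} (h : DifferentiableAt ℝ f z) (a : V) :
    fderiv ℝ (fun y => f y ^ 2 / 2) z a = f z * fderiv ℝ f z a := by
  have e := (h.hasFDerivAt.pow 2).mul_const (2⁻¹ : ℝ)
  simp only [div_eq_mul_inv]
  rw [e.fderiv]
  simp
  ring

/-- Taylor's formula of order two -/
theorem sm0_taylor {G : V → ℝ} (h : ContDiffAt ℝ 2 G 0) (h0 : G 0 = 0) (h1 : fderiv ℝ G 0 = 0) :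
    (fun x => G x - fderiv ℝ (fderiv ℝ G) 0 x x / 2) =o[𝓝 0] fun x => ‖x‖ ^ 2 := by
  obtain ⟨r, hr, hball⟩ := Metric.eventually_nhds_iff_ball.1 (sm0_ev h)
  set D := fderiv ℝ (fderiv ℝ G) 0 with hD
  have hd := sm0_d2 h
  have hds : ∀ x ∈ ball (0 : V) r, HasFDerivWithinAt (fun x => G x - D x x / 2) (fderiv ℝ G x - D x) (ball 0 r) x := by
    intro x hx
    have e1 : HasFDerivAt (fun x => D x x) ((D x) + D.flip x) x := by
      have := (D.hasFDerivAt (x := x)).clm_apply (hasFDerivAt_id x)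
      refine this.congr_fderiv ?_
      ext w
      simp
    have e2 := (hball x hx).hasFDerivAt.sub (e1.mul_const (2⁻¹ : ℝ))
    simp only [div_eq_mul_inv]
    refine (e2.congr_fderiv ?_).hasFDerivWithinAt
    ext w
    have : D w x = D x w := sm0_symm h w x
    simp [this]
    ring
  have key := Convex.isLittleO_pow_succ (n := 1) (x₀ := (0 : V)) (convex_ball (0 : V) r) (mem_ball_self hr) hds ?_
  · rw [nhdsWithin_eq_nhds.2 (ball_mem_nhds 0 hr)] at key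
    simpa [h0] using key
  · rw [nhdsWithin_eq_nhds.2 (ball_mem_nhds 0 hr)]
    have e := hd.hasFDerivAt.isLittleO
    rw [h1] at e
    simp only [sub_zero, pow_one] at e ⊢
    exact e.norm_right

/-- a quadratic form which is `o(‖x‖²)` vanishes -/
theorem sm0_quad {V : Type*} [NormedAddCommGroup V] [NormedSpace ℝ V] {q : V → ℝ}
    (hq : ∀ (t : ℝ) (x : V), q (t • x) = t ^ 2 * q x) (h : q =o[𝓝 0] fun x => ‖x‖ ^ 2) (x : V) : q x = 0 := by
  by_contra hx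
  have hpos : 0 < |q x| := abs_pos.2 hx
  have hc : 0 < |q x| / (2 * (‖x‖ ^ 2 + 1)) := by positivity
  have h1 := (isLittleO_iff.1 h) hc
  have h2 : Tendsto (fun t : ℝ => t • x) (𝓝[>] 0) (𝓝 0) := by
    have : Tendsto (fun t : ℝ => t • x) (𝓝 0) (𝓝 ((0 : ℝ) • x)) := (continuous_id.smul continuous_const).tendsto 0
    rw [zero_smul] at this
    exact this.mono_left nhdsWithin_le_nhds
  obtain ⟨t, ht, ht0⟩ := ((h2.eventually h1).and self_mem_nhdsWithin).exists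
  have ht0 : 0 < t := ht0
  rw [hq, norm_smul, Real.norm_eq_abs, Real.norm_eq_abs, Real.norm_eq_abs, mul_pow, abs_mul, abs_pow, abs_of_pos ht0,
    abs_of_nonneg (by positivity : (0 : ℝ) ≤ t ^ 2 * ‖x‖ ^ 2)] at ht
  have h3 : |q x| ≤ |q x| / (2 * (‖x‖ ^ 2 + 1)) * ‖x‖ ^ 2 := by
    have ht2 : 0 < t ^ 2 := by positivity
    have : t ^ 2 * |q x| ≤ t ^ 2 * (|q x| / (2 * (‖x‖ ^ 2 + 1)) * ‖x‖ ^ 2) := by
      calc t ^ 2 * |q x| ≤ _ := ht
        _ = _ := by ring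
    exact le_of_mul_le_mul_left this ht2
  have h4 : |q x| / (2 * (‖x‖ ^ 2 + 1)) * ‖x‖ ^ 2 < |q x| := by
    rw [div_mul_eq_mul_div, div_lt_iff₀ (by positivity)]
    nlinarith [sq_nonneg ‖x‖]
  linarith

end Calc

section Diag

variable {n : ℕ} {M : Type*} [MetricSpace M] (𝒜 : SDist n M)

theorem F_diag_eventually (p : M) : ∀ᶠ z in 𝓝 ((0, 0) : Eu n × Eu n), ContDiffAt ℝ ∞ (𝒜.F p p) z := by
  filter_upwards [𝒜.sq p] with z hz
  exact hz.div_const 2

theorem symm_zero (p : M) : (𝒜.ψ p).symm 0 = p := by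
  have := (𝒜.ψ p).left_inv (𝒜.mem p)
  rwa [𝒜.zero p] at this

theorem zero_mem_target (p : M) : (0 : Eu n) ∈ (𝒜.ψ p).target := by
  have := (𝒜.ψ p).map_source (𝒜.mem p)
  rwa [𝒜.zero p] at this

theorem f_zero (p q : M) : 𝒜.f p q (0, 0) = dist p q := by
  unfold SDist.f
  simp only [symm_zero]

theorem F_zero (p q : M) : 𝒜.F p q (0, 0) = dist p q ^ 2 / 2 := by
  unfold SDist.F
  rw [f_zero]

/-- first derivative on the diagonal -/
theorem DF_diag (p : M) : fderiv ℝ (𝒜.F p p) (0, 0) = 0 := by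
  have : IsLocalMin (𝒜.F p p) (0, 0) := by
    refine Filter.Eventually.of_forall fun z => ?_
    rw [F_zero, dist_self]
    unfold SDist.F
    have := sq_nonneg (𝒜.f p p z)
    linarith
  exact this.fderiv_eq_zero

/-- second derivative of `d ^ 2 / 2` on the diagonal -/
theorem D2F_diag (p : M) (z w : Eu n × Eu n) :
    fderiv ℝ (fderiv ℝ (𝒜.F p p)) (0, 0) z w = ⟪z.1 - z.2, w.1 - w.2⟫ := by
  have hs : ContDiffAt ℝ 2 (𝒜.F p p) (0, 0) := (F_diag_eventually 𝒜 p).self_of_nhds.of_le two_le_infty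
  set D := fderiv ℝ (fderiv ℝ (𝒜.F p p)) (0, 0) with hD
  have hT : (fun x => 𝒜.F p p x - D x x / 2) =o[𝓝 ((0, 0) : Eu n × Eu n)] fun x => ‖x‖ ^ 2 :=
    sm0_taylor hs (by rw [show (0 : Eu n × Eu n) = (0, 0) from rfl, F_zero, dist_self]; simp) (DF_diag 𝒜 p)
  have hM : (fun x : Eu n × Eu n => 𝒜.F p p x - ‖x.1 - x.2‖ ^ 2 / 2) =o[𝓝 ((0, 0) : Eu n × Eu n)]
      fun x => ‖x‖ ^ 2 := by
    rw [isLittleO_iff]
    intro c hc
    have hε : 0 < min 1 (c / 6) := lt_min one_pos (by positivity)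
    filter_upwards [𝒜.metric p _ hε] with x hx
    have h1 : ‖x.1 - x.2‖ ≤ 2 * ‖x‖ := by
      have e1 := norm_sub_le x.1 x.2
      have e2 := norm_fst_le x
      have e3 := norm_snd_le x
      linarith
    set ρ := ‖x.1 - x.2‖
    set d := dist ((𝒜.ψ p).symm x.1) ((𝒜.ψ p).symm x.2) with hd
    set ε := min 1 (c / 6)
    have hρ : 0 ≤ ρ := norm_nonneg _
    have hd0 : 0 ≤ d := dist_nonneg
    have hε1 : ε ≤ 1 := min_le_left _ _
    have hε2 : ε ≤ c / 6 := min_le_right _ _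
    have h2 : d ≤ 2 * ρ := by
      have := (abs_le.1 hx).2
      nlinarith
    have h3 : 𝒜.F p p x - ρ ^ 2 / 2 = (d - ρ) * (d + ρ) / 2 := by
      unfold SDist.F SDist.f
      rw [← hd]
      ring
    rw [h3, Real.norm_eq_abs, Real.norm_eq_abs, abs_of_nonneg (by positivity : (0 : ℝ) ≤ ‖x‖ ^ 2), abs_div, abs_mul,
      abs_of_nonneg (by positivity : 0 ≤ d + ρ), abs_of_pos (by norm_num : (0 : ℝ) < 2)]
    have h4 : |d - ρ| * (d + ρ) ≤ (c / 6 * ρ) * (3 * ρ) := by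
      apply mul_le_mul
      · exact hx.trans (mul_le_mul_of_nonneg_right hε2 hρ)
      · linarith
      · positivity
      · positivity
    have h5 : ρ ^ 2 ≤ (2 * ‖x‖) ^ 2 := pow_le_pow_left₀ hρ h1 2
    nlinarith
  have hQ : ∀ x : Eu n × Eu n, D x x - ‖x.1 - x.2‖ ^ 2 = 0 := by
    apply sm0_quad
    · intro t x
      simp only [map_smul, smul_apply, smul_eq_mul, Prod.smul_fst, Prod.smul_snd, ← smul_sub,
        norm_smul, mul_pow, Real.norm_eq_abs, sq_abs]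
      ring
    · have e := (hM.sub hT).const_mul_left 2
      refine e.congr_left fun x => ?_
      ring
  have h1 := hQ (z + w)
  have h2 := hQ z
  have h3 := hQ w
  have h4 : D z w = D w z := sm0_symm hs z w
  have h5 : (z + w).1 - (z + w).2 = (z.1 - z.2) + (w.1 - w.2) := by
    simp only [Prod.fst_add, Prod.snd_add]
    abel
  rw [h5] at h1
  simp only [map_add, add_apply] at h1
  rw [norm_add_sq_real] at h1
  linarith

/-! ## change of charts -/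

/-- the change from the chart centered at `p` to the chart centered at `r` -/
def SDist.ch (r p : M) (u : Eu n) : Eu n := 𝒜.ψ r ((𝒜.ψ p).symm u)

theorem ch_zero (r p : M) : 𝒜.ch r p 0 = 𝒜.ψ r p := by
  unfold SDist.ch
  rw [symm_zero]

theorem contDiffAt_ch {r p : M} (hp : p ∈ (𝒜.ψ r).source) : ContDiffAt ℝ ∞ (𝒜.ch r p) 0 := by
  have := 𝒜.trans p r p (𝒜.mem p) hp
  rwa [𝒜.zero p] at this

theorem continuousAt_symm (p : M) : ContinuousAt (𝒜.ψ p).symm 0 :=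
  (𝒜.ψ p).symm.continuousAt (zero_mem_target 𝒜 p)

theorem symm_ch {r p : M} (hp : p ∈ (𝒜.ψ r).source) :
    ∀ᶠ u in 𝓝 (0 : Eu n), (𝒜.ψ r).symm (𝒜.ch r p u) = (𝒜.ψ p).symm u := by
  have h1 : Tendsto (𝒜.ψ p).symm (𝓝 0) (𝓝 p) := by
    have := (continuousAt_symm 𝒜 p).tendsto
    rwa [symm_zero] at this
  filter_upwards [h1.eventually ((𝒜.ψ r).open_source.mem_nhds hp)] with u hu
  exact (𝒜.ψ r).left_inv hu

theorem f_ch {p q r r' : M} (hp : p ∈ (𝒜.ψ r).source) (hq : q ∈ (𝒜.ψ r').source) :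
    𝒜.f p q =ᶠ[𝓝 ((0, 0) : Eu n × Eu n)] fun z => 𝒜.f r r' (𝒜.ch r p z.1, 𝒜.ch r' q z.2) := by
  have h1 : Tendsto (fun z : Eu n × Eu n => z.1) (𝓝 (0, 0)) (𝓝 0) := continuous_fst.tendsto _
  have h2 : Tendsto (fun z : Eu n × Eu n => z.2) (𝓝 (0, 0)) (𝓝 0) := continuous_snd.tendsto _
  filter_upwards [h1.eventually (symm_ch 𝒜 hp), h2.eventually (symm_ch 𝒜 hq)] with z hz1 hz2
  unfold SDist.f
  rw [hz1, hz2]

theorem F_ch {p q r r' : M} (hp : p ∈ (𝒜.ψ r).source) (hq : q ∈ (𝒜.ψ r').source) :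
    𝒜.F p q =ᶠ[𝓝 ((0, 0) : Eu n × Eu n)] fun z => 𝒜.F r r' (𝒜.ch r p z.1, 𝒜.ch r' q z.2) := by
  filter_upwards [f_ch 𝒜 hp hq] with z hz
  unfold SDist.F
  rw [hz]

/-- the mixed second derivative of `d ^ 2 / 2` under a change of charts -/
theorem D2F_ch {p q r r' : M} (hp : p ∈ (𝒜.ψ r).source) (hq : q ∈ (𝒜.ψ r').source)
    (hF : ContDiffAt ℝ 2 (𝒜.F r r') (𝒜.ψ r p, 𝒜.ψ r' q)) (a b : Eu n) :
    fderiv ℝ (fderiv ℝ (𝒜.F p q)) (0, 0) (a, 0) (0, b) =
      fderiv ℝ (fderiv ℝ (𝒜.F r r')) (𝒜.ψ r p, 𝒜.ψ r' q) (fderiv ℝ (𝒜.ch r p) 0 a, 0)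
        (0, fderiv ℝ (𝒜.ch r' q) 0 b) := by
  have h := sm0_chain (G' := 𝒜.F p q) (G := 𝒜.F r r') (φ := 𝒜.ch r p) (χ := 𝒜.ch r' q) (u := 0) (v := 0)
    (by rw [ch_zero, ch_zero]; exact hF) ((contDiffAt_ch 𝒜 hp).of_le two_le_infty)
    ((contDiffAt_ch 𝒜 hq).of_le two_le_infty) (F_ch 𝒜 hp hq) a b
  rwa [ch_zero, ch_zero] at h

/-- the mixed second derivative of `d` under a change of charts -/
theorem D2f_ch {p q r r' : M} (hp : p ∈ (𝒜.ψ r).source) (hq : q ∈ (𝒜.ψ r').source)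
    (hF : ContDiffAt ℝ 2 (𝒜.f r r') (𝒜.ψ r p, 𝒜.ψ r' q)) (a b : Eu n) :
    fderiv ℝ (fderiv ℝ (𝒜.f p q)) (0, 0) (a, 0) (0, b) =
      fderiv ℝ (fderiv ℝ (𝒜.f r r')) (𝒜.ψ r p, 𝒜.ψ r' q) (fderiv ℝ (𝒜.ch r p) 0 a, 0)
        (0, fderiv ℝ (𝒜.ch r' q) 0 b) := by
  have h := sm0_chain (G' := 𝒜.f p q) (G := 𝒜.f r r') (φ := 𝒜.ch r p) (χ := 𝒜.ch r' q) (u := 0) (v := 0)
    (by rw [ch_zero, ch_zero]; exact hF) ((contDiffAt_ch 𝒜 hp).of_le two_le_infty)
    ((contDiffAt_ch 𝒜 hq).of_le two_le_infty) (f_ch 𝒜 hp hq) a b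
  rwa [ch_zero, ch_zero] at h

/-! ## matrices -/

/-- matrix of the mixed second derivative -/
def Mx (G : Eu n × Eu n → ℝ) (z : Eu n × Eu n) : Matrix (Fin n) (Fin n) ℝ :=
  Matrix.of fun i j => fderiv ℝ (fderiv ℝ G) z (EuclideanSpace.single i 1, 0) (0, EuclideanSpace.single j 1)

/-- matrix of a linear map -/
def mt (L : Eu n →L[ℝ] Eu n) : Matrix (Fin n) (Fin n) ℝ := Matrix.of fun i j => L (EuclideanSpace.single j 1) i

theorem sm0_expand (a : Eu n) : a = ∑ i, a i • EuclideanSpace.single i (1 : ℝ) := by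
  ext j
  simp [Pi.single_apply]

theorem sm0_bil (β : Eu n × Eu n →L[ℝ] Eu n × Eu n →L[ℝ] ℝ) (a b : Eu n) :
    β (a, 0) (0, b) = ∑ i, ∑ j, a i * b j * β (EuclideanSpace.single i 1, 0) (0, EuclideanSpace.single j 1) := by
  have ha : (a, (0 : Eu n)) = ∑ i, a i • (EuclideanSpace.single i (1 : ℝ), (0 : Eu n)) := by
    have h := congrArg (fun x => ((x, 0) : Eu n × Eu n)) (sm0_expand a)
    refine h.trans ?_
    rw [show ((∑ i, a i • EuclideanSpace.single i (1 : ℝ), (0 : Eu n))) =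
      ContinuousLinearMap.inl ℝ (Eu n) (Eu n) (∑ i, a i • EuclideanSpace.single i (1 : ℝ)) from rfl, map_sum]
    simp
  have hb : ((0 : Eu n), b) = ∑ i, b i • ((0 : Eu n), EuclideanSpace.single i (1 : ℝ)) := by
    have h := congrArg (fun x => ((0, x) : Eu n × Eu n)) (sm0_expand b)
    refine h.trans ?_
    rw [show (((0 : Eu n), ∑ i, b i • EuclideanSpace.single i (1 : ℝ))) =
      ContinuousLinearMap.inr ℝ (Eu n) (Eu n) (∑ i, b i • EuclideanSpace.single i (1 : ℝ)) from rfl, map_sum]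
    simp
  rw [ha, map_sum, sum_apply]
  refine Finset.sum_congr rfl fun i _ => ?_
  rw [hb, map_sum]
  refine Finset.sum_congr rfl fun j _ => ?_
  simp only [map_smul, smul_apply, smul_eq_mul]
  ring

theorem Mx_eq {G' G : Eu n × Eu n → ℝ} {z' z : Eu n × Eu n} {L L' : Eu n →L[ℝ] Eu n}
    (h : ∀ a b, fderiv ℝ (fderiv ℝ G') z' (a, 0) (0, b) = fderiv ℝ (fderiv ℝ G) z (L a, 0) (0, L' b)) :
    Mx G' z' = (mt L).transpose * Mx G z * mt L' := by
  ext i j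
  have h1 : Mx G' z' i j = fderiv ℝ (fderiv ℝ G') z' (EuclideanSpace.single i 1, 0) (0, EuclideanSpace.single j 1) := rfl
  rw [h1, h, sm0_bil, Matrix.mul_apply]
  simp only [Matrix.mul_apply, Matrix.transpose_apply, mt, Mx, Matrix.of_apply, Finset.sum_mul]
  rw [Finset.sum_comm]
  refine Finset.sum_congr rfl fun k _ => Finset.sum_congr rfl fun l _ => ?_
  ring

theorem Mx_ch {p q r r' : M} (hp : p ∈ (𝒜.ψ r).source) (hq : q ∈ (𝒜.ψ r').source)
    (hF : ContDiffAt ℝ 2 (𝒜.F r r') (𝒜.ψ r p, 𝒜.ψ r' q)) :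
    Mx (𝒜.F p q) (0, 0) = (mt (fderiv ℝ (𝒜.ch r p) 0)).transpose * Mx (𝒜.F r r') (𝒜.ψ r p, 𝒜.ψ r' q) *
      mt (fderiv ℝ (𝒜.ch r' q) 0) :=
  Mx_eq (D2F_ch 𝒜 hp hq hF)

theorem Mx_diag (p : M) : Mx (𝒜.F p p) (0, 0) = -1 := by
  ext i j
  simp only [Mx, Matrix.of_apply, D2F_diag]
  simp [Matrix.one_apply, EuclideanSpace.inner_single_left]

theorem continuousAt_Mx {G : Eu n × Eu n → ℝ} {z : Eu n × Eu n} (h : ContDiffAt ℝ 2 G z) : ContinuousAt (Mx G) z := by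
  have h1 : ContinuousAt (fderiv ℝ (fderiv ℝ G)) z :=
    ((h.fderiv_right (m := 1) (by norm_num)).fderiv_right (m := 0) (by norm_num)).continuousAt
  refine continuousAt_pi.2 fun i => continuousAt_pi.2 fun j => ?_
  simp only [Mx, Matrix.of_apply]
  exact (h1.clm_apply continuousAt_const).clm_apply continuousAt_const

theorem tendsto_ψ (p : M) : Tendsto (fun p' => 𝒜.ψ p p') (𝓝 p) (𝓝 0) := by
  have := ((𝒜.ψ p).continuousAt (𝒜.mem p)).tendsto
  rwa [𝒜.zero p] at this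

theorem ch_isometry (p : M) : ∀ᶠ p' in 𝓝 p,
    (mt (fderiv ℝ (𝒜.ch p p') 0)).transpose * (-Mx (𝒜.F p p) (𝒜.ψ p p', 𝒜.ψ p p')) *
      mt (fderiv ℝ (𝒜.ch p p') 0) = 1 := by
  have h1 : Tendsto (fun p' => (𝒜.ψ p p', 𝒜.ψ p p')) (𝓝 p) (𝓝 (0, 0)) := (tendsto_ψ 𝒜 p).prodMk_nhds (tendsto_ψ 𝒜 p)
  filter_upwards [h1.eventually (F_diag_eventually 𝒜 p), (𝒜.ψ p).open_source.mem_nhds (𝒜.mem p)] with p' h2 h3
  have h4 := Mx_ch 𝒜 h3 h3 (h2.of_le two_le_infty)
  rw [Mx_diag] at h4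
  rw [Matrix.mul_neg, Matrix.neg_mul, ← h4, neg_neg]

theorem tendsto_Mx_diag (p : M) :
    Tendsto (fun p' => -Mx (𝒜.F p p) (𝒜.ψ p p', 𝒜.ψ p p')) (𝓝 p) (𝓝 1) := by
  have h1 : Tendsto (fun p' => (𝒜.ψ p p', 𝒜.ψ p p')) (𝓝 p) (𝓝 (0, 0)) := (tendsto_ψ 𝒜 p).prodMk_nhds (tendsto_ψ 𝒜 p)
  have h2 := (continuousAt_Mx ((F_diag_eventually 𝒜 p).self_of_nhds.of_le two_le_infty)).tendsto.comp h1
  rw [Mx_diag] at h2
  have h3 := h2.neg
  rwa [neg_neg] at h3

/-- the Jacobian of the change to a chart centered nearby tends to one -/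
theorem tendsto_det_ch (p : M) :
    Tendsto (fun p' => |(mt (fderiv ℝ (𝒜.ch p p') 0)).det|) (𝓝 p) (𝓝 1) := by
  have h1 : Tendsto (fun p' => (-Mx (𝒜.F p p) (𝒜.ψ p p', 𝒜.ψ p p')).det) (𝓝 p) (𝓝 1) := by
    have := ((continuous_id.matrix_det).tendsto (1 : Matrix (Fin n) (Fin n) ℝ)).comp (tendsto_Mx_diag 𝒜 p)
    simpa [Function.comp_def] using this
  have h2 : Tendsto (fun p' => Real.sqrt ((-Mx (𝒜.F p p) (𝒜.ψ p p', 𝒜.ψ p p')).det)⁻¹) (𝓝 p) (𝓝 1) := by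
    have := (Real.continuous_sqrt.tendsto _).comp (h1.inv₀ one_ne_zero)
    rw [inv_one, Real.sqrt_one] at this
    exact this
  refine h2.congr' ?_
  filter_upwards [ch_isometry 𝒜 p] with p' hp'
  have h3 := congrArg Matrix.det hp'
  rw [Matrix.det_mul, Matrix.det_mul, Matrix.det_transpose, Matrix.det_one] at h3
  have h4 : ((-Mx (𝒜.F p p) (𝒜.ψ p p', 𝒜.ψ p p')).det)⁻¹ = (mt (fderiv ℝ (𝒜.ch p p') 0)).det ^ 2 := by
    rw [inv_eq_of_mul_eq_one_left]
    linarith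
  rw [h4, Real.sqrt_sq_eq_abs]

theorem tendsto_mul_transpose_ch (p : M) :
    Tendsto (fun p' => mt (fderiv ℝ (𝒜.ch p p') 0) * (mt (fderiv ℝ (𝒜.ch p p') 0)).transpose) (𝓝 p) (𝓝 1) := by
  have h1 : Tendsto (fun p' => (-Mx (𝒜.F p p) (𝒜.ψ p p', 𝒜.ψ p p'))⁻¹) (𝓝 p) (𝓝 1) := by
    have h2 : ContinuousAt (fun A : Matrix (Fin n) (Fin n) ℝ => A⁻¹) 1 := by
      have h3 : (fun A : Matrix (Fin n) (Fin n) ℝ => A⁻¹) = fun A => (A.det)⁻¹ • A.adjugate := by
        funext A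
        rw [Matrix.inv_def, Ring.inverse_eq_inv']
      rw [h3]
      refine ContinuousAt.smul (ContinuousAt.inv₀ (continuous_id.matrix_det).continuousAt (by simp)) ?_
      exact (continuous_id.matrix_adjugate).continuousAt
    have := h2.tendsto.comp (tendsto_Mx_diag 𝒜 p)
    simpa [Function.comp_def] using this
  refine h1.congr' ?_
  filter_upwards [ch_isometry 𝒜 p] with p' hp'
  set m := -Mx (𝒜.F p p) (𝒜.ψ p p', 𝒜.ψ p p')
  set T := mt (fderiv ℝ (𝒜.ch p p') 0)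
  have h2 : T * (T.transpose * m) = 1 := mul_eq_one_comm.1 hp'
  rw [← Matrix.mul_assoc] at h2
  exact Matrix.inv_eq_left_inv h2

end Diag

end Pool.Agent.Lib.MP_ccbbf6_gt.Geo
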