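import Pool.Agent.Lib.MP_ccbbf6_gt.Geo.SM0

/-!
# SM-A: change of charts, the uniform scale, velocities of geodesics (helper2)
-/

set_option autoImplicit false

open Set Filter Topology Metric Real
open scoped ContDiff RealInnerProductSpace

noncomputable section

namespace Pool.Agent.Lib.MP_ccbbf6_gt.Geo

section Charts

variable {n : ℕ} {M : Type*} [MetricSpace M] (𝒜 : SDist n M)

/-- the change from the chart centered at `r` to the chart centered at `s`, near the point `p` -/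
theorem sma_symm {r s p : M} (hp : p ∈ (𝒜.ψ r).source) (hp' : p ∈ (𝒜.ψ s).source) :
    ∀ᶠ u in 𝓝 (𝒜.ψ r p), (𝒜.ψ s).symm (𝒜.ψ s ((𝒜.ψ r).symm u)) = (𝒜.ψ r).symm u := by
  have h0 : (𝒜.ψ r).symm (𝒜.ψ r p) = p := (𝒜.ψ r).left_inv hp
  have h1 : Tendsto (𝒜.ψ r).symm (𝓝 (𝒜.ψ r p)) (𝓝 p) := by
    have := ((𝒜.ψ r).symm.continuousAt ((𝒜.ψ r).map_source hp)).tendsto
    rwa [h0] at this
  filter_upwards [h1.eventually ((𝒜.ψ s).open_source.mem_nhds hp')] with u hu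
  exact (𝒜.ψ s).left_inv hu

theorem sma_f_eq {r s r' s' p q : M} (hp : p ∈ (𝒜.ψ r).source) (hp' : p ∈ (𝒜.ψ s).source)
    (hq : q ∈ (𝒜.ψ r').source) (hq' : q ∈ (𝒜.ψ s').source) :
    𝒜.f r r' =ᶠ[𝓝 (𝒜.ψ r p, 𝒜.ψ r' q)]
      fun z => 𝒜.f s s' (𝒜.ψ s ((𝒜.ψ r).symm z.1), 𝒜.ψ s' ((𝒜.ψ r').symm z.2)) := by
  have h1 : Tendsto (fun z : Eu n × Eu n => z.1) (𝓝 (𝒜.ψ r p, 𝒜.ψ r' q)) (𝓝 (𝒜.ψ r p)) := continuous_fst.tendsto _
  have h2 : Tendsto (fun z : Eu n × Eu n => z.2) (𝓝 (𝒜.ψ r p, 𝒜.ψ r' q)) (𝓝 (𝒜.ψ r' q)) := continuous_snd.tendsto _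
  filter_upwards [h1.eventually (sma_symm 𝒜 hp hp'), h2.eventually (sma_symm 𝒜 hq hq')] with z hz1 hz2
  unfold SDist.f
  rw [hz1, hz2]

theorem sma_chg {r s r' s' p q : M} (hp : p ∈ (𝒜.ψ r).source) (hp' : p ∈ (𝒜.ψ s).source)
    (hq : q ∈ (𝒜.ψ r').source) (hq' : q ∈ (𝒜.ψ s').source) :
    ContDiffAt ℝ ∞ (fun z : Eu n × Eu n => (𝒜.ψ s ((𝒜.ψ r).symm z.1), 𝒜.ψ s' ((𝒜.ψ r').symm z.2)))
      (𝒜.ψ r p, 𝒜.ψ r' q) := by
  have h1 : ContDiffAt ℝ ∞ (fun u => 𝒜.ψ s ((𝒜.ψ r).symm u)) (𝒜.ψ r p) := 𝒜.trans r s p hp hp'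
  have h2 : ContDiffAt ℝ ∞ (fun u => 𝒜.ψ s' ((𝒜.ψ r').symm u)) (𝒜.ψ r' q) := 𝒜.trans r' s' q hq hq'
  exact (h1.comp (𝒜.ψ r p, 𝒜.ψ r' q) contDiffAt_fst).prodMk (h2.comp (𝒜.ψ r p, 𝒜.ψ r' q) contDiffAt_snd)

/-- smoothness of the two-point function does not depend on the charts -/
theorem sma_f {r s r' s' p q : M} (hp : p ∈ (𝒜.ψ r).source) (hp' : p ∈ (𝒜.ψ s).source)
    (hq : q ∈ (𝒜.ψ r').source) (hq' : q ∈ (𝒜.ψ s').source)
    (h : ContDiffAt ℝ ∞ (𝒜.f s s') (𝒜.ψ s p, 𝒜.ψ s' q)) : ContDiffAt ℝ ∞ (𝒜.f r r') (𝒜.ψ r p, 𝒜.ψ r' q) := by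
  refine ContDiffAt.congr_of_eventuallyEq ?_ (sma_f_eq 𝒜 hp hp' hq hq')
  refine ContDiffAt.comp (g := 𝒜.f s s') (𝒜.ψ r p, 𝒜.ψ r' q) ?_ (sma_chg 𝒜 hp hp' hq hq')
  show ContDiffAt ℝ ∞ (𝒜.f s s') (𝒜.ψ s ((𝒜.ψ r).symm (𝒜.ψ r p)), 𝒜.ψ s' ((𝒜.ψ r').symm (𝒜.ψ r' q)))
  rw [(𝒜.ψ r).left_inv hp, (𝒜.ψ r').left_inv hq]
  exact h

theorem sma_F {r s r' s' p q : M} (hp : p ∈ (𝒜.ψ r).source) (hp' : p ∈ (𝒜.ψ s).source)
    (hq : q ∈ (𝒜.ψ r').source) (hq' : q ∈ (𝒜.ψ s').source)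
    (h : ContDiffAt ℝ ∞ (𝒜.F s s') (𝒜.ψ s p, 𝒜.ψ s' q)) : ContDiffAt ℝ ∞ (𝒜.F r r') (𝒜.ψ r p, 𝒜.ψ r' q) := by
  have h0 : 𝒜.F r r' =ᶠ[𝓝 (𝒜.ψ r p, 𝒜.ψ r' q)]
      fun z => 𝒜.F s s' (𝒜.ψ s ((𝒜.ψ r).symm z.1), 𝒜.ψ s' ((𝒜.ψ r').symm z.2)) := by
    filter_upwards [sma_f_eq 𝒜 hp hp' hq hq'] with z hz
    unfold SDist.F
    rw [hz]
  refine ContDiffAt.congr_of_eventuallyEq ?_ h0
  refine ContDiffAt.comp (g := 𝒜.F s s') (𝒜.ψ r p, 𝒜.ψ r' q) ?_ (sma_chg 𝒜 hp hp' hq hq')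
  show ContDiffAt ℝ ∞ (𝒜.F s s') (𝒜.ψ s ((𝒜.ψ r).symm (𝒜.ψ r p)), 𝒜.ψ s' ((𝒜.ψ r').symm (𝒜.ψ r' q)))
  rw [(𝒜.ψ r).left_inv hp, (𝒜.ψ r').left_inv hq]
  exact h

theorem contDiffAt_f_iff {p q r r' : M} (hp : p ∈ (𝒜.ψ r).source) (hq : q ∈ (𝒜.ψ r').source) :
    ContDiffAt ℝ ∞ (𝒜.f r r') (𝒜.ψ r p, 𝒜.ψ r' q) ↔ ContDiffAt ℝ ∞ (𝒜.f p q) (0, 0) := by
  have h1 : 𝒜.ψ p p = 0 := 𝒜.zero p
  have h2 : 𝒜.ψ q q = 0 := 𝒜.zero q
  constructor
  · intro h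
    have := sma_f 𝒜 (𝒜.mem p) hp (𝒜.mem q) hq h
    rwa [h1, h2] at this
  · intro h
    refine sma_f 𝒜 hp (𝒜.mem p) hq (𝒜.mem q) ?_
    rw [h1, h2]
    exact h

theorem contDiffAt_F_iff {p q r r' : M} (hp : p ∈ (𝒜.ψ r).source) (hq : q ∈ (𝒜.ψ r').source) :
    ContDiffAt ℝ ∞ (𝒜.F r r') (𝒜.ψ r p, 𝒜.ψ r' q) ↔ ContDiffAt ℝ ∞ (𝒜.F p q) (0, 0) := by
  have h1 : 𝒜.ψ p p = 0 := 𝒜.zero p
  have h2 : 𝒜.ψ q q = 0 := 𝒜.zero q
  constructor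
  · intro h
    have := sma_F 𝒜 (𝒜.mem p) hp (𝒜.mem q) hq h
    rwa [h1, h2] at this
  · intro h
    refine sma_F 𝒜 hp (𝒜.mem p) hq (𝒜.mem q) ?_
    rw [h1, h2]
    exact h

theorem F_symm (p q : M) (z : Eu n × Eu n) : 𝒜.F q p z = 𝒜.F p q (z.2, z.1) := by
  unfold SDist.F SDist.f
  rw [dist_comm]

theorem contDiffAt_F_diag (p : M) : ContDiffAt ℝ ∞ (𝒜.F p p) (0, 0) := (F_diag_eventually 𝒜 p).self_of_nhds

/-- `d` is smooth where `d²/2` is smooth and not zero -/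
theorem sma_f_of_F {p q : M} {z : Eu n × Eu n} (h : ContDiffAt ℝ ∞ (𝒜.F p q) z) (h0 : 𝒜.f p q z ≠ 0) :
    ContDiffAt ℝ ∞ (𝒜.f p q) z := by
  have h1 : 𝒜.f p q = fun z => √(2 * 𝒜.F p q z) := by
    funext y
    have e : 2 * 𝒜.F p q y = 𝒜.f p q y ^ 2 := by
      unfold SDist.F
      ring
    rw [e, Real.sqrt_sq]
    unfold SDist.f
    exact dist_nonneg
  rw [h1]
  refine ContDiffAt.sqrt (contDiffAt_const.mul h) ?_
  unfold SDist.F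
  have := pow_ne_zero 2 h0
  intro h2
  apply this
  linarith

theorem BF_diag (p : M) (a b : Eu n) : 𝒜.BF p p a b = -⟪a, b⟫ := by
  unfold SDist.BF
  rw [sm0_mixed ((contDiffAt_F_diag 𝒜 p).of_le two_le_infty), D2F_diag]
  simp

end Charts

section Scale

variable {n : ℕ} {M : Type*} [MetricSpace M] [CompactSpace M] (𝒜 : SDist n M)

/-- uniform scale: `d² / 2` is smooth near all pairs at distance less than `ρ`, `d` off the diagonal -/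
theorem exists_scale : ∃ ρ : ℝ, 0 < ρ ∧ ρ ≤ π ∧ (∀ p q : M, dist p q < ρ → ContDiffAt ℝ ∞ (𝒜.F p q) (0, 0)) ∧
    ∀ p q : M, 0 < dist p q → dist p q < ρ → ContDiffAt ℝ ∞ (𝒜.f p q) (0, 0) := by
  have h1 : ∀ r : M, ∃ δ : ℝ, 0 < δ ∧ ∀ z : Eu n × Eu n, ‖z‖ < δ → ContDiffAt ℝ ∞ (𝒜.F r r) z := by
    intro r
    have h := F_diag_eventually 𝒜 r
    rw [Metric.eventually_nhds_iff] at h
    obtain ⟨δ, hδ, h⟩ := h
    refine ⟨δ, hδ, fun z hz => h ?_⟩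
    rw [show ((0, 0) : Eu n × Eu n) = 0 from rfl, dist_zero_right]
    exact hz
  choose δ hδ h1 using h1
  obtain ⟨ρ, hρ, hleb⟩ := lebesgue_number_lemma_of_metric (isCompact_univ (X := M))
    (c := fun r => (𝒜.ψ r).source ∩ (𝒜.ψ r) ⁻¹' (ball 0 (δ r)))
    (fun r => (𝒜.ψ r).isOpen_inter_preimage isOpen_ball)
    (fun p _ => mem_iUnion.2 ⟨p, 𝒜.mem p, by
      show 𝒜.ψ p p ∈ ball 0 (δ p)
      rw [𝒜.zero p]
      exact mem_ball_self (hδ p)⟩)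
  have hF : ∀ p q : M, dist p q < ρ → ContDiffAt ℝ ∞ (𝒜.F p q) (0, 0) := by
    intro p q hpq
    obtain ⟨r, hr⟩ := hleb p (mem_univ p)
    have hp := hr (mem_ball_self hρ)
    have hq := hr (show q ∈ ball p ρ by rw [mem_ball, dist_comm]; exact hpq)
    refine (contDiffAt_F_iff 𝒜 hp.1 hq.1).1 (h1 r _ ?_)
    rw [Prod.norm_def, max_lt_iff]
    exact ⟨by simpa using hp.2, by simpa using hq.2⟩
  refine ⟨min ρ π, lt_min hρ Real.pi_pos, min_le_right _ _, fun p q h => hF p q (h.trans_le (min_le_left _ _)),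
    fun p q h0 h => ?_⟩
  refine sma_f_of_F 𝒜 (hF p q (h.trans_le (min_le_left _ _))) ?_
  rw [f_zero]
  exact h0.ne'

end Scale

section Vel

variable {n : ℕ} {M : Type*} [MetricSpace M] (𝒜 : SDist n M)

theorem sma_continuous {c : ℝ → M} (hc : IsGeo c) : Continuous c := by
  rw [Metric.continuous_iff]
  intro t ε hε
  refine ⟨min ε π, lt_min hε Real.pi_pos, fun s hs => ?_⟩
  rw [Real.dist_eq] at hs
  rw [hc s t (hs.le.trans (min_le_right _ _))]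
  exact hs.trans_le (min_le_left _ _)

/-- the gradient of `d² / 2` in the first variable at the center of the chart -/
def SDist.Phi (p : M) (v : Eu n) : Eu n :=
  ∑ i : Fin n, (-(fderiv ℝ (𝒜.F p p) (0, v) (EuclideanSpace.single i 1, 0))) • EuclideanSpace.single i (1 : ℝ)

theorem sma_Phi_inner (p : M) (v a : Eu n) : ⟪𝒜.Phi p v, a⟫ = -(fderiv ℝ (𝒜.F p p) (0, v) (a, 0)) := by
  have h1 : fderiv ℝ (𝒜.F p p) (0, v) (a, 0) = ∑ i, a i * fderiv ℝ (𝒜.F p p) (0, v) (EuclideanSpace.single i 1, 0) := by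
    have h := congrArg (fun x => ((fderiv ℝ (𝒜.F p p) (0, v)).comp (ContinuousLinearMap.inl ℝ (Eu n) (Eu n))) x)
      (sm0_expand a)
    simp only [map_sum, map_smul, smul_eq_mul] at h
    exact h
  rw [h1, SDist.Phi, sum_inner]
  rw [← Finset.sum_neg_distrib]
  refine Finset.sum_congr rfl fun i _ => ?_
  rw [inner_smul_left, EuclideanSpace.inner_single_left]
  simp
  ring

theorem sma_Phi_zero (p : M) : 𝒜.Phi p 0 = 0 := by
  refine ext_inner_right ℝ fun a => ?_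
  rw [sma_Phi_inner, DF_diag]
  simp

theorem sma_Phi_contDiffAt (p : M) : ContDiffAt ℝ ∞ (𝒜.Phi p) 0 := by
  unfold SDist.Phi
  refine ContDiffAt.sum fun i _ => ?_
  have h1 : ContDiffAt ℝ ∞ (fderiv ℝ (𝒜.F p p)) ((0 : Eu n), (0 : Eu n)) :=
    (contDiffAt_F_diag 𝒜 p).fderiv_right (m := ∞) (by simp)
  have h2 : ContDiffAt ℝ ∞ (fun v : Eu n => ((0 : Eu n), v)) 0 := contDiffAt_const.prodMk contDiffAt_id
  have h3 : ContDiffAt ℝ ∞ (fun v : Eu n => fderiv ℝ (𝒜.F p p) (0, v)) 0 :=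
    ContDiffAt.comp (g := fderiv ℝ (𝒜.F p p)) (0 : Eu n) h1 h2
  exact ((h3.clm_apply contDiffAt_const).neg).smul contDiffAt_const

theorem sma_Phi_deriv (p : M) : HasStrictFDerivAt (𝒜.Phi p) (ContinuousLinearMap.id ℝ (Eu n)) 0 := by
  have h1 := (sma_Phi_contDiffAt 𝒜 p).hasStrictFDerivAt (by simp)
  have h2 : fderiv ℝ (𝒜.Phi p) 0 = ContinuousLinearMap.id ℝ (Eu n) := by
    ext1 b
    refine ext_inner_right ℝ fun a => ?_
    have e1 : HasFDerivAt (fun v : Eu n => ⟪𝒜.Phi p v, a⟫) ((innerSL ℝ).flip a ∘L (fderiv ℝ (𝒜.Phi p) 0)) 0 :=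
      ((innerSL ℝ).flip a).hasFDerivAt.comp (0 : Eu n) h1.hasFDerivAt
    have e2 : HasFDerivAt (fderiv ℝ (𝒜.F p p)) (fderiv ℝ (fderiv ℝ (𝒜.F p p)) (0, 0)) ((0 : Eu n), (0 : Eu n)) :=
      (sm0_d2 ((contDiffAt_F_diag 𝒜 p).of_le two_le_infty)).hasFDerivAt
    have e3 : HasFDerivAt (fun v : Eu n => fderiv ℝ (𝒜.F p p) (0, v))
        ((fderiv ℝ (fderiv ℝ (𝒜.F p p)) (0, 0)).comp (ContinuousLinearMap.inr ℝ (Eu n) (Eu n))) 0 :=
      e2.comp (0 : Eu n) (hasFDerivAt_prodMk_right 0 0)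
    have e4 := (e3.clm_apply (hasFDerivAt_const ((a, 0) : Eu n × Eu n) (0 : Eu n))).neg
    have e5 : HasFDerivAt (fun v : Eu n => ⟪𝒜.Phi p v, a⟫) _ 0 :=
      e4.congr_of_eventuallyEq (Eventually.of_forall fun v => sma_Phi_inner 𝒜 p v a)
    have e6 := congrArg (fun L : Eu n →L[ℝ] ℝ => L b) (e1.unique e5)
    have e7 : ((innerSL ℝ).flip a ∘L (fderiv ℝ (𝒜.Phi p) 0)) b = ⟪fderiv ℝ (𝒜.Phi p) 0 b, a⟫ := rfl
    have e8 := e7.symm.trans e6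
    rw [e8]
    simp [D2F_diag]
  rwa [h2] at h1

/-- near the center: `v` is determined smoothly by the gradient `Phi p v` -/
theorem sma_inverse (p : M) : ∃ Ψ : Eu n → Eu n, ContDiffAt ℝ ∞ Ψ 0 ∧ HasFDerivAt Ψ (ContinuousLinearMap.id ℝ (Eu n)) 0 ∧
    ∀ᶠ y in 𝓝 (0 : Eu n), Ψ (𝒜.Phi p y) = y := by
  have h1 := sma_Phi_contDiffAt 𝒜 p
  have h2 : HasFDerivAt (𝒜.Phi p) ((ContinuousLinearEquiv.refl ℝ (Eu n) : Eu n ≃L[ℝ] Eu n) : Eu n →L[ℝ] Eu n) 0 :=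
    (sma_Phi_deriv 𝒜 p).hasFDerivAt
  have hne : (∞ : WithTop ℕ∞) ≠ 0 := by simp
  have h0 := sma_Phi_zero 𝒜 p
  refine ⟨h1.localInverse h2 hne, ?_, ?_, ?_⟩
  · have := h1.to_localInverse h2 hne
    rwa [h0] at this
  · have := (h1.hasStrictFDerivAt' h2 hne).to_localInverse
    rw [h0] at this
    exact this.hasFDerivAt
  · exact (h1.hasStrictFDerivAt' h2 hne).eventually_left_inverse

/-- the germ of a geodesic at the point `c s`: the gradient of `d² / 2` along it is linear -/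
theorem sma_grad {c : ℝ → M} (hc : IsGeo c) (s : ℝ) : ∃ v : Eu n,
    ∀ᶠ t in 𝓝 s, 𝒜.Phi (c s) (𝒜.ψ (c s) (c t)) = (t - s) • v := by
  set p := c s with hp
  obtain ⟨δ, hδ, hF⟩ := Metric.eventually_nhds_iff.1 (F_diag_eventually 𝒜 p)
  have hx : Tendsto (fun t => 𝒜.ψ p (c t)) (𝓝 s) (𝓝 0) :=
    (tendsto_ψ 𝒜 p).comp ((sma_continuous hc).tendsto s)
  have hsrc : ∀ᶠ t in 𝓝 s, c t ∈ (𝒜.ψ p).source :=
    ((sma_continuous hc).tendsto s).eventually ((𝒜.ψ p).open_source.mem_nhds (𝒜.mem p))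
  have hxδ : ∀ᶠ t in 𝓝 s, ‖𝒜.ψ p (c t)‖ < δ := by
    have := hx.eventually (ball_mem_nhds (0 : Eu n) hδ)
    simpa using this
  obtain ⟨η, hη, hev⟩ := Metric.eventually_nhds_iff.1 (hsrc.and hxδ)
  set η' := min η (π / 2) with hη'
  have hη'0 : 0 < η' := lt_min hη (by positivity)
  have hs : ∀ t, |t - s| < η' → c t ∈ (𝒜.ψ p).source := fun t ht =>
    (hev (by rw [Real.dist_eq]; exact ht.trans_le (min_le_left _ _))).1
  have hFd : ∀ t, |t - s| < η' → DifferentiableAt ℝ (𝒜.F p p) (0, 𝒜.ψ p (c t)) := fun t ht => by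
    have h1 := (hev (show dist t s < η by rw [Real.dist_eq]; exact ht.trans_le (min_le_left _ _))).2
    refine (hF (y := ((0 : Eu n), 𝒜.ψ p (c t))) ?_).differentiableAt (by simp)
    rw [show ((0, 0) : Eu n × Eu n) = 0 from rfl, dist_zero_right, Prod.norm_def, max_lt_iff]
    exact ⟨by simpa using hδ, h1⟩
  have hdist : ∀ t, |t - s| < η' → dist p (c t) = |t - s| := fun t ht => by
    rw [hp, hc s t (by rw [abs_sub_comm]; linarith [min_le_right η (π / 2), Real.pi_pos]), abs_sub_comm]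
  -- the function `u ↦ d(u, c t)` and its derivative at the center
  have hg : ∀ t, |t - s| < η' → t ≠ s → HasFDerivAt (fun u => dist ((𝒜.ψ p).symm u) (c t))
      (|t - s|⁻¹ • (fderiv ℝ (𝒜.F p p) (0, 𝒜.ψ p (c t))).comp (ContinuousLinearMap.inl ℝ (Eu n) (Eu n))) 0 := by
    intro t ht hts
    have hpos : 0 < |t - s| := abs_pos.2 (sub_ne_zero.2 hts)
    have e1 : HasFDerivAt (fun u : Eu n => 𝒜.F p p (u, 𝒜.ψ p (c t)))
        ((fderiv ℝ (𝒜.F p p) (0, 𝒜.ψ p (c t))).comp (ContinuousLinearMap.inl ℝ (Eu n) (Eu n))) 0 :=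
      HasFDerivAt.comp (g := 𝒜.F p p) (0 : Eu n) (hFd t ht).hasFDerivAt
        (hasFDerivAt_prodMk_left (0 : Eu n) (𝒜.ψ p (c t)))
    have e2 : ∀ u : Eu n, 𝒜.F p p (u, 𝒜.ψ p (c t)) = dist ((𝒜.ψ p).symm u) (c t) ^ 2 / 2 := by
      intro u
      show dist ((𝒜.ψ p).symm u) ((𝒜.ψ p).symm (𝒜.ψ p (c t))) ^ 2 / 2 = _
      rw [(𝒜.ψ p).left_inv (hs t ht)]
    have e3 := (e1.const_mul 2).sqrt (by
      show 2 * 𝒜.F p p (0, 𝒜.ψ p (c t)) ≠ 0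
      rw [e2, symm_zero, hdist t ht]
      positivity)
    have e4 : (fun u : Eu n => √(2 * 𝒜.F p p (u, 𝒜.ψ p (c t)))) = fun u => dist ((𝒜.ψ p).symm u) (c t) := by
      funext u
      rw [e2, mul_div_cancel₀ _ (by norm_num : (2 : ℝ) ≠ 0), Real.sqrt_sq dist_nonneg]
    have e5 : √(2 * 𝒜.F p p (0, 𝒜.ψ p (c t))) = |t - s| := by
      rw [e2, symm_zero, hdist t ht, mul_div_cancel₀ _ (by norm_num : (2 : ℝ) ≠ 0), Real.sqrt_sq (abs_nonneg _)]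
    rw [e4, e5] at e3
    refine e3.congr_fderiv ?_
    rw [smul_smul]
    congr 1
    field_simp
  -- opposite points have opposite gradients
  have hopp : ∀ t t', |t - s| < η' → |t' - s| < η' → s < t → t' < s →
      |t - s|⁻¹ • (fderiv ℝ (𝒜.F p p) (0, 𝒜.ψ p (c t))).comp (ContinuousLinearMap.inl ℝ (Eu n) (Eu n)) =
      -(|t' - s|⁻¹ • (fderiv ℝ (𝒜.F p p) (0, 𝒜.ψ p (c t'))).comp (ContinuousLinearMap.inl ℝ (Eu n) (Eu n))) := by
    intro t t' ht ht' hst hts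
    have hmin : IsLocalMin (fun u : Eu n => dist ((𝒜.ψ p).symm u) (c t) + dist ((𝒜.ψ p).symm u) (c t')) 0 := by
      refine Eventually.of_forall fun u => ?_
      show dist ((𝒜.ψ p).symm 0) (c t) + dist ((𝒜.ψ p).symm 0) (c t') ≤
        dist ((𝒜.ψ p).symm u) (c t) + dist ((𝒜.ψ p).symm u) (c t')
      rw [symm_zero, hdist t ht, hdist t' ht', abs_of_pos (by linarith : 0 < t - s),
        abs_of_neg (by linarith : t' - s < 0)]
      have e1 : dist (c t) (c t') = t - t' := by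
        rw [abs_of_pos (by linarith : 0 < t - s)] at ht
        rw [abs_of_neg (by linarith : t' - s < 0)] at ht'
        rw [hc t t', abs_of_pos (by linarith)]
        rw [abs_of_pos (by linarith)]
        linarith [min_le_right η (π / 2)]
      have e2 := dist_triangle_left (c t) (c t') ((𝒜.ψ p).symm u)
      linarith
    have h := hmin.hasFDerivAt_eq_zero ((hg t ht hst.ne').add (hg t' ht' hts.ne))
    exact eq_neg_of_add_eq_zero_left h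
  set L : ℝ → (Eu n →L[ℝ] ℝ) := fun t =>
    |t - s|⁻¹ • (fderiv ℝ (𝒜.F p p) (0, 𝒜.ψ p (c t))).comp (ContinuousLinearMap.inl ℝ (Eu n) (Eu n)) with hL
  set t₁ := s - η' / 2 with ht₁
  set t₂ := s + η' / 2 with ht₂
  have a₁ : |t₁ - s| < η' := by
    rw [ht₁, show s - η' / 2 - s = -(η' / 2) by ring, abs_neg, abs_of_pos (by linarith)]
    linarith
  have a₂ : |t₂ - s| < η' := by
    rw [ht₂, show s + η' / 2 - s = η' / 2 by ring, abs_of_pos (by linarith)]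
    linarith
  have hpos : ∀ t, |t - s| < η' → s < t → L t = -L t₁ := fun t ht hst =>
    hopp t t₁ ht a₁ hst (by linarith)
  have hneg : ∀ t, |t - s| < η' → t < s → L t = L t₁ := fun t ht hst => by
    have e1 : L t₂ = -L t := hopp t₂ t a₂ ht (by linarith) hst
    have e2 : L t₂ = -L t₁ := hopp t₂ t₁ a₂ a₁ (by linarith) (by linarith)
    rw [e1] at e2
    exact neg_injective e2
  set v : Eu n := ∑ i : Fin n, L t₁ (EuclideanSpace.single i 1) • EuclideanSpace.single i (1 : ℝ) with hv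
  have hvi : ∀ a, ⟪v, a⟫ = L t₁ a := by
    intro a
    have h1 : L t₁ a = ∑ i, a i * L t₁ (EuclideanSpace.single i 1) := by
      have h := congrArg (fun x => L t₁ x) (sm0_expand a)
      simp only [map_sum, map_smul, smul_eq_mul] at h
      exact h
    rw [h1, hv, sum_inner]
    refine Finset.sum_congr rfl fun i _ => ?_
    rw [inner_smul_left, EuclideanSpace.inner_single_left]
    simp
    ring
  refine ⟨v, ?_⟩
  rw [Metric.eventually_nhds_iff]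
  refine ⟨η', hη'0, fun t ht => ?_⟩
  rw [Real.dist_eq] at ht
  refine ext_inner_right ℝ fun a => ?_
  rw [sma_Phi_inner, inner_smul_left, hvi]
  simp only [conj_trivial]
  rcases lt_trichotomy t s with hts | hts | hts
  · have h1 := congrArg (fun K : Eu n →L[ℝ] ℝ => K a) (hneg t ht hts)
    have h2 : |t - s|⁻¹ * fderiv ℝ (𝒜.F p p) (0, 𝒜.ψ p (c t)) (a, 0) = L t₁ a := h1
    rw [← h2, abs_of_neg (by linarith : t - s < 0)]
    have h3 : t - s ≠ 0 := by linarith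
    field_simp
  · rw [hts, hp, 𝒜.zero, DF_diag]
    simp
  · have h1 := congrArg (fun K : Eu n →L[ℝ] ℝ => K a) (hpos t ht hts)
    have h2 : |t - s|⁻¹ * fderiv ℝ (𝒜.F p p) (0, 𝒜.ψ p (c t)) (a, 0) = -L t₁ a := h1
    have h4 : L t₁ a = -(|t - s|⁻¹ * fderiv ℝ (𝒜.F p p) (0, 𝒜.ψ p (c t)) (a, 0)) := by rw [h2, neg_neg]
    rw [h4, abs_of_pos (by linarith : 0 < t - s)]
    have h3 : t - s ≠ 0 := by linarith
    field_simp

theorem sma_vel {c : ℝ → M} (hc : IsGeo c) (s : ℝ) : ∃ v : Eu n, ‖v‖ = 1 ∧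
    HasDerivAt (fun t => 𝒜.ψ (c s) (c t)) v s ∧ ContDiffAt ℝ ∞ (fun t => 𝒜.ψ (c s) (c t)) s ∧
    ∀ᶠ t in 𝓝 s, 𝒜.Phi (c s) (𝒜.ψ (c s) (c t)) = (t - s) • v := by
  obtain ⟨v, hv⟩ := sma_grad 𝒜 hc s
  obtain ⟨Ψ, hΨ, hΨ', hinv⟩ := sma_inverse 𝒜 (c s)
  have hx : Tendsto (fun t => 𝒜.ψ (c s) (c t)) (𝓝 s) (𝓝 0) :=
    (tendsto_ψ 𝒜 (c s)).comp ((sma_continuous hc).tendsto s)
  have heq : (fun t => 𝒜.ψ (c s) (c t)) =ᶠ[𝓝 s] fun t => Ψ ((t - s) • v) := by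
    filter_upwards [hv, hx.eventually hinv] with t h1 h2
    rw [← h1, h2]
  have hlin : HasDerivAt (fun t : ℝ => (t - s) • v) v s := by
    simpa using ((hasDerivAt_id s).sub_const s).smul_const v
  have hd : HasDerivAt (fun t => 𝒜.ψ (c s) (c t)) v s := by
    refine HasDerivAt.congr_of_eventuallyEq ?_ heq
    have h1 : HasFDerivAt Ψ (ContinuousLinearMap.id ℝ (Eu n)) ((fun t : ℝ => (t - s) • v) s) := by
      simpa using hΨ'
    have h2 := h1.comp_hasDerivAt s hlin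
    simpa [Function.comp_def] using h2
  refine ⟨v, ?_, hd, ?_, hv⟩
  · -- the norm
    have h1 : Tendsto (fun t => ‖slope (fun t => 𝒜.ψ (c s) (c t)) s t‖) (𝓝[≠] s) (𝓝 ‖v‖) :=
      (hasDerivAt_iff_tendsto_slope.1 hd).norm
    have h2 : ∀ t, ‖slope (fun t => 𝒜.ψ (c s) (c t)) s t‖ = ‖𝒜.ψ (c s) (c t)‖ / |t - s| := by
      intro t
      rw [slope_def_module, 𝒜.zero, sub_zero, norm_smul, norm_inv, Real.norm_eq_abs]
      field_simp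
    simp only [h2] at h1
    have hsrc : ∀ᶠ t in 𝓝 s, c t ∈ (𝒜.ψ (c s)).source :=
      ((sma_continuous hc).tendsto s).eventually ((𝒜.ψ (c s)).open_source.mem_nhds (𝒜.mem (c s)))
    have h3 : ∀ ε : ℝ, 0 < ε → |1 - ‖v‖| ≤ ε * ‖v‖ := by
      intro ε hε
      have h4 : Tendsto (fun t => ((𝒜.ψ (c s) (c t), 0) : Eu n × Eu n)) (𝓝 s) (𝓝 (0, 0)) :=
        hx.prodMk_nhds tendsto_const_nhds
      have h5 : ∀ᶠ t in 𝓝[≠] s, |1 - ‖𝒜.ψ (c s) (c t)‖ / (|t - s|)| ≤ ε * (‖𝒜.ψ (c s) (c t)‖ / (|t - s|)) := by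
        have h6 : ∀ᶠ t in 𝓝 s, |t - s| < π := by
          have := ball_mem_nhds s Real.pi_pos
          filter_upwards [this] with t ht
          rwa [mem_ball, Real.dist_eq] at ht
        filter_upwards [(h4.eventually (𝒜.metric (c s) ε hε)).filter_mono nhdsWithin_le_nhds,
          hsrc.filter_mono nhdsWithin_le_nhds, h6.filter_mono nhdsWithin_le_nhds, self_mem_nhdsWithin] with t e1 e2 e3 e4
        have e4' : 0 < |t - s| := abs_pos.2 (sub_ne_zero.2 e4)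
        simp only [(𝒜.ψ (c s)).left_inv e2, symm_zero, sub_zero] at e1
        rw [hc t s e3.le] at e1
        have e5 : 1 - ‖𝒜.ψ (c s) (c t)‖ / |t - s| = (|t - s| - ‖𝒜.ψ (c s) (c t)‖) / |t - s| := by
          field_simp
        rw [e5, abs_div, abs_of_pos e4', ← mul_div_assoc]
        exact div_le_div_of_nonneg_right e1 e4'.le
      have h7 : Tendsto (fun t => |1 - ‖𝒜.ψ (c s) (c t)‖ / (|t - s|)|) (𝓝[≠] s) (𝓝 |1 - ‖v‖|) :=
        (tendsto_const_nhds.sub h1).abs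
      exact le_of_tendsto_of_tendsto h7 (h1.const_mul ε) h5
    have h8 : |1 - ‖v‖| ≤ 0 := by
      have h9 : Tendsto (fun ε : ℝ => ε * ‖v‖) (𝓝[>] 0) (𝓝 (0 * ‖v‖)) :=
        ((tendsto_id (x := 𝓝 (0 : ℝ))).mono_left nhdsWithin_le_nhds).mul_const _
      rw [zero_mul] at h9
      refine ge_of_tendsto h9 ?_
      filter_upwards [self_mem_nhdsWithin] with ε hε
      exact h3 ε hε
    have h10 : 1 - ‖v‖ = 0 := abs_eq_zero.1 (le_antisymm h8 (abs_nonneg _))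
    linarith
  · refine ContDiffAt.congr_of_eventuallyEq ?_ heq
    have h1 : ContDiffAt ℝ ∞ Ψ ((fun t : ℝ => (t - s) • v) s) := by
      simpa using hΨ
    exact ContDiffAt.comp (g := Ψ) s h1 (by fun_prop)

end Vel

section Vel2

variable {n : ℕ} {M : Type*} [MetricSpace M] (𝒜 : SDist n M)

theorem IsGeo.exists_vel {c : ℝ → M} (hc : IsGeo c) (s : ℝ) : ‖𝒜.vel c s‖ = 1 ∧ 𝒜.IsVel c s (𝒜.vel c s) := by
  obtain ⟨v, hv, hd, -, -⟩ := sma_vel 𝒜 hc s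
  have h : 𝒜.vel c s = v := hd.deriv
  rw [h]
  exact ⟨hv, hd⟩

theorem IsGeo.contDiffAt {c : ℝ → M} (hc : IsGeo c) {p : M} {s : ℝ} (h : c s ∈ (𝒜.ψ p).source) :
    ContDiffAt ℝ ∞ (fun t => 𝒜.ψ p (c t)) s := by
  obtain ⟨v, -, -, hd, -⟩ := sma_vel 𝒜 hc s
  have h1 : (fun t => 𝒜.ψ p (c t)) =ᶠ[𝓝 s] fun t => 𝒜.ch p (c s) (𝒜.ψ (c s) (c t)) := by
    filter_upwards [((sma_continuous hc).tendsto s).eventually ((𝒜.ψ (c s)).open_source.mem_nhds (𝒜.mem (c s)))] with t ht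
    unfold SDist.ch
    rw [(𝒜.ψ (c s)).left_inv ht]
  refine ContDiffAt.congr_of_eventuallyEq ?_ h1
  refine ContDiffAt.comp (g := 𝒜.ch p (c s)) s ?_ hd
  rw [𝒜.zero]
  exact contDiffAt_ch 𝒜 h

set_option linter.unusedVariables false in
theorem vel_rev {c : ℝ → M} (hc : IsGeo c) (s : ℝ) : 𝒜.vel (fun t => c (-t)) s = -𝒜.vel c (-s) := by
  unfold SDist.vel
  exact deriv_comp_neg (fun t => 𝒜.ψ (c (-s)) (c t)) s

theorem vel_shift {c : ℝ → M} (a s : ℝ) : 𝒜.vel (fun t => c (t + a)) s = 𝒜.vel c (s + a) := by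
  unfold SDist.vel
  exact deriv_comp_add_const (fun t => 𝒜.ψ (c (s + a)) (c t)) a s

/-- gradient of `d² / 2` along a geodesic near the base point -/
theorem sma_Phi_vel {c : ℝ → M} (hc : IsGeo c) (s : ℝ) :
    ∀ᶠ t in 𝓝 s, 𝒜.Phi (c s) (𝒜.ψ (c s) (c t)) = (t - s) • 𝒜.vel c s := by
  obtain ⟨v, -, hd, -, h⟩ := sma_vel 𝒜 hc s
  have hv : 𝒜.vel c s = v := hd.deriv
  rw [hv]
  exact h

end Vel2

end Pool.Agent.Lib.MP_ccbbf6_gt.Geo
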