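import Pool.Agent.Lib.MP_ccbbf6_gt.Geo.GE3
import Pool.Agent.Lib.MP_ccbbf6_gt.Geo.SMa

/-!
# SM-A, velocity half: geodesics and their velocities (helper83)

In the chart centered at `x` let `P (u, w)` be the derivative of `d ^ 2 / 2` in the first variable. Along a
geodesic `P (c s, c (s + t)) = t • D P (c s, c s) (0, c' s)` for small `t > 0`, and the derivative of `P` in the
second variable at `(x, x)` is minus the inner product.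
-/

set_option autoImplicit false

open Set Filter Topology Metric Real
open scoped ContDiff RealInnerProductSpace

noncomputable section

namespace Pool.Agent.Lib.MP_ccbbf6_gt.Geo

variable {n : ℕ} {M : Type*} [MetricSpace M] (𝒜 : SDist n M)

/-- derivative of `d ^ 2 / 2` in the first variable, chart centered at `x` -/
def smvP (x : M) (z : Eu n × Eu n) : Eu n →L[ℝ] ℝ :=
  (fderiv ℝ (𝒜.F x x) z).comp (ContinuousLinearMap.inl ℝ (Eu n) (Eu n))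

/-- derivative of `d` in the first variable, chart centered at `x` -/
def smvQ (x : M) (z : Eu n × Eu n) : Eu n →L[ℝ] ℝ :=
  (fderiv ℝ (𝒜.f x x) z).comp (ContinuousLinearMap.inl ℝ (Eu n) (Eu n))

theorem smv_f {x y z : M} (hy : y ∈ (𝒜.ψ x).source) (hz : z ∈ (𝒜.ψ x).source) :
    𝒜.f x x (𝒜.ψ x y, 𝒜.ψ x z) = dist y z := by
  unfold SDist.f
  rw [(𝒜.ψ x).left_inv hy, (𝒜.ψ x).left_inv hz]

/-- a neighbourhood of `x` in which everything is smooth -/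
theorem smv_nhd (x : M) : ∃ U : Set M, IsOpen U ∧ x ∈ U ∧ U ⊆ (𝒜.ψ x).source ∧
    ∀ y ∈ U, ∀ z ∈ U, ContDiffAt ℝ ∞ (𝒜.F x x) (𝒜.ψ x y, 𝒜.ψ x z) ∧
      (y ≠ z → ContDiffAt ℝ ∞ (𝒜.f x x) (𝒜.ψ x y, 𝒜.ψ x z)) := by
  have h0 := F_diag_eventually 𝒜 x
  rw [nhds_prod_eq] at h0
  obtain ⟨V, hV, W, hW, hVW⟩ := Filter.mem_prod_iff.1 h0
  obtain ⟨T, hT, hTo, hT0⟩ := _root_.mem_nhds_iff.1 (inter_mem hV hW)
  refine ⟨(𝒜.ψ x).source ∩ 𝒜.ψ x ⁻¹' T, (𝒜.ψ x).continuousOn.isOpen_inter_preimage (𝒜.ψ x).open_source hTo,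
    ⟨𝒜.mem x, by rw [mem_preimage, 𝒜.zero]; exact hT0⟩, inter_subset_left, ?_⟩
  intro y hy z hz
  have h1 : ContDiffAt ℝ ∞ (𝒜.F x x) (𝒜.ψ x y, 𝒜.ψ x z) :=
    hVW (Set.mk_mem_prod (hT hy.2).1 (hT hz.2).2)
  refine ⟨h1, fun hyz => ?_⟩
  have h2 : 𝒜.f x x = fun z => Real.sqrt (2 * 𝒜.F x x z) := by
    funext z
    have h3 : 2 * 𝒜.F x x z = 𝒜.f x x z ^ 2 := by
      unfold SDist.F
      ring
    rw [h3, Real.sqrt_sq]
    exact dist_nonneg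
  rw [h2]
  refine (contDiffAt_const.mul h1).sqrt ?_
  unfold SDist.F
  rw [smv_f 𝒜 hy.1 hz.1]
  have := dist_pos.2 hyz
  positivity

theorem smv_hasFDerivAt {G : Eu n × Eu n → ℝ} {u w : Eu n} (h : DifferentiableAt ℝ G (u, w)) :
    HasFDerivAt (fun u' => G (u', w)) ((fderiv ℝ G (u, w)).comp (ContinuousLinearMap.inl ℝ (Eu n) (Eu n))) u := by
  have h1 : HasFDerivAt (fun u' : Eu n => (u', w)) (ContinuousLinearMap.inl ℝ (Eu n) (Eu n)) u :=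
    hasFDerivAt_prodMk_left u w
  exact h.hasFDerivAt.comp u h1

/-- two points in the same direction give the same derivative of the distance -/
theorem smv_Q {x y z z' : M} {U : Set M} (hU : U ⊆ (𝒜.ψ x).source)
    (hs : ∀ y ∈ U, ∀ z ∈ U, ContDiffAt ℝ ∞ (𝒜.F x x) (𝒜.ψ x y, 𝒜.ψ x z) ∧
      (y ≠ z → ContDiffAt ℝ ∞ (𝒜.f x x) (𝒜.ψ x y, 𝒜.ψ x z))) (hy : y ∈ U) (hz : z ∈ U) (hz' : z' ∈ U)
    (hyz : y ≠ z) (hyz' : y ≠ z') (h : dist y z' = dist y z + dist z z') :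
    smvQ 𝒜 x (𝒜.ψ x y, 𝒜.ψ x z) = smvQ 𝒜 x (𝒜.ψ x y, 𝒜.ψ x z') := by
  have h1 := smv_hasFDerivAt (((hs y hy z hz).2 hyz).differentiableAt (by simp))
  have h2 := smv_hasFDerivAt (((hs y hy z' hz').2 hyz').differentiableAt (by simp))
  have h3 : IsLocalMin (fun u => 𝒜.f x x (u, 𝒜.ψ x z) - 𝒜.f x x (u, 𝒜.ψ x z')) (𝒜.ψ x y) := by
    refine Filter.Eventually.of_forall fun u => ?_
    simp only
    rw [smv_f 𝒜 (hU hy) (hU hz), smv_f 𝒜 (hU hy) (hU hz'), h]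
    unfold SDist.f
    simp only
    rw [(𝒜.ψ x).left_inv (hU hz), (𝒜.ψ x).left_inv (hU hz')]
    have := dist_triangle ((𝒜.ψ x).symm u) z z'
    linarith
  have h4 := h3.hasFDerivAt_eq_zero (h1.sub h2)
  exact sub_eq_zero.1 h4

theorem smv_P {x y z : M} {U : Set M} (hU : U ⊆ (𝒜.ψ x).source)
    (hs : ∀ y ∈ U, ∀ z ∈ U, ContDiffAt ℝ ∞ (𝒜.F x x) (𝒜.ψ x y, 𝒜.ψ x z) ∧
      (y ≠ z → ContDiffAt ℝ ∞ (𝒜.f x x) (𝒜.ψ x y, 𝒜.ψ x z))) (hy : y ∈ U) (hz : z ∈ U)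
    (hyz : y ≠ z) :
    smvP 𝒜 x (𝒜.ψ x y, 𝒜.ψ x z) = dist y z • smvQ 𝒜 x (𝒜.ψ x y, 𝒜.ψ x z) := by
  have h1 := (((hs y hy z hz).2 hyz).differentiableAt (by simp)).hasFDerivAt
  have h2 : HasFDerivAt (𝒜.F x x) (dist y z • fderiv ℝ (𝒜.f x x) (𝒜.ψ x y, 𝒜.ψ x z))
      (𝒜.ψ x y, 𝒜.ψ x z) := by
    have h3 : 𝒜.F x x = fun z => (1 / 2 : ℝ) * (𝒜.f x x z * 𝒜.f x x z) := by
      funext z
      unfold SDist.F
      ring
    rw [h3]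
    refine ((h1.mul h1).const_mul (1 / 2 : ℝ)).congr_fderiv ?_
    rw [smv_f 𝒜 (hU hy) (hU hz)]
    ext a <;> simp <;> ring
  unfold smvP smvQ
  rw [h2.fderiv]
  rfl

theorem smv_P0 {x y : M} {U : Set M} (hU : U ⊆ (𝒜.ψ x).source)
    (hs : ∀ y ∈ U, ∀ z ∈ U, ContDiffAt ℝ ∞ (𝒜.F x x) (𝒜.ψ x y, 𝒜.ψ x z) ∧
      (y ≠ z → ContDiffAt ℝ ∞ (𝒜.f x x) (𝒜.ψ x y, 𝒜.ψ x z))) (hy : y ∈ U) :
    smvP 𝒜 x (𝒜.ψ x y, 𝒜.ψ x y) = 0 := by
  have h1 := smv_hasFDerivAt ((hs y hy y hy).1.differentiableAt (by simp))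
  have h3 : IsLocalMin (fun u => 𝒜.F x x (u, 𝒜.ψ x y)) (𝒜.ψ x y) := by
    refine Filter.Eventually.of_forall fun u => ?_
    simp only
    unfold SDist.F
    rw [smv_f 𝒜 (hU hy) (hU hy), dist_self]
    have := sq_nonneg (𝒜.f x x (u, 𝒜.ψ x y))
    linarith
  exact h3.hasFDerivAt_eq_zero h1

theorem smv_P_contDiffAt {x y z : M} {U : Set M}
    (hs : ∀ y ∈ U, ∀ z ∈ U, ContDiffAt ℝ ∞ (𝒜.F x x) (𝒜.ψ x y, 𝒜.ψ x z) ∧
      (y ≠ z → ContDiffAt ℝ ∞ (𝒜.f x x) (𝒜.ψ x y, 𝒜.ψ x z))) (hy : y ∈ U) (hz : z ∈ U) :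
    ContDiffAt ℝ ∞ (smvP 𝒜 x) (𝒜.ψ x y, 𝒜.ψ x z) := by
  unfold smvP
  exact ((hs y hy z hz).1.fderiv_right (m := ∞) (by simp)).clm_comp contDiffAt_const

theorem smv_Q_continuousAt {x y z : M} {U : Set M}
    (hs : ∀ y ∈ U, ∀ z ∈ U, ContDiffAt ℝ ∞ (𝒜.F x x) (𝒜.ψ x y, 𝒜.ψ x z) ∧
      (y ≠ z → ContDiffAt ℝ ∞ (𝒜.f x x) (𝒜.ψ x y, 𝒜.ψ x z))) (hy : y ∈ U) (hz : z ∈ U) (hyz : y ≠ z) :
    ContinuousAt (smvQ 𝒜 x) (𝒜.ψ x y, 𝒜.ψ x z) := by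
  unfold smvQ
  exact ((((hs y hy z hz).2 hyz).fderiv_right (m := ∞) (by simp)).clm_comp contDiffAt_const).continuousAt

/-- along a geodesic -/
theorem smv_geo {x : M} {U : Set M} (hU : U ⊆ (𝒜.ψ x).source)
    (hs : ∀ y ∈ U, ∀ z ∈ U, ContDiffAt ℝ ∞ (𝒜.F x x) (𝒜.ψ x y, 𝒜.ψ x z) ∧
      (y ≠ z → ContDiffAt ℝ ∞ (𝒜.f x x) (𝒜.ψ x y, 𝒜.ψ x z))) {c : ℝ → M} (hc : IsGeo c) {s t : ℝ} (ht : 0 < t)
    (htπ : t ≤ π) (hcU : ∀ τ ∈ Icc 0 t, c (s + τ) ∈ U) (hd : DifferentiableAt ℝ (fun t => 𝒜.ψ x (c t)) s) :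
    fderiv ℝ (smvP 𝒜 x) (𝒜.ψ x (c s), 𝒜.ψ x (c s)) (0, deriv (fun t => 𝒜.ψ x (c t)) s) =
      smvQ 𝒜 x (𝒜.ψ x (c s), 𝒜.ψ x (c (s + t))) ∧
    smvP 𝒜 x (𝒜.ψ x (c s), 𝒜.ψ x (c (s + t))) =
      t • fderiv ℝ (smvP 𝒜 x) (𝒜.ψ x (c s), 𝒜.ψ x (c s)) (0, deriv (fun t => 𝒜.ψ x (c t)) s) := by
  have hcs : c s ∈ U := by
    have := hcU 0 ⟨le_rfl, ht.le⟩
    rwa [add_zero] at this
  have hdist : ∀ τ ∈ Icc 0 t, ∀ τ' ∈ Icc 0 t, dist (c (s + τ)) (c (s + τ')) = |τ - τ'| := by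
    intro τ hτ τ' hτ'
    have h1 : |s + τ - (s + τ')| = |τ - τ'| := by
      congr 1
      ring
    rw [hc, h1]
    rw [h1]
    refine (abs_sub_le_iff.2 ⟨?_, ?_⟩).trans htπ
    · linarith [hτ.2, hτ'.1]
    · linarith [hτ.1, hτ'.2]
  have hdist0 : ∀ τ ∈ Icc 0 t, dist (c s) (c (s + τ)) = τ := by
    intro τ hτ
    have h1 := hdist 0 ⟨le_rfl, ht.le⟩ τ hτ
    rw [add_zero] at h1
    rw [h1, zero_sub, abs_neg, abs_of_nonneg hτ.1]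
  have hne : ∀ τ ∈ Icc 0 t, 0 < τ → c s ≠ c (s + τ) := by
    intro τ hτ h0
    rw [← dist_pos, hdist0 τ hτ]
    exact h0
  have htt : t ∈ Icc 0 t := ⟨ht.le, le_rfl⟩
  set α := smvQ 𝒜 x (𝒜.ψ x (c s), 𝒜.ψ x (c (s + t))) with hα
  have hQ : ∀ τ ∈ Icc 0 t, 0 < τ → smvQ 𝒜 x (𝒜.ψ x (c s), 𝒜.ψ x (c (s + τ))) = α := by
    intro τ hτ h0
    refine smv_Q 𝒜 hU hs hcs (hcU τ hτ) (hcU t htt) (hne τ hτ h0) (hne t htt ht) ?_
    rw [hdist0 t htt, hdist0 τ hτ, hdist τ hτ t htt, abs_sub_comm, abs_of_nonneg (sub_nonneg.2 hτ.2)]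
    ring
  have hP : ∀ τ ∈ Icc 0 t, smvP 𝒜 x (𝒜.ψ x (c s), 𝒜.ψ x (c (s + τ))) = τ • α := by
    intro τ hτ
    rcases eq_or_lt_of_le hτ.1 with h0 | h0
    · rw [← h0, add_zero, zero_smul]
      exact smv_P0 𝒜 hU hs hcs
    · rw [smv_P 𝒜 hU hs hcs (hcU τ hτ) (hne τ hτ h0), hdist0 τ hτ, hQ τ hτ h0]
  set u := deriv (fun t => 𝒜.ψ x (c t)) s with hu
  have h1 : HasDerivAt (fun τ => smvP 𝒜 x (𝒜.ψ x (c s), 𝒜.ψ x (c (s + τ))))
      (fderiv ℝ (smvP 𝒜 x) (𝒜.ψ x (c s), 𝒜.ψ x (c s)) (0, u)) 0 := by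
    have h2 : HasDerivAt (fun τ => (𝒜.ψ x (c s), 𝒜.ψ x (c (s + τ)))) ((0 : Eu n), u) 0 := by
      refine (hasDerivAt_const (0 : ℝ) (𝒜.ψ x (c s))).prodMk ?_
      have h3 : HasDerivAt (fun τ => s + τ) 1 (0 : ℝ) := by
        simpa using (hasDerivAt_id (0 : ℝ)).const_add s
      have h4 : HasDerivAt (fun t => 𝒜.ψ x (c t)) u (s + 0) := by
        rw [add_zero]
        exact hd.hasDerivAt
      have h5 := h4.scomp (0 : ℝ) h3
      rw [one_smul] at h5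
      exact h5
    have h6 : HasFDerivAt (smvP 𝒜 x) (fderiv ℝ (smvP 𝒜 x) (𝒜.ψ x (c s), 𝒜.ψ x (c s)))
        (𝒜.ψ x (c s), 𝒜.ψ x (c (s + 0))) := by
      rw [add_zero]
      exact ((smv_P_contDiffAt 𝒜 hs hcs hcs).differentiableAt (by simp)).hasFDerivAt
    exact h6.comp_hasDerivAt (0 : ℝ) h2
  have h7 : HasDerivWithinAt (fun τ => smvP 𝒜 x (𝒜.ψ x (c s), 𝒜.ψ x (c (s + τ)))) α (Icc 0 t) 0 := by
    have h8 : HasDerivWithinAt (fun τ : ℝ => τ • α) α (Icc 0 t) 0 := by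
      have := ((hasDerivAt_id (0 : ℝ)).smul_const α).hasDerivWithinAt (s := Icc 0 t)
      rw [one_smul] at this
      exact this
    exact h8.congr (fun τ hτ => hP τ hτ) (hP 0 ⟨le_rfl, ht.le⟩)
  have h9 : fderiv ℝ (smvP 𝒜 x) (𝒜.ψ x (c s), 𝒜.ψ x (c s)) (0, u) = α :=
    (uniqueDiffOn_Icc ht 0 ⟨le_rfl, ht.le⟩).eq_deriv _ h1.hasDerivWithinAt h7
  refine ⟨h9, ?_⟩
  rw [h9, hP t htt]

/-- the derivative of `P` -/
theorem smv_fderiv_P {x : M} {z : Eu n × Eu n} (h : ContDiffAt ℝ ∞ (𝒜.F x x) z) (v : Eu n × Eu n) (b : Eu n) :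
    fderiv ℝ (smvP 𝒜 x) z v b = fderiv ℝ (fderiv ℝ (𝒜.F x x)) z v (b, 0) := by
  have h1 : HasFDerivAt (fderiv ℝ (𝒜.F x x)) (fderiv ℝ (fderiv ℝ (𝒜.F x x)) z) z :=
    ((h.fderiv_right (m := ∞) (by simp)).differentiableAt (by simp)).hasFDerivAt
  have h2 := h1.clm_comp (hasFDerivAt_const (ContinuousLinearMap.inl ℝ (Eu n) (Eu n)) z)
  unfold smvP
  rw [h2.fderiv]
  simp

theorem smv_P_diag (x : M) (a b : Eu n) : fderiv ℝ (smvP 𝒜 x) (0, 0) (0, a) b = -⟪a, b⟫ := by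
  rw [smv_fderiv_P 𝒜 (F_diag_eventually 𝒜 x).self_of_nhds, D2F_diag]
  simp

/-- a ball around `x` in which everything is smooth -/
theorem smv_ball (x : M) : ∃ r : ℝ, 0 < r ∧ r ≤ π ∧ ball x r ⊆ (𝒜.ψ x).source ∧
    ∀ y ∈ ball x r, ∀ z ∈ ball x r, ContDiffAt ℝ ∞ (𝒜.F x x) (𝒜.ψ x y, 𝒜.ψ x z) ∧
      (y ≠ z → ContDiffAt ℝ ∞ (𝒜.f x x) (𝒜.ψ x y, 𝒜.ψ x z)) := by
  obtain ⟨U, hUo, hxU, hU, hs⟩ := smv_nhd 𝒜 x
  obtain ⟨r, hr, hrU⟩ := Metric.isOpen_iff.1 hUo x hxU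
  have h1 : ball x (min r π) ⊆ U := (ball_subset_ball (min_le_left _ _)).trans hrU
  exact ⟨min r π, lt_min hr Real.pi_pos, min_le_right _ _, h1.trans hU,
    fun y hy z hz => hs y (h1 hy) z (h1 hz)⟩

/-- the vector of a covector -/
def smvR : (Eu n →L[ℝ] ℝ) →L[ℝ] Eu n :=
  ∑ i, (ContinuousLinearMap.apply ℝ ℝ (EuclideanSpace.single i (1 : ℝ))).smulRight
    (EuclideanSpace.single i (1 : ℝ))

theorem smvR_apply {L : Eu n →L[ℝ] ℝ} {a : Eu n} (h : ∀ b, L b = -⟪a, b⟫) : smvR L = -a := by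
  unfold smvR
  rw [sum_apply]
  simp only [ContinuousLinearMap.smulRight_apply, ContinuousLinearMap.apply_apply, h]
  rw [sm0_expand a, ← Finset.sum_neg_distrib]
  refine Finset.sum_congr rfl fun i _ => ?_
  rw [← sm0_expand a, neg_smul, real_inner_comm, EuclideanSpace.inner_single_left]
  simp

/-- strict derivative of the vector of `P (0, w)` -/
theorem smv_strict (x : M) : HasStrictFDerivAt (fun w => smvR (smvP 𝒜 x (0, w)))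
    ((ContinuousLinearEquiv.neg ℝ : Eu n ≃L[ℝ] Eu n) : Eu n →L[ℝ] Eu n) 0 := by
  obtain ⟨r, hr, -, -, hs⟩ := smv_ball 𝒜 x
  have h1 : ContDiffAt ℝ ∞ (smvP 𝒜 x) (0, 0) := by
    have := smv_P_contDiffAt 𝒜 hs (mem_ball_self hr) (mem_ball_self hr)
    rwa [𝒜.zero] at this
  have h2 : HasStrictFDerivAt (smvP 𝒜 x) (fderiv ℝ (smvP 𝒜 x) (0, 0)) (0, 0) :=
    h1.hasStrictFDerivAt (by simp)
  have h3 : HasStrictFDerivAt (fun w : Eu n => ((0 : Eu n), w)) (ContinuousLinearMap.inr ℝ (Eu n) (Eu n)) 0 :=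
    (ContinuousLinearMap.inr ℝ (Eu n) (Eu n)).hasStrictFDerivAt
  have h4 := (smvR.hasStrictFDerivAt (x := smvP 𝒜 x (0, 0))).comp (0 : Eu n) (h2.comp (0 : Eu n) h3)
  refine h4.congr_fderiv ?_
  ext a : 1
  simp only [ContinuousLinearMap.comp_apply, ContinuousLinearMap.inr_apply]
  rw [smvR_apply (smv_P_diag 𝒜 x a)]
  rfl

theorem IsGeo.smv_differentiableAt [CompactSpace M] {c : ℝ → M} (hc : IsGeo c) {x : M} {s : ℝ}
    (h : c s ∈ (𝒜.ψ x).source) : DifferentiableAt ℝ (fun t => 𝒜.ψ x (c t)) s :=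
  (IsGeo.contDiffAt 𝒜 hc h).differentiableAt (by simp)

theorem IsGeo.eq_of_vel [CompactSpace M] {c c' : ℝ → M} (hc : IsGeo c) (hc' : IsGeo c') {s : ℝ} (h : c s = c' s)
    (hv : 𝒜.vel c s = 𝒜.vel c' s) : c = c' := by
  obtain ⟨x, hx⟩ : ∃ x, x = c s := ⟨_, rfl⟩
  have hx' : x = c' s := hx.trans h
  obtain ⟨r, hr, hrπ, hU, hs⟩ := smv_ball 𝒜 x
  have hxr : x ∈ ball x r := mem_ball_self hr
  have key : ∀ {c : ℝ → M}, IsGeo c → x = c s → ∀ t, 0 < t → t < r → c (s + t) ∈ ball x r ∧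
      smvP 𝒜 x (0, 𝒜.ψ x (c (s + t))) = t • fderiv ℝ (smvP 𝒜 x) (0, 0) (0, 𝒜.vel c s) := by
    intro c hc hx t ht htr
    have h1 : ∀ τ ∈ Icc 0 t, c (s + τ) ∈ ball x r := by
      intro τ hτ
      rw [mem_ball, hx]
      refine (hc.dist_le _ _).trans_lt ?_
      rw [add_sub_cancel_left, abs_of_nonneg hτ.1]
      exact hτ.2.trans_lt htr
    refine ⟨h1 t ⟨ht.le, le_rfl⟩, ?_⟩
    have h2 := (smv_geo 𝒜 hU hs hc ht (htr.le.trans hrπ) h1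
      (IsGeo.smv_differentiableAt 𝒜 hc (hx ▸ hU hxr))).2
    unfold SDist.vel
    rw [← hx] at h2 ⊢
    rw [𝒜.zero] at h2
    exact h2
  obtain ⟨δ, hδ, hinj⟩ : ∃ δ > 0, Set.InjOn (fun w => smvR (smvP 𝒜 x (0, w))) (ball 0 δ) := by
    obtain ⟨S, hS, hS'⟩ : ∃ S ∈ 𝓝 (0 : Eu n), Set.InjOn (fun w => smvR (smvP 𝒜 x (0, w))) S :=
      ⟨_, (smv_strict 𝒜 x).toOpenPartialHomeomorph _ |>.open_source.mem_nhds
        (smv_strict 𝒜 x).mem_toOpenPartialHomeomorph_source,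
        ((smv_strict 𝒜 x).toOpenPartialHomeomorph _).injOn⟩
    obtain ⟨δ, hδ, h1⟩ := Metric.mem_nhds_iff.1 hS
    exact ⟨δ, hδ, hS'.mono h1⟩
  have hcont : ∀ {c : ℝ → M}, IsGeo c → x = c s → ∀ᶠ t in 𝓝[>] (0 : ℝ), 𝒜.ψ x (c (s + t)) ∈ ball (0 : Eu n) δ := by
    intro c hc hx
    have h1 : ContinuousAt (fun t => 𝒜.ψ x (c (s + t))) 0 := by
      have h2 : ContinuousAt (fun t => 𝒜.ψ x (c t)) (s + 0) := by
        rw [add_zero]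
        exact (IsGeo.smv_differentiableAt 𝒜 hc (hx ▸ hU hxr)).continuousAt
      exact h2.comp (continuousAt_const.add continuousAt_id)
    have h3 : 𝒜.ψ x (c (s + 0)) = 0 := by rw [add_zero, ← hx, 𝒜.zero]
    have h4 := h1.eventually (ball_mem_nhds _ hδ)
    simp only [h3] at h4
    exact h4.filter_mono nhdsWithin_le_nhds
  have hr' : ∀ᶠ t in 𝓝[>] (0 : ℝ), 0 < t ∧ t < r :=
    (eventually_nhdsWithin_of_forall fun t ht => ht).and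
      ((eventually_lt_nhds hr).filter_mono nhdsWithin_le_nhds)
  obtain ⟨t, ⟨⟨ht, htr⟩, h1⟩, h2⟩ := ((hr'.and (hcont hc hx)).and (hcont hc' hx')).exists
  obtain ⟨h3, h4⟩ := key hc hx t ht htr
  obtain ⟨h5, h6⟩ := key hc' hx' t ht htr
  have h7 : 𝒜.ψ x (c (s + t)) = 𝒜.ψ x (c' (s + t)) := by
    refine hinj h1 h2 ?_
    simp only
    rw [h4, h6, hv]
  have h8 : c (s + t) = c' (s + t) := (𝒜.ψ x).injOn (hU h3) (hU h5) h7
  refine IsGeo.unique 𝒜 hc hc' (a := s) (b := s + t) (by linarith) ?_ h h8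
  rw [sub_add_cancel_left, abs_neg, abs_of_pos ht]
  exact htr.trans_le hrπ

/-- every direction is the direction of a geodesic -/
theorem exists_geo_vel [CompactSpace M] (hB : Bl M) (p : M) {v : Eu n} (hv : ‖v‖ = 1) :
    ∃ c : ℝ → M, IsGeo c ∧ c 0 = p ∧ 𝒜.vel c 0 = v := by
  obtain ⟨r, hr, hrπ, hU, hs⟩ := smv_ball 𝒜 p
  have hpr : p ∈ ball p r := mem_ball_self hr
  have hP0 : smvP 𝒜 p (0, 0) = 0 := by
    have := smv_P0 𝒜 hU hs hpr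
    rwa [𝒜.zero] at this
  have h1 : {w : Eu n | (𝒜.ψ p).symm w ∈ ball p r ∧ w ∈ (𝒜.ψ p).target} ∈ 𝓝 (0 : Eu n) := by
    refine inter_mem ?_ ((𝒜.ψ p).open_target.mem_nhds (zero_mem_target 𝒜 p))
    have h2 := (continuousAt_symm 𝒜 p).tendsto
    rw [symm_zero] at h2
    exact h2 (ball_mem_nhds p hr)
  have h2 : map (fun w => smvR (smvP 𝒜 p (0, w))) (𝓝 0) = 𝓝 (smvR (smvP 𝒜 p (0, 0))) :=
    (smv_strict 𝒜 p).map_nhds_eq_of_equiv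
  rw [hP0, map_zero] at h2
  have h3 : (fun w => smvR (smvP 𝒜 p (0, w))) '' {w : Eu n | (𝒜.ψ p).symm w ∈ ball p r ∧ w ∈ (𝒜.ψ p).target} ∈
      𝓝 (0 : Eu n) := by
    rw [← h2]
    exact image_mem_map h1
  have h4 : Tendsto (fun t : ℝ => -(t • v)) (𝓝[>] 0) (𝓝 0) := by
    have : Continuous fun t : ℝ => -(t • v) := (continuous_id.smul continuous_const).neg
    have h5 := this.tendsto 0
    rw [zero_smul, neg_zero] at h5
    exact h5.mono_left nhdsWithin_le_nhds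
  obtain ⟨t, ⟨w, ⟨hw1, hw2⟩, hw3⟩, ht⟩ := ((h4.eventually h3).and self_mem_nhdsWithin).exists
  have ht : 0 < t := ht
  simp only at hw3
  set q := (𝒜.ψ p).symm w with hq
  have hpq : p ≠ q := by
    intro h
    have h5 : w = 0 := by
      rw [← (𝒜.ψ p).right_inv hw2, ← hq, ← h, 𝒜.zero]
    rw [h5, hP0, map_zero] at hw3
    have h6 : t • v = 0 := by
      rw [← neg_eq_zero]
      exact hw3.symm
    rw [smul_eq_zero] at h6
    rcases h6 with h6 | h6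
    · exact ht.ne' h6
    · rw [h6, norm_zero] at hv
      exact zero_ne_one hv
  obtain ⟨c, hc, hc0, hcq⟩ := exists_geo 𝒜 hB hpq
  have hℓ : 0 < dist p q := dist_pos.2 hpq
  have hℓr : dist p q < r := by
    rw [dist_comm]
    exact hw1
  refine ⟨c, hc, hc0, ?_⟩
  have h5 : ∀ τ ∈ Icc 0 (dist p q), c (0 + τ) ∈ ball p r := by
    intro τ hτ
    rw [mem_ball, zero_add]
    have h7 := hc.dist_le τ 0
    rw [hc0, sub_zero, abs_of_nonneg hτ.1] at h7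
    exact h7.trans_lt (hτ.2.trans_lt hℓr)
  have h6 := (smv_geo 𝒜 hU hs hc hℓ (hℓr.le.trans hrπ) h5
    (IsGeo.smv_differentiableAt 𝒜 hc (hc0 ▸ hU hpr))).2
  rw [zero_add, hcq, hc0, 𝒜.zero, hq, (𝒜.ψ p).right_inv hw2] at h6
  have h7 : 𝒜.vel c 0 = deriv (fun t => 𝒜.ψ p (c t)) 0 := by
    unfold SDist.vel
    rw [hc0]
  rw [← h7, ← hq] at h6
  have h8 : smvR (smvP 𝒜 p (0, w)) = -(dist p q • 𝒜.vel c 0) := by
    apply smvR_apply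
    intro b
    rw [h6, smul_apply, smv_P_diag, real_inner_smul_left, smul_eq_mul]
    ring
  rw [hw3, neg_inj] at h8
  have h9 := congrArg norm h8
  rw [norm_smul, norm_smul, hv, (IsGeo.exists_vel 𝒜 hc 0).1, mul_one, mul_one, Real.norm_eq_abs, Real.norm_eq_abs,
    abs_of_pos ht, abs_of_pos hℓ] at h9
  rw [← h9] at h8
  exact (smul_right_injective _ ht.ne' h8).symm

theorem smv_tendsto_apply {V W : Type*} [NormedAddCommGroup V] [NormedSpace ℝ V] [NormedAddCommGroup W]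
    [NormedSpace ℝ W] {ι : Type*} {l : Filter ι} {T : ι → V →L[ℝ] W} {T' : V →L[ℝ] W} {v : ι → V} {v' : V}
    (hT : Tendsto T l (𝓝 T')) (hv : Tendsto v l (𝓝 v')) : Tendsto (fun i => T i (v i)) l (𝓝 (T' v')) :=
  ((isBoundedBilinearMap_apply (𝕜 := ℝ) (E := V) (F := W)).continuous.tendsto (T', v')).comp
    (hT.prodMk_nhds hv)

theorem smv_lim {E V W : Type*} [NormedAddCommGroup E] [NormedSpace ℝ E] [NormedAddCommGroup V]
    [NormedAddCommGroup W] [NormedSpace ℝ W] {ι : Type*} {l : Filter ι} {T : ι → E →L[ℝ] W} {T' : E →L[ℝ] W}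
    {j : V → E} {w : ι → V} (hT : Tendsto T l (𝓝 T')) (hj : ∀ v, ‖j v‖ ≤ ‖v‖) (h0 : ∀ v, ‖v‖ ≤ ‖T' (j v)‖)
    (h : Tendsto (fun i => T i (j (w i))) l (𝓝 0)) : Tendsto w l (𝓝 0) := by
  have hN : ∀ᶠ i in l, ‖T i - T'‖ < 1 / 2 := by
    have := (tendsto_iff_norm_sub_tendsto_zero.1 hT).eventually (eventually_lt_nhds (by norm_num : (0 : ℝ) < 1 / 2))
    exact this
  rw [tendsto_zero_iff_norm_tendsto_zero]
  refine squeeze_zero' (Eventually.of_forall fun i => norm_nonneg _) ?_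
    (by simpa using (tendsto_zero_iff_norm_tendsto_zero.1 h).const_mul 2)
  filter_upwards [hN] with i hi
  have e1 : ‖T' (j (w i))‖ ≤ ‖T i (j (w i))‖ + ‖(T i - T') (j (w i))‖ := by
    have : T' (j (w i)) = T i (j (w i)) - (T i - T') (j (w i)) := by
      rw [sub_apply]
      abel
    rw [this]
    exact norm_sub_le _ _
  have e2 : ‖(T i - T') (j (w i))‖ ≤ ‖T i - T'‖ * ‖j (w i)‖ := (T i - T').le_opNorm _
  have e3 : ‖T i - T'‖ * ‖j (w i)‖ ≤ 1 / 2 * ‖w i‖ :=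
    mul_le_mul hi.le (hj _) (norm_nonneg _) (by norm_num)
  have e4 := h0 (w i)
  linarith

/-- the velocities converge in the chart centered at the limit point -/
theorem smv_tendsto [CompactSpace M] {ι : Type*} {l : Filter ι} {c : ι → ℝ → M} {c' : ℝ → M} (hc : ∀ i, IsGeo (c i))
    (hc' : IsGeo c') (h : ∀ t, Tendsto (fun i => c i t) l (𝓝 (c' t))) (s : ℝ) :
    Tendsto (fun i => deriv (fun t => 𝒜.ψ (c' s) (c i t)) s) l (𝓝 (deriv (fun t => 𝒜.ψ (c' s) (c' t)) s)) := by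
  obtain ⟨x, hx⟩ : ∃ x, x = c' s := ⟨_, rfl⟩
  rw [← hx]
  obtain ⟨r, hr, hrπ, hU, hs⟩ := smv_ball 𝒜 x
  have hxr : x ∈ ball x r := mem_ball_self hr
  set t := r / 2 with ht
  have ht0 : 0 < t := by positivity
  have key : ∀ {c : ℝ → M}, IsGeo c → dist (c s) x < r / 2 → c s ∈ ball x r ∧ c (s + t) ∈ ball x r ∧
      c s ≠ c (s + t) ∧ fderiv ℝ (smvP 𝒜 x) (𝒜.ψ x (c s), 𝒜.ψ x (c s)) (0, deriv (fun t => 𝒜.ψ x (c t)) s) =
        smvQ 𝒜 x (𝒜.ψ x (c s), 𝒜.ψ x (c (s + t))) := by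
    intro c hc hcx
    have h1 : ∀ τ ∈ Icc 0 t, c (s + τ) ∈ ball x r := by
      intro τ hτ
      rw [mem_ball]
      have h2 := dist_triangle (c (s + τ)) (c s) x
      have h3 := hc.dist_le (s + τ) s
      rw [add_sub_cancel_left, abs_of_nonneg hτ.1] at h3
      linarith [hτ.2]
    have h2 : c s ∈ ball x r := by
      have := h1 0 ⟨le_rfl, ht0.le⟩
      rwa [add_zero] at this
    refine ⟨h2, h1 t ⟨ht0.le, le_rfl⟩, ?_, (smv_geo 𝒜 hU hs hc ht0 (by linarith) h1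
      (IsGeo.smv_differentiableAt 𝒜 hc (hU h2))).1⟩
    rw [← dist_pos, hc, sub_add_cancel_left, abs_neg, abs_of_pos ht0]
    · exact ht0
    · rw [sub_add_cancel_left, abs_neg, abs_of_pos ht0]
      linarith
  have hx0 : dist (c' s) x < r / 2 := by
    rw [hx, dist_self]
    positivity
  obtain ⟨-, hc't, hc'ne, hc'e⟩ := key hc' hx0
  have hs0 : Tendsto (fun i => c i s) l (𝓝 x) := hx ▸ h s
  have hev : ∀ᶠ i in l, dist (c i s) x < r / 2 := hs0.eventually (ball_mem_nhds x (by positivity))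
  -- convergence of the base points
  have hψ : Tendsto (fun i => 𝒜.ψ x (c i s)) l (𝓝 0) := (tendsto_ψ 𝒜 x).comp hs0
  have hψt : Tendsto (fun i => 𝒜.ψ x (c i (s + t))) l (𝓝 (𝒜.ψ x (c' (s + t)))) :=
    ((𝒜.ψ x).continuousAt (hU hc't)).tendsto.comp (h (s + t))
  have hF : ContinuousAt (fderiv ℝ (smvP 𝒜 x)) (0, 0) := by
    have h1 : ContDiffAt ℝ ∞ (smvP 𝒜 x) (0, 0) := by
      have := smv_P_contDiffAt 𝒜 hs hxr hxr
      rwa [𝒜.zero] at this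
    exact (h1.fderiv_right (m := ∞) (by simp)).continuousAt
  have hQ : ContinuousAt (smvQ 𝒜 x) (0, 𝒜.ψ x (c' (s + t))) := by
    have := smv_Q_continuousAt 𝒜 hs hxr hc't (by rw [hx]; exact hc'ne)
    rwa [𝒜.zero] at this
  have hF' : Tendsto (fun i => fderiv ℝ (smvP 𝒜 x) (𝒜.ψ x (c i s), 𝒜.ψ x (c i s))) l
      (𝓝 (fderiv ℝ (smvP 𝒜 x) (0, 0))) := hF.tendsto.comp (hψ.prodMk_nhds hψ)
  have hQ' : Tendsto (fun i => smvQ 𝒜 x (𝒜.ψ x (c i s), 𝒜.ψ x (c i (s + t)))) l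
      (𝓝 (smvQ 𝒜 x (0, 𝒜.ψ x (c' (s + t))))) := hQ.tendsto.comp (hψ.prodMk_nhds hψt)
  set u := deriv (fun t => 𝒜.ψ x (c' t)) s with hu
  rw [← hx, 𝒜.zero] at hc'e
  -- `T i (u i - u) → 0`
  have hT : Tendsto (fun i => fderiv ℝ (smvP 𝒜 x) (𝒜.ψ x (c i s), 𝒜.ψ x (c i s))
      (0, deriv (fun t => 𝒜.ψ x (c i t)) s - u)) l (𝓝 0) := by
    have h1 : Tendsto (fun i => smvQ 𝒜 x (𝒜.ψ x (c i s), 𝒜.ψ x (c i (s + t))) -
        fderiv ℝ (smvP 𝒜 x) (𝒜.ψ x (c i s), 𝒜.ψ x (c i s)) (0, u)) l (𝓝 0) := by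
      have h2 := hQ'.sub (smv_tendsto_apply hF' (tendsto_const_nhds (x := ((0 : Eu n), u))))
      rw [hc'e, sub_self] at h2
      exact h2
    refine h1.congr' ?_
    filter_upwards [hev] with i hi
    obtain ⟨-, -, -, h3⟩ := key (hc i) hi
    rw [← h3, ← map_sub]
    simp
  rw [tendsto_iff_norm_sub_tendsto_zero, ← tendsto_zero_iff_norm_tendsto_zero]
  refine smv_lim (j := fun v : Eu n => ((0 : Eu n), v)) hF' (fun v => by simp [Prod.norm_def]) (fun v => ?_) hT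
  have e1 : ‖v‖ ^ 2 = -(fderiv ℝ (smvP 𝒜 x) (0, 0) (0, v) v) := by
    rw [smv_P_diag, real_inner_self_eq_norm_sq, neg_neg]
  have e2 : |fderiv ℝ (smvP 𝒜 x) (0, 0) (0, v) v| ≤ ‖fderiv ℝ (smvP 𝒜 x) (0, 0) (0, v)‖ * ‖v‖ :=
    (fderiv ℝ (smvP 𝒜 x) (0, 0) (0, v)).le_opNorm v
  rcases eq_or_lt_of_le (norm_nonneg v) with h0 | h0
  · rw [← h0]
    exact norm_nonneg _
  · have e3 : ‖v‖ * ‖v‖ ≤ ‖fderiv ℝ (smvP 𝒜 x) (0, 0) (0, v)‖ * ‖v‖ := by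
      rw [← sq, e1]
      exact (neg_le_abs _).trans e2
    exact le_of_mul_le_mul_right e3 h0

/-- velocities of a convergent family of geodesics converge (in a fixed chart) -/
theorem tendsto_vel [CompactSpace M] {ι : Type*} {l : Filter ι} {c : ι → ℝ → M} {c' : ℝ → M} (hc : ∀ i, IsGeo (c i))
    (hc' : IsGeo c') (h : ∀ t, Tendsto (fun i => c i t) l (𝓝 (c' t))) {p : M} {s : ℝ} (hp : c' s ∈ (𝒜.ψ p).source) :
    Tendsto (fun i => deriv (fun t => 𝒜.ψ p (c i t)) s) l (𝓝 (deriv (fun t => 𝒜.ψ p (c' t)) s)) := by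
  set x := c' s with hx
  have key : ∀ {c : ℝ → M}, IsGeo c → c s ∈ (𝒜.ψ x).source → c s ∈ (𝒜.ψ p).source →
      deriv (fun t => 𝒜.ψ p (c t)) s =
        fderiv ℝ (fun u => 𝒜.ψ p ((𝒜.ψ x).symm u)) (𝒜.ψ x (c s)) (deriv (fun t => 𝒜.ψ x (c t)) s) := by
    intro c hc h1 h2
    have h3 : DifferentiableAt ℝ (fun u => 𝒜.ψ p ((𝒜.ψ x).symm u)) (𝒜.ψ x (c s)) :=
      (𝒜.trans x p (c s) h1 h2).differentiableAt (by simp)
    have h4 := h3.hasFDerivAt.comp_hasDerivAt s (IsGeo.smv_differentiableAt 𝒜 hc h1).hasDerivAt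
    have h5 : (fun t => 𝒜.ψ p (c t)) =ᶠ[𝓝 s] (fun u => 𝒜.ψ p ((𝒜.ψ x).symm u)) ∘ fun t => 𝒜.ψ x (c t) := by
      have h6 : ContinuousAt c s := by
        rw [Metric.continuousAt_iff]
        intro ε hε
        refine ⟨ε, hε, fun y hy => (hc.dist_le y s).trans_lt ?_⟩
        rwa [Real.dist_eq] at hy
      filter_upwards [h6.eventually ((𝒜.ψ x).open_source.mem_nhds h1)] with t ht
      simp only [Function.comp_apply]
      rw [(𝒜.ψ x).left_inv ht]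
    rw [h5.deriv_eq]
    exact h4.deriv
  have hx1 : x ∈ (𝒜.ψ x).source := 𝒜.mem x
  rw [key hc' hx1 hp]
  have h1 : Tendsto (fun i => 𝒜.ψ x (c i s)) l (𝓝 (𝒜.ψ x (c' s))) :=
    ((𝒜.ψ x).continuousAt hx1).tendsto.comp (h s)
  have h2 : ContinuousAt (fderiv ℝ (fun u => 𝒜.ψ p ((𝒜.ψ x).symm u))) (𝒜.ψ x (c' s)) :=
    ((𝒜.trans x p x hx1 hp).fderiv_right (m := ∞) (by simp)).continuousAt
  have h3 := smv_tendsto_apply (h2.tendsto.comp h1) (smv_tendsto 𝒜 hc hc' h s)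
  refine h3.congr' ?_
  filter_upwards [(h s).eventually ((𝒜.ψ x).open_source.mem_nhds hx1),
    (h s).eventually ((𝒜.ψ p).open_source.mem_nhds hp)] with i h4 h5
  exact (key (hc i) h4 h5).symm

end Pool.Agent.Lib.MP_ccbbf6_gt.Geo
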